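import Pool.Agent.SR2.HDefs
import Pool.Agent.SR2.Glo
import Pool.Agent.H14.PP.CurveBasic

/-!
# SR2 Snc2 (module H2 (3), (4)): the components of the boundary and the length

In a chart `E i = co * e` and `H = u * ∏ co ^ b`: the poles `d co / co` cancel in the combination of `snc_cmp'`, the rest is bounded by the length of the
tangent vector in the chart, which is bounded by the Fubini–Study length.  Both sides do not depend on the lift (`global_bound`).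
-/

set_option autoImplicit false

open Topology Filter Metric MvPolynomial

noncomputable section

namespace Pool.Agent.SR2

open Pool.Agent.H36.BP (EN fs wd)
open Pool.Agent.H17BP (Surface IsChart)
open Pool.Agent.H14.PP (IsCone Tan)
open Pool.Agent.H17EF (coneE)

variable {N k M : ℕ}

/-! ## homogeneous maps -/

/-- the derivative of a homogeneous map -/
theorem snc2_hom {W : Type*} [NormedAddCommGroup W] [NormedSpace ℂ W] {G : EN N → W} (hG : ∀ x, DifferentiableAt ℂ G x) {d : ℕ}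
    (hh : ∀ (t : ℂ) (x : EN N), G (t • x) = t ^ d • G x) (x v : EN N) (c a : ℂ) :
    fderiv ℂ G (c • x) (c • v + a • x) = c ^ d • fderiv ℂ G x v + ((d : ℂ) * c ^ (d - 1) * a) • G x := by
  have h2 : HasDerivAt (fun z : ℂ => c + z * a) a 0 := by simpa using ((hasDerivAt_id (0 : ℂ)).mul_const a).const_add c
  have h3 : HasDerivAt (fun z : ℂ => x + z • v) v 0 := by simpa using ((hasDerivAt_id (0 : ℂ)).smul_const v).const_add x
  have h1 : HasDerivAt (fun z : ℂ => (c + z * a) • (x + z • v)) (c • v + a • x) 0 :=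
    HasDerivAt.congr_deriv (f := fun z : ℂ => (c + z * a) • (x + z • v)) (h2.smul h3) (by simp)
  have h4 : HasDerivAt (fun z : ℂ => G ((c + z * a) • (x + z • v))) (fderiv ℂ G (c • x) (c • v + a • x)) 0 :=
    (hG (c • x)).hasFDerivAt.comp_hasDerivAt_of_eq 0 h1 (by simp)
  have h5 : HasDerivAt (fun z : ℂ => G (x + z • v)) (fderiv ℂ G x v) 0 := (hG x).hasFDerivAt.comp_hasDerivAt_of_eq 0 h3 (by simp)
  have h6 := (h2.pow d).smul h5
  have h7 : HasDerivAt (fun z : ℂ => G ((c + z * a) • (x + z • v))) _ 0 := h6.congr_of_eventuallyEq (Eventually.of_forall fun z => hh _ _)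
  rw [h4.unique h7]
  simp

/-- the quotient `⟨g, w⟩ / |g|²` for a multiple -/
theorem snc2_quot {g : EN M} (hg : g ≠ 0) (w : EN M) {κ : ℂ} (hκ : κ ≠ 0) (β : ℂ) :
    inner ℂ (κ • g) (κ • w + β • g) / (‖κ • g‖ : ℂ) ^ 2 = inner ℂ g w / (‖g‖ : ℂ) ^ 2 + β / κ := by
  have hg' : (‖g‖ : ℂ) ≠ 0 := by exact_mod_cast norm_ne_zero_iff.2 hg
  have h1 : (‖κ • g‖ : ℂ) ^ 2 = (starRingEnd ℂ) κ * κ * (‖g‖ : ℂ) ^ 2 := by
    rw [norm_smul, Complex.ofReal_mul, mul_pow, ← Complex.conj_mul']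
  have h2 : inner ℂ g g = (‖g‖ : ℂ) ^ 2 := inner_self_eq_norm_sq_to_K g
  have hc : (starRingEnd ℂ) κ ≠ 0 := (map_ne_zero _).2 hκ
  rw [h1, inner_add_right, inner_smul_left, inner_smul_left, inner_smul_right, inner_smul_right, h2]
  field_simp

/-- `⟨g, w⟩ / |g|²` is bounded by `|w| / |g|` -/
theorem snc2_quot_le {g : EN M} (hg : g ≠ 0) {w : EN M} {B : ℝ} (h : ‖w‖ ≤ B * ‖g‖) : ‖inner ℂ g w / (‖g‖ : ℂ) ^ 2‖ ≤ B := by
  have hg' : 0 < ‖g‖ := norm_pos_iff.2 hg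
  rw [norm_div, norm_pow, Complex.norm_real, norm_norm, div_le_iff₀ (by positivity)]
  calc ‖inner ℂ g w‖ ≤ ‖g‖ * ‖w‖ := norm_inner_le_norm g w
    _ ≤ ‖g‖ * (B * ‖g‖) := mul_le_mul_of_nonneg_left h hg'.le
    _ = B * ‖g‖ ^ 2 := by ring

/-! ## the Fubini–Study length in a chart -/

/-- the part of `v` orthogonal to `x` -/
theorem snc2_wd {x : EN N} (hx : x ≠ 0) (v : EN N) : ‖x‖ * ‖v - (inner ℂ x v / (‖x‖ : ℂ) ^ 2) • x‖ = wd x v := by
  have hx' : (‖x‖ : ℂ) ≠ 0 := by exact_mod_cast norm_ne_zero_iff.2 hx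
  obtain ⟨s, hs⟩ : ∃ s : ℂ, s = inner ℂ x v / (‖x‖ : ℂ) ^ 2 := ⟨_, rfl⟩
  have h1 : wd x (v + (-s) • x) = wd x v := by
    have h := Pool.Agent.H36.BP.wd_inv x v 1 (-s)
    rw [one_smul, one_smul, norm_one, one_pow, one_mul] at h
    exact h
  have h2 : inner ℂ x (v + (-s) • x) = 0 := by
    have h3 : inner ℂ x x = (‖x‖ : ℂ) ^ 2 := inner_self_eq_norm_sq_to_K x
    rw [inner_add_right, inner_smul_right, h3, hs]
    field_simp
    ring
  have h4 : wd x (v + (-s) • x) = ‖x‖ * ‖v + (-s) • x‖ := by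
    unfold Pool.Agent.H36.BP.wd
    rw [h2, norm_zero, ← mul_pow]
    rw [show (‖x‖ * ‖v + (-s) • x‖) ^ 2 - (0 : ℝ) ^ 2 = (‖x‖ * ‖v + (-s) • x‖) ^ 2 by ring]
    exact Real.sqrt_sq (by positivity)
  rw [← hs, ← h1, h4, neg_smul, sub_eq_add_neg]

/-- the length in the chart is bounded by the Fubini–Study length -/
theorem snc2_fs_ge {X : Set (EN N)} {σ : ℂ × ℂ → EN N} {τ : EN N → ℂ × ℂ} (h : IsChart X σ τ) :
    ∃ C : ℝ, 0 ≤ C ∧ ∀ᶠ y in 𝓝 (0 : ℂ × ℂ), ∀ t : ℂ × ℂ, ‖t‖ ≤ C * fs (σ y) (fderiv ℂ σ y t) := by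
  have hσ : Tendsto σ (𝓝 (0 : ℂ × ℂ)) (𝓝 (σ 0)) := h.σ_an.continuousAt
  have hinv : ∀ᶠ x in 𝓝 (σ 0), ∀ᶠ c in 𝓝 (1 : ℂ), τ (c • x) = τ x := by
    have h1 := h.inv
    rw [nhds_prod_eq] at h1
    exact h1.curry
  refine ⟨(‖fderiv ℂ τ (σ 0)‖ + 1) * (‖σ 0‖ + 1), by positivity, ?_⟩
  filter_upwards [h.σ_an.eventually_analyticAt, hσ.eventually h.τ_an.eventually_analyticAt, h.left.eventually_nhds, hσ.eventually hinv,
    hσ.eventually ((h.τ_an.fderiv.continuousAt.norm).eventually (gt_mem_nhds (lt_add_one _))),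
    hσ.norm.eventually (gt_mem_nhds (lt_add_one _)), hσ.eventually_ne h.ne] with y h1 h2 h3 h4 h5 h6 h7 t
  have hy' : 0 < ‖σ y‖ := norm_pos_iff.2 h7
  -- the derivative of `τ ∘ σ`
  have h8 : fderiv ℂ τ (σ y) (fderiv ℂ σ y t) = t := by
    have h9 : HasFDerivAt (fun p => τ (σ p)) ((fderiv ℂ τ (σ y)).comp (fderiv ℂ σ y)) y :=
      h2.differentiableAt.hasFDerivAt.comp y h1.differentiableAt.hasFDerivAt
    have h10 : HasFDerivAt (fun p => τ (σ p)) (ContinuousLinearMap.id ℂ (ℂ × ℂ)) y := (hasFDerivAt_id y).congr_of_eventuallyEq h3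
    have h11 := congrArg (fun T : ℂ × ℂ →L[ℂ] ℂ × ℂ => T t) (h9.unique h10)
    simpa using h11
  -- the radial derivative of `τ`
  have h9 : fderiv ℂ τ (σ y) (σ y) = 0 := by
    have h10 : HasDerivAt (fun c : ℂ => c • σ y) (σ y) 1 := by simpa using (hasDerivAt_id (1 : ℂ)).smul_const (σ y)
    have h11 : HasDerivAt (fun c : ℂ => τ (c • σ y)) (fderiv ℂ τ (σ y) (σ y)) 1 :=
      h2.differentiableAt.hasFDerivAt.comp_hasDerivAt_of_eq 1 h10 (by simp)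
    have h12 : HasDerivAt (fun c : ℂ => τ (c • σ y)) 0 1 := (hasDerivAt_const (1 : ℂ) (τ (σ y))).congr_of_eventuallyEq h4
    exact h11.unique h12
  have h10 : t = fderiv ℂ τ (σ y) (fderiv ℂ σ y t - (inner ℂ (σ y) (fderiv ℂ σ y t) / (‖σ y‖ : ℂ) ^ 2) • σ y) := by
    rw [map_sub, map_smul, h8, h9, smul_zero, sub_zero]
  have h11 := snc2_wd h7 (fderiv ℂ σ y t)
  have h12 : ‖fderiv ℂ σ y t - (inner ℂ (σ y) (fderiv ℂ σ y t) / (‖σ y‖ : ℂ) ^ 2) • σ y‖ = ‖σ y‖ * fs (σ y) (fderiv ℂ σ y t) := by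
    unfold Pool.Agent.H36.BP.fs
    rw [← h11]
    field_simp
  have h13 : 0 ≤ fs (σ y) (fderiv ℂ σ y t) := Pool.Agent.H36.BP.fs_nonneg _ _
  calc ‖t‖ = ‖fderiv ℂ τ (σ y) (fderiv ℂ σ y t - (inner ℂ (σ y) (fderiv ℂ σ y t) / (‖σ y‖ : ℂ) ^ 2) • σ y)‖ := by rw [← h10]
    _ ≤ ‖fderiv ℂ τ (σ y)‖ * (‖σ y‖ * fs (σ y) (fderiv ℂ σ y t)) := by rw [← h12]; exact ContinuousLinearMap.le_opNorm _ _
    _ ≤ (‖fderiv ℂ τ (σ 0)‖ + 1) * ((‖σ 0‖ + 1) * fs (σ y) (fderiv ℂ σ y t)) :=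
      mul_le_mul h5.le (mul_le_mul_of_nonneg_right h6.le h13) (by positivity) (by positivity)
    _ = _ := by ring

/-- the logarithmic derivative of a function without zeros is bounded -/
theorem snc2_rel {W : Type*} [NormedAddCommGroup W] [NormedSpace ℂ W] [CompleteSpace W] {e : ℂ × ℂ → W} (he : AnalyticAt ℂ e 0) (h0 : e 0 ≠ 0) :
    ∃ K : ℝ, 0 ≤ K ∧ ∀ᶠ y in 𝓝 (0 : ℂ × ℂ), AnalyticAt ℂ e y ∧ e y ≠ 0 ∧ ∀ t, ‖fderiv ℂ e y t‖ ≤ K * ‖t‖ * ‖e y‖ := by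
  have h1 : ContinuousAt (fun y => ‖fderiv ℂ e y‖ / ‖e y‖) 0 := he.fderiv.continuousAt.norm.div he.continuousAt.norm (norm_ne_zero_iff.2 h0)
  refine ⟨‖fderiv ℂ e 0‖ / ‖e 0‖ + 1, by positivity, ?_⟩
  filter_upwards [he.eventually_analyticAt, he.continuousAt.eventually_ne h0, h1.eventually (gt_mem_nhds (lt_add_one _))] with y h2 h3 h4
  refine ⟨h2, h3, fun t => ?_⟩
  have h5 : 0 < ‖e y‖ := norm_pos_iff.2 h3
  rw [div_lt_iff₀ h5] at h4
  calc ‖fderiv ℂ e y t‖ ≤ ‖fderiv ℂ e y‖ * ‖t‖ := ContinuousLinearMap.le_opNorm _ _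
    _ ≤ ((‖fderiv ℂ e 0‖ / ‖e 0‖ + 1) * ‖e y‖) * ‖t‖ := mul_le_mul_of_nonneg_right h4.le (norm_nonneg _)
    _ = _ := by ring

/-! ## the forms -/

theorem snc2_diffH (H : MvPolynomial (Fin (N + 1)) ℂ) (x : EN N) : DifferentiableAt ℂ (fun y : EN N => eval y.ofLp H) x := by
  have h : ∀ i : Fin (N + 1), AnalyticAt ℂ (fun x : EN N => x.ofLp i) x := fun i =>
    (EuclideanSpace.proj (𝕜 := ℂ) (ι := Fin (N + 1)) i : EN N →L[ℂ] ℂ).analyticAt x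
  have h1 := AnalyticAt.aeval_mvPolynomial (𝕜 := ℂ) h H
  simp only [aeval_eq_eval] at h1
  exact h1.differentiableAt

theorem snc2_evalH {H : MvPolynomial (Fin (N + 1)) ℂ} {h : ℕ} (hH : H.IsHomogeneous h) (t : ℂ) (x : EN N) :
    eval (t • x).ofLp H = t ^ h * eval x.ofLp H := by
  rw [MvPolynomial.eval_eq', MvPolynomial.eval_eq', Finset.mul_sum]
  apply Finset.sum_congr rfl
  intro m hm
  have hdeg : ∑ i, m i = h := by
    have := hH (MvPolynomial.mem_support_iff.1 hm)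
    rw [Finsupp.weight_apply] at this
    simpa [Finsupp.sum_fintype] using this
  have h1 : ∏ i, (t • x).ofLp i ^ m i = t ^ h * ∏ i, x.ofLp i ^ m i := by
    rw [← hdeg, ← Finset.prod_pow_eq_pow_sum, ← Finset.prod_mul_distrib]
    exact Finset.prod_congr rfl fun i _ => by simp [mul_pow]
  rw [h1]
  ring

theorem snc2_diffE (E : Fin (M + 1) → MvPolynomial (Fin (N + 1)) ℂ) (x : EN N) : DifferentiableAt ℂ (vec E) x := by
  unfold vec
  have h : DifferentiableAt ℂ (fun y : EN N => fun l => eval y.ofLp (E l)) x := differentiableAt_pi.2 fun l => snc2_diffH (E l) x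
  exact (PiLp.continuousLinearEquiv 2 ℂ (fun _ : Fin (M + 1) => ℂ)).symm.differentiableAt.comp x h

theorem snc2_homE {E : Fin (M + 1) → MvPolynomial (Fin (N + 1)) ℂ} {c : ℕ} (hE : ∀ l, (E l).IsHomogeneous c) (t : ℂ) (x : EN N) :
    vec E (t • x) = t ^ c • vec E x := by
  ext l
  exact snc2_evalH (hE l) t x

theorem snc2_co_diff (s : Option Bool) (y : ℂ × ℂ) : DifferentiableAt ℂ (co s) y := by
  cases s with
  | none => exact differentiableAt_const _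
  | some b => cases b with
    | false => exact differentiableAt_fst
    | true => exact differentiableAt_snd

/-- `E` in a chart -/
theorem snc2_E {E : Fin (M + 1) → MvPolynomial (Fin (N + 1)) ℂ} {σ : ℂ × ℂ → EN N} {s : Option Bool} {e : ℂ × ℂ → EN M} {y : ℂ × ℂ}
    (hσ : DifferentiableAt ℂ σ y) (he : DifferentiableAt ℂ e y) (h : ∀ᶠ y' in 𝓝 y, vec E (σ y') = co s y' • e y') (t : ℂ × ℂ) :
    fderiv ℂ (vec E) (σ y) (fderiv ℂ σ y t) = co s y • fderiv ℂ e y t + fderiv ℂ (co s) y t • e y := by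
  have h1 : HasFDerivAt (fun y => vec E (σ y)) ((fderiv ℂ (vec E) (σ y)).comp (fderiv ℂ σ y)) y :=
    (snc2_diffE E (σ y)).hasFDerivAt.comp y hσ.hasFDerivAt
  have h2 := ((snc2_co_diff s y).hasFDerivAt.smul he.hasFDerivAt).congr_of_eventuallyEq h
  have h3 := congrArg (fun T : ℂ × ℂ →L[ℂ] EN M => T t) (h1.unique h2)
  simpa using h3

/-- `H` in a chart -/
theorem snc2_H {H : MvPolynomial (Fin (N + 1)) ℂ} {σ : ℂ × ℂ → EN N} {s : Fin k → Option Bool} {b : Fin k → ℕ} {u : ℂ × ℂ → ℂ} {y : ℂ × ℂ}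
    (hσ : DifferentiableAt ℂ σ y) (hu : DifferentiableAt ℂ u y) (hu0 : u y ≠ 0) (hs : ∀ i, co (s i) y ≠ 0)
    (h : ∀ᶠ y' in 𝓝 y, eval (σ y').ofLp H = u y' * ∏ i, co (s i) y' ^ b i) (t : ℂ × ℂ) :
    fderiv ℂ (fun y : EN N => eval y.ofLp H) (σ y) (fderiv ℂ σ y t) / eval (σ y).ofLp H =
      fderiv ℂ u y t / u y + ∑ i, (b i : ℂ) * (fderiv ℂ (co (s i)) y t / co (s i) y) := by
  have hl : HasDerivAt (fun z : ℂ => y + z • t) t 0 := by simpa using ((hasDerivAt_id (0 : ℂ)).smul_const t).const_add y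
  have hl0 : Tendsto (fun z : ℂ => y + z • t) (𝓝 0) (𝓝 y) := by
    have := hl.continuousAt.tendsto
    simpa using this
  have h1 : HasDerivAt (fun z : ℂ => σ (y + z • t)) (fderiv ℂ σ y t) 0 := hσ.hasFDerivAt.comp_hasDerivAt_of_eq 0 hl (by simp)
  have h2 : HasDerivAt (fun z : ℂ => eval (σ (y + z • t)).ofLp H) (fderiv ℂ (fun y : EN N => eval y.ofLp H) (σ y) (fderiv ℂ σ y t)) 0 :=
    (snc2_diffH H (σ y)).hasFDerivAt.comp_hasDerivAt_of_eq 0 h1 (by simp)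
  have h3 : HasDerivAt (fun z : ℂ => u (y + z • t)) (fderiv ℂ u y t) 0 := hu.hasFDerivAt.comp_hasDerivAt_of_eq 0 hl (by simp)
  have h4 : ∀ i, HasDerivAt (fun z : ℂ => co (s i) (y + z • t)) (fderiv ℂ (co (s i)) y t) 0 := fun i =>
    (snc2_co_diff (s i) y).hasFDerivAt.comp_hasDerivAt_of_eq 0 hl (by simp)
  have h5' : (fun z : ℂ => eval (σ (y + z • t)).ofLp H) =ᶠ[𝓝 0] fun z : ℂ => u (y + z • t) * ∏ i, co (s i) (y + z • t) ^ b i := hl0.eventually h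
  have h5 : logDeriv (fun z : ℂ => eval (σ (y + z • t)).ofLp H) 0 =
      logDeriv (fun z : ℂ => u (y + z • t) * ∏ i, co (s i) (y + z • t) ^ b i) 0 :=
    (logDeriv_congr_nhds h5').self_of_nhds
  have h6 : logDeriv (fun z : ℂ => u (y + z • t) * ∏ i, co (s i) (y + z • t) ^ b i) 0 =
      logDeriv (fun z : ℂ => u (y + z • t)) 0 + logDeriv (fun z : ℂ => ∏ i, co (s i) (y + z • t) ^ b i) 0 := by
    refine logDeriv_mul (f := fun z : ℂ => u (y + z • t)) (g := fun z : ℂ => ∏ i, co (s i) (y + z • t) ^ b i) 0 (by simpa using hu0) ?_ h3.differentiableAt ?_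
    · simp only [zero_smul, add_zero]
      exact Finset.prod_ne_zero_iff.2 fun i _ => pow_ne_zero _ (hs i)
    · exact DifferentiableAt.fun_finsetProd fun i _ => (h4 i).differentiableAt.pow _
  have h7 : logDeriv (fun z : ℂ => ∏ i, co (s i) (y + z • t) ^ b i) 0 = ∑ i, logDeriv (fun z : ℂ => co (s i) (y + z • t) ^ b i) 0 := by
    refine logDeriv_prod (s := Finset.univ) (f := fun i (z : ℂ) => co (s i) (y + z • t) ^ b i) (x := 0) (fun i _ => ?_) fun i _ => (h4 i).differentiableAt.pow _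
    simp only [zero_smul, add_zero]
    exact pow_ne_zero _ (hs i)
  have h8 : ∀ i, logDeriv (fun z : ℂ => co (s i) (y + z • t) ^ b i) 0 = (b i : ℂ) * (fderiv ℂ (co (s i)) y t / co (s i) y) := by
    intro i
    rw [logDeriv_fun_pow (h4 i).differentiableAt, logDeriv_apply, (h4 i).deriv, zero_smul, add_zero]
  rw [h6, h7, logDeriv_apply, logDeriv_apply, h2.deriv, h3.deriv, zero_smul, add_zero] at h5
  rw [h5]
  congr 1
  exact Finset.sum_congr rfl fun i _ => h8 i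

section main

variable {P : Ideal (MvPolynomial (Fin (N + 1)) ℂ)} {H : MvPolynomial (Fin (N + 1)) ℂ} {h : ℕ} {E : Fin k → Fin (M + 1) → MvPolynomial (Fin (N + 1)) ℂ}
  {c b : Fin k → ℕ}

theorem snc2_oc {x : EN N} : x ∈ oc P H ↔ x ∈ coneE P ∧ eval x.ofLp H ≠ 0 :=
  ⟨fun h => ⟨h.1, h.2 0⟩, fun h => ⟨h.1, fun _ => h.2⟩⟩

theorem snc2_co_ne {s : Fin k → Option Bool} {u : ℂ × ℂ → ℂ} {y : ℂ × ℂ} {w : ℂ} (hb : ∀ i, 1 ≤ b i) (h : w = u y * ∏ i, co (s i) y ^ b i)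
    (hw : w ≠ 0) (i : Fin k) : co (s i) y ≠ 0 := by
  intro h0
  apply hw
  rw [h, Finset.prod_eq_zero (Finset.mem_univ i) (by rw [h0, zero_pow (by have := hb i; omega)]), mul_zero]

theorem snc2_ne (hs : Snc P H E b) (i : Fin k) {x : EN N} (hx : x ∈ oc P H) : vec (E i) x ≠ 0 := by
  obtain ⟨hx1, hx2⟩ := snc2_oc.1 hx
  obtain ⟨σ, τ, s, e, u, -, h0, -, h1, -, -, h2⟩ := hs.chart x hx1
  have h3 := (h1 i).2.2.self_of_nhds
  have h4 := h2.self_of_nhds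
  rw [h0] at h3 h4
  rw [h3]
  exact smul_ne_zero (snc2_co_ne hs.pos h4 hx2 i) (h1 i).2.1

theorem snc2_oc_of (hs : Snc P H E b) {x : EN N} (hx : x ∈ coneE P) (h : ∀ i, vec (E i) x ≠ 0) : x ∈ oc P H := by
  obtain ⟨σ, τ, s, e, u, -, h0, -, h1, -, hu0, h2⟩ := hs.chart x hx
  refine snc2_oc.2 ⟨hx, ?_⟩
  have h4 := h2.self_of_nhds
  rw [h0] at h4
  rw [h4]
  refine mul_ne_zero hu0 (Finset.prod_ne_zero_iff.2 fun i _ => pow_ne_zero _ fun h5 => h i ?_)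
  have h3 := (h1 i).2.2.self_of_nhds
  rw [h0, h5, zero_smul] at h3
  exact h3

theorem snc2_oc_smul (hX : Surface (coneE P)) (hH : H.IsHomogeneous h) : ∀ x ∈ oc P H, ∀ c : ℂ, c ≠ 0 → c • x ∈ oc P H := by
  intro x hx c hc
  obtain ⟨hx1, hx2⟩ := snc2_oc.1 hx
  refine snc2_oc.2 ⟨hX.smul x hx1 c hc, ?_⟩
  rw [snc2_evalH hH]
  exact mul_ne_zero (pow_ne_zero _ hc) hx2

theorem snc2_ell_inv (hE : ∀ i l, (E i l).IsHomogeneous (c i)) (i : Fin k) {x : EN N} (hx : x ≠ 0) (hEx : vec (E i) x ≠ 0) (v : EN N) {κ : ℂ} (hκ : κ ≠ 0)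
    (a : ℂ) : ellE (E i) (c i) (κ • x) (κ • v + a • x) = ellE (E i) (c i) x v := by
  unfold ellE
  rw [snc2_hom (snc2_diffE (E i)) (snc2_homE (hE i)), snc2_homE (hE i), snc2_quot hEx _ (pow_ne_zero _ hκ), snc2_quot hx v hκ a]
  rcases Nat.eq_zero_or_pos (c i) with h0 | h0
  · rw [h0]
    simp
  · have h1 : κ ^ c i = κ ^ (c i - 1) * κ := by rw [← pow_succ, Nat.sub_add_cancel h0]
    rw [h1]
    have h2 : κ ^ (c i - 1) ≠ 0 := pow_ne_zero _ hκ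
    field_simp
    ring

/-- MODULE H2 (3) -/
theorem snc_cmp' (hX : Surface (coneE P)) (hc : IsCone (coneE P)) (hH : H.IsHomogeneous h) (hE : ∀ i l, (E i l).IsHomogeneous (c i))
    (hs : Snc P H E b) :
    ∃ C : ℝ, ∀ x ∈ oc P H, ∀ v, Tan (coneE P) x v →
      ‖(h : ℂ) * (inner ℂ x v / (‖x‖ : ℂ) ^ 2) - fderiv ℂ (fun y : EN N => eval y.ofLp H) x v / eval x.ofLp H +
        ∑ i, (b i : ℂ) * ellE (E i) (c i) x v‖ ≤ C * fs x v := by
  refine global_bound (X := coneE P) (K := oc P H) (Q := fun C x v => ‖(h : ℂ) * (inner ℂ x v / (‖x‖ : ℂ) ^ 2) -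
    fderiv ℂ (fun y : EN N => eval y.ofLp H) x v / eval x.ofLp H + ∑ i, (b i : ℂ) * ellE (E i) (c i) x v‖ ≤ C * fs x v) hX hc
    (fun x hx => hx.1) (snc2_oc_smul hX hH) ?_ ?_ ?_
  · intro C C' x v hCC hQ
    exact hQ.trans (mul_le_mul_of_nonneg_right hCC (Pool.Agent.H36.BP.fs_nonneg _ _))
  · intro C x hx v _ κ a hκ hQ
    obtain ⟨hx1, hx2⟩ := snc2_oc.1 hx
    have hx0 : x ≠ 0 := fun h0 => hX.zero (h0 ▸ hx1)
    have e1 : fderiv ℂ (fun y : EN N => eval y.ofLp H) (κ • x) (κ • v + a • x) / eval (κ • x).ofLp H =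
        fderiv ℂ (fun y : EN N => eval y.ofLp H) x v / eval x.ofLp H + (h : ℂ) * (a / κ) := by
      rw [snc2_hom (snc2_diffH H) (fun t x => by rw [smul_eq_mul]; exact snc2_evalH hH t x), snc2_evalH hH]
      rcases Nat.eq_zero_or_pos h with h0 | h0
      · rw [h0]
        simp
      · have h1 : κ ^ h = κ ^ (h - 1) * κ := by rw [← pow_succ, Nat.sub_add_cancel h0]
        rw [h1]
        have h2 : κ ^ (h - 1) ≠ 0 := pow_ne_zero _ hκ
        simp only [smul_eq_mul]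
        field_simp
    have e2 : ∀ i, ellE (E i) (c i) (κ • x) (κ • v + a • x) = ellE (E i) (c i) x v := fun i => snc2_ell_inv hE i hx0 (snc2_ne hs i hx) v hκ a
    rw [e1, snc2_quot hx0 v hκ a, Pool.Agent.H36.BP.fs_inv hx0 v hκ a]
    simp only [e2]
    refine le_trans (le_of_eq ?_) hQ
    congr 1
    ring
  · intro x hx
    obtain ⟨σ, τ, s, e, u, hch, h0, -, h1, hu, hu0, h2⟩ := hs.chart x hx
    refine ⟨σ, τ, hch, h0, ?_⟩
    obtain ⟨Cf, hCf, hfs⟩ := snc2_fs_ge hch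
    obtain ⟨Kσ, hKσ, hσ⟩ := snc2_rel hch.σ_an hch.ne
    obtain ⟨Ku, hKu, huu⟩ := snc2_rel hu hu0
    have h3 := fun i => snc2_rel (h1 i).1 (h1 i).2.1
    choose K hK hee using h3
    refine ⟨(h * Kσ + Ku + ∑ i, (b i : ℝ) * (K i + c i * Kσ)) * Cf, ?_⟩
    have h4 : ∀ᶠ y in 𝓝 (0 : ℂ × ℂ), ∀ i, ∀ᶠ y' in 𝓝 y, vec (E i) (σ y') = co (s i) y' • e i y' := by
      rw [eventually_all]
      exact fun i => (h1 i).2.2.eventually_nhds
    have h5 : ∀ᶠ y in 𝓝 (0 : ℂ × ℂ), ∀ i, AnalyticAt ℂ (e i) y ∧ e i y ≠ 0 ∧ ∀ t, ‖fderiv ℂ (e i) y t‖ ≤ K i * ‖t‖ * ‖e i y‖ := by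
      rw [eventually_all]
      exact hee
    filter_upwards [hfs, hσ, huu, h4, h5, h2.eventually_nhds] with y g1 g2 g3 g4 g5 g6 hyK t
    obtain ⟨hy1, hy2⟩ := snc2_oc.1 hyK
    have hco : ∀ i, co (s i) y ≠ 0 := fun i => snc2_co_ne hs.pos g6.self_of_nhds hy2 i
    have ex : ‖inner ℂ (σ y) (fderiv ℂ σ y t) / (‖σ y‖ : ℂ) ^ 2‖ ≤ Kσ * ‖t‖ := snc2_quot_le g2.2.1 (g2.2.2 t)
    have eu : ‖fderiv ℂ u y t / u y‖ ≤ Ku * ‖t‖ := by
      rw [norm_div, div_le_iff₀ (norm_pos_iff.2 g3.2.1)]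
      exact g3.2.2 t
    have ee : ∀ i, ellE (E i) (c i) (σ y) (fderiv ℂ σ y t) = fderiv ℂ (co (s i)) y t / co (s i) y +
        (inner ℂ (e i y) (fderiv ℂ (e i) y t) / (‖e i y‖ : ℂ) ^ 2 - (c i : ℂ) * (inner ℂ (σ y) (fderiv ℂ σ y t) / (‖σ y‖ : ℂ) ^ 2)) := by
      intro i
      unfold ellE
      rw [snc2_E g2.1.differentiableAt (g5 i).1.differentiableAt (g4 i) t, (g4 i).self_of_nhds, snc2_quot (g5 i).2.1 _ (hco i)]
      ring
    have eH := snc2_H g2.1.differentiableAt g3.1.differentiableAt g3.2.1 hco g6 t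
    have eb : ∀ i, ‖inner ℂ (e i y) (fderiv ℂ (e i) y t) / (‖e i y‖ : ℂ) ^ 2 - (c i : ℂ) * (inner ℂ (σ y) (fderiv ℂ σ y t) / (‖σ y‖ : ℂ) ^ 2)‖ ≤
        (K i + c i * Kσ) * ‖t‖ := by
      intro i
      refine (norm_sub_le _ _).trans ?_
      rw [norm_mul, Complex.norm_natCast]
      have q1 := snc2_quot_le (g5 i).2.1 ((g5 i).2.2 t)
      have q2 := mul_le_mul_of_nonneg_left ex (Nat.cast_nonneg (α := ℝ) (c i))
      linarith
    have hsum : (h : ℂ) * (inner ℂ (σ y) (fderiv ℂ σ y t) / (‖σ y‖ : ℂ) ^ 2) -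
        fderiv ℂ (fun y : EN N => eval y.ofLp H) (σ y) (fderiv ℂ σ y t) / eval (σ y).ofLp H + ∑ i, (b i : ℂ) * ellE (E i) (c i) (σ y) (fderiv ℂ σ y t) =
        (h : ℂ) * (inner ℂ (σ y) (fderiv ℂ σ y t) / (‖σ y‖ : ℂ) ^ 2) - fderiv ℂ u y t / u y + ∑ i, (b i : ℂ) *
          (inner ℂ (e i y) (fderiv ℂ (e i) y t) / (‖e i y‖ : ℂ) ^ 2 - (c i : ℂ) * (inner ℂ (σ y) (fderiv ℂ σ y t) / (‖σ y‖ : ℂ) ^ 2)) := by
      rw [eH]
      simp only [ee, mul_add, Finset.sum_add_distrib]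
      ring
    rw [hsum]
    have f1 : ‖(h : ℂ) * (inner ℂ (σ y) (fderiv ℂ σ y t) / (‖σ y‖ : ℂ) ^ 2)‖ ≤ h * (Kσ * ‖t‖) := by
      rw [norm_mul, Complex.norm_natCast]
      exact mul_le_mul_of_nonneg_left ex (Nat.cast_nonneg _)
    have f2 : ‖∑ i, (b i : ℂ) * (inner ℂ (e i y) (fderiv ℂ (e i) y t) / (‖e i y‖ : ℂ) ^ 2 -
        (c i : ℂ) * (inner ℂ (σ y) (fderiv ℂ σ y t) / (‖σ y‖ : ℂ) ^ 2))‖ ≤ (∑ i, (b i : ℝ) * (K i + c i * Kσ)) * ‖t‖ := by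
      rw [Finset.sum_mul]
      refine norm_sum_le_of_le _ fun i _ => ?_
      rw [norm_mul, Complex.norm_natCast, mul_assoc]
      exact mul_le_mul_of_nonneg_left (eb i) (Nat.cast_nonneg _)
    have f3 := norm_add_le ((h : ℂ) * (inner ℂ (σ y) (fderiv ℂ σ y t) / (‖σ y‖ : ℂ) ^ 2) - fderiv ℂ u y t / u y) (∑ i, (b i : ℂ) *
      (inner ℂ (e i y) (fderiv ℂ (e i) y t) / (‖e i y‖ : ℂ) ^ 2 - (c i : ℂ) * (inner ℂ (σ y) (fderiv ℂ σ y t) / (‖σ y‖ : ℂ) ^ 2)))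
    have f4 := norm_sub_le ((h : ℂ) * (inner ℂ (σ y) (fderiv ℂ σ y t) / (‖σ y‖ : ℂ) ^ 2)) (fderiv ℂ u y t / u y)
    have hA : 0 ≤ h * Kσ + Ku + ∑ i, (b i : ℝ) * (K i + c i * Kσ) := by
      have : 0 ≤ ∑ i, (b i : ℝ) * (K i + c i * Kσ) := Finset.sum_nonneg fun i _ => mul_nonneg (Nat.cast_nonneg _)
        (add_nonneg (hK i) (mul_nonneg (Nat.cast_nonneg _) hKσ))
      positivity
    have f5 := mul_le_mul_of_nonneg_left (g1 t) hA
    have f6 : (h * Kσ + Ku + ∑ i, (b i : ℝ) * (K i + c i * Kσ)) * ‖t‖ = h * (Kσ * ‖t‖) + Ku * ‖t‖ + (∑ i, (b i : ℝ) * (K i + c i * Kσ)) * ‖t‖ := by ring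
    have f7 : (h * Kσ + Ku + ∑ i, (b i : ℝ) * (K i + c i * Kσ)) * (Cf * fs (σ y) (fderiv ℂ σ y t)) =
      (h * Kσ + Ku + ∑ i, (b i : ℝ) * (K i + c i * Kσ)) * Cf * fs (σ y) (fderiv ℂ σ y t) := by ring
    linarith

/-- MODULE H2 (4) -/
theorem snc_fs (hX : Surface (coneE P)) (hc : IsCone (coneE P)) (hE : ∀ i l, (E i l).IsHomogeneous (c i)) (hs : Snc P H E b) :
    ∃ C : ℝ, 0 ≤ C ∧ ∀ i, ∀ x ∈ oc P H, ∀ v, Tan (coneE P) x v → fs (vec (E i) x) (fderiv ℂ (vec (E i)) x v) ≤ C * fs x v := by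
  obtain ⟨C, hC⟩ : ∃ C : ℝ, ∀ x ∈ oc P H, ∀ v, Tan (coneE P) x v → ∀ i, fs (vec (E i) x) (fderiv ℂ (vec (E i)) x v) ≤ C * fs x v := by
    refine global_bound (X := coneE P) (K := oc P H) (Q := fun C x v => ∀ i, fs (vec (E i) x) (fderiv ℂ (vec (E i)) x v) ≤ C * fs x v) hX hc
      (fun x hx => hx.1) ?_ ?_ ?_ ?_
    · intro x hx κ hκ
      refine snc2_oc_of hs (hX.smul x hx.1 κ hκ) fun i => ?_
      rw [snc2_homE (hE i)]
      exact smul_ne_zero (pow_ne_zero _ hκ) (snc2_ne hs i hx)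
    · intro C C' x v hCC hQ i
      exact (hQ i).trans (mul_le_mul_of_nonneg_right hCC (Pool.Agent.H36.BP.fs_nonneg _ _))
    · intro C x hx v _ κ a hκ hQ i
      have hx0 : x ≠ 0 := fun h0 => hX.zero (h0 ▸ hx.1)
      rw [snc2_hom (snc2_diffE (E i)) (snc2_homE (hE i)), snc2_homE (hE i), Pool.Agent.H36.BP.fs_inv (snc2_ne hs i hx) _ (pow_ne_zero _ hκ),
        Pool.Agent.H36.BP.fs_inv hx0 v hκ a]
      exact hQ i
    · intro x hx
      obtain ⟨σ, τ, s, e, u, hch, h0, -, h1, hu, hu0, h2⟩ := hs.chart x hx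
      refine ⟨σ, τ, hch, h0, ?_⟩
      obtain ⟨Cf, hCf, hfs⟩ := snc2_fs_ge hch
      obtain ⟨Kσ, hKσ, hσ⟩ := snc2_rel hch.σ_an hch.ne
      have h3 := fun i => snc2_rel (h1 i).1 (h1 i).2.1
      choose K hK hee using h3
      refine ⟨(∑ i, K i) * Cf, ?_⟩
      have h4 : ∀ᶠ y in 𝓝 (0 : ℂ × ℂ), ∀ i, ∀ᶠ y' in 𝓝 y, vec (E i) (σ y') = co (s i) y' • e i y' := by
        rw [eventually_all]
        exact fun i => (h1 i).2.2.eventually_nhds
      have h5 : ∀ᶠ y in 𝓝 (0 : ℂ × ℂ), ∀ i, AnalyticAt ℂ (e i) y ∧ e i y ≠ 0 ∧ ∀ t, ‖fderiv ℂ (e i) y t‖ ≤ K i * ‖t‖ * ‖e i y‖ := by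
        rw [eventually_all]
        exact hee
      filter_upwards [hfs, hσ, h4, h5, h2] with y g1 g2 g4 g5 g6 hyK t i
      obtain ⟨hy1, hy2⟩ := snc2_oc.1 hyK
      have hco : ∀ i, co (s i) y ≠ 0 := fun i => snc2_co_ne hs.pos g6 hy2 i
      rw [snc2_E g2.1.differentiableAt (g5 i).1.differentiableAt (g4 i) t, (g4 i).self_of_nhds, Pool.Agent.H36.BP.fs_inv (g5 i).2.1 _ (hco i)]
      have q1 : fs (e i y) (fderiv ℂ (e i) y t) ≤ K i * ‖t‖ := by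
        refine (Pool.Agent.H14.PP.fs_le (g5 i).2.1 _).trans ?_
        rw [div_le_iff₀ (norm_pos_iff.2 (g5 i).2.1)]
        exact (g5 i).2.2 t
      calc fs (e i y) (fderiv ℂ (e i) y t) ≤ K i * ‖t‖ := q1
        _ ≤ (∑ i, K i) * (Cf * fs (σ y) (fderiv ℂ σ y t)) :=
          mul_le_mul (Finset.single_le_sum (fun j _ => hK j) (Finset.mem_univ i)) (g1 t) (norm_nonneg _) (Finset.sum_nonneg fun j _ => hK j)
        _ = _ := by ring
  exact ⟨max C 0, le_max_right _ _, fun i x hx v hv => (hC x hx v hv i).trans (mul_le_mul_of_nonneg_right (le_max_left _ _)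
    (Pool.Agent.H36.BP.fs_nonneg _ _))⟩

end main

end Pool.Agent.SR2
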