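import Pool.Agent.SR2.MetG
import Pool.Agent.H22.WL.Proj

/-!
# SR2 MetA: the first metric, with the condition on the null curves
-/

set_option autoImplicit false

open Topology Filter Metric MvPolynomial

noncomputable section

namespace Pool.Agent.SR2

open Pool.Agent.H36.BP (EN fs Sub OrdTwo)
open Pool.Agent.H17BP (Surface IsForm NoZeros IsChart)
open Pool.Agent.H14.KB (rhoS)
open Pool.Agent.H14.PP (IsCone Tan)
open Pool.Agent.H14.V (IsLift isLift_mk)
open Pool.Agent.H17 (PN VanishesAt HolomorphicInto)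
open Pool.Agent.H62.FC (Homog)
open Pool.Agent.H17LG.Variety (FunField)
open Pool.Agent.H17EF (coneE projVar LE)
open Pool.Agent.H13.SM (cone)
open Pool.Agent.H13.OT (OrderTwo)
open Pool.Agent.H22.WL (evF vanishesAt_lift)
open Pool.Agent.AD (SymDiff TangentTo)
open Pool.Agent.AD.NC (IsSmooth)
open Pool.Agent.SDA (openCone EnergyK Near nForms)

variable {N k M : ℕ} {P : Ideal (MvPolynomial (Fin (N + 1)) ℂ)} {H : MvPolynomial (Fin (N + 1)) ℂ} {h : ℕ}
  {E : Fin k → Fin (M + 1) → MvPolynomial (Fin (N + 1)) ℂ} {c b : Fin k → ℕ}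

/-- from the characteristic function to the averages -/
private theorem orderTwo_of_ordTwo {F : ℂ → EN N} {f : ℂ → PN N} (h : IsLift F f) (hF : OrdTwo F) : OrderTwo f := by
  have h1 : OrdTwo fun z => (LE N).symm (F z) := Pool.Agent.H17EF.ordTwo_symm hF
  have h2 : Differentiable ℂ fun z => (LE N).symm (F z) := (LE N).symm.differentiable.comp h.1
  have h3 : ∀ z, (LE N).symm (F z) ≠ 0 := fun z => (h.2 z).1
  have h4 : ∀ z, Pool.Agent.H17BP.HolP (fun z => (LE N).symm (F z)) z := by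
    intro z
    exact ⟨fun z => (LE N).symm (F z), h2.analyticAt z, h3 z, Eventually.of_forall fun w => ⟨1, one_ne_zero, by simp⟩⟩
  have h5 := Pool.Agent.H13.OT.OrdTwo.orderTwo h3 h4 h1
  have h6 : f = fun z => Projectivization.mk ℂ ((LE N).symm (F z)) (h3 z) := by
    funext z
    exact (h.2 z).2
  rw [h6]
  exact h5

/-- The null curves of order two lie in the curve `{R l = 0 for all l}`. -/
theorem null_mem (hP : Homog P) (hH : H.IsHomogeneous h) {s : ℕ} {m : Fin s → ℕ} (hm : ∀ j, 1 ≤ m j) (θ : ∀ j, SymDiff (oc P H) (m j)) {t : ℕ}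
    {R : Fin t → MvPolynomial (Fin (N + 1)) ℂ} (hnull : NullCurve θ R) {F : ℂ → EN N} (hF : Differentiable ℂ F) (hK : ∀ z, F z ∈ oc P H)
    (ho : OrdTwo F) (h0 : ∀ z, nForms m (fun j => (θ j).toFun) (F z) (deriv F z) = 0) :
    (∀ l z, eval (F z).ofLp (R l) = 0) ∨ ∀ z w, ∃ c : ℂ, F z = c • F w := by
  have hFX : ∀ z, F z ∈ coneE P := fun z => (hK z).1
  have hne : ∀ z, (F z).ofLp ≠ 0 := fun z => (hFX z).1
  have hl := isLift_mk hF hne
  by_cases hcon : ∃ z w, (fun z => Projectivization.mk ℂ (F z).ofLp (hne z)) z ≠ (fun z => Projectivization.mk ℂ (F z).ofLp (hne z)) w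
  · left
    have hzero : ∀ j z, (θ j).toFun (F z) (deriv F z) = 0 := by
      intro j z
      have h1 : ∑ j, ‖(θ j).toFun (F z) (deriv F z)‖ ^ ((m j : ℝ)⁻¹) = 0 := h0 z
      have h2 := (Finset.sum_eq_zero_iff_of_nonneg fun j _ => Real.rpow_nonneg (norm_nonneg ((θ j).toFun (F z) (deriv F z))) _).1 h1 j
        (Finset.mem_univ j)
      have h3 : ((m j : ℝ)⁻¹) ≠ 0 := by
        have : (m j : ℝ) ≠ 0 := by
          have := hm j
          positivity
        exact inv_ne_zero this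
      exact norm_eq_zero.1 (((Real.rpow_eq_zero (norm_nonneg _) h3).1 h2))
    obtain ⟨D, hR⟩ := hnull.hom
    intro l z
    have h1 := hnull.null _ hl.holomorphicInto (orderTwo_of_ordTwo hl ho)
      (fun z => ⟨(hl.mem_iff hP z).2 (hFX z), fun h2 => (hK z).2 0 ((vanishesAt_lift hl hH z).1 h2)⟩) hcon (fun j => ⟨F, hl, hzero j⟩) l z
    exact (vanishesAt_lift hl (hR l) z).1 h1
  · right
    push Not at hcon
    intro z w
    have h1 := hcon z w
    simp only at h1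
    rw [Projectivization.mk_eq_mk_iff'] at h1
    obtain ⟨a, ha⟩ := h1
    exact ⟨a, WithLp.ofLp_injective 2 ha.symm⟩

/-- the metric of a curve which contains the null curves -/
theorem MetD.met {s : ℕ} {m : Fin s → ℕ} (θ : ∀ j, SymDiff (oc P H) (m j)) {mΩ jΩ r : ℕ} {Ω : Fin r → EN N → EN N → EN N → ℂ}
    {n : ℕ} (supp : Fin n → Finset (Fin k)) (Pol : Fin n → Fin s → MvPolynomial (Fin k) ℂ) (ty : EN N → Fin n) {T : Set (EN N)}
    {rho : EN N → ℝ} {M' : ℕ} {c₀ C δ : ℝ} {g : (ℂ → EN N) → ℂ → ℝ} (D : MetD (coneE P) (oc P H) T rho M' c₀ C δ g)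
    (hn : ∀ F : ℂ → EN N, Differentiable ℂ F → (∀ z, F z ∈ oc P H) → OrdTwo F → (∀ z, nForms m (fun j => (θ j).toFun) (F z) (deriv F z) = 0) →
      (∀ z, F z ∈ T) ∨ ∀ z w, ∃ c : ℂ, F z = c • F w) :
    (geoOf P H h E c b θ supp Pol ty mΩ jΩ Ω).Met T rho M' c₀ C δ g where
  en := D.en
  pos := D.pos
  near := D.near
  TX := D.TX
  Ts := D.Ts
  KT := D.KT
  rho0 := D.rho0
  rhoT := D.rhoT
  rhoc := D.rhoc
  rhos := D.rhos
  Ti := D.Ti
  null := hn

/-- MODULE H11 (MetA.lean): the first metric -/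
theorem exists_met [P.IsPrime] {z : Fin 2 → FunField P} (hP : Homog P) (hz : IsTranscendenceBasis ℂ z) (hsm : IsSmooth P 2)
    (hH : H.IsHomogeneous h) (h1 : 1 ≤ h) (hHP : H ∉ P) {s : ℕ} {m : Fin s → ℕ} (hs1 : 1 ≤ s) (hm : ∀ j, 1 ≤ m j)
    (θ : ∀ j, SymDiff (oc P H) (m j)) {mΩ jΩ r t D₁ D₂ : ℕ} {Ω : Fin r → EN N → EN N → EN N → ℂ}
    {Q : Fin r → MvPolynomial (Fin (N + 1)) ℂ} (hΩ : LogAmple P H mΩ jΩ Ω Q) (hQ : ∀ a, (Q a).IsHomogeneous D₂)
    {R : Fin t → MvPolynomial (Fin (N + 1)) ℂ} (hR : ∀ l, (R l).IsHomogeneous D₁) (hnull : NullCurve θ R)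
    {n : ℕ} (supp : Fin n → Finset (Fin k)) (Pol : Fin n → Fin s → MvPolynomial (Fin k) ℂ) (ty : EN N → Fin n) :
    ∃ (M' : ℕ) (c₀ C δ : ℝ) (g : (ℂ → EN N) → ℂ → ℝ),
      (geoOf P H h E c b θ supp Pol ty mΩ jΩ Ω).Met {x | x ∈ coneE P ∧ ∀ a, eqT H R Q a x = 0} (rhoS (eqT H R Q) (D₁ + D₂ + h)) M' c₀ C δ g := by
  obtain ⟨M', c₀, C, δ, g, D⟩ := exists_metD_family hP hz hsm hH h1 hHP hΩ hQ hR hnull.ne
  refine ⟨M', c₀, C, δ, g, D.met θ supp Pol ty fun F hF hK ho h0 => ?_⟩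
  rcases null_mem hP hH hm θ hnull hF hK ho h0 with h2 | h2
  · left
    intro w
    refine ⟨(hK w).1, fun a => ?_⟩
    show eval (F w).ofLp (R a.1 * Q a.2 * H) = 0
    rw [map_mul, map_mul, h2 a.1 w, zero_mul, zero_mul]
  · exact Or.inr h2

end Pool.Agent.SR2
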