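import Pool.Agent.SR2.MetA

/-!
# SR2 MetB: the metrics of the larger curves
-/

set_option autoImplicit false

open Topology Filter Metric MvPolynomial

noncomputable section

namespace Pool.Agent.SR2

open Pool.Agent.H36.BP (EN fs Sub OrdTwo)
open Pool.Agent.H17BP (Surface IsForm NoZeros IsChart)
open Pool.Agent.H14.PP (IsCone Tan)
open Pool.Agent.H17 (PN VanishesAt HolomorphicInto)
open Pool.Agent.H62.FC (Homog)
open Pool.Agent.H62.SA (OnBd)
open Pool.Agent.H17LG.Variety (FunField OnBoundary IsLogGeneralType)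
open Pool.Agent.H17EF (coneE projVar LE)
open Pool.Agent.H13.SM (cone)
open Pool.Agent.H22.WL (evF evF_diff evF_smul)
open Pool.Agent.AD (SymDiff TangentTo)
open Pool.Agent.AD.NC (IsSmooth IsOfLogGeneralType)
open Pool.Agent.SDA (openCone EnergyK Near nForms energyK_surface)

variable {N k M : ℕ} {P : Ideal (MvPolynomial (Fin (N + 1)) ℂ)} {H : MvPolynomial (Fin (N + 1)) ℂ} {h : ℕ}
  {E : Fin k → Fin (M + 1) → MvPolynomial (Fin (N + 1)) ℂ} {c b : Fin k → ℕ}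

private theorem onBoundary_eq [P.IsPrime] (D : MvPolynomial (Fin (N + 1)) ℂ) {r : ℕ} :
    OnBoundary P (fun _ : Fin 1 => D) (k := r) = OnBd P (fun _ : Fin 1 => D) := by
  funext E
  refine propext ?_
  constructor
  · rintro ⟨j, hj, hj', m, hm⟩
    exact ⟨j, hj, hj', fun _ => hm⟩
  · rintro ⟨j, hj, hj', hm⟩
    exact ⟨j, hj, hj', 0, hm 0⟩

/-- the metric of a curve `{Q = 0}`, with all fields -/
theorem metD_of_energyK {K : Set (EN N)} (hX : IsCone (coneE P)) {Q : MvPolynomial (Fin (N + 1)) ℂ} {D : ℕ} (hQ : Q.IsHomogeneous D)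
    (hKT : ∀ x ∈ coneE P, x ∉ K → eval x.ofLp Q = 0) {M' : ℕ} {c₀ C : ℝ} {g : (ℂ → EN N) → ℂ → ℝ} (hM : 1 ≤ M')
    (EK : EnergyK (coneE P) K {x | x ∈ coneE P ∧ eval x.ofLp Q = 0} (fun x => ‖x‖) (fun x => ‖eval x.ofLp Q‖ / ‖x‖ ^ D) M' c₀ C g) :
    ∃ δ : ℝ, MetD (coneE P) K {x | x ∈ coneE P ∧ eval x.ofLp Q = 0} (fun x => ‖eval x.ofLp Q‖ / ‖x‖ ^ D) M' c₀ C δ g := by
  obtain ⟨δ, hδ, hnear⟩ := EK.near
  refine ⟨δ, ?_⟩
  obtain ⟨T, hT⟩ : ∃ T : Set (EN N), T = {x | x ∈ coneE P ∧ eval x.ofLp Q = 0} := ⟨_, rfl⟩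
  rw [← hT] at EK hnear ⊢
  have hxne : ∀ x ∈ coneE P, ‖x‖ ≠ 0 := fun x hx => norm_ne_zero_iff.2 fun h => hX.zero_notMem (h ▸ hx)
  have hmemT : ∀ x, x ∈ T ↔ x ∈ coneE P ∧ eval x.ofLp Q = 0 := fun x => by rw [hT]; rfl
  refine
    { en := EK
      one_M := hM
      pos := hδ
      near := hnear
      TX := fun x hx => ((hmemT x).1 hx).1
      Ts := ?_
      KT := fun x hx hxK => (hmemT x).2 ⟨hx, hKT x hx hxK⟩
      rho0 := fun x _ => by positivity
      rhoT := ?_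
      rhoc := ?_
      rhos := ?_
      Ti := ?_ }
  · intro x hx c hc
    rw [hmemT] at hx ⊢
    refine ⟨hX.smul_mem x hx.1 c hc, ?_⟩
    have h1 := evF_smul hQ c x
    unfold evF at h1
    rw [h1, hx.2, mul_zero]
  · intro x hx
    rw [hmemT]
    have h2 : ‖x‖ ^ D ≠ 0 := pow_ne_zero _ (hxne x hx)
    constructor
    · intro h
      rw [div_eq_zero_iff] at h
      rcases h with h | h
      · exact ⟨hx, norm_eq_zero.1 h⟩
      · exact absurd h h2
    · rintro ⟨-, h⟩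
      simp only [h, norm_zero, zero_div]
  · refine ContinuousOn.div ?_ (continuous_norm.pow D).continuousOn fun x hx => pow_ne_zero _ (hxne x hx)
    exact (evF_diff Q).continuous.norm.continuousOn
  · intro x _ c hc
    have h1 := evF_smul hQ c x
    unfold evF at h1
    simp only
    rw [h1, norm_mul, norm_pow, norm_smul, mul_pow]
    exact mul_div_mul_left _ _ (pow_ne_zero _ (norm_ne_zero_iff.2 hc))
  · intro F hF hFX hne z₀
    have h1 : Differentiable ℂ fun z => evF Q (F z) := (evF_diff Q).comp hF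
    have h2 : AnalyticAt ℂ (fun z => evF Q (F z)) z₀ := h1.analyticAt z₀
    rcases h2.eventually_eq_zero_or_eventually_ne_zero with h3 | h3
    · exfalso
      have h4 : AnalyticOnNhd ℂ (fun z => evF Q (F z)) Set.univ := fun z _ => h1.analyticAt z
      have h5 := h4.eqOn_zero_of_preconnected_of_eventuallyEq_zero isPreconnected_univ (Set.mem_univ z₀) h3
      obtain ⟨z, hz⟩ := hne
      apply hz
      rw [hmemT]
      exact ⟨hFX z, h5 (Set.mem_univ z)⟩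
    · filter_upwards [h3] with z hz hzT
      rw [hmemT] at hzT
      exact hz hzT.2

/-- MODULE H12 (MetB.lean): the metrics of the larger curves (`SDA.energyK_surface`, applied to `R l * R'`, `R l ∉ P`) -/
theorem exists_met_of_form [hPp : P.IsPrime] {z : Fin 2 → FunField P} (hP : Homog P) (hz : IsTranscendenceBasis ℂ z) (hsm : IsSmooth P 2)
    (hH : H.IsHomogeneous h) (h1 : 1 ≤ h) (hHP : H ∉ P) (hgt : IsOfLogGeneralType P (fun _ : Fin 1 => H) 2) {s : ℕ} {m : Fin s → ℕ} (hs1 : 1 ≤ s)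
    (hm : ∀ j, 1 ≤ m j) (θ : ∀ j, SymDiff (oc P H) (m j)) {mΩ jΩ r t : ℕ} {Ω : Fin r → EN N → EN N → EN N → ℂ}
    {R : Fin t → MvPolynomial (Fin (N + 1)) ℂ} (hnull : NullCurve θ R)
    {n : ℕ} (supp : Fin n → Finset (Fin k)) (Pol : Fin n → Fin s → MvPolynomial (Fin k) ℂ) (ty : EN N → Fin n)
    {R' : MvPolynomial (Fin (N + 1)) ℂ} {d : ℕ} (hR' : R'.IsHomogeneous d) (hRP : R' ∉ P) :
    ∃ (Q' : MvPolynomial (Fin (N + 1)) ℂ) (D M' : ℕ) (c₀ C δ : ℝ) (g : (ℂ → EN N) → ℂ → ℝ), Q'.IsHomogeneous D ∧ Q' ∉ P ∧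
      (∀ x : EN N, eval x.ofLp R' = 0 → eval x.ofLp Q' = 0) ∧ (∀ x : EN N, (∀ l, eval x.ofLp (R l) = 0) → eval x.ofLp Q' = 0) ∧
      (geoOf P H h E c b θ supp Pol ty mΩ jΩ Ω).Met {x | x ∈ coneE P ∧ eval x.ofLp Q' = 0} (fun x => ‖eval x.ofLp Q'‖ / ‖x‖ ^ D) M' c₀ C δ g := by
  have hS₀ : Surface (cone P) := Pool.Agent.H13.SM.surface_cone hP hz fun y hy => hsm y hy.1 hy.2
  have hX : IsCone (coneE P) := Pool.Agent.H36.BP.isCone_transport (LE N) hS₀
  obtain ⟨l, hl⟩ := hnull.ne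
  obtain ⟨D₁, hR⟩ := hnull.hom
  have hgt' : IsLogGeneralType (K := FunField P) (k := 2) (OnBoundary P fun _ : Fin 1 => ∏ i, (fun _ : Fin 1 => H) i) := by
    rw [onBoundary_eq]
    exact hgt
  obtain ⟨Q, D, M', c₀, C, g, hQ, hQP, hRQ, hHQ, hM, EK⟩ := energyK_surface (H := fun _ : Fin 1 => H) (e := fun _ => h) hP hz hsm (fun _ => hH)
    (fun _ => h1) le_rfl (fun _ => hHP) hgt' ((hR l).mul hR') (fun h2 => (hPp.mem_or_mem h2).elim hl hRP)
  have hKT : ∀ x ∈ coneE P, x ∉ oc P H → eval x.ofLp Q = 0 := by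
    intro x hx hxK
    by_contra h2
    exact hxK ⟨hx, fun i hi => h2 (hHQ i x hi)⟩
  obtain ⟨δ, DD⟩ := metD_of_energyK hX hQ hKT hM EK
  have hRl : ∀ x : EN N, (∀ l, eval x.ofLp (R l) = 0) → eval x.ofLp Q = 0 := fun x h2 => hRQ x (by rw [map_mul, h2 l, zero_mul])
  refine ⟨Q, D, M', c₀, C, δ, g, hQ, hQP, fun x hx => hRQ x (by rw [map_mul, hx, mul_zero]), hRl, DD.met θ supp Pol ty fun F hF hK ho h0 => ?_⟩
  rcases null_mem hP hH hm θ hnull hF hK ho h0 with h2 | h2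
  · exact Or.inl fun w => ⟨(hK w).1, hRl _ fun l => h2 l w⟩
  · exact Or.inr h2

end Pool.Agent.SR2
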