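import Pool.Agent.SR2.ADefs
import Pool.Agent.SDA.La

/-!
# SR2 ASq: the square of a function with a lower support

`Lap (u ^ 2) = 2 |grad u| ^ 2 + 2 u Lap u`: from a lower support `Re t + c' |w - z| ^ 2` of `u` at `z` (`t` holomorphic, `t z = u z`) the first order
condition gives `deriv t z = l`, and near `z`, `u ^ 2 ≥ (Re t) ^ 2 + (2 c' u z - ε) |w - z| ^ 2`.
-/

set_option autoImplicit false

open Topology Filter Metric

noncomputable section

namespace Pool.Agent.SR2

open Pool.Agent.H36.BP (Sub)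

/-- the derivative of the real part of a holomorphic function -/
theorem ASq.hasFDerivAt_re {t : ℂ → ℂ} {z t' : ℂ} (h : HasDerivAt t t' z) : HasFDerivAt (fun w => (t w).re) (reL t') z := by
  have h1 := (Complex.reCLM.hasFDerivAt (x := t z)).comp z (h.hasFDerivAt.restrictScalars ℝ)
  refine h1.congr_fderiv ?_
  ext w
  simp
  ring

theorem ASq.reL_injective {l l' : ℂ} (h : reL l = reL l') : l = l' := by
  have h1 := congrArg (fun f : ℂ →L[ℝ] ℝ => f 1) h
  have h2 := congrArg (fun f : ℂ →L[ℝ] ℝ => f Complex.I) h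
  simp only [reL_apply, mul_one, Complex.mul_re, Complex.I_re, Complex.I_im, mul_zero, zero_sub] at h1 h2
  exact Complex.ext h1 (neg_injective h2)

/-- `Lap (u ^ 2) = 2 |grad u| ^ 2 + 2 u Lap u` -/
theorem sub_sq {u : ℂ → ℝ} {z l : ℂ} {c : ℝ} (hs : Sub (fun w => Real.exp (u w)) z c) (hu : HasFDerivAt u (reL l) z) (h0 : 0 < u z) :
    Sub (fun w => Real.exp (u w ^ 2)) z (1 / 2 * ‖l‖ ^ 2 + 2 * c * u z) := by
  refine Pool.Agent.H36.BP.Sub.of_forall fun d hd => ?_
  obtain ⟨η, hη⟩ : ∃ η : ℝ, η = 1 / 2 * ‖l‖ ^ 2 + 2 * c * u z - d := ⟨_, rfl⟩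
  have hη0 : 0 < η := by rw [hη]; linarith
  obtain ⟨c', hc'⟩ : ∃ c' : ℝ, c' = c - η / (4 * u z) := ⟨_, rfl⟩
  have hcc : c' < c := by
    have h1 : 0 < η / (4 * u z) := by positivity
    rw [hc']
    linarith
  have hcu : 2 * c' * u z = 2 * c * u z - η / 2 := by
    rw [hc']
    field_simp
    ring
  obtain ⟨h, hh, hhz, hhe⟩ := hs.2 c' hcc
  have hz0 : h z ≠ 0 := norm_pos_iff.1 (by rw [hhz]; exact Real.exp_pos _)
  obtain ⟨t, ht⟩ : ∃ t : ℂ → ℂ, t = fun w => (u z : ℂ) + Complex.log (h w / h z) := ⟨_, rfl⟩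
  have htz : t z = u z := by
    rw [ht]
    show (u z : ℂ) + Complex.log (h z / h z) = u z
    rw [div_self hz0, Complex.log_one, add_zero]
  have hta : AnalyticAt ℂ t z := by
    rw [ht]
    refine analyticAt_const.add (AnalyticAt.clog (hh.div analyticAt_const hz0) ?_)
    rw [div_self hz0]
    exact Complex.one_mem_slitPlane
  have hne : ∀ᶠ w in 𝓝 z, h w ≠ 0 := hh.continuousAt.eventually_ne hz0
  have hv : ∀ᶠ w in 𝓝 z, (t w).re + c' * ‖w - z‖ ^ 2 ≤ u w := by
    filter_upwards [hhe, hne] with w h2 h3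
    have h1 : (t w).re = Real.log ‖h w‖ := by
      rw [ht]
      show ((u z : ℂ) + Complex.log (h w / h z)).re = _
      rw [Complex.add_re, Complex.ofReal_re, Complex.log_re, norm_div, Real.log_div (norm_ne_zero_iff.2 h3) (norm_ne_zero_iff.2 hz0), hhz,
        Real.log_exp]
      ring
    rw [h1]
    have h4 := Real.log_le_log (mul_pos (norm_pos_iff.2 h3) (Real.exp_pos _)) h2
    rwa [Real.log_exp, Real.log_mul (norm_ne_zero_iff.2 h3) (Real.exp_ne_zero _), Real.log_exp] at h4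
  -- the first order condition
  have hl : deriv t z = l := by
    have h1 : IsLocalMin (fun w => u w - (t w).re - c' * ‖w - z‖ ^ 2) z := by
      filter_upwards [hv] with w hw
      show u z - (t z).re - c' * ‖z - z‖ ^ 2 ≤ u w - (t w).re - c' * ‖w - z‖ ^ 2
      rw [htz, sub_self, norm_zero, Complex.ofReal_re]
      linarith [sq_nonneg (0 : ℝ)]
    have h2 : HasFDerivAt (fun w : ℂ => c' * ‖w - z‖ ^ 2) (0 : ℂ →L[ℝ] ℝ) z := by
      have h3 := (((hasFDerivAt_id (𝕜 := ℝ) z).sub_const z).norm_sq).const_mul c'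
      refine h3.congr_fderiv ?_
      ext w
      simp
    have h3 := (hu.sub (ASq.hasFDerivAt_re hta.differentiableAt.hasDerivAt)).sub h2
    have h4 := h1.hasFDerivAt_eq_zero h3
    rw [sub_zero, sub_eq_zero] at h4
    exact (ASq.reL_injective h4).symm
  -- the comparison
  have h1 := Pool.Agent.SDA.La.sub_exp_re hta
  rw [hl] at h1
  have h2 := Pool.Agent.H36.BP.Sub.exp_sq (t := fun w : ℂ => w - z) (z₀ := z) (analyticAt_id.sub analyticAt_const) (2 * c' * u z - η / 2)
  have h2d : deriv (fun w : ℂ => w - z) z = 1 := by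
    rw [deriv_sub_const, deriv_id'']
  rw [h2d, norm_one, one_pow, mul_one] at h2
  have h3 := h1.mul h2
  have hdd : 1 / 2 * ‖l‖ ^ 2 + (2 * c' * u z - η / 2) = d := by
    rw [hcu, hη]
    ring
  rw [hdd] at h3
  refine h3.mono ?_ ?_
  · show Real.exp ((t z).re ^ 2) * Real.exp ((2 * c' * u z - η / 2) * ‖z - z‖ ^ 2) = Real.exp (u z ^ 2)
    rw [htz, Complex.ofReal_re, sub_self, norm_zero]
    norm_num
  · have hre : Tendsto (fun w => (t w).re) (𝓝 z) (𝓝 (u z)) := by
      have h4 := (Complex.continuous_re.continuousAt.comp hta.continuousAt).tendsto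
      rw [Function.comp_apply, htz, Complex.ofReal_re] at h4
      exact h4
    have hn : Tendsto (fun w : ℂ => c' * ‖w - z‖ ^ 2) (𝓝 z) (𝓝 0) := by
      have h4 : Continuous fun w : ℂ => c' * ‖w - z‖ ^ 2 := by fun_prop
      have h5 := h4.tendsto z
      simpa using h5
    have hpos : ∀ᶠ w in 𝓝 z, 0 < (t w).re + c' * ‖w - z‖ ^ 2 := by
      have h4 := hre.add hn
      rw [add_zero] at h4
      exact h4.eventually (lt_mem_nhds h0)
    have hcr : ∀ᶠ w in 𝓝 z, 2 * c' * u z - η / 2 < 2 * c' * (t w).re := by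
      have h4 := hre.const_mul (2 * c')
      exact h4.eventually (lt_mem_nhds (by linarith))
    filter_upwards [hv, hpos, hcr] with w h4 h5 h6
    rw [← Real.exp_add]
    refine Real.exp_le_exp.2 ?_
    have h7 : ((t w).re + c' * ‖w - z‖ ^ 2) ^ 2 ≤ u w ^ 2 := pow_le_pow_left₀ h5.le h4 2
    have h8 : (2 * c' * u z - η / 2) * ‖w - z‖ ^ 2 ≤ 2 * c' * (t w).re * ‖w - z‖ ^ 2 := mul_le_mul_of_nonneg_right h6.le (sq_nonneg _)
    nlinarith [sq_nonneg (c' * ‖w - z‖ ^ 2)]

end Pool.Agent.SR2
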