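import Pool.Agent.SR2.ALam
import Pool.Agent.SR2.AGrd
import Pool.Agent.SR2.ASq
import Pool.Agent.SY.PotM

/-!
# SR2 ALpr: (L')

A normalised entire curve of length at least one on a large disc of radius `r` has `log ‖F‖ ≥ A₀ r` somewhere on the disc: the function
`φ = ∑ (κ + lam i) ^ 2 + D r (log ‖F‖ + B)` has a Laplacian bounded below, if `log ‖F‖ ≤ A₀ r` on the disc, and `φ ≤ small * r ^ 2`.
-/

set_option autoImplicit false

open Topology Filter Metric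

noncomputable section

namespace Pool.Agent.SR2

open Pool.Agent.H36.BP (EN fs wd Sub OrdTwo)
open Pool.Agent.H14.PP (IsCone Tan)
open Pool.Agent.SDA (EnergyK Near AffOpen Nm nForms)

variable {N : ℕ} {G : Geo N}

theorem ALpr.num {Cn k f S E : ℝ} (hC : 0 < Cn) (hk : 0 ≤ k) (hE : 0 ≤ E) (hSE : S ^ 2 ≤ k * E)
    (h1 : 1 ≤ Cn * (f + S)) : 1 / (4 * (k + 1) * Cn ^ 2) ≤ 1 / 2 * E + f ^ 2 := by
  rw [div_le_iff₀ (by positivity)]
  have h2 : 1 ≤ (Cn * (f + S)) ^ 2 := one_le_pow₀ h1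
  have h3 : (f + S) ^ 2 ≤ 2 * f ^ 2 + 2 * (k * E) := by
    have k1 := sq_nonneg (f - S)
    linarith only [k1, hSE]
  have h4 : (Cn * (f + S)) ^ 2 = Cn ^ 2 * (f + S) ^ 2 := by ring
  have h5 : Cn ^ 2 * (f + S) ^ 2 ≤ Cn ^ 2 * (2 * f ^ 2 + 2 * (k * E)) := mul_le_mul_of_nonneg_left h3 (sq_nonneg _)
  have h6 : 2 * f ^ 2 + 2 * (k * E) ≤ (1 / 2 * E + f ^ 2) * (4 * (k + 1)) := by
    have h7 : 0 ≤ k * f ^ 2 := by positivity
    have k1 := sq_nonneg f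
    linarith only [k1, h7, hE]
  have h7 : Cn ^ 2 * (2 * f ^ 2 + 2 * (k * E)) ≤ Cn ^ 2 * ((1 / 2 * E + f ^ 2) * (4 * (k + 1))) := mul_le_mul_of_nonneg_left h6 (sq_nonneg _)
  linarith

theorem lprime (hG : G.Ok) :
    ∃ A₀ r₀ : ℝ, 0 < A₀ ∧ 0 < r₀ ∧ ∀ F : ℂ → EN N, Differentiable ℂ F → (∀ z, F z ∈ G.K) → (∀ z, G.p (F z) = 1) → ∀ (z : ℂ) (r : ℝ), r₀ ≤ r →
      (∀ w ∈ closedBall z r, 1 ≤ G.n (F w) (deriv F w)) → ∃ w ∈ closedBall z r, A₀ * r ≤ Real.log ‖F w‖ := by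
  obtain ⟨Bl, hBl0, hBl⟩ := lam_lowerA hG
  obtain ⟨Bu, hBu0, hBu⟩ := lam_upperA hG
  obtain ⟨Bn, hBn0, hBn⟩ := log_lower hG
  obtain ⟨Bs, hBs0, hBs⟩ := lam_sub hG
  obtain ⟨Cn, hCn0, hCn⟩ := n_le_L hG
  obtain ⟨k, hk⟩ : ∃ k : ℝ, k = Fintype.card G.ι := ⟨_, rfl⟩
  have hk0 : 0 ≤ k := by rw [hk]; exact Nat.cast_nonneg _
  obtain ⟨h, hh⟩ : ∃ h : ℝ, h = G.h := ⟨_, rfl⟩
  have hh0 : 0 ≤ h := by rw [hh]; exact Nat.cast_nonneg _
  obtain ⟨κ, hκ⟩ : ∃ κ : ℝ, κ = Bl + 1 := ⟨_, rfl⟩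
  have hκ1 : 1 ≤ κ := by rw [hκ]; linarith
  obtain ⟨a, ha⟩ : ∃ a : ℝ, a = κ + Bu := ⟨_, rfl⟩
  have ha1 : 1 ≤ a := by rw [ha]; linarith
  obtain ⟨D, hD⟩ : ∃ D : ℝ, D = 4 * (Bs * (k * (a + h))) + 2 := ⟨_, rfl⟩
  have hD2 : 2 ≤ D := by
    have : 0 ≤ Bs * (k * (a + h)) := by positivity
    rw [hD]
    linarith
  obtain ⟨κ₁, hκ₁⟩ : ∃ κ₁ : ℝ, κ₁ = 1 / (4 * (k + 1) * Cn ^ 2) := ⟨_, rfl⟩
  have hκ₁0 : 0 < κ₁ := by rw [hκ₁]; positivity
  obtain ⟨W, hW⟩ : ∃ W : ℝ, W = 2 * k * h ^ 2 + D := ⟨_, rfl⟩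
  have hW0 : 0 < W := by
    have : 0 ≤ 2 * k * h ^ 2 := by positivity
    rw [hW]
    linarith
  obtain ⟨A₀, hA₀⟩ : ∃ A₀ : ℝ, A₀ = min 1 (κ₁ / (8 * W)) := ⟨_, rfl⟩
  have hA₀0 : 0 < A₀ := by rw [hA₀]; positivity
  have hA₀1 : A₀ ≤ 1 := by rw [hA₀]; exact min_le_left _ _
  have hA₀W : A₀ * W ≤ κ₁ / 8 := by
    have h1 : A₀ ≤ κ₁ / (8 * W) := by rw [hA₀]; exact min_le_right _ _
    calc A₀ * W ≤ κ₁ / (8 * W) * W := mul_le_mul_of_nonneg_right h1 hW0.le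
      _ = κ₁ / 8 := by field_simp
  obtain ⟨V, hV⟩ : ∃ V : ℝ, V = 2 * k * a ^ 2 + D * Bn := ⟨_, rfl⟩
  have hV0 : 0 ≤ V := by rw [hV]; positivity
  refine ⟨A₀, max 1 (8 * V / κ₁), hA₀0, by positivity, fun F hF hK hp z r hr hn => ?_⟩
  by_contra hcon
  push Not at hcon
  have hr1 : 1 ≤ r := (le_max_left _ _).trans hr
  have hrV : 8 * V ≤ κ₁ * r := by
    have h1 : 8 * V / κ₁ ≤ r := (le_max_right _ _).trans hr
    rw [div_le_iff₀ hκ₁0] at h1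
    linarith
  have hlo : ∀ i w, 1 ≤ κ + G.lam i (F w) := by
    intro i w
    rw [hκ]
    linarith [hBl i (F w) (hK w)]
  have hup : ∀ i, ∀ w ∈ closedBall z r, κ + G.lam i (F w) ≤ a + h * (A₀ * r) := by
    intro i w hw
    have h1 := (hBu (F w) (hK w) (hp w)).1 i
    rw [← hh] at h1
    have h2 := mul_le_mul_of_nonneg_left (hcon w hw).le hh0
    rw [ha]
    linarith
  obtain ⟨φ, hφ⟩ : ∃ φ : ℂ → ℝ, φ = fun w => (∑ i, (κ + G.lam i (F w)) ^ 2) + (D * r) * (Real.log ‖F w‖ + Bn) := ⟨_, rfl⟩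
  have hφc : Continuous φ := by
    rw [hφ]
    refine (continuous_finsetSum _ fun i _ => ?_).add (continuous_const.mul (Continuous.add ?_ continuous_const))
    · refine (continuous_const.add (continuous_iff_continuousAt.2 fun w => ?_)).pow 2
      exact (lam_grad hG i (hF.analyticAt w) (hK w)).continuousAt
    · exact hF.continuous.norm.log fun w => norm_ne_zero_iff.2 (ne0 hG (hK w))
  have hφ0 : 0 ≤ φ z := by
    rw [hφ]
    refine add_nonneg (Finset.sum_nonneg fun i _ => sq_nonneg _) (mul_nonneg (by positivity) ?_)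
    linarith [hBn (F z) (hp z)]
  -- the upper bound
  have hφB : ∀ w ∈ closedBall z r, φ w ≤ κ₁ / 4 * r ^ 2 := by
    intro w hw
    have h1 : ∑ i, (κ + G.lam i (F w)) ^ 2 ≤ k * (a + h * (A₀ * r)) ^ 2 := by
      have h2 : ∑ i, (κ + G.lam i (F w)) ^ 2 ≤ ∑ _i : G.ι, (a + h * (A₀ * r)) ^ 2 :=
        Finset.sum_le_sum fun i _ => pow_le_pow_left₀ (by linarith [hlo i w]) (hup i w hw) 2
      rwa [Finset.sum_const, Finset.card_univ, nsmul_eq_mul, ← hk] at h2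
    have h2 : (D * r) * (Real.log ‖F w‖ + Bn) ≤ (D * r) * (A₀ * r + Bn) :=
      mul_le_mul_of_nonneg_left (by linarith [hcon w hw]) (by positivity)
    have h3 : (a + h * (A₀ * r)) ^ 2 ≤ 2 * a ^ 2 + 2 * (h * (A₀ * r)) ^ 2 := by
      have k1 := sq_nonneg (a - h * (A₀ * r))
      linarith only [k1]
    have h4 : k * (a + h * (A₀ * r)) ^ 2 ≤ k * (2 * a ^ 2 + 2 * (h * (A₀ * r)) ^ 2) := mul_le_mul_of_nonneg_left h3 hk0
    have h5 : k * (2 * a ^ 2) ≤ k * (2 * a ^ 2) * r := le_mul_of_one_le_right (by positivity) hr1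
    have h6 : A₀ * (A₀ * (k * h ^ 2 * r ^ 2)) ≤ A₀ * (k * h ^ 2 * r ^ 2) :=
      mul_le_mul_of_nonneg_left (mul_le_of_le_one_left (by positivity) hA₀1) hA₀0.le
    have h7 : A₀ * W * r ^ 2 ≤ κ₁ / 8 * r ^ 2 := mul_le_mul_of_nonneg_right hA₀W (sq_nonneg _)
    have h8 : 8 * V * r ≤ κ₁ * r * r := mul_le_mul_of_nonneg_right hrV (by linarith)
    have h9 : φ w = (∑ i, (κ + G.lam i (F w)) ^ 2) + (D * r) * (Real.log ‖F w‖ + Bn) := by rw [hφ]
    rw [h9]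
    rw [hW] at h7
    rw [hV] at h8
    linarith only [h1, h2, h4, h5, h6, h7, h8]
  -- the Laplacian
  have hsub : ∀ w ∈ ball z r, 0 < Real.exp (φ w) → Sub (fun w => Real.exp (φ w)) w κ₁ := by
    intro w hw _
    have hFw := hF.analyticAt w
    have hev : ∀ᶠ w' in 𝓝 w, F w' ∈ G.K := Eventually.of_forall hK
    obtain ⟨f, hf⟩ : ∃ f : ℝ, f = fs (F w) (deriv F w) := ⟨_, rfl⟩
    have hf0 : 0 ≤ f := by rw [hf]; exact Pool.Agent.H36.BP.fs_nonneg _ _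
    have h1 : ∀ i ∈ (Finset.univ : Finset G.ι), Sub (fun w' => Real.exp ((κ + G.lam i (F w')) ^ 2)) w
        (1 / 2 * ‖G.ell i (F w) (deriv F w)‖ ^ 2 + 2 * (-(Bs * f ^ 2)) * (κ + G.lam i (F w))) := by
      intro i _
      have h2 : Sub (fun w' => Real.exp (κ + G.lam i (F w'))) w (-(Bs * f ^ 2)) := by
        have h3 := (hBs i 1 F w hFw hev).const_mul (Real.exp_pos κ)
        rw [abs_one, one_mul, ← hf] at h3
        refine h3.congr (Eventually.of_forall fun w' => ?_)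
        show Real.exp κ * Real.exp (1 * G.lam i (F w')) = _
        rw [one_mul, ← Real.exp_add]
      have h3 := (lam_grad hG i hFw (hK w)).const_add κ
      have h4 := sub_sq h2 h3 (by linarith [hlo i w])
      rwa [norm_neg] at h4
    have h5 := Pool.Agent.SDA.La.sub_sum Finset.univ h1
    have h6 := Pool.Agent.H36.BP.Sub.norm_rpow hFw (ne0 hG (hK w)) (D * r)
    rw [← hf] at h6
    have h7 := h5.mul (h6.const_mul (Real.exp_pos ((D * r) * Bn)))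
    have h8 : Sub (fun w => Real.exp (φ w)) w (∑ i, (1 / 2 * ‖G.ell i (F w) (deriv F w)‖ ^ 2 + 2 * (-(Bs * f ^ 2)) * (κ + G.lam i (F w))) +
        D * r * f ^ 2 / 2) := by
      refine h7.congr (Eventually.of_forall fun w' => ?_)
      show Real.exp (∑ i, (κ + G.lam i (F w')) ^ 2) * (Real.exp ((D * r) * Bn) * ‖F w'‖ ^ (D * r)) = Real.exp (φ w')
      rw [Real.rpow_def_of_pos (norm_pos_iff.2 (ne0 hG (hK w'))), ← Real.exp_add, ← Real.exp_add, hφ]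
      congr 1
      ring
    refine h8.anti ?_
    have hwc : w ∈ closedBall z r := ball_subset_closedBall hw
    have h9 := hn w hwc
    have h10 := hCn (F w) (hK w) _ (tan hG hF hK w)
    obtain ⟨S, hS⟩ : ∃ S : ℝ, S = ∑ i, ‖G.ell i (F w) (deriv F w)‖ := ⟨_, rfl⟩
    obtain ⟨E, hE⟩ : ∃ E : ℝ, E = ∑ i, ‖G.ell i (F w) (deriv F w)‖ ^ 2 := ⟨_, rfl⟩
    have hS0 : 0 ≤ S := by rw [hS]; exact Finset.sum_nonneg fun i _ => norm_nonneg _
    have hE0 : 0 ≤ E := by rw [hE]; exact Finset.sum_nonneg fun i _ => sq_nonneg _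
    have hL : G.L (F w) (deriv F w) = f + S := by rw [hf, hS]; rfl
    have hSE : S ^ 2 ≤ k * E := by
      have h11 := sq_sum_le_card_mul_sum_sq (s := Finset.univ) (f := fun i => ‖G.ell i (F w) (deriv F w)‖)
      rw [Finset.card_univ, ← hk, ← hS, ← hE] at h11
      exact h11
    rw [hL] at h10
    have h11 := ALpr.num hCn0 hk0 hE0 hSE (h9.trans h10)
    rw [← hκ₁] at h11
    have h12 : ∑ i, (1 / 2 * ‖G.ell i (F w) (deriv F w)‖ ^ 2 + 2 * (-(Bs * f ^ 2)) * (κ + G.lam i (F w))) =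
        1 / 2 * E - 2 * (Bs * f ^ 2) * ∑ i, (κ + G.lam i (F w)) := by
      rw [Finset.sum_add_distrib, ← Finset.mul_sum, ← Finset.mul_sum, ← hE]
      ring
    have h13 : ∑ i, (κ + G.lam i (F w)) ≤ k * (a + h * (A₀ * r)) := by
      have h14 : ∑ i, (κ + G.lam i (F w)) ≤ ∑ _i : G.ι, (a + h * (A₀ * r)) := Finset.sum_le_sum fun i _ => hup i w hwc
      rwa [Finset.sum_const, Finset.card_univ, nsmul_eq_mul, ← hk] at h14
    have h14 : k * (a + h * (A₀ * r)) ≤ k * ((a + h) * r) := by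
      refine mul_le_mul_of_nonneg_left ?_ hk0
      have h15 : a ≤ a * r := le_mul_of_one_le_right (by linarith) hr1
      have h16 : A₀ * r ≤ r := mul_le_of_le_one_left (by linarith) hA₀1
      have h17 := mul_le_mul_of_nonneg_left h16 hh0
      linarith
    have h15 : 2 * (Bs * f ^ 2) * ∑ i, (κ + G.lam i (F w)) ≤ 2 * (Bs * f ^ 2) * (k * ((a + h) * r)) :=
      mul_le_mul_of_nonneg_left (h13.trans h14) (by positivity)
    have h16 : f ^ 2 ≤ r * f ^ 2 := le_mul_of_one_le_left (sq_nonneg _) hr1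
    rw [h12, hD]
    linarith only [h11, h15, h16]
  have hdec := Pool.Agent.SY.decay (m := fun w => Real.exp (φ w)) (z₀ := z) (R := r) (A := Real.exp (κ₁ / 4 * r ^ 2))
    (κ := κ₁) (by linarith) hκ₁0 (Real.exp_pos _).le (Real.continuous_exp.comp hφc).continuousOn.upperSemicontinuousOn
    (fun w hw => Real.exp_le_exp.2 (hφB w hw)) hsub z (mem_closedBall_self (by linarith))
  rw [sub_self, norm_zero, ← Real.exp_add] at hdec
  have h1 := Real.exp_le_exp.1 hdec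
  have h2 : 0 < κ₁ * r ^ 2 := by positivity
  linarith only [h1, h2, hφ0]

end Pool.Agent.SR2
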