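import Pool.Agent.SR2.ALam
import Pool.Agent.SR2.ASml

/-!
# SR2 AJmp: (P)

If not, `F` is bounded on the disc of radius `exp (-η d)`; there `fs ≥ c`, and `rho ≤ exp (-c' d)` by `en.lower` and `small`; `qn` for `F (z + r w)`.
-/

set_option autoImplicit false

open Topology Filter Metric

noncomputable section

namespace Pool.Agent.SR2

open Pool.Agent.H36.BP (EN fs wd Sub OrdTwo)
open Pool.Agent.H14.PP (IsCone Tan)
open Pool.Agent.SY (Ent)
open Geo (Gd)

variable {N : ℕ} {G : Geo N} {T : Set (EN N)} {rho : EN N → ℝ} {M : ℕ} {c₀ C δ : ℝ} {g : (ℂ → EN N) → ℂ → ℝ}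

private theorem fs_le {x : EN N} (hx : x ≠ 0) (v : EN N) (a : ℂ) : fs x v * ‖x‖ ≤ ‖v - a • x‖ := by
  have h1 : fs x v = fs x (v - a • x) := by
    have h2 := Pool.Agent.H36.BP.fs_inv hx (v - a • x) (c := 1) one_ne_zero a
    rw [one_smul, one_smul, sub_add_cancel] at h2
    exact h2
  have h3 : 0 < ‖x‖ := norm_pos_iff.2 hx
  rw [h1]
  unfold fs
  rw [div_mul_eq_mul_div, div_le_iff₀ (by positivity)]
  have h4 := Pool.Agent.H36.BP.wd_le x (v - a • x)
  nlinarith [mul_le_mul_of_nonneg_right h4 h3.le]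

/-- the value of the length of the rescaled curve -/
private theorem nq_scale (hG : G.Ok) (q : G.J → ℂ) {r : ℝ} (hr : 0 ≤ r) : G.nq (fun j => (r : ℂ) ^ G.m j * q j) = r * G.nq q := by
  unfold Geo.nq
  rw [Finset.mul_sum]
  refine Finset.sum_congr rfl fun j _ => ?_
  rw [norm_mul, norm_pow, Complex.norm_real, Real.norm_of_nonneg hr, Real.mul_rpow (by positivity) (norm_nonneg _),
    Real.pow_rpow_inv_natCast hr (by have := hG.one_m j; omega)]

theorem jump (S : Base G T rho M c₀ C δ g) (B : ℝ) :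
    ∃ η R : ℝ, 0 < η ∧ 0 < R ∧ ∀ (q : G.J → ℂ) (F : ℂ → EN N), G.Cl T q F → ∀ z, R ≤ infDist z (Gd rho δ F) → Real.log ‖F z‖ ≤ B →
      ∃ w, ‖w - z‖ ≤ Real.exp (-(η * infDist z (Gd rho δ F))) ∧ B + 1 < Real.log ‖F w‖ := by
  have hG := S.ok
  have hM := S.met
  obtain ⟨B₀, hB₀, hn⟩ := n_le_L hG
  obtain ⟨A, hA, hL⟩ := L_le_fs hG (Real.exp (B + 1))
  obtain ⟨a, c, R₁, hc, hR₁, hs⟩ := small hG hM
  obtain ⟨C₁, α, hC₁, hα, hq⟩ := S.qn (Real.exp (B + 1))
  have hCpos : 0 < C := hM.en.C_pos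
  have hc₀ : 0 < c₀ := hM.en.c₀_pos
  have hδ : 0 < δ := hM.pos
  obtain ⟨K, hK⟩ : ∃ K : ℝ, K = B₀ * A * C * Real.exp a * Real.exp (B + 1) ^ c₀ := ⟨_, rfl⟩
  have hKpos : 0 < K := by
    rw [hK]
    positivity
  obtain ⟨n, hndef⟩ : ∃ n : ℝ, n = (M : ℝ) + 1 := ⟨_, rfl⟩
  have hn0 : 0 < n := by
    rw [hndef]
    positivity
  obtain ⟨k₁, hk₁⟩ : ∃ k₁ : ℝ, k₁ = Real.log (δ * K) / n := ⟨_, rfl⟩
  obtain ⟨κ, hκ⟩ : ∃ κ : ℝ, κ = c / n := ⟨_, rfl⟩
  have hκ0 : 0 < κ := by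
    rw [hκ]
    positivity
  refine ⟨α * κ / 2, max R₁ (max 16 (max (k₁ / κ) (2 * (C₁ + α * k₁) / (α * κ)))), by positivity, lt_of_lt_of_le hR₁ (le_max_left _ _),
    fun q F hF z hz hB => ?_⟩
  obtain ⟨d, hd⟩ : ∃ d, d = infDist z (Gd rho δ F) := ⟨_, rfl⟩
  rw [← hd] at hz ⊢
  have hz1 : R₁ ≤ d := (le_max_left _ _).trans hz
  have hz' := (le_max_right _ _).trans hz
  have hz2 : 16 ≤ d := (le_max_left _ _).trans hz'
  have hz'' := (le_max_right _ _).trans hz'
  have hz3 : k₁ ≤ κ * d := by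
    have h1 := (le_max_left _ _).trans hz''
    rwa [div_le_iff₀ hκ0, mul_comm] at h1
  have hz4 : 2 * (C₁ + α * k₁) ≤ α * κ * d := by
    have h1 := (le_max_right _ _).trans hz''
    rwa [div_le_iff₀ (by positivity), mul_comm d] at h1
  obtain ⟨r, hr⟩ : ∃ r, r = Real.exp (-(α * κ / 2 * d)) := ⟨_, rfl⟩
  have hr0 : 0 < r := by
    rw [hr]
    exact Real.exp_pos _
  have hr1 : r ≤ 1 := by
    rw [hr]
    exact Real.exp_le_one_iff.2 (by have : 0 ≤ α * κ / 2 * d := by positivity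
                                    linarith)
  rw [← hr]
  by_contra hcon
  push Not at hcon
  have hFK : ∀ w, F w ∈ G.K := hF.ent.mem
  have hFd : Differentiable ℂ F := hF.ent.diff
  have hFn : ∀ w, ‖w - z‖ ≤ r → ‖F w‖ ≤ Real.exp (B + 1) := by
    intro w hw
    have h1 : 0 < ‖F w‖ := norm_pos_iff.2 (ne0 hG (hFK w))
    have h2 := Real.exp_le_exp.2 (hcon w hw)
    rwa [Real.exp_log h1] at h2
  obtain ⟨ε, hε⟩ : ∃ ε, ε = Real.exp (k₁ - κ * d) := ⟨_, rfl⟩
  have hε0 : 0 < ε := by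
    rw [hε]
    exact Real.exp_pos _
  have hε1 : ε ≤ 1 := by
    rw [hε]
    exact Real.exp_le_one_iff.2 (by linarith)
  have hεn : ε ^ (M + 1) = δ * (K * Real.exp (-(c * d))) := by
    rw [hε, ← Real.exp_nat_mul]
    have h1 : ((M + 1 : ℕ) : ℝ) * (k₁ - κ * d) = Real.log (δ * K) + -(c * d) := by
      push_cast
      rw [← hndef, hk₁, hκ]
      field_simp
      ring
    rw [h1, Real.exp_add, Real.exp_log (by positivity)]
    ring
  have hrho : ∀ w, ‖w - z‖ ≤ r → rho (F w) ≤ ε := by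
    intro w hw
    have h0 : 0 ≤ rho (F w) := hM.rho0 _ (KX hG (hFK w))
    have hlt : rho (F w) < δ := lt_of_ball (z := z) (by rw [← hd]; linarith)
    have hx0 : F w ≠ 0 := ne0 hG (hFK w)
    have hxn : 0 < ‖F w‖ := norm_pos_iff.2 hx0
    have h1 : 1 ≤ B₀ * A * fs (F w) (deriv F w) := by
      have h2 := hn _ (hFK w) _ (tan hG hFd hFK w)
      rw [cl_n hF w] at h2
      have h3 := hL _ (hFK w) (hF.nm w) (hFn w hw) (deriv F w)
      calc (1 : ℝ) ≤ B₀ * G.L (F w) (deriv F w) := h2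
        _ ≤ B₀ * (A * fs (F w) (deriv F w)) := mul_le_mul_of_nonneg_left h3 hB₀.le
        _ = B₀ * A * fs (F w) (deriv F w) := by ring
    obtain ⟨a', ha'⟩ := hM.en.lower F hF.ent w
    have h2 : rho (F w) ^ M * fs (F w) (deriv F w) ≤ C * g F w := by
      have h3 := fs_le hx0 (deriv F w) a'
      have h4 : rho (F w) ^ M * fs (F w) (deriv F w) * ‖F w‖ ≤ C * g F w * ‖F w‖ := by
        calc rho (F w) ^ M * fs (F w) (deriv F w) * ‖F w‖ = rho (F w) ^ M * (fs (F w) (deriv F w) * ‖F w‖) := by ring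
          _ ≤ rho (F w) ^ M * ‖deriv F w - a' • F w‖ := mul_le_mul_of_nonneg_left h3 (pow_nonneg h0 _)
          _ ≤ C * ‖F w‖ * g F w := ha'
          _ = C * g F w * ‖F w‖ := by ring
      exact le_of_mul_le_mul_right h4 hxn
    have h3 : g F w ≤ Real.exp (a - c * d) * Real.exp (B + 1) ^ c₀ := by
      have h4 := hs q F hF z (by rw [← hd]; exact hz1) w (by rw [← hd]; linarith)
      rw [← hd] at h4
      refine h4.trans (mul_le_mul_of_nonneg_left ?_ (Real.exp_pos _).le)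
      exact Real.rpow_le_rpow hxn.le (hFn w hw) hc₀.le
    have h4 : rho (F w) ^ M ≤ K * Real.exp (-(c * d)) := by
      have h5 : 0 ≤ rho (F w) ^ M := pow_nonneg h0 _
      calc rho (F w) ^ M = rho (F w) ^ M * 1 := (mul_one _).symm
        _ ≤ rho (F w) ^ M * (B₀ * A * fs (F w) (deriv F w)) := mul_le_mul_of_nonneg_left h1 h5
        _ = B₀ * A * (rho (F w) ^ M * fs (F w) (deriv F w)) := by ring
        _ ≤ B₀ * A * (C * g F w) := mul_le_mul_of_nonneg_left h2 (by positivity)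
        _ ≤ B₀ * A * (C * (Real.exp (a - c * d) * Real.exp (B + 1) ^ c₀)) :=
            mul_le_mul_of_nonneg_left (mul_le_mul_of_nonneg_left h3 hCpos.le) (by positivity)
        _ = K * Real.exp (-(c * d)) := by
            rw [hK, sub_eq_add_neg, Real.exp_add]
            ring
    have h5 : rho (F w) ^ (M + 1) ≤ ε ^ (M + 1) := by
      rw [hεn, pow_succ, mul_comm]
      exact mul_le_mul hlt.le h4 (pow_nonneg h0 _) hδ.le
    exact le_of_pow_le_pow_left₀ (Nat.succ_ne_zero M) hε0.le h5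
  -- the rescaled curve
  have hball : ∀ u ∈ ball (0 : ℂ) 1, ‖(r : ℂ) * u + z - z‖ ≤ r := by
    intro u hu
    rw [add_sub_cancel_right, norm_mul, Complex.norm_real, Real.norm_of_nonneg hr0.le]
    have h1 : ‖u‖ < 1 := by
      rw [← dist_zero_right]
      exact mem_ball.1 hu
    nlinarith
  have hfin := hq (fun u => F ((r : ℂ) * u + z)) (fun j => (r : ℂ) ^ G.m j * q j) ε hε0 hε1
    (hFd.comp (((differentiable_id.const_mul (r : ℂ))).add_const z)).differentiableOn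
    (fun u hu => ⟨hFK _, hF.nm _, hFn _ (hball u hu), hrho _ (hball u hu)⟩)
    (fun j u _ => by
      rw [deriv_aff hFd]
      rw [hG.w_hom j _ (hFK _) _ (tan hG hFd hFK _), hF.val])
  rw [nq_scale hG q hr0.le, hF.one, mul_one] at hfin
  have h1 : ε ^ α = Real.exp ((k₁ - κ * d) * α) := by
    rw [hε, ← Real.exp_mul]
  rw [h1] at hfin
  have h2 : r = Real.exp ((k₁ - κ * d) * α) * Real.exp (α * κ / 2 * d - α * k₁) := by
    rw [hr, ← Real.exp_add]
    congr 1
    ring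
  have h3 : C₁ < Real.exp (α * κ / 2 * d - α * k₁) := by
    have h4 := Real.add_one_le_exp (α * κ / 2 * d - α * k₁)
    linarith
  rw [h2] at hfin
  have h5 : 0 < Real.exp ((k₁ - κ * d) * α) := Real.exp_pos _
  nlinarith

end Pool.Agent.SR2
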