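import Pool.Agent.SR2.ABas
import Mathlib.Analysis.Complex.Hadamard

/-!
# SR2 AThr: three circles

`Complex.HadamardThreeLines` for `F (z + exp s)`.
-/

set_option autoImplicit false

open Topology Filter Metric

noncomputable section

namespace Pool.Agent.SR2

open Pool.Agent.H36.BP (EN)

variable {N : ℕ}

theorem three_circles {F : ℂ → EN N} (hF : Differentiable ℂ F) {z : ℂ} {r₁ r₂ m₁ m₂ : ℝ} (h1 : 0 < r₁) (h2 : r₁ < r₂)
    (hm1 : ∀ w, ‖w - z‖ = r₁ → ‖F w‖ ≤ Real.exp m₁) (hm2 : ∀ w, ‖w - z‖ = r₂ → ‖F w‖ ≤ Real.exp m₂) :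
    ∀ w, r₁ ≤ ‖w - z‖ → ‖w - z‖ ≤ r₂ →
      ‖F w‖ ≤ Real.exp (((Real.log r₂ - Real.log ‖w - z‖) * m₁ + (Real.log ‖w - z‖ - Real.log r₁) * m₂) / (Real.log r₂ - Real.log r₁)) := by
  intro w hw1 hw2
  have hlt : Real.log r₁ < Real.log r₂ := Real.log_lt_log h1 h2
  have hpos : 0 < ‖w - z‖ := lt_of_lt_of_le h1 hw1
  have hne : w - z ≠ 0 := norm_pos_iff.1 hpos
  -- the function on the strip
  have hd : Differentiable ℂ fun s : ℂ => F (z + Complex.exp s) :=
    hF.comp ((differentiable_const z).add Complex.differentiable_exp)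
  have hexp : ∀ s : ℂ, ‖z + Complex.exp s - z‖ = Real.exp s.re := fun s => by
    rw [add_sub_cancel_left, Complex.norm_exp]
  have hB : BddAbove ((norm ∘ fun s : ℂ => F (z + Complex.exp s)) '' Complex.HadamardThreeLines.verticalClosedStrip (Real.log r₁) (Real.log r₂)) := by
    have h3 : BddAbove ((fun w => ‖F w‖) '' closedBall z r₂) :=
      (isCompact_closedBall z r₂).bddAbove_image hF.continuous.norm.continuousOn
    refine h3.mono ?_
    rintro _ ⟨s, hs, rfl⟩
    refine ⟨z + Complex.exp s, ?_, rfl⟩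
    rw [mem_closedBall, dist_eq_norm, hexp]
    have h4 : s.re ≤ Real.log r₂ := hs.2
    calc Real.exp s.re ≤ Real.exp (Real.log r₂) := Real.exp_le_exp.2 h4
      _ = r₂ := Real.exp_log (h1.trans h2)
  have hre : (Complex.log (w - z)).re = Real.log ‖w - z‖ := Complex.log_re _
  have hz : Complex.log (w - z) ∈ Complex.HadamardThreeLines.verticalClosedStrip (Real.log r₁) (Real.log r₂) := by
    change (Complex.log (w - z)).re ∈ Set.Icc (Real.log r₁) (Real.log r₂)
    rw [hre]
    exact ⟨Real.log_le_log h1 hw1, Real.log_le_log hpos hw2⟩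
  have h5 := Complex.HadamardThreeLines.norm_le_interp_of_mem_verticalClosedStrip' (f := fun s : ℂ => F (z + Complex.exp s))
    (z := Complex.log (w - z)) (a := Real.exp m₁) (b := Real.exp m₂) hlt hz hd.diffContOnCl hB
    (fun s hs => hm1 _ (by
      rw [hexp]
      have h6 : s.re = Real.log r₁ := hs
      rw [h6, Real.exp_log h1]))
    (fun s hs => hm2 _ (by
      rw [hexp]
      have h6 : s.re = Real.log r₂ := hs
      rw [h6, Real.exp_log (h1.trans h2)]))
  have h6 : z + Complex.exp (Complex.log (w - z)) = w := by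
    rw [Complex.exp_log hne, add_sub_cancel]
  rw [hre] at h5
  change ‖F (z + Complex.exp (Complex.log (w - z)))‖ ≤ _ at h5
  rw [h6, ← Real.exp_mul, ← Real.exp_mul, ← Real.exp_add] at h5
  refine h5.trans (le_of_eq ?_)
  congr 1
  have h7 : Real.log r₂ - Real.log r₁ ≠ 0 := (sub_pos.2 hlt).ne'
  field_simp
  ring

end Pool.Agent.SR2
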