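import Pool.Agent.SR2.AGrw
import Pool.Agent.SR2.AJmp
import Pool.Agent.SR2.AThr
import Pool.Agent.H17.Montel

/-!
# SR2 AGap: the gap (D)

If `log ‖F z‖ ≤ B` and the distance `d` of `z` to the good points is large, let `r` be the distance of `z` to the set where `log ‖F‖ ≥ B + 1`: `r ≤ exp (-η d)` (`jump`);
three circles with the radii `r`, `d / 2` and `growth`: `F (z + r w)` has polynomial growth, uniformly.  The limit is a nonconstant polynomial curve in `K`: `na`.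
-/

set_option autoImplicit false

open Topology Filter Metric

noncomputable section

namespace Pool.Agent.SR2

open Pool.Agent.H36.BP (EN fs wd Sub OrdTwo)
open Pool.Agent.H14.PP (IsCone Tan)
open Pool.Agent.SY (Ent)
open Pool.Agent.SDA (EnergyK Near AffOpen Nm nForms)
open Geo (Gd)

variable {N : ℕ} {G : Geo N} {T : Set (EN N)} {rho : EN N → ℝ} {M : ℕ} {c₀ C δ : ℝ} {g : (ℂ → EN N) → ℂ → ℝ}

/-- Montel on the plane, along an ultrafilter -/
theorem gap_montel (𝒰 : Ultrafilter ℕ) {Φ : ℕ → ℂ → EN N} (hd : ∀ k, Differentiable ℂ (Φ k)) {b : ℝ → ℝ}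
    (hb : ∀ R : ℝ, ∀ᶠ k in (𝒰 : Filter ℕ), ∀ z ∈ ball (0 : ℂ) R, ‖Φ k z‖ ≤ b R) :
    ∃ H : ℂ → EN N, Differentiable ℂ H ∧ TendstoLocallyUniformlyOn Φ H (𝒰 : Filter ℕ) Set.univ := by
  have hmont : ∀ R : ℕ, ∃ h : ℂ → EN N, DifferentiableOn ℂ h (ball 0 (R + 1)) ∧
      TendstoLocallyUniformlyOn Φ h (𝒰 : Filter ℕ) (ball 0 (R + 1)) := fun R =>
    Pool.Agent.H17.montel_ultrafilter 𝒰 (Eventually.of_forall fun k => (hd k).differentiableOn) (hb _)
  choose h hdf hcv using hmont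
  have hmem : ∀ z : ℂ, z ∈ ball (0 : ℂ) ((⌈‖z‖⌉₊ : ℕ) + 1) := by
    intro z
    rw [mem_ball_zero_iff]
    have := Nat.le_ceil ‖z‖
    linarith
  obtain ⟨H, hH⟩ : ∃ H : ℂ → EN N, H = fun z => h ⌈‖z‖⌉₊ z := ⟨_, rfl⟩
  have hHt : ∀ z, Tendsto (fun k => Φ k z) (𝒰 : Filter ℕ) (𝓝 (H z)) := by
    intro z
    rw [hH]
    exact (hcv _).tendsto_at (hmem z)
  have hHR : ∀ R : ℕ, ∀ z ∈ ball (0 : ℂ) (R + 1), H z = h R z := fun R z hz =>
    tendsto_nhds_unique (hHt z) ((hcv R).tendsto_at hz)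
  refine ⟨H, fun z => ?_, fun u hu z _ => ?_⟩
  · have hz := hmem z
    have h1 := (hdf _).differentiableAt (isOpen_ball.mem_nhds hz)
    refine h1.congr_of_eventuallyEq ?_
    filter_upwards [isOpen_ball.mem_nhds hz] with y hy
    exact hHR _ y hy
  · have hz := hmem z
    obtain ⟨t, ht, hev⟩ := hcv _ u hu z hz
    have ht' : t ∈ 𝓝 z := by
      rwa [isOpen_ball.nhdsWithin_eq hz] at ht
    refine ⟨t ∩ ball 0 ((⌈‖z‖⌉₊ : ℕ) + 1), ?_, ?_⟩
    · rw [nhdsWithin_univ]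
      exact inter_mem ht' (isOpen_ball.mem_nhds hz)
    · filter_upwards [hev] with k hk y hy
      rw [hHR _ y hy.2]
      exact hk y hy.1

/-- the rescaling of one curve -/
theorem gap_one (S : Base G T rho M c₀ C δ g) (B : ℝ) :
    ∃ R₀ C' : ℝ, 2 < R₀ ∧ 0 ≤ C' ∧ ∀ (q : G.J → ℂ) (F : ℂ → EN N), G.Cl T q F → ∀ z, R₀ ≤ infDist z (Gd rho δ F) → Real.log ‖F z‖ ≤ B →
      ∃ r : ℝ, 0 < r ∧ r ≤ 1 ∧ (∀ w : ℂ, ‖w‖ ≤ 1 → Real.log ‖F (z + r * w)‖ ≤ B + 1) ∧ (∃ w : ℂ, ‖w‖ ≤ 1 ∧ B + 1 ≤ Real.log ‖F (z + r * w)‖) ∧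
        ∀ w : ℂ, 1 ≤ ‖w‖ → ‖w‖ ≤ infDist z (Gd rho δ F) / 2 → ‖F (z + r * w)‖ ≤ Real.exp (|B + 1| + C' * Real.log ‖w‖) := by
  obtain ⟨η, R₁, hη, hR₁, hjump⟩ := jump S B
  obtain ⟨B', hB', hgr⟩ := growth S.ok S.met
  refine ⟨max R₁ 3, 2 * B' / η, lt_max_of_lt_right (by norm_num), by positivity, fun q F hF z hz hB => ?_⟩
  set d : ℝ := infDist z (Gd rho δ F) with hd
  have hd1 : R₁ ≤ d := (le_max_left _ _).trans hz
  have hd3 : 3 ≤ d := (le_max_right _ _).trans hz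
  obtain ⟨w₀, hw₀, hw₀B⟩ := hjump q F hF z hd1 hB
  have hFd := hF.ent.diff
  have hF0 : ∀ w, F w ≠ 0 := fun w => ne0 S.ok (hF.ent.mem w)
  have hcont : Continuous fun w => Real.log ‖F w‖ := hFd.continuous.norm.log fun w => norm_ne_zero_iff.2 (hF0 w)
  set s₀ : ℝ := Real.exp (-(η * d)) with hs₀
  have hs₀1 : s₀ ≤ 1 := by
    rw [hs₀, Real.exp_le_one_iff]
    have : 0 ≤ η * d := by positivity
    linarith
  -- the first point where the curve is large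
  have hAc : IsCompact (closedBall z s₀ ∩ {w | B + 1 ≤ Real.log ‖F w‖}) :=
    (isCompact_closedBall z s₀).inter_right (isClosed_le continuous_const hcont)
  obtain ⟨w₁, ⟨hw₁s, hw₁B⟩, hmin⟩ := hAc.exists_isMinOn ⟨w₀, by rw [mem_closedBall, dist_eq_norm]; exact hw₀, hw₀B.le⟩
    ((continuous_id.sub continuous_const).norm.continuousOn (f := fun w : ℂ => ‖id w - z‖))
  set r : ℝ := ‖w₁ - z‖ with hr
  have hrs : r ≤ s₀ := by rwa [mem_closedBall, dist_eq_norm] at hw₁s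
  have hr0 : 0 < r := by
    rw [hr, norm_pos_iff, sub_ne_zero]
    rintro rfl
    have h1 : B + 1 ≤ Real.log ‖F w₁‖ := hw₁B
    linarith
  have hlt : ∀ w ∈ ball z r, Real.log ‖F w‖ ≤ B + 1 := by
    intro w hw
    by_contra hcon
    push Not at hcon
    rw [mem_ball, dist_eq_norm] at hw
    have h1 : r ≤ ‖id w - z‖ := hmin ⟨by rw [mem_closedBall, dist_eq_norm]; exact hw.le.trans hrs, hcon.le⟩
    exact absurd hw (not_lt.2 h1)
  have hle : ∀ w ∈ closedBall z r, Real.log ‖F w‖ ≤ B + 1 := by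
    intro w hw
    rw [← closure_ball z hr0.ne'] at hw
    exact closure_minimal (fun y hy => hlt y hy) (isClosed_le hcont continuous_const) hw
  have hrn : ‖(r : ℂ)‖ = r := by rw [Complex.norm_real, Real.norm_of_nonneg hr0.le]
  refine ⟨r, hr0, hrs.trans hs₀1, fun w hw => hle _ ?_, ⟨(w₁ - z) / r, ?_, ?_⟩, fun w hw1 hw2 => ?_⟩
  · rw [mem_closedBall, dist_eq_norm, add_sub_cancel_left, norm_mul, hrn]
    exact mul_le_of_le_one_right hr0.le hw
  · rw [norm_div, hrn, ← hr, div_self hr0.ne']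
  · have e : z + (r : ℂ) * ((w₁ - z) / r) = w₁ := by
      have : (r : ℂ) ≠ 0 := Complex.ofReal_ne_zero.2 hr0.ne'
      field_simp
      ring
    rw [e]
    exact hw₁B
  · -- three circles
    have hw0 : 0 < ‖w‖ := by linarith
    have hrd : r < d / 2 := by linarith [hrs.trans hs₀1]
    set m₂ : ℝ := B' * (1 + (d + d / 2)) with hm₂
    have hm₂0 : 0 ≤ m₂ := by positivity
    have h1 : ∀ y, ‖y - z‖ = r → ‖F y‖ ≤ Real.exp (B + 1) := fun y hy => by
      rw [← Real.log_le_iff_le_exp (norm_pos_iff.2 (hF0 y))]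
      exact hle y (by rw [mem_closedBall, dist_eq_norm]; exact hy.le)
    have h2 : ∀ y, ‖y - z‖ = d / 2 → ‖F y‖ ≤ Real.exp m₂ := fun y hy => by
      rw [← Real.log_le_iff_le_exp (norm_pos_iff.2 (hF0 y))]
      refine (hgr q F hF y).trans (mul_le_mul_of_nonneg_left ?_ hB')
      have h3 : infDist y (Gd rho δ F) ≤ infDist z (Gd rho δ F) + dist y z := infDist_le_infDist_add_dist
      rw [dist_eq_norm, hy] at h3
      linarith
    have hy : ‖z + (r : ℂ) * w - z‖ = r * ‖w‖ := by rw [add_sub_cancel_left, norm_mul, hrn]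
    have hyr : r ≤ ‖z + (r : ℂ) * w - z‖ := by
      rw [hy]
      exact le_mul_of_one_le_right hr0.le hw1
    have hyd : ‖z + (r : ℂ) * w - z‖ ≤ d / 2 := by
      rw [hy]
      exact (mul_le_of_le_one_left hw0.le (hrs.trans hs₀1)).trans hw2
    refine (three_circles hFd hr0 hrd h1 h2 _ hyr hyd).trans (Real.exp_le_exp.2 ?_)
    rw [hy, Real.log_mul hr0.ne' hw0.ne']
    set Λ : ℝ := Real.log (d / 2) - Real.log r with hΛ
    have hΛd : η * d ≤ Λ := by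
      have h3 : Real.log r ≤ -(η * d) := by
        rw [← Real.log_exp (-(η * d))]
        exact Real.log_le_log hr0 hrs
      have h4 : 0 ≤ Real.log (d / 2) := Real.log_nonneg (by linarith)
      linarith
    have hηd : 0 < η * d := by positivity
    have hΛ0 : 0 < Λ := lt_of_lt_of_le hηd hΛd
    set t : ℝ := Real.log ‖w‖ with ht
    have ht0 : 0 ≤ t := Real.log_nonneg hw1
    have htΛ : t ≤ Λ := by
      have h3 := Real.log_le_log (by positivity) (hy ▸ hyd)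
      rw [Real.log_mul hr0.ne' hw0.ne'] at h3
      linarith
    have e1 : (Real.log (d / 2) - (Real.log r + t)) * (B + 1) + (Real.log r + t - Real.log r) * m₂ = (Λ - t) * (B + 1) + t * m₂ := by
      rw [hΛ]
      ring
    rw [e1, div_le_iff₀ hΛ0]
    have h5 : (Λ - t) * (B + 1) ≤ Λ * |B + 1| := by
      calc (Λ - t) * (B + 1) ≤ (Λ - t) * |B + 1| := mul_le_mul_of_nonneg_left (le_abs_self _) (by linarith)
        _ ≤ Λ * |B + 1| := mul_le_mul_of_nonneg_right (by linarith) (abs_nonneg _)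
    have h6 : m₂ ≤ 2 * B' / η * Λ := by
      have h7 : m₂ ≤ 2 * B' / η * (η * d) := by
        have e2 : 2 * B' / η * (η * d) = B' * (2 * d) := by
          field_simp
        rw [e2, hm₂]
        exact mul_le_mul_of_nonneg_left (by linarith) hB'
      exact h7.trans (mul_le_mul_of_nonneg_left hΛd (by positivity))
    have h8 := mul_le_mul_of_nonneg_left h6 ht0
    calc (Λ - t) * (B + 1) + t * m₂ ≤ Λ * |B + 1| + t * (2 * B' / η * Λ) := add_le_add h5 h8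
      _ = (|B + 1| + 2 * B' / η * t) * Λ := by ring

/-- **The gap (D).** -/
theorem gapD (S : Base G T rho M c₀ C δ g) (B : ℝ) :
    ∃ R : ℝ, ∀ (q : G.J → ℂ) (F : ℂ → EN N), G.Cl T q F → ∀ z, Real.log ‖F z‖ ≤ B → infDist z (Gd rho δ F) ≤ R := by
  obtain ⟨R₀, C', hR₀, hC', hone⟩ := gap_one S B
  by_contra hcon
  push Not at hcon
  have hseq : ∀ n : ℕ, ∃ (q : G.J → ℂ) (F : ℂ → EN N) (z : ℂ) (r : ℝ) (w₁ : ℂ), G.Cl T q F ∧ Real.log ‖F z‖ ≤ B ∧ 0 < r ∧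
      (∀ w : ℂ, ‖w‖ ≤ 1 → Real.log ‖F (z + r * w)‖ ≤ B + 1) ∧ ‖w₁‖ ≤ 1 ∧ B + 1 ≤ Real.log ‖F (z + r * w₁)‖ ∧
        ∀ w : ℂ, 1 ≤ ‖w‖ → ‖w‖ ≤ n → ‖F (z + r * w)‖ ≤ Real.exp (|B + 1| + C' * Real.log ‖w‖) := by
    intro n
    obtain ⟨q, F, hF, z, hz, hn⟩ := hcon (max R₀ (2 * n))
    obtain ⟨r, hr, -, h1, ⟨w₁, hw1, hw2⟩, h2⟩ := hone q F hF z ((le_max_left _ _).trans hn.le) hz
    refine ⟨q, F, z, r, w₁, hF, hz, hr, h1, hw1, hw2, fun w hwa hwb => h2 w hwa (hwb.trans ?_)⟩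
    have := (le_max_right R₀ (2 * (n : ℝ))).trans hn.le
    linarith
  choose q F z r w₁ hF hz hr h1 hw1 hw2 h2 using hseq
  set Φ : ℕ → ℂ → EN N := fun n w => F n (z n + r n * w) with hΦ
  have hFd : ∀ n, Differentiable ℂ (F n) := fun n => (hF n).ent.diff
  have hF0 : ∀ n w, F n w ≠ 0 := fun n w => ne0 S.ok ((hF n).ent.mem w)
  have hΦd : ∀ n, Differentiable ℂ (Φ n) := fun n => (hFd n).comp ((differentiable_const _).add ((differentiable_const _).mul differentiable_id))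
  have hbd : ∀ (n : ℕ) (w : ℂ), ‖w‖ ≤ n → ‖Φ n w‖ ≤ Real.exp (|B + 1| + C' * Real.log (1 + ‖w‖)) := by
    intro n w hw
    rcases le_total ‖w‖ 1 with h | h
    · have h3 : ‖Φ n w‖ ≤ Real.exp (B + 1) := by
        rw [← Real.log_le_iff_le_exp (norm_pos_iff.2 (hF0 n _))]
        exact h1 n w h
      refine h3.trans (Real.exp_le_exp.2 ?_)
      have h4 : 0 ≤ Real.log (1 + ‖w‖) := Real.log_nonneg (by linarith [norm_nonneg w])
      have h5 := le_abs_self (B + 1)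
      have h6 := mul_nonneg hC' h4
      linarith
    · refine (h2 n w h hw).trans (Real.exp_le_exp.2 ?_)
      have h3 : Real.log ‖w‖ ≤ Real.log (1 + ‖w‖) := Real.log_le_log (by linarith) (by linarith)
      have := mul_le_mul_of_nonneg_left h3 hC'
      linarith
  obtain ⟨𝒰, h𝒰⟩ : ∃ 𝒰 : Ultrafilter ℕ, (𝒰 : Filter ℕ) ≤ atTop := Ultrafilter.exists_le atTop
  obtain ⟨H, hHd, hHc⟩ := gap_montel 𝒰 hΦd (b := fun R => Real.exp (|B + 1| + C' * Real.log (1 + R))) (by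
    intro R
    have hev : ∀ᶠ k : ℕ in (𝒰 : Filter ℕ), R ≤ k := h𝒰 ((tendsto_natCast_atTop_atTop (R := ℝ)).eventually_ge_atTop R)
    filter_upwards [hev] with k hk w hw
    rw [mem_ball_zero_iff] at hw
    refine (hbd k w (hw.le.trans hk)).trans (Real.exp_le_exp.2 ?_)
    have h3 : Real.log (1 + ‖w‖) ≤ Real.log (1 + R) := Real.log_le_log (by linarith [norm_nonneg w]) (by linarith)
    have := mul_le_mul_of_nonneg_left h3 hC'
    linarith)
  have hHt : ∀ w, Tendsto (fun k => Φ k w) (𝒰 : Filter ℕ) (𝓝 (H w)) := fun w => hHc.tendsto_at (Set.mem_univ w)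
  have hHK : ∀ w, H w ∈ G.K ∧ G.p (H w) = 1 := fun w =>
    mem_lim S.ok (Eventually.of_forall fun k => ⟨(hF k).ent.mem _, (hF k).nm _⟩) (hHt w)
  have hHb : ∀ w, ‖H w‖ ≤ Real.exp (|B + 1| + C' * Real.log (1 + ‖w‖)) := by
    intro w
    refine le_of_tendsto (hHt w).norm ?_
    have hev : ∀ᶠ k : ℕ in (𝒰 : Filter ℕ), ‖w‖ ≤ k := h𝒰 ((tendsto_natCast_atTop_atTop (R := ℝ)).eventually_ge_atTop ‖w‖)
    filter_upwards [hev] with k hk
    exact hbd k w hk
  have hpoly : ∃ (A : ℝ) (k : ℕ), ∀ w, ‖H w‖ ≤ A * (1 + ‖w‖) ^ k := by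
    refine ⟨Real.exp |B + 1|, ⌈C'⌉₊, fun w => (hHb w).trans ?_⟩
    have hp : (1 : ℝ) ≤ 1 + ‖w‖ := by linarith [norm_nonneg w]
    have hp0 : (0 : ℝ) < 1 + ‖w‖ := by linarith
    rw [Real.exp_add]
    refine mul_le_mul_of_nonneg_left ?_ (Real.exp_pos _).le
    have e : (1 + ‖w‖) ^ ⌈C'⌉₊ = Real.exp (⌈C'⌉₊ * Real.log (1 + ‖w‖)) := by
      rw [mul_comm, Real.exp_mul, Real.exp_log hp0, Real.rpow_natCast]
    rw [e]
    exact Real.exp_le_exp.2 (mul_le_mul_of_nonneg_right (Nat.le_ceil C') (Real.log_nonneg hp))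
  have hconst := S.ok.na H hHd (fun w => (hHK w).1) (nm_iff.2 fun w => (hHK w).2) hpoly
  -- the value at `0`
  have hH0 : ‖H 0‖ ≤ Real.exp B := by
    refine le_of_tendsto (hHt 0).norm (Eventually.of_forall fun k => ?_)
    have h3 : Φ k 0 = F k (z k) := by
      rw [hΦ]
      simp
    rw [h3, ← Real.log_le_iff_le_exp (norm_pos_iff.2 (hF0 k _))]
    exact hz k
  -- the value at the limit of `w₁`
  obtain ⟨y, -, hy⟩ := (isCompact_closedBall (0 : ℂ) 1).ultrafilter_le_nhds (𝒰.map w₁) (by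
    rw [le_principal_iff]
    refine Filter.Eventually.of_forall (f := (𝒰 : Filter ℕ)) fun n => ?_
    show w₁ n ∈ closedBall (0 : ℂ) 1
    rw [mem_closedBall_zero_iff]
    exact hw1 n)
  have hyt : Tendsto w₁ (𝒰 : Filter ℕ) (𝓝 y) := hy
  have hHy : Tendsto (fun k => Φ k (w₁ k)) (𝒰 : Filter ℕ) (𝓝 (H y)) :=
    hHc.tendsto_comp hHd.continuous.continuousWithinAt (Set.mem_univ y) (by rw [nhdsWithin_univ]; exact hyt)
  have hHyB : Real.exp (B + 1) ≤ ‖H y‖ := by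
    refine ge_of_tendsto hHy.norm (Eventually.of_forall fun k => ?_)
    rw [← Real.le_log_iff_exp_le (norm_pos_iff.2 (hF0 k _))]
    exact hw2 k
  rw [hconst y 0] at hHyB
  have h9 : Real.exp (B + 1) ≤ Real.exp B := hHyB.trans hH0
  rw [Real.exp_le_exp] at h9
  linarith

end Pool.Agent.SR2
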