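import Pool.Agent.SR2.ABd
import Pool.Agent.SR2.ALam
import Pool.Agent.SDA.Ha
import Pool.Agent.SDA.F0

/-!
# SR2 AGd: a curve of the class has good points
-/

set_option autoImplicit false

open Topology Filter Metric

noncomputable section

namespace Pool.Agent.SR2

open Pool.Agent.H36.BP (EN fs wd Sub OrdTwo)
open Pool.Agent.H14.PP (IsCone Tan)
open Pool.Agent.SY (Ent)
open Pool.Agent.SDA (EnergyK Near AffOpen Nm nForms)
open Geo (Gd)

variable {N : ℕ} {G : Geo N} {T : Set (EN N)} {rho : EN N → ℝ} {M : ℕ} {c₀ C δ : ℝ} {g : (ℂ → EN N) → ℂ → ℝ}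

/-- multiples of the point have length zero -/
theorem n_self (hG : G.Ok) {x : EN N} (hx : x ∈ G.K) (a : ℂ) : G.n x (a • x) = 0 := by
  have hX := KX hG hx
  have hT := Pool.Agent.SDA.F1_tan_zero hX
  have h0 : G.n x 0 = 0 := by
    have h2 := n_smul hG hx hT 0
    rwa [norm_zero, zero_mul, zero_smul] at h2
  have h1 : G.n ((1 : ℂ) • x) ((1 : ℂ) • (0 : EN N) + a • x) = G.n x 0 := by
    show ∑ j, ‖G.w j ((1 : ℂ) • x) ((1 : ℂ) • (0 : EN N) + a • x)‖ ^ ((G.m j : ℝ)⁻¹) = ∑ j, ‖G.w j x 0‖ ^ ((G.m j : ℝ)⁻¹)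
    exact Finset.sum_congr rfl fun j _ => by rw [hG.w_inv j x hx 0 hT 1 a one_ne_zero]
  rw [one_smul, smul_zero, zero_add] at h1
  rw [h1, h0]

theorem unbounded (hG : G.Ok) {q : G.J → ℂ} {F : ℂ → EN N} (hF : G.Cl T q F) (B : ℝ) : ∃ z, B < ‖F z‖ := by
  by_contra h
  have h' : ∀ z, ‖F z‖ ≤ B := fun z => not_lt.1 fun h1 => h ⟨z, h1⟩
  have hb : Bornology.IsBounded (Set.range F) := by
    rw [isBounded_iff_forall_norm_le]
    refine ⟨B, ?_⟩
    rintro _ ⟨z, rfl⟩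
    exact h' z
  have h1 : ∀ z w, F z = F w := fun z w => hF.ent.diff.apply_eq_apply_of_bounded hb z w
  have h2 : F = fun _ => F 0 := funext fun z => h1 z 0
  have h3 : deriv F 0 = 0 := by
    rw [h2]
    simp
  have h4 := cl_n hF 0
  rw [h3, ← zero_smul ℂ (F 0), n_self hG (hF.ent.mem 0)] at h4
  exact zero_ne_one h4

/-- the metric is positive somewhere -/
theorem pos_g (hG : G.Ok) (hM : G.Met T rho M c₀ C δ g) {q : G.J → ℂ} {F : ℂ → EN N} (hF : G.Cl T q F) : ∃ z, 0 < g F z := by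
  obtain ⟨z, hz⟩ := hF.ent.out
  refine ⟨z, ?_⟩
  have hX := KX hG (hF.ent.mem z)
  have hr : 0 < rho (F z) := lt_of_le_of_ne (hM.rho0 _ hX) fun h => hz ((hM.rhoT _ hX).1 h.symm)
  obtain ⟨a, ha⟩ := hM.en.lower F hF.ent z
  rcases (hM.en.nonneg F hF.ent z).lt_or_eq with h | h
  · exact h
  · exfalso
    rw [← h, mul_zero] at ha
    have h1 : ‖deriv F z - a • F z‖ = 0 := by
      have h2 : 0 < rho (F z) ^ M := pow_pos hr M
      have h3 := norm_nonneg (deriv F z - a • F z)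
      by_contra h4
      have h5 : 0 < ‖deriv F z - a • F z‖ := lt_of_le_of_ne h3 (Ne.symm h4)
      exact absurd ha (not_le.2 (mul_pos h2 h5))
    have h2 : deriv F z = a • F z := sub_eq_zero.1 (norm_eq_zero.1 h1)
    have h3 := cl_n hF z
    rw [h2, n_self hG (hF.ent.mem z)] at h3
    exact zero_ne_one h3

theorem exists_good (hG : G.Ok) (hM : G.Met T rho M c₀ C δ g) {q : G.J → ℂ} {F : ℂ → EN N} (hF : G.Cl T q F) : (Gd rho δ F).Nonempty := by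
  by_contra hcon
  have hbad : ∀ z, rho (F z) < δ := fun z => not_le.1 fun h => hcon ⟨z, h⟩
  obtain ⟨C₁, hC₁, hg⟩ := bound hG hM
  obtain ⟨z₀, hz₀⟩ := pos_g hG hM hF
  obtain ⟨B₁, hB₁, hlow⟩ := log_lower hG
  obtain ⟨c, hc, hc1⟩ : ∃ c : ℝ, 0 < c ∧ Real.log c = -B₁ := ⟨Real.exp (-B₁), Real.exp_pos _, Real.log_exp _⟩
  have hpos0 : ∀ z, 0 < ‖F z‖ := fun z => norm_pos_iff.2 (ne0 hG (hF.ent.mem z))
  have hFc : ∀ z, c ≤ ‖F z‖ := fun z => by
    have h1 := hlow (F z) (hF.nm z)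
    rw [← hc1] at h1
    exact (Real.log_le_log_iff hc (hpos0 z)).1 h1
  have hc0 : ‖((c : ℂ))⁻¹‖ = c⁻¹ := by rw [norm_inv, Complex.norm_real, Real.norm_eq_abs, abs_of_pos hc]
  obtain ⟨F₁, hF₁⟩ : ∃ F₁ : ℂ → EN N, F₁ = fun z => ((c : ℂ))⁻¹ • F z := ⟨_, rfl⟩
  have hn : ∀ z, ‖F₁ z‖ = c⁻¹ * ‖F z‖ := fun z => by
    rw [hF₁]
    simp only
    rw [norm_smul, hc0]
  have h1 : ∀ z, 1 ≤ ‖F₁ z‖ := fun z => by
    rw [hn]
    have := mul_le_mul_of_nonneg_left (hFc z) (inv_nonneg.2 hc.le)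
    rwa [inv_mul_cancel₀ hc.ne'] at this
  have hd : Differentiable ℂ F₁ := by
    rw [hF₁]
    exact hF.ent.diff.const_smul ((c : ℂ))⁻¹
  have hpos : ∀ z, 0 < ‖F₁ z‖ ^ (-c₀) := fun z => Real.rpow_pos_of_pos (lt_of_lt_of_le one_pos (h1 z)) _
  have hcont : Continuous fun z => ‖F₁ z‖ ^ (-c₀) :=
    hd.continuous.norm.rpow_const fun z => Or.inl (lt_of_lt_of_le one_pos (h1 z)).ne'
  have hsub : ∀ z, 0 < g F z * ‖F₁ z‖ ^ (-c₀) → Sub (fun w => g F w * ‖F₁ w‖ ^ (-c₀)) z 0 := fun z hz => by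
    have hgz : 0 < g F z := by
      rcases (hM.en.nonneg F hF.ent z).lt_or_eq with h | h
      · exact h
      · rw [← h, zero_mul] at hz
        exact absurd hz (lt_irrefl _)
    have h2 := hM.near F hF.ent z (hbad z) hgz
    have h3 := h2.const_mul (a := (c⁻¹) ^ (-c₀)) (Real.rpow_pos_of_pos (inv_pos.2 hc) _)
    refine h3.congr (Filter.Eventually.of_forall fun w => ?_)
    show (c⁻¹) ^ (-c₀) * (g F w * ‖F w‖ ^ (-c₀)) = g F w * ‖F₁ w‖ ^ (-c₀)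
    rw [hn, Real.mul_rpow (inv_nonneg.2 hc.le) (norm_nonneg _)]
    ring
  obtain ⟨b, hb⟩ : ∃ b : ℝ, b = -Real.log (g F z₀ * ‖F₁ z₀‖ ^ (-c₀)) := ⟨_, rfl⟩
  have key : ∀ z, c₀ * Real.log ‖F₁ z‖ ≤ 3 * (Real.log C₁ + b) := by
    intro z
    have hR : (0 : ℝ) < 2 * ‖z - z₀‖ + 1 := by positivity
    have h4 := Pool.Agent.SDA.harnack (N := N) (c := z₀) (z₀ := z₀) (R := 2 * ‖z - z₀‖ + 1) (a := Real.log C₁) (b := b) hM.en.c₀_pos
      (mem_ball_self hR) hd h1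
      (v := fun z => g F z * ‖F₁ z‖ ^ (-c₀)) (Pool.Agent.SDA.F1_usc (hM.en.usc F hF.ent) hcont hpos _)
      (fun w _ => mul_nonneg (hM.en.nonneg F hF.ent w) (hpos w).le) (fun w _ hw => hsub w hw)
      (fun w _ => by
        rw [Real.exp_log hC₁]
        exact mul_le_mul_of_nonneg_right (hg q F hF w) (hpos w).le)
      (by
        rw [hb, neg_neg, Real.exp_log (mul_pos hz₀ (hpos z₀))])
      z (by
        rw [mem_closedBall, dist_eq_norm]
        linarith [norm_nonneg (z - z₀)])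
    rw [sub_self, norm_zero, add_zero, sub_zero, div_self hR.ne', mul_one] at h4
    exact h4
  obtain ⟨z, hz⟩ := unbounded hG hF (c * Real.exp (3 * (Real.log C₁ + b) / c₀))
  have h5 := key z
  have h6 : Real.exp (3 * (Real.log C₁ + b) / c₀) < ‖F₁ z‖ := by
    rw [hn]
    have h7 := mul_lt_mul_of_pos_left hz (inv_pos.2 hc)
    rwa [← mul_assoc, inv_mul_cancel₀ hc.ne', one_mul] at h7
  have h7 := (Real.lt_log_iff_exp_lt (lt_of_lt_of_le one_pos (h1 z))).2 h6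
  rw [div_lt_iff₀ hM.en.c₀_pos] at h7
  linarith

end Pool.Agent.SR2
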