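import Pool.Agent.SR2.Defs

/-!
# SR2 ADefs
-/

set_option autoImplicit false

open Topology Filter Metric

noncomputable section

namespace Pool.Agent.SR2

/-- the real linear map `w ↦ Re (l * w)` -/
def reL (l : ℂ) : ℂ →L[ℝ] ℝ := Complex.reCLM.comp (ContinuousLinearMap.mul ℝ ℂ l)

@[simp] theorem reL_apply (l w : ℂ) : reL l w = (l * w).re := rfl

end Pool.Agent.SR2
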