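import Mathlib

/-!
# SR2 AHar: Harnack for the real part of a holomorphic function

Cayley transform and the Schwarz lemma: if `Re f ≥ 0`, `g = f - i Im f (z) + ε`, `A = g (z) > 0`, then `φ = (g - A) / (g + A)` maps the disc into the closed unit disc and
`φ (z) = 0`, so `|φ (w)| ≤ |w - z| / r`, `|φ' (z)| ≤ 1 / r`; `ε → 0`.
-/

set_option autoImplicit false

open Topology Filter Metric

noncomputable section

namespace Pool.Agent.SR2

private theorem cayley {f : ℂ → ℂ} {z : ℂ} {r : ℝ} (hr : 0 < r) (hf : DifferentiableOn ℂ f (ball z r)) (h0 : ∀ w ∈ ball z r, 0 ≤ (f w).re) {A : ℝ}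
    (hA : 0 < A) (hz : f z = A) :
    (∀ w ∈ ball z r, ‖f w - A‖ ≤ ‖w - z‖ / r * ‖f w + A‖) ∧ ‖deriv f z‖ ≤ 2 * A / r := by
  have hne : ∀ w ∈ ball z r, f w + A ≠ 0 := by
    intro w hw h
    have h1 := congrArg Complex.re h
    rw [Complex.add_re, Complex.ofReal_re, Complex.zero_re] at h1
    linarith [h0 w hw]
  obtain ⟨φ, hφ⟩ : ∃ φ : ℂ → ℂ, φ = fun w => (f w - A) / (f w + A) := ⟨_, rfl⟩
  have hφw : ∀ w, φ w = (f w - A) / (f w + A) := fun w => by rw [hφ]
  have hφd : DifferentiableOn ℂ φ (ball z r) := by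
    rw [hφ]
    exact (hf.sub_const _).div (hf.add_const _) hne
  have hφz : φ z = 0 := by rw [hφw, hz, sub_self, zero_div]
  have hmaps : Set.MapsTo φ (ball z r) (closedBall (φ z) 1) := by
    intro w hw
    rw [hφz, mem_closedBall_zero_iff, hφw, norm_div, div_le_one (norm_pos_iff.2 (hne w hw))]
    rw [← abs_of_nonneg (norm_nonneg (f w - A)), ← abs_of_nonneg (norm_nonneg (f w + A)), ← sq_le_sq, Complex.sq_norm, Complex.sq_norm,
      Complex.normSq_apply, Complex.normSq_apply]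
    simp only [Complex.sub_re, Complex.add_re, Complex.sub_im, Complex.add_im, Complex.ofReal_re, Complex.ofReal_im]
    nlinarith [mul_nonneg hA.le (h0 w hw)]
  constructor
  · intro w hw
    have h1 := Complex.dist_le_div_mul_dist_of_mapsTo_ball hφd hmaps hw
    rw [hφz, dist_zero_right, dist_eq_norm] at h1
    have h2 : ‖f w - A‖ = ‖φ w‖ * ‖f w + A‖ := by
      rw [hφw, norm_div, div_mul_cancel₀ _ (norm_ne_zero_iff.2 (hne w hw))]
    rw [h2]
    refine mul_le_mul_of_nonneg_right ?_ (norm_nonneg _)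
    calc ‖φ w‖ ≤ 1 / r * ‖w - z‖ := h1
      _ = ‖w - z‖ / r := by ring
  · have h1 := Complex.norm_deriv_le_div_of_mapsTo_ball hφd hmaps hr
    have hzr : z ∈ ball z r := mem_ball_self hr
    have hfd : HasDerivAt f (deriv f z) z := (hf.differentiableAt (isOpen_ball.mem_nhds hzr)).hasDerivAt
    have h2 : HasDerivAt φ ((deriv f z * (f z + A) - (f z - A) * deriv f z) / (f z + A) ^ 2) z := by
      rw [hφ]
      exact (hfd.sub_const _).div (hfd.add_const _) (hne z hzr)
    have hA' : (A : ℂ) ≠ 0 := by exact_mod_cast hA.ne'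
    have h3 : deriv φ z = deriv f z / (2 * A) := by
      rw [h2.deriv, hz, sub_self, zero_mul, sub_zero]
      field_simp
      ring
    rw [h3, norm_div] at h1
    have h4 : ‖(2 * A : ℂ)‖ = 2 * A := by
      rw [norm_mul, Complex.norm_real, Real.norm_of_nonneg hA.le]
      simp
    rw [h4, div_le_iff₀ (by positivity)] at h1
    calc ‖deriv f z‖ ≤ 1 / r * (2 * A) := h1
      _ = 2 * A / r := by ring

private theorem shift {f : ℂ → ℂ} {z : ℂ} {r : ℝ} (hr : 0 < r) (hf : DifferentiableOn ℂ f (ball z r)) (h0 : ∀ w ∈ ball z r, 0 ≤ (f w).re) {ε : ℝ} (hε : 0 < ε) :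
    (∀ w : ℂ, ‖w - z‖ ≤ r / 2 → (f w).re + ε ≤ 3 * ((f z).re + ε)) ∧ ‖deriv f z‖ ≤ 2 * ((f z).re + ε) / r := by
  have hz0 := h0 z (mem_ball_self hr)
  have hA : 0 < (f z).re + ε := by linarith
  obtain ⟨g, hg⟩ : ∃ g : ℂ → ℂ, g = fun w => f w + ((ε : ℂ) - (f z).im * Complex.I) := ⟨_, rfl⟩
  have hgw : ∀ w, g w = f w + ((ε : ℂ) - (f z).im * Complex.I) := fun w => by rw [hg]
  have hgre : ∀ w, (g w).re = (f w).re + ε := fun w => by
    rw [hgw, Complex.add_re, Complex.sub_re, Complex.ofReal_re]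
    simp
  have hgd : DifferentiableOn ℂ g (ball z r) := by
    rw [hg]
    exact hf.add_const _
  have hgz : g z = (((f z).re + ε : ℝ) : ℂ) := by
    rw [hgw]
    conv_lhs => rw [← Complex.re_add_im (f z)]
    simp only [Complex.add_im, Complex.mul_im, Complex.ofReal_im, Complex.ofReal_re, Complex.I_re, Complex.I_im]
    push_cast
    ring
  obtain ⟨h1, h2⟩ := cayley hr hgd (fun w hw => by rw [hgre]; linarith [h0 w hw]) hA hgz
  constructor
  · intro w hw
    have hwr : w ∈ ball z r := by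
      rw [mem_ball_iff_norm]
      linarith
    have h3 := h1 w hwr
    have h4 : ‖w - z‖ / r ≤ 1 / 2 := by
      rw [div_le_iff₀ hr]
      linarith
    have h5 : ‖g w - (((f z).re + ε : ℝ) : ℂ)‖ ≤ 1 / 2 * (‖g w‖ + ((f z).re + ε)) := by
      refine h3.trans (mul_le_mul h4 ?_ (norm_nonneg _) (by norm_num))
      refine (norm_add_le _ _).trans (le_of_eq ?_)
      rw [Complex.norm_real, Real.norm_of_nonneg hA.le]
    have h6 : ‖g w‖ ≤ ‖g w - (((f z).re + ε : ℝ) : ℂ)‖ + ((f z).re + ε) := by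
      have h7 := norm_add_le (g w - (((f z).re + ε : ℝ) : ℂ)) (((f z).re + ε : ℝ) : ℂ)
      rwa [sub_add_cancel, Complex.norm_real, Real.norm_of_nonneg hA.le] at h7
    have h7 : (g w).re ≤ ‖g w‖ := Complex.re_le_norm _
    rw [hgre] at h7
    linarith
  · have h3 : deriv g z = deriv f z := by
      rw [hg]
      exact deriv_add_const _
    rwa [h3] at h2

theorem harnack_re {f : ℂ → ℂ} {z : ℂ} {r : ℝ} (hr : 0 < r) (hf : DifferentiableOn ℂ f (ball z r)) (h0 : ∀ w ∈ ball z r, 0 ≤ (f w).re) {w : ℂ}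
    (hw : ‖w - z‖ ≤ r / 2) : (f w).re ≤ 3 * (f z).re := by
  refine le_of_forall_pos_le_add fun ε hε => ?_
  have h1 := (shift hr hf h0 (half_pos hε)).1 w hw
  linarith

theorem deriv_le_re {f : ℂ → ℂ} {z : ℂ} {r : ℝ} (hr : 0 < r) (hf : DifferentiableOn ℂ f (ball z r)) (h0 : ∀ w ∈ ball z r, 0 ≤ (f w).re) :
    ‖deriv f z‖ ≤ 2 * (f z).re / r := by
  refine le_of_forall_pos_le_add fun ε hε => ?_
  have h1 := (shift hr hf h0 (ε := ε * r / 2) (by positivity)).2
  have h2 : 2 * ((f z).re + ε * r / 2) / r = 2 * (f z).re / r + ε := by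
    field_simp
  linarith

end Pool.Agent.SR2
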