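import Pool.Agent.SR2.AZal
import Pool.Agent.SR2.APl
import Pool.Agent.SR2.AGap
import Pool.Agent.SR2.ABas
import Pool.Agent.H36.BP.Brody

/-!
# SR2 ASpd: the static region is slow

If not, Zalcman's rescaling gives a limit curve in the boundary which is not constant, against `h1`.
-/

set_option autoImplicit false

open Topology Filter Metric

noncomputable section

namespace Pool.Agent.SR2

open Pool.Agent.H36.BP (EN fs wd Sub OrdTwo)
open Pool.Agent.H14.PP (IsCone Tan)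
open Pool.Agent.SY (Ent)
open Pool.Agent.SDA (EnergyK Near AffOpen Nm nForms)
open Geo (Gd)

variable {N : ℕ} {G : Geo N} {T : Set (EN N)} {rho : EN N → ℝ} {M : ℕ} {c₀ C δ : ℝ} {g : (ℂ → EN N) → ℂ → ℝ}

/-- the limits of multiples of vectors of the cone -/
private theorem ASpd_mem (hG : G.Ok) {l : Filter ℕ} [l.NeBot] {x : ℕ → EN N} {y : EN N} (hx : ∀ᶠ k in l, x k ∈ G.X) (hy : Tendsto x l (𝓝 y))
    (h0 : y ≠ 0) : y ∈ G.X := by
  have h1 : closure G.X ⊆ insert 0 G.X := closure_minimal (Set.subset_insert 0 G.X) hG.cone.closed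
  exact (Set.mem_insert_iff.1 (h1 (mem_closure_of_tendsto hy hx))).resolve_left h0

private theorem ASpd_fs {x v : EN N} (hx : x ≠ 0) {l : Filter ℕ} {y w : ℕ → EN N} (hy : Tendsto y l (𝓝 x)) (hw : Tendsto w l (𝓝 v)) :
    Tendsto (fun k => fs (y k) (w k)) l (𝓝 (fs x v)) := by
  have h0 : Tendsto (fun p : EN N × EN N => wd p.1 p.2) (𝓝 (x, v)) (𝓝 (wd x v)) := (Pool.Agent.H36.BP.wd_cont (N := N)).tendsto (x, v)
  have h1 : Tendsto (fun k => wd (y k) (w k)) l (𝓝 (wd x v)) := Tendsto.comp (f := fun k => (y k, w k)) h0 (hy.prodMk_nhds hw)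
  have h2 : Tendsto (fun k => ‖y k‖ ^ 2) l (𝓝 (‖x‖ ^ 2)) := hy.norm.pow 2
  show Tendsto (fun k => wd (y k) (w k) / ‖y k‖ ^ 2) l (𝓝 (wd x v / ‖x‖ ^ 2))
  exact h1.div h2 (pow_ne_zero 2 (norm_ne_zero_iff.2 hx))

theorem speed (S : Base G T rho M c₀ C δ g) :
    ∃ B R : ℝ, 0 < B ∧ 0 < R ∧ ∀ (q : G.J → ℂ) (F : ℂ → EN N), G.Cl T q F → ∀ z, R ≤ infDist z (Gd rho δ F) →
      fs (F z) (deriv F z) ≤ B / infDist z (Gd rho δ F) := by
  by_contra hcon
  push Not at hcon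
  have h1 : ∀ k : ℕ, ∃ (q : G.J → ℂ) (F : ℂ → EN N) (z : ℂ), G.Cl T q F ∧ (k : ℝ) + 1 ≤ infDist z (Gd rho δ F) ∧
      32 * ((k : ℝ) + 1) / infDist z (Gd rho δ F) < fs (F z) (deriv F z) := fun k => by
    obtain ⟨q, F, hF, z, h2, h3⟩ := hcon (32 * ((k : ℝ) + 1)) ((k : ℝ) + 1) (by positivity) (by positivity)
    exact ⟨q, F, z, hF, h2, h3⟩
  choose q F z hF hz hfs using h1
  obtain ⟨d, hd⟩ : ∃ d : ℕ → ℝ, ∀ k, d k = infDist (z k) (Gd rho δ (F k)) := ⟨_, fun _ => rfl⟩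
  simp only [← hd] at hz hfs
  have hk0 : ∀ k : ℕ, (0 : ℝ) ≤ (k : ℝ) := fun k => Nat.cast_nonneg k
  have hd0 : ∀ k, 0 < d k := fun k => by
    have := hk0 k
    linarith [hz k]
  have h2 : ∀ k : ℕ, 8 * ((k : ℝ) + 1) < d k / 2 * fs (F k (z k)) (deriv (F k) (z k)) := fun k => by
    have h3 := hfs k
    rw [div_lt_iff₀ (hd0 k)] at h3
    have := hk0 k
    linarith
  choose a b ha hb hak hab hle using fun k => zalcman (hF k).ent.diff (fun w => ne0 S.ok ((hF k).ent.mem w)) (half_pos (hd0 k))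
    (by linarith [hk0 k] : (1 : ℝ) ≤ (k : ℝ) + 1) (h2 k)
  have hac : ∀ k, ((a k : ℝ) : ℂ) ≠ 0 := fun k => by exact_mod_cast (ha k).ne'
  obtain ⟨E, hE⟩ : ∃ E : ℕ → ℂ → EN N, E = fun k w => F k ((a k : ℂ) * w + b k) := ⟨_, rfl⟩
  have hEnt : ∀ k, Ent G.K T (E k) := fun k => by
    rw [hE]
    exact ent_comp (hF k).ent (hac k) (b k)
  have hEp : ∀ k w, G.p (E k w) = 1 := fun k w => by
    rw [hE]
    exact (hF k).nm _
  have hEfs : ∀ k w, fs (E k w) (deriv (E k) w) = a k * fs (F k (b k + a k * w)) (deriv (F k) (b k + a k * w)) := fun k w => by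
    rw [hE]
    show fs (F k ((a k : ℂ) * w + b k)) (deriv (fun w => F k ((a k : ℂ) * w + b k)) w) = _
    rw [deriv_aff (hF k).ent.diff, Pool.Agent.H36.BP.fs_smul_right, Complex.norm_real, Real.norm_of_nonneg (ha k).le, add_comm]
  have hE0 : ∀ k, fs (E k 0) (deriv (E k) 0) = 1 := fun k => by
    rw [hEfs, mul_zero, add_zero, hab]
  obtain ⟨𝒰, h𝒰⟩ : ∃ 𝒰 : Ultrafilter ℕ, 𝒰 = hyperfilter ℕ := ⟨_, rfl⟩
  have hle' : (𝒰 : Filter ℕ) ≤ atTop := by rw [h𝒰]; exact Nat.hyperfilter_le_atTop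
  have hbig : ∀ R : ℝ, ∀ᶠ k : ℕ in (𝒰 : Filter ℕ), R ≤ k := fun R => by
    obtain ⟨n, hn⟩ := exists_nat_ge R
    filter_upwards [hle' (eventually_ge_atTop n)] with k hk
    exact hn.trans (by exact_mod_cast hk)
  obtain ⟨H, hHd, hH0, hloc⟩ := proj_limit 𝒰 (F := E) (fun k => (hEnt k).diff) (fun k w => ne0 S.ok ((hEnt k).mem w)) (A := 2) (fun R => by
    filter_upwards [hbig R] with k hk w hw
    rw [hEfs]
    refine hle k w ?_
    rw [mem_ball_zero_iff] at hw ⊢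
    linarith)
  -- the limit is in the cone
  have hconv : ∀ w, ∃ u : ℕ → ℂ, (∀ᶠ k in (𝒰 : Filter ℕ), u k ≠ 0) ∧ Tendsto (fun k => u k • E k w) 𝒰 (𝓝 (H w)) := fun w => by
    obtain ⟨r, hr, u, hu, hc⟩ := hloc w
    refine ⟨fun k => u k w, ?_, hc.tendsto_at (mem_ball_self hr)⟩
    filter_upwards [hu] with k hk
    exact hk.2 w (mem_ball_self hr)
  have hHX : ∀ w, H w ∈ G.X := fun w => by
    obtain ⟨u, hu, hc⟩ := hconv w
    refine ASpd_mem S.ok ?_ hc (hH0 w)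
    filter_upwards [hu] with k hk
    exact KX S.ok (smul_mem S.ok ((hEnt k).mem w) hk)
  -- the lifts tend to infinity
  have hinf : ∀ (w : ℂ) (B : ℝ), ∀ᶠ k in (𝒰 : Filter ℕ), B ≤ ‖E k w‖ := fun w B => by
    obtain ⟨R, hR⟩ := gapD S (Real.log (max B 1))
    filter_upwards [hbig ‖w‖, hbig (2 * R + 1)] with k hk1 hk2
    by_contra hcon2
    push Not at hcon2
    have hpos : 0 < ‖E k w‖ := norm_pos_iff.2 (ne0 S.ok ((hEnt k).mem w))
    have h3 : Real.log ‖E k w‖ ≤ Real.log (max B 1) := Real.log_le_log hpos (hcon2.le.trans (le_max_left _ _))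
    have h4 : infDist ((a k : ℂ) * w + b k) (Gd rho δ (F k)) ≤ R := hR (q k) (F k) (hF k) _ (by
      rw [hE] at h3
      exact h3)
    have h5 : d k ≤ infDist ((a k : ℂ) * w + b k) (Gd rho δ (F k)) + dist (z k) ((a k : ℂ) * w + b k) := by
      rw [hd]
      exact infDist_le_infDist_add_dist
    have h6 : dist (z k) ((a k : ℂ) * w + b k) ≤ d k / 2 := by
      rw [dist_comm, dist_eq_norm]
      have h7 : ‖(a k : ℂ) * w‖ ≤ d k / 2 / 4 := by
        rw [norm_mul, Complex.norm_real, Real.norm_of_nonneg (ha k).le]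
        refine le_trans ?_ (hak k)
        exact mul_le_mul_of_nonneg_left (by linarith) (ha k).le
      have h8 := hb k
      calc ‖(a k : ℂ) * w + b k - z k‖ = ‖(a k : ℂ) * w + (b k - z k)‖ := by rw [add_sub_assoc]
        _ ≤ ‖(a k : ℂ) * w‖ + ‖b k - z k‖ := norm_add_le _ _
        _ ≤ d k / 2 := by linarith [hd0 k]
    have h7 := hz k
    linarith
  have hHK : ∀ w, H w ∉ G.K := fun w hw => by
    obtain ⟨u, hu, hc⟩ := hconv w
    have hpc : Continuous G.p := continuous_iff_continuousAt.2 fun x => (S.ok.aff.an () x).continuousAt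
    have h3 : Tendsto (fun k => ‖u k‖ ^ G.h) 𝒰 (𝓝 ‖G.p (H w)‖) := by
      have h4 := ((hpc.tendsto (H w)).comp hc).norm
      refine h4.congr fun k => ?_
      show ‖G.p (u k • E k w)‖ = _
      rw [p_smul S.ok, hEp, mul_one, norm_pow]
    have h5 : Tendsto (fun k => ‖u k‖) 𝒰 (𝓝 0) := by
      rw [Metric.tendsto_nhds]
      intro ε hε
      have h6 : ∀ᶠ k in (𝒰 : Filter ℕ), ‖u k • E k w‖ < ‖H w‖ + 1 := hc.norm.eventually (gt_mem_nhds (by linarith))
      filter_upwards [h6, hinf w ((‖H w‖ + 1) / ε)] with k hk1 hk2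
      rw [dist_zero_right, norm_norm]
      rw [norm_smul] at hk1
      by_contra hcon3
      push Not at hcon3
      rw [div_le_iff₀ hε] at hk2
      have h7 : ‖E k w‖ * ε ≤ ‖E k w‖ * ‖u k‖ := mul_le_mul_of_nonneg_left hcon3 (norm_nonneg _)
      linarith
    have h8 : Tendsto (fun k => ‖u k‖ ^ G.h) 𝒰 (𝓝 (0 ^ G.h)) := h5.pow G.h
    have h9 : 1 ≤ G.h := S.ok.aff.pos ()
    rw [zero_pow (by omega)] at h8
    have h10 := tendsto_nhds_unique h3 h8
    exact p_ne S.ok hw (norm_eq_zero.1 h10)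
  have hline := S.ok.h1 𝒰 hle' E H (fun k => (hEnt k).diff) (fun k w => (hEnt k).mem w) hHd (fun w => ⟨hHX w, hHK w⟩) hloc
  obtain ⟨c, hc⟩ := Pool.Agent.H36.BP.Brody_deriv_line (hHd 0) fun w => hline w 0
  have hfs0 : fs (H 0) (deriv H 0) = 0 := by
    unfold fs
    rw [(Pool.Agent.H36.BP.wd_eq_zero (hH0 0)).2 ⟨c, hc⟩, zero_div]
  obtain ⟨r, hr, u, hu, hcv⟩ := hloc 0
  have hm : (0 : ℂ) ∈ ball (0 : ℂ) r := mem_ball_self hr
  have hd1 : Tendsto (fun k => deriv (fun w => u k w • E k w) 0) 𝒰 (𝓝 (deriv H 0)) := by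
    have h3 : TendstoLocallyUniformlyOn (deriv ∘ fun k w => u k w • E k w) (deriv H) 𝒰 (ball 0 r) :=
      hcv.deriv (by
        filter_upwards [hu] with k hk
        exact hk.1.smul (hEnt k).diff.differentiableOn) isOpen_ball
    exact h3.tendsto_at hm
  have hlim := ASpd_fs (hH0 0) (hcv.tendsto_at hm) hd1
  have hone : Tendsto (fun k => fs (u k 0 • E k 0) (deriv (fun w => u k w • E k w) 0)) 𝒰 (𝓝 1) := by
    refine tendsto_const_nhds.congr' ?_
    filter_upwards [hu] with k hk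
    have hud : DifferentiableAt ℂ (u k) 0 := hk.1.differentiableAt (isOpen_ball.mem_nhds hm)
    have h3 : deriv (fun w => u k w • E k w) 0 = u k 0 • deriv (E k) 0 + deriv (u k) 0 • E k 0 :=
      (hud.hasDerivAt.smul ((hEnt k).diff 0).hasDerivAt).deriv
    rw [h3, Pool.Agent.H36.BP.fs_inv (ne0 S.ok ((hEnt k).mem 0)) _ (hk.2 0 hm), hE0]
  have := tendsto_nhds_unique hlim hone
  rw [hfs0] at this
  exact zero_ne_one this

end Pool.Agent.SR2
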