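import Pool.Agent.SR2.Apx
import Pool.Agent.SR2.ASpd

/-!
# SR2 AStc: in the static region the `lam i` are almost harmonic

`speed` on the disc of radius `κ d` about `z` (there the distance to the good points is `≥ 3 d / 4`), and `apx`.
-/

set_option autoImplicit false

open Topology Filter Metric

noncomputable section

namespace Pool.Agent.SR2

open Pool.Agent.H36.BP (EN fs wd Sub OrdTwo)
open Pool.Agent.H14.PP (IsCone Tan)
open Pool.Agent.SY (Ent)
open Pool.Agent.SDA (EnergyK Near AffOpen Nm nForms)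
open Geo (Gd)

variable {N : ℕ} {G : Geo N} {T : Set (EN N)} {rho : EN N → ℝ} {M : ℕ} {c₀ C δ : ℝ} {g : (ℂ → EN N) → ℂ → ℝ}

theorem static (S : Base G T rho M c₀ C δ g) :
    ∃ κ B R : ℝ, 0 < κ ∧ κ ≤ 1 / 4 ∧ 0 < B ∧ 0 < R ∧ ∀ (q : G.J → ℂ) (F : ℂ → EN N), G.Cl T q F → ∀ z, R ≤ infDist z (Gd rho δ F) →
      ∃ h : G.ι → ℂ → ℂ, (∀ i, DifferentiableOn ℂ (h i) (ball z (κ * infDist z (Gd rho δ F)))) ∧
        ∀ i, ∀ w ∈ ball z (κ * infDist z (Gd rho δ F)), |G.lam i (F w) - (h i w).re| ≤ B ∧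
          ‖G.ell i (F w) (deriv F w) + deriv (h i) w‖ ≤ B / infDist z (Gd rho δ F) := by
  obtain ⟨B₁, R₁, hB₁, hR₁, hsp⟩ := speed S
  obtain ⟨B₂, η, hB₂, hη, hapx⟩ := apx S.ok
  have hκ : 0 < min (1 / 4) (η / (2 * B₁)) := lt_min (by norm_num) (by positivity)
  refine ⟨min (1 / 4) (η / (2 * B₁)), max B₂ (2 * B₁ * B₂), 2 * R₁, hκ, min_le_left _ _, lt_max_of_lt_left hB₂, by linarith, ?_⟩
  intro q F hF z hz
  obtain ⟨κ, hκe⟩ : ∃ κ, κ = min (1 / 4) (η / (2 * B₁)) := ⟨_, rfl⟩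
  obtain ⟨d, hd⟩ : ∃ d, d = infDist z (Gd rho δ F) := ⟨_, rfl⟩
  rw [← hκe] at hκ ⊢
  rw [← hd] at hz ⊢
  have hκ1 : κ ≤ 1 / 4 := hκe ▸ min_le_left _ _
  have hκ2 : κ ≤ η / (2 * B₁) := hκe ▸ min_le_right _ _
  have hd0 : 0 < d := by linarith
  -- the speed on the disc
  have hs : ∀ w ∈ ball z (κ * d), fs (F w) (deriv F w) ≤ 2 * B₁ / d := by
    intro w hw
    have h1 : d ≤ infDist w (Gd rho δ F) + dist z w := by
      rw [hd]
      exact infDist_le_infDist_add_dist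
    have h2 : dist z w < κ * d := by
      rw [dist_comm]
      exact mem_ball.1 hw
    have h3 : κ * d ≤ 1 / 4 * d := mul_le_mul_of_nonneg_right hκ1 hd0.le
    have h4 : d / 2 ≤ infDist w (Gd rho δ F) := by linarith
    have h5 : R₁ ≤ infDist w (Gd rho δ F) := by linarith
    refine (hsp q F hF w h5).trans ?_
    rw [div_le_div_iff₀ (by linarith) hd0]
    nlinarith
  obtain ⟨h, hh, hh'⟩ := hapx F z (κ * d) (by positivity) hF.ent.diff hF.ent.mem (fun w hw => by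
    refine (hs w hw).trans ?_
    rw [div_le_div_iff₀ hd0 (by positivity)]
    have h1 : κ * (2 * B₁) ≤ η := by
      rwa [le_div_iff₀ (by positivity)] at hκ2
    nlinarith)
  refine ⟨h, hh, fun i w hw => ?_⟩
  obtain ⟨h1, h2⟩ := hh' i w hw
  refine ⟨h1.trans (le_max_left _ _), h2.trans ?_⟩
  have h3 := hs w hw
  have h4 : B₂ * fs (F w) (deriv F w) ≤ B₂ * (2 * B₁ / d) := mul_le_mul_of_nonneg_left h3 hB₂.le
  refine h4.trans ?_
  have h5 : B₂ * (2 * B₁ / d) = (2 * B₁ * B₂) / d := by ring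
  rw [h5]
  exact div_le_div_of_nonneg_right (le_max_right _ _) hd0.le

end Pool.Agent.SR2
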