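import Pool.Agent.SR2.ALpr
import Pool.Agent.SR2.ABas
import Pool.Agent.SR2.ALam
import Pool.Agent.SR2.AHar
import Pool.Agent.SR2.AStc

/-!
# SR2 ALow: `log ‖F‖` is bounded below by the distance to the good points

PROOF.  In the static region `∑ b i lam i` is, up to `O(1)`, the real part of a holomorphic function on `ball z (κ d)`, bounded below; by `lprime` it is at least
`c d` at some point of the half disc, so by Harnack also at `z`.
-/

set_option autoImplicit false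

open Topology Filter Metric

noncomputable section

namespace Pool.Agent.SR2

open Pool.Agent.H36.BP (EN fs wd Sub OrdTwo)
open Pool.Agent.H14.PP (IsCone Tan)
open Pool.Agent.SY (Ent)
open Pool.Agent.SDA (EnergyK Near AffOpen Nm nForms)
open Geo (Gd)

variable {N : ℕ} {G : Geo N} {T : Set (EN N)} {rho : EN N → ℝ} {M : ℕ} {c₀ C δ : ℝ} {g : (ℂ → EN N) → ℂ → ℝ}

theorem lower (S : Base G T rho M c₀ C δ g) :
    ∃ c B : ℝ, 0 < c ∧ ∀ (q : G.J → ℂ) (F : ℂ → EN N), G.Cl T q F → ∀ z, c * infDist z (Gd rho δ F) - B ≤ Real.log ‖F z‖ := by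
  obtain ⟨κ, B₁, R₁, hκ, hκ', hB₁, hR₁, hst⟩ := static S
  obtain ⟨B₂, hB₂, hlo⟩ := lam_lowerA S.ok
  obtain ⟨B₃, hB₃, hup⟩ := lam_upperA S.ok
  obtain ⟨B₄, hB₄, hlog⟩ := log_lower S.ok
  obtain ⟨A₀, r₀, hA₀, hr₀, hlp⟩ := lprime S.ok
  obtain ⟨R, hR⟩ : ∃ R : ℝ, R = max R₁ (2 * r₀ / κ) := ⟨_, rfl⟩
  obtain ⟨s, hs⟩ : ∃ s : ℝ, s = ∑ i, (G.b i : ℝ) := ⟨_, rfl⟩
  have hs0 : 0 ≤ s := by
    rw [hs]
    exact Finset.sum_nonneg fun i _ => Nat.cast_nonneg _
  have hh : (1 : ℝ) ≤ G.h := by exact_mod_cast S.ok.aff.pos ()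
  refine ⟨A₀ * κ / 6, max (4 / 3 * B₃ + s * (2 * B₁ + B₂)) (A₀ * κ / 6 * R + B₄), by positivity, fun q F hF z => ?_⟩
  obtain ⟨d, hd⟩ : ∃ d, d = infDist z (Gd rho δ F) := ⟨_, rfl⟩
  rw [← hd]
  have hd0 : 0 ≤ d := hd ▸ infDist_nonneg
  rcases le_or_gt R d with hRd | hRd
  · obtain ⟨h, hh1, hh2⟩ := hst q F hF z (by
      rw [← hd]
      exact (hR ▸ le_max_left _ _).trans hRd)
    rw [← hd] at hh1 hh2
    have hR2 : 2 * r₀ / κ ≤ d := (hR ▸ le_max_right _ _).trans hRd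
    rw [div_le_iff₀ hκ] at hR2
    have hr0 : r₀ ≤ κ * d / 2 := by linarith
    have hr : 0 < κ * d := by linarith
    obtain ⟨w, hw, hw'⟩ := hlp F hF.ent.diff hF.ent.mem hF.nm z (κ * d / 2) hr0 (fun w _ => (cl_n hF w).ge)
    rw [mem_closedBall, dist_eq_norm] at hw
    have hwb : w ∈ ball z (κ * d) := by
      rw [mem_ball, dist_eq_norm]
      linarith
    have hzb : z ∈ ball z (κ * d) := mem_ball_self hr
    obtain ⟨f, hf⟩ : ∃ f : ℂ → ℂ, f = fun w => ∑ i, (G.b i : ℂ) * (h i w + ((B₁ + B₂ : ℝ) : ℂ)) := ⟨_, rfl⟩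
    have hfre : ∀ w, (f w).re = ∑ i, (G.b i : ℝ) * ((h i w).re + (B₁ + B₂)) := by
      intro w
      rw [hf, Complex.re_sum]
      refine Finset.sum_congr rfl fun i _ => ?_
      rw [← Complex.ofReal_natCast, Complex.re_ofReal_mul, Complex.add_re, Complex.ofReal_re]
    have hfd : DifferentiableOn ℂ f (ball z (κ * d)) := by
      rw [hf]
      exact DifferentiableOn.fun_sum fun i _ => ((hh1 i).add_const _).const_mul _
    have hfn : ∀ w ∈ ball z (κ * d), 0 ≤ (f w).re := by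
      intro w hw
      rw [hfre]
      refine Finset.sum_nonneg fun i _ => mul_nonneg (Nat.cast_nonneg _) ?_
      have h1 := abs_le.1 (hh2 i w hw).1
      have h2 := hlo i (F w) (hF.ent.mem w)
      linarith [h1.2]
    have h1 := harnack_re hr hfd hfn (w := w) hw
    have h2 : ∑ i, (G.b i : ℝ) * G.lam i (F w) ≤ (f w).re := by
      rw [hfre]
      refine Finset.sum_le_sum fun i _ => mul_le_mul_of_nonneg_left ?_ (Nat.cast_nonneg _)
      have h1 := abs_le.1 (hh2 i w hwb).1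
      linarith [h1.2]
    have h3 : (f z).re ≤ ∑ i, (G.b i : ℝ) * G.lam i (F z) + s * (2 * B₁ + B₂) := by
      rw [hfre, hs, Finset.sum_mul, ← Finset.sum_add_distrib]
      refine Finset.sum_le_sum fun i _ => ?_
      rw [← mul_add]
      refine mul_le_mul_of_nonneg_left ?_ (Nat.cast_nonneg _)
      have h1 := abs_le.1 (hh2 i z hzb).1
      linarith [h1.1]
    have h4 := (hup (F w) (hF.ent.mem w) (hF.nm w)).2.1
    have h5 := (hup (F z) (hF.ent.mem z) (hF.nm z)).2.2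
    have h6 : (G.h : ℝ) * (A₀ * (κ * d / 2)) ≤ G.h * Real.log ‖F w‖ := mul_le_mul_of_nonneg_left hw' (by linarith)
    have h7 : (G.h : ℝ) * (A₀ * κ / 6 * d) ≤ G.h * Real.log ‖F z‖ + (4 / 3 * B₃ + s * (2 * B₁ + B₂)) := by linarith
    have hE0 : 0 ≤ 4 / 3 * B₃ + s * (2 * B₁ + B₂) := by positivity
    have h8 : (4 / 3 * B₃ + s * (2 * B₁ + B₂)) ≤ G.h * (4 / 3 * B₃ + s * (2 * B₁ + B₂)) := le_mul_of_one_le_left hE0 hh
    have h9 : (G.h : ℝ) * (A₀ * κ / 6 * d - (4 / 3 * B₃ + s * (2 * B₁ + B₂))) ≤ G.h * Real.log ‖F z‖ := by linarith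
    have h10 := le_of_mul_le_mul_left h9 (by linarith)
    have h11 := le_max_left (4 / 3 * B₃ + s * (2 * B₁ + B₂)) (A₀ * κ / 6 * R + B₄)
    linarith
  · have h1 := hlog (F z) (hF.nm z)
    have h2 := le_max_right (4 / 3 * B₃ + s * (2 * B₁ + B₂)) (A₀ * κ / 6 * R + B₄)
    have h3 : A₀ * κ / 6 * d ≤ A₀ * κ / 6 * R := mul_le_mul_of_nonneg_left hRd.le (by positivity)
    linarith

end Pool.Agent.SR2
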