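import Pool.Agent.SR2.EDefs
import Pool.Agent.SR2.ADefs

/-!
# SR2 EGDefs: block E, the family of the curves of the class
-/

set_option autoImplicit false

open Topology Filter Metric InnerProductSpace Laplacian

noncomputable section

namespace Pool.Agent.SR2

open Pool.Agent.H36.BP (EN fs)
open Pool.Agent.SDR (gc)
open Pool.Agent.SR2.BE (Fam Hyp Fit AllFlat Rel ht vee)

variable {N : ℕ}

/-- the curves of the class with the values of the forms -/
def ECl (G : Geo N) (T : Set (EN N)) : Type := {y : (G.J → ℂ) × (ℂ → EN N) // G.Cl T y.1 y.2}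

/-- the functions `lam i + B₀` along the curves of the class -/
def eFam (G : Geo N) (T : Set (EN N)) (rho : EN N → ℝ) (δ B₀ : ℝ) : Fam (ECl G T) G.ι :=
  ⟨fun x i z => G.lam i (x.1.2 z) + B₀, fun x => Geo.Gd rho δ x.1.2⟩

theorem yy_eq (u a z : ℂ) : yy u a z = ht u a z := rfl

theorem lin_eq (u a : ℂ) (β β' : ℝ) (z : ℂ) : lin u a β β' z = vee u a β β' z := rfl

end Pool.Agent.SR2
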