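import Pool.Agent.SR2.ABas
import Pool.Agent.SR2.ALam
import Pool.Agent.SR2.AHar
import Pool.Agent.SR2.AStc
import Pool.Agent.SR2.AGrw
import Pool.Agent.H36.BP.WdA

/-!
# SR2 ALbd: the logarithmic speed of the curves of the class is bounded

PROOF.  Let `d` be the distance to the good points.  If `d ≥ R`: the functions `lam i` are, up to `O(1)`, real parts of holomorphic functions on a disc of
radius `κ d` (`static`), bounded below, and `≤ C (1 + d)` at the center (`growth`): the derivatives are bounded by Harnack (`deriv_le_re`).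
If `d ≤ R`: the curve is bounded on the disc of radius `1` (`growth`), Cauchy's estimate and `L_le_fs`.
-/

set_option autoImplicit false

open Topology Filter Metric

noncomputable section

namespace Pool.Agent.SR2

open Pool.Agent.H36.BP (EN fs wd Sub OrdTwo)
open Pool.Agent.H14.PP (IsCone Tan)
open Pool.Agent.SY (Ent)
open Pool.Agent.SDA (EnergyK Near AffOpen Nm nForms)
open Geo (Gd)

variable {N : ℕ} {G : Geo N} {T : Set (EN N)} {rho : EN N → ℝ} {M : ℕ} {c₀ C δ : ℝ} {g : (ℂ → EN N) → ℂ → ℝ}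

private theorem fs_le_div {x v : EN N} : fs x v ≤ ‖v‖ / ‖x‖ := by
  by_cases hx : x = 0
  · subst hx
    simp [fs]
  have hx' : 0 < ‖x‖ := norm_pos_iff.2 hx
  unfold fs wd
  rw [div_le_div_iff₀ (by positivity) hx']
  have h1 : Real.sqrt (‖x‖ ^ 2 * ‖v‖ ^ 2 - ‖(inner ℂ x v : ℂ)‖ ^ 2) ≤ ‖x‖ * ‖v‖ := by
    rw [← Real.sqrt_sq (mul_nonneg hx'.le (norm_nonneg v))]
    apply Real.sqrt_le_sqrt
    have : 0 ≤ ‖(inner ℂ x v : ℂ)‖ ^ 2 := by positivity
    nlinarith
  nlinarith [mul_le_mul_of_nonneg_right h1 hx'.le]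

theorem L_bdd (S : Base G T rho M c₀ C δ g) :
    ∃ B : ℝ, 0 < B ∧ ∀ (q : G.J → ℂ) (F : ℂ → EN N), G.Cl T q F → ∀ z, G.L (F z) (deriv F z) ≤ B := by
  obtain ⟨κ, B₁, R₁, hκ, hκ', hB₁, hR₁, hst⟩ := static S
  obtain ⟨B₂, hB₂, hgr⟩ := growth S.ok S.met
  obtain ⟨B₃, hB₃, hlo⟩ := lam_lowerA S.ok
  obtain ⟨B₄, hB₄, hup⟩ := lam_upperA S.ok
  obtain ⟨B₅, R₅, hB₅, hR₅, hsp⟩ := speed S
  obtain ⟨B₆, hB₆, hlog⟩ := log_lower S.ok
  set R : ℝ := max (max R₁ R₅) 1 with hR
  have hR1 : R₁ ≤ R := le_trans (le_max_left _ _) (le_max_left _ _)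
  have hR5 : R₅ ≤ R := le_trans (le_max_right _ _) (le_max_left _ _)
  have hR0 : 1 ≤ R := le_max_right _ _
  set E : ℝ := Real.exp (B₂ * (1 + (R + 1))) with hE
  obtain ⟨A, hA, hL⟩ := L_le_fs S.ok E
  set D : ℝ := 2 * ((G.h : ℝ) * (B₂ * 2) + B₄ + 2 * B₁ + B₃) / κ + B₁ with hD
  have hD0 : 0 ≤ D := by positivity
  refine ⟨B₅ + Fintype.card G.ι * D + A * (E * Real.exp B₆) + 1, by positivity, fun q F hF z => ?_⟩
  have hdiff : Differentiable ℂ F := hF.ent.1
  have hK : ∀ w, F w ∈ G.K := hF.ent.mem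
  set d : ℝ := infDist z (Gd rho δ F) with hd
  by_cases hRd : R ≤ d
  · have hd1 : 1 ≤ d := hR0.trans hRd
    have hd0 : 0 < d := by linarith
    obtain ⟨hh, hdh, hest⟩ := hst q F hF z (hR1.trans hRd)
    have hκd : 0 < κ * d := mul_pos hκ hd0
    have hzb : z ∈ ball z (κ * d) := mem_ball_self hκd
    have hfs : fs (F z) (deriv F z) ≤ B₅ := by
      have h1 := hsp q F hF z (hR5.trans hRd)
      have h2 : B₅ / d ≤ B₅ := by
        rw [div_le_iff₀ hd0]
        nlinarith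
      exact h1.trans h2
    have hell : ∀ i, ‖G.ell i (F z) (deriv F z)‖ ≤ D := by
      intro i
      have h1 : DifferentiableOn ℂ (fun w => hh i w + ((B₁ + B₃ : ℝ) : ℂ)) (ball z (κ * d)) := (hdh i).add_const _
      have h2 : ∀ w ∈ ball z (κ * d), 0 ≤ (hh i w + ((B₁ + B₃ : ℝ) : ℂ)).re := by
        intro w hw
        have h3 := (abs_le.1 (hest i w hw).1)
        have h4 := hlo i (F w) (hK w)
        simp only [Complex.add_re, Complex.ofReal_re]
        linarith [h3.2]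
      have h3 := deriv_le_re hκd h1 h2
      rw [deriv_add_const] at h3
      have h4 : (hh i z + ((B₁ + B₃ : ℝ) : ℂ)).re ≤ (G.h : ℝ) * (B₂ * (1 + d)) + B₄ + 2 * B₁ + B₃ := by
        have h5 := (abs_le.1 (hest i z hzb).1)
        have h6 := (hup (F z) (hK z) (hF.nm z)).1 i
        have h7 : (G.h : ℝ) * Real.log ‖F z‖ ≤ (G.h : ℝ) * (B₂ * (1 + d)) := mul_le_mul_of_nonneg_left (hgr q F hF z) (by positivity)
        simp only [Complex.add_re, Complex.ofReal_re]
        linarith [h5.1]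
      have h5 : ‖deriv (hh i) z‖ ≤ 2 * ((G.h : ℝ) * (B₂ * 2) + B₄ + 2 * B₁ + B₃) / κ := by
        refine h3.trans ?_
        rw [div_le_div_iff₀ hκd hκ]
        have h6 : (hh i z + ((B₁ + B₃ : ℝ) : ℂ)).re ≤ ((G.h : ℝ) * (B₂ * 2) + B₄ + 2 * B₁ + B₃) * d := by
          refine h4.trans ?_
          have h7 : (G.h : ℝ) * (B₂ * (1 + d)) ≤ (G.h : ℝ) * (B₂ * 2) * d := by
            have h8 : 0 ≤ (G.h : ℝ) * B₂ := by positivity
            nlinarith
          nlinarith
        calc 2 * (hh i z + ((B₁ + B₃ : ℝ) : ℂ)).re * κ ≤ 2 * (((G.h : ℝ) * (B₂ * 2) + B₄ + 2 * B₁ + B₃) * d) * κ := by gcongr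
          _ = 2 * ((G.h : ℝ) * (B₂ * 2) + B₄ + 2 * B₁ + B₃) * (κ * d) := by ring
      have h6 := (hest i z hzb).2
      have h7 : B₁ / d ≤ B₁ := by
        rw [div_le_iff₀ hd0]
        nlinarith
      calc ‖G.ell i (F z) (deriv F z)‖ = ‖(G.ell i (F z) (deriv F z) + deriv (hh i) z) - deriv (hh i) z‖ := by rw [add_sub_cancel_right]
        _ ≤ ‖G.ell i (F z) (deriv F z) + deriv (hh i) z‖ + ‖deriv (hh i) z‖ := norm_sub_le _ _
        _ ≤ B₁ + 2 * ((G.h : ℝ) * (B₂ * 2) + B₄ + 2 * B₁ + B₃) / κ := add_le_add (h6.trans h7) h5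
        _ = D := by rw [hD]; ring
    have hsum : ∑ i, ‖G.ell i (F z) (deriv F z)‖ ≤ Fintype.card G.ι * D := by
      calc ∑ i, ‖G.ell i (F z) (deriv F z)‖ ≤ ∑ _i : G.ι, D := Finset.sum_le_sum fun i _ => hell i
        _ = Fintype.card G.ι * D := by rw [Finset.sum_const, nsmul_eq_mul, Finset.card_univ]
    have h8 : 0 ≤ A * (E * Real.exp B₆) := by positivity
    unfold Geo.L
    linarith
  · push Not at hRd
    have hbd : ∀ w ∈ closedBall z 1, ‖F w‖ ≤ E := by
      intro w hw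
      have h1 : infDist w (Gd rho δ F) ≤ R + 1 := by
        have h2 : infDist w (Gd rho δ F) ≤ infDist z (Gd rho δ F) + dist w z := infDist_le_infDist_add_dist
        have h3 : dist w z ≤ 1 := hw
        linarith
      have h4 : Real.log ‖F w‖ ≤ B₂ * (1 + (R + 1)) := (hgr q F hF w).trans (mul_le_mul_of_nonneg_left (by linarith) hB₂)
      have h5 : 0 < ‖F w‖ := norm_pos_iff.2 (ne0 S.ok (hK w))
      rw [hE, ← Real.exp_log h5]
      exact Real.exp_le_exp.2 h4
    have hder : ‖deriv F z‖ ≤ E := by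
      have h1 := Complex.norm_deriv_le_of_forall_mem_sphere_norm_le (f := F) (c := z) (R := 1) (C := E) one_pos hdiff.diffContOnCl
        fun w hw => hbd w (sphere_subset_closedBall hw)
      rwa [div_one] at h1
    have hlow : Real.exp (-B₆) ≤ ‖F z‖ := by
      have h5 : 0 < ‖F z‖ := norm_pos_iff.2 (ne0 S.ok (hK z))
      rw [← Real.exp_log h5]
      exact Real.exp_le_exp.2 (hlog _ (hF.nm z))
    have hfs : fs (F z) (deriv F z) ≤ E * Real.exp B₆ := by
      refine fs_le_div.trans ?_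
      rw [div_le_iff₀ (lt_of_lt_of_le (Real.exp_pos _) hlow)]
      calc ‖deriv F z‖ ≤ E := hder
        _ = E * Real.exp B₆ * Real.exp (-B₆) := by rw [mul_assoc, ← Real.exp_add, add_neg_cancel, Real.exp_zero, mul_one]
        _ ≤ E * Real.exp B₆ * ‖F z‖ := mul_le_mul_of_nonneg_left hlow (by positivity)
    have h1 := hL (F z) (hK z) (hF.nm z) (hbd z (mem_closedBall_self zero_le_one)) (deriv F z)
    have h2 : A * fs (F z) (deriv F z) ≤ A * (E * Real.exp B₆) := mul_le_mul_of_nonneg_left hfs hA.le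
    have h3 : 0 ≤ Fintype.card G.ι * D := by positivity
    linarith

end Pool.Agent.SR2
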