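import Pool.Agent.SR2.EGDefs
import Pool.Agent.SR2.EGa
import Pool.Agent.SR2.ABas
import Pool.Agent.SR2.ASpd
import Pool.Agent.SR2.ALbd

/-!
# SR2 EGc: block E, the relation between the gradients of the functions `lam i` along the curves of the class
-/

set_option autoImplicit false

open Topology Filter Metric InnerProductSpace Laplacian

noncomputable section

namespace Pool.Agent.SR2

open Pool.Agent.H36.BP (EN fs)
open Pool.Agent.SDR (gc)
open Pool.Agent.SR2.BE (Fam Hyp Fit AllFlat Rel ht vee)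

variable {N : ℕ} {G : Geo N} {T : Set (EN N)} {rho : EN N → ℝ} {M : ℕ} {c₀ C δ : ℝ} {g : (ℂ → EN N) → ℂ → ℝ}

private theorem EGc_eval {ι : Type} [Fintype ι] {P : MvPolynomial ι ℂ} {n : ℕ} (hP : P.IsHomogeneous n) (y : ι → ℂ) (c : ℂ) :
    MvPolynomial.eval (fun i => c * y i) P = c ^ n * MvPolynomial.eval y P := by
  rw [MvPolynomial.eval_eq', MvPolynomial.eval_eq', Finset.mul_sum]
  refine Finset.sum_congr rfl fun d hd => ?_
  have h1 : ∑ i, d i = n := by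
    have h2 := hP.degree_eq_sum_deg_support hd
    rw [h2]
    exact (Finset.sum_subset (Finset.subset_univ _) fun i _ hi => Finsupp.notMem_support_iff.1 hi).symm
  rw [← h1]
  have h3 : ∏ i, (c * y i) ^ d i = c ^ (∑ i, d i) * ∏ i, y i ^ d i := by
    rw [← Finset.prod_pow_eq_pow_sum, ← Finset.prod_mul_distrib]
    exact Finset.prod_congr rfl fun i _ => mul_pow _ _ _
  rw [h3]
  ring

private theorem EGc_pol {ι : Type} [Fintype ι] {P : MvPolynomial ι ℂ} {n : ℕ} (hP : P.IsHomogeneous n) (y : ι → ℂ) :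
    MvPolynomial.eval (fun i => -y i) (MvPolynomial.C ((-1 : ℂ) ^ n) * P) = MvPolynomial.eval y P := by
  have h1 : (fun i => -y i) = fun i => (-1 : ℂ) * y i := funext fun i => (neg_one_mul _).symm
  rw [map_mul, MvPolynomial.eval_C, h1, EGc_eval hP, ← mul_assoc, ← pow_add, ← two_mul, pow_mul]
  norm_num

private theorem EGc_low (hG : G.Ok) : ∃ c : ℝ, 0 < c ∧ ∀ q : G.J → ℂ, G.nq q = 1 → ∃ j, c ≤ ‖q j‖ := by
  classical
  have := hG.neJ
  have hc : 0 < (Fintype.card G.J : ℝ) := Nat.cast_pos.2 Fintype.card_pos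
  set k : ℝ := (Fintype.card G.J : ℝ)⁻¹ with hk
  have hk0 : 0 < k := inv_pos.2 hc
  have hk1 : k ≤ 1 := inv_le_one_of_one_le₀ (by exact_mod_cast Fintype.card_pos)
  refine ⟨k ^ ∑ j, G.m j, pow_pos hk0 _, fun q hq => ?_⟩
  by_contra hcon
  push Not at hcon
  have h1 : ∀ j, ‖q j‖ ^ ((G.m j : ℝ)⁻¹) < k := by
    intro j
    have hm : (0 : ℝ) < G.m j := by
      have := hG.one_m j
      exact_mod_cast this
    have h2 : ‖q j‖ < k ^ G.m j :=
      (hcon j).trans_le (pow_le_pow_of_le_one hk0.le hk1 (Finset.single_le_sum (f := fun j => G.m j) (fun _ _ => Nat.zero_le _) (Finset.mem_univ j)))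
    have h3 := Real.rpow_lt_rpow (norm_nonneg _) h2 (inv_pos.2 hm)
    rwa [← Real.rpow_natCast, ← Real.rpow_mul hk0.le, mul_inv_cancel₀ hm.ne', Real.rpow_one] at h3
  have h4 : G.nq q < ∑ _j : G.J, k := Finset.sum_lt_sum_of_nonempty Finset.univ_nonempty fun j _ => h1 j
  rw [hq, Finset.sum_const, Finset.card_univ, nsmul_eq_mul, hk, mul_inv_cancel₀ hc.ne'] at h4
  exact lt_irrefl _ h4

private theorem EGc_gc (u : ℂ → ℝ) (b : ℝ) (z : ℂ) : gc (fun w => u w + b) z = gc u z := by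
  unfold gc
  rw [fderiv_add_const]

theorem eRel (S : Base G T rho M c₀ C δ g) : ∃ C₁ R₁ cq : ℝ, ∃ Pol : G.Ty → G.J → MvPolynomial G.ι ℂ, ∀ B₀ C₂ R₂ : ℝ, C₁ ≤ C₂ → R₁ ≤ R₂ →
    Rel (eFam G T rho δ B₀) C₂ R₂ cq G.m Pol (fun x => x.1.1) := by
  obtain ⟨Bs, Rs, hBs, hRs, hsp⟩ := speed S
  obtain ⟨BL, hBL, hL⟩ := L_bdd S
  obtain ⟨Cr, hCr, hres⟩ := S.ok.res
  obtain ⟨cq, hcq, hlow⟩ := EGc_low S.ok
  obtain ⟨_, _, hlam⟩ := lam_c2 S.ok
  refine ⟨Cr * Bs * ∑ j, BL ^ (G.m j - 1), Rs, cq, fun t j => MvPolynomial.C ((-1 : ℂ) ^ G.m j) * G.Pol t j, fun B₀ C₂ R₂ hC hR =>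
    ⟨S.ok.one_m, fun t j => (S.ok.Pol_hom t j).C_mul _, hcq, fun x => hlow _ x.2.one, fun x j z hz => ?_⟩⟩
  obtain ⟨⟨q, F⟩, hF⟩ := x
  have hd : 0 < infDist z (Geo.Gd rho δ F) := hRs.trans_le (hR.trans hz)
  have hK : F z ∈ G.K := hF.ent.mem z
  have han : AnalyticAt ℂ F z := hF.ent.diff.analyticAt z
  have htan := tan S.ok hF.ent.diff hF.ent.mem z
  have h1 : ∀ i, gc ((eFam G T rho δ B₀).lam ⟨(q, F), hF⟩ i) z = - G.ell i (F z) (deriv F z) := by
    intro i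
    have h2 := (hlam i F z han (Eventually.of_forall hF.ent.mem)).2.2
    rw [← h2]
    exact EGc_gc (fun w => G.lam i (F w)) B₀ z
  refine ⟨G.ty (F z), ?_⟩
  simp only [h1]
  rw [EGc_pol (S.ok.Pol_hom _ j)]
  have h3 := (hres (F z) hK).2 j (deriv F z) htan
  rw [hF.val j z] at h3
  rw [norm_sub_rev]
  refine h3.trans ?_
  have h4 := hsp q F hF z (hR.trans hz)
  have h5 : G.L (F z) (deriv F z) ^ (G.m j - 1) ≤ ∑ j, BL ^ (G.m j - 1) :=
    (pow_le_pow_left₀ (L_nonneg _ _) (hL q F hF z) _).trans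
      (Finset.single_le_sum (f := fun j => BL ^ (G.m j - 1)) (fun _ _ => (pow_pos hBL _).le) (Finset.mem_univ j))
  have h6 : 0 ≤ ∑ j, BL ^ (G.m j - 1) := Finset.sum_nonneg fun _ _ => (pow_pos hBL _).le
  calc Cr * fs (F z) (deriv F z) * G.L (F z) (deriv F z) ^ (G.m j - 1)
      ≤ Cr * (Bs / infDist z (Geo.Gd rho δ F)) * ∑ j, BL ^ (G.m j - 1) := by
        refine mul_le_mul (mul_le_mul_of_nonneg_left h4 hCr) h5 (pow_nonneg (L_nonneg _ _) _) ?_
        exact mul_nonneg hCr (div_nonneg hBs.le hd.le)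
    _ = (Cr * Bs * ∑ j, BL ^ (G.m j - 1)) / infDist z (Geo.Gd rho δ F) := by ring
    _ ≤ C₂ / infDist z (Geo.Gd rho δ F) := div_le_div_of_nonneg_right hC hd.le

end Pool.Agent.SR2
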