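import Pool.Agent.SR2.FlatF
import Pool.Agent.SR2.AGrw
import Pool.Agent.SR2.ALpr
import Pool.Agent.SR2.ASpd
import Pool.Agent.SR2.ALbd

/-!
# SR2 Flat: the boundary functions are almost linear at all large scales
-/

set_option autoImplicit false

open Metric Topology Filter MvPolynomial

noncomputable section

namespace Pool.Agent.SR2

open Pool.Agent.H36.BP (EN fs)
open Geo (Gd)

variable {N : ℕ} {G : Geo N} {T : Set (EN N)} {rho : EN N → ℝ} {M : ℕ} {c₀ C δ : ℝ} {g : (ℂ → EN N) → ℂ → ℝ}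

theorem flat (S : Base G T rho M c₀ C δ g) :
    ∃ A' : ℝ, 0 < A' ∧ ∀ ε : ℝ, 0 < ε → ∃ R₀ : ℝ, 0 < R₀ ∧ ∀ (q : G.J → ℂ) (F : ℂ → EN N), G.Cl T q F → ∀ a ∈ Gd rho δ F, ∀ R : ℝ, R₀ ≤ R →
      ∃ (u : ℂ) (β β' : G.ι → ℝ), G.Fits F a u β β' (fun _ => ε * R) (closedBall a R) ∧ A' ≤ ∑ i, β i ∧ A' ≤ ∑ i, β' i :=
  flat_of S.ok (growth S.ok S.met) (lprime S.ok) (speed S) (L_bdd S)

end Pool.Agent.SR2
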