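import Pool.Agent.SR2.EGDefs
import Pool.Agent.SR2.Flat

/-!
# SR2 EGd: flatness of the family of the class
-/

set_option autoImplicit false

open Topology Filter Metric

noncomputable section

namespace Pool.Agent.SR2

open Pool.Agent.H36.BP (EN)
open Pool.Agent.SR2.BE (Fam Hyp Fit AllFlat Rel ht vee)

variable {N : ℕ} {G : Geo N} {T : Set (EN N)} {rho : EN N → ℝ} {M : ℕ} {c₀ C δ : ℝ} {g : (ℂ → EN N) → ℂ → ℝ}

theorem eFlat (S : Base G T rho M c₀ C δ g) : ∃ A' : ℝ, 0 < A' ∧ ∀ B₀ : ℝ, AllFlat (eFam G T rho δ B₀) A' := by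
  obtain ⟨A', hA', h⟩ := flat S
  refine ⟨A', hA', fun B₀ η hη => ?_⟩
  obtain ⟨R₀, hR₀, h1⟩ := h (η / 2) (by positivity)
  refine ⟨max R₀ (2 * |B₀| / η), fun x a ha R hR => ?_⟩
  obtain ⟨u, β, β', ⟨hu, hβ, hfit⟩, h2, h3⟩ := h1 x.1.1 x.1.2 x.2 a ha R ((le_max_left _ _).trans hR)
  refine ⟨u, β, β', hu, fun i => (hβ i).1, fun i => (hβ i).2, h2, h3, fun z hz i => ?_⟩
  have h4 := hfit z hz i
  have h5 : |B₀| ≤ η / 2 * R := by
    have h6 : 2 * |B₀| / η ≤ R := (le_max_right _ _).trans hR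
    rw [div_le_iff₀ hη] at h6
    linarith
  have h7 : (eFam G T rho δ B₀).lam x i z - vee u a (β i) (β' i) z = (G.lam i (x.1.2 z) - lin u a (β i) (β' i) z) + B₀ := by
    rw [lin_eq]
    show G.lam i (x.1.2 z) + B₀ - vee u a (β i) (β' i) z = _
    ring
  rw [h7]
  refine (abs_add_le _ _).trans ?_
  have h8 : |G.lam i (x.1.2 z) - lin u a (β i) (β' i) z| ≤ η / 2 * R := h4
  linarith

end Pool.Agent.SR2
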