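import Pool.Agent.SR2.EStr
import Pool.Agent.SR2.EGb
import Pool.Agent.SR2.EGc
import Pool.Agent.SR2.EGd

/-!
# SR2 EFin: straightness (the end of block E)
-/

set_option autoImplicit false

open Topology Filter Metric

noncomputable section

namespace Pool.Agent.SR2

open Pool.Agent.H36.BP (EN)
open Pool.Agent.SR2.BE (Fam Hyp Fit AllFlat Rel ht vee straight_abs)
open Geo (Gd)

variable {N : ℕ} {G : Geo N} {T : Set (EN N)} {rho : EN N → ℝ} {M : ℕ} {c₀ C δ : ℝ} {g : (ℂ → EN N) → ℂ → ℝ}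

theorem straight (S : Base G T rho M c₀ C δ g) :
    ∃ γ A' B : ℝ, 0 < γ ∧ γ < 1 ∧ 0 < A' ∧ 0 < B ∧ ∀ (q : G.J → ℂ) (F : ℂ → EN N), G.Cl T q F → ∀ a ∈ Gd rho δ F,
      ∃ (u : ℂ) (β β' : G.ι → ℝ), G.Fits F a u β β' (fun z => B * pw γ ‖z - a‖) Set.univ ∧ A' ≤ ∑ i, β i ∧ A' ≤ ∑ i, β' i := by
  obtain ⟨B₀, C₁, c₁, R₁, hHyp⟩ := eHyp S
  obtain ⟨C₁', R₁', cq, Pol, hRel⟩ := eRel S
  obtain ⟨A, hA, hFlat⟩ := eFlat S
  have hF : AllFlat (eFam G T rho δ B₀) (2 * (A / 2)) := by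
    rw [mul_div_cancel₀ _ (two_ne_zero)]
    exact hFlat B₀
  obtain ⟨γ, B, hγ, hγ1, hB, h⟩ := straight_abs (hHyp (max C₁ C₁') (max R₁ R₁') (le_max_left _ _) (le_max_left _ _)) (half_pos hA) hF
    (hRel B₀ (max C₁ C₁') (max R₁ R₁') (le_max_right _ _) (le_max_right _ _))
  refine ⟨γ, A / 2, B + |B₀|, hγ, hγ1, half_pos hA, by positivity, fun q F hq a ha => ?_⟩
  obtain ⟨u, β, β', hu, hβ, h1, h2, h3⟩ := h ⟨(q, F), hq⟩ a ha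
  refine ⟨u, β, β', ⟨hu, hβ, fun z _ i => ?_⟩, h1, h2⟩
  have h4 : |G.lam i (F z) + B₀ - vee u a (β i) (β' i) z| ≤ B * (2 + ‖z - a‖) ^ γ := h3 z i
  have h5 : (1 : ℝ) ≤ (2 + ‖z - a‖) ^ γ := Real.one_le_rpow (by linarith [norm_nonneg (z - a)]) hγ.le
  have h6 : G.lam i (F z) - lin u a (β i) (β' i) z = (G.lam i (F z) + B₀ - vee u a (β i) (β' i) z) - B₀ := by
    rw [lin_eq]
    ring
  show |G.lam i (F z) - lin u a (β i) (β' i) z| ≤ (B + |B₀|) * (2 + ‖z - a‖) ^ γ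
  rw [h6]
  refine (abs_sub _ _).trans ?_
  have h7 : |B₀| ≤ |B₀| * (2 + ‖z - a‖) ^ γ := le_mul_of_one_le_right (abs_nonneg _) h5
  rw [add_mul]
  linarith

end Pool.Agent.SR2
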