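import Pool.Agent.SR2.Defs

/-!
# SR2 Bas: elementary facts on `lam i` along curves
-/

set_option autoImplicit false

open Topology Filter Metric Set

noncomputable section

namespace Pool.Agent.SR2

open Pool.Agent.H36.BP (EN fs fs_nonneg)
open Pool.Agent.H14.PP (IsCone Tan)

variable {N : ℕ} {G : Geo N}

theorem Geo.Ok.ne_zero (hG : G.Ok) {x : EN N} (hx : x ∈ G.K) : x ≠ 0 := by
  intro h
  have h1 := ((hG.aff.mem x).1 hx).1
  exact hG.cone.zero_notMem (h ▸ h1)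

/-- a homogeneous continuous map is bounded by the power of the norm -/
theorem bas_hom {W : Type} [NormedAddCommGroup W] [NormedSpace ℂ W] {f : EN N → W} (hf : Continuous f) {c : ℕ}
    (hs : ∀ (t : ℂ) (x : EN N), f (t • x) = t ^ c • f x) : ∃ C : ℝ, 1 ≤ C ∧ ∀ x : EN N, x ≠ 0 → ‖f x‖ ≤ C * ‖x‖ ^ c := by
  obtain ⟨C, hC⟩ := (isCompact_sphere (0 : EN N) 1).exists_bound_of_continuousOn hf.continuousOn
  refine ⟨max C 1, le_max_right _ _, fun x hx => ?_⟩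
  have hx' : ‖x‖ ≠ 0 := norm_ne_zero_iff.2 hx
  have hx0 : ((‖x‖ : ℝ) : ℂ) ≠ 0 := by exact_mod_cast hx'
  have h1 : x = ((‖x‖ : ℝ) : ℂ) • (((‖x‖ : ℝ) : ℂ)⁻¹ • x) := by rw [smul_smul, mul_inv_cancel₀ hx0, one_smul]
  have h2 : ((‖x‖ : ℝ) : ℂ)⁻¹ • x ∈ sphere (0 : EN N) 1 := by
    rw [mem_sphere_zero_iff_norm, norm_smul, norm_inv, Complex.norm_real, norm_norm, inv_mul_cancel₀ hx']
  calc ‖f x‖ = ‖f (((‖x‖ : ℝ) : ℂ) • (((‖x‖ : ℝ) : ℂ)⁻¹ • x))‖ := by rw [← h1]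
    _ = ‖x‖ ^ c * ‖f (((‖x‖ : ℝ) : ℂ)⁻¹ • x)‖ := by rw [hs, norm_smul, norm_pow, Complex.norm_real, norm_norm]
    _ ≤ ‖x‖ ^ c * max C 1 := mul_le_mul_of_nonneg_left ((hC _ h2).trans (le_max_left _ _)) (by positivity)
    _ = max C 1 * ‖x‖ ^ c := mul_comm _ _

theorem Geo.Ok.contE (hG : G.Ok) (i : G.ι) : Continuous (G.E i) :=
  continuous_iff_continuousAt.2 fun x => (hG.anE i x).continuousAt

theorem lam_lower (hG : G.Ok) : ∃ B : ℝ, ∀ i, ∀ x ∈ G.K, -B ≤ G.lam i x := by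
  choose C hC1 hC using fun i => bas_hom (hG.contE i) (hG.smulE i)
  refine ⟨∑ i, Real.log (C i), fun i x hx => ?_⟩
  have hx0 := hG.ne_zero hx
  have hx' : 0 < ‖x‖ := norm_pos_iff.2 hx0
  have hE : 0 < ‖G.E i x‖ := norm_pos_iff.2 (hG.neE i x hx)
  have h1 := Real.log_le_log hE (hC i x hx0)
  rw [Real.log_mul (by linarith [hC1 i]) (pow_pos hx' _).ne', Real.log_pow] at h1
  have h2 : Real.log (C i) ≤ ∑ i, Real.log (C i) :=
    Finset.single_le_sum (f := fun i => Real.log (C i)) (fun i _ => Real.log_nonneg (hC1 i)) (Finset.mem_univ i)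
  unfold Geo.lam
  linarith

/-- `∑ lam i` and `log ‖x‖` on the normalised points -/
theorem lam_log (hG : G.Ok) : ∃ B : ℝ, 0 < B ∧ ∀ x ∈ G.K, G.p x = 1 →
    ∑ i, G.lam i x ≤ B * (Real.log ‖x‖ + B) ∧ (∀ i, G.lam i x ≤ B * (Real.log ‖x‖ + B)) ∧ Real.log ‖x‖ ≤ B * (∑ i, G.lam i x + B) := by
  obtain ⟨B₀', hB₀'⟩ := lam_lower hG
  obtain ⟨B₀, hB₀, hB0⟩ : ∃ B₀ : ℝ, (∀ i, ∀ x ∈ G.K, -B₀ ≤ G.lam i x) ∧ 0 ≤ B₀ :=
    ⟨max B₀' 0, fun i x hx => by linarith [hB₀' i x hx, le_max_left B₀' 0], le_max_right _ _⟩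
  obtain ⟨C', hC'⟩ := hG.cmp
  obtain ⟨C, hC, hC0⟩ : ∃ C : ℝ, (∀ x ∈ G.K, |G.h * Real.log ‖x‖ - Real.log ‖G.p x‖ - ∑ i, G.b i * G.lam i x| ≤ C) ∧ 0 ≤ C :=
    ⟨max C' 0, fun x hx => (hC' x hx).trans (le_max_left _ _), le_max_right _ _⟩
  have hpc : Continuous G.p := continuous_iff_continuousAt.2 fun x => (hG.aff.an () x).continuousAt
  obtain ⟨C₁, hC11, hC₁⟩ := bas_hom (f := G.p) (c := G.h) hpc fun t x => by
    rw [smul_eq_mul]
    exact hG.aff.smul () t x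
  have hh : (1 : ℝ) ≤ G.h := by exact_mod_cast hG.aff.pos ()
  obtain ⟨L₁, hL1, hL₁⟩ : ∃ L₁ : ℝ, 0 ≤ L₁ ∧ ∀ x ∈ G.K, G.p x = 1 → -L₁ ≤ Real.log ‖x‖ := by
    refine ⟨Real.log C₁, Real.log_nonneg hC11, fun x hx hp => ?_⟩
    have hx0 := hG.ne_zero hx
    have hx' : 0 < ‖x‖ := norm_pos_iff.2 hx0
    have h1 := hC₁ x hx0
    rw [hp, norm_one] at h1
    have h2 := Real.log_le_log one_pos h1
    rw [Real.log_one, Real.log_mul (by linarith) (pow_pos hx' _).ne', Real.log_pow] at h2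
    have h3 : 0 ≤ Real.log C₁ := Real.log_nonneg hC11
    nlinarith
  -- the sum of the multiplicities
  obtain ⟨S, hS⟩ : ∃ S : ℝ, S = ∑ i, (G.b i : ℝ) := ⟨_, rfl⟩
  have hS0 : 0 ≤ S := by rw [hS]; positivity
  have hbS : ∀ i, (G.b i : ℝ) ≤ S := fun i => by
    rw [hS]
    exact Finset.single_le_sum (f := fun i => (G.b i : ℝ)) (fun i _ => by positivity) (Finset.mem_univ i)
  have hb1 : ∀ i, (1 : ℝ) ≤ G.b i := fun i => by exact_mod_cast hG.b_pos i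
  obtain ⟨n, hn⟩ : ∃ n : ℝ, n = (Fintype.card G.ι : ℝ) := ⟨_, rfl⟩
  have hn0 : 0 ≤ n := by rw [hn]; positivity
  -- the constant
  obtain ⟨K, hK⟩ : ∃ K : ℝ, K = C + B₀ * S + n * B₀ + L₁ + G.h + S + 1 := ⟨_, rfl⟩
  have hK1 : 1 ≤ K := by rw [hK]; nlinarith [mul_nonneg hB0 hS0, mul_nonneg hn0 hB0]
  refine ⟨2 * K, by linarith, fun x hx hp => ?_⟩
  have h0 := abs_le.1 (hC x hx)
  rw [hp, norm_one, Real.log_one, sub_zero] at h0
  have hl := hL₁ x hx hp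
  have hsum : ∑ i, (G.b i : ℝ) * (G.lam i x + B₀) = ∑ i, (G.b i : ℝ) * G.lam i x + B₀ * S := by
    rw [hS, Finset.mul_sum, ← Finset.sum_add_distrib]
    exact Finset.sum_congr rfl fun i _ => by ring
  have hsum2 : ∑ i, (G.lam i x + B₀) = ∑ i, G.lam i x + n * B₀ := by
    rw [Finset.sum_add_distrib, Finset.sum_const, Finset.card_univ, nsmul_eq_mul, hn]
  have hnn : ∀ i, 0 ≤ G.lam i x + B₀ := fun i => by linarith [hB₀ i x hx]
  have h1 : ∑ i, (G.lam i x + B₀) ≤ ∑ i, (G.b i : ℝ) * (G.lam i x + B₀) :=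
    Finset.sum_le_sum fun i _ => le_mul_of_one_le_left (hnn i) (hb1 i)
  have h2 : ∑ i, (G.b i : ℝ) * (G.lam i x + B₀) ≤ S * ∑ i, (G.lam i x + B₀) := by
    rw [Finset.mul_sum]
    exact Finset.sum_le_sum fun i _ => mul_le_mul_of_nonneg_right (hbS i) (hnn i)
  have h3 : ∀ i, G.lam i x + B₀ ≤ ∑ i, (G.lam i x + B₀) := fun i =>
    Finset.single_le_sum (f := fun i => G.lam i x + B₀) (fun i _ => hnn i) (Finset.mem_univ i)
  have hnn2 : 0 ≤ ∑ i, (G.lam i x + B₀) := Finset.sum_nonneg fun i _ => hnn i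
  -- the upper bound `h log |x| + C + B₀ S`
  have h4 : ∑ i, (G.lam i x + B₀) ≤ G.h * Real.log ‖x‖ + C + B₀ * S := by linarith
  have h5 : G.h * Real.log ‖x‖ + C + B₀ * S ≤ 2 * K * (Real.log ‖x‖ + 2 * K) := by
    have e1 : 0 ≤ (2 * K - G.h) * (Real.log ‖x‖ + L₁) := mul_nonneg (by rw [hK]; nlinarith [mul_nonneg hB0 hS0, mul_nonneg hn0 hB0]) (by linarith)
    have e2 : (2 * K - G.h) * L₁ ≤ 2 * K * K := by
      have : L₁ ≤ K := by rw [hK]; nlinarith [mul_nonneg hB0 hS0, mul_nonneg hn0 hB0]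
      have e3 : (2 * K - G.h) * L₁ ≤ 2 * K * L₁ := mul_le_mul_of_nonneg_right (by linarith) hL1
      nlinarith
    have e4 : C + B₀ * S ≤ K := by rw [hK]; nlinarith [mul_nonneg hn0 hB0]
    nlinarith
  refine ⟨?_, fun i => ?_, ?_⟩
  · have : 0 ≤ n * B₀ := mul_nonneg hn0 hB0
    linarith
  · linarith [h3 i]
  · have e1 : G.h * Real.log ‖x‖ ≤ S * ∑ i, (G.lam i x + B₀) + C := by
      have := mul_nonneg hB0 hS0
      linarith
    have e2 : S ≤ K := by rw [hK]; nlinarith [mul_nonneg hB0 hS0, mul_nonneg hn0 hB0]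
    have e3 : n * B₀ ≤ K := by rw [hK]; nlinarith [mul_nonneg hB0 hS0]
    have e4 : C ≤ K := by rw [hK]; nlinarith [mul_nonneg hB0 hS0, mul_nonneg hn0 hB0]
    have e5 : S * ∑ i, (G.lam i x + B₀) ≤ 2 * K * ∑ i, (G.lam i x + B₀) := mul_le_mul_of_nonneg_right (by linarith) hnn2
    have e6 : 2 * K * ∑ i, (G.lam i x + B₀) + C ≤ 2 * K * (∑ i, G.lam i x + 2 * K) := by
      rw [hsum2]
      nlinarith
    rcases le_or_gt 0 (Real.log ‖x‖) with h6 | h6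
    · have : Real.log ‖x‖ ≤ G.h * Real.log ‖x‖ := le_mul_of_one_le_left h6 hh
      linarith
    · have : 0 ≤ 2 * K * ∑ i, (G.lam i x + B₀) + C := add_nonneg (mul_nonneg (by linarith) hnn2) hC0
      linarith

/-- the derivative of `log ‖g‖` -/
theorem hasDerivAt_log_norm {n : ℕ} {g : ℝ → EN n} {g' : EN n} {t : ℝ} (hg : HasDerivAt g g' t) (h0 : g t ≠ 0) :
    HasDerivAt (fun s => Real.log ‖g s‖) ((inner ℂ (g t) g' / (‖g t‖ : ℂ) ^ 2).re) t := by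
  have h1 := hg.norm_sq
  have h2 : ‖g t‖ ≠ 0 := norm_ne_zero_iff.2 h0
  have h3 := (h1.log (pow_ne_zero 2 h2)).const_mul (2⁻¹ : ℝ)
  have h4 : (fun s => Real.log ‖g s‖) = fun s => 2⁻¹ * Real.log (‖g s‖ ^ 2) := by
    funext s
    rw [Real.log_pow]
    push_cast
    ring
  rw [h4]
  refine h3.congr_deriv ?_
  have h5 : (inner ℂ (g t) g' / (‖g t‖ : ℂ) ^ 2).re = (inner ℂ (g t) g').re / ‖g t‖ ^ 2 := by
    rw [← Complex.ofReal_pow, Complex.div_ofReal_re]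
  have h6 : inner ℝ (g t) g' = (inner ℂ (g t) g').re := by
    rw [PiLp.inner_apply, PiLp.inner_apply, Complex.re_sum]
    exact Finset.sum_congr rfl fun i _ => real_inner_eq_re_inner ℂ _ _
  rw [h5, h6]
  field_simp

/-- `lam i` is Lipschitz along curves of bounded length `L` -/
theorem lam_lip (hG : G.Ok) {F : ℂ → EN N} (hF : Differentiable ℂ F) (hK : ∀ z, F z ∈ G.K) {B : ℝ} (hL : ∀ z, G.L (F z) (deriv F z) ≤ B) (i : G.ι) (z w : ℂ) :
    |G.lam i (F z) - G.lam i (F w)| ≤ B * ‖z - w‖ := by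
  have hpath : ∀ t : ℝ, HasDerivAt (fun t : ℝ => w + (t : ℂ) * (z - w)) (z - w) t := fun t => by
    have := (Complex.ofRealCLM.hasDerivAt (x := t)).mul_const (z - w)
    simpa using this.const_add w
  have h1 : ∀ t : ℝ, HasDerivAt (fun t : ℝ => F (w + (t : ℂ) * (z - w))) ((z - w) • deriv F (w + (t : ℂ) * (z - w))) t := fun t => by
    exact (hF (w + (t : ℂ) * (z - w))).hasDerivAt.scomp t (hpath t)
  have h2 : ∀ t : ℝ, HasDerivAt (fun t : ℝ => G.E i (F (w + (t : ℂ) * (z - w))))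
      ((z - w) • fderiv ℂ (G.E i) (F (w + (t : ℂ) * (z - w))) (deriv F (w + (t : ℂ) * (z - w)))) t := fun t => by
    have h3 := ((hG.anE i (F (w + (t : ℂ) * (z - w)))).differentiableAt.hasFDerivAt.restrictScalars ℝ).comp_hasDerivAt t (h1 t)
    refine h3.congr_deriv ?_
    exact map_smul (fderiv ℂ (G.E i) (F (w + (t : ℂ) * (z - w)))) (z - w) (deriv F (w + (t : ℂ) * (z - w)))
  have h3 : ∀ t : ℝ, HasDerivAt (fun t : ℝ => G.lam i (F (w + (t : ℂ) * (z - w))))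
      (-((z - w) * G.ell i (F (w + (t : ℂ) * (z - w))) (deriv F (w + (t : ℂ) * (z - w)))).re) t := fun t => by
    have e1 := (hasDerivAt_log_norm (h1 t) (hG.ne_zero (hK _))).const_mul (G.c i : ℝ)
    have e2 := hasDerivAt_log_norm (h2 t) (hG.neE i _ (hK _))
    refine (e1.sub e2).congr_deriv ?_
    unfold Geo.ell
    obtain ⟨a, ha⟩ : ∃ a : ℂ, a = inner ℂ (F (w + (t : ℂ) * (z - w))) (deriv F (w + (t : ℂ) * (z - w))) /
      (‖F (w + (t : ℂ) * (z - w))‖ : ℂ) ^ 2 := ⟨_, rfl⟩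
    obtain ⟨b, hb⟩ : ∃ b : ℂ, b = inner ℂ (G.E i (F (w + (t : ℂ) * (z - w))))
      (fderiv ℂ (G.E i) (F (w + (t : ℂ) * (z - w))) (deriv F (w + (t : ℂ) * (z - w)))) /
      (‖G.E i (F (w + (t : ℂ) * (z - w)))‖ : ℂ) ^ 2 := ⟨_, rfl⟩
    rw [inner_smul_right, inner_smul_right, mul_div_assoc, mul_div_assoc, ← ha, ← hb]
    have e3 : (z - w) * (b - (G.c i : ℂ) * a) = (z - w) * b - ((G.c i : ℝ) : ℂ) * ((z - w) * a) := by
      push_cast
      ring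
    rw [e3, Complex.sub_re, Complex.re_ofReal_mul]
    ring
  have h4 : ∀ t : ℝ, ‖-((z - w) * G.ell i (F (w + (t : ℂ) * (z - w))) (deriv F (w + (t : ℂ) * (z - w)))).re‖ ≤ B * ‖z - w‖ := fun t => by
    rw [norm_neg]
    refine (Complex.abs_re_le_norm _).trans ?_
    rw [norm_mul, mul_comm]
    refine mul_le_mul_of_nonneg_right (le_trans ?_ (hL (w + (t : ℂ) * (z - w)))) (norm_nonneg _)
    unfold Geo.L
    have e1 := fs_nonneg (F (w + (t : ℂ) * (z - w))) (deriv F (w + (t : ℂ) * (z - w)))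
    have e2 := Finset.single_le_sum (f := fun i => ‖G.ell i (F (w + (t : ℂ) * (z - w))) (deriv F (w + (t : ℂ) * (z - w)))‖)
      (fun i _ => norm_nonneg _) (Finset.mem_univ i)
    linarith
  have h5 := norm_image_sub_le_of_norm_deriv_le_segment_01' (f := fun t : ℝ => G.lam i (F (w + (t : ℂ) * (z - w))))
    (fun t _ => (h3 t).hasDerivWithinAt) (fun t _ => h4 t)
  have h6 : w + ((1 : ℝ) : ℂ) * (z - w) = z := by
    push_cast
    ring
  have h7 : w + ((0 : ℝ) : ℂ) * (z - w) = w := by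
    push_cast
    ring
  simp only [h6, h7] at h5
  exact h5

end Pool.Agent.SR2
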