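import Pool.Agent.SR2.ABas

/-!
# SR2 ClN: a curve of constant length one is in the class
-/

set_option autoImplicit false

open Topology Filter Metric

noncomputable section

namespace Pool.Agent.SR2

open Pool.Agent.H36.BP (EN fs wd Sub OrdTwo)
open Pool.Agent.H14.PP (IsCone Tan)
open Pool.Agent.SY (Ent)
open Pool.Agent.SDA (EnergyK Near AffOpen Nm nForms)

variable {N : ℕ} {G : Geo N} {T : Set (EN N)}

/-- the values of the forms along an entire curve are entire functions -/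
theorem ClN_hol (hG : G.Ok) {F : ℂ → EN N} (hF : Differentiable ℂ F) (hK : ∀ z, F z ∈ G.K) (j : G.J) :
    Differentiable ℂ fun z => G.w j (F z) (deriv F z) := by
  intro z
  have h1 : AnalyticAt ℂ (fun y : Fin 1 → ℂ => F (y 0)) (fun _ => z) := by
    have h2 : AnalyticAt ℂ F z := hF.analyticAt z
    exact AnalyticAt.comp (g := F) (f := fun y : Fin 1 → ℂ => y 0) h2
      ((ContinuousLinearMap.proj (R := ℂ) (φ := fun _ : Fin 1 => ℂ) 0).analyticAt _)
  have h2 := hG.w_an j 1 (fun y => F (y 0)) (fun _ => z) (fun _ => 1) h1 (Eventually.of_forall fun y => hK _)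
  have h3 : AnalyticAt ℂ (fun ζ : ℂ => ((fun _ => ζ, fun _ => 1) : (Fin 1 → ℂ) × (Fin 1 → ℂ))) z := by
    refine AnalyticAt.prod ?_ analyticAt_const
    exact (ContinuousLinearMap.pi (R := ℂ) fun _ : Fin 1 => ContinuousLinearMap.id ℂ ℂ).analyticAt z
  have h4 := AnalyticAt.comp (g := fun z : (Fin 1 → ℂ) × (Fin 1 → ℂ) => G.w j (F (z.1 0)) (fderiv ℂ (fun y : Fin 1 → ℂ => F (y 0)) z.1 z.2))
    (f := fun ζ : ℂ => ((fun _ => ζ, fun _ => 1) : (Fin 1 → ℂ) × (Fin 1 → ℂ))) h2 h3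
  refine (h4.congr (Eventually.of_forall fun ζ => ?_)).differentiableAt
  have h5 : HasFDerivAt (fun y : Fin 1 → ℂ => F (y 0)) ((fderiv ℂ F ζ).comp (ContinuousLinearMap.proj 0)) (fun _ => ζ) :=
    HasFDerivAt.comp (g := F) (f := fun y : Fin 1 → ℂ => y 0) (fun _ => ζ) (hF ζ).hasFDerivAt
      (ContinuousLinearMap.proj (R := ℂ) (φ := fun _ : Fin 1 => ℂ) 0).hasFDerivAt
  simp only [Function.comp_apply]
  rw [h5.fderiv]
  simp

/-- MODULE Z5 (ClN.lean): a curve of constant length one is in the class (Liouville) -/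
theorem cl_of_n (hG : G.Ok) {F : ℂ → EN N} (hF : Ent G.K T F) (hN : ∀ z, G.p (F z) = 1) (h1 : ∀ z, G.n (F z) (deriv F z) = 1) : ∃ q, G.Cl T q F := by
  have hc : ∀ j, ∃ q : ℂ, ∀ z, G.w j (F z) (deriv F z) = q := by
    intro j
    refine (ClN_hol hG hF.diff hF.mem j).exists_const_forall_eq_of_bounded ?_
    refine (isBounded_iff_forall_norm_le).2 ⟨1, ?_⟩
    rintro _ ⟨z, rfl⟩
    have h2 : ‖G.w j (F z) (deriv F z)‖ ^ ((G.m j : ℝ)⁻¹) ≤ 1 := by
      rw [← h1 z]
      exact Finset.single_le_sum (f := fun j => ‖G.w j (F z) (deriv F z)‖ ^ ((G.m j : ℝ)⁻¹)) (fun i _ => Real.rpow_nonneg (norm_nonneg _) _)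
        (Finset.mem_univ j)
    by_contra hcon
    rw [not_le] at hcon
    have h3 : (0 : ℝ) < (G.m j : ℝ)⁻¹ := inv_pos.2 (by exact_mod_cast hG.one_m j)
    exact absurd h2 (not_le.2 (Real.one_lt_rpow hcon h3))
  choose q hq using hc
  refine ⟨q, hF, hN, hq, ?_⟩
  rw [← nq_eq q fun j => hq j 0, h1]

end Pool.Agent.SR2
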