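import Pool.Agent.SR2.OkA
import Pool.Agent.SR2.MetA
import Pool.Agent.SR2.MetB
import Pool.Agent.SR2.Qnl
import Pool.Agent.SR2.Per
import Pool.Agent.SR2.CopA
import Pool.Agent.SR2.Big
import Pool.Agent.SR2.OneForm
import Pool.Agent.SR2.OrdZ
import Pool.Agent.SR2.NCu
import Pool.Agent.SDA.E4
import Pool.Agent.SDA.E5
import Pool.Agent.SDA.RDefs2
import Pool.Agent.SDA.X4

/-!
# SR2 Asm: the main theorem
-/

set_option autoImplicit false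

open Topology Filter Metric MvPolynomial

noncomputable section

namespace Pool.Agent.SR2

open Pool.Agent.H36.BP (EN fs OrdTwo)
open Pool.Agent.H17 (PN VanishesAt HolomorphicInto)
open Pool.Agent.H62.FC (Homog)
open Pool.Agent.H17LG.Variety (FunField IsLogGeneralType)
open Pool.Agent.H13.OT (OrderTwo)
open Pool.Agent.H17EF (projVar coneE)
open Pool.Agent.H14.KB (rhoS)
open Pool.Agent.AD (SymDiff TangentTo)
open Pool.Agent.AD.NC (IsSmooth IsOfLogGeneralType)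
open Pool.Agent.SDA (openCone EnergyK Near AffOpen IsHyperbolicOpen four_of_orderTwo hyperbolicOpen_of)


variable {N k M h : ℕ}

/-- The curves of order two lie in one curve. -/
theorem exists_curve (P : Ideal (MvPolynomial (Fin (N + 1)) ℂ)) [P.IsPrime] (hP : Homog P) {z : Fin 2 → FunField P} (hz : IsTranscendenceBasis ℂ z)
    (hsm : IsSmooth P 2) (H : MvPolynomial (Fin (N + 1)) ℂ) (hH : H.IsHomogeneous h) (h1 : 1 ≤ h) (hHP : H ∉ P)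
    (hgt : IsOfLogGeneralType P (fun _ : Fin 1 => H) 2)
    (E : Fin k → Fin (M + 1) → MvPolynomial (Fin (N + 1)) ℂ) (c b : Fin k → ℕ) (hE : ∀ i l, (E i l).IsHomogeneous (c i)) (hc : ∀ i, h + 1 ≤ c i)
    (hs : Snc P H E b) {s : ℕ} (hs1 : 1 ≤ s) (m : Fin s → ℕ) (hm : ∀ j, 1 ≤ m j) (θ : ∀ j, SymDiff (oc P H) (m j)) (hθ : ∀ j, HasLogPoles E c (θ j))
    (hθ' : ∀ j, IsAlg (θ j)) {mΩ jΩ r : ℕ} (Ω : Fin r → EN N → EN N → EN N → ℂ) (Q : Fin r → MvPolynomial (Fin (N + 1)) ℂ)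
    (hΩ : LogAmple P H mΩ jΩ Ω Q) {t : ℕ} (R : Fin t → MvPolynomial (Fin (N + 1)) ℂ) (hR : NullCurve θ R) (hB : NoBdyCurve P E) (hL : NoLine P H) :
    ∃ (Q' : MvPolynomial (Fin (N + 1)) ℂ) (D : ℕ), Q'.IsHomogeneous D ∧ Q' ∉ P ∧ ∀ F : ℂ → EN N, Differentiable ℂ F → (∀ z, F z ∈ oc P H) → OrdTwo F →
      (∀ z, eval (F z).ofLp Q' = 0) ∨ ∀ z w, ∃ c : ℂ, F z = c • F w := by
  obtain ⟨n, supp, Pol, ty, hok⟩ := exists_ok hP hz hsm hH h1 hE hc hs hs1 hm θ hθ hΩ hB hL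
  obtain ⟨D₁, hR1⟩ := hR.hom
  obtain ⟨D₂, hQ1⟩ := hΩ.hom
  obtain ⟨M', c₀, C, δ, g, hmet⟩ := exists_met (E := E) (c := c) (b := b) hP hz hsm hH h1 hHP hs1 hm θ hΩ hQ1 hR1 hR supp Pol ty
  have S : Base (geoOf P H h E c b θ supp Pol ty mΩ jΩ Ω) _ _ M' c₀ C δ g :=
    ⟨hok, hmet, fun B => exists_qn hP hz hsm hH h1 hm θ hθ' hΩ hR (D₁ + D₂ + h) B⟩
  set G := geoOf P H h E c b θ supp Pol ty mΩ jΩ Ω with hG
  obtain ⟨𝒬, h𝒬⟩ : ∃ 𝒬 : Set (EN N → ℂ), 𝒬 = {Q' | ∃ (R' : MvPolynomial (Fin (N + 1)) ℂ) (D : ℕ), R'.IsHomogeneous D ∧ R' ∉ P ∧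
      Q' = fun x : EN N => eval x.ofLp R'} := ⟨_, rfl⟩
  obtain ⟨Q₁, hQ₁, ⟨rho', M₁, c₁, C₁, δ₁, g₁, hmet₁⟩, hno⟩ := one_form S (𝒬 := 𝒬)
    (by
      rw [h𝒬]
      exact ⟨_, H, h, hH, hHP, rfl⟩)
    (by
      rw [h𝒬]
      rintro _ ⟨R₁, d₁, h1, h2, rfl⟩ _ ⟨R₂, d₂, h3, h4, rfl⟩
      refine ⟨R₁ * R₂, d₁ + d₂, h1.mul h3, fun hcon => ?_, by funext x; simp⟩
      exact (Ideal.IsPrime.mem_or_mem ‹P.IsPrime› hcon).elim h2 h4)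
    (by
      rw [h𝒬]
      rintro _ ⟨R', d, hR', hRP', rfl⟩
      obtain ⟨Q', D, M₂, c₂, C₂, δ₂, g₂, hQ', hQP', hRQ, hRQ', hm2⟩ := exists_met_of_form (E := E) (c := c) (b := b) (mΩ := mΩ) (jΩ := jΩ) (Ω := Ω)
        hP hz hsm hH h1 hHP hgt hs1 hm θ hR supp Pol ty hR' hRP'
      refine ⟨fun x => eval x.ofLp Q', ⟨Q', D, hQ', hQP', rfl⟩, fun x hx => hRQ x hx, ?_, _, M₂, c₂, C₂, δ₂, g₂, hm2⟩
      rintro x ⟨hx, hx0⟩
      by_cases hxH : eval x.ofLp H = 0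
      · exact (hm2.KT x hx fun hK => hK.2 0 hxH).2
      · obtain ⟨a, ha⟩ := hΩ.cover x ⟨hx, fun _ => hxH⟩
        refine hRQ' x fun l => ?_
        have h3 := hx0 (l, a)
        unfold eqT at h3
        rw [map_mul, map_mul] at h3
        simpa [hxH, ha] using h3)
    (by
      rw [h𝒬]
      intro q F ω hF hω hper hg
      obtain ⟨R', D, h3, h4, h5⟩ := periodic_degenerate hP hz hF.ent.diff (fun z => (hF.ent.mem z).1) hω hper hg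
      exact ⟨_, ⟨R', D, h3, h4, rfl⟩, h5⟩)
  rw [h𝒬] at hQ₁
  obtain ⟨Q', D, hQ', hQP', rfl⟩ := hQ₁
  refine ⟨Q', D, hQ', hQP', fun F hF hK ho => ?_⟩
  rcases ordTwo_in hok hmet₁ hno hF hK ho with h3 | h3
  · exact Or.inl fun z => (h3 z).2
  · exact Or.inr h3

/-- **Main theorem.** -/
theorem main (P : Ideal (MvPolynomial (Fin (N + 1)) ℂ)) [P.IsPrime] (hP : Homog P) (hdim : ∃ z : Fin 2 → FunField P, IsTranscendenceBasis ℂ z)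
    (hsm : IsSmooth P 2) (H : MvPolynomial (Fin (N + 1)) ℂ) (hH : H.IsHomogeneous h) (h1 : 1 ≤ h) (hHP : H ∉ P)
    (hgt : IsOfLogGeneralType P (fun _ : Fin 1 => H) 2)
    (E : Fin k → Fin (M + 1) → MvPolynomial (Fin (N + 1)) ℂ) (c b : Fin k → ℕ) (hE : ∀ i l, (E i l).IsHomogeneous (c i)) (hc : ∀ i, h + 1 ≤ c i)
    (hs : Snc P H E b) {s : ℕ} (hs1 : 1 ≤ s) (m : Fin s → ℕ) (hm : ∀ j, 1 ≤ m j) (θ : ∀ j, SymDiff (oc P H) (m j)) (hθ : ∀ j, HasLogPoles E c (θ j))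
    (hθ' : ∀ j, IsAlg (θ j)) {mΩ jΩ r : ℕ} (Ω : Fin r → EN N → EN N → EN N → ℂ) (Q : Fin r → MvPolynomial (Fin (N + 1)) ℂ)
    (hΩ : LogAmple P H mΩ jΩ Ω Q) {t : ℕ} (R : Fin t → MvPolynomial (Fin (N + 1)) ℂ) (hR : NullCurve θ R) (hB : NoBdyCurve P E) (hL : NoLine P H) :
    IsHyperbolicOpen P (fun _ : Fin 1 => H) := by
  obtain ⟨z, hz⟩ := id hdim
  obtain ⟨Q', D, hQ', hQP', hor⟩ := exists_curve P hP hz hsm H hH h1 hHP hgt E c b hE hc hs hs1 m hm θ hθ hθ' Ω Q hΩ R hR hB hL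
  have hprod : (fun _ : Fin 1 => ∏ i : Fin 1, (fun _ : Fin 1 => H) i) = fun _ : Fin 1 => H := by
    funext i
    simp
  have h3 := four_of_orderTwo (H := fun _ : Fin 1 => H) (e := fun _ => h) hP hz hsm le_rfl (fun _ => hH) (fun _ => h1) (fun _ => hHP)
    hgt hQ' hQP' hor
  rw [hprod] at h3
  exact hyperbolicOpen_of hP hdim (fun _ => ⟨_, hH⟩) h3.1 h3.2

/-- **Main theorem**, with the condition on the tangent curves in the form of `SDA`. -/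
theorem main_few (P : Ideal (MvPolynomial (Fin (N + 1)) ℂ)) [P.IsPrime] (hP : Homog P) (hdim : ∃ z : Fin 2 → FunField P, IsTranscendenceBasis ℂ z)
    (hsm : IsSmooth P 2) (H : MvPolynomial (Fin (N + 1)) ℂ) (hH : H.IsHomogeneous h) (h1 : 1 ≤ h) (hHP : H ∉ P)
    (hgt : IsOfLogGeneralType P (fun _ : Fin 1 => H) 2)
    (E : Fin k → Fin (M + 1) → MvPolynomial (Fin (N + 1)) ℂ) (c b : Fin k → ℕ) (hE : ∀ i l, (E i l).IsHomogeneous (c i)) (hc : ∀ i, h + 1 ≤ c i)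
    (hs : Snc P H E b) {s : ℕ} (hs1 : 1 ≤ s) (m : Fin s → ℕ) (hm : ∀ j, 1 ≤ m j) (θ : ∀ j, SymDiff (oc P H) (m j)) (hθ : ∀ j, HasLogPoles E c (θ j))
    (hθ' : ∀ j, IsAlg (θ j)) {mΩ jΩ r : ℕ} (Ω : Fin r → EN N → EN N → EN N → ℂ) (Q : Fin r → MvPolynomial (Fin (N + 1)) ℂ)
    (hΩ : LogAmple P H mΩ jΩ Ω Q) (hB : NoBdyCurve P E) (hL : NoLine P H) (hf : Pool.Agent.SDA.FewTangent P (fun _ : Fin 1 => H) θ) :
    IsHyperbolicOpen P (fun _ : Fin 1 => H) := by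
  obtain ⟨z, hz⟩ := id hdim
  have key : ∀ (R : MvPolynomial (Fin (N + 1)) ℂ) (d : ℕ), R.IsHomogeneous d → R ∉ P →
      (∀ f : ℂ → PN N, HolomorphicInto f Set.univ → OrderTwo f → (∀ z, f z ∈ projVar P ∧ ¬ VanishesAt H (f z)) → (∃ z w, f z ≠ f w) →
        (∀ j, TangentTo (θ j) f) → ∀ z, VanishesAt R (f z)) → IsHyperbolicOpen P (fun _ : Fin 1 => H) := by
    intro R d hR hRP hnull
    obtain ⟨t, R', hR'⟩ := exists_nullCurve hP hz hsm hH h1 hHP hs1 hm θ hθ' hR hRP hnull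
    exact main P hP hdim hsm H hH h1 hHP hgt E c b hE hc hs hs1 m hm θ hθ hθ' Ω Q hΩ R' hR' hB hL
  rcases hf with ⟨R, d, hR, hRP, h3⟩ | ⟨i, j, h3⟩
  · exact key R d hR hRP fun f hf ho hfU hfn ht => h3 f hf ho (fun z => ⟨(hfU z).1, fun _ => (hfU z).2⟩) hfn ht
  · obtain ⟨R, d, hR, hRP, h4⟩ := exists_R_alg hP hz hsm hH h1 hHP (hm i) (hm j) (θ i) (θ j) (hθ' i) (hθ' j) h3
    exact key R d hR hRP fun f hf _ hfU hfn ht => h4 f hf hfU hfn (ht i) (ht j)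

/-- **Main theorem**, without the condition on the degrees `c i`. -/
theorem main_log (P : Ideal (MvPolynomial (Fin (N + 1)) ℂ)) [P.IsPrime] (hP : Homog P) (hdim : ∃ z : Fin 2 → FunField P, IsTranscendenceBasis ℂ z)
    (hsm : IsSmooth P 2) (H : MvPolynomial (Fin (N + 1)) ℂ) (hH : H.IsHomogeneous h) (h1 : 1 ≤ h) (hHP : H ∉ P)
    (E : Fin k → Fin (M + 1) → MvPolynomial (Fin (N + 1)) ℂ) (c b : Fin k → ℕ) (hE : ∀ i l, (E i l).IsHomogeneous (c i))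
    (hs : Snc P H E b) (hB : NoBdyCurve P E) (hgt : IsOfLogGeneralType P (fun _ : Fin 1 => H) 2) (hL : NoLine P H)
    {mΩ jΩ r : ℕ} (Ω : Fin r → EN N → EN N → EN N → ℂ) (Q : Fin r → MvPolynomial (Fin (N + 1)) ℂ) (hΩ : LogAmple P H mΩ jΩ Ω Q)
    {s : ℕ} (hs1 : 1 ≤ s) (m : Fin s → ℕ) (hm : ∀ j, 1 ≤ m j) (θ : ∀ j, SymDiff (oc P H) (m j)) (hθ : ∀ j, HasLogPoles E c (θ j))
    (hθ' : ∀ j, IsAlg (θ j)) (hf : Pool.Agent.SDA.FewTangent P (fun _ : Fin 1 => H) θ) : IsHyperbolicOpen P (fun _ : Fin 1 => H) := by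
  obtain ⟨z, hz⟩ := id hdim
  obtain ⟨M', E', c', hE', hc', hs', hB', hθ₁⟩ := exists_big (Pool.Agent.H90.SG.surface_coneE hP hz hsm) (Pool.Agent.AD.isCone_coneE hP) hH hE hs hB θ hθ
  exact main_few P hP hdim hsm H hH h1 hHP hgt E' c' b hE' hc' hs' hs1 m hm θ hθ₁ hθ' Ω Q hΩ hB' hL hf

end Pool.Agent.SR2
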