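import Pool.Agent.SR2.ABas
import Pool.Agent.SR2.ASet
import Pool.Agent.SDA.Ab

/-!
# SR2 ABd: the metric is bounded on the class (port of `SDA.bound_local`; helper59)
-/

set_option autoImplicit false

open Topology Filter Metric

noncomputable section

namespace Pool.Agent.SR2

open Pool.Agent.H36.BP (EN fs wd Sub OrdTwo)
open Pool.Agent.H14.PP (IsCone Tan)
open Pool.Agent.SY (Ent)
open Pool.Agent.SDA (EnergyK Near AffOpen Nm nForms Ab_rescale Ab_smul_mem compactness exists_norm)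
open Geo (Gd)

variable {N : ℕ} {G : Geo N} {T : Set (EN N)} {rho : EN N → ℝ} {M : ℕ} {c₀ C δ : ℝ} {g : (ℂ → EN N) → ℂ → ℝ}

private theorem ABd_unit (hG : G.Ok) {F : ℂ → EN N} (hF : Differentiable ℂ F) (hK : ∀ z, F z ∈ G.K) {u : ℂ → ℂ} (hu : Differentiable ℂ u)
    (h0 : ∀ z, u z ≠ 0) (z : ℂ) : G.n (u z • F z) (deriv (fun w => u w • F w) z) = G.n (F z) (deriv F z) := by
  show ∑ j, ‖G.w j (u z • F z) (deriv (fun w => u w • F w) z)‖ ^ ((G.m j : ℝ)⁻¹) = ∑ j, ‖G.w j (F z) (deriv F z)‖ ^ ((G.m j : ℝ)⁻¹)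
  exact Finset.sum_congr rfl fun j _ => by rw [w_unit hG j hF hK hu h0 z]

theorem bound_local (hG : G.Ok) (hM : G.Met T rho M c₀ C δ g) :
    ∃ C₁ : ℝ, 0 < C₁ ∧ ∀ F, Ent G.K T F → (∀ z ∈ ball (0 : ℂ) 1, G.n (F z) (deriv F z) ≤ 1) → g F 0 ≤ C₁ := by
  have S := setup_fs hG hM
  by_contra hcon
  push Not at hcon
  have hKX : G.K ⊆ G.X := fun x hx => KX hG hx
  have hbig : ∀ k : ℕ, ∃ F : ℂ → EN N, Ent G.K T F ∧ (∀ z ∈ ball (0 : ℂ) 1, G.n (F z) (deriv F z) ≤ 1) ∧ 4 * ((k : ℝ) + 1) < g F 0 :=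
    fun k => hcon _ (by positivity)
  choose F hF hFn hg using hbig
  have hresc := fun k => Ab_rescale S.en.toEnergy (hF k) k (hg k)
  choose a b ha hb h1 h2 using hresc
  have ha0 : ∀ k, 0 < a k := fun k => lt_trans (by positivity) (ha k)
  have hac : ∀ k, ((((a k)⁻¹ : ℝ)) : ℂ) ≠ 0 := fun k => by exact_mod_cast inv_ne_zero (ha0 k).ne'
  obtain ⟨Q, hQ⟩ : ∃ Q : ℕ → ℂ → EN N, Q = fun k w => F k ((((a k)⁻¹ : ℝ) : ℂ) * w + b k) := ⟨_, rfl⟩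
  have hGE : ∀ k, Ent G.K T (Q k) := by
    intro k
    rw [hQ]
    exact ent_comp (hF k) (hac k) (b k)
  have hGn : ∀ k : ℕ, ∀ ζ ∈ ball (0 : ℂ) ((k : ℝ) + 1), G.n (Q k ζ) (deriv (Q k) ζ) ≤ (a k)⁻¹ := by
    intro k ζ hζ
    have hζn : ‖ζ‖ < k + 1 := by simpa using hζ
    have h3 := n_aff hG (hF k).diff (hF k).mem (((a k)⁻¹ : ℝ) : ℂ) (b k) ζ
    rw [hQ]
    show G.n (F k ((((a k)⁻¹ : ℝ) : ℂ) * ζ + b k)) _ ≤ _
    rw [h3, Complex.norm_real, Real.norm_of_nonneg (inv_nonneg.mpr (ha0 k).le)]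
    have h4 : (((a k)⁻¹ : ℝ) : ℂ) * ζ + b k ∈ ball (0 : ℂ) 1 := by
      rw [mem_ball_zero_iff]
      have h5 : ‖(((a k)⁻¹ : ℝ) : ℂ) * ζ‖ ≤ 1 / 4 := by
        rw [norm_mul, Complex.norm_real, Real.norm_of_nonneg (inv_nonneg.mpr (ha0 k).le), inv_mul_le_iff₀ (ha0 k)]
        have := ha k
        linarith
      calc ‖(((a k)⁻¹ : ℝ) : ℂ) * ζ + b k‖ ≤ ‖(((a k)⁻¹ : ℝ) : ℂ) * ζ‖ + ‖b k‖ := norm_add_le _ _
        _ < 1 := by linarith [hb k]
    have h6 := hFn k _ h4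
    have h7 := mul_le_mul_of_nonneg_left h6 (inv_nonneg.mpr (ha0 k).le)
    rwa [mul_one] at h7
  -- the normalised lifts
  have hnorm := fun k => exists_norm S.aff (hGE k).diff (hGE k).mem
  choose u hu hu0 huN using hnorm
  obtain ⟨L, hL⟩ : ∃ L : ℕ → ℂ → EN N, L = fun k w => u k w • Q k w := ⟨_, rfl⟩
  have hLE : ∀ k, Ent G.K T (L k) := by
    intro k
    rw [hL]
    refine ⟨(hu k).smul (hGE k).diff, fun z => smul_mem hG ((hGE k).mem z) (hu0 k z), ?_⟩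
    obtain ⟨z, hz⟩ := (hGE k).out
    refine ⟨z, fun h => hz ?_⟩
    have h3 := hM.Ts _ h (u k z)⁻¹ (inv_ne_zero (hu0 k z))
    rwa [smul_smul, inv_mul_cancel₀ (hu0 k z), one_smul] at h3
  have hLN : ∀ k, Nm G.P (L k) := by
    intro k
    rw [hL]
    exact huN k
  have hLg : ∀ k z, g (L k) z = g (Q k) z := by
    intro k z
    rw [hL]
    exact S.en.unit _ (hGE k) (u k) (hu k) (hu0 k) z
  have hLn : ∀ k z, G.n (L k z) (deriv (L k) z) = G.n (Q k z) (deriv (Q k) z) := by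
    intro k z
    rw [hL]
    exact ABd_unit hG (hGE k).diff (hGE k).mem (hu k) (hu0 k) z
  have h0' : ∀ k, (1 : ℝ) ≤ g (L k) 0 := by
    intro k
    rw [hLg, hQ]
    exact (h1 k).ge
  have hA' : ∀ k : ℕ, ∀ z ∈ ball (0 : ℂ) (k + 1), g (L k) z ≤ 2 := by
    intro k z hz
    rw [hLg, hQ]
    exact h2 k z hz
  obtain ⟨𝒰, h𝒰⟩ : ∃ 𝒰 : Ultrafilter ℕ, 𝒰 = hyperfilter ℕ := ⟨_, rfl⟩
  have hle : (𝒰 : Filter ℕ) ≤ atTop := by rw [h𝒰]; exact Nat.hyperfilter_le_atTop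
  have hainv : Tendsto (fun k => (a k)⁻¹) 𝒰 (𝓝 0) := by
    have hρ : Tendsto (fun k : ℕ => (k : ℝ) + 1) 𝒰 atTop :=
      (tendsto_atTop_add_const_right _ _ tendsto_natCast_atTop_atTop).mono_left hle
    have h3 : Tendsto a 𝒰 atTop := by
      refine tendsto_atTop_mono (fun k => ?_) hρ
      have := ha k
      have h4 : (0 : ℝ) ≤ k := Nat.cast_nonneg k
      linarith
    exact tendsto_inv_atTop_zero.comp h3
  obtain ⟨H, hH, -, hord, ⟨z₁, w₁, hne⟩, hlim⟩ := compactness S 𝒰 hle L hLE hLN one_pos hA' h0'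
  have hn0 : ∀ z, G.n (H z) (deriv H z) = 0 := by
    intro z
    have h3 : Tendsto (fun k => G.n (L k z) (deriv (L k) z)) 𝒰 (𝓝 (G.n (H z) (deriv H z))) :=
      n_tendsto hG (Eventually.of_forall fun k => ⟨(hLE k).diff, (hLE k).mem⟩) hH.diff hH.mem hlim z
    have h4 : Tendsto (fun k => G.n (L k z) (deriv (L k) z)) 𝒰 (𝓝 0) := by
      refine tendsto_of_tendsto_of_tendsto_of_le_of_le' tendsto_const_nhds hainv ?_ ?_
      · exact Eventually.of_forall fun k => n_nonneg _ _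
      · obtain ⟨k₀, hk₀⟩ := exists_nat_gt ‖z‖
        have h5 : ∀ᶠ k : ℕ in 𝒰, k₀ ≤ k := hle (eventually_ge_atTop k₀)
        filter_upwards [h5] with k hk
        rw [hLn]
        refine hGn k z ?_
        rw [mem_ball_zero_iff]
        have : (k₀ : ℝ) ≤ k := by exact_mod_cast hk
        linarith
    exact tendsto_nhds_unique h3 h4
  rcases hM.null H hH.diff hH.mem hord hn0 with h | h
  · obtain ⟨z, hz⟩ := hH.out
    exact hz (h z)
  · obtain ⟨c, hc⟩ := h z₁ w₁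
    exact hne c hc

theorem bound (hG : G.Ok) (hM : G.Met T rho M c₀ C δ g) :
    ∃ C₁ : ℝ, 0 < C₁ ∧ ∀ (q : G.J → ℂ) (F : ℂ → EN N), G.Cl T q F → ∀ z, g F z ≤ C₁ := by
  obtain ⟨C₁, hC₁, hb⟩ := bound_local hG hM
  refine ⟨C₁, hC₁, fun q F hF z => ?_⟩
  have h1 := hb _ (ent_comp hF.ent one_ne_zero z) (fun w _ => by
    have h2 := n_aff hG hF.ent.diff hF.ent.mem 1 z w
    rw [h2, norm_one, one_mul, cl_n hF])
  have h2 := hM.en.aff F hF.ent 1 z one_ne_zero 0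
  rw [h2, norm_one, one_mul, mul_zero, zero_add] at h1
  exact h1

end Pool.Agent.SR2
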