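import Pool.Agent.SR2.ABd
import Pool.Agent.SR2.ABas
import Pool.Agent.SR2.ATh
import Pool.Agent.SR2.ASet
import Pool.Agent.SDA.Cc

/-!
# SR2 ACp: compactness of the class
-/

set_option autoImplicit false

open Topology Filter Metric

noncomputable section

namespace Pool.Agent.SR2

open Pool.Agent.H36.BP (EN fs wd Sub OrdTwo)
open Pool.Agent.H14.PP (IsCone Tan)
open Pool.Agent.SY (Ent)
open Pool.Agent.SDA (Nm)
open Geo (Gd)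

variable {N : ℕ} {G : Geo N} {T : Set (EN N)} {rho : EN N → ℝ} {M : ℕ} {c₀ C δ : ℝ} {g : (ℂ → EN N) → ℂ → ℝ}

theorem compact (hG : G.Ok) (hM : G.Met T rho M c₀ C δ g) (𝒰 : Ultrafilter ℕ) (h𝒰 : (𝒰 : Filter ℕ) ≤ atTop) (q : ℕ → G.J → ℂ) (F : ℕ → ℂ → EN N)
    (hF : ∀ k, G.Cl T (q k) (F k)) (h0 : ∀ k, δ ≤ rho (F k 0)) :
    ∃ (q' : G.J → ℂ) (H : ℂ → EN N), G.Cl T q' H ∧ Tendsto q 𝒰 (𝓝 q') ∧ δ ≤ rho (H 0) ∧ TendstoLocallyUniformlyOn F H 𝒰 Set.univ := by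
  obtain ⟨C₁, -, hC₁⟩ := bound hG hM
  obtain ⟨d₁, C₂, hd₁, hd, -⟩ := thick hG hM hM.pos
  obtain ⟨H, hH1, hH2, -, -, hH3⟩ := Pool.Agent.SDA.compactness (setup_fs hG hM) 𝒰 h𝒰 F (fun k => (hF k).ent) (fun k => nm_iff.2 (hF k).nm)
    hd₁ (fun k z _ => hC₁ (q k) (F k) (hF k) z) (fun k => hd (F k) (hF k).ent 0 (h0 k) (cl_n (hF k) 0).ge)
  have hHd : Differentiable ℂ H := hH1.diff
  have hHK : ∀ z, H z ∈ G.K := hH1.mem
  have hFK : ∀ᶠ k in (𝒰 : Filter ℕ), Differentiable ℂ (F k) ∧ ∀ z, F k z ∈ G.K := Eventually.of_forall fun k => ⟨(hF k).ent.diff, (hF k).ent.mem⟩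
  have hw : ∀ z j, Tendsto (fun k => q k j) 𝒰 (𝓝 (G.w j (H z) (deriv H z))) := fun z j =>
    (w_tendsto hG j hFK hHd hHK hH3 z).congr fun k => (hF k).val j z
  have hval : ∀ j z, G.w j (H z) (deriv H z) = G.w j (H 0) (deriv H 0) := fun j z => tendsto_nhds_unique (hw z j) (hw 0 j)
  refine ⟨fun j => G.w j (H 0) (deriv H 0), H, ⟨hH1, nm_iff.1 hH2, hval, ?_⟩, tendsto_pi_nhds.2 fun j => hw 0 j, ?_, hH3⟩
  · have h1 := n_tendsto hG hFK hHd hHK hH3 0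
    have h2 : Tendsto (fun k => G.n (F k 0) (deriv (F k) 0)) 𝒰 (𝓝 1) :=
      tendsto_const_nhds.congr fun k => (cl_n (hF k) 0).symm
    rw [← nq_eq (fun j => G.w j (H 0) (deriv H 0)) (x := H 0) (v := deriv H 0) fun j => rfl]
    exact tendsto_nhds_unique h1 h2
  · have h1 : Tendsto (fun k => F k 0) 𝒰 (𝓝 (H 0)) := hH3.tendsto_at (Set.mem_univ 0)
    have h2 : Tendsto (fun k => F k 0) 𝒰 (𝓝[G.X] (H 0)) :=
      tendsto_nhdsWithin_iff.2 ⟨h1, Eventually.of_forall fun k => KX hG ((hF k).ent.mem 0)⟩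
    exact ge_of_tendsto ((hM.rhoc (H 0) (KX hG (hHK 0))).tendsto.comp h2) (Eventually.of_forall h0)

end Pool.Agent.SR2
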