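import Pool.Agent.SR2.Defs
import Pool.Agent.SDA.Mn

/-!
# SR2 StubZ: block Z, from the class to the curves of order two (stubs; never import this file in a hand-in)

One theorem = one file `Pool/Agent/SR2/<Module>.lean`, namespace `Pool.Agent.SR2`, exactly these statements.
-/

set_option autoImplicit false

open Topology Filter Metric

noncomputable section

namespace Pool.Agent.SR2

open Pool.Agent.H36.BP (EN fs wd Sub OrdTwo)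
open Pool.Agent.H14.PP (IsCone Tan)
open Pool.Agent.SY (Ent)
open Pool.Agent.SDA (EnergyK Near AffOpen Nm nForms Tame)
open Geo (Gd)

variable {N : ℕ}

namespace Stub

variable {G : Geo N} {T : Set (EN N)} {rho : EN N → ℝ} {M : ℕ} {c₀ C δ : ℝ} {g : (ℂ → EN N) → ℂ → ℝ}

/-! ## block F / G: the second curve -/

/-- MODULE Z1 (block F, (15)): the good points of a second metric are relatively dense -/
theorem dense' (S : Base G T rho M c₀ C δ g) {T' : Set (EN N)} {rho' : EN N → ℝ} {M' : ℕ} {c₀' C' δ' : ℝ} {g' : (ℂ → EN N) → ℂ → ℝ}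
    (hM' : G.Met T' rho' M' c₀' C' δ' g') (hT : T ⊆ T') :
    ∃ R : ℝ, ∀ (q : G.J → ℂ) (F : ℂ → EN N), G.Cl T' q F → ∀ a ∈ Gd rho δ F, ∃ b ∈ Gd rho' δ' F, dist a b ≤ R := by
  sorry

/-- MODULE Z2 (block G): one form kills the class.  `𝒬` is the set of the functions on the cone which are given by the forms which are not `0` on `X`. -/
theorem one_form (S : Base G T rho M c₀ C δ g) {𝒬 : Set (EN N → ℂ)} (h𝒬 : 𝒬.Nonempty) (hmul : ∀ Q ∈ 𝒬, ∀ Q' ∈ 𝒬, (fun x => Q x * Q' x) ∈ 𝒬)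
    (hmet : ∀ R ∈ 𝒬, ∃ Q ∈ 𝒬, (∀ x, R x = 0 → Q x = 0) ∧ (∀ x ∈ T, Q x = 0) ∧
      ∃ (rho' : EN N → ℝ) (M' : ℕ) (c₀' C' δ' : ℝ) (g' : (ℂ → EN N) → ℂ → ℝ), G.Met {x | x ∈ G.X ∧ Q x = 0} rho' M' c₀' C' δ' g')
    (hper : ∀ (q : G.J → ℂ) (F : ℂ → EN N) (ω : ℂ), G.Cl T q F → ω ≠ 0 → (∀ z, F (z + ω) = F z) →
      (∃ B : ℝ, ∀ z, Real.log ‖F z‖ ≤ B * (1 + ‖z‖)) → ∃ Q ∈ 𝒬, ∀ z, Q (F z) = 0) :
    ∃ Q ∈ 𝒬, (∃ (rho' : EN N → ℝ) (M' : ℕ) (c₀' C' δ' : ℝ) (g' : (ℂ → EN N) → ℂ → ℝ), G.Met {x | x ∈ G.X ∧ Q x = 0} rho' M' c₀' C' δ' g') ∧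
      ∀ (q : G.J → ℂ) (F : ℂ → EN N), ¬ G.Cl {x | x ∈ G.X ∧ Q x = 0} q F := by
  sorry

/-! ## (16): the end -/

/-- MODULE Z3 (PolZ.lean; compare `SDA/Q2.lean`, and `lprime` of block A for the subharmonic function) -/
theorem exists_poly (hG : G.Ok) {F : ℂ → EN N} (hF : Differentiable ℂ F) (hK : ∀ z, F z ∈ G.K) (hN : ∀ z, G.p (F z) = 1) (ho : OrdTwo F) (j : G.J) :
    ∃ p : Polynomial ℂ, ∀ z, G.w j (F z) (deriv F z) = p.eval z := by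
  sorry

/-- MODULE Z4 (ConT.lean; `SDA/Q3b.lean`, `tame_poly`) -/
theorem const_or_tame (hG : G.Ok) {F : ℂ → EN N} (hF : Differentiable ℂ F) (hK : ∀ z, F z ∈ G.K) (hN : ∀ z, G.p (F z) = 1) (ho : OrdTwo F) :
    (∃ c : ℝ, ∀ z, G.n (F z) (deriv F z) = c) ∨ Tame fun z => G.n (F z) (deriv F z) := by
  sorry

/-- MODULE Z5 (ClN.lean): a curve of constant length one is in the class (Liouville) -/
theorem cl_of_n (hG : G.Ok) {F : ℂ → EN N} (hF : Ent G.K T F) (hN : ∀ z, G.p (F z) = 1) (h1 : ∀ z, G.n (F z) (deriv F z) = 1) : ∃ q, G.Cl T q F := by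
  sorry

/-- MODULE Z6 (Tm1.lean): compare `SDA/T1.lean` -/
theorem tame_bound (hG : G.Ok) (hM : G.Met T rho M c₀ C δ g) {F : ℂ → EN N} (hF : Ent G.K T F) (hN : ∀ z, G.p (F z) = 1)
    (ht : Tame fun z => G.n (F z) (deriv F z)) : ∃ C₂ : ℝ, 0 < C₂ ∧ ∀ᶠ z in cocompact ℂ, g F z ≤ C₂ * G.n (F z) (deriv F z) := by
  sorry

/-- MODULE Z6 (Tm1.lean): compare `SDA/T1.lean` -/
theorem tame_bad (hG : G.Ok) (hM : G.Met T rho M c₀ C δ g) (hno : ∀ (q : G.J → ℂ) (F : ℂ → EN N), ¬ G.Cl T q F) {F : ℂ → EN N} (hF : Ent G.K T F)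
    (hN : ∀ z, G.p (F z) = 1) (ht : Tame fun z => G.n (F z) (deriv F z)) : ∀ᶠ z in cocompact ℂ, rho (F z) < δ := by
  sorry

/-- MODULE Z7 (Tm2.lean): compare `SDA/T2.lean`; `lprime` instead of `lemma_L`, for the rescaled curve (`n ≥ m` on a disc of radius `R`, `m` large) -/
theorem not_tame (hG : G.Ok) (hM : G.Met T rho M c₀ C δ g) (hno : ∀ (q : G.J → ℂ) (F : ℂ → EN N), ¬ G.Cl T q F) {F : ℂ → EN N} (hF : Ent G.K T F)
    (hN : ∀ z, G.p (F z) = 1) : ¬ Tame fun z => G.n (F z) (deriv F z) := by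
  sorry

/-- MODULE Z8 (OrdZ.lean): compare `SDA/Mn.lean` -/
theorem ordTwo_in (hG : G.Ok) (hM : G.Met T rho M c₀ C δ g) (hno : ∀ (q : G.J → ℂ) (F : ℂ → EN N), ¬ G.Cl T q F) {F : ℂ → EN N}
    (hF : Differentiable ℂ F) (hK : ∀ z, F z ∈ G.K) (ho : OrdTwo F) : (∀ z, F z ∈ T) ∨ ∀ z w, ∃ c : ℂ, F z = c • F w := by
  sorry

end Stub

end Pool.Agent.SR2
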