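import Pool.Agent.SR2.StubH
import Pool.Agent.SR2.StubZ
import Pool.Agent.SDA.E4
import Pool.Agent.SDA.E5
import Pool.Agent.SDA.RDefs2

/-!
# SR2 Asm: the main theorem
-/

set_option autoImplicit false

open Topology Filter Metric MvPolynomial

noncomputable section

namespace Pool.Agent.SR2

open Pool.Agent.H36.BP (EN fs OrdTwo)
open Pool.Agent.H17 (PN VanishesAt HolomorphicInto)
open Pool.Agent.H62.FC (Homog)
open Pool.Agent.H17LG.Variety (FunField IsLogGeneralType)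
open Pool.Agent.H13.OT (OrderTwo)
open Pool.Agent.H17EF (projVar coneE)
open Pool.Agent.H14.KB (rhoS)
open Pool.Agent.AD (SymDiff TangentTo)
open Pool.Agent.AD.NC (IsSmooth IsOfLogGeneralType)
open Pool.Agent.SDA (openCone EnergyK Near AffOpen IsHyperbolicOpen four_of_orderTwo hyperbolicOpen_of)

open Stub

variable {N k M h : ℕ}

/-- The curves of order two lie in one curve. -/
theorem exists_curve (P : Ideal (MvPolynomial (Fin (N + 1)) ℂ)) [P.IsPrime] (hP : Homog P) {z : Fin 2 → FunField P} (hz : IsTranscendenceBasis ℂ z)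
    (hsm : IsSmooth P 2) (H : MvPolynomial (Fin (N + 1)) ℂ) (hH : H.IsHomogeneous h) (h1 : 1 ≤ h) (hHP : H ∉ P)
    (hgt : IsOfLogGeneralType P (fun _ : Fin 1 => H) 2)
    (E : Fin k → Fin (M + 1) → MvPolynomial (Fin (N + 1)) ℂ) (c b : Fin k → ℕ) (hE : ∀ i l, (E i l).IsHomogeneous (c i)) (hc : ∀ i, h + 1 ≤ c i)
    (hs : Snc P H E b) {s : ℕ} (hs1 : 1 ≤ s) (m : Fin s → ℕ) (hm : ∀ j, 1 ≤ m j) (θ : ∀ j, SymDiff (oc P H) (m j)) (hθ : ∀ j, HasLogPoles E c (θ j))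
    (hθ' : ∀ j, IsAlg (θ j)) {mΩ jΩ r : ℕ} (Ω : Fin r → EN N → EN N → EN N → ℂ) (Q : Fin r → MvPolynomial (Fin (N + 1)) ℂ)
    (hΩ : LogAmple P H mΩ jΩ Ω Q) {t : ℕ} (R : Fin t → MvPolynomial (Fin (N + 1)) ℂ) (hR : NullCurve θ R) (hB : NoBdyCurve P E) (hL : NoLine P H) :
    ∃ (Q' : MvPolynomial (Fin (N + 1)) ℂ) (D : ℕ), Q'.IsHomogeneous D ∧ Q' ∉ P ∧ ∀ F : ℂ → EN N, Differentiable ℂ F → (∀ z, F z ∈ oc P H) → OrdTwo F →
      (∀ z, eval (F z).ofLp Q' = 0) ∨ ∀ z w, ∃ c : ℂ, F z = c • F w := by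
  obtain ⟨n, supp, Pol, ty, hok⟩ := exists_ok hP hz hsm hH h1 hE hc hs hs1 hm θ hθ hΩ hB hL
  obtain ⟨D₁, hR1⟩ := hR.hom
  obtain ⟨D₂, hQ1⟩ := hΩ.hom
  obtain ⟨M', c₀, C, δ, g, hmet⟩ := exists_met (E := E) (c := c) (b := b) hP hz hsm hH h1 hHP hs1 hm θ hΩ hQ1 hR1 hR supp Pol ty
  have S : Base (geoOf P H h E c b θ supp Pol ty mΩ jΩ Ω) _ _ M' c₀ C δ g :=
    ⟨hok, hmet, fun B => exists_qn hP hz hsm hH h1 hm θ hθ' hΩ hR (D₁ + D₂ + h) B⟩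
  set G := geoOf P H h E c b θ supp Pol ty mΩ jΩ Ω with hG
  obtain ⟨𝒬, h𝒬⟩ : ∃ 𝒬 : Set (EN N → ℂ), 𝒬 = {Q' | ∃ (R' : MvPolynomial (Fin (N + 1)) ℂ) (D : ℕ), R'.IsHomogeneous D ∧ R' ∉ P ∧
      Q' = fun x : EN N => eval x.ofLp R'} := ⟨_, rfl⟩
  obtain ⟨Q₁, hQ₁, ⟨rho', M₁, c₁, C₁, δ₁, g₁, hmet₁⟩, hno⟩ := one_form S (𝒬 := 𝒬)
    (by
      rw [h𝒬]
      exact ⟨_, H, h, hH, hHP, rfl⟩)
    (by
      rw [h𝒬]
      rintro _ ⟨R₁, d₁, h1, h2, rfl⟩ _ ⟨R₂, d₂, h3, h4, rfl⟩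
      refine ⟨R₁ * R₂, d₁ + d₂, h1.mul h3, fun hcon => ?_, by funext x; simp⟩
      exact (Ideal.IsPrime.mem_or_mem ‹P.IsPrime› hcon).elim h2 h4)
    (by
      rw [h𝒬]
      rintro _ ⟨R', d, hR', hRP', rfl⟩
      obtain ⟨Q', D, M₂, c₂, C₂, δ₂, g₂, hQ', hQP', hRQ, hRQ', hm2⟩ := exists_met_of_form (E := E) (c := c) (b := b) (mΩ := mΩ) (jΩ := jΩ) (Ω := Ω)
        hP hz hsm hH h1 hHP hgt hs1 hm θ hR supp Pol ty hR' hRP'
      refine ⟨fun x => eval x.ofLp Q', ⟨Q', D, hQ', hQP', rfl⟩, fun x hx => hRQ x hx, ?_, _, M₂, c₂, C₂, δ₂, g₂, hm2⟩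
      rintro x ⟨hx, hx0⟩
      by_cases hxH : eval x.ofLp H = 0
      · exact (hm2.KT x hx fun hK => hK.2 0 hxH).2
      · obtain ⟨a, ha⟩ := hΩ.cover x ⟨hx, fun _ => hxH⟩
        refine hRQ' x fun l => ?_
        have h3 := hx0 (l, a)
        unfold eqT at h3
        rw [map_mul, map_mul] at h3
        simpa [hxH, ha] using h3)
    (by
      rw [h𝒬]
      intro q F ω hF hω hper hg
      obtain ⟨R', D, h3, h4, h5⟩ := periodic_degenerate hP hz hF.ent.diff (fun z => (hF.ent.mem z).1) hω hper hg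
      exact ⟨_, ⟨R', D, h3, h4, rfl⟩, h5⟩)
  rw [h𝒬] at hQ₁
  obtain ⟨Q', D, hQ', hQP', rfl⟩ := hQ₁
  refine ⟨Q', D, hQ', hQP', fun F hF hK ho => ?_⟩
  rcases ordTwo_in hok hmet₁ hno hF hK ho with h3 | h3
  · exact Or.inl fun z => (h3 z).2
  · exact Or.inr h3

/-- **Main theorem.** -/
theorem main (P : Ideal (MvPolynomial (Fin (N + 1)) ℂ)) [P.IsPrime] (hP : Homog P) (hdim : ∃ z : Fin 2 → FunField P, IsTranscendenceBasis ℂ z)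
    (hsm : IsSmooth P 2) (H : MvPolynomial (Fin (N + 1)) ℂ) (hH : H.IsHomogeneous h) (h1 : 1 ≤ h) (hHP : H ∉ P)
    (hgt : IsOfLogGeneralType P (fun _ : Fin 1 => H) 2)
    (E : Fin k → Fin (M + 1) → MvPolynomial (Fin (N + 1)) ℂ) (c b : Fin k → ℕ) (hE : ∀ i l, (E i l).IsHomogeneous (c i)) (hc : ∀ i, h + 1 ≤ c i)
    (hs : Snc P H E b) {s : ℕ} (hs1 : 1 ≤ s) (m : Fin s → ℕ) (hm : ∀ j, 1 ≤ m j) (θ : ∀ j, SymDiff (oc P H) (m j)) (hθ : ∀ j, HasLogPoles E c (θ j))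
    (hθ' : ∀ j, IsAlg (θ j)) {mΩ jΩ r : ℕ} (Ω : Fin r → EN N → EN N → EN N → ℂ) (Q : Fin r → MvPolynomial (Fin (N + 1)) ℂ)
    (hΩ : LogAmple P H mΩ jΩ Ω Q) {t : ℕ} (R : Fin t → MvPolynomial (Fin (N + 1)) ℂ) (hR : NullCurve θ R) (hB : NoBdyCurve P E) (hL : NoLine P H) :
    IsHyperbolicOpen P (fun _ : Fin 1 => H) := by
  obtain ⟨z, hz⟩ := id hdim
  obtain ⟨Q', D, hQ', hQP', hor⟩ := exists_curve P hP hz hsm H hH h1 hHP hgt E c b hE hc hs hs1 m hm θ hθ hθ' Ω Q hΩ R hR hB hL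
  have hprod : (fun _ : Fin 1 => ∏ i : Fin 1, (fun _ : Fin 1 => H) i) = fun _ : Fin 1 => H := by
    funext i
    simp
  have h3 := four_of_orderTwo (H := fun _ : Fin 1 => H) (e := fun _ => h) hP hz hsm le_rfl (fun _ => hH) (fun _ => h1) (fun _ => hHP)
    hgt hQ' hQP' hor
  rw [hprod] at h3
  exact hyperbolicOpen_of hP hdim (fun _ => ⟨_, hH⟩) h3.1 h3.2

/-- **Main theorem**, with the condition on the tangent curves in the form of `SDA`. -/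
theorem main_few (P : Ideal (MvPolynomial (Fin (N + 1)) ℂ)) [P.IsPrime] (hP : Homog P) (hdim : ∃ z : Fin 2 → FunField P, IsTranscendenceBasis ℂ z)
    (hsm : IsSmooth P 2) (H : MvPolynomial (Fin (N + 1)) ℂ) (hH : H.IsHomogeneous h) (h1 : 1 ≤ h) (hHP : H ∉ P)
    (hgt : IsOfLogGeneralType P (fun _ : Fin 1 => H) 2)
    (E : Fin k → Fin (M + 1) → MvPolynomial (Fin (N + 1)) ℂ) (c b : Fin k → ℕ) (hE : ∀ i l, (E i l).IsHomogeneous (c i)) (hc : ∀ i, h + 1 ≤ c i)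
    (hs : Snc P H E b) {s : ℕ} (hs1 : 1 ≤ s) (m : Fin s → ℕ) (hm : ∀ j, 1 ≤ m j) (θ : ∀ j, SymDiff (oc P H) (m j)) (hθ : ∀ j, HasLogPoles E c (θ j))
    (hθ' : ∀ j, IsAlg (θ j)) {mΩ jΩ r : ℕ} (Ω : Fin r → EN N → EN N → EN N → ℂ) (Q : Fin r → MvPolynomial (Fin (N + 1)) ℂ)
    (hΩ : LogAmple P H mΩ jΩ Ω Q) (hB : NoBdyCurve P E) (hL : NoLine P H) (hf : Pool.Agent.SDA.FewTangent P (fun _ : Fin 1 => H) θ) :
    IsHyperbolicOpen P (fun _ : Fin 1 => H) := by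
  obtain ⟨z, hz⟩ := id hdim
  have key : ∀ (R : MvPolynomial (Fin (N + 1)) ℂ) (d : ℕ), R.IsHomogeneous d → R ∉ P →
      (∀ f : ℂ → PN N, HolomorphicInto f Set.univ → OrderTwo f → (∀ z, f z ∈ projVar P ∧ ¬ VanishesAt H (f z)) → (∃ z w, f z ≠ f w) →
        (∀ j, TangentTo (θ j) f) → ∀ z, VanishesAt R (f z)) → IsHyperbolicOpen P (fun _ : Fin 1 => H) := by
    intro R d hR hRP hnull
    obtain ⟨t, R', hR'⟩ := exists_nullCurve hP hz hsm hH h1 hHP hs1 hm θ hθ' hR hRP hnull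
    exact main P hP hdim hsm H hH h1 hHP hgt E c b hE hc hs hs1 m hm θ hθ hθ' Ω Q hΩ R' hR' hB hL
  rcases hf with ⟨R, d, hR, hRP, h3⟩ | ⟨i, j, h3⟩
  · exact key R d hR hRP fun f hf ho hfU hfn ht => h3 f hf ho (fun z => ⟨(hfU z).1, fun _ => (hfU z).2⟩) hfn ht
  · obtain ⟨R, d, hR, hRP, h4⟩ := exists_R_alg hP hz hsm hH h1 hHP (hm i) (hm j) (θ i) (θ j) (hθ' i) (hθ' j) h3
    exact key R d hR hRP fun f hf _ hfU hfn ht => h4 f hf hfU hfn (ht i) (ht j)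

end Pool.Agent.SR2
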