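import Pool.Agent.SR2.DDefs

/-!
# SR2 Comp: translations, scaling, local constancy of the type
-/

set_option autoImplicit false

open Metric Topology Filter MvPolynomial InnerProductSpace

noncomputable section

namespace Pool.Agent.SR2

open Pool.Agent.SDR (gc gc_congr gc_re analyticAt_gc eq_zero_of_nonneg)

variable {ι J Ty : Type} [Fintype ι]

/-- a function which is harmonic at a point is the real part of an analytic function there -/
theorem Comp_exists_re {u : ℂ → ℝ} {a : ℂ} (hu : HarmonicAt u a) : ∃ F : ℂ → ℂ, AnalyticAt ℂ F a ∧ ∀ᶠ z in 𝓝 a, (F z).re = u z := by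
  obtain ⟨r, hr, hb⟩ := Metric.eventually_nhds_iff_ball.1 hu.eventually
  obtain ⟨F, hF, hre⟩ := InnerProductSpace.HarmonicOnNhd.exists_analyticOnNhd_ball_re_eq (z := a) (R := r) (fun z hz => hb z hz)
  refine ⟨F, hF a (mem_ball_self hr), ?_⟩
  filter_upwards [ball_mem_nhds a hr] with z hz
  exact hre hz

theorem Comp_tendsto (p : ℂ) (R : ℝ) (w : ℂ) : Tendsto (fun z : ℂ => p + R * z) (𝓝 w) (𝓝 (p + R * w)) := by
  have : Continuous fun z : ℂ => p + R * z := by fun_prop
  exact this.tendsto w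

theorem Comp_affine {u : ℂ → ℝ} {p w : ℂ} {R : ℝ} (hR : 0 < R) (hu : HarmonicAt u (p + R * w)) :
    HarmonicAt (fun z => u (p + R * z) / R) w ∧ gc (fun z => u (p + R * z) / R) w = gc u (p + R * w) := by
  obtain ⟨F, hF, hre⟩ := Comp_exists_re hu
  have hRc : (R : ℂ) ≠ 0 := by exact_mod_cast hR.ne'
  have hG : AnalyticAt ℂ (fun z : ℂ => F (p + R * z) / R) w := by
    have h1 : AnalyticAt ℂ (fun z : ℂ => p + R * z) w := by fun_prop
    exact (AnalyticAt.fun_comp (g := F) (f := fun z : ℂ => p + R * z) hF h1).div analyticAt_const hRc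
  have he : (fun z : ℂ => (F (p + R * z) / R).re) =ᶠ[𝓝 w] fun z => u (p + R * z) / R := by
    filter_upwards [(Comp_tendsto p R w).eventually hre] with z hz
    rw [Complex.div_ofReal_re, hz]
  constructor
  · exact (InnerProductSpace.harmonicAt_congr_nhds he).1 hG.harmonicAt_re
  · rw [← gc_congr he, gc_re hG]
    have h2 : gc u (p + R * w) = deriv F (p + R * w) := by
      rw [← gc_re hF]
      exact gc_congr (hre.mono fun z hz => hz.symm)
    rw [h2]
    have h3 : HasDerivAt (fun z : ℂ => p + R * z) (R : ℂ) w := by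
      simpa using ((hasDerivAt_id w).const_mul (R : ℂ)).const_add p
    have h4 := (hF.differentiableAt.hasDerivAt.comp w h3).div_const (R : ℂ)
    have h5 := h4.deriv
    rw [mul_div_assoc, div_self hRc, mul_one] at h5
    exact h5

/-- translation and scaling -/
theorem Bl.affine {supp : Ty → Finset ι} {P : Ty → J → MvPolynomial ι ℂ} {C A : ℝ} {q : J → ℂ} {U : ι → ℂ → ℝ}
    (h : Bl supp P C A q U) (p : ℂ) {R : ℝ} (hR : 0 < R) : Bl supp P C A q (fun i z => U i (p + R * z) / R) := by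
  have hRc : (R : ℂ) ≠ 0 := by exact_mod_cast hR.ne'
  have hs : ∀ w : ℂ, 0 < ∑ i, U i (p + R * w) / R → 0 < ∑ i, U i (p + R * w) := by
    intro w hw
    rw [← Finset.sum_div] at hw
    have := mul_pos hw hR
    rwa [div_mul_cancel₀ _ hR.ne'] at this
  refine ⟨fun i z => div_nonneg (h.nonneg i _) hR.le, fun i z w => ?_, fun w r hr => ?_, fun w hw i => ?_, fun w hw => ?_⟩
  · rw [← sub_div, abs_div, abs_of_pos hR, div_le_iff₀ hR]
    have h1 := h.lip i (p + R * z) (p + R * w)
    have h2 : (p + R * z) - (p + R * w) = (R : ℂ) * (z - w) := by ring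
    rw [h2, norm_mul, Complex.norm_real, Real.norm_of_nonneg hR.le] at h1
    linarith
  · obtain ⟨z, hz, hA⟩ := h.big (p + R * w) (R * r) (mul_pos hR hr)
    refine ⟨(z - p) / R, ?_, ?_⟩
    · rw [mem_closedBall, dist_eq_norm] at hz ⊢
      have h2 : (z - p) / R - w = (z - (p + R * w)) / R := by field_simp; ring
      rw [h2, norm_div, Complex.norm_real, Real.norm_of_nonneg hR.le, div_le_iff₀ hR]
      linarith
    · have h3 : p + (R : ℂ) * ((z - p) / R) = z := by field_simp; ring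
      simp only [h3]
      rw [← Finset.sum_div, le_div_iff₀ hR]
      linarith
  · exact (Comp_affine hR (h.harm _ (hs w hw) i)).1
  · obtain ⟨t, h1, h2⟩ := h.typ _ (hs w hw)
    refine ⟨t, fun i hi => ?_, fun j => ?_⟩
    · show U i (p + R * w) / R = 0
      rw [h1 i hi, zero_div]
    · have h3 : (fun i => gc (fun z => U i (p + R * z) / R) w) = fun i => gc (U i) (p + R * w) :=
        funext fun i => (Comp_affine hR (h.harm _ (hs w hw) i)).2
      rw [h3]
      exact h2 j

/-- members of the class form a `Pre` sequence -/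
theorem Bl.pre {supp : Ty → Finset ι} {P : Ty → J → MvPolynomial ι ℂ} {C A : ℝ} {l : Filter ℕ} {q : ℕ → J → ℂ}
    {U : ℕ → ι → ℂ → ℝ} (hC : 0 ≤ C) (h : ∀ n, Bl supp P C A (q n) (U n)) {B : ℝ} (hB : ∀ n i, U n i 0 ≤ B) :
    Pre supp P C A l q U := by
  refine ⟨fun i z ε hε => Eventually.of_forall fun n => by linarith [(h n).nonneg i z], Eventually.of_forall fun n => (h n).lip,
    ⟨B, Eventually.of_forall fun n i => by rw [abs_of_nonneg ((h n).nonneg i 0)]; exact hB n i⟩,
    fun w r hr => Eventually.of_forall fun n => (h n).big w r hr, fun w δ hδ hw => ?_⟩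
  set K : ℝ := C * Fintype.card ι + 1 with hK
  have hK0 : 0 < K := by positivity
  have hpos : ∀ n, δ ≤ ∑ i, U n i w → ∀ z ∈ ball w (δ / K), 0 < ∑ i, U n i z := by
    intro n hn z hz
    rw [mem_ball, dist_eq_norm, lt_div_iff₀ hK0] at hz
    have h1 : ∑ i, U n i w - ∑ i, U n i z ≤ Fintype.card ι * (C * ‖z - w‖) := by
      rw [← Finset.sum_sub_distrib, ← Finset.card_univ, ← nsmul_eq_mul]
      refine Finset.sum_le_card_nsmul _ _ _ fun i _ => ?_
      have := (h n).lip i w z
      rw [norm_sub_rev] at this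
      exact (le_abs_self _).trans this
    have h2 : 0 ≤ ‖z - w‖ := norm_nonneg _
    rw [hK] at hz
    nlinarith
  have hex : ∀ n i, δ ≤ ∑ i, U n i w → ∃ F : ℂ → ℂ, AnalyticOnNhd ℂ F (ball w (δ / K)) ∧ ∀ z ∈ ball w (δ / K), (F z).re = U n i z := by
    intro n i hn
    obtain ⟨F, hF, hre⟩ := InnerProductSpace.HarmonicOnNhd.exists_analyticOnNhd_ball_re_eq (z := w) (R := δ / K)
      (fun z hz => (h n).harm z (hpos n hn z hz) i)
    exact ⟨F, hF, fun z hz => hre hz⟩
  have hr : 0 < δ / K := div_pos hδ hK0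
  refine ⟨δ / K, hr, ?_⟩
  have hex' : ∀ n i, ∃ F : ℂ → ℂ, δ ≤ ∑ i, U n i w → AnalyticOnNhd ℂ F (ball w (δ / K)) ∧ ∀ z ∈ ball w (δ / K), (F z).re = U n i z := by
    intro n i
    by_cases hn : δ ≤ ∑ i, U n i w
    · obtain ⟨F, hF⟩ := hex n i hn
      exact ⟨F, fun _ => hF⟩
    · exact ⟨0, fun hn' => absurd hn' hn⟩
  choose F hF using hex'
  refine ⟨F, hw.mono fun n hn i => (hF n i hn).1.differentiableOn, fun ε hε => hw.mono fun n hn => ⟨fun i z hz => ?_, ?_⟩⟩
  · rw [(hF n i hn).2 z hz, sub_self, abs_zero]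
    exact hε.le
  · obtain ⟨t, h1, h2⟩ := (h n).typ w (lt_of_lt_of_le hδ hn)
    refine ⟨t, fun i hi => by rw [h1 i hi]; exact hε.le, fun j => ?_⟩
    have h3 : ∀ i, deriv (F n i) w = gc (U n i) w := by
      intro i
      rw [← gc_re ((hF n i hn).1 w (mem_ball_self hr))]
      apply gc_congr
      filter_upwards [ball_mem_nhds w hr] with z hz
      exact (hF n i hn).2 z hz
    simp only [h3]
    rw [h2 j, sub_self, norm_zero]
    exact hε.le

/-- the type is valid near the point (finitely many types; identity theorem) -/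
theorem Bl.typ_near [Finite Ty] {supp : Ty → Finset ι} {P : Ty → J → MvPolynomial ι ℂ} {C A : ℝ} {q : J → ℂ} {U : ι → ℂ → ℝ}
    (h : Bl supp P C A q U) {w : ℂ} (hw : 0 < ∑ i, U i w) :
    ∃ t, ∀ᶠ z in 𝓝 w, (∀ i, i ∉ supp t → U i z = 0) ∧ ∀ j, eval (fun i => gc (U i) z) (P t j) = q j := by
  classical
  -- a ball with harmonic functions
  obtain ⟨r, hr, hb⟩ : ∃ r : ℝ, 0 < r ∧ ∀ z ∈ ball w r, 0 < ∑ i, U i z := by
    have hc : ∀ i, Continuous (U i) := fun i => by
      refine (LipschitzWith.of_dist_le_mul (K := (|C|).toNNReal) fun z z' => ?_).continuous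
      rw [Real.dist_eq, dist_eq_norm, Real.coe_toNNReal _ (abs_nonneg C)]
      exact (h.lip i z z').trans (mul_le_mul_of_nonneg_right (le_abs_self C) (norm_nonneg _))
    have h1 : ∀ᶠ z in 𝓝 w, 0 < ∑ i, U i z :=
      (continuous_finsetSum _ fun i _ => hc i).continuousAt.eventually_const_lt hw
    exact Metric.eventually_nhds_iff_ball.1 h1
  have hwb : w ∈ ball w r := mem_ball_self hr
  -- a type which is valid at points arbitrarily near `w`
  obtain ⟨t, ht⟩ : ∃ t, ∃ᶠ z in 𝓝[≠] w, (∀ i, i ∉ supp t → U i z = 0) ∧ ∀ j, eval (fun i => gc (U i) z) (P t j) = q j := by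
    by_contra hcon
    push Not at hcon
    have h1 := eventually_all.2 hcon
    have h2 : ∀ᶠ z in 𝓝[≠] w, z ∈ ball w r := mem_nhdsWithin_of_mem_nhds (ball_mem_nhds w hr)
    obtain ⟨z, hz1, hz2⟩ := (h1.and h2).exists
    obtain ⟨t, ht1, ht2⟩ := h.typ z (hb z hz2)
    obtain ⟨j, hj⟩ := hz1 t ht1
    exact hj (ht2 j)
  refine ⟨t, ?_⟩
  have e1 : ∀ i, i ∉ supp t → ∀ z ∈ ball w r, U i z = 0 := by
    intro i hi
    have h2 : ∀ᶠ z in 𝓝[≠] w, z ∈ ball w r := mem_nhdsWithin_of_mem_nhds (ball_mem_nhds w hr)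
    obtain ⟨z, hz1, hz2⟩ := (ht.and_eventually h2).exists
    exact eq_zero_of_nonneg (fun z hz => h.harm z (hb z hz) i) (fun z _ => h.nonneg i z) hz2 (hz1.1 i hi)
  have e2 : ∀ j, ∀ z ∈ ball w r, eval (fun i => gc (U i) z) (P t j) = q j := by
    intro j
    have hA : AnalyticOnNhd ℂ (fun z => eval (fun i => gc (U i) z) (P t j)) (ball w r) := by
      intro z hz
      simp only [eval_eq']
      refine Finset.analyticAt_fun_sum _ fun d _ => analyticAt_const.mul ?_
      exact Finset.analyticAt_fun_prod _ fun i _ => (analyticAt_gc (h.harm z (hb z hz) i)).pow _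
    exact hA.eqOn_of_preconnected_of_frequently_eq analyticOnNhd_const (convex_ball w r).isPreconnected hwb (ht.mono fun z hz => hz.2 j)
  filter_upwards [ball_mem_nhds w hr] with z hz
  exact ⟨fun i hi => e1 i hi z hz, fun j => e2 j z hz⟩

end Pool.Agent.SR2
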