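import Pool.Agent.SDR.Liou

/-!
# SR2 DDefs: blow-downs

`Bl` is the abstract class of the blow-downs of the functions `lam i` along an entire curve, `Pre` describes the sequences which converge to them.
-/

set_option autoImplicit false

open Metric Topology Filter MvPolynomial InnerProductSpace

noncomputable section

namespace Pool.Agent.SR2

open Pool.Agent.SDR (gc)

variable {ι J Ty : Type} [Fintype ι]

/-- The class of the blow-downs. -/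
structure Bl (supp : Ty → Finset ι) (P : Ty → J → MvPolynomial ι ℂ) (C A : ℝ) (q : J → ℂ) (U : ι → ℂ → ℝ) : Prop where
  nonneg : ∀ i z, 0 ≤ U i z
  lip : ∀ i z w, |U i z - U i w| ≤ C * ‖z - w‖
  big : ∀ (w : ℂ) (r : ℝ), 0 < r → ∃ z ∈ closedBall w r, A * r ≤ ∑ i, U i z
  harm : ∀ w, 0 < ∑ i, U i w → ∀ i, HarmonicAt (U i) w
  typ : ∀ w, 0 < ∑ i, U i w → ∃ t, (∀ i, i ∉ supp t → U i w = 0) ∧ ∀ j, eval (fun i => gc (U i) w) (P t j) = q j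

/-- Sequences of functions whose limits are blow-downs. -/
structure Pre (supp : Ty → Finset ι) (P : Ty → J → MvPolynomial ι ℂ) (C A : ℝ) (l : Filter ℕ) (q : ℕ → J → ℂ) (U : ℕ → ι → ℂ → ℝ) : Prop where
  nonneg : ∀ i z, ∀ ε : ℝ, 0 < ε → ∀ᶠ n in l, -ε ≤ U n i z
  lip : ∀ᶠ n in l, ∀ i z w, |U n i z - U n i w| ≤ C * ‖z - w‖
  bound : ∃ B : ℝ, ∀ᶠ n in l, ∀ i, |U n i 0| ≤ B
  big : ∀ (w : ℂ) (r : ℝ), 0 < r → ∀ᶠ n in l, ∃ z ∈ closedBall w r, A * r ≤ ∑ i, U n i z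
  hol : ∀ (w : ℂ) (δ : ℝ), 0 < δ → (∀ᶠ n in l, δ ≤ ∑ i, U n i w) → ∃ r : ℝ, 0 < r ∧ ∃ h : ℕ → ι → ℂ → ℂ,
    (∀ᶠ n in l, ∀ i, DifferentiableOn ℂ (h n i) (ball w r)) ∧
    ∀ ε : ℝ, 0 < ε → ∀ᶠ n in l, (∀ i, ∀ z ∈ ball w r, |U n i z - (h n i z).re| ≤ ε) ∧
      ∃ t, (∀ i, i ∉ supp t → U n i w ≤ ε) ∧ ∀ j, ‖eval (fun i => deriv (h n i) w) (P t j) - q n j‖ ≤ ε

/-- `U` is linear on the two sides of the line `Re (star u * z) = c`. -/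
structure Lin (u : ℂ) (c : ℝ) (β γ : ι → ℝ) (U : ι → ℂ → ℝ) : Prop where
  norm : ‖u‖ = 1
  pos : ∀ i, 0 ≤ β i
  pos' : ∀ i, 0 ≤ γ i
  up : ∀ i z, c ≤ (star u * z).re → U i z = β i * ((star u * z).re - c)
  down : ∀ i z, (star u * z).re ≤ c → U i z = γ i * (c - (star u * z).re)

end Pool.Agent.SR2
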