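import Pool.Agent.SDA.Defs
import Mathlib.RingTheory.MvPolynomial.Homogeneous

/-!
# SR2 Defs: logarithmic symmetric differentials with arbitrary residues

`X` is the cone of a smooth closed surface, `K = {p ≠ 0}` the cone of an affine open part of it, `X ∖ K` a curve with normal crossings; its component
`i` is the set of the common zeros of the components of the vector valued form `E i`.  Curves in `K` are normalised by `p (F z) = 1`.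
-/

set_option autoImplicit false

open Topology Filter Metric

noncomputable section

namespace Pool.Agent.SR2

open Pool.Agent.H36.BP (EN fs wd Sub OrdTwo)
open Pool.Agent.H17BP (Surface IsForm)
open Pool.Agent.H14.PP (IsCone Tan)
open Pool.Agent.SY (Ent)
open Pool.Agent.SDA (EnergyK Near AffOpen Nm nForms)

/-- The data. -/
structure Geo (N : ℕ) where
  /-- the closed surface -/
  X : Set (EN N)
  /-- the open part -/
  K : Set (EN N)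
  /-- the form whose zeros are the boundary, of degree `h` -/
  p : EN N → ℂ
  h : ℕ
  /-- the components of the boundary -/
  ι : Type
  fι : Fintype ι
  M : ℕ
  /-- the form `E i`, of degree `c i`, cuts out the component `i`; `p` has a zero of order `b i` along it -/
  E : ι → EN N → EN M
  c : ι → ℕ
  b : ι → ℕ
  /-- the logarithmic symmetric differentials, of degree `m j` -/
  J : Type
  fJ : Fintype J
  m : J → ℕ
  w : J → EN N → EN N → ℂ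
  /-- the types of the points near the boundary, with the residue polynomials -/
  Ty : Type
  fTy : Fintype Ty
  supp : Ty → Finset ι
  Pol : Ty → J → MvPolynomial ι ℂ
  ty : EN N → Ty
  /-- sections of `mΩ (K_X + D) - jΩ H` without common zeros -/
  A : Type
  fA : Fintype A
  mΩ : ℕ
  jΩ : ℕ
  Ω : A → EN N → EN N → EN N → ℂ

attribute [instance] Geo.fι Geo.fJ Geo.fTy Geo.fA

namespace Geo

variable {N : ℕ} (G : Geo N)

/-- the normalising function in the form of `SDA` -/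
def P : Unit → EN N → ℂ := fun _ => G.p

/-- its degree -/
def d : Unit → ℕ := fun _ => G.h

/-- `log` of the inverse distance to the component `i` of the boundary -/
def lam (i : G.ι) (x : EN N) : ℝ := G.c i * Real.log ‖x‖ - Real.log ‖G.E i x‖

/-- the derivative of `lam i` along a curve: `2 ∂/∂z (lam i (F z)) = - ell i (F z) (F' z)` -/
def ell (i : G.ι) (x v : EN N) : ℂ :=
  inner ℂ (G.E i x) (fderiv ℂ (G.E i) x v) / (‖G.E i x‖ : ℂ) ^ 2 - (G.c i : ℂ) * (inner ℂ x v / (‖x‖ : ℂ) ^ 2)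

/-- the logarithmic length -/
def L (x v : EN N) : ℝ := fs x v + ∑ i, ‖G.ell i x v‖

/-- the length of a vector of values of the forms -/
def nq (q : G.J → ℂ) : ℝ := ∑ j, ‖q j‖ ^ ((G.m j : ℝ)⁻¹)

/-- the pseudo-length `∑ |w j| ^ (1 / m j)` -/
def n (x v : EN N) : ℝ := nForms G.m G.w x v

/-- The hypotheses on the surface, the boundary and the forms. -/
structure Ok : Prop where
  cone : IsCone G.X
  surf : Surface G.X
  aff : AffOpen G.X G.K G.P G.d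
  -- the components of the boundary
  anE : ∀ i x, AnalyticAt ℂ (G.E i) x
  smulE : ∀ i (t : ℂ) (x : EN N), G.E i (t • x) = t ^ G.c i • G.E i x
  neE : ∀ i, ∀ x ∈ G.K, G.E i x ≠ 0
  c_ge : ∀ i, G.h + 1 ≤ G.c i
  b_pos : ∀ i, 1 ≤ G.b i
  cmp : ∃ C : ℝ, ∀ x ∈ G.K, |G.h * Real.log ‖x‖ - Real.log ‖G.p x‖ - ∑ i, G.b i * G.lam i x| ≤ C
  cmp' : ∃ C : ℝ, ∀ x ∈ G.K, ∀ v, Tan G.X x v →
    ‖(G.h : ℂ) * (inner ℂ x v / (‖x‖ : ℂ) ^ 2) - fderiv ℂ G.p x v / G.p x + ∑ i, (G.b i : ℂ) * G.ell i x v‖ ≤ C * fs x v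
  fsE : ∃ C : ℝ, 0 ≤ C ∧ ∀ i, ∀ x ∈ G.K, ∀ v, Tan G.X x v → fs (G.E i x) (fderiv ℂ (G.E i) x v) ≤ C * fs x v
  -- the symmetric differentials
  neJ : Nonempty G.J
  one_m : ∀ j, 1 ≤ G.m j
  w_inv : ∀ j, ∀ x ∈ G.K, ∀ v, Tan G.X x v → ∀ c a : ℂ, c ≠ 0 → G.w j (c • x) (c • v + a • x) = G.w j x v
  w_hom : ∀ j, ∀ x ∈ G.K, ∀ v, Tan G.X x v → ∀ c : ℂ, G.w j x (c • v) = c ^ G.m j * G.w j x v
  w_cont : ∀ j, ContinuousOn (fun y : EN N × EN N => G.w j y.1 y.2) {y | y.1 ∈ G.K ∧ Tan G.X y.1 y.2}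
  w_an : ∀ j (k : ℕ) (φ : (Fin k → ℂ) → EN N) (y v : Fin k → ℂ), AnalyticAt ℂ φ y → (∀ᶠ y' in 𝓝 y, φ y' ∈ G.K) →
    AnalyticAt ℂ (fun z : (Fin k → ℂ) × (Fin k → ℂ) => G.w j (φ z.1) (fderiv ℂ φ z.1 z.2)) (y, v)
  w_log : ∃ C : ℝ, 0 ≤ C ∧ ∀ j, ∀ x ∈ G.K, ∀ v, Tan G.X x v → ‖G.w j x v‖ ≤ C * G.L x v ^ G.m j
  -- the residues
  supp_card : ∀ t, (G.supp t).card ≤ 2
  Pol_hom : ∀ t j, (G.Pol t j).IsHomogeneous (G.m j)
  Pol_supp : ∀ t j (y y' : G.ι → ℂ), (∀ i ∈ G.supp t, y i = y' i) → MvPolynomial.eval y (G.Pol t j) = MvPolynomial.eval y' (G.Pol t j)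
  res : ∃ C : ℝ, 0 ≤ C ∧ ∀ x ∈ G.K, (∀ i, i ∉ G.supp (G.ty x) → G.lam i x ≤ C) ∧ ∀ j v, Tan G.X x v →
    ‖G.w j x v - MvPolynomial.eval (fun i => G.ell i x v) (G.Pol (G.ty x) j)‖ ≤ C * fs x v * G.L x v ^ (G.m j - 1)
  -- the sections
  one_mΩ : 1 ≤ G.mΩ
  one_jΩ : 1 ≤ G.jΩ
  form : ∀ a, IsForm G.K G.mΩ G.jΩ (G.Ω a)
  Ω_ne : ∀ x ∈ G.K, ∃ a, ∀ v w, Tan G.X x v → Tan G.X x w → LinearIndependent ℂ ![x, v, w] → G.Ω a x v w ≠ 0
  Ω_le : ∃ C : ℝ, 0 ≤ C ∧ ∀ a, ∀ x ∈ G.K, G.p x = 1 → ∀ v w, Tan G.X x v → Tan G.X x w →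
    ‖G.Ω a x v w‖ ≤ C * G.L x v ^ G.mΩ * G.L x w ^ G.mΩ / ‖x‖ ^ G.jΩ
  /-- an entire curve in the boundary which is, locally and up to units, a limit of entire curves in `K` is constant -/
  h1 : ∀ (𝒰 : Ultrafilter ℕ), (𝒰 : Filter ℕ) ≤ atTop → ∀ (F : ℕ → ℂ → EN N) (H : ℂ → EN N), (∀ k, Differentiable ℂ (F k)) → (∀ k z, F k z ∈ G.K) →
    Differentiable ℂ H → (∀ z, H z ∈ G.X ∧ H z ∉ G.K) →
    (∀ z, ∃ r : ℝ, 0 < r ∧ ∃ u : ℕ → ℂ → ℂ, (∀ᶠ k in (𝒰 : Filter ℕ), DifferentiableOn ℂ (u k) (ball z r) ∧ ∀ w ∈ ball z r, u k w ≠ 0) ∧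
      TendstoLocallyUniformlyOn (fun k w => u k w • F k w) H 𝒰 (ball z r)) → ∀ z z', ∃ c : ℂ, H z = c • H z'
  /-- the affine surface contains no affine line -/
  na : ∀ F : ℂ → EN N, Differentiable ℂ F → (∀ z, F z ∈ G.K) → Nm G.P F → (∃ (C : ℝ) (k : ℕ), ∀ z, ‖F z‖ ≤ C * (1 + ‖z‖) ^ k) →
    ∀ z z', F z = F z'

/-- A metric along the entire curves in `K` which do not lie in `T`; without error where `rho < δ`. -/
structure Met (T : Set (EN N)) (rho : EN N → ℝ) (M : ℕ) (c₀ C δ : ℝ) (g : (ℂ → EN N) → ℂ → ℝ) : Prop where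
  en : EnergyK G.X G.K T (fun x => ‖x‖) rho M c₀ C g
  pos : 0 < δ
  near : Near G.K T (fun x => ‖x‖) rho c₀ g δ
  TX : T ⊆ G.X
  Ts : ∀ x ∈ T, ∀ c : ℂ, c ≠ 0 → c • x ∈ T
  KT : ∀ x ∈ G.X, x ∉ G.K → x ∈ T
  rho0 : ∀ x ∈ G.X, 0 ≤ rho x
  rhoT : ∀ x ∈ G.X, (rho x = 0 ↔ x ∈ T)
  rhoc : ContinuousOn rho G.X
  rhos : ∀ x ∈ G.X, ∀ c : ℂ, c ≠ 0 → rho (c • x) = rho x
  Ti : ∀ F : ℂ → EN N, Differentiable ℂ F → (∀ z, F z ∈ G.X) → (∃ z, F z ∉ T) → ∀ z₀, ∀ᶠ z in 𝓝[≠] z₀, F z ∉ T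
  null : ∀ F : ℂ → EN N, Differentiable ℂ F → (∀ z, F z ∈ G.K) → OrdTwo F → (∀ z, G.n (F z) (deriv F z) = 0) →
    (∀ z, F z ∈ T) ∨ ∀ z w, ∃ c : ℂ, F z = c • F w

/-- `T` is null in a quantitative sense: a disc in the bounded part of `K` which is close to `T` has a small constant length. -/
def QN (rho : EN N → ℝ) : Prop :=
  ∀ B : ℝ, ∃ C α : ℝ, 0 ≤ C ∧ 0 < α ∧ ∀ (φ : ℂ → EN N) (q : G.J → ℂ) (ε : ℝ), 0 < ε → ε ≤ 1 → DifferentiableOn ℂ φ (ball 0 1) →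
    (∀ z ∈ ball (0 : ℂ) 1, φ z ∈ G.K ∧ G.p (φ z) = 1 ∧ ‖φ z‖ ≤ B ∧ rho (φ z) ≤ ε) →
    (∀ j, ∀ z ∈ ball (0 : ℂ) 1, G.w j (φ z) (deriv φ z) = q j) → G.nq q ≤ C * ε ^ α

/-- The class: normalised entire curves in `K`, not contained in `T`, on which the forms have constant values `q`, of length one. -/
structure Cl (T : Set (EN N)) (q : G.J → ℂ) (F : ℂ → EN N) : Prop where
  ent : Ent G.K T F
  nm : ∀ z, G.p (F z) = 1
  val : ∀ j z, G.w j (F z) (deriv F z) = q j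
  one : G.nq q = 1

/-- the good points of the curve `F` -/
def Gd (rho : EN N → ℝ) (δ : ℝ) (F : ℂ → EN N) : Set ℂ := {z | δ ≤ rho (F z)}

end Geo

/-- the distance of `z` to the line through `a` with the normal `u`, with sign -/
def yy (u a z : ℂ) : ℝ := (star u * (z - a)).re

/-- the function which is `β y` on the side `y ≥ 0` of the line and `β' |y|` on the other side -/
def lin (u a : ℂ) (β β' : ℝ) (z : ℂ) : ℝ := β * max (yy u a z) 0 + β' * max (-yy u a z) 0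

/-- `(2 + r) ^ γ` -/
def pw (γ r : ℝ) : ℝ := (2 + r) ^ γ

/-- Along `F` the boundary functions `lam i` are at distance at most `ε` from the functions `lin u a (β i) (β' i)` at the points of `s`. -/
def Geo.Fits {N : ℕ} (G : Geo N) (F : ℂ → EN N) (a u : ℂ) (β β' : G.ι → ℝ) (ε : ℂ → ℝ) (s : Set ℂ) : Prop :=
  ‖u‖ = 1 ∧ (∀ i, 0 ≤ β i ∧ 0 ≤ β' i) ∧ ∀ z ∈ s, ∀ i, |G.lam i (F z) - lin u a (β i) (β' i) z| ≤ ε z

/-- the hypotheses of the function theory, for the first curve `T` -/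
structure Base {N : ℕ} (G : Geo N) (T : Set (EN N)) (rho : EN N → ℝ) (M : ℕ) (c₀ C δ : ℝ) (g : (ℂ → EN N) → ℂ → ℝ) : Prop where
  ok : G.Ok
  met : G.Met T rho M c₀ C δ g
  qn : G.QN rho

end Pool.Agent.SR2
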