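import Pool.Agent.SR2.EBas

/-!
# SR2 EChain: the quotients `lam x i / S x` at two points far from the line

The vertical chain of the heights `y, 2 y, 4 y, .., R`, then the horizontal step to `a + R u`.
-/

set_option autoImplicit false

open Topology Filter Metric Complex InnerProductSpace Laplacian

noncomputable section

namespace Pool.Agent.SR2.BE

variable {X ι : Type} [Fintype ι] {Φ : Fam X ι} {C c R₀ A c₂ C₂ R₂ : ℝ}

private theorem ht_coord {u : ℂ} (hu : ‖u‖ = 1) (a w : ℂ) : ht u a (a + w * u) = w.re := by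
  unfold ht
  have h1 : star u * u = 1 := by
    show (starRingEnd ℂ) u * u = 1
    rw [← Complex.normSq_eq_conj_mul_self, Complex.normSq_eq_norm_sq, hu]
    norm_num
  have h2 : star u * (a + w * u - a) = w * (star u * u) := by ring
  rw [h2, h1, mul_one]

/-- one step -/
private theorem chain_step (hΦ : Hyp Φ C c R₀) (hD : Dep Φ A c₂ C₂ R₂) {x : X} {a : ℂ} (ha : a ∈ Φ.G x) {R e : ℝ} {u : ℂ} {β β' : ι → ℝ} (hR : 1 ≤ R)
    (hfit : Fit Φ x a (4 * R) e A u β β') {h B : ℝ} (hh : R₂ ≤ h) (he : e ≤ c₂ * h) (hO : ∀ r, h ≤ r → OscLe Φ (c₂ / (2 * C₂ + 1)) r B) (i : ι) {p q : ℂ}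
    {y : ℝ} (hy : h ≤ y) (hp : p ∈ closedBall a (4 * R)) (hq : q ∈ closedBall a (4 * R)) (hpy : ht u a p = y) (hqy : y ≤ ht u a q) (hpq : ‖q - p‖ ≤ y) :
    |Φ.lam x i p / Φ.S x p - Φ.lam x i q / Φ.S x q| ≤ B := by
  have hR2 := hD.R_ge
  have hc2 := hD.c_pos
  have hC2 := hD.C_ge
  have hy0 : 0 < y := by linarith
  have h4R : 1 ≤ 4 * R := by linarith
  have hdep : ∀ w ∈ closedBall a (4 * R), y ≤ ht u a w → c₂ * |ht u a w| ≤ Φ.d x w ∧ Φ.d x w ≤ C₂ * |ht u a w| := by
    intro w hw hyw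
    have h1 : y ≤ |ht u a w| := hyw.trans (le_abs_self _)
    refine hD.dep x a (4 * R) e u β β' ha h4R hfit w hw (by linarith) ?_
    have h2 : c₂ * h ≤ c₂ * |ht u a w| := mul_le_mul_of_nonneg_left (hy.trans h1) hc2.le
    linarith
  have h1 := (hdep p hp hpy.ge).2
  rw [hpy, abs_of_pos hy0] at h1
  obtain ⟨b, hb, hpb⟩ := good_near hΦ (x := x) (z := p) (r := 2 * C₂ * y) (by nlinarith)
  have hr : h ≤ (2 * C₂ + 1) * y := by nlinarith
  refine hO _ hr x b hb p ?_ q ?_ (fun w hw => ?_) i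
  · rw [mem_closedBall, dist_eq_norm]
    nlinarith
  · rw [mem_closedBall, dist_eq_norm]
    have h2 : q - b = (q - p) + (p - b) := by ring
    rw [h2]
    refine (norm_add_le _ _).trans ?_
    nlinarith
  · have h2 : w ∈ closedBall a (4 * R) ∩ {z | y ≤ ht u a z} :=
      (convex_top u a (4 * R) y).segment_subset ⟨hp, hpy.ge⟩ ⟨hq, hqy⟩ hw
    have h3 := (hdep w h2.1 h2.2).1
    have h4 : c₂ / (2 * C₂ + 1) * ((2 * C₂ + 1) * y) = c₂ * y := by
      field_simp
    rw [h4]
    refine le_trans ?_ h3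
    exact mul_le_mul_of_nonneg_left (h2.2.trans (le_abs_self _)) hc2.le

/-- MODULE Chain.  The vertical chain `z`, `z + y u`, `z + 3 y u`, .. of heights `y, 2 y, 4 y, .., R`, then the horizontal step to `a + R u`; each step is
admissible in `OscLe` at the scale `(2 C₂ + 1) y_j` about a good point at distance `≤ 2 d (z_j)`. -/
theorem chain (hΦ : Hyp Φ C c R₀) (hD : Dep Φ A c₂ C₂ R₂) (_hR₂ : R₀ ≤ R₂) {x : X} {a : ℂ} (ha : a ∈ Φ.G x) {R e : ℝ} {u : ℂ} {β β' : ι → ℝ} (hR : 1 ≤ R)
    (hfit : Fit Φ x a (4 * R) e A u β β') {h B : ℝ} (hh : R₂ ≤ h) (he : e ≤ c₂ * h) (hB : 0 ≤ B)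
    (hO : ∀ r, h ≤ r → OscLe Φ (c₂ / (2 * C₂ + 1)) r B) {z : ℂ} (hz : z ∈ closedBall a R) (hz' : h ≤ ht u a z) (i : ι) :
    |Φ.lam x i z / Φ.S x z - Φ.lam x i (a + R * u) / Φ.S x (a + R * u)| ≤ (3 + 2 * Real.log (R / ht u a z)) * B := by
  have hu := hfit.nu
  have hR2 := hD.R_ge
  have hmem : ∀ y t : ℝ, 0 ≤ y → y ≤ R → |t| ≤ R → a + ((y : ℂ) + t * I) * u ∈ closedBall a (4 * R) := by
    intro y t hy hyR ht
    rw [mem_closedBall, dist_eq_norm, add_sub_cancel_left, norm_mul, hu, mul_one]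
    refine (norm_add_le _ _).trans ?_
    rw [norm_mul, Complex.norm_I, mul_one, Complex.norm_real, Complex.norm_real, Real.norm_of_nonneg hy, Real.norm_eq_abs]
    linarith
  have hht : ∀ y t : ℝ, ht u a (a + ((y : ℂ) + t * I) * u) = y := fun y t => by
    rw [ht_coord hu]
    simp
  have key : ∀ n : ℕ, ∀ y t : ℝ, h ≤ y → y ≤ R → |t| ≤ R → R ≤ 2 ^ (n + 1) * y →
      |Φ.lam x i (a + ((y : ℂ) + t * I) * u) / Φ.S x (a + ((y : ℂ) + t * I) * u) - Φ.lam x i (a + R * u) / Φ.S x (a + R * u)| ≤ (n + 2) * B := by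
    -- the last two steps
    have hlast : ∀ y t : ℝ, h ≤ y → y ≤ R → |t| ≤ R → R ≤ 2 * y →
        |Φ.lam x i (a + ((y : ℂ) + t * I) * u) / Φ.S x (a + ((y : ℂ) + t * I) * u) - Φ.lam x i (a + R * u) / Φ.S x (a + R * u)| ≤ 2 * B := by
      intro y t hy hyR ht h2y
      have hy0 : 0 < y := by linarith
      have h1 := chain_step hΦ hD ha hR hfit hh he hO i (p := a + ((y : ℂ) + t * I) * u) (q := a + ((R : ℂ) + t * I) * u) hy
        (hmem y t hy0.le hyR ht) (hmem R t (by linarith) le_rfl ht) (hht y t) (by rw [hht]; exact hyR) (by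
          have e1 : a + ((R : ℂ) + t * I) * u - (a + ((y : ℂ) + t * I) * u) = ((R - y : ℝ) : ℂ) * u := by push_cast; ring
          rw [e1, norm_mul, hu, mul_one, Complex.norm_real, Real.norm_of_nonneg (by linarith)]
          linarith)
      have e0 : a + ((R : ℂ) + (0 : ℝ) * I) * u = a + R * u := by push_cast; ring
      have h2 := chain_step hΦ hD ha hR hfit hh he hO i (p := a + ((R : ℂ) + t * I) * u) (q := a + ((R : ℂ) + (0 : ℝ) * I) * u) (hy.trans hyR)
        (hmem R t (by linarith) le_rfl ht) (hmem R 0 (by linarith) le_rfl (by rw [abs_zero]; linarith)) (hht R t) (by rw [hht]) (by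
          have e1 : a + ((R : ℂ) + (0 : ℝ) * I) * u - (a + ((R : ℂ) + t * I) * u) = ((-t : ℝ) : ℂ) * I * u := by push_cast; ring
          rw [e1, norm_mul, norm_mul, hu, mul_one, Complex.norm_I, mul_one, Complex.norm_real, Real.norm_eq_abs, abs_neg]
          exact ht)
      rw [e0] at h2
      have h3 := abs_add_le (Φ.lam x i (a + ((y : ℂ) + t * I) * u) / Φ.S x (a + ((y : ℂ) + t * I) * u) -
        Φ.lam x i (a + ((R : ℂ) + t * I) * u) / Φ.S x (a + ((R : ℂ) + t * I) * u))
        (Φ.lam x i (a + ((R : ℂ) + t * I) * u) / Φ.S x (a + ((R : ℂ) + t * I) * u) - Φ.lam x i (a + R * u) / Φ.S x (a + R * u))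
      rw [sub_add_sub_cancel] at h3
      linarith
    intro n
    induction n with
    | zero =>
      intro y t hy hyR ht h2y
      have := hlast y t hy hyR ht (by simpa using h2y)
      simpa using this
    | succ n ih =>
      intro y t hy hyR ht h2y
      by_cases h2 : R ≤ 2 * y
      · refine (hlast y t hy hyR ht h2).trans ?_
        refine mul_le_mul_of_nonneg_right ?_ hB
        push_cast
        have : (0 : ℝ) ≤ n := Nat.cast_nonneg n
        linarith
      · push Not at h2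
        have hy0 : 0 < y := by linarith
        have h1 := chain_step hΦ hD ha hR hfit hh he hO i (p := a + ((y : ℂ) + t * I) * u) (q := a + (((2 * y : ℝ) : ℂ) + t * I) * u) hy
          (hmem y t hy0.le hyR ht) (hmem (2 * y) t (by linarith) h2.le ht) (hht y t) (by rw [hht]; linarith) (by
            have e1 : a + (((2 * y : ℝ) : ℂ) + t * I) * u - (a + ((y : ℂ) + t * I) * u) = (y : ℂ) * u := by push_cast; ring
            rw [e1, norm_mul, hu, mul_one, Complex.norm_real, Real.norm_of_nonneg hy0.le])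
        have h3 := ih (2 * y) t (by linarith) h2.le ht (by
          have e1 : (2 : ℝ) ^ (n + 1 + 1) * y = 2 ^ (n + 1) * (2 * y) := by ring
          rw [← e1]
          exact h2y)
        have h4 := abs_add_le (Φ.lam x i (a + ((y : ℂ) + t * I) * u) / Φ.S x (a + ((y : ℂ) + t * I) * u) -
          Φ.lam x i (a + (((2 * y : ℝ) : ℂ) + t * I) * u) / Φ.S x (a + (((2 * y : ℝ) : ℂ) + t * I) * u))
          (Φ.lam x i (a + (((2 * y : ℝ) : ℂ) + t * I) * u) / Φ.S x (a + (((2 * y : ℝ) : ℂ) + t * I) * u) - Φ.lam x i (a + R * u) / Φ.S x (a + R * u))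
        rw [sub_add_sub_cancel] at h4
        have e2 : ((n + 1 : ℕ) + 2 : ℝ) * B = B + (n + 2) * B := by push_cast; ring
        rw [e2]
        linarith
  -- the coordinates of `z`
  have h1u : star u * u = 1 := by
    show (starRingEnd ℂ) u * u = 1
    rw [← Complex.normSq_eq_conj_mul_self, Complex.normSq_eq_norm_sq, hu]
    norm_num
  have hz1 : ‖z - a‖ ≤ R := by
    rw [← dist_eq_norm]
    exact hz
  set w : ℂ := star u * (z - a) with hw
  have hzw : z = a + ((w.re : ℂ) + w.im * I) * u := by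
    rw [Complex.re_add_im, hw]
    have : star u * (z - a) * u = (z - a) * (star u * u) := by ring
    rw [this, h1u]
    ring
  have hwn : ‖w‖ ≤ R := by
    rw [hw, norm_mul, norm_star, hu, one_mul]
    exact hz1
  have hwre : ht u a z = w.re := rfl
  have hy : h ≤ w.re := by rw [← hwre]; exact hz'
  have hy0 : 0 < w.re := by linarith
  have hyR : w.re ≤ R := (Complex.re_le_norm w).trans hwn
  have him : |w.im| ≤ R := (Complex.abs_im_le_norm w).trans hwn
  have hq1 : 1 ≤ R / w.re := by rwa [one_le_div hy0]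
  have hlog0 : 0 ≤ Real.log (R / w.re) := Real.log_nonneg hq1
  have hlog2 : 1 / 2 < Real.log 2 := by
    have := Real.log_two_gt_d9
    linarith
  have hl2 : 0 < Real.log 2 := by linarith
  set n : ℕ := ⌊Real.log (R / w.re) / Real.log 2⌋₊ with hn
  have hn1 : (n : ℝ) ≤ Real.log (R / w.re) / Real.log 2 := Nat.floor_le (by positivity)
  have hn2 : Real.log (R / w.re) / Real.log 2 < n + 1 := Nat.lt_floor_add_one _
  have hRn : R ≤ 2 ^ (n + 1) * w.re := by
    rw [div_lt_iff₀ hl2] at hn2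
    have h1 : Real.log (R / w.re) < Real.log (2 ^ (n + 1)) := by
      rw [Real.log_pow]
      push_cast
      exact hn2
    have h2 := (Real.log_lt_log_iff (by positivity) (by positivity)).1 h1
    rw [div_lt_iff₀ hy0] at h2
    exact h2.le
  have hfin := key n w.re w.im hy hyR him hRn
  rw [← hzw] at hfin
  rw [hwre]
  refine hfin.trans (mul_le_mul_of_nonneg_right ?_ hB)
  have h3 : Real.log (R / w.re) / Real.log 2 ≤ 2 * Real.log (R / w.re) := by
    rw [div_le_iff₀ hl2]
    nlinarith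
  linarith

end Pool.Agent.SR2.BE
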