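import Pool.Agent.SR2.EDefs

/-!
# SR2 ECov: the diameter of a connected set with a small cover; points near the roots of `s ^ m = p`
-/

set_option autoImplicit false

open Topology Filter Metric Complex InnerProductSpace Laplacian

noncomputable section

namespace Pool.Agent.SR2.BE

/-- A connected set which is covered by `n` closed discs of radius `e` has diameter at most `2 n e`. -/
theorem cover_diam {s : Set ℂ} (hs : IsPreconnected s) (t : Finset ℂ) {e : ℝ} (he : 0 ≤ e) (h : ∀ z ∈ s, ∃ c ∈ t, ‖z - c‖ ≤ e) :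
    ∀ z ∈ s, ∀ z' ∈ s, ‖z - z'‖ ≤ 2 * t.card * e := by
  intro z hz z' hz'
  have hf : Continuous fun w : ℂ => ‖w - z‖ := by fun_prop
  have h1 : IsPreconnected ((fun w : ℂ => ‖w - z‖) '' s) := hs.image _ hf.continuousOn
  have h2 : Set.Icc (0 : ℝ) ‖z' - z‖ ⊆ (fun w : ℂ => ‖w - z‖) '' s :=
    h1.Icc_subset ⟨z, hz, by simp⟩ ⟨z', hz', rfl⟩
  have h3 : Set.Icc (0 : ℝ) ‖z' - z‖ ⊆ ⋃ c ∈ t, Set.Icc (‖c - z‖ - e) (‖c - z‖ + e) := by
    intro x hx
    obtain ⟨w, hw, rfl⟩ := h2 hx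
    obtain ⟨c, hc, hwc⟩ := h w hw
    simp only [Set.mem_iUnion]
    refine ⟨c, hc, ?_, ?_⟩
    · have h4 : ‖c - z‖ ≤ ‖w - z‖ + ‖w - c‖ := by
        have h5 : c - z = (w - z) - (w - c) := by ring
        rw [h5]
        exact norm_sub_le _ _
      show ‖c - z‖ - e ≤ ‖w - z‖
      linarith
    · have h4 : ‖w - z‖ ≤ ‖c - z‖ + ‖w - c‖ := by
        have h5 : w - z = (c - z) + (w - c) := by ring
        rw [h5]
        exact norm_add_le _ _
      show ‖w - z‖ ≤ ‖c - z‖ + e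
      linarith
  have h4 := MeasureTheory.measure_mono (μ := MeasureTheory.volume) h3
  have h5 := h4.trans (MeasureTheory.measure_biUnion_finset_le t _)
  have h6 : ∀ c ∈ t, MeasureTheory.volume (Set.Icc (‖c - z‖ - e) (‖c - z‖ + e)) = ENNReal.ofReal (2 * e) := by
    intro c _
    rw [Real.volume_Icc]
    congr 1
    ring
  rw [Finset.sum_congr rfl h6, Real.volume_Icc, sub_zero, Finset.sum_const, nsmul_eq_mul, ← ENNReal.ofReal_natCast,
    ← ENNReal.ofReal_mul (by positivity), ENNReal.ofReal_le_ofReal_iff (by positivity)] at h5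
  rw [norm_sub_rev]
  linarith

/-- `∏ (s - r) = s ^ m - p` over the `m`-th roots `r` of `p`. -/
theorem near_root {m : ℕ} (hm : 1 ≤ m) (p : ℂ) : ∃ t : Finset ℂ, t.card ≤ m ∧ ∀ (s : ℂ) (e : ℝ), 0 ≤ e → ‖s ^ m - p‖ ≤ e ^ m → ∃ r ∈ t, ‖s - r‖ ≤ e := by
  obtain ⟨r₀, hr₀⟩ := IsAlgClosed.exists_pow_nat_eq p (show 0 < m by omega)
  have hprim := Complex.isPrimitiveRoot_exp m (by omega)
  refine ⟨(Polynomial.nthRootsFinset m (1 : ℂ)).image fun ζ => ζ * r₀, ?_, ?_⟩
  · exact Finset.card_image_le.trans (le_of_eq hprim.card_nthRootsFinset)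
  · intro s e he hs
    rw [← hr₀, hprim.pow_sub_pow_eq_prod_sub_mul s r₀ (by omega), norm_prod] at hs
    by_contra hcon
    push Not at hcon
    have h1 : ∀ ζ ∈ Polynomial.nthRootsFinset m (1 : ℂ), e < ‖s - ζ * r₀‖ := fun ζ hζ => hcon _ (Finset.mem_image_of_mem _ hζ)
    have h2 : e ^ m = ∏ _ζ ∈ Polynomial.nthRootsFinset m (1 : ℂ), e := by
      rw [Finset.prod_const, hprim.card_nthRootsFinset]
    rcases he.eq_or_lt with h0 | h0
    · rw [← h0, zero_pow (by omega)] at hs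
      exact absurd (Finset.prod_pos fun ζ hζ => he.trans_lt (h1 ζ hζ)) (not_lt.2 hs)
    · rw [h2] at hs
      have hne : (Polynomial.nthRootsFinset m (1 : ℂ)).Nonempty := by
        rw [← Finset.card_pos, hprim.card_nthRootsFinset]
        omega
      exact absurd (Finset.prod_lt_prod_of_nonempty (fun _ _ => h0) h1 hne) (not_lt.2 hs)

end Pool.Agent.SR2.BE
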