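import Pool.Agent.SDR.HarmD

/-!
# SR2 EDefs: block E, definitions (pure function theory, no geometry)

A family of tuples `lam x i : ℂ → ℝ` with the sets `G x` of good points; `d x z` = distance to `G x`, `S x = ∑ lam x i`.
-/

set_option autoImplicit false

open Topology Filter Metric Complex InnerProductSpace Laplacian

noncomputable section

namespace Pool.Agent.SR2.BE

open Pool.Agent.SDR (gc)

/-- the distance of `z` to the line through `a` with the normal `u`, with sign -/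
def ht (u a z : ℂ) : ℝ := (star u * (z - a)).re

/-- the function which is `β y` on the side `y ≥ 0` of the line and `β' |y|` on the other side -/
def vee (u a : ℂ) (β β' : ℝ) (z : ℂ) : ℝ := β * max (ht u a z) 0 + β' * max (-ht u a z) 0

/-- the data -/
structure Fam (X ι : Type) where
  lam : X → ι → ℂ → ℝ
  G : X → Set ℂ

/-- the distance to the good points -/
def Fam.d {X ι : Type} (Φ : Fam X ι) (x : X) (z : ℂ) : ℝ := infDist z (Φ.G x)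

variable {X ι : Type} [Fintype ι]

/-- the sum of the functions -/
def Fam.S (Φ : Fam X ι) (x : X) (z : ℂ) : ℝ := ∑ i, Φ.lam x i z

/-- the hypotheses -/
structure Hyp (Φ : Fam X ι) (C c R₀ : ℝ) : Prop where
  C_ge : 1 ≤ C
  c_pos : 0 < c
  R_ge : 1 ≤ R₀
  ne : ∀ x, (Φ.G x).Nonempty
  nn : ∀ x i z, 0 ≤ Φ.lam x i z
  up : ∀ x i z, Φ.lam x i z ≤ C * (1 + Φ.d x z)
  low : ∀ x z, R₀ ≤ Φ.d x z → c * Φ.d x z ≤ Φ.S x z
  c2 : ∀ x i z, R₀ ≤ Φ.d x z → ContDiffAt ℝ 2 (Φ.lam x i) z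
  lap : ∀ x i z, R₀ ≤ Φ.d x z → |Δ (Φ.lam x i) z| ≤ C / Φ.d x z ^ 2

/-- on the disc with center `a` and radius `R` the functions `lam x i` are at distance at most `e` from the functions `vee u a (β i) (β' i)` -/
structure Fit (Φ : Fam X ι) (x : X) (a : ℂ) (R e A : ℝ) (u : ℂ) (β β' : ι → ℝ) : Prop where
  nu : ‖u‖ = 1
  nβ : ∀ i, 0 ≤ β i
  nβ' : ∀ i, 0 ≤ β' i
  Aβ : A ≤ ∑ i, β i
  Aβ' : A ≤ ∑ i, β' i
  fit : ∀ z ∈ closedBall a R, ∀ i, |Φ.lam x i z - vee u a (β i) (β' i) z| ≤ e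

/-- comparison of depth and height -/
structure Dep (Φ : Fam X ι) (A c₂ C₂ R₂ : ℝ) : Prop where
  c_pos : 0 < c₂
  c_le : c₂ ≤ 1
  C_ge : 1 ≤ C₂
  R_ge : 1 ≤ R₂
  dep : ∀ (x : X) (a : ℂ) (R e : ℝ) (u : ℂ) (β β' : ι → ℝ), a ∈ Φ.G x → 1 ≤ R → Fit Φ x a R e A u β β' → ∀ z ∈ closedBall a R,
    R₂ ≤ |ht u a z| → e ≤ c₂ * |ht u a z| → c₂ * |ht u a z| ≤ Φ.d x z ∧ Φ.d x z ≤ C₂ * |ht u a z|
  het : ∀ (x : X) (a : ℂ) (R e : ℝ) (u : ℂ) (β β' : ι → ℝ), a ∈ Φ.G x → 1 ≤ R → Fit Φ x a R e A u β β' → ∀ z ∈ closedBall a R,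
    R₂ ≤ Φ.d x z → e ≤ c₂ * Φ.d x z → c₂ * Φ.d x z ≤ |ht u a z|

/-- the oscillation of the quotients `lam x i / S x` at the scale `r` and depth at least `κ r` is at most `B` -/
def OscLe (Φ : Fam X ι) (κ r B : ℝ) : Prop :=
  ∀ (x : X) (a : ℂ), a ∈ Φ.G x → ∀ z ∈ closedBall a r, ∀ z' ∈ closedBall a r, (∀ w ∈ segment ℝ z z', κ * r ≤ Φ.d x w) →
    ∀ i, |Φ.lam x i z / Φ.S x z - Φ.lam x i z' / Φ.S x z'| ≤ B

/-- flatness at all large scales -/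
def AllFlat (Φ : Fam X ι) (A : ℝ) : Prop :=
  ∀ η : ℝ, 0 < η → ∃ R₁ : ℝ, ∀ (x : X) (a : ℂ), a ∈ Φ.G x → ∀ R : ℝ, R₁ ≤ R → ∃ u β β', Fit Φ x a R (η * R) A u β β'

/-- the relation between the gradients: one of finitely many homogeneous polynomials has a fixed value -/
structure Rel (Φ : Fam X ι) (C R₀ cq : ℝ) {J Ty : Type} (m : J → ℕ) (Pol : Ty → J → MvPolynomial ι ℂ) (q : X → J → ℂ) : Prop where
  one : ∀ j, 1 ≤ m j
  hom : ∀ t j, (Pol t j).IsHomogeneous (m j)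
  pos : 0 < cq
  exj : ∀ x, ∃ j, cq ≤ ‖q x j‖
  rel : ∀ x j z, R₀ ≤ Φ.d x z → ∃ t, ‖MvPolynomial.eval (fun i => gc (Φ.lam x i) z) (Pol t j) - q x j‖ ≤ C / Φ.d x z

/-- On the disc of radius `R` at `a`, at height at least `δ R`, the functions are affine up to `e`, with proportional linear parts. -/
def TopAff (Φ : Fam X ι) (x : X) (a : ℂ) (R δ e : ℝ) (u : ℂ) (t : ι → ℝ) (k : ℂ) (b : ι → ℝ) : Prop :=
  (∀ i, 0 ≤ t i) ∧ ∑ i, t i = 1 ∧ ∀ z ∈ closedBall a R, δ * R ≤ ht u a z → ∀ i, |Φ.lam x i z - (t i * (k * (z - a)).re + b i)| ≤ e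

theorem Fit.mono {Φ : Fam X ι} {x : X} {a : ℂ} {R R' e e' A A' : ℝ} {u : ℂ} {β β' : ι → ℝ} (h : Fit Φ x a R e A u β β') (hR : R' ≤ R) (he : e ≤ e')
    (hA : A' ≤ A) : Fit Φ x a R' e' A' u β β' :=
  ⟨h.nu, h.nβ, h.nβ', hA.trans h.Aβ, hA.trans h.Aβ', fun z hz i => (h.fit z (closedBall_subset_closedBall hR hz) i).trans he⟩

theorem OscLe.mono {Φ : Fam X ι} {κ r B B' : ℝ} (h : OscLe Φ κ r B) (hB : B ≤ B') : OscLe Φ κ r B' :=
  fun x a ha z hz z' hz' hw i => (h x a ha z hz z' hz' hw i).trans hB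

theorem AllFlat.mono {Φ : Fam X ι} {A A' : ℝ} (h : AllFlat Φ A) (hA : A' ≤ A) : AllFlat Φ A' := by
  intro η hη
  obtain ⟨R₁, h1⟩ := h η hη
  refine ⟨R₁, fun x a ha R hR => ?_⟩
  obtain ⟨u, β, β', h2⟩ := h1 x a ha R hR
  exact ⟨u, β, β', h2.mono le_rfl le_rfl hA⟩

theorem TopAff.mono {Φ : Fam X ι} {x : X} {a : ℂ} {R δ δ' e e' : ℝ} {u : ℂ} {t : ι → ℝ} {k : ℂ} {b : ι → ℝ} (h : TopAff Φ x a R δ e u t k b)
    (hδ : δ * R ≤ δ' * R) (he : e ≤ e') : TopAff Φ x a R δ' e' u t k b :=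
  ⟨h.1, h.2.1, fun z hz hz' i => (h.2.2 z hz (hδ.trans hz') i).trans he⟩

theorem ht_neg (u a z : ℂ) : ht (-u) a z = - ht u a z := by
  unfold ht
  rw [star_neg, neg_mul, Complex.neg_re]

theorem vee_neg (u a : ℂ) (β β' : ℝ) (z : ℂ) : vee (-u) a β' β z = vee u a β β' z := by
  unfold vee
  rw [ht_neg, neg_neg]
  ring

theorem abs_ht_le {u : ℂ} (hu : ‖u‖ = 1) (a z : ℂ) : |ht u a z| ≤ ‖z - a‖ := by
  unfold ht
  refine (Complex.abs_re_le_norm _).trans ?_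
  rw [norm_mul, norm_star, hu, one_mul]

theorem ht_add {u : ℂ} (hu : ‖u‖ = 1) (a : ℂ) (z : ℂ) (r : ℝ) : ht u a (z + r * u) = ht u a z + r := by
  unfold ht
  have h1 : star u * u = 1 := by
    show (starRingEnd ℂ) u * u = 1
    rw [← Complex.normSq_eq_conj_mul_self, Complex.normSq_eq_norm_sq, hu]
    norm_num
  have h2 : star u * (z + r * u - a) = star u * (z - a) + r * (star u * u) := by ring
  rw [h2, h1]
  simp

end Pool.Agent.SR2.BE
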