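import Pool.Agent.SR2.EAff

/-!
# SR2 ELim: the limit of the data at the scales `2^n R'`
-/

set_option autoImplicit false

open Topology Filter Metric Complex InnerProductSpace Laplacian

noncomputable section

namespace Pool.Agent.SR2.BE

open Pool.Agent.SDR (gc)

variable {X ι : Type} [Fintype ι] {Φ : Fam X ι} {C c R₀ A : ℝ}

private theorem el_flip {x : X} {a : ℂ} {R e : ℝ} {u : ℂ} {β β' : ι → ℝ} (h : Fit Φ x a R e A u β β') : Fit Φ x a R e A (-u) β' β := by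
  refine ⟨by rw [norm_neg, h.nu], h.nβ', h.nβ, h.Aβ', h.Aβ, fun z hz i => ?_⟩
  rw [vee_neg]
  exact h.fit z hz i

private theorem el_ht_sub (u u' a z : ℂ) : |ht u a z - ht u' a z| ≤ ‖u - u'‖ * ‖z - a‖ := by
  have h1 : ht u a z - ht u' a z = (star (u - u') * (z - a)).re := by
    unfold ht
    rw [← Complex.sub_re, star_sub, sub_mul]
  rw [h1]
  refine (Complex.abs_re_le_norm _).trans ?_
  rw [norm_mul, norm_star]

private theorem el_max {s t : ℝ} : |max s 0 - max t 0| ≤ |s - t| := by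
  have := abs_max_sub_max_le_max s 0 t 0
  simpa using this

/-- the difference of two functions `vee` -/
private theorem el_vee {u u' a : ℂ} (hu : ‖u‖ = 1) {β β' γ γ' : ℝ} (hγ : 0 ≤ γ) (hγ' : 0 ≤ γ') (z : ℂ) :
    |vee u a β β' z - vee u' a γ γ' z| ≤ (|β - γ| + |β' - γ'| + (γ + γ') * ‖u - u'‖) * ‖z - a‖ := by
  have h0 := abs_ht_le hu a z
  have hn := norm_nonneg (z - a)
  have h1 : |max (ht u a z) 0| ≤ ‖z - a‖ := by
    rw [abs_of_nonneg (le_max_right _ _)]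
    exact max_le ((le_abs_self _).trans h0) hn
  have h2 : |max (-ht u a z) 0| ≤ ‖z - a‖ := by
    rw [abs_of_nonneg (le_max_right _ _)]
    exact max_le ((neg_le_abs _).trans h0) hn
  have h3 : |max (ht u a z) 0 - max (ht u' a z) 0| ≤ ‖u - u'‖ * ‖z - a‖ := el_max.trans (el_ht_sub u u' a z)
  have h4 : |max (-ht u a z) 0 - max (-ht u' a z) 0| ≤ ‖u - u'‖ * ‖z - a‖ := by
    refine el_max.trans ?_
    have : -ht u a z - -ht u' a z = -(ht u a z - ht u' a z) := by ring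
    rw [this, abs_neg]
    exact el_ht_sub u u' a z
  have e : vee u a β β' z - vee u' a γ γ' z = (β - γ) * max (ht u a z) 0 + γ * (max (ht u a z) 0 - max (ht u' a z) 0) +
      ((β' - γ') * max (-ht u a z) 0 + γ' * (max (-ht u a z) 0 - max (-ht u' a z) 0)) := by
    unfold vee
    ring
  rw [e]
  refine (abs_add_le _ _).trans ?_
  have h5 : |(β - γ) * max (ht u a z) 0 + γ * (max (ht u a z) 0 - max (ht u' a z) 0)| ≤ |β - γ| * ‖z - a‖ + γ * (‖u - u'‖ * ‖z - a‖) := by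
    refine (abs_add_le _ _).trans (add_le_add ?_ ?_)
    · rw [abs_mul]
      exact mul_le_mul_of_nonneg_left h1 (abs_nonneg _)
    · rw [abs_mul, abs_of_nonneg hγ]
      exact mul_le_mul_of_nonneg_left h3 hγ
  have h6 : |(β' - γ') * max (-ht u a z) 0 + γ' * (max (-ht u a z) 0 - max (-ht u' a z) 0)| ≤ |β' - γ'| * ‖z - a‖ + γ' * (‖u - u'‖ * ‖z - a‖) := by
    refine (abs_add_le _ _).trans (add_le_add ?_ ?_)
    · rw [abs_mul]
      exact mul_le_mul_of_nonneg_left h2 (abs_nonneg _)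
    · rw [abs_mul, abs_of_nonneg hγ']
      exact mul_le_mul_of_nonneg_left h4 hγ'
  nlinarith [h5, h6]

/-- the rates are bounded -/
private theorem el_rate (hΦ : Hyp Φ C c R₀) {x : X} {a : ℂ} {R e : ℝ} {u : ℂ} {β β' : ι → ℝ} (ha : a ∈ Φ.G x) (hR : 1 ≤ R) {D : ℝ} (he : e ≤ D * R)
    (h : Fit Φ x a R e A u β β') (i : ι) : β i ≤ 2 * C + D := by
  have hR0 : 0 < R := by linarith
  have hmem : a + R * u ∈ closedBall a R := by
    rw [mem_closedBall, dist_eq_norm, add_sub_cancel_left, norm_mul, h.nu, mul_one, Complex.norm_real, Real.norm_of_nonneg hR0.le]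
  have hht : ht u a (a + R * u) = R := by
    rw [ht_add h.nu]
    have : ht u a a = 0 := by unfold ht; simp
    rw [this, zero_add]
  have h1 := h.fit _ hmem i
  have h2 : vee u a (β i) (β' i) (a + R * u) = β i * R := by
    unfold vee
    rw [hht, max_eq_left hR0.le, max_eq_right (by linarith), mul_zero, add_zero]
  rw [h2] at h1
  have h3 := hΦ.up x i (a + R * u)
  have h4 : Φ.d x (a + R * u) ≤ R := by
    refine (infDist_le_dist_of_mem ha).trans ?_
    exact mem_closedBall.1 hmem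
  have h5 : Φ.lam x i (a + R * u) ≤ C * (1 + R) := h3.trans (mul_le_mul_of_nonneg_left (by linarith) (by linarith [hΦ.C_ge]))
  have h6 := (abs_le.1 h1).1
  have h7 : β i * R ≤ (2 * C + D) * R := by nlinarith [hΦ.C_ge]
  exact le_of_mul_le_mul_right h7 hR0

/-- MODULE Lim.  The data at the scales `2^n R'`, after flips, converge (`vee_close`). -/
theorem limit_fit (hΦ : Hyp Φ C c R₀) (hA : 0 < A) {α C' R' : ℝ} (hα : 0 < α) (hα' : α ≤ 1 / 2) (hC' : 0 < C') (hR' : 1 ≤ R')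
    (h : ∀ r, R' ≤ r → ∀ (x : X) (a : ℂ), a ∈ Φ.G x → ∃ u β β', Fit Φ x a r (C' * r ^ (-α) * r) A u β β') :
    ∃ B : ℝ, 0 < B ∧ ∀ (x : X) (a : ℂ), a ∈ Φ.G x → ∃ (u : ℂ) (β β' : ι → ℝ), ‖u‖ = 1 ∧ (∀ i, 0 ≤ β i ∧ 0 ≤ β' i) ∧ A ≤ ∑ i, β i ∧ A ≤ ∑ i, β' i ∧
      ∀ z i, |Φ.lam x i z - vee u a (β i) (β' i) z| ≤ B * (2 + ‖z - a‖) ^ (1 - α) := by
  classical
  obtain ⟨K, hK, hvc⟩ := vee_close (ι := ι) (Bd := 2 * C + C') hA
  set ρ : ℝ := (2 : ℝ) ^ (-α) with hρ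
  have hρ0 : 0 < ρ := Real.rpow_pos_of_pos two_pos _
  have hρ1 : ρ < 1 := Real.rpow_lt_one_of_one_lt_of_neg one_lt_two (by linarith)
  have hR0 : 0 < R' := by linarith
  set P₀ : ℝ := R' ^ (-α) with hP₀
  have hP0 : 0 < P₀ := Real.rpow_pos_of_pos hR0 _
  have hP1 : P₀ ≤ 1 := Real.rpow_le_one_of_one_le_of_nonpos hR' (by linarith)
  set r : ℕ → ℝ := fun n => 2 ^ n * R' with hr
  have hr1 : ∀ n, R' ≤ r n := fun n => by
    have : (1 : ℝ) ≤ 2 ^ n := one_le_pow₀ one_le_two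
    show R' ≤ 2 ^ n * R'
    nlinarith
  have hr0 : ∀ n, 0 < r n := fun n => lt_of_lt_of_le hR0 (hr1 n)
  have hrs : ∀ n, r (n + 1) = 2 * r n := fun n => by
    show 2 ^ (n + 1) * R' = 2 * (2 ^ n * R')
    rw [pow_succ]
    ring
  have hrp : ∀ n, r n ^ (-α) = P₀ * ρ ^ n := by
    intro n
    show (2 ^ n * R') ^ (-α) = P₀ * ρ ^ n
    rw [Real.mul_rpow (by positivity) hR0.le, hP₀, mul_comm, hρ, ← Real.rpow_natCast, ← Real.rpow_mul two_pos.le, ← Real.rpow_natCast,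
      ← Real.rpow_mul two_pos.le, mul_comm (-α)]
  set T := ℂ × (ι → ℝ) × (ι → ℝ) with hT
  set Bk : ℝ := 2 * C + C' with hBk
  have hC1 := hΦ.C_ge
  set K₁ : ℝ := K * (3 * C') * P₀ with hK₁
  have hK₁0 : 0 < K₁ := by positivity
  set K₂ : ℝ := K₁ / (1 - ρ) with hK₂
  have hK₂0 : 0 < K₂ := div_pos hK₁0 (by linarith)
  set M : ℝ := C' + (2 * K₂ + 2 * (Bk + 0) * K₂) / P₀ with hM
  have hM0 : 0 < M := by positivity
  refine ⟨2 * M * R', by positivity, fun x a ha => ?_⟩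
  -- the sequence of data
  set Pr : ℕ → T → Prop := fun n D => Fit Φ x a (r n) (C' * r n ^ (-α) * r n) A D.1 D.2.1 D.2.2 with hPr
  have hstep : ∀ (n : ℕ) (D : T), Pr n D → ∃ D' : T, Pr (n + 1) D' ∧ 0 ≤ (star D.1 * D'.1).re := by
    intro n D _
    obtain ⟨u, β, β', h1⟩ := h (r (n + 1)) (hr1 _) x a ha
    rcases le_total 0 (star D.1 * u).re with h2 | h2
    · exact ⟨(u, β, β'), h1, h2⟩
    · refine ⟨(-u, β', β), el_flip h1, ?_⟩
      show 0 ≤ (star D.1 * -u).re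
      rw [mul_neg, Complex.neg_re]
      linarith
  obtain ⟨u₀, β₀, β₀', h₀⟩ := h (r 0) (hr1 _) x a ha
  choose! g hg1 hg2 using hstep
  set D : ℕ → T := fun n => Nat.rec (u₀, β₀, β₀') (fun n D => g n D) n with hD
  have hDs : ∀ n, D (n + 1) = g n (D n) := fun n => rfl
  have hDP : ∀ n, Pr n (D n) := by
    intro n
    induction n with
    | zero => exact h₀
    | succ n ih =>
      rw [hDs]
      exact hg1 n (D n) ih
  have hrate : ∀ n i, (D n).2.1 i ≤ Bk ∧ (D n).2.2 i ≤ Bk := by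
    intro n i
    have he : C' * r n ^ (-α) * r n ≤ C' * r n := by
      have h1 : r n ^ (-α) ≤ 1 := Real.rpow_le_one_of_one_le_of_nonpos (hR'.trans (hr1 n)) (by linarith)
      have := hr0 n
      nlinarith [mul_le_mul_of_nonneg_left h1 hC'.le]
    exact ⟨el_rate hΦ ha (hR'.trans (hr1 n)) he (hDP n) i, el_rate hΦ ha (hR'.trans (hr1 n)) he (el_flip (hDP n)) i⟩
  -- consecutive data
  have hcons : ∀ n, ‖(D n).1 - (D (n + 1)).1‖ ≤ K₁ * ρ ^ n ∧ ∀ i, |(D n).2.1 i - (D (n + 1)).2.1 i| ≤ K₁ * ρ ^ n ∧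
      |(D n).2.2 i - (D (n + 1)).2.2 i| ≤ K₁ * ρ ^ n := by
    intro n
    have hn := hDP n
    have hn1 := hDP (n + 1)
    have hpos := hg2 n (D n) hn
    rw [← hDs] at hpos
    have he : ∀ z ∈ closedBall a (r n), ∀ i, |vee (D n).1 a ((D n).2.1 i) ((D n).2.2 i) z -
        vee (D (n + 1)).1 a ((D (n + 1)).2.1 i) ((D (n + 1)).2.2 i) z| ≤ 3 * C' * (P₀ * ρ ^ n) * r n := by
      intro z hz i
      have h1 := hn.fit z hz i
      have h2 := hn1.fit z (closedBall_subset_closedBall (by rw [hrs]; linarith [hr0 n]) hz) i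
      rw [hrp] at h1 h2
      rw [hrs, pow_succ] at h2
      have h3 : C' * (P₀ * (ρ ^ n * ρ)) * (2 * r n) ≤ 2 * (C' * (P₀ * ρ ^ n) * r n) := by
        have h4 : 0 ≤ C' * (P₀ * ρ ^ n) * r n := by have := hr0 n; positivity
        have h5 : C' * (P₀ * (ρ ^ n * ρ)) * (2 * r n) = 2 * (C' * (P₀ * ρ ^ n) * r n) * ρ := by ring
        rw [h5]
        nlinarith
      have h6 : vee (D n).1 a ((D n).2.1 i) ((D n).2.2 i) z - vee (D (n + 1)).1 a ((D (n + 1)).2.1 i) ((D (n + 1)).2.2 i) z =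
          (Φ.lam x i z - vee (D (n + 1)).1 a ((D (n + 1)).2.1 i) ((D (n + 1)).2.2 i) z) - (Φ.lam x i z - vee (D n).1 a ((D n).2.1 i) ((D n).2.2 i) z) := by
        ring
      rw [h6]
      refine (abs_sub _ _).trans ?_
      linarith
    have hkey := hvc (D n).1 (D (n + 1)).1 a (D n).2.1 (D n).2.2 (D (n + 1)).2.1 (D (n + 1)).2.2 (r n) (3 * C' * (P₀ * ρ ^ n) * r n) hn.nu hn1.nu
      (hr0 n) (by have := hr0 n; positivity) (fun i => ⟨hn.nβ i, hn.nβ' i, hn1.nβ i, hn1.nβ' i⟩)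
      (fun i => ⟨(hrate n i).1, (hrate n i).2, (hrate (n + 1) i).1, (hrate (n + 1) i).2⟩) hn.Aβ hn.Aβ' hn1.Aβ hn1.Aβ' he hpos
    have e1 : K * (3 * C' * (P₀ * ρ ^ n) * r n) / r n = K₁ * ρ ^ n := by
      have := (hr0 n).ne'
      field_simp
      rw [hK₁]
      ring
    rw [e1] at hkey
    exact hkey
  -- the limits
  have hu1 : ∀ n, dist ((D n).1) ((D (n + 1)).1) ≤ K₁ * ρ ^ n := fun n => by
    rw [dist_eq_norm]
    exact (hcons n).1
  have hb1 : ∀ i n, dist ((D n).2.1 i) ((D (n + 1)).2.1 i) ≤ K₁ * ρ ^ n := fun i n => by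
    rw [Real.dist_eq]
    exact ((hcons n).2 i).1
  have hb2 : ∀ i n, dist ((D n).2.2 i) ((D (n + 1)).2.2 i) ≤ K₁ * ρ ^ n := fun i n => by
    rw [Real.dist_eq]
    exact ((hcons n).2 i).2
  obtain ⟨u, hu⟩ := cauchySeq_tendsto_of_complete (cauchySeq_of_le_geometric ρ K₁ hρ1 hu1)
  have hex1 : ∀ i, ∃ b, Tendsto (fun n => (D n).2.1 i) atTop (𝓝 b) := fun i =>
    cauchySeq_tendsto_of_complete (cauchySeq_of_le_geometric ρ K₁ hρ1 (hb1 i))
  have hex2 : ∀ i, ∃ b, Tendsto (fun n => (D n).2.2 i) atTop (𝓝 b) := fun i =>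
    cauchySeq_tendsto_of_complete (cauchySeq_of_le_geometric ρ K₁ hρ1 (hb2 i))
  choose β hβ using hex1
  choose β' hβ' using hex2
  have hud : ∀ n, ‖(D n).1 - u‖ ≤ K₂ * ρ ^ n := fun n => by
    have := dist_le_of_le_geometric_of_tendsto ρ K₁ hρ1 hu1 hu n
    rw [dist_eq_norm] at this
    refine this.trans (le_of_eq ?_)
    rw [hK₂]
    ring
  have hbd : ∀ n i, |(D n).2.1 i - β i| ≤ K₂ * ρ ^ n := fun n i => by
    have := dist_le_of_le_geometric_of_tendsto ρ K₁ hρ1 (hb1 i) (hβ i) n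
    rw [Real.dist_eq] at this
    refine this.trans (le_of_eq ?_)
    rw [hK₂]
    ring
  have hbd' : ∀ n i, |(D n).2.2 i - β' i| ≤ K₂ * ρ ^ n := fun n i => by
    have := dist_le_of_le_geometric_of_tendsto ρ K₁ hρ1 (hb2 i) (hβ' i) n
    rw [Real.dist_eq] at this
    refine this.trans (le_of_eq ?_)
    rw [hK₂]
    ring
  have hβ0 : ∀ i, 0 ≤ β i := fun i => ge_of_tendsto' (hβ i) fun n => (hDP n).nβ i
  have hβ0' : ∀ i, 0 ≤ β' i := fun i => ge_of_tendsto' (hβ' i) fun n => (hDP n).nβ' i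
  have hβB : ∀ i, β i ≤ Bk := fun i => le_of_tendsto' (hβ i) fun n => (hrate n i).1
  have hβB' : ∀ i, β' i ≤ Bk := fun i => le_of_tendsto' (hβ' i) fun n => (hrate n i).2
  refine ⟨u, β, β', ?_, fun i => ⟨hβ0 i, hβ0' i⟩, ?_, ?_, ?_⟩
  · exact tendsto_nhds_unique hu.norm (by simp only [(hDP _).nu]; exact tendsto_const_nhds)
  · exact ge_of_tendsto' (tendsto_finsetSum _ fun i _ => hβ i) fun n => (hDP n).Aβ
  · exact ge_of_tendsto' (tendsto_finsetSum _ fun i _ => hβ' i) fun n => (hDP n).Aβ'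
  · -- the estimate on the disc of radius `r n`
    have hdisc : ∀ n, ∀ z ∈ closedBall a (r n), ∀ i, |Φ.lam x i z - vee u a (β i) (β' i) z| ≤ M * (r n ^ (-α) * r n) := by
      intro n z hz i
      have h1 := (hDP n).fit z hz i
      have h2 := el_vee (hDP n).nu (a := a) (u' := u) (β := (D n).2.1 i) (β' := (D n).2.2 i) (hβ0 i) (hβ0' i) z
      have h3 : ‖z - a‖ ≤ r n := by
        rw [← dist_eq_norm]
        exact mem_closedBall.1 hz
      have hp : 0 ≤ K₂ * ρ ^ n := by positivity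
      have h4 : |(D n).2.1 i - β i| + |(D n).2.2 i - β' i| + (β i + β' i) * ‖(D n).1 - u‖ ≤ (2 * K₂ + 2 * (Bk + 0) * K₂) * ρ ^ n := by
        have h5 : (β i + β' i) * ‖(D n).1 - u‖ ≤ (Bk + Bk) * (K₂ * ρ ^ n) :=
          mul_le_mul (add_le_add (hβB i) (hβB' i)) (hud n) (norm_nonneg _) (by linarith [hβ0 i, hβB i])
        have h6 := hbd n i
        have h7 := hbd' n i
        nlinarith
      have h5 : |vee (D n).1 a ((D n).2.1 i) ((D n).2.2 i) z - vee u a (β i) (β' i) z| ≤ ((2 * K₂ + 2 * (Bk + 0) * K₂) * ρ ^ n) * r n := by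
        refine h2.trans (mul_le_mul h4 h3 (norm_nonneg _) ?_)
        positivity
      have h6 : Φ.lam x i z - vee u a (β i) (β' i) z = (Φ.lam x i z - vee (D n).1 a ((D n).2.1 i) ((D n).2.2 i) z) +
          (vee (D n).1 a ((D n).2.1 i) ((D n).2.2 i) z - vee u a (β i) (β' i) z) := by ring
      rw [h6]
      refine (abs_add_le _ _).trans ((add_le_add h1 h5).trans (le_of_eq ?_))
      rw [hM, hrp]
      field_simp
    intro z i
    have hbase : 1 ≤ 2 + ‖z - a‖ := by linarith [norm_nonneg (z - a)]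
    -- choose the scale
    obtain ⟨n, hn1, hn2⟩ : ∃ n : ℕ, ‖z - a‖ ≤ r n ∧ r n ≤ 2 * R' * (2 + ‖z - a‖) := by
      obtain ⟨N, hN⟩ := pow_unbounded_of_one_lt (‖z - a‖ / R') one_lt_two
      have hexN : ∃ n, ‖z - a‖ ≤ r n := ⟨N, by
        rw [div_lt_iff₀ hR0] at hN
        exact hN.le⟩
      refine ⟨Nat.find hexN, Nat.find_spec hexN, ?_⟩
      rcases Nat.eq_zero_or_pos (Nat.find hexN) with h0 | h0
      · rw [h0]
        show 2 ^ 0 * R' ≤ _
        rw [pow_zero, one_mul]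
        nlinarith [norm_nonneg (z - a)]
      · obtain ⟨m, hm⟩ : ∃ m, Nat.find hexN = m + 1 := ⟨Nat.find hexN - 1, by omega⟩
        have h1 : ¬ ‖z - a‖ ≤ r m := Nat.find_min hexN (by omega)
        rw [hm, hrs]
        have h2 := not_le.1 h1
        nlinarith [norm_nonneg (z - a)]
    have h1 := hdisc n z (by rw [mem_closedBall, dist_eq_norm]; exact hn1) i
    refine h1.trans ?_
    have h2 : r n ^ (-α) * r n = r n ^ (1 - α) := by
      have := hr0 n
      rw [show (1 - α) = -α + 1 by ring, Real.rpow_add this, Real.rpow_one]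
    have h3 : r n ^ (1 - α) ≤ (2 * R' * (2 + ‖z - a‖)) ^ (1 - α) := Real.rpow_le_rpow (hr0 n).le hn2 (by linarith)
    have h4 : (2 * R' * (2 + ‖z - a‖)) ^ (1 - α) = (2 * R') ^ (1 - α) * (2 + ‖z - a‖) ^ (1 - α) :=
      Real.mul_rpow (by positivity) (by linarith)
    have h5 : (2 * R') ^ (1 - α) ≤ 2 * R' := by
      have h6 : (2 * R') ^ (1 - α) ≤ (2 * R') ^ (1 : ℝ) := Real.rpow_le_rpow_of_exponent_le (by linarith) (by linarith)
      rwa [Real.rpow_one] at h6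
    have h7 : 0 ≤ (2 + ‖z - a‖) ^ (1 - α) := Real.rpow_nonneg (by linarith) _
    rw [h2]
    calc M * r n ^ (1 - α) ≤ M * ((2 * R') * (2 + ‖z - a‖) ^ (1 - α)) := by
          refine mul_le_mul_of_nonneg_left ?_ hM0.le
          rw [h4] at h3
          exact h3.trans (mul_le_mul_of_nonneg_right h5 h7)
      _ = 2 * M * R' * (2 + ‖z - a‖) ^ (1 - α) := by ring

end Pool.Agent.SR2.BE
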