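import Pool.Agent.SR2.EChain
import Pool.Agent.SR2.EGrad

/-!
# SR2 ETop: the gradients on the upper part of a flat disc

`top_grad`: the gradients of the functions `lam x i` are `t i` times the gradient of the sum, up to `C R ^ (-α)`.
-/

set_option autoImplicit false

open Topology Filter Metric Complex InnerProductSpace Laplacian

noncomputable section

namespace Pool.Agent.SR2.BE

open Pool.Agent.SDR (gc)

/-! ## linearity -/

theorem et_fd_sum {κ : Type*} {f : κ → ℂ → ℝ} {z : ℂ} (s : Finset κ) (h : ∀ i ∈ s, DifferentiableAt ℝ (f i) z) (v : ℂ) :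
    fderiv ℝ (fun w => ∑ i ∈ s, f i w) z v = ∑ i ∈ s, fderiv ℝ (f i) z v := by
  have h1 : HasFDerivAt (fun w => ∑ i ∈ s, f i w) (∑ i ∈ s, fderiv ℝ (f i) z) z :=
    HasFDerivAt.fun_sum fun i hi => (h i hi).hasFDerivAt
  rw [h1.fderiv, sum_apply]

theorem et_lap_sum {κ : Type*} {f : κ → ℂ → ℝ} {z : ℂ} (s : Finset κ) (h : ∀ i ∈ s, ContDiffAt ℝ 2 (f i) z) :
    Δ (fun w => ∑ i ∈ s, f i w) z = ∑ i ∈ s, Δ (f i) z := by
  classical
  induction s using Finset.induction_on with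
  | empty => simp
  | insert i s hi ih =>
    have h1 : ContDiffAt ℝ 2 (fun w => ∑ j ∈ s, f j w) z := ContDiffAt.sum fun j hj => h j (Finset.mem_insert_of_mem hj)
    have e : (fun w => ∑ j ∈ insert i s, f j w) = f i + fun w => ∑ j ∈ s, f j w := by
      funext w
      rw [Finset.sum_insert hi]
      rfl
    rw [e, (h i (Finset.mem_insert_self _ _)).laplacian_add h1, ih fun j hj => h j (Finset.mem_insert_of_mem hj), Finset.sum_insert hi]

theorem et_lap_lin {f g : ℂ → ℝ} {z : ℂ} (hf : ContDiffAt ℝ 2 f z) (hg : ContDiffAt ℝ 2 g z) (t : ℝ) :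
    Δ (fun w => f w - t * g w) z = Δ f z - t * Δ g z := by
  have e : (fun w => f w - t * g w) = f + (-t) • g := by
    funext w
    simp only [Pi.add_apply, Pi.smul_apply, smul_eq_mul]
    ring
  have h1 : ContDiffAt ℝ 2 ((-t) • g) z := contDiffAt_const.smul hg
  rw [e, hf.laplacian_add h1, laplacian_smul (-t) hg, smul_eq_mul]
  ring

theorem et_gc_lin {f g : ℂ → ℝ} {z : ℂ} (hf : DifferentiableAt ℝ f z) (hg : DifferentiableAt ℝ g z) (t : ℝ) :
    gc (fun w => f w - t * g w) z = gc f z - (t : ℂ) * gc g z := by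
  have h1 : HasFDerivAt (fun w => f w - t * g w) (fderiv ℝ f z - t • fderiv ℝ g z) z := hf.hasFDerivAt.sub (hg.hasFDerivAt.const_mul t)
  unfold gc
  rw [h1.fderiv]
  simp only [sub_apply, smul_apply, smul_eq_mul, Complex.ofReal_sub, Complex.ofReal_mul]
  ring

theorem et_ht_self (u a : ℂ) : ht u a a = 0 := by
  unfold ht
  simp

theorem et_ht_sub (u a z w : ℂ) : ht u a w - ht u a z = ht u z w := by
  unfold ht
  rw [← Complex.sub_re]
  congr 1
  ring

variable {X ι : Type} [Fintype ι] {Φ : Fam X ι} {C c R₀ A c₂ C₂ R₂ : ℝ}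

theorem top_grad (hΦ : Hyp Φ C c R₀) (hA : 0 < A) (hD : Dep Φ A c₂ C₂ R₂) (hR₂ : R₀ ≤ R₂) {α C' R' : ℝ} (hα : 0 < α) (hα' : α ≤ 1 / 2) (hC' : 0 < C')
    (hO : ∀ r, R' ≤ r → OscLe Φ (c₂ / (2 * C₂ + 1)) r (C' * r ^ (-α))) {δ : ℝ} (hδ : 0 < δ) (hδ' : δ ≤ 1 / 8) :
    ∃ C₃ R₃ : ℝ, 0 < C₃ ∧ 1 ≤ R₃ ∧ ∀ (x : X) (a : ℂ), a ∈ Φ.G x → ∀ (R e : ℝ) (u : ℂ) (β β' : ι → ℝ), R₃ ≤ R → Fit Φ x a (8 * R) e A u β β' →
      e ≤ c₂ * δ * R / 4 → ∃ t : ι → ℝ, (∀ i, 0 ≤ t i) ∧ ∑ i, t i = 1 ∧ ∀ z ∈ closedBall a R, δ * R ≤ ht u a z →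
        ‖gc (Φ.S x) z‖ ≤ C₃ ∧ ∀ i, ‖gc (Φ.lam x i) z - (t i : ℂ) * gc (Φ.S x) z‖ ≤ C₃ * R ^ (-α) := by
  obtain ⟨Cg, hCg, hgrad⟩ := grad_est
  have hc₂ := hD.c_pos
  have hC₂ := hD.C_ge
  have hC1 := hΦ.C_ge
  have hR₀1 := hΦ.R_ge
  have hcp := hΦ.c_pos
  set n : ℝ := (Fintype.card ι : ℝ) with hn
  have hn0 : 0 ≤ n := Nat.cast_nonneg _
  set D₁ : ℝ := 3 / 4 * c₂ * δ with hD₁
  have hD₁p : 0 < D₁ := by positivity
  set M₁ : ℝ := n * (C * (1 + 2 * C₂)) with hM₁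
  have hM₁0 : 0 ≤ M₁ := by positivity
  set A₁ : ℝ := C / D₁ ^ 2 with hA₁
  have hA₁0 : 0 ≤ A₁ := by positivity
  set L : ℝ := 3 + 2 * Real.log (4 / δ) with hL
  have hlogδ : 0 ≤ Real.log (4 / δ) := Real.log_nonneg (by rw [le_div_iff₀ hδ]; linarith)
  have hL0 : 0 ≤ L := by rw [hL]; linarith
  set b₀ : ℝ := C' * (δ / 2) ^ (-α) with hb₀
  have hb₀0 : 0 ≤ b₀ := by positivity
  set K₁ : ℝ := Cg * (4 * M₁ / δ + n * A₁ * δ / 4) with hK₁
  have hK₁0 : 0 ≤ K₁ := by positivity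
  set K₂ : ℝ := Cg * (4 * M₁ * L * b₀ / δ + (1 + n) * A₁ * δ / 4) with hK₂
  have hK₂0 : 0 ≤ K₂ := by positivity
  refine ⟨K₁ + K₂ + 1, 1 + |2 * R' / δ| + 2 * R₂ / δ + 2 * R₀ / (c₂ * δ), by positivity, ?_, ?_⟩
  · have h1 : 0 ≤ 2 * R₂ / δ := by
      have := hD.R_ge
      positivity
    have h2 : 0 ≤ 2 * R₀ / (c₂ * δ) := by positivity
    have := abs_nonneg (2 * R' / δ)
    linarith
  intro x a ha R e u β β' hR hfit he
  have hR₂1 := hD.R_ge
  have q1 : 0 ≤ 2 * R₂ / δ := by positivity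
  have q2 : 0 ≤ 2 * R₀ / (c₂ * δ) := by positivity
  have q3 := abs_nonneg (2 * R' / δ)
  have hR1 : 1 ≤ R := by linarith
  have hRp : 0 < R := by linarith
  have hu : ‖u‖ = 1 := hfit.nu
  set h : ℝ := δ * R / 2 with hh
  have hhp : 0 < h := by positivity
  have hR'h : R' ≤ h := by
    have h1 : 2 * R' / δ ≤ R := (le_abs_self _).trans (by linarith)
    rw [div_le_iff₀ hδ] at h1
    rw [hh]
    linarith
  have hR₂h : R₂ ≤ h := by
    have h1 : 2 * R₂ / δ ≤ R := by linarith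
    rw [div_le_iff₀ hδ] at h1
    rw [hh]
    linarith
  have hR₀D : R₀ ≤ D₁ * R := by
    have h1 : 2 * R₀ / (c₂ * δ) ≤ R := by linarith
    rw [div_le_iff₀ (by positivity)] at h1
    have h2 : 0 ≤ c₂ * δ * R := by positivity
    rw [hD₁]
    linarith
  have heh : e ≤ c₂ * h := by
    have h2 : 0 ≤ c₂ * δ * R := by positivity
    rw [hh]
    linarith
  set B : ℝ := C' * h ^ (-α) with hB
  have hB0 : 0 ≤ B := by positivity
  have hBR : B = b₀ * R ^ (-α) := by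
    have e1 : h = δ / 2 * R := by rw [hh]; ring
    rw [hB, e1, Real.mul_rpow (by positivity) hRp.le, hb₀]
    ring
  have hOB : ∀ r, h ≤ r → OscLe Φ (c₂ / (2 * C₂ + 1)) r B := by
    intro r hr
    refine (hO r (hR'h.trans hr)).mono ?_
    exact mul_le_mul_of_nonneg_left (Real.rpow_le_rpow_of_nonpos hhp hr (by linarith)) hC'.le
  have hfit' : Fit Φ x a (4 * (2 * R)) e A u β β' := by
    have e1 : 4 * (2 * R) = 8 * R := by ring
    rw [e1]
    exact hfit
  have hch := fun {w : ℂ} (hw : w ∈ closedBall a (2 * R)) (hw' : h ≤ ht u a w) (i : ι) =>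
    chain hΦ hD hR₂ ha (by linarith : 1 ≤ 2 * R) hfit' hR₂h heh hB0 hOB hw hw' i
  set p : ℂ := a + ((2 * R : ℝ) : ℂ) * u with hp
  -- the depth at a point of large height
  have hdep : ∀ w ∈ closedBall a (2 * R), 3 / 4 * (δ * R) ≤ ht u a w →
      D₁ * R ≤ Φ.d x w ∧ Φ.d x w ≤ 2 * C₂ * R := by
    intro w hw hw'
    have hδR : 0 ≤ δ * R := by positivity
    have h0 : 0 ≤ ht u a w := by linarith
    have h1 : |ht u a w| = ht u a w := abs_of_nonneg h0
    have h2 : |ht u a w| ≤ 2 * R := (abs_ht_le hu a w).trans (by simpa [dist_eq_norm] using hw)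
    have h3 : R₂ ≤ |ht u a w| := by
      rw [h1]
      rw [hh] at hR₂h
      linarith
    have h4 : e ≤ c₂ * |ht u a w| := by
      rw [h1]
      have h5 : c₂ * (3 / 4 * (δ * R)) ≤ c₂ * ht u a w := mul_le_mul_of_nonneg_left hw' hc₂.le
      have h6 : 0 ≤ c₂ * δ * R := by positivity
      linarith
    obtain ⟨h5, h6⟩ := hD.dep x a (8 * R) e u β β' ha (by linarith) hfit w (closedBall_subset_closedBall (by linarith) hw) h3 h4
    refine ⟨?_, ?_⟩
    · refine le_trans ?_ h5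
      rw [h1, hD₁]
      have := mul_le_mul_of_nonneg_left hw' hc₂.le
      linarith
    · refine h6.trans ?_
      have := mul_le_mul_of_nonneg_left h2 (by linarith : (0 : ℝ) ≤ C₂)
      linarith
  have hSp : ∀ w, R₀ ≤ Φ.d x w → 0 < Φ.S x w := by
    intro w hw
    have h1 := hΦ.low x w hw
    have h2 : 0 < c * Φ.d x w := mul_pos hcp (by linarith)
    linarith
  have hpb : p ∈ closedBall a (2 * R) := by
    rw [mem_closedBall, dist_eq_norm, hp, add_sub_cancel_left, norm_mul, hu, mul_one, Complex.norm_real, Real.norm_of_nonneg (by positivity)]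
  have hpt : ht u a p = 2 * R := by
    rw [hp, ht_add hu, et_ht_self, zero_add]
  have hpS : 0 < Φ.S x p := by
    refine hSp p (hR₀D.trans (hdep p hpb ?_).1)
    rw [hpt]
    have : δ * R ≤ 1 / 8 * R := mul_le_mul_of_nonneg_right hδ' hRp.le
    linarith
  set t : ι → ℝ := fun i => Φ.lam x i p / Φ.S x p with ht'
  have ht0 : ∀ i, 0 ≤ t i := fun i => div_nonneg (hΦ.nn x i p) hpS.le
  have ht1 : ∑ i, t i = 1 := by
    rw [ht']
    simp only
    rw [← Finset.sum_div]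
    exact div_self hpS.ne'
  have htle : ∀ i, t i ≤ 1 := by
    intro i
    rw [← ht1]
    exact Finset.single_le_sum (fun j _ => ht0 j) (Finset.mem_univ i)
  refine ⟨t, ht0, ht1, fun z hz hz' => ?_⟩
  set ρ : ℝ := δ * R / 4 with hρ
  have hρp : 0 < ρ := by positivity
  -- the points of the small disc
  have hw : ∀ w ∈ closedBall z ρ, w ∈ closedBall a (2 * R) ∧ 3 / 4 * (δ * R) ≤ ht u a w := by
    intro w hw
    have h1 : ‖w - z‖ ≤ ρ := by simpa [dist_eq_norm] using hw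
    have h2 : ‖z - a‖ ≤ R := by simpa [dist_eq_norm] using hz
    have h3 : δ * R ≤ 1 / 8 * R := mul_le_mul_of_nonneg_right hδ' hRp.le
    refine ⟨?_, ?_⟩
    · rw [mem_closedBall, dist_eq_norm]
      have h4 : ‖w - a‖ ≤ ‖w - z‖ + ‖z - a‖ := by
        have := norm_add_le (w - z) (z - a)
        rwa [sub_add_sub_cancel] at this
      rw [hρ] at h1
      linarith
    · have h4 := et_ht_sub u a z w
      have h5 := (abs_le.1 (abs_ht_le hu z w)).1
      rw [hρ] at h1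
      linarith
  have hd : ∀ w ∈ closedBall z ρ, D₁ * R ≤ Φ.d x w ∧ Φ.d x w ≤ 2 * C₂ * R := fun w hw' => hdep w (hw w hw').1 (hw w hw').2
  have hdR₀ : ∀ w ∈ closedBall z ρ, R₀ ≤ Φ.d x w := fun w hw' => hR₀D.trans (hd w hw').1
  have hlam : ∀ w ∈ closedBall z ρ, ∀ i, Φ.lam x i w ≤ C * (1 + 2 * C₂) * R := by
    intro w hw' i
    have h1 := hΦ.up x i w
    have h2 := (hd w hw').2
    have h3 : 1 + Φ.d x w ≤ (1 + 2 * C₂) * R := by linarith
    have h4 := mul_le_mul_of_nonneg_left h3 (by linarith : (0 : ℝ) ≤ C)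
    linarith
  have hS : ∀ w ∈ closedBall z ρ, Φ.S x w ≤ M₁ * R := by
    intro w hw'
    have h1 : Φ.S x w ≤ ∑ _i : ι, C * (1 + 2 * C₂) * R := Finset.sum_le_sum fun i _ => hlam w hw' i
    rw [Finset.sum_const, Finset.card_univ, nsmul_eq_mul] at h1
    rw [hM₁]
    linarith
  have hcd : ∀ w ∈ closedBall z ρ, ∀ i, ContDiffAt ℝ 2 (Φ.lam x i) w := fun w hw' i => hΦ.c2 x i w (hdR₀ w hw')
  have hcS : ∀ w ∈ closedBall z ρ, ContDiffAt ℝ 2 (Φ.S x) w := fun w hw' => ContDiffAt.sum fun i _ => hcd w hw' i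
  have hlap : ∀ w ∈ closedBall z ρ, ∀ i, |Δ (Φ.lam x i) w| ≤ A₁ / R ^ 2 := by
    intro w hw' i
    refine (hΦ.lap x i w (hdR₀ w hw')).trans ?_
    rw [hA₁, div_div, ← mul_pow]
    exact div_le_div_of_nonneg_left (by linarith) (by positivity) (pow_le_pow_left₀ (by positivity) (hd w hw').1 2)
  have hlapS : ∀ w ∈ closedBall z ρ, |Δ (Φ.S x) w| ≤ n * A₁ / R ^ 2 := by
    intro w hw'
    have e1 : Δ (Φ.S x) w = ∑ i, Δ (Φ.lam x i) w := et_lap_sum Finset.univ fun i _ => hcd w hw' i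
    rw [e1]
    refine (Finset.abs_sum_le_sum_abs _ _).trans ((Finset.sum_le_sum fun i _ => hlap w hw' i).trans ?_)
    rw [Finset.sum_const, Finset.card_univ, nsmul_eq_mul, ← mul_div_assoc]
  have hzρ : z ∈ closedBall z ρ := mem_closedBall_self hρp.le
  have hR2 : 0 < R ^ 2 := by positivity
  -- `R / ρ` and `ρ / R²`
  have r1 : ρ / R ^ 2 ≤ δ / 4 * (1 / R) := by
    rw [hρ]
    have : δ * R / 4 / R ^ 2 = δ / 4 * (1 / R) := by field_simp
    rw [this]
  have r2 : 1 / R ≤ 1 := by rw [div_le_one hRp]; exact hR1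
  have r3 : 1 / R ≤ R ^ (-α) := by
    have h1 := Real.rpow_le_rpow_of_exponent_le hR1 (by linarith : (-1 : ℝ) ≤ -α)
    rw [Real.rpow_neg_one] at h1
    rwa [one_div]
  have hRα : R ^ (-α) ≤ 1 := Real.rpow_le_one_of_one_le_of_nonpos hR1 (by linarith)
  have hRα0 : 0 ≤ R ^ (-α) := Real.rpow_nonneg hRp.le _
  refine ⟨?_, fun i => ?_⟩
  · have h1 := hgrad (Φ.S x) z ρ (n * A₁ / R ^ 2) (M₁ * R) hρp (by positivity) (by positivity) hcS hlapS fun w hw' => by
      rw [abs_of_pos (hSp w (hdR₀ w hw'))]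
      exact hS w hw'
    refine h1.trans ?_
    have h2 : M₁ * R / ρ = 4 * M₁ / δ := by
      rw [hρ]
      field_simp
    have h3 : n * A₁ / R ^ 2 * ρ ≤ n * A₁ * δ / 4 := by
      have h4 : n * A₁ / R ^ 2 * ρ = n * A₁ * (ρ / R ^ 2) := by ring
      rw [h4]
      have h5 : ρ / R ^ 2 ≤ δ / 4 := r1.trans (mul_le_of_le_one_right (by positivity) r2)
      have h6 := mul_le_mul_of_nonneg_left h5 (by positivity : 0 ≤ n * A₁)
      linarith
    rw [h2]
    have h4 : Cg * (4 * M₁ / δ + n * A₁ / R ^ 2 * ρ) ≤ K₁ := by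
      rw [hK₁]
      exact mul_le_mul_of_nonneg_left (by linarith) hCg.le
    linarith
  · have hdl : DifferentiableAt ℝ (Φ.lam x i) z := (hcd z hzρ i).differentiableAt (by norm_num)
    have hdS : DifferentiableAt ℝ (Φ.S x) z := (hcS z hzρ).differentiableAt (by norm_num)
    rw [← et_gc_lin hdl hdS (t i)]
    have h1 := hgrad (fun w => Φ.lam x i w - t i * Φ.S x w) z ρ ((1 + n) * A₁ / R ^ 2) (M₁ * R * (L * B)) hρp (by positivity) (by positivity)
      (fun w hw' => (hcd w hw' i).sub (contDiffAt_const.mul (hcS w hw'))) (fun w hw' => by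
        rw [et_lap_lin (hcd w hw' i) (hcS w hw')]
        have g1 := hlap w hw' i
        have g2 := hlapS w hw'
        have g3 : |t i * Δ (Φ.S x) w| ≤ n * A₁ / R ^ 2 := by
          rw [abs_mul, abs_of_nonneg (ht0 i)]
          calc t i * |Δ (Φ.S x) w| ≤ 1 * |Δ (Φ.S x) w| := mul_le_mul_of_nonneg_right (htle i) (abs_nonneg _)
            _ ≤ _ := by rw [one_mul]; exact g2
        have g4 := abs_sub (Δ (Φ.lam x i) w) (t i * Δ (Φ.S x) w)
        have g5 : (1 + n) * A₁ / R ^ 2 = A₁ / R ^ 2 + n * A₁ / R ^ 2 := by ring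
        rw [g5]
        linarith) (fun w hw' => by
        have s0 := hSp w (hdR₀ w hw')
        have s1 : Φ.lam x i w - t i * Φ.S x w = Φ.S x w * (Φ.lam x i w / Φ.S x w - t i) := by
          field_simp
        rw [s1, abs_mul, abs_of_pos s0]
        have hht := (hw w hw').2
        have hδR : 0 < δ * R := by positivity
        have s2 := hch (hw w hw').1 (by rw [hh]; linarith) i
        have s3 : Real.log (2 * R / ht u a w) ≤ Real.log (4 / δ) := by
          have hp1 : 0 < ht u a w := by linarith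
          refine Real.log_le_log (by positivity) ?_
          rw [div_le_div_iff₀ hp1 hδ]
          linarith
        have s4 : |Φ.lam x i w / Φ.S x w - t i| ≤ L * B := by
          refine s2.trans (mul_le_mul_of_nonneg_right ?_ hB0)
          rw [hL]
          linarith
        exact mul_le_mul (hS w hw') s4 (abs_nonneg _) (by positivity))
    refine h1.trans ?_
    have h2 : M₁ * R * (L * B) / ρ = 4 * M₁ * L * b₀ / δ * R ^ (-α) := by
      rw [hBR, hρ]
      field_simp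
    have h3 : (1 + n) * A₁ / R ^ 2 * ρ ≤ (1 + n) * A₁ * δ / 4 * R ^ (-α) := by
      have h4 : (1 + n) * A₁ / R ^ 2 * ρ = (1 + n) * A₁ * (ρ / R ^ 2) := by ring
      rw [h4]
      have h5 : ρ / R ^ 2 ≤ δ / 4 * R ^ (-α) := r1.trans (mul_le_mul_of_nonneg_left r3 (by positivity))
      have h6 := mul_le_mul_of_nonneg_left h5 (by positivity : 0 ≤ (1 + n) * A₁)
      linarith
    rw [h2]
    have h4 : Cg * (4 * M₁ * L * b₀ / δ * R ^ (-α) + (1 + n) * A₁ / R ^ 2 * ρ) ≤ K₂ * R ^ (-α) := by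
      have e1 : K₂ * R ^ (-α) = Cg * (4 * M₁ * L * b₀ / δ * R ^ (-α) + (1 + n) * A₁ * δ / 4 * R ^ (-α)) := by
        rw [hK₂]
        ring
      rw [e1]
      exact mul_le_mul_of_nonneg_left (add_le_add le_rfl h3) hCg.le
    have h5 : 0 ≤ K₁ * R ^ (-α) := mul_nonneg hK₁0 hRα0
    have h6 : (K₁ + K₂ + 1) * R ^ (-α) = K₁ * R ^ (-α) + K₂ * R ^ (-α) + R ^ (-α) := by ring
    rw [h6]
    linarith

end Pool.Agent.SR2.BE
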