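import Pool.Agent.SR2.EDefs
import Pool.Agent.SR2.ECov

/-!
# SR2 ETopC: the gradients are constant far from the line

The relation and `top_grad` show that `gc (S x)` is close to one of finitely many numbers (the `m j`-th roots of `q x j / Pol t j (t i)`); the region is
convex, so `gc (S x)` is almost constant.
-/

set_option autoImplicit false

open Topology Filter Metric Complex InnerProductSpace Laplacian

noncomputable section

namespace Pool.Agent.SR2.BE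

open Pool.Agent.SDR (gc)

private theorem tc_hom {ι : Type} [Fintype ι] {m : ℕ} {P : MvPolynomial ι ℂ} (hP : P.IsHomogeneous m) (t : ℂ) (y : ι → ℂ) :
    MvPolynomial.eval (fun i => t * y i) P = t ^ m * MvPolynomial.eval y P := by
  rw [MvPolynomial.eval_eq', MvPolynomial.eval_eq', Finset.mul_sum]
  refine Finset.sum_congr rfl fun s hs => ?_
  have h2 := hP (MvPolynomial.mem_support_iff.1 hs)
  rw [Finsupp.weight_apply, Finsupp.sum_fintype _ _ (fun _ => by simp)] at h2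
  have h3 : ∑ i, s i = m := by
    rw [← h2]
    simp
  have h4 : ∏ i, (t * y i) ^ s i = t ^ m * ∏ i, y i ^ s i := by
    rw [← h3, ← Finset.prod_pow_eq_pow_sum, ← Finset.prod_mul_distrib]
    exact Finset.prod_congr rfl fun i _ => mul_pow _ _ _
  rw [h4]
  ring

/-- polynomials are Lipschitz and bounded on bounded sets -/
private theorem tc_lip {ι : Type} (P : MvPolynomial ι ℂ) {B : ℝ} (hB : 0 ≤ B) : ∃ L M : ℝ, 0 ≤ L ∧ 0 ≤ M ∧ ∀ (y y' : ι → ℂ) (e : ℝ), (∀ i, ‖y i‖ ≤ B) → (∀ i, ‖y' i‖ ≤ B) →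
    (∀ i, ‖y i - y' i‖ ≤ e) → 0 ≤ e → ‖MvPolynomial.eval y P‖ ≤ M ∧ ‖MvPolynomial.eval y P - MvPolynomial.eval y' P‖ ≤ L * e := by
  induction P using MvPolynomial.induction_on with
  | C c =>
    refine ⟨0, ‖c‖, le_rfl, norm_nonneg _, fun y y' e _ _ _ _ => ?_⟩
    simp
  | add p q hp hq =>
    obtain ⟨L, M, hL, hM, hp⟩ := hp
    obtain ⟨L', M', hL', hM', hq⟩ := hq
    refine ⟨L + L', M + M', by positivity, by positivity, fun y y' e h1 h2 h3 he => ?_⟩
    obtain ⟨a1, a2⟩ := hp y y' e h1 h2 h3 he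
    obtain ⟨b1, b2⟩ := hq y y' e h1 h2 h3 he
    rw [map_add, map_add]
    refine ⟨(norm_add_le _ _).trans (add_le_add a1 b1), ?_⟩
    have h4 : MvPolynomial.eval y p + MvPolynomial.eval y q - (MvPolynomial.eval y' p + MvPolynomial.eval y' q) =
        (MvPolynomial.eval y p - MvPolynomial.eval y' p) + (MvPolynomial.eval y q - MvPolynomial.eval y' q) := by ring
    rw [h4, add_mul]
    exact (norm_add_le _ _).trans (add_le_add a2 b2)
  | mul_X p i hp =>
    obtain ⟨L, M, hL, hM, hp⟩ := hp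
    refine ⟨L * B + M, M * B, by positivity, by positivity, fun y y' e h1 h2 h3 he => ?_⟩
    obtain ⟨a1, a2⟩ := hp y y' e h1 h2 h3 he
    obtain ⟨b1, -⟩ := hp y' y e h2 h1 (fun i => by rw [norm_sub_rev]; exact h3 i) he
    rw [map_mul, map_mul, MvPolynomial.eval_X, MvPolynomial.eval_X]
    constructor
    · rw [norm_mul]
      exact mul_le_mul a1 (h1 i) (norm_nonneg _) hM
    · have h4 : MvPolynomial.eval y p * y i - MvPolynomial.eval y' p * y' i =
          (MvPolynomial.eval y p - MvPolynomial.eval y' p) * y i + MvPolynomial.eval y' p * (y i - y' i) := by ring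
      rw [h4]
      refine (norm_add_le _ _).trans ?_
      rw [norm_mul, norm_mul]
      have h5 : ‖MvPolynomial.eval y p - MvPolynomial.eval y' p‖ * ‖y i‖ ≤ L * e * B := mul_le_mul a2 (h1 i) (norm_nonneg _) (by positivity)
      have h6 : ‖MvPolynomial.eval y' p‖ * ‖y i - y' i‖ ≤ M * e := mul_le_mul b1 (h3 i) (norm_nonneg _) hM
      linarith

variable {X ι : Type} [Fintype ι] {Φ : Fam X ι} {C c R₀ A c₂ C₂ R₂ : ℝ}

/-- `gc (S x)` is continuous far from the good points -/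
private theorem tc_cont (hΦ : Hyp Φ C c R₀) {x : X} {z : ℂ} (hz : R₀ ≤ Φ.d x z) : ContinuousAt (gc (Φ.S x)) z := by
  have h1 : ContDiffAt ℝ 2 (Φ.S x) z := by
    have h2 : ContDiffAt ℝ 2 (fun w => ∑ i, Φ.lam x i w) z := ContDiffAt.sum fun i _ => hΦ.c2 x i z hz
    exact h2
  have h2 : ContinuousAt (fderiv ℝ (Φ.S x)) z := (h1.fderiv_right (m := 1) (by norm_num)).continuousAt
  have h3 : ContinuousAt (fun w => ((fderiv ℝ (Φ.S x) w 1 : ℝ) : ℂ) - I * ((fderiv ℝ (Φ.S x) w I : ℝ) : ℂ)) z := by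
    have h4 : ContinuousAt (fun w => fderiv ℝ (Φ.S x) w 1) z := h2.clm_apply continuousAt_const
    have h5 : ContinuousAt (fun w => fderiv ℝ (Φ.S x) w I) z := h2.clm_apply continuousAt_const
    exact (Complex.continuous_ofReal.continuousAt.comp h4).sub (continuousAt_const.mul (Complex.continuous_ofReal.continuousAt.comp h5))
  exact h3

/-- the region is convex -/
private theorem tc_convex (u a : ℂ) (R h : ℝ) : Convex ℝ {z : ℂ | z ∈ closedBall a R ∧ h ≤ ht u a z} := by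
  have h1 : Convex ℝ {z : ℂ | h ≤ ht u a z} := by
    intro z hz w hw s t hs ht' hst
    have hz' : h ≤ (star u * (z - a)).re := hz
    have hw' : h ≤ (star u * (w - a)).re := hw
    show h ≤ (star u * (s • z + t • w - a)).re
    have h2 : star u * (s • z + t • w - a) = s • (star u * (z - a)) + t • (star u * (w - a)) := by
      simp only [Complex.real_smul]
      have h4 : ((s : ℂ) + t) = 1 := by exact_mod_cast hst
      linear_combination (star u * a) * h4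
    rw [h2, Complex.add_re, Complex.real_smul, Complex.real_smul, Complex.re_ofReal_mul, Complex.re_ofReal_mul]
    have h5 := mul_le_mul_of_nonneg_left hz' hs
    have h6 := mul_le_mul_of_nonneg_left hw' ht'
    have h7 : s * h + t * h = h := by rw [← add_mul, hst, one_mul]
    linarith
  exact (convex_closedBall a R).inter h1

theorem top_const (hΦ : Hyp Φ C c R₀) (hD : Dep Φ A c₂ C₂ R₂) (hR₂ : R₀ ≤ R₂) {cq : ℝ} {J Ty : Type} [Fintype J] [Fintype Ty] {m : J → ℕ}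
    {Pol : Ty → J → MvPolynomial ι ℂ} {q : X → J → ℂ} (hrel : Rel Φ C R₀ cq m Pol q) {α : ℝ} (hα : 0 < α) (hα' : α ≤ 1 / 2) {δ : ℝ} (hδ : 0 < δ)
    (hδ' : δ ≤ 1 / 8) {C₃ R₃ : ℝ} (hC₃ : 0 < C₃) (hR₃ : 1 ≤ R₃) :
    ∃ α₁ C₄ R₄ : ℝ, 0 < α₁ ∧ α₁ ≤ 1 / 2 ∧ 0 < C₄ ∧ R₃ ≤ R₄ ∧ ∀ (x : X) (a : ℂ), a ∈ Φ.G x → ∀ (R e : ℝ) (u : ℂ) (β β' : ι → ℝ), R₄ ≤ R →
      Fit Φ x a (8 * R) e A u β β' → e ≤ c₂ * δ * R / 4 → ∀ t : ι → ℝ, (∀ i, 0 ≤ t i) → ∑ i, t i = 1 →
      (∀ z ∈ closedBall a R, δ * R ≤ ht u a z → ‖gc (Φ.S x) z‖ ≤ C₃ ∧ ∀ i, ‖gc (Φ.lam x i) z - (t i : ℂ) * gc (Φ.S x) z‖ ≤ C₃ * R ^ (-α)) →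
      ∃ k : ℂ, ∀ z ∈ closedBall a R, δ * R ≤ ht u a z → ∀ i, ‖gc (Φ.lam x i) z - (t i : ℂ) * k‖ ≤ C₄ * R ^ (-α₁) := by
  classical
  have hC1 := hΦ.C_ge
  have hc₂ := hD.c_pos
  have hcq := hrel.pos
  -- the constants
  choose L hL using fun p : Ty × J => tc_lip (Pol p.1 p.2) (B := 2 * C₃) (by positivity)
  choose M' hLM using hL
  obtain ⟨L₁, hL₁⟩ : ∃ L₁, L₁ = ∑ p, L p := ⟨_, rfl⟩
  have hL₁0 : 0 ≤ L₁ := hL₁ ▸ Finset.sum_nonneg fun p _ => (hLM p).1
  have hLle : ∀ p, L p ≤ L₁ := fun p => hL₁ ▸ Finset.single_le_sum (f := L) (fun p _ => (hLM p).1) (Finset.mem_univ p)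
  obtain ⟨n, hn⟩ : ∃ n : ℕ, n = 1 + ∑ j, m j := ⟨_, rfl⟩
  have hmn : ∀ j, m j ≤ n := fun j => by
    have := Finset.single_le_sum (f := m) (fun j _ => Nat.zero_le _) (Finset.mem_univ j)
    omega
  have hn1 : (1 : ℝ) ≤ n := by
    have : 1 ≤ n := by omega
    exact_mod_cast this
  obtain ⟨C', hC'⟩ : ∃ C', C' = L₁ * C₃ + C / (c₂ * δ) := ⟨_, rfl⟩
  have hC'0 : 0 < C' := by
    rw [hC']
    have : 0 < C / (c₂ * δ) := by positivity
    have : 0 ≤ L₁ * C₃ := by positivity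
    linarith
  obtain ⟨c₃, hc₃⟩ : ∃ c₃, c₃ = cq / (2 * (1 + C₃) ^ n) := ⟨_, rfl⟩
  have hc₃0 : 0 < c₃ := by
    rw [hc₃]
    positivity
  obtain ⟨C'', hC''⟩ : ∃ C'', C'' = max 1 (C' / c₃) := ⟨_, rfl⟩
  have hC''1 : 1 ≤ C'' := hC'' ▸ le_max_left _ _
  obtain ⟨K, hK⟩ : ∃ K : ℝ, K = 2 * ((Fintype.card Ty * n : ℕ) : ℝ) * C'' := ⟨_, rfl⟩
  have hK0 : 0 ≤ K := by
    rw [hK]
    positivity
  -- the scale
  have hlim : ∀ᶠ R : ℝ in atTop, C' * R ^ (-α) ≤ cq / 2 := by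
    have h1 : Tendsto (fun R : ℝ => C' * R ^ (-α)) atTop (𝓝 (C' * 0)) := (tendsto_rpow_neg_atTop hα).const_mul C'
    rw [mul_zero] at h1
    exact h1.eventually (eventually_le_nhds (by positivity))
  obtain ⟨R₅, hR₅⟩ := eventually_atTop.1 hlim
  refine ⟨α / n, C₃ + K, max R₃ (max R₅ (R₂ / (c₂ * δ))), by positivity, ?_, by positivity, le_max_left _ _, ?_⟩
  · rw [div_le_iff₀ (by positivity)]
    linarith
  intro x a ha R e u β β' hR hfit he t ht0 ht1 hgr
  have hRR₃ : R₃ ≤ R := (le_max_left _ _).trans hR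
  have hRR₅ : R₅ ≤ R := (le_max_left _ _).trans ((le_max_right _ _).trans hR)
  have hRR₂ : R₂ / (c₂ * δ) ≤ R := (le_max_right _ _).trans ((le_max_right _ _).trans hR)
  have hR1 : 1 ≤ R := hR₃.trans hRR₃
  have hR0 : 0 < R := by linarith
  have hRa : R ^ (-α) ≤ 1 := Real.rpow_le_one_of_one_le_of_nonpos hR1 (by linarith)
  have hRa0 : 0 < R ^ (-α) := Real.rpow_pos_of_pos hR0 _
  have hti : ∀ i, t i ≤ 1 := fun i => ht1 ▸ Finset.single_le_sum (fun i _ => ht0 i) (Finset.mem_univ i)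
  obtain ⟨j, hj⟩ := hrel.exj x
  have hmj := hrel.one j
  -- the depth in the region
  have hdep : ∀ z ∈ closedBall a R, δ * R ≤ ht u a z → c₂ * δ * R ≤ Φ.d x z ∧ R₀ ≤ Φ.d x z := by
    intro z hz hz'
    have h1 : R₂ ≤ c₂ * δ * R := by
      rw [div_le_iff₀ (by positivity)] at hRR₂
      linarith
    have h2 : (0 : ℝ) ≤ δ * R := by positivity
    have h3 : |ht u a z| = ht u a z := abs_of_nonneg (h2.trans hz')
    have hc₂1 := hD.c_le
    have h4 : c₂ * (δ * R) ≤ c₂ * ht u a z := mul_le_mul_of_nonneg_left hz' hc₂.le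
    have h5 := hD.dep x a (8 * R) e u β β' ha (by linarith) hfit z (closedBall_subset_closedBall (by linarith) hz) (by
      rw [h3]
      have h6 := mul_le_of_le_one_left (h2.trans hz') hc₂1
      linarith) (by
      rw [h3]
      have h6 : 0 ≤ c₂ * (δ * R) := mul_nonneg hc₂.le h2
      linarith)
    rw [h3] at h5
    constructor
    · linarith [h5.1]
    · linarith [h5.1]
  -- the values of the gradient
  obtain ⟨s, hs⟩ : ∃ s, s = gc (Φ.S x) := ⟨_, rfl⟩
  have hval : ∀ z ∈ closedBall a R, δ * R ≤ ht u a z → ∃ ty, c₃ ≤ ‖MvPolynomial.eval (fun i => (t i : ℂ)) (Pol ty j)‖ ∧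
      ‖s z ^ m j - q x j / MvPolynomial.eval (fun i => (t i : ℂ)) (Pol ty j)‖ ≤ C'' * R ^ (-α) := by
    intro z hz hz'
    obtain ⟨h1, h2⟩ := hgr z hz hz'
    rw [← hs] at h1 h2
    obtain ⟨h3, h4⟩ := hdep z hz hz'
    obtain ⟨ty, hty⟩ := hrel.rel x j z h4
    refine ⟨ty, ?_⟩
    obtain ⟨p, hp⟩ : ∃ p, p = MvPolynomial.eval (fun i => (t i : ℂ)) (Pol ty j) := ⟨_, rfl⟩
    rw [← hp]
    have hs2 : ∀ i, ‖s z * (t i : ℂ)‖ ≤ 2 * C₃ := by
      intro i
      rw [norm_mul, Complex.norm_real, Real.norm_of_nonneg (ht0 i)]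
      have := hti i
      have := ht0 i
      have := norm_nonneg (s z)
      exact (mul_le_of_le_one_right (norm_nonneg _) (hti i)).trans (by linarith)
    have hs3 : ∀ i, ‖gc (Φ.lam x i) z - s z * (t i : ℂ)‖ ≤ C₃ * R ^ (-α) := by
      intro i
      rw [mul_comm]
      exact h2 i
    have hs4 : ∀ i, ‖gc (Φ.lam x i) z‖ ≤ 2 * C₃ := by
      intro i
      have h5 : gc (Φ.lam x i) z = (gc (Φ.lam x i) z - s z * (t i : ℂ)) + s z * (t i : ℂ) := by ring
      rw [h5]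
      refine (norm_add_le _ _).trans ?_
      have h6 : ‖s z * (t i : ℂ)‖ ≤ C₃ := by
        rw [norm_mul, Complex.norm_real, Real.norm_of_nonneg (ht0 i)]
        have := hti i
        have := ht0 i
        have := norm_nonneg (s z)
        exact (mul_le_of_le_one_right (norm_nonneg _) (hti i)).trans h1
      have h7 := hs3 i
      have h8 : C₃ * R ^ (-α) ≤ C₃ := mul_le_of_le_one_right hC₃.le hRa
      linarith
    have h5 := ((hLM (ty, j)).2.2 (fun i => gc (Φ.lam x i) z) (fun i => s z * (t i : ℂ)) (C₃ * R ^ (-α)) hs4 hs2 hs3 (by positivity)).2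
    rw [tc_hom (hrel.hom ty j), ← hp] at h5
    have h6 : ‖s z ^ m j * p - q x j‖ ≤ C' * R ^ (-α) := by
      have h7 : s z ^ m j * p - q x j = (MvPolynomial.eval (fun i => gc (Φ.lam x i) z) (Pol ty j) - q x j) -
          (MvPolynomial.eval (fun i => gc (Φ.lam x i) z) (Pol ty j) - s z ^ m j * p) := by ring
      rw [h7]
      refine (norm_sub_le _ _).trans ?_
      have h8 : C / Φ.d x z ≤ C / (c₂ * δ) * R ^ (-α) := by
        have h9 : C / Φ.d x z ≤ C / (c₂ * δ * R) := div_le_div_of_nonneg_left (by linarith) (by positivity) h3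
        have h10 : C / (c₂ * δ * R) = C / (c₂ * δ) * R ^ (-(1 : ℝ)) := by
          rw [Real.rpow_neg_one]
          field_simp
        have h11 : R ^ (-(1 : ℝ)) ≤ R ^ (-α) := Real.rpow_le_rpow_of_exponent_le hR1 (by linarith)
        rw [h10] at h9
        exact h9.trans (mul_le_mul_of_nonneg_left h11 (by positivity))
      have h9 : L (ty, j) * (C₃ * R ^ (-α)) ≤ L₁ * (C₃ * R ^ (-α)) := mul_le_mul_of_nonneg_right (hLle _) (by positivity)
      rw [hC']
      linarith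
    have h7 : C' * R ^ (-α) ≤ cq / 2 := hR₅ R hRR₅
    have h8 : cq / 2 ≤ ‖s z ^ m j * p‖ := by
      have h9 : ‖q x j‖ ≤ ‖s z ^ m j * p‖ + ‖s z ^ m j * p - q x j‖ := by
        have h10 : q x j = s z ^ m j * p - (s z ^ m j * p - q x j) := by ring
        calc ‖q x j‖ = ‖s z ^ m j * p - (s z ^ m j * p - q x j)‖ := by rw [← h10]
          _ ≤ _ := norm_sub_le _ _
      linarith
    have h9 : ‖s z ^ m j‖ ≤ (1 + C₃) ^ n := by
      rw [norm_pow]
      calc ‖s z‖ ^ m j ≤ (1 + C₃) ^ m j := pow_le_pow_left₀ (norm_nonneg _) (by linarith) _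
        _ ≤ (1 + C₃) ^ n := pow_le_pow_right₀ (by linarith) (hmn j)
    have h10 : c₃ ≤ ‖p‖ := by
      rw [hc₃, div_le_iff₀ (by positivity)]
      rw [norm_mul] at h8
      have h11 : ‖s z ^ m j‖ * ‖p‖ ≤ (1 + C₃) ^ n * ‖p‖ := mul_le_mul_of_nonneg_right h9 (norm_nonneg _)
      linarith
    refine ⟨h10, ?_⟩
    have hp0 : p ≠ 0 := by
      intro h
      rw [h, norm_zero] at h10
      linarith
    have h11 : s z ^ m j - q x j / p = (s z ^ m j * p - q x j) / p := by field_simp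
    rw [h11, norm_div, div_le_iff₀ (by linarith)]
    refine h6.trans ?_
    have h12 : C' / c₃ ≤ C'' := hC'' ▸ le_max_right _ _
    rw [div_le_iff₀ hc₃0] at h12
    have h13 : C'' * c₃ ≤ C'' * ‖p‖ := mul_le_mul_of_nonneg_left h10 (by linarith)
    have h14 := mul_le_mul_of_nonneg_right (h12.trans h13) hRa0.le
    linarith
  -- the finitely many values
  obtain ⟨E, hE⟩ : ∃ E : ℝ, E = (C'' * R ^ (-α)) ^ (((m j : ℕ) : ℝ)⁻¹) := ⟨_, rfl⟩
  have hE0 : 0 ≤ E := hE ▸ Real.rpow_nonneg (by positivity) _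
  have hEm : E ^ m j = C'' * R ^ (-α) := by
    rw [hE]
    exact Real.rpow_inv_natCast_pow (by positivity) (by omega)
  have hEle : E ≤ C'' * R ^ (-(α / n)) := by
    have hmj' : (1 : ℝ) ≤ m j := by exact_mod_cast hmj
    have hmn' : (m j : ℝ) ≤ n := by exact_mod_cast hmn j
    rw [hE, Real.mul_rpow (by linarith) hRa0.le]
    refine mul_le_mul ?_ ?_ (by positivity) (by linarith)
    · calc C'' ^ (((m j : ℕ) : ℝ)⁻¹) ≤ C'' ^ (1 : ℝ) := Real.rpow_le_rpow_of_exponent_le hC''1 (inv_le_one_of_one_le₀ hmj')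
        _ = C'' := Real.rpow_one _
    · rw [← Real.rpow_mul hR0.le]
      refine Real.rpow_le_rpow_of_exponent_le hR1 ?_
      have h1 : α / n ≤ α * ((m j : ℕ) : ℝ)⁻¹ := by
        rw [div_eq_mul_inv]
        exact mul_le_mul_of_nonneg_left (inv_anti₀ (by linarith) hmn') hα.le
      linarith
  choose Tf hTf hTf' using fun ty => near_root hmj (q x j / MvPolynomial.eval (fun i => (t i : ℂ)) (Pol ty j))
  have hcov : ∀ w ∈ s '' {z : ℂ | z ∈ closedBall a R ∧ δ * R ≤ ht u a z}, ∃ r ∈ Finset.univ.biUnion Tf, ‖w - r‖ ≤ E := by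
    rintro _ ⟨z, ⟨hz, hz'⟩, rfl⟩
    obtain ⟨ty, -, h1⟩ := hval z hz hz'
    obtain ⟨r, hr, h2⟩ := hTf' ty (s z) E hE0 (by rw [hEm]; exact h1)
    exact ⟨r, Finset.mem_biUnion.2 ⟨ty, Finset.mem_univ _, hr⟩, h2⟩
  have hcard : (Finset.univ.biUnion Tf).card ≤ Fintype.card Ty * n := by
    refine Finset.card_biUnion_le.trans ?_
    calc ∑ ty, (Tf ty).card ≤ ∑ _ty : Ty, n := Finset.sum_le_sum fun ty _ => (hTf ty).trans (hmn j)
      _ = Fintype.card Ty * n := by simp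
  have hpre : IsPreconnected (s '' {z : ℂ | z ∈ closedBall a R ∧ δ * R ≤ ht u a z}) := by
    refine (tc_convex u a R (δ * R)).isPreconnected.image _ ?_
    intro z hz
    rw [hs]
    exact (tc_cont hΦ (hdep z hz.1 hz.2).2).continuousWithinAt
  have hdiam := cover_diam hpre _ hE0 hcov
  by_cases hne : ∃ z₀ ∈ closedBall a R, δ * R ≤ ht u a z₀
  · obtain ⟨z₀, hz₀, hz₀'⟩ := hne
    refine ⟨s z₀, fun z hz hz' i => ?_⟩
    have h1 := (hgr z hz hz').2 i
    rw [← hs] at h1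
    have h2 := hdiam (s z) ⟨z, ⟨hz, hz'⟩, rfl⟩ (s z₀) ⟨z₀, ⟨hz₀, hz₀'⟩, rfl⟩
    have h3 : 2 * ((Finset.univ.biUnion Tf).card : ℝ) * E ≤ K * R ^ (-(α / n)) := by
      have h4 : ((Finset.univ.biUnion Tf).card : ℝ) ≤ ((Fintype.card Ty * n : ℕ) : ℝ) := by exact_mod_cast hcard
      have h5 : 2 * ((Finset.univ.biUnion Tf).card : ℝ) * E ≤ 2 * ((Fintype.card Ty * n : ℕ) : ℝ) * (C'' * R ^ (-(α / n))) :=
        mul_le_mul (by linarith) hEle hE0 (by positivity)
      rw [hK]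
      linarith
    have h4 : gc (Φ.lam x i) z - (t i : ℂ) * s z₀ = (gc (Φ.lam x i) z - (t i : ℂ) * s z) + (t i : ℂ) * (s z - s z₀) := by ring
    rw [h4]
    refine (norm_add_le _ _).trans ?_
    have h5 : ‖(t i : ℂ) * (s z - s z₀)‖ ≤ ‖s z - s z₀‖ := by
      rw [norm_mul, Complex.norm_real, Real.norm_of_nonneg (ht0 i)]
      exact mul_le_of_le_one_left (norm_nonneg _) (hti i)
    have h6 : R ^ (-α) ≤ R ^ (-(α / n)) := by
      refine Real.rpow_le_rpow_of_exponent_le hR1 ?_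
      have h7 : α / n ≤ α := div_le_self hα.le hn1
      linarith
    have h7 : C₃ * R ^ (-α) ≤ C₃ * R ^ (-(α / n)) := mul_le_mul_of_nonneg_left h6 hC₃.le
    linarith
  · push Not at hne
    refine ⟨0, fun z hz hz' => absurd hz' (not_le.2 (hne z hz))⟩

end Pool.Agent.SR2.BE
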