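import Pool.Agent.SR2.EBas
import Pool.Agent.SR2.ETop
import Pool.Agent.SR2.EOsc2
import Pool.Agent.SR2.ETopC

/-!
# SR2 ETopA: the functions are affine on the upper part of a flat disc

`top_aff`: mean value inequality on the convex region.
-/

set_option autoImplicit false

open Topology Filter Metric Complex InnerProductSpace Laplacian

noncomputable section

namespace Pool.Agent.SR2.BE

open Pool.Agent.SDR (gc fderiv_eq_gc)

variable {X ι : Type} [Fintype ι] {Φ : Fam X ι} {C c R₀ A c₂ C₂ R₂ : ℝ}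

theorem top_aff (hΦ : Hyp Φ C c R₀) (hA : 0 < A) (hD : Dep Φ A c₂ C₂ R₂) (hR₂ : R₀ ≤ R₂) (hF : AllFlat Φ A) {cq : ℝ} {J Ty : Type} [Fintype J]
    [Fintype Ty] {m : J → ℕ} {Pol : Ty → J → MvPolynomial ι ℂ} {q : X → J → ℂ} (hrel : Rel Φ C R₀ cq m Pol q) {δ : ℝ} (hδ : 0 < δ) (hδ' : δ ≤ 1 / 8) :
    ∃ α₁ C₅ R₅ : ℝ, 0 < α₁ ∧ α₁ ≤ 1 / 2 ∧ 0 < C₅ ∧ 1 ≤ R₅ ∧ ∀ (x : X) (a : ℂ), a ∈ Φ.G x → ∀ (R e : ℝ) (u : ℂ) (β β' : ι → ℝ), R₅ ≤ R →
      Fit Φ x a (8 * R) e A u β β' → e ≤ c₂ * δ * R / 4 → ∃ t k b, TopAff Φ x a R δ (C₅ * R ^ (1 - α₁)) u t k b := by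
  obtain ⟨α, C', R', hα, hα', hC', -, hO⟩ := osc_pow hΦ hA hD hR₂ hF
  obtain ⟨C₃, R₃, hC₃, hR₃, hgrad⟩ := top_grad hΦ hA hD hR₂ hα hα' hC' hO hδ hδ'
  obtain ⟨α₁, C₄, R₄, hα₁, hα₁', hC₄, hR₄, hconst⟩ := top_const hΦ hD hR₂ hrel hα hα' hδ hδ' hC₃ hR₃
  have hc₂ := hD.c_pos
  have hR₀1 := hΦ.R_ge
  have hR₂1 := hD.R_ge
  have q1 : 0 ≤ R₂ / δ := by positivity
  have q2 : 0 ≤ R₀ / (c₂ * δ) := by positivity
  refine ⟨α₁, 2 * C₄, R₄ + R₂ / δ + R₀ / (c₂ * δ), hα₁, hα₁', by positivity, by linarith, ?_⟩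
  intro x a ha R e u β β' hR hfit he
  have hR1 : 1 ≤ R := by linarith
  have hRp : 0 < R := by linarith
  have hu : ‖u‖ = 1 := hfit.nu
  obtain ⟨t, ht0, ht1, hg⟩ := hgrad x a ha R e u β β' (by linarith) hfit he
  obtain ⟨k, hk⟩ := hconst x a ha R e u β β' (by linarith) hfit he t ht0 ht1 hg
  set Ω : Set ℂ := closedBall a R ∩ {z | δ * R ≤ ht u a z} with hΩ
  have hΩc : Convex ℝ Ω := convex_top u a R (δ * R)
  -- the depth
  have hd : ∀ z ∈ Ω, R₀ ≤ Φ.d x z := by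
    rintro z ⟨hz, hz'⟩
    have hz' : δ * R ≤ ht u a z := hz'
    have hδR : 0 < δ * R := by positivity
    have h1 : |ht u a z| = ht u a z := abs_of_nonneg (by linarith)
    have h2 : R₂ ≤ |ht u a z| := by
      rw [h1]
      have : R₂ / δ ≤ R := by linarith
      rw [div_le_iff₀ hδ] at this
      linarith
    have h3 := mul_le_mul_of_nonneg_left hz' hc₂.le
    have h4 : 0 ≤ c₂ * (δ * R) := by positivity
    have h5 := (hD.dep x a (8 * R) e u β β' ha (by linarith) hfit z (closedBall_subset_closedBall (by linarith) hz) h2 (by rw [h1]; linarith)).1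
    refine le_trans ?_ h5
    rw [h1]
    have : R₀ / (c₂ * δ) ≤ R := by linarith
    rw [div_le_iff₀ (by positivity)] at this
    linarith
  set z₀ : ℂ := a + ((R : ℝ) : ℂ) * u with hz₀
  have hz₀Ω : z₀ ∈ Ω := by
    refine ⟨?_, ?_⟩
    · rw [mem_closedBall, dist_eq_norm, hz₀, add_sub_cancel_left, norm_mul, hu, mul_one, Complex.norm_real, Real.norm_of_nonneg hRp.le]
    · show δ * R ≤ ht u a z₀
      have h0 : ht u a a = 0 := by
        unfold ht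
        simp
      rw [hz₀, ht_add hu, h0, zero_add]
      nlinarith
  refine ⟨t, k, fun i => Φ.lam x i z₀ - t i * (k * (z₀ - a)).re, ht0, ht1, fun z hz hz' i => ?_⟩
  -- the function `lam - t Re k (z - a)`
  have hder : ∀ w ∈ Ω, HasFDerivAt (fun w => Φ.lam x i w - t i * (k * (w - a)).re)
      (fderiv ℝ (Φ.lam x i) w - t i • (Complex.reCLM.comp ((k • ContinuousLinearMap.id ℂ ℂ).restrictScalars ℝ))) w := by
    intro w hw
    have h1 : HasFDerivAt (Φ.lam x i) (fderiv ℝ (Φ.lam x i) w) w := ((hΦ.c2 x i w (hd w hw)).differentiableAt (by norm_num)).hasFDerivAt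
    have h2 : HasFDerivAt (fun w : ℂ => k * (w - a)) ((k • ContinuousLinearMap.id ℂ ℂ).restrictScalars ℝ) w :=
      ((((hasFDerivAt_id w).sub_const a).const_mul k) : HasFDerivAt (fun w : ℂ => k * (w - a)) (k • ContinuousLinearMap.id ℂ ℂ) w).restrictScalars ℝ
    exact h1.sub ((Complex.reCLM.hasFDerivAt.comp w h2).const_mul (t i))
  have hbd : ∀ w ∈ Ω, ‖fderiv ℝ (fun w => Φ.lam x i w - t i * (k * (w - a)).re) w‖ ≤ C₄ * R ^ (-α₁) := by
    intro w hw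
    refine ContinuousLinearMap.opNorm_le_bound _ (by positivity) fun v => ?_
    rw [(hder w hw).fderiv]
    have h1 : (fderiv ℝ (Φ.lam x i) w - t i • (Complex.reCLM.comp ((k • ContinuousLinearMap.id ℂ ℂ).restrictScalars ℝ))) v =
        ((gc (Φ.lam x i) w - (t i : ℂ) * k) * v).re := by
      show fderiv ℝ (Φ.lam x i) w v - t i * (k * v).re = _
      rw [fderiv_eq_gc, sub_mul, Complex.sub_re, mul_assoc, Complex.re_ofReal_mul]
    rw [h1, Real.norm_eq_abs]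
    refine (Complex.abs_re_le_norm _).trans ?_
    rw [norm_mul]
    exact mul_le_mul_of_nonneg_right (hk w hw.1 hw.2 i) (norm_nonneg _)
  have hmv := hΩc.norm_image_sub_le_of_norm_fderiv_le (𝕜 := ℝ) (f := fun w => Φ.lam x i w - t i * (k * (w - a)).re)
    (fun w hw => (hder w hw).differentiableAt) hbd hz₀Ω (show z ∈ Ω from ⟨hz, hz'⟩)
  rw [Real.norm_eq_abs] at hmv
  have h1 : ‖z - z₀‖ ≤ 2 * R := by
    have h2 : ‖z - a‖ ≤ R := by simpa [dist_eq_norm] using hz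
    have h3 : ‖z₀ - a‖ ≤ R := by simpa [dist_eq_norm] using hz₀Ω.1
    have h4 : z - z₀ = (z - a) - (z₀ - a) := by ring
    rw [h4]
    refine (norm_sub_le _ _).trans (by linarith)
  have h2 : C₄ * R ^ (-α₁) * ‖z - z₀‖ ≤ 2 * C₄ * R ^ (1 - α₁) := by
    have h3 : R ^ (1 - α₁) = R ^ (-α₁) * R := by
      rw [sub_eq_add_neg, add_comm, Real.rpow_add hRp, Real.rpow_one]
    rw [h3]
    calc C₄ * R ^ (-α₁) * ‖z - z₀‖ ≤ C₄ * R ^ (-α₁) * (2 * R) := mul_le_mul_of_nonneg_left h1 (by positivity)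
      _ = _ := by ring
  have h3 : Φ.lam x i z - (t i * (k * (z - a)).re + (Φ.lam x i z₀ - t i * (k * (z₀ - a)).re)) =
      Φ.lam x i z - t i * (k * (z - a)).re - (Φ.lam x i z₀ - t i * (k * (z₀ - a)).re) := by ring
  rw [h3]
  exact hmv.trans h2

end Pool.Agent.SR2.BE
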