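import Pool.Agent.SR2.ELine
import Pool.Agent.SR2.EDep
import Pool.Agent.SR2.ELow
import Pool.Agent.SR2.ETopA

/-!
# SR2 EStep: the flatness at one scale improves the flatness at the larger scales

`top_aff` at `2 R` (with `δ / 2`) for `u` and `-u`, `low_region`, `line_fit`: `C₇ C₆ δ ≤ 1/2`.
-/

set_option autoImplicit false

open Topology Filter Metric Complex InnerProductSpace Laplacian

noncomputable section

namespace Pool.Agent.SR2.BE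

variable {X ι : Type} [Fintype ι] {Φ : Fam X ι} {C c R₀ A c₂ C₂ R₂ : ℝ}

theorem flat_step (hΦ : Hyp Φ C c R₀) (hA : 0 < A) (hD : Dep Φ A c₂ C₂ R₂) (hR₂ : R₀ ≤ R₂) (hF : AllFlat Φ (2 * A)) {cq : ℝ} {J Ty : Type} [Fintype J]
    [Fintype Ty] {m : J → ℕ} {Pol : Ty → J → MvPolynomial ι ℂ} {q : X → J → ℂ} (hrel : Rel Φ C R₀ cq m Pol q) :
    ∃ c₁ C₁ R₁ η₀ γ : ℝ, 0 < c₁ ∧ c₁ < 1 ∧ 0 ≤ C₁ ∧ 1 ≤ R₁ ∧ 0 < η₀ ∧ 0 < γ ∧ γ ≤ 1 / 2 ∧ ∀ η r₁, 0 ≤ η → η ≤ η₀ → R₁ ≤ r₁ →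
      (∀ r, r₁ ≤ r → ∀ (x : X) (a : ℂ), a ∈ Φ.G x → ∃ u β β', Fit Φ x a r (η * r) A u β β') →
      ∀ r, r₁ / c₁ ≤ r → ∀ (x : X) (a : ℂ), a ∈ Φ.G x → ∃ u β β', Fit Φ x a r ((η / 2 + C₁ * r ^ (-γ)) * r) A u β β' := by
  obtain ⟨K₃, C₆, δ₀, hK₃, hC₆, hδ₀, hδ₀8, hKδ, hlow⟩ := low_region hΦ hA hD hR₂
  obtain ⟨C₇, η₂, R₇, hC₇, hη₂, hR₇, hline⟩ := line_fit hΦ hA hD hR₂
  -- the choice of `δ`
  obtain ⟨δ, hδ, hδδ₀, hδC⟩ : ∃ δ : ℝ, 0 < δ ∧ δ ≤ δ₀ ∧ C₇ * C₆ * δ ≤ 1 / 2 := by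
    have h1 : 0 < C₇ * C₆ := mul_pos hC₇ hC₆
    refine ⟨min δ₀ (1 / (2 * (C₇ * C₆))), lt_min hδ₀ (by positivity), min_le_left _ _, ?_⟩
    calc C₇ * C₆ * min δ₀ (1 / (2 * (C₇ * C₆))) ≤ C₇ * C₆ * (1 / (2 * (C₇ * C₆))) := mul_le_mul_of_nonneg_left (min_le_right _ _) h1.le
      _ = 1 / 2 := by field_simp
  have hδ8 : δ ≤ 1 / 8 := hδδ₀.trans hδ₀8
  obtain ⟨η₁, R₆, hη₁, hR₆, hlow⟩ := hlow δ hδ hδδ₀
  obtain ⟨α₁, C₅, R₅, hα₁, hα₁', hC₅, hR₅, htop⟩ := top_aff hΦ hA hD hR₂ (hF.mono (by linarith)) hrel (δ := δ / 2) (by positivity) (by linarith)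
  obtain ⟨R₈, hR₈⟩ := hF η₂ hη₂
  -- the choice of `R₁`
  have hκ : 0 < η₂ / (4 * ((C₆ + 1) * C₅)) := by positivity
  obtain ⟨R₉, hR₉⟩ : ∃ R₉ : ℝ, ∀ r, R₉ ≤ r → r ^ (-α₁) ≤ η₂ / (4 * ((C₆ + 1) * C₅)) := by
    have h1 := (tendsto_rpow_neg_atTop hα₁).eventually (gt_mem_nhds hκ)
    obtain ⟨R₉, h2⟩ := eventually_atTop.1 h1
    exact ⟨R₉, fun r hr => (h2 r hr).le⟩
  have hK₃δ : 0 < K₃ * δ := mul_pos (by linarith) hδ
  have hK₃δ1 : K₃ * δ ≤ 1 := (mul_le_mul_of_nonneg_left hδδ₀ (by linarith)).trans hKδ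
  have hc₂ := hD.c_pos
  obtain ⟨η₀, hη₀, hηa, hηb, hηc, hηd⟩ : ∃ η₀ : ℝ, 0 < η₀ ∧ η₀ ≤ η₁ ∧ η₀ ≤ η₂ ∧ 64 * η₀ ≤ c₂ * δ ∧ 2 * (C₆ * δ) * η₀ ≤ η₂ := by
    refine ⟨min (min η₁ η₂) (min (c₂ * δ / 64) (η₂ / (2 * (C₆ * δ)))), by positivity, (min_le_left _ _).trans (min_le_left _ _),
      (min_le_left _ _).trans (min_le_right _ _), ?_, ?_⟩
    · have h1 := (min_le_right (min η₁ η₂) (min (c₂ * δ / 64) (η₂ / (2 * (C₆ * δ))))).trans (min_le_left _ _)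
      linarith
    · have h1 := (min_le_right (min η₁ η₂) (min (c₂ * δ / 64) (η₂ / (2 * (C₆ * δ))))).trans (min_le_right _ _)
      have h2 : (0 : ℝ) < 2 * (C₆ * δ) := by positivity
      calc 2 * (C₆ * δ) * min (min η₁ η₂) (min (c₂ * δ / 64) (η₂ / (2 * (C₆ * δ)))) ≤ 2 * (C₆ * δ) * (η₂ / (2 * (C₆ * δ))) :=
            mul_le_mul_of_nonneg_left h1 h2.le
        _ = η₂ := by field_simp
  refine ⟨K₃ * δ / 2, 2 * C₇ * (C₆ + 1) * C₅ + C₇, 1 + |R₅| + |R₆| + |R₇| + |R₈| + |R₉|, η₀, α₁, by positivity, by linarith, by positivity, ?_,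
    hη₀, hα₁, hα₁', ?_⟩
  · have h5 := abs_nonneg R₅
    have h6 := abs_nonneg R₆
    have h7 := abs_nonneg R₇
    have h8 := abs_nonneg R₈
    have h9 := abs_nonneg R₉
    linarith
  intro η r₁ hη hηη₀ hr₁ hfl r hr x a ha
  have h5 := abs_nonneg R₅
  have h6 := abs_nonneg R₆
  have h7 := abs_nonneg R₇
  have h8 := abs_nonneg R₈
  have h9 := abs_nonneg R₉
  have h5' := le_abs_self R₅
  have h6' := le_abs_self R₆
  have h7' := le_abs_self R₇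
  have h8' := le_abs_self R₈
  have h9' := le_abs_self R₉
  have hr₁0 : 1 ≤ r₁ := by linarith
  have hKr : r₁ ≤ K₃ * δ / 2 * r := by
    rw [div_le_iff₀ (by positivity)] at hr
    linarith
  have hrr₁ : r₁ ≤ r := by
    have h1 : K₃ * δ / 2 * r ≤ 1 * r ∨ r < 0 := by
      rcases le_or_gt 0 r with h | h
      · exact Or.inl (mul_le_mul_of_nonneg_right (by linarith) h)
      · exact Or.inr h
    rcases h1 with h1 | h1
    · linarith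
    · have h2 : K₃ * δ / 2 * r < 0 := mul_neg_of_pos_of_neg (by positivity) h1
      linarith
  have hr1 : 1 ≤ r := hr₁0.trans hrr₁
  have hr0 : 0 < r := by linarith
  have hKr' : r₁ ≤ K₃ * δ * r := by
    have h1 : K₃ * δ / 2 * r ≤ K₃ * δ * r := mul_le_mul_of_nonneg_right (by linarith) hr0.le
    linarith
  -- the datum at the scale `16 r`
  obtain ⟨u, β, β', hfit⟩ := hfl (16 * r) (by linarith) x a ha
  have hfit8 : Fit Φ x a (8 * (2 * r)) (η * (16 * r)) A u β β' := by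
    rw [show 8 * (2 * r) = 16 * r by ring]
    exact hfit
  have he : η * (16 * r) ≤ c₂ * (δ / 2) * (2 * r) / 4 := by
    have h1 : 64 * η ≤ c₂ * δ := by linarith
    have h2 : 64 * η * r ≤ c₂ * δ * r := mul_le_mul_of_nonneg_right h1 hr0.le
    linarith
  obtain ⟨t, k, b, hta⟩ := htop x a ha (2 * r) (η * (16 * r)) u β β' (by linarith) hfit8 he
  obtain ⟨t', k', b', htb⟩ := htop x a ha (2 * r) (η * (16 * r)) (-u) β' β (by linarith) hfit8.flip he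
  set e : ℝ := C₅ * (2 * r) ^ (1 - α₁) with he_def
  have he0 : 0 ≤ e := by positivity
  -- `e ≤ 2 C₅ r ^ (-α₁) r`
  have heP : e ≤ 2 * C₅ * (r ^ (-α₁) * r) := by
    have h1 : (2 * r) ^ (1 - α₁) = (2 * r) * (2 * r) ^ (-α₁) := by
      rw [sub_eq_add_neg, Real.rpow_add (by positivity), Real.rpow_one]
    have h2 : (2 * r) ^ (-α₁) ≤ r ^ (-α₁) := Real.rpow_le_rpow_of_nonpos hr0 (by linarith) (by linarith)
    rw [he_def, h1]
    have h3 : 2 * r * (2 * r) ^ (-α₁) ≤ 2 * r * r ^ (-α₁) := mul_le_mul_of_nonneg_left h2 (by positivity)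
    calc C₅ * (2 * r * (2 * r) ^ (-α₁)) ≤ C₅ * (2 * r * r ^ (-α₁)) := mul_le_mul_of_nonneg_left h3 hC₅.le
      _ = 2 * C₅ * (r ^ (-α₁) * r) := by ring
  have hl := hlow x a ha r e η (by linarith) he0 hη (by linarith) (fun a' ha' => hfl (K₃ * δ * r) hKr' x a' ha') u β β' hfit t t' k k' b b' hta htb
  -- the bound `E`
  have hE : C₆ * (e + η * δ * r) + e ≤ η₂ * r := by
    have h1 : C₆ * (η * δ * r) ≤ η₂ / 2 * r := by
      have h2 : 2 * (C₆ * δ) * η ≤ η₂ := (mul_le_mul_of_nonneg_left hηη₀ (by positivity)).trans hηd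
      have h3 : 2 * (C₆ * δ) * η * r ≤ η₂ * r := mul_le_mul_of_nonneg_right h2 hr0.le
      linarith
    have h4 : (C₆ + 1) * e ≤ η₂ / 2 * r := by
      have h5 := hR₉ r (by linarith)
      have h6 : r ^ (-α₁) * (4 * ((C₆ + 1) * C₅)) ≤ η₂ := by
        rwa [le_div_iff₀ (by positivity)] at h5
      calc (C₆ + 1) * e ≤ (C₆ + 1) * (2 * C₅ * (r ^ (-α₁) * r)) := mul_le_mul_of_nonneg_left heP (by positivity)
        _ = r ^ (-α₁) * (4 * ((C₆ + 1) * C₅)) * (r / 2) := by ring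
        _ ≤ η₂ * (r / 2) := mul_le_mul_of_nonneg_right h6 (by positivity)
        _ = η₂ / 2 * r := by ring
    linarith
  have hE0 : 0 ≤ C₆ * (e + η * δ * r) := by positivity
  have hmono : ∀ {y : ℝ}, y ≤ C₆ * (e + η * δ * r) → y ≤ C₆ * (e + η * δ * r) + e := fun h => by linarith
  have hfin := hline x a ha r (C₆ * (e + η * δ * r) + e) (by linarith) (by linarith) hE (hR₈ x a ha (16 * r) (by linarith)) u β β'
    (hfit.mono le_rfl (mul_le_mul_of_nonneg_right (by linarith) (by positivity)) le_rfl) t t' k k' b b'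
    (hta.mono (by nlinarith) (by linarith)) (htb.mono (by nlinarith) (by linarith))
    (fun z hz => ⟨(hl z hz).1.imp (fun h i => hmono (h i)) fun h i => hmono (h i), fun hzG =>
      ⟨fun i => hmono (((hl z hz).2 hzG).1 i), fun i => hmono (((hl z hz).2 hzG).2 i)⟩⟩)
  obtain ⟨u', γ, γ', hfit'⟩ := hfin
  refine ⟨u', γ, γ', hfit'.mono le_rfl ?_ le_rfl⟩
  -- `C₇ (E + 1) ≤ (η / 2 + C₁ r ^ (-α₁)) r`
  have hone : 1 ≤ r ^ (-α₁) * r := by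
    have h1 : r ^ (-α₁) * r = r ^ (1 - α₁) := by
      rw [sub_eq_add_neg, add_comm, Real.rpow_add hr0, Real.rpow_one]
    rw [h1]
    exact Real.one_le_rpow hr1 (by linarith)
  have k1 : C₇ * C₆ * δ * (η * r) ≤ 1 / 2 * (η * r) := mul_le_mul_of_nonneg_right hδC (by positivity)
  have k2 : C₇ * (C₆ + 1) * e ≤ C₇ * (C₆ + 1) * (2 * C₅ * (r ^ (-α₁) * r)) := mul_le_mul_of_nonneg_left heP (by positivity)
  have k3 : C₇ * 1 ≤ C₇ * (r ^ (-α₁) * r) := mul_le_mul_of_nonneg_left hone hC₇.le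
  calc C₇ * (C₆ * (e + η * δ * r) + e + 1) = C₇ * C₆ * δ * (η * r) + C₇ * (C₆ + 1) * e + C₇ * 1 := by ring
    _ ≤ 1 / 2 * (η * r) + C₇ * (C₆ + 1) * (2 * C₅ * (r ^ (-α₁) * r)) + C₇ * (r ^ (-α₁) * r) := by linarith
    _ = (η / 2 + (2 * C₇ * (C₆ + 1) * C₅ + C₇) * r ^ (-α₁)) * r := by ring

end Pool.Agent.SR2.BE
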