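import Pool.Agent.SR2.EDep
import Pool.Agent.SR2.EIter
import Pool.Agent.SR2.EStep
import Pool.Agent.SR2.ELim

/-!
# SR2 EStr: straightness of the functions of a family (`exists_dep`, `flat_step`, `iter`, `limit_fit`)
-/

set_option autoImplicit false

open Topology Filter Metric

noncomputable section

namespace Pool.Agent.SR2.BE

variable {X ι : Type} [Fintype ι] {Φ : Fam X ι} {C c R₀ A : ℝ}

/-- monotonicity in the error, for all radii -/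
private theorem fit_mono' {x : X} {a : ℂ} {r e e' : ℝ} {u : ℂ} {β β' : ι → ℝ} (h : Fit Φ x a r (e * r) A u β β') (he : e ≤ e') :
    Fit Φ x a r (e' * r) A u β β' := by
  refine ⟨h.nu, h.nβ, h.nβ', h.Aβ, h.Aβ', fun z hz i => (h.fit z hz i).trans ?_⟩
  have h1 : 0 ≤ r := dist_nonneg.trans (mem_closedBall.1 hz)
  exact mul_le_mul_of_nonneg_right he h1

theorem straight_abs (hΦ : Hyp Φ C c R₀) (hA : 0 < A) (hF : AllFlat Φ (2 * A)) {cq : ℝ} {J Ty : Type} [Fintype J]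
    [Fintype Ty] {m : J → ℕ} {Pol : Ty → J → MvPolynomial ι ℂ} {q : X → J → ℂ} (hrel : Rel Φ C R₀ cq m Pol q) :
    ∃ γ B : ℝ, 0 < γ ∧ γ < 1 ∧ 0 < B ∧ ∀ (x : X) (a : ℂ), a ∈ Φ.G x → ∃ (u : ℂ) (β β' : ι → ℝ), ‖u‖ = 1 ∧ (∀ i, 0 ≤ β i ∧ 0 ≤ β' i) ∧
      A ≤ ∑ i, β i ∧ A ≤ ∑ i, β' i ∧ ∀ z i, |Φ.lam x i z - vee u a (β i) (β' i) z| ≤ B * (2 + ‖z - a‖) ^ γ := by
  obtain ⟨c₂, C₂, R₂, hR₂, hD⟩ := exists_dep hΦ hA
  obtain ⟨c₁, C₁, R₁, η₀, γ, hc, hc1, hC1, hR1, hη₀, hγ, -, hstep⟩ := flat_step hΦ hA hD hR₂ hF hrel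
  obtain ⟨Rη, hRη⟩ := hF η₀ hη₀
  have h1 : ∀ r, max R₁ Rη ≤ r → ∀ (x : X) (a : ℂ), a ∈ Φ.G x → ∃ u β β', Fit Φ x a r (η₀ * r) A u β β' := by
    intro r hr x a ha
    obtain ⟨u, β, β', h2⟩ := hRη x a ha r ((le_max_right _ _).trans hr)
    exact ⟨u, β, β', h2.mono le_rfl le_rfl (by linarith)⟩
  obtain ⟨α, C', R', hα, hα', hC', hR', h2⟩ := iter
    (Q := fun r η => ∀ (x : X) (a : ℂ), a ∈ Φ.G x → ∃ u β β', Fit Φ x a r (η * r) A u β β')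
    (fun r η η' hη h x a ha => by
      obtain ⟨u, β, β', h3⟩ := h x a ha
      exact ⟨u, β, β', fit_mono' h3 hη⟩) hc hc1 hC1 (by linarith [le_max_left R₁ Rη] : 0 < max R₁ Rη) hη₀ hγ h1
    (fun η r₁ h3 h4 h5 h6 => hstep η r₁ h3 h4 ((le_max_left _ _).trans h5) h6)
  obtain ⟨B, hB, h3⟩ := limit_fit hΦ hA hα hα' hC' (by linarith [le_max_left R₁ Rη] : 1 ≤ R') h2
  exact ⟨1 - α, B, by linarith, by linarith, hB, h3⟩

end Pool.Agent.SR2.BE
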