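import Pool.Agent.SR2.Defs

/-!
# SR2 Face: the statements which connect the blocks (stubs; never import this file in a hand-in)

Each block chief proves his statements of this file from his own modules, in `Pool.Agent.SR2` with exactly these statements.
-/

set_option autoImplicit false

open Topology Filter Metric

noncomputable section

namespace Pool.Agent.SR2

open Pool.Agent.H36.BP (EN fs wd Sub OrdTwo)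
open Pool.Agent.H14.PP (IsCone Tan)
open Pool.Agent.SY (Ent)
open Pool.Agent.SDA (EnergyK Near AffOpen Nm nForms)
open Geo (Gd)

variable {N : ℕ}

namespace Stub

variable {G : Geo N} {T : Set (EN N)} {rho : EN N → ℝ} {M : ℕ} {c₀ C δ : ℝ} {g : (ℂ → EN N) → ℂ → ℝ}

/-! ## block A: any metric -/

/-- BLOCK A -/
theorem compact (hG : G.Ok) (hM : G.Met T rho M c₀ C δ g) (𝒰 : Ultrafilter ℕ) (h𝒰 : (𝒰 : Filter ℕ) ≤ atTop) (q : ℕ → G.J → ℂ) (F : ℕ → ℂ → EN N)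
    (hF : ∀ k, G.Cl T (q k) (F k)) (h0 : ∀ k, δ ≤ rho (F k 0)) :
    ∃ (q' : G.J → ℂ) (H : ℂ → EN N), G.Cl T q' H ∧ Tendsto q 𝒰 (𝓝 q') ∧ δ ≤ rho (H 0) ∧ TendstoLocallyUniformlyOn F H 𝒰 Set.univ := by
  sorry

/-- BLOCK A -/
theorem exists_good (hG : G.Ok) (hM : G.Met T rho M c₀ C δ g) {q : G.J → ℂ} {F : ℂ → EN N} (hF : G.Cl T q F) : (Gd rho δ F).Nonempty := by
  sorry

/-- BLOCK A: (E) -/
theorem growth (hG : G.Ok) (hM : G.Met T rho M c₀ C δ g) :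
    ∃ B : ℝ, 0 ≤ B ∧ ∀ (q : G.J → ℂ) (F : ℂ → EN N), G.Cl T q F → ∀ z, Real.log ‖F z‖ ≤ B * (1 + infDist z (Gd rho δ F)) := by
  sorry

/-- BLOCK A: (L'), no metric -/
theorem lprime (hG : G.Ok) :
    ∃ A₀ r₀ : ℝ, 0 < A₀ ∧ 0 < r₀ ∧ ∀ F : ℂ → EN N, Differentiable ℂ F → (∀ z, F z ∈ G.K) → (∀ z, G.p (F z) = 1) → ∀ (z : ℂ) (r : ℝ), r₀ ≤ r →
      (∀ w ∈ closedBall z r, 1 ≤ G.n (F w) (deriv F w)) → ∃ w ∈ closedBall z r, A₀ * r ≤ Real.log ‖F w‖ := by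
  sorry

/-! ## blocks B, C: the first metric -/

/-- BLOCK B: gap (D) -/
theorem gapD (S : Base G T rho M c₀ C δ g) (B : ℝ) :
    ∃ R : ℝ, ∀ (q : G.J → ℂ) (F : ℂ → EN N), G.Cl T q F → ∀ z, Real.log ‖F z‖ ≤ B → infDist z (Gd rho δ F) ≤ R := by
  sorry

/-- BLOCK C: the static region is slow -/
theorem speed (S : Base G T rho M c₀ C δ g) :
    ∃ B R : ℝ, 0 < B ∧ 0 < R ∧ ∀ (q : G.J → ℂ) (F : ℂ → EN N), G.Cl T q F → ∀ z, R ≤ infDist z (Gd rho δ F) →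
      fs (F z) (deriv F z) ≤ B / infDist z (Gd rho δ F) := by
  sorry

/-- BLOCK C -/
theorem L_bdd (S : Base G T rho M c₀ C δ g) :
    ∃ B : ℝ, 0 < B ∧ ∀ (q : G.J → ℂ) (F : ℂ → EN N), G.Cl T q F → ∀ z, G.L (F z) (deriv F z) ≤ B := by
  sorry

/-- BLOCK C -/
theorem lower (S : Base G T rho M c₀ C δ g) :
    ∃ c B : ℝ, 0 < c ∧ ∀ (q : G.J → ℂ) (F : ℂ → EN N), G.Cl T q F → ∀ z, c * infDist z (Gd rho δ F) - B ≤ Real.log ‖F z‖ := by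
  sorry

/-! ## block D -/

/-- BLOCK D: flat at all large scales -/
theorem flat (S : Base G T rho M c₀ C δ g) :
    ∃ A' : ℝ, 0 < A' ∧ ∀ ε : ℝ, 0 < ε → ∃ R₀ : ℝ, 0 < R₀ ∧ ∀ (q : G.J → ℂ) (F : ℂ → EN N), G.Cl T q F → ∀ a ∈ Gd rho δ F, ∀ R : ℝ, R₀ ≤ R →
      ∃ (u : ℂ) (β β' : G.ι → ℝ), G.Fits F a u β β' (fun _ => ε * R) (closedBall a R) ∧ A' ≤ ∑ i, β i ∧ A' ≤ ∑ i, β' i := by
  sorry

/-! ## block E -/

/-- BLOCK E: straight -/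
theorem straight (S : Base G T rho M c₀ C δ g) :
    ∃ γ A' B : ℝ, 0 < γ ∧ γ < 1 ∧ 0 < A' ∧ 0 < B ∧ ∀ (q : G.J → ℂ) (F : ℂ → EN N), G.Cl T q F → ∀ a ∈ Gd rho δ F,
      ∃ (u : ℂ) (β β' : G.ι → ℝ), G.Fits F a u β β' (fun z => B * pw γ ‖z - a‖) Set.univ ∧ A' ≤ ∑ i, β i ∧ A' ≤ ∑ i, β' i := by
  sorry

/-! ## block F -/

/-- BLOCK F: rigidity.  `V` is a limit of difference quotients; `c` is constant. -/
theorem rigid (S : Base G T rho M c₀ C δ g) (𝒰 : Ultrafilter ℕ) (h𝒰 : (𝒰 : Filter ℕ) ≤ atTop) {q : G.J → ℂ} {F H : ℕ → ℂ → EN N} {ℓ : ℕ → ℝ}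
    {F₀ V : ℂ → EN N} {γ : ℝ} (hγ : γ < 1) (hF : ∀ k, G.Cl T q (F k)) (hH : ∀ k, G.Cl T q (H k)) (h0 : G.Cl T q F₀) (hℓ : ∀ k, 0 < ℓ k) (hℓ0 : Tendsto ℓ 𝒰 (𝓝 0))
    (h1 : TendstoLocallyUniformlyOn F F₀ 𝒰 Set.univ)
    (h2 : TendstoLocallyUniformlyOn (fun k z => ((ℓ k : ℂ)⁻¹) • (H k z - F k z)) V 𝒰 Set.univ)
    (hV : ∃ B : ℝ, ∀ z, ‖V z‖ ≤ Real.exp (B * pw γ ‖z‖) * ‖F₀ z‖ ∧
      ∀ i, ‖fderiv ℂ (G.E i) (F₀ z) (V z)‖ ≤ Real.exp (B * pw γ ‖z‖) * ‖G.E i (F₀ z)‖) :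
    ∃ c : ℂ, ∀ z, V z = c • deriv F₀ z := by
  sorry

end Stub

end Pool.Agent.SR2
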