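import Pool.Agent.SR2.DDefs

/-!
# SR2 HpPol: homogeneous polynomials in at most two variables
-/

set_option autoImplicit false

open MvPolynomial

noncomputable section

namespace Pool.Agent.SR2

open Pool.Agent.SDR (hp)

variable {ι : Type} [Fintype ι]

/-- a homogeneous polynomial on a plane is a binary form -/
theorem exists_hp_two [DecidableEq ι] {e₁ e₂ : ι} (he : e₁ ≠ e₂) {m : ℕ} {P : MvPolynomial ι ℂ} (hP : P.IsHomogeneous m) :
    ∃ c : ℕ → ℂ, ∀ y : ι → ℂ, (∀ i, i ≠ e₁ → i ≠ e₂ → y i = 0) → eval y P = hp c m (y e₁) (y e₂) := by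
  refine ⟨fun l => ∑ s ∈ P.support with s e₂ = l ∧ (∀ i, i ≠ e₁ → i ≠ e₂ → s i = 0), coeff s P, fun y hy => ?_⟩
  rw [eval_eq']
  have h1 : ∀ s ∈ P.support, coeff s P * ∏ i, y i ^ s i =
      if (∀ i, i ≠ e₁ → i ≠ e₂ → s i = 0) then coeff s P * (y e₁ ^ (m - s e₂) * y e₂ ^ s e₂) else 0 := by
    intro s hs
    split_ifs with h
    · have hdeg : s e₁ + s e₂ = m := by
        have h2 := hP (mem_support_iff.1 hs)
        rw [Finsupp.weight_apply, Finsupp.sum_fintype _ _ (fun _ => by simp)] at h2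
        rw [← h2, ← Finset.sum_subset (Finset.subset_univ {e₁, e₂}), Finset.sum_pair he]
        · simp
        · intro i _ hi
          rw [Finset.mem_insert, Finset.mem_singleton, not_or] at hi
          simp [h i hi.1 hi.2]
      have h3 : ∏ i, y i ^ s i = y e₁ ^ s e₁ * y e₂ ^ s e₂ := by
        rw [← Finset.prod_subset (Finset.subset_univ {e₁, e₂}), Finset.prod_pair he]
        intro i _ hi
        rw [Finset.mem_insert, Finset.mem_singleton, not_or] at hi
        rw [h i hi.1 hi.2, pow_zero]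
      rw [h3, ← hdeg, Nat.add_sub_cancel]
    · push Not at h
      obtain ⟨i, hi1, hi2, hi3⟩ := h
      rw [Finset.prod_eq_zero (Finset.mem_univ i), mul_zero]
      rw [hy i hi1 hi2, zero_pow hi3]
  rw [Finset.sum_congr rfl h1]
  unfold hp
  rw [← Finset.sum_filter]
  have h2 : ∀ s ∈ P.support.filter (fun s => ∀ i, i ≠ e₁ → i ≠ e₂ → s i = 0), s e₂ ∈ Finset.range (m + 1) := by
    intro s hs
    rw [Finset.mem_filter] at hs
    rw [Finset.mem_range]
    have h2 := hP (mem_support_iff.1 hs.1)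
    rw [Finsupp.weight_apply, Finsupp.sum_fintype _ _ (fun _ => by simp)] at h2
    have h3 : s e₂ ≤ m := by
      rw [← h2]
      have := Finset.single_le_sum (f := fun i => s i • (1 : ι → ℕ) i) (fun i _ => Nat.zero_le _) (Finset.mem_univ e₂)
      simpa using this
    omega
  rw [← Finset.sum_fiberwise_of_maps_to h2]
  refine Finset.sum_congr rfl fun l _ => ?_
  rw [Finset.sum_mul, Finset.sum_mul, Finset.filter_filter]
  refine Finset.sum_congr ?_ fun s hs => ?_
  · ext s
    simp only [Finset.mem_filter]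
    tauto
  · rw [Finset.mem_filter] at hs
    rw [hs.2.1]
    ring

theorem eval_smul_of_hom {m : ℕ} {P : MvPolynomial ι ℂ} (hP : P.IsHomogeneous m) (t : ℂ) (y : ι → ℂ) :
    eval (fun i => t * y i) P = t ^ m * eval y P := by
  rw [eval_eq', eval_eq', Finset.mul_sum]
  refine Finset.sum_congr rfl fun s hs => ?_
  have h2 := hP (mem_support_iff.1 hs)
  rw [Finsupp.weight_apply, Finsupp.sum_fintype _ _ (fun _ => by simp)] at h2
  have h3 : ∑ i, s i = m := by
    rw [← h2]
    simp
  have h4 : ∏ i, (t * y i) ^ s i = t ^ m * ∏ i, y i ^ s i := by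
    rw [← h3, ← Finset.prod_pow_eq_pow_sum, ← Finset.prod_mul_distrib]
    exact Finset.prod_congr rfl fun i _ => mul_pow _ _ _
  rw [h4]
  ring

theorem exists_hp [Nonempty ι] {s : Finset ι} (hs : s.card ≤ 2) {m : ℕ} {P : MvPolynomial ι ℂ} (hP : P.IsHomogeneous m)
    (_hPs : ∀ y y' : ι → ℂ, (∀ i ∈ s, y i = y' i) → eval y P = eval y' P) :
    ∃ (e₁ e₂ : ι) (c : ℕ → ℂ), (∀ i ∈ s, i = e₁ ∨ i = e₂) ∧ ∀ y : ι → ℂ, (∀ i, i ∉ s → y i = 0) → eval y P = hp c m (y e₁) (y e₂) := by
  classical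
  rcases subsingleton_or_nontrivial ι with hι | hι
  · obtain ⟨e⟩ := ‹Nonempty ι›
    refine ⟨e, e, fun l => if l = 0 then eval (fun _ => 1) P else 0, fun i _ => Or.inl (Subsingleton.elim _ _), fun y _ => ?_⟩
    have h1 : y = fun i => y e * (fun _ => (1 : ℂ)) i := by
      funext i
      rw [Subsingleton.elim i e, mul_one]
    rw [h1, eval_smul_of_hom hP]
    unfold hp
    rw [Finset.sum_eq_single 0]
    · simp
      ring
    · intro l _ hl
      simp [hl]
    · intro h0
      simp at h0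
  · have hex : ∃ e₁ e₂ : ι, e₁ ≠ e₂ ∧ ∀ i ∈ s, i = e₁ ∨ i = e₂ := by
      have hcase : s.card = 0 ∨ s.card = 1 ∨ s.card = 2 := by omega
      rcases hcase with h0 | h1 | h2
      · obtain ⟨a, b, hab⟩ := exists_pair_ne ι
        refine ⟨a, b, hab, fun i hi => ?_⟩
        rw [Finset.card_eq_zero.1 h0] at hi
        simp at hi
      · obtain ⟨a, ha⟩ := Finset.card_eq_one.1 h1
        obtain ⟨b, hb⟩ := exists_ne a
        refine ⟨a, b, hb.symm, fun i hi => ?_⟩
        rw [ha, Finset.mem_singleton] at hi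
        exact Or.inl hi
      · obtain ⟨a, b, hab, hs'⟩ := Finset.card_eq_two.1 h2
        refine ⟨a, b, hab, fun i hi => ?_⟩
        rw [hs', Finset.mem_insert, Finset.mem_singleton] at hi
        exact hi
    obtain ⟨e₁, e₂, hne, hs'⟩ := hex
    obtain ⟨c, hc⟩ := exists_hp_two hne hP
    refine ⟨e₁, e₂, c, hs', fun y hy => hc y fun i h1 h2 => hy i fun hi => ?_⟩
    rcases hs' i hi with h3 | h3
    · exact h1 h3
    · exact h2 h3

end Pool.Agent.SR2
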