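import Pool.Agent.SR2.DDefs
import Pool.Agent.H17.Montel

/-!
# SR2 Lim: limits of approximate blow-downs along ultrafilters
-/

set_option autoImplicit false

open Metric Topology Filter MvPolynomial InnerProductSpace

noncomputable section

namespace Pool.Agent.SR2

open Pool.Agent.SDR (gc gc_congr gc_re)

variable {ι J Ty : Type} [Fintype ι]

/-- the limit of functions which are almost real parts of holomorphic functions -/
theorem lim_one {𝒰 : Ultrafilter ℕ} {u : ℕ → ℂ → ℝ} {v : ℂ → ℝ} {h : ℕ → ℂ → ℂ} {w : ℂ} {r C : ℝ} (hr : 0 < r)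
    (hd : ∀ᶠ n in (𝒰 : Filter ℕ), DifferentiableOn ℂ (h n) (ball w r))
    (hε : ∀ ε : ℝ, 0 < ε → ∀ᶠ n in (𝒰 : Filter ℕ), ∀ z ∈ ball w r, |u n z - (h n z).re| ≤ ε)
    (hlip : ∀ᶠ n in (𝒰 : Filter ℕ), ∀ z z', |u n z - u n z'| ≤ C * ‖z - z'‖)
    (hv : ∀ z ∈ ball w r, Tendsto (fun n => u n z) 𝒰 (𝓝 (v z))) :
    HarmonicAt v w ∧ Tendsto (fun n => deriv (h n) w) 𝒰 (𝓝 (gc v w)) := by
  have hw : w ∈ ball w r := mem_ball_self hr
  set M : ℝ := |C| * r + 2 with hM
  have hM0 : 0 < M := by positivity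
  set K : ℕ → ℂ → ℂ := fun n z => h n z - h n w with hK
  have h1 : ∀ᶠ n in (𝒰 : Filter ℕ), DifferentiableOn ℂ (K n) (ball w (r / 2)) := by
    filter_upwards [hd] with n hn
    exact (hn.mono (ball_subset_ball (by linarith))).sub_const _
  have h2 : ∀ᶠ n in (𝒰 : Filter ℕ), ∀ z ∈ ball w (r / 2), ‖K n z‖ ≤ 2 * M := by
    filter_upwards [hd, hε 1 one_pos, hlip] with n hn1 hn2 hn3 z hz
    have hmem : ∀ y ∈ ball (0 : ℂ) r, w + y ∈ ball w r := fun y hy => by
      rw [mem_ball, dist_eq_norm] at hy ⊢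
      simpa using hy
    have hdiff : DifferentiableOn ℂ (fun y => h n (w + y) - h n w) (ball 0 r) := by
      apply DifferentiableOn.sub_const
      apply hn1.comp (by fun_prop) hmem
    have hre : Set.MapsTo (fun y => h n (w + y) - h n w) (ball 0 r) {z | z.re ≤ M} := by
      intro y hy
      show (h n (w + y) - h n w).re ≤ M
      have a1 := hn2 _ (hmem y hy)
      have a2 := hn2 _ hw
      have a3 := hn3 (w + y) w
      have a4 : C * ‖w + y - w‖ ≤ |C| * r := by
        rw [add_sub_cancel_left]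
        have : ‖y‖ ≤ r := by
          rw [mem_ball_zero_iff] at hy
          exact hy.le
        calc C * ‖y‖ ≤ |C| * ‖y‖ := by gcongr; exact le_abs_self C
          _ ≤ |C| * r := by gcongr
      rw [Complex.sub_re]
      have b1 := abs_le.1 a1
      have b2 := abs_le.1 a2
      have b3 := abs_le.1 a3
      rw [hM]
      linarith [b1.1, b1.2, b2.1, b2.2, b3.1, b3.2]
    have hzr : z - w ∈ ball (0 : ℂ) r := by
      rw [mem_ball_zero_iff]
      rw [mem_ball, dist_eq_norm] at hz
      linarith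
    have hbc := Complex.borelCaratheodory_zero hM0 hdiff hre hr hzr (by simp)
    have hz' : ‖z - w‖ < r / 2 := by
      rw [mem_ball, dist_eq_norm] at hz
      exact hz
    have e1 : K n z = h n (w + (z - w)) - h n w := by rw [hK]; simp
    rw [e1]
    refine hbc.trans ?_
    rw [div_le_iff₀ (by linarith)]
    nlinarith [norm_nonneg (z - w)]
  obtain ⟨g, hg1, hg2⟩ := Pool.Agent.H17.montel_ultrafilter 𝒰 h1 h2
  have hw2 : w ∈ ball w (r / 2) := mem_ball_self (by linarith)
  have hg3 : ∀ z ∈ ball w (r / 2), Tendsto (fun n => K n z) 𝒰 (𝓝 (g z)) := fun z hz => hg2.tendsto_at hz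
  have hsub : ball w (r / 2) ⊆ ball w r := ball_subset_ball (by linarith)
  have hre : ∀ z ∈ ball w r, Tendsto (fun n => (h n z).re) 𝒰 (𝓝 (v z)) := by
    intro z hz
    have e1 : Tendsto (fun n => u n z - (h n z).re) 𝒰 (𝓝 0) := by
      rw [Metric.tendsto_nhds]
      intro ε hε'
      filter_upwards [hε (ε / 2) (by linarith)] with n hn
      rw [Real.dist_eq, sub_zero]
      have := hn z hz
      linarith
    have e2 := (hv z hz).sub e1
    simpa using e2
  have hveq : ∀ z ∈ ball w (r / 2), v z = ((v w : ℂ) + g z).re := by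
    intro z hz
    have e1 := (hre z (hsub hz)).sub (hre w hw)
    have e2 : Tendsto (fun n => (K n z).re) 𝒰 (𝓝 (g z).re) := (Complex.continuous_re.tendsto _).comp (hg3 z hz)
    have e3 : (fun n => (h n z).re - (h n w).re) = fun n => (K n z).re := by
      funext n
      simp [hK]
    rw [e3] at e1
    have := tendsto_nhds_unique e1 e2
    rw [Complex.add_re, Complex.ofReal_re, ← this]
    ring
  have hga : AnalyticAt ℂ (fun z => (v w : ℂ) + g z) w :=
    analyticAt_const.add (hg1.analyticAt (isOpen_ball.mem_nhds hw2))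
  have hev : v =ᶠ[𝓝 w] fun z => ((v w : ℂ) + g z).re := by
    filter_upwards [isOpen_ball.mem_nhds hw2] with z hz
    exact hveq z hz
  constructor
  · rw [harmonicAt_congr_nhds hev]
    exact hga.harmonicAt_re
  · rw [gc_congr hev, gc_re hga]
    have e1 : deriv (fun z => (v w : ℂ) + g z) w = deriv g w := by
      rw [deriv_const_add]
    rw [e1]
    have e2 := (hg2.deriv h1 isOpen_ball).tendsto_at hw2
    refine e2.congr' ?_
    filter_upwards with n
    show deriv (K n) w = deriv (h n) w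
    rw [hK]
    simp only [deriv_sub_const]

/-- The limit of a sequence of approximate blow-downs is a blow-down. -/
theorem Pre.limit [Finite Ty] {supp : Ty → Finset ι} {P : Ty → J → MvPolynomial ι ℂ} {C A : ℝ} {𝒰 : Ultrafilter ℕ} {q : ℕ → J → ℂ}
    {U : ℕ → ι → ℂ → ℝ} (hC : 0 ≤ C) (h : Pre supp P C A (𝒰 : Filter ℕ) q U) (hq : ∀ n j, ‖q n j‖ ≤ 1) :
    ∃ (q' : J → ℂ) (V : ι → ℂ → ℝ), Bl supp P C A q' V ∧ (∀ j, Tendsto (fun n => q n j) 𝒰 (𝓝 (q' j))) ∧
      (∀ i z, Tendsto (fun n => U n i z) 𝒰 (𝓝 (V i z))) ∧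
      ∀ R ε : ℝ, 0 < ε → ∀ᶠ n in (𝒰 : Filter ℕ), ∀ i, ∀ z ∈ closedBall (0 : ℂ) R, |U n i z - V i z| ≤ ε := by
  classical
  -- the limits
  have hq' : ∀ j, ∃ l : ℂ, Tendsto (fun n => q n j) 𝒰 (𝓝 l) := by
    intro j
    obtain ⟨l, -, hl⟩ := (isCompact_closedBall (0 : ℂ) 1).ultrafilter_le_nhds (𝒰.map fun n => q n j) (by
      rw [le_principal_iff]
      refine Filter.Eventually.of_forall (f := (𝒰 : Filter ℕ)) fun n => ?_
      show q n j ∈ closedBall (0 : ℂ) 1
      rw [mem_closedBall_zero_iff]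
      exact hq n j)
    exact ⟨l, hl⟩
  choose q' hq' using hq'
  obtain ⟨B, hB⟩ := h.bound
  have hV : ∀ i z, ∃ l : ℝ, Tendsto (fun n => U n i z) 𝒰 (𝓝 l) := by
    intro i z
    have hb : ∀ᶠ n in (𝒰 : Filter ℕ), U n i z ∈ closedBall (0 : ℝ) (B + C * ‖z‖) := by
      filter_upwards [hB, h.lip] with n h1 h2
      rw [mem_closedBall_zero_iff, Real.norm_eq_abs]
      have e1 := h2 i z 0
      have e2 := h1 i
      rw [sub_zero] at e1
      have := abs_sub_abs_le_abs_sub (U n i z) (U n i 0)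
      linarith
    obtain ⟨l, -, hl⟩ := (isCompact_closedBall (0 : ℝ) (B + C * ‖z‖)).ultrafilter_le_nhds (𝒰.map fun n => U n i z) (by
      rw [le_principal_iff]
      exact hb)
    exact ⟨l, hl⟩
  choose V hV using hV
  have hlip : ∀ i z w, |V i z - V i w| ≤ C * ‖z - w‖ := by
    intro i z w
    refine le_of_tendsto ((hV i z).sub (hV i w)).abs ?_
    filter_upwards [h.lip] with n hn
    exact hn i z w
  -- uniform convergence
  have hunif : ∀ R ε : ℝ, 0 < ε → ∀ᶠ n in (𝒰 : Filter ℕ), ∀ i, ∀ z ∈ closedBall (0 : ℂ) R, |U n i z - V i z| ≤ ε := by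
    intro R ε hε
    set η : ℝ := ε / (4 * (C + 1)) with hη
    have hη0 : 0 < η := by positivity
    obtain ⟨s, -, hs1, hs2⟩ := (isCompact_closedBall (0 : ℂ) R).finite_cover_balls hη0
    have h1 : ∀ᶠ n in (𝒰 : Filter ℕ), ∀ i, ∀ x ∈ s, |U n i x - V i x| ≤ ε / 4 := by
      rw [eventually_all]
      intro i
      rw [hs1.eventually_all]
      intro x _
      have := (hV i x).eventually (Metric.closedBall_mem_nhds (V i x) (show (0 : ℝ) < ε / 4 by positivity))
      filter_upwards [this] with n hn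
      exact hn
    filter_upwards [h1, h.lip] with n hn1 hn2 i z hz
    obtain ⟨x, hx, hzx⟩ := Set.mem_iUnion₂.1 (hs2 hz)
    rw [mem_ball, dist_eq_norm] at hzx
    have a1 := abs_le.1 (hn1 i x hx)
    have a2 := abs_le.1 (hn2 i z x)
    have a3 := abs_le.1 (hlip i z x)
    have a4 : C * ‖z - x‖ ≤ ε / 4 := by
      calc C * ‖z - x‖ ≤ (C + 1) * η := by
            apply mul_le_mul (by linarith) hzx.le (norm_nonneg _) (by linarith)
        _ = ε / 4 := by rw [hη]; field_simp
    rw [abs_le]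
    constructor <;> linarith [a1.1, a1.2, a2.1, a2.2, a3.1, a3.2]
  have hnn : ∀ i z, 0 ≤ V i z := by
    intro i z
    by_contra hneg
    push Not at hneg
    have h1 : ∀ᶠ n in (𝒰 : Filter ℕ), -(-V i z / 2) ≤ U n i z := h.nonneg i z (-V i z / 2) (by linarith)
    have h2 := ge_of_tendsto (hV i z) h1
    linarith
  -- the local statement
  have hloc : ∀ w, 0 < ∑ i, V i w → (∀ i, HarmonicAt (V i) w) ∧
      ∃ t, (∀ i, i ∉ supp t → V i w = 0) ∧ ∀ j, eval (fun i => gc (V i) w) (P t j) = q' j := by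
    intro w hw
    have hsum : Tendsto (fun n => ∑ i, U n i w) 𝒰 (𝓝 (∑ i, V i w)) := tendsto_finsetSum _ fun i _ => hV i w
    have hδ : ∀ᶠ n in (𝒰 : Filter ℕ), (∑ i, V i w) / 2 ≤ ∑ i, U n i w := by
      have := hsum.eventually (Ioi_mem_nhds (show (∑ i, V i w) / 2 < ∑ i, V i w by linarith))
      filter_upwards [this] with n hn
      exact le_of_lt hn
    obtain ⟨r, hr, k, hk1, hk2⟩ := h.hol w _ (by linarith) hδ
    have hone : ∀ i, HarmonicAt (V i) w ∧ Tendsto (fun n => deriv (k n i) w) 𝒰 (𝓝 (gc (V i) w)) := by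
      intro i
      refine lim_one (C := C) hr ?_ ?_ ?_ fun z _ => hV i z
      · filter_upwards [hk1] with n hn
        exact hn i
      · intro ε hε
        filter_upwards [hk2 ε hε] with n hn z hz
        exact hn.1 i z hz
      · filter_upwards [h.lip] with n hn z z'
        exact hn i z z'
    refine ⟨fun i => (hone i).1, ?_⟩
    -- one type for all `ε`
    have htyp : ∃ t, ∀ ε : ℝ, 0 < ε → ∀ᶠ n in (𝒰 : Filter ℕ), (∀ i, i ∉ supp t → U n i w ≤ ε) ∧
        ∀ j, ‖eval (fun i => deriv (k n i) w) (P t j) - q n j‖ ≤ ε := by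
      by_contra hcon
      push Not at hcon
      choose ε hε1 hε2 using hcon
      rcases isEmpty_or_nonempty Ty with hE | hN
      · obtain ⟨n, hn⟩ := (hk2 1 one_pos).exists
        obtain ⟨t, -⟩ := hn.2
        exact hE.elim t
      · obtain ⟨t₀, ht₀⟩ := Finite.exists_min ε
        have h1 : ∀ᶠ n in (𝒰 : Filter ℕ), ∀ t, ¬((∀ i, i ∉ supp t → U n i w ≤ ε t) ∧
            ∀ j, ‖eval (fun i => deriv (k n i) w) (P t j) - q n j‖ ≤ ε t) := by
          rw [eventually_all]
          intro t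
          filter_upwards [hε2 t] with n hn hh
          obtain ⟨j, hj⟩ := hn hh.1
          exact absurd (hh.2 j) (not_le.2 hj)
        obtain ⟨n, hn1, hn2⟩ := (h1.and (hk2 (ε t₀) (hε1 t₀))).exists
        obtain ⟨t, ht1, ht2⟩ := hn2.2
        exact hn1 t ⟨fun i hi => (ht1 i hi).trans (ht₀ t), fun j => (ht2 j).trans (ht₀ t)⟩
    obtain ⟨t, ht⟩ := htyp
    refine ⟨t, fun i hi => ?_, fun j => ?_⟩
    · apply le_antisymm _ (hnn i w)
      apply le_of_forall_pos_le_add
      intro ε hε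
      rw [zero_add]
      refine le_of_tendsto (hV i w) ?_
      filter_upwards [ht ε hε] with n hn
      exact hn.1 i hi
    · have e1 : Tendsto (fun n => eval (fun i => deriv (k n i) w) (P t j)) 𝒰 (𝓝 (eval (fun i => gc (V i) w) (P t j))) := by
        have e2 : Tendsto (fun n => fun i => deriv (k n i) w) 𝒰 (𝓝 fun i => gc (V i) w) := tendsto_pi_nhds.2 fun i => (hone i).2
        exact ((MvPolynomial.continuous_eval (P t j)).tendsto _).comp e2
      have e3 : Tendsto (fun n => eval (fun i => deriv (k n i) w) (P t j) - q n j) 𝒰 (𝓝 0) := by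
        rw [Metric.tendsto_nhds]
        intro ε hε
        filter_upwards [ht (ε / 2) (by linarith)] with n hn
        rw [dist_zero_right]
        have := hn.2 j
        linarith
      have e4 := e1.sub e3
      have e5 : (fun n => eval (fun i => deriv (k n i) w) (P t j) - (eval (fun i => deriv (k n i) w) (P t j) - q n j)) = fun n => q n j := by
        funext n
        ring
      rw [e5, sub_zero] at e4
      exact tendsto_nhds_unique e4 (hq' j)
  refine ⟨q', V, ⟨hnn, hlip, ?_, fun w hw => (hloc w hw).1, fun w hw => (hloc w hw).2⟩, hq', hV, hunif⟩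
  -- growth
  intro w r hr
  have hc : ∀ᶠ n in (𝒰 : Filter ℕ), ∃ z ∈ closedBall w r, A * r ≤ ∑ i, U n i z := h.big w r hr
  have hex : ∃ y : ℕ → ℂ, ∀ᶠ n in (𝒰 : Filter ℕ), y n ∈ closedBall w r ∧ A * r ≤ ∑ i, U n i (y n) := by
    refine ⟨fun n => if hn : ∃ z ∈ closedBall w r, A * r ≤ ∑ i, U n i z then hn.choose else 0, ?_⟩
    filter_upwards [hc] with n hn
    simp only [hn, dif_pos]
    exact hn.choose_spec
  obtain ⟨y, hy⟩ := hex
  obtain ⟨z, hz, hyz⟩ := (isCompact_closedBall w r).ultrafilter_le_nhds (𝒰.map y) (by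
    rw [le_principal_iff]
    exact hy.mono fun n hn => hn.1)
  have hyz' : Tendsto y 𝒰 (𝓝 z) := hyz
  refine ⟨z, hz, ?_⟩
  have h1 : Tendsto (fun n => ∑ i, U n i z + ∑ _i : ι, C * ‖y n - z‖) 𝒰 (𝓝 (∑ i, V i z + ∑ _i : ι, C * ‖z - z‖)) := by
    refine (tendsto_finsetSum _ fun i _ => hV i z).add (tendsto_finsetSum _ fun i _ => ?_)
    exact ((hyz'.sub_const z).norm).const_mul C
  have h2 : A * r ≤ ∑ i, V i z + ∑ _i : ι, C * ‖z - z‖ := by
    refine ge_of_tendsto h1 ?_
    filter_upwards [hy, h.lip] with n hn1 hn2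
    refine hn1.2.trans ?_
    rw [← Finset.sum_add_distrib]
    apply Finset.sum_le_sum
    intro i _
    have := (abs_le.1 (hn2 i (y n) z)).2
    linarith
  simpa using h2

end Pool.Agent.SR2
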