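import Pool.Agent.SR2.Har
import Pool.Agent.SR2.Lim
import Pool.Agent.SR2.Comp
import Pool.Agent.SR2.HpPol

/-!
# SR2 FamB: the class of blow-downs is a compact family
-/

set_option autoImplicit false

open Metric Topology Filter MvPolynomial InnerProductSpace

noncomputable section

namespace Pool.Agent.SR2

open Pool.Agent.SDR (gc gc_congr hp tot Blow BlowFam)

variable {ι J Ty : Type} [Fintype ι]

theorem gc_const (a : ℝ) (z : ℂ) : gc (fun _ => a) z = 0 := by
  unfold gc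
  simp

theorem hp_div (c : ℕ → ℂ) (m : ℕ) (κ x y : ℂ) : hp (fun l => c l / κ) m x y = hp c m x y / κ := by
  unfold hp
  rw [Finset.sum_div]
  refine Finset.sum_congr rfl fun l _ => ?_
  ring

/-- a member of the class is a `Blow` -/
theorem Bl.blow [Finite Ty] [Nonempty ι] {supp : Ty → Finset ι} {P : Ty → J → MvPolynomial ι ℂ} {C A : ℝ} (hC : 0 ≤ C) (hA : 0 < A)
    {m : J → ℕ} (hm : ∀ j, 1 ≤ m j) (hP : ∀ t j, (P t j).IsHomogeneous (m j)) {j : J} {κ : ℝ} (hκ : 0 < κ) {e₁ e₂ : Ty → ι} {c : Ty → ℕ → ℂ}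
    (he : ∀ t, ∀ i ∈ supp t, i = e₁ t ∨ i = e₂ t)
    (hc : ∀ t, ∀ y : ι → ℂ, (∀ i, i ∉ supp t → y i = 0) → eval y (P t j) = hp (c t) (m j) (y (e₁ t)) (y (e₂ t))) {q : J → ℂ}
    {U : ι → ℂ → ℝ} (h : Bl supp P C A q U) (hq : ‖q j‖ = κ) : Blow (fun t l => c t l / (κ : ℂ)) (m j) e₁ e₂ (A / 6) (2 * C) U := by
  have hcont : ∀ i, Continuous (U i) := by
    intro i
    apply LipschitzWith.continuous (K := C.toNNReal)
    apply LipschitzWith.of_dist_le_mul
    intro z w
    rw [Real.dist_eq, Real.coe_toNNReal _ hC, dist_eq_norm]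
    exact h.lip i z w
  refine ⟨hcont, h.nonneg, ?_, ?_, ?_, h.harm, ?_, ?_⟩
  · by_contra hcon
    push Not at hcon
    have hpos : ∀ z, 0 < ∑ i, U i z := fun z =>
      lt_of_le_of_ne (Finset.sum_nonneg fun i _ => h.nonneg i z) (Ne.symm (hcon z))
    have hconst : ∀ i z, U i z = U i 0 := fun i => const_of_nonneg (fun z => h.harm z (hpos z) i) (h.nonneg i)
    obtain ⟨t, -, ht⟩ := h.typ 0 (hpos 0)
    have h1 := ht j
    have h2 : (fun i => gc (U i) 0) = fun i => (0 : ℂ) * (fun _ => (1 : ℂ)) i := by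
      funext i
      have h3 : U i = fun _ => U i 0 := funext fun z => hconst i z
      rw [h3, gc_const, zero_mul]
    rw [h2, eval_smul_of_hom (hP t j), zero_pow (by have := hm j; omega), zero_mul] at h1
    rw [← h1, norm_zero] at hq
    linarith
  · by_contra hcon
    obtain ⟨z, hz⟩ := Set.nonempty_iff_ne_empty.2 hcon
    obtain ⟨r, hr, hb⟩ := Metric.isOpen_iff.1 isOpen_interior z hz
    obtain ⟨y, hy, hAy⟩ := h.big z (r / 2) (by linarith)
    have h1 : y ∈ ball z r := closedBall_subset_ball (by linarith) hy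
    have h2 : y ∈ {z | tot U z = 0} := interior_subset (hb h1)
    have h3 : ∑ i, U i y = 0 := h2
    rw [h3] at hAy
    have : 0 < A * (r / 2) := by positivity
    linarith
  · intro z r hr hpos
    obtain ⟨y, hy, hAy⟩ := h.big z (r / 2) (by linarith)
    have h1 : ∑ i, U i y ≤ ∑ i, 3 * U i z :=
      Finset.sum_le_sum fun i _ => harnack hr (fun w hw => h.harm w (hpos w hw) i) (fun w _ => h.nonneg i w) y hy
    rw [← Finset.mul_sum] at h1
    unfold tot
    linarith
  · intro z _ i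
    exact norm_gc_le_lip hC (Eventually.of_forall fun w => h.lip i w z)
  · intro z hz
    obtain ⟨t, ht⟩ := h.typ_near hz
    refine ⟨t, fun i h1 h2 => ht.self_of_nhds.1 i fun hi => ?_, ?_⟩
    · rcases he t i hi with h3 | h3
      · exact h1 h3
      · exact h2 h3
    · filter_upwards [eventually_eventually_nhds.2 ht] with w hw
      have h1 : ∀ i, i ∉ supp t → gc (U i) w = 0 := by
        intro i hi
        have h2 : U i =ᶠ[𝓝 w] fun _ => (0 : ℝ) := by
          filter_upwards [hw] with y hy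
          exact hy.1 i hi
        rw [gc_congr h2, gc_const]
      have h2 := hw.self_of_nhds.2 j
      rw [hc t _ h1] at h2
      show ‖hp (fun l => c t l / (κ : ℂ)) (m j) (gc (U (e₁ t)) w) (gc (U (e₂ t)) w)‖ = 1
      rw [hp_div, h2, norm_div, hq, Complex.norm_real, Real.norm_of_nonneg hκ.le, div_self hκ.ne']

/-- `j` is fixed, and `‖q j‖ = κ`. -/
theorem blowFam [Finite Ty] [Nonempty ι] {supp : Ty → Finset ι} {P : Ty → J → MvPolynomial ι ℂ} {C A : ℝ} (hC : 0 ≤ C) (hA : 0 < A)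
    (hs : ∀ t, (supp t).card ≤ 2) {m : J → ℕ} (hm : ∀ j, 1 ≤ m j) (hP : ∀ t j, (P t j).IsHomogeneous (m j))
    (hPs : ∀ t j (y y' : ι → ℂ), (∀ i ∈ supp t, y i = y' i) → eval y (P t j) = eval y' (P t j)) {j : J} {κ : ℝ} (hκ : 0 < κ) :
    ∃ (Q : Ty → ℕ → ℂ) (e₁ e₂ : Ty → ι), BlowFam Q (m j) e₁ e₂ (A / 6) (2 * C)
      {U | ∃ q : J → ℂ, Bl supp P C A q U ∧ ‖q j‖ = κ ∧ ∀ j', ‖q j'‖ ≤ 1} := by
  choose e₁ e₂ c he hc using fun t => exists_hp (hs t) (hP t j) (hPs t j)
  refine ⟨fun t l => c t l / (κ : ℂ), e₁, e₂, ?_, ?_, ?_⟩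
  · rintro U ⟨q, hU, hq, -⟩
    exact hU.blow hC hA hm hP hκ he hc hq
  · rintro U ⟨q, hU, hq, hq'⟩ a r hr
    exact ⟨q, hU.affine a hr, hq, hq'⟩
  · intro U hU hz
    choose q hBl hq hq' using hU
    choose z hz1 hz2 using hz
    have hB : ∀ n i, U n i 0 ≤ C := by
      intro n i
      have h1 := (hBl n).lip i 0 (z n)
      have h2 : U n i (z n) ≤ 0 := by
        rw [← hz2 n]
        exact Finset.single_le_sum (f := fun i => U n i (z n)) (fun i _ => (hBl n).nonneg i _) (Finset.mem_univ i)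
      have h3 : C * ‖0 - z n‖ ≤ C * 1 := by
        apply mul_le_mul_of_nonneg_left _ hC
        rw [zero_sub, norm_neg]
        exact hz1 n
      have := (abs_le.1 h1).2
      linarith
    obtain ⟨q', V, hV, hqlim, -, hunif⟩ :=
      (Bl.pre (l := (hyperfilter ℕ : Filter ℕ)) hC hBl hB).limit hC (𝒰 := hyperfilter ℕ) (fun n j => hq' n j)
    have hfreq : ∀ k : ℕ, ∃ᶠ n in (atTop : Filter ℕ), ∀ i, ∀ z ∈ closedBall (0 : ℂ) k, |U n i z - V i z| ≤ 1 / ((k : ℝ) + 1) := by
      intro k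
      have h1 := hunif k (1 / ((k : ℝ) + 1)) (by positivity)
      exact h1.frequently.filter_mono Nat.hyperfilter_le_atTop
    obtain ⟨φ, hφ, hφ2⟩ := Filter.extraction_forall_of_frequently hfreq
    refine ⟨φ, V, hφ, ⟨q', hV, ?_, ?_⟩, fun i => ?_⟩
    · have h1 := (hqlim j).norm
      have h2 : (fun n => ‖q n j‖) = fun _ => κ := funext fun n => hq n
      rw [h2] at h1
      exact (tendsto_nhds_unique h1 tendsto_const_nhds)
    · intro j'
      exact le_of_tendsto (hqlim j').norm (Eventually.of_forall fun n => hq' n j')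
    · rw [Metric.tendstoLocallyUniformly_iff]
      intro ε hε x
      refine ⟨ball 0 (‖x‖ + 1), isOpen_ball.mem_nhds (by rw [mem_ball_zero_iff]; linarith), ?_⟩
      obtain ⟨k₀, hk₀⟩ := exists_nat_gt (max (‖x‖ + 1) (1 / ε))
      filter_upwards [eventually_ge_atTop k₀] with k hk y hy
      rw [dist_comm, Real.dist_eq]
      have hk' : (k₀ : ℝ) ≤ k := by exact_mod_cast hk
      have h1 : y ∈ closedBall (0 : ℂ) k := by
        rw [mem_closedBall_zero_iff]
        rw [mem_ball_zero_iff] at hy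
        have := le_max_left (‖x‖ + 1) (1 / ε)
        linarith
      refine (hφ2 k i y h1).trans_lt ?_
      have h2 := le_max_right (‖x‖ + 1) (1 / ε)
      rw [div_lt_iff₀ (by positivity)]
      have h3 : 1 / ε < (k : ℝ) + 1 := by linarith
      rw [div_lt_iff₀ hε] at h3
      linarith

end Pool.Agent.SR2
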