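import Pool.Agent.SR2.DDefs
import Pool.Agent.SR2.Defs

/-!
# SR2 PreFCore: rescaled curves, from the statements on the boundary functions and on the curves
-/

set_option autoImplicit false

open Metric Topology Filter MvPolynomial

noncomputable section

namespace Pool.Agent.SR2

open Pool.Agent.H36.BP (EN fs)
open Pool.Agent.H14.PP (Tan)
open Geo (Gd)

variable {N : ℕ} {G : Geo N} {T : Set (EN N)} {rho : EN N → ℝ} {δ : ℝ}

theorem preF_tan (hG : G.Ok) {F : ℂ → EN N} (hF : Differentiable ℂ F) (hK : ∀ z, F z ∈ G.K) (z : ℂ) : Tan G.X (F z) (deriv F z) := by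
  refine ⟨fun w => F (z + w), ⟨?_, ?_⟩, by simp, ?_⟩
  · exact (hF.comp (by fun_prop : Differentiable ℂ fun w : ℂ => z + w)).analyticAt 0
  · exact Eventually.of_forall fun w => ((hG.aff.mem _).1 (hK _)).1
  · rw [deriv_comp_const_add, add_zero]

theorem preF_n {q : G.J → ℂ} {F : ℂ → EN N} (hF : G.Cl T q F) (w : ℂ) : G.n (F w) (deriv F w) = 1 := by
  have h := hF.one
  unfold Geo.nq at h
  unfold Geo.n Pool.Agent.SDA.nForms
  rw [← h]
  exact Finset.sum_congr rfl fun j _ => by rw [hF.val]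

/-- the residue polynomials are uniformly continuous on bounded sets -/
theorem pol_unif (G : Geo N) (B : ℝ) {ε : ℝ} (hε : 0 < ε) : ∃ η : ℝ, 0 < η ∧ ∀ (t : G.Ty) (j : G.J) (y y' : G.ι → ℂ), (∀ i, ‖y i‖ ≤ B) →
    (∀ i, ‖y i - y' i‖ ≤ η) → ‖eval y (G.Pol t j) - eval y' (G.Pol t j)‖ ≤ ε := by
  have h1 : ∀ t : G.Ty, ∀ j : G.J, ∀ᶠ η in 𝓝[>] (0 : ℝ), ∀ (y y' : G.ι → ℂ), (∀ i, ‖y i‖ ≤ B) → (∀ i, ‖y i - y' i‖ ≤ η) →
      ‖eval y (G.Pol t j) - eval y' (G.Pol t j)‖ ≤ ε := by
    intro t j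
    have hK : IsCompact (closedBall (0 : G.ι → ℂ) (|B| + 1)) := isCompact_closedBall _ _
    have hu := hK.uniformContinuousOn_of_continuous (MvPolynomial.continuous_eval (G.Pol t j)).continuousOn
    rw [Metric.uniformContinuousOn_iff] at hu
    obtain ⟨η, hη, h⟩ := hu ε hε
    have : ∀ᶠ η' in 𝓝[>] (0 : ℝ), η' < min η 1 := nhdsWithin_le_nhds (gt_mem_nhds (by positivity))
    filter_upwards [this, self_mem_nhdsWithin] with η' hη' hη0 y y' hy hyy
    have hη0 : 0 < η' := hη0
    have hy1 : ‖y‖ ≤ |B| := (pi_norm_le_iff_of_nonneg (abs_nonneg _)).2 fun i => (hy i).trans (le_abs_self _)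
    have hy2 : ‖y - y'‖ ≤ η' := (pi_norm_le_iff_of_nonneg hη0.le).2 fun i => hyy i
    have hy3 : ‖y'‖ ≤ |B| + 1 := by
      have : ‖y'‖ ≤ ‖y‖ + ‖y - y'‖ := by
        calc ‖y'‖ = ‖y - (y - y')‖ := by rw [sub_sub_cancel]
          _ ≤ ‖y‖ + ‖y - y'‖ := norm_sub_le _ _
      have h3 := hη'.trans_le (min_le_right η 1)
      linarith
    have h5 := h y (by simpa using hy1.trans (by linarith)) y' (by simpa using hy3) (by
      rw [dist_eq_norm]
      exact hy2.trans_lt (hη'.trans_le (min_le_left _ _)))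
    rw [dist_eq_norm] at h5
    exact h5.le
  have h2 : ∀ᶠ η in 𝓝[>] (0 : ℝ), ∀ t : G.Ty, ∀ j : G.J, ∀ (y y' : G.ι → ℂ), (∀ i, ‖y i‖ ≤ B) → (∀ i, ‖y i - y' i‖ ≤ η) →
      ‖eval y (G.Pol t j) - eval y' (G.Pol t j)‖ ≤ ε := eventually_all.2 fun t => eventually_all.2 fun j => h1 t j
  obtain ⟨η, hη, hη0⟩ := (h2.and self_mem_nhdsWithin).exists
  exact ⟨η, hη0, hη⟩

/-- homogeneous polynomials and the sign -/
theorem eval_neg {ι : Type} {m : ℕ} {Q : MvPolynomial ι ℂ} (hQ : Q.IsHomogeneous m) (y : ι → ℂ) : eval (fun i => -y i) Q = (-1) ^ m * eval y Q := by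
  rw [eval_eq, eval_eq, Finset.mul_sum]
  refine Finset.sum_congr rfl fun d hd => ?_
  have hdeg : ∑ i ∈ d.support, d i = m := by
    have := hQ (mem_support_iff.1 hd)
    simpa [Finsupp.weight_apply, Finsupp.sum] using this
  have h1 : ∏ i ∈ d.support, (-y i) ^ d i = (-1) ^ m * ∏ i ∈ d.support, y i ^ d i := by
    rw [← hdeg, ← Finset.prod_pow_eq_pow_sum, ← Finset.prod_mul_distrib]
    exact Finset.prod_congr rfl fun i _ => by rw [← mul_pow, neg_one_mul]
  rw [h1]
  ring

theorem preF_core (hG : G.Ok)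
    (hgrow : ∃ B : ℝ, 0 ≤ B ∧ ∀ (q : G.J → ℂ) (F : ℂ → EN N), G.Cl T q F → ∀ z, Real.log ‖F z‖ ≤ B * (1 + infDist z (Gd rho δ F)))
    (hlp : ∃ A₀ r₀ : ℝ, 0 < A₀ ∧ 0 < r₀ ∧ ∀ F : ℂ → EN N, Differentiable ℂ F → (∀ z, F z ∈ G.K) → (∀ z, G.p (F z) = 1) → ∀ (z : ℂ) (r : ℝ), r₀ ≤ r →
      (∀ w ∈ closedBall z r, 1 ≤ G.n (F w) (deriv F w)) → ∃ w ∈ closedBall z r, A₀ * r ≤ Real.log ‖F w‖)
    (hsp : ∃ B R : ℝ, 0 < B ∧ 0 < R ∧ ∀ (q : G.J → ℂ) (F : ℂ → EN N), G.Cl T q F → ∀ z, R ≤ infDist z (Gd rho δ F) →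
      fs (F z) (deriv F z) ≤ B / infDist z (Gd rho δ F))
    (hLb : ∃ B : ℝ, 0 < B ∧ ∀ (q : G.J → ℂ) (F : ℂ → EN N), G.Cl T q F → ∀ z, G.L (F z) (deriv F z) ≤ B)
    (hapx : ∃ B η : ℝ, 0 < B ∧ 0 < η ∧ ∀ (F : ℂ → EN N) (w : ℂ) (r : ℝ), 0 < r → Differentiable ℂ F → (∀ z, F z ∈ G.K) →
      (∀ z ∈ ball w r, fs (F z) (deriv F z) ≤ η / r) → ∃ h : G.ι → ℂ → ℂ, (∀ i, DifferentiableOn ℂ (h i) (ball w r)) ∧
        ∀ i, ∀ z ∈ ball w r, |G.lam i (F z) - (h i z).re| ≤ B ∧ ‖G.ell i (F z) (deriv F z) + deriv (h i) z‖ ≤ B * fs (F z) (deriv F z))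
    (hll : ∃ B : ℝ, ∀ i, ∀ x ∈ G.K, -B ≤ G.lam i x)
    (hlog : ∃ B : ℝ, 0 < B ∧ ∀ x ∈ G.K, G.p x = 1 →
      ∑ i, G.lam i x ≤ B * (Real.log ‖x‖ + B) ∧ (∀ i, G.lam i x ≤ B * (Real.log ‖x‖ + B)) ∧ Real.log ‖x‖ ≤ B * (∑ i, G.lam i x + B))
    (hlip : ∀ {F : ℂ → EN N}, Differentiable ℂ F → (∀ z, F z ∈ G.K) → ∀ {B : ℝ}, (∀ z, G.L (F z) (deriv F z) ≤ B) → ∀ (i : G.ι) (z w : ℂ),
      |G.lam i (F z) - G.lam i (F w)| ≤ B * ‖z - w‖) :
    ∃ B A' : ℝ, 0 < B ∧ 0 < A' ∧ ∀ (l : Filter ℕ) (q : ℕ → G.J → ℂ) (F : ℕ → ℂ → EN N) (p : ℕ → ℂ) (R : ℕ → ℝ),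
    (∀ n, G.Cl T (q n) (F n)) → (∀ n, p n ∈ Gd rho δ (F n)) → (∀ n, 0 < R n) → Tendsto R l atTop →
    Pre G.supp G.Pol B A' l (fun n j => (-1) ^ G.m j * q n j) (fun n i z => G.lam i (F n (p n + R n * z)) / R n) := by
  obtain ⟨Bg, hBg0, hBg⟩ := hgrow
  obtain ⟨A₀, r₀, hA₀, hr₀, hlp⟩ := hlp
  obtain ⟨Bs, Rs, hBs, hRs, hsp⟩ := hsp
  obtain ⟨BL, hBL0, hBL⟩ := hLb
  obtain ⟨Ba, η, hBa, hη, hapx⟩ := hapx
  obtain ⟨Bl, hll⟩ := hll
  obtain ⟨Bo, hBo0, hlog⟩ := hlog
  obtain ⟨Cr, hCr0, hres⟩ := hG.res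
  refine ⟨BL, A₀ / (2 * Bo), hBL0, by positivity, fun l q F p R hF hp hR hRlim => ?_⟩
  have hRinv : Tendsto (fun n => (R n)⁻¹) l (𝓝 0) := tendsto_inv_atTop_zero.comp hRlim
  have hsmall : ∀ (a ε : ℝ), 0 < ε → ∀ᶠ n in l, a / R n ≤ ε := by
    intro a ε hε
    have h1 : Tendsto (fun n => a * (R n)⁻¹) l (𝓝 (a * 0)) := hRinv.const_mul a
    rw [mul_zero] at h1
    filter_upwards [h1.eventually (gt_mem_nhds hε)] with n hn
    rw [div_eq_mul_inv]
    exact hn.le
  have hlarge : ∀ a : ℝ, ∀ᶠ n in l, a ≤ R n := fun a => hRlim.eventually_ge_atTop a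
  constructor
  · -- nonneg
    intro i z ε hε
    filter_upwards [hsmall Bl ε hε] with n hn
    have h1 := hll i (F n (p n + R n * z)) ((hF n).ent.mem _)
    rw [le_div_iff₀ (hR n)]
    rw [div_le_iff₀ (hR n)] at hn
    linarith
  · -- lip
    refine Eventually.of_forall fun n i z w => ?_
    have h1 := hlip (hF n).ent.diff (hF n).ent.mem (hBL _ _ (hF n)) i (p n + R n * z) (p n + R n * w)
    rw [← sub_div, abs_div, abs_of_pos (hR n), div_le_iff₀ (hR n)]
    refine h1.trans_eq ?_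
    rw [show (p n + R n * z) - (p n + R n * w) = (R n : ℂ) * (z - w) by ring, norm_mul, Complex.norm_real, Real.norm_of_nonneg (hR n).le]
    ring
  · -- bound
    refine ⟨|Bl| + Bo * (Bg + Bo), ?_⟩
    filter_upwards [hlarge 1] with n hn i
    have hK := (hF n).ent.mem (p n + R n * 0)
    have h1 := hll i _ hK
    have h2 := (hlog _ hK ((hF n).nm _)).2.1 i
    have h3 := hBg _ _ (hF n) (p n)
    rw [infDist_zero_of_mem (hp n), add_zero, mul_one] at h3
    rw [mul_zero, add_zero] at h1 h2 ⊢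
    have h4 : G.lam i (F n (p n)) ≤ Bo * (Bg + Bo) := h2.trans (mul_le_mul_of_nonneg_left (by linarith) hBo0.le)
    have h5 : 0 ≤ Bo * (Bg + Bo) := by positivity
    have h6 : |G.lam i (F n (p n))| ≤ |Bl| + Bo * (Bg + Bo) := by
      rw [abs_le]
      constructor
      · linarith [le_abs_self Bl]
      · linarith [abs_nonneg Bl]
    rw [abs_div, abs_of_pos (hR n), div_le_iff₀ (hR n)]
    have h7 : 0 ≤ |Bl| + Bo * (Bg + Bo) := by positivity
    nlinarith
  · -- big
    intro w r hr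
    filter_upwards [hlarge (r₀ / r), hsmall (2 * Bo * Bo) (A₀ * r) (by positivity)] with n hn1 hn2
    have hRn := hR n
    have hr1 : r₀ ≤ R n * r := by
      rw [div_le_iff₀ hr] at hn1
      exact hn1
    obtain ⟨w', hw', h1⟩ := hlp (F n) (hF n).ent.diff (hF n).ent.mem (hF n).nm (p n + R n * w) (R n * r) hr1
      fun w _ => (preF_n (hF n) w).ge
    have hRne : (R n : ℂ) ≠ 0 := by exact_mod_cast hRn.ne'
    refine ⟨(w' - p n) / R n, ?_, ?_⟩
    · rw [mem_closedBall, dist_eq_norm] at hw' ⊢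
      have h2 : (w' - p n) / R n - w = (w' - (p n + R n * w)) / R n := by
        field_simp
        ring
      rw [h2, norm_div, Complex.norm_real, Real.norm_of_nonneg hRn.le, div_le_iff₀ hRn]
      linarith
    · have h2 : p n + R n * ((w' - p n) / R n) = w' := by
        field_simp
        ring
      simp only [h2]
      rw [← Finset.sum_div, le_div_iff₀ hRn]
      have h3 := (hlog _ ((hF n).ent.mem w') ((hF n).nm _)).2.2
      rw [div_le_iff₀ hRn] at hn2
      have h4 : A₀ * (R n * r) ≤ Bo * (∑ i, G.lam i (F n w') + Bo) := h1.trans h3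
      rw [div_mul_eq_mul_div, div_mul_eq_mul_div, div_le_iff₀ (by positivity)]
      nlinarith
  · -- hol
    intro w δ' hδ' hev
    obtain ⟨Bh, hBh⟩ : ∃ Bh : ℝ, Bh = Bg + 1 := ⟨_, rfl⟩
    have hBh0 : 0 < Bh := by rw [hBh]; linarith
    obtain ⟨c, hc⟩ : ∃ c : ℝ, c = δ' / (2 * Bo * Bh) := ⟨_, rfl⟩
    have hc0 : 0 < c := by rw [hc]; positivity
    obtain ⟨r, hr⟩ : ∃ r : ℝ, r = min (c / 2) (η * c / (2 * Bs)) := ⟨_, rfl⟩
    have hr0 : 0 < r := by rw [hr]; positivity
    have hr1 : r ≤ c / 2 := by rw [hr]; exact min_le_left _ _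
    have hr2 : r ≤ η * c / (2 * Bs) := by rw [hr]; exact min_le_right _ _
    -- the distance to the good points
    have hdist : ∀ᶠ n in l, c * R n ≤ infDist (p n + R n * w) (Gd rho δ (F n)) := by
      filter_upwards [hev, hlarge (2 * Bo * Bh * (Bo / Bh + 1) / δ')] with n hn1 hn2
      have hRn := hR n
      have hK := (hF n).ent.mem (p n + R n * w)
      have h1 : δ' * R n ≤ ∑ i, G.lam i (F n (p n + R n * w)) := by
        rw [← Finset.sum_div, le_div_iff₀ hRn] at hn1
        exact hn1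
      have h2 := (hlog _ hK ((hF n).nm _)).1
      have h3 := hBg _ _ (hF n) (p n + R n * w)
      have hd0 : 0 ≤ infDist (p n + R n * w) (Gd rho δ (F n)) := infDist_nonneg
      set d := infDist (p n + R n * w) (Gd rho δ (F n)) with hd
      have h4 : Real.log ‖F n (p n + R n * w)‖ ≤ Bh * (1 + d) := h3.trans (mul_le_mul_of_nonneg_right (by rw [hBh]; linarith) (by linarith))
      have h5 : δ' * R n ≤ Bo * (Bh * (1 + d) + Bo) := h1.trans (h2.trans (mul_le_mul_of_nonneg_left (by linarith) hBo0.le))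
      rw [div_le_iff₀ hδ'] at hn2
      rw [hc, div_mul_eq_mul_div, div_le_iff₀ (by positivity)]
      have h6 : 2 * Bo * Bh * (Bo / Bh + 1) = 2 * Bo * (Bo + Bh) := by
        field_simp
      rw [h6] at hn2
      nlinarith
    have hslow : ∀ᶠ n in l, ∀ z ∈ ball (p n + R n * w) (r * R n), fs (F n z) (deriv (F n) z) ≤ 2 * Bs / (c * R n) := by
      filter_upwards [hdist, hlarge (2 * Rs / c)] with n hn1 hn2 z hz
      have hRn := hR n
      have h1 : infDist (p n + R n * w) (Gd rho δ (F n)) ≤ infDist z (Gd rho δ (F n)) + dist (p n + R n * w) z := infDist_le_infDist_add_dist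
      have h2 : dist (p n + R n * w) z < r * R n := by
        rw [dist_comm]
        exact hz
      have h3 : r * R n ≤ c / 2 * R n := mul_le_mul_of_nonneg_right hr1 hRn.le
      have h4 : c / 2 * R n ≤ infDist z (Gd rho δ (F n)) := by linarith
      have h5 : Rs ≤ c / 2 * R n := by
        rw [div_le_iff₀ hc0] at hn2
        linarith
      have h6 := hsp _ _ (hF n) z (h5.trans h4)
      have h7 : 0 < c / 2 * R n := by positivity
      refine h6.trans ?_
      calc Bs / infDist z (Gd rho δ (F n)) ≤ Bs / (c / 2 * R n) := by gcongr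
        _ = 2 * Bs / (c * R n) := by field_simp
    have hex : ∀ n, ∃ h : G.ι → ℂ → ℂ, (∀ z ∈ ball (p n + R n * w) (r * R n), fs (F n z) (deriv (F n) z) ≤ 2 * Bs / (c * R n)) →
        (∀ i, DifferentiableOn ℂ (h i) (ball (p n + R n * w) (r * R n))) ∧
        ∀ i, ∀ z ∈ ball (p n + R n * w) (r * R n), |G.lam i (F n z) - (h i z).re| ≤ Ba ∧
          ‖G.ell i (F n z) (deriv (F n) z) + deriv (h i) z‖ ≤ Ba * fs (F n z) (deriv (F n) z) := by
      intro n
      by_cases hn : ∀ z ∈ ball (p n + R n * w) (r * R n), fs (F n z) (deriv (F n) z) ≤ 2 * Bs / (c * R n)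
      · have hRn := hR n
        obtain ⟨h, h1⟩ := hapx (F n) (p n + R n * w) (r * R n) (by positivity) (hF n).ent.diff (hF n).ent.mem fun z hz => by
          refine (hn z hz).trans ?_
          rw [div_le_div_iff₀ (by positivity) (by positivity)]
          have h3 : r * (2 * Bs) ≤ η * c := by
            rwa [le_div_iff₀ (by positivity)] at hr2
          nlinarith
        exact ⟨h, fun _ => h1⟩
      · exact ⟨0, fun h => absurd h hn⟩
    choose H hH using hex
    refine ⟨r, hr0, fun n i z => H n i (p n + R n * z) / R n, ?_, ?_⟩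
    · filter_upwards [hslow] with n hn i
      have hRn := hR n
      refine DifferentiableOn.div_const ?_ _
      refine ((hH n hn).1 i).comp (by fun_prop) fun z hz => ?_
      rw [mem_ball, dist_eq_norm] at hz ⊢
      rw [show (p n + R n * z) - (p n + R n * w) = (R n : ℂ) * (z - w) by ring, norm_mul, Complex.norm_real, Real.norm_of_nonneg hRn.le]
      nlinarith
    · intro ε hε
      obtain ⟨η', hη', hpol⟩ := pol_unif G BL (ε := ε / 2) (by positivity)
      filter_upwards [hslow, hsmall Ba ε hε, hsmall (Ba * (2 * Bs / c)) η' hη', hsmall Cr ε hε,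
        hsmall (Cr * (2 * Bs / c) * (1 + BL) ^ (∑ j, G.m j)) (ε / 2) (by positivity)] with n hn hn1 hn2 hn3 hn4
      have hRn := hR n
      have hRne : (R n : ℂ) ≠ 0 := by exact_mod_cast hRn.ne'
      refine ⟨fun i z hz => ?_, ?_⟩
      · have hz' : p n + R n * z ∈ ball (p n + R n * w) (r * R n) := by
          rw [mem_ball, dist_eq_norm] at hz ⊢
          rw [show (p n + R n * z) - (p n + R n * w) = (R n : ℂ) * (z - w) by ring, norm_mul, Complex.norm_real, Real.norm_of_nonneg hRn.le]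
          nlinarith
        have h1 := ((hH n hn).2 i _ hz').1
        rw [Complex.div_ofReal_re, ← sub_div, abs_div, abs_of_pos hRn]
        exact (div_le_div_of_nonneg_right h1 hRn.le).trans hn1
      · have hw' : p n + R n * w ∈ ball (p n + R n * w) (r * R n) := mem_ball_self (by positivity)
        set x := F n (p n + R n * w) with hx
        set v := deriv (F n) (p n + R n * w) with hv
        have hxK : x ∈ G.K := (hF n).ent.mem _
        have htan : Tan G.X x v := preF_tan hG (hF n).ent.diff (hF n).ent.mem _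
        have hfs := hn _ hw'
        have hfs0 : 0 ≤ fs x v := by
          unfold fs Pool.Agent.H36.BP.wd
          positivity
        obtain ⟨hr1, hr2⟩ := hres x hxK
        have hder : ∀ i, deriv (fun z => H n i (p n + R n * z) / R n) w = deriv (H n i) (p n + R n * w) := by
          intro i
          have h1 : HasDerivAt (H n i) (deriv (H n i) (p n + R n * w)) (p n + R n * w) :=
            (((hH n hn).1 i).differentiableAt (isOpen_ball.mem_nhds hw')).hasDerivAt
          have h2 : HasDerivAt (fun z : ℂ => p n + R n * z) (R n : ℂ) w := by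
            simpa using ((hasDerivAt_id w).const_mul (R n : ℂ)).const_add (p n)
          have h3 := (h1.comp w h2).div_const (R n : ℂ)
          have h4 := h3.deriv
          rw [mul_div_assoc, div_self hRne, mul_one] at h4
          exact h4
        refine ⟨G.ty x, fun i hi => ?_, fun j => ?_⟩
        · have h1 := hr1 i hi
          exact (div_le_div_of_nonneg_right h1 hRn.le).trans hn3
        · simp only [hder]
          have hL : G.L x v ≤ BL := hBL _ _ (hF n) _
          have hell : ∀ i, ‖G.ell i x v‖ ≤ BL := by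
            intro i
            refine le_trans ?_ hL
            unfold Geo.L
            have := Finset.single_le_sum (f := fun i => ‖G.ell i x v‖) (fun i _ => norm_nonneg _) (Finset.mem_univ i)
            linarith
          have h1 : ‖eval (fun i => -G.ell i x v) (G.Pol (G.ty x) j) - eval (fun i => deriv (H n i) (p n + R n * w)) (G.Pol (G.ty x) j)‖ ≤ ε / 2 := by
            refine hpol _ _ _ _ (fun i => by rw [norm_neg]; exact hell i) fun i => ?_
            have h2 := ((hH n hn).2 i _ hw').2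
            rw [← norm_neg, show -(-G.ell i x v - deriv (H n i) (p n + R n * w)) = G.ell i x v + deriv (H n i) (p n + R n * w) by ring]
            refine h2.trans ((mul_le_mul_of_nonneg_left hfs hBa.le).trans (le_trans (le_of_eq ?_) hn2))
            field_simp
          have h2 : ‖(-1) ^ G.m j * q n j - eval (fun i => -G.ell i x v) (G.Pol (G.ty x) j)‖ ≤ ε / 2 := by
            rw [eval_neg (hG.Pol_hom _ _), ← mul_sub, norm_mul, norm_pow, norm_neg, norm_one, one_pow, one_mul]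
            have h3 := hr2 j v htan
            rw [(hF n).val] at h3
            have hL0 : 0 ≤ G.L x v := by
              unfold Geo.L
              have := Finset.sum_nonneg (s := Finset.univ) (f := fun i => ‖G.ell i x v‖) fun i _ => norm_nonneg _
              linarith
            have h4 : G.L x v ^ (G.m j - 1) ≤ (1 + BL) ^ (∑ j, G.m j) := by
              calc G.L x v ^ (G.m j - 1) ≤ (1 + BL) ^ (G.m j - 1) := pow_le_pow_left₀ hL0 (by linarith) _
                _ ≤ (1 + BL) ^ (∑ j, G.m j) := pow_le_pow_right₀ (by linarith) (by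
                  have := Finset.single_le_sum (f := G.m) (fun i _ => Nat.zero_le _) (Finset.mem_univ j)
                  omega)
            refine h3.trans (le_trans ?_ hn4)
            calc Cr * fs x v * G.L x v ^ (G.m j - 1) ≤ Cr * (2 * Bs / (c * R n)) * (1 + BL) ^ (∑ j, G.m j) := by gcongr
              _ = Cr * (2 * Bs / c) * (1 + BL) ^ (∑ j, G.m j) / R n := by field_simp
          calc ‖eval (fun i => deriv (H n i) (p n + R n * w)) (G.Pol (G.ty x) j) - (-1) ^ G.m j * q n j‖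
              = ‖-((-1) ^ G.m j * q n j - eval (fun i => -G.ell i x v) (G.Pol (G.ty x) j)) -
                (eval (fun i => -G.ell i x v) (G.Pol (G.ty x) j) - eval (fun i => deriv (H n i) (p n + R n * w)) (G.Pol (G.ty x) j))‖ := by
                congr 1; ring
            _ ≤ ε / 2 + ε / 2 := by
                refine (norm_sub_le _ _).trans ?_
                rw [norm_neg]
                exact add_le_add h2 h1
            _ = ε := by ring

end Pool.Agent.SR2
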