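import Pool.Agent.SR2.NcDefs

/-!
# SR2 Jac: extension of independent gradients by coordinates, polynomial vector fields from the adjugate matrix (MODULE N1 of H14)
-/

set_option autoImplicit false

open Topology Filter Metric MvPolynomial

noncomputable section

namespace Pool.Agent.SR2

variable {N : ℕ}

private theorem ext_coord {m n : ℕ} (hmn : m + n = N + 1) {G : Fin m → Fin (N + 1) → ℂ} (hli : LinearIndependent ℂ G) :
    ∃ k : Fin n → Fin (N + 1), LinearIndependent ℂ (Sum.elim G fun i => (Pi.single (k i) 1 : Fin (N + 1) → ℂ)) := by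
  classical
  set s : Set (Fin (N + 1) → ℂ) := Set.range G with hs
  set E : Set (Fin (N + 1) → ℂ) := Set.range fun l => (Pi.single l 1 : Fin (N + 1) → ℂ) with hE
  have hsi : LinearIndepOn ℂ id s := hli.linearIndepOn_id
  obtain ⟨b, hb, hsb, htb, hbi⟩ := exists_linearIndepOn_id_extension hsi (Set.subset_union_left (s := s) (t := E))
  have hEb : Submodule.span ℂ b = ⊤ := by
    rw [eq_top_iff, ← (Pi.basisFun ℂ (Fin (N + 1))).span_eq, Submodule.span_le]
    rintro _ ⟨l, rfl⟩
    rw [Pi.basisFun_apply]
    exact htb (Or.inr ⟨l, rfl⟩)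
  have hbfin : b.Finite := (hbi.linearIndependent).setFinite
  have : Fintype b := hbfin.fintype
  let B : Module.Basis b ℂ (Fin (N + 1) → ℂ) := Module.Basis.mk hbi.linearIndependent (by
    rw [← hEb]
    apply Submodule.span_mono
    intro u hu
    exact ⟨⟨u, hu⟩, rfl⟩)
  have hcard : Fintype.card b = N + 1 := by
    rw [← Module.finrank_eq_card_basis B, Module.finrank_fin_fun]
  set c : Set (Fin (N + 1) → ℂ) := b \ s with hc
  have hcfin : c.Finite := hbfin.subset Set.sdiff_subset
  have : Fintype c := hcfin.fintype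
  have hscard : s.ncard = m := by
    rw [hs, ← Set.image_univ, Set.ncard_image_of_injective _ hli.injective, Set.ncard_univ]
    simp
  have hccard : c.ncard = n := by
    have h1 := Set.ncard_sdiff_add_ncard_of_subset hsb hbfin
    have h2 : b.ncard = N + 1 := by
      refine Eq.trans ?_ hcard
      rw [Set.ncard_eq_toFinset_card' , Set.toFinset_card]
    rw [← hc] at h1
    omega
  have hcc : Fintype.card c = n := by
    rw [← hccard, Set.ncard_eq_toFinset_card', Set.toFinset_card]
  let e : Fin n ≃ c := (Fintype.equivFinOfCardEq hcc).symm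
  have hcE : ∀ i, ∃ l, (Pi.single l 1 : Fin (N + 1) → ℂ) = (e i : Fin (N + 1) → ℂ) := by
    intro i
    have h1 := (e i).2
    rcases hb h1.1 with h2 | h2
    · exact absurd h2 h1.2
    · exact h2
  choose k hk using hcE
  refine ⟨k, ?_⟩
  have hinj : Function.Injective (Sum.elim G fun i => (Pi.single (k i) 1 : Fin (N + 1) → ℂ)) := by
    rintro (i | i) (j | j) h
    · exact congrArg _ (hli.injective h)
    · exfalso
      simp only [Sum.elim_inl, Sum.elim_inr] at h
      rw [hk j] at h
      exact (e j).2.2 ⟨i, h⟩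
    · exfalso
      simp only [Sum.elim_inl, Sum.elim_inr] at h
      rw [hk i] at h
      exact (e i).2.2 ⟨j, h.symm⟩
    · simp only [Sum.elim_inr] at h
      rw [hk i, hk j] at h
      exact congrArg _ (e.injective (Subtype.ext h))
  have hmem : ∀ r, (Sum.elim G fun i => (Pi.single (k i) 1 : Fin (N + 1) → ℂ)) r ∈ b := by
    rintro (i | i)
    · exact hsb ⟨i, rfl⟩
    · simp only [Sum.elim_inr]
      rw [hk i]
      exact (e i).2.1
  have h1 : (Sum.elim G fun i => (Pi.single (k i) 1 : Fin (N + 1) → ℂ)) = (fun u : b => (u : Fin (N + 1) → ℂ)) ∘ fun r => (⟨_, hmem r⟩ : b) := rfl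
  rw [h1]
  exact hbi.linearIndependent.comp _ fun r r' h => hinj (congrArg Subtype.val h)

/-- **The Jacobian matrix of the `f j` and of `n` coordinates**; `a i` are columns of the adjugate matrix, `s` is the determinant. -/
theorem exists_frame {m n : ℕ} (hmn : m + n = N + 1) {f : Fin m → MvPolynomial (Fin (N + 1)) ℂ} {x : Fin (N + 1) → ℂ}
    (hli : LinearIndependent ℂ fun (j : Fin m) (i : Fin (N + 1)) => eval x (pderiv i (f j))) :
    ∃ (k : Fin n → Fin (N + 1)) (a : Fin n → Fin (N + 1) → MvPolynomial (Fin (N + 1)) ℂ) (s : MvPolynomial (Fin (N + 1)) ℂ), eval x s ≠ 0 ∧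
      (∀ i j, fld (a i) (f j) = 0) ∧ (∀ i j, fld (a i) (X (k j)) = if i = j then s else 0) ∧
      ∀ y v : Fin (N + 1) → ℂ, (∀ j, ∑ l, v l * eval y (pderiv l (f j)) = 0) → eval y s • v = ∑ i, v (k i) • fun l => eval y (a i l) := by
  classical
  obtain ⟨k, hk⟩ := ext_coord hmn hli
  let e : Fin m ⊕ Fin n ≃ Fin (N + 1) := finSumFinEquiv.trans (finCongr hmn)
  let g : Fin m ⊕ Fin n → MvPolynomial (Fin (N + 1)) ℂ := Sum.elim f fun i => X (k i)
  let M : Matrix (Fin m ⊕ Fin n) (Fin m ⊕ Fin n) (MvPolynomial (Fin (N + 1)) ℂ) := Matrix.of fun r c => pderiv (e c) (g r)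
  have hfld : ∀ i r, fld (fun l => M.adjugate (e.symm l) (Sum.inr i)) (g r) = if r = Sum.inr i then M.det else 0 := by
    intro i r
    unfold fld
    rw [← e.sum_comp]
    have h1 : (M * M.adjugate) r (Sum.inr i) = if r = Sum.inr i then M.det else 0 := by
      rw [Matrix.mul_adjugate, Matrix.smul_apply, Matrix.one_apply]
      split_ifs <;> simp
    rw [← h1, Matrix.mul_apply]
    refine Finset.sum_congr rfl fun c _ => ?_
    change M.adjugate (e.symm (e c)) (Sum.inr i) * pderiv (e c) (g r) = _
    rw [e.symm_apply_apply, mul_comm]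
    rfl
  refine ⟨k, fun i l => M.adjugate (e.symm l) (Sum.inr i), M.det, ?_, ?_, ?_, ?_⟩
  · rw [RingHom.map_det]
    have h1 : LinearIndependent ℂ ((eval x).mapMatrix M).row := by
      have h2 : ((eval x).mapMatrix M).row = (LinearEquiv.funCongrLeft ℂ ℂ e).toLinearMap ∘
          (Sum.elim (fun (j : Fin m) (i : Fin (N + 1)) => eval x (pderiv i (f j))) fun i => (Pi.single (k i) 1 : Fin (N + 1) → ℂ)) := by
        funext r
        funext c
        rcases r with j | i
        · rfl
        · change eval x (pderiv (e c) (X (k i))) = (Pi.single (k i) 1 : Fin (N + 1) → ℂ) (e c)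
          rw [pderiv_X]
          by_cases h : e c = k i
          · rw [h]; simp
          · rw [Pi.single_eq_of_ne (by simpa [eq_comm] using h), Pi.single_eq_of_ne (by simpa using h), map_zero]
      rw [h2]
      exact hk.map' _ (LinearEquiv.ker _)
    exact ((Matrix.isUnit_iff_isUnit_det _).1 (Matrix.linearIndependent_rows_iff_isUnit.1 h1)).ne_zero
  · intro i j
    have := hfld i (Sum.inl j)
    simpa [g] using this
  · intro i j
    have := hfld i (Sum.inr j)
    simp only [g, Sum.elim_inr, Sum.inr.injEq] at this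
    rw [this]
    by_cases h : i = j
    · rw [if_pos h, if_pos h.symm]
    · rw [if_neg h, if_neg (Ne.symm h)]
  · intro y v hv
    let My := (eval y).mapMatrix M
    have h0 : My.mulVec (v ∘ e) = Sum.elim (fun _ => 0) fun i => v (k i) := by
      funext r
      rw [Matrix.mulVec, dotProduct]
      rcases r with j | i
      · simp only [Sum.elim_inl]
        rw [← hv j, ← e.sum_comp]
        refine Finset.sum_congr rfl fun c _ => ?_
        rw [mul_comm]
        rfl
      · simp only [Sum.elim_inr]
        have h2 : ∀ c, My (Sum.inr i) c * (v ∘ e) c = if e c = k i then v (k i) else 0 := by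
          intro c
          change eval y (pderiv (e c) (X (k i))) * v (e c) = _
          rw [pderiv_X]
          by_cases h : e c = k i
          · rw [h]; simp
          · rw [Pi.single_eq_of_ne (by simpa [eq_comm] using h), map_zero, zero_mul, if_neg h]
        rw [Finset.sum_congr rfl fun c _ => h2 c]
        rw [e.sum_comp fun l => if l = k i then v (k i) else 0]
        simp
    have h1 : My.adjugate.mulVec (My.mulVec (v ∘ e)) = My.det • (v ∘ e) := by
      rw [Matrix.mulVec_mulVec, Matrix.adjugate_mul, Matrix.smul_mulVec, Matrix.one_mulVec]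
    have h2 : eval y M.det = My.det := RingHom.map_det _ _
    have h3 : ∀ c r, eval y (M.adjugate c r) = My.adjugate c r := by
      intro c r
      have := congrFun (congrFun (RingHom.map_adjugate (eval y) M) c) r
      exact this
    funext l
    have h4 := congrFun h1 (e.symm l)
    rw [h0, Matrix.mulVec, dotProduct] at h4
    simp only [Fintype.sum_sum_type, Sum.elim_inl, Sum.elim_inr, mul_zero, Finset.sum_const_zero, zero_add] at h4
    rw [Pi.smul_apply, h2, smul_eq_mul]
    have h5 : (My.det • (v ∘ e)) (e.symm l) = My.det * v l := by simp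
    rw [← h5, ← h4, Finset.sum_apply]
    refine Finset.sum_congr rfl fun i _ => ?_
    rw [Pi.smul_apply, smul_eq_mul, h3, mul_comm]

end Pool.Agent.SR2
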