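import Mathlib

/-!
# SDR2, block D: the open-closed argument

`RR` = set of values of a ratio, outside `[0, ∞]`.  If `RR` is open, relatively closed in `ℂ ∖ [0, ∞)` and stays away from the roots (at infinity as well) of a
form `p` of degree `m`, then it is empty.  A ratio of holomorphic functions with values in `[0, ∞]` is constant.
-/

set_option autoImplicit false

open Topology Filter Complex

noncomputable section

namespace Pool.Agent.SR2

/-- `ℂ ∖ [0, ∞)` -/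
def Cut : Set ℂ := {x | -x ∈ slitPlane}

lemma mem_Cut {x : ℂ} : x ∈ Cut ↔ x.re < 0 ∨ x.im ≠ 0 := by
  simp [Cut, Complex.mem_slitPlane_iff]

lemma notMem_Cut {x : ℂ} (h : x ∉ Cut) : ∃ t : ℝ, 0 ≤ t ∧ x = t := by
  rw [mem_Cut, not_or, not_lt, not_not] at h
  exact ⟨x.re, h.1, Complex.ext (by simp) (by simp [h.2])⟩

lemma Cut_open : IsOpen Cut := isOpen_slitPlane.preimage continuous_neg

lemma Cut_preconnected : IsPreconnected Cut := by
  have h1 : IsPreconnected slitPlane := (starConvex_one_slitPlane.isPathConnected one_mem_slitPlane).isConnected.isPreconnected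
  have h2 : Cut = (fun x : ℂ => -x) '' slitPlane := by
    ext x
    simp only [Cut, Set.mem_ofPred_eq, Set.mem_image]
    exact ⟨fun h => ⟨-x, h, by simp⟩, fun ⟨y, hy, e⟩ => by rw [← e, neg_neg]; exact hy⟩
  rw [h2]
  exact h1.image _ continuous_neg.continuousOn

/-- every point is a limit of points of `Cut` -/
lemma exists_seq_Cut (x : ℂ) : ∃ y : ℕ → ℂ, (∀ n, y n ∈ Cut) ∧ Tendsto y atTop (𝓝 x) := by
  -- `x + ε i` for two values of the sign
  have h0 : Tendsto (fun n : ℕ => (1 / ((n : ℝ) + 1))) atTop (𝓝 0) := tendsto_one_div_add_atTop_nhds_zero_nat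
  by_cases him : x.im = 0
  · refine ⟨fun n => x + ((1 / ((n : ℝ) + 1) : ℝ) : ℂ) * I, fun n => ?_, ?_⟩
    · rw [mem_Cut]
      right
      have : 0 < 1 / ((n : ℝ) + 1) := by positivity
      simp only [Complex.add_im, Complex.mul_im, Complex.ofReal_re, Complex.I_im, mul_one, Complex.ofReal_im, Complex.I_re, mul_zero, add_zero, him, zero_add]
      exact this.ne'
    · have h1 : Tendsto (fun n : ℕ => x + ((1 / ((n : ℝ) + 1) : ℝ) : ℂ) * I) atTop (𝓝 (x + ((0 : ℝ) : ℂ) * I)) := by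
        refine tendsto_const_nhds.add (Tendsto.mul ?_ tendsto_const_nhds)
        exact (Complex.continuous_ofReal.tendsto 0).comp h0
      simpa using h1
  · exact ⟨fun _ => x, fun _ => mem_Cut.2 (Or.inr him), tendsto_const_nhds⟩

/-- **The open-closed argument.** -/
theorem eq_empty_of_open_closed {RR : Set ℂ} (hsub : RR ⊆ Cut) (hop : IsOpen RR) (hcl : ∀ x ∈ closure RR, x ∈ Cut → x ∈ RR) {f : Polynomial ℂ} {m : ℕ} (hm : 1 ≤ m)
    {C C' : ℝ} (hs : ∀ x ∈ RR, ∃ s : ℝ, 0 ≤ s ∧ s ≤ C ∧ s * ‖x‖ ≤ C' ∧ ‖f.eval x‖ * s ^ m = 1) : RR = ∅ := by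
  by_contra hne
  have hne' : RR.Nonempty := Set.nonempty_iff_ne_empty.2 hne
  -- `RR` is everything
  have hall : Cut ⊆ RR := by
    refine IsPreconnected.subset_left_of_subset_union (v := (closure RR)ᶜ) hop isClosed_closure.isOpen_compl ?_ ?_ ?_ Cut_preconnected
    · exact Set.disjoint_left.2 fun w hw hw' => hw' (subset_closure hw)
    · intro w hw
      by_cases h1 : w ∈ RR
      · exact Or.inl h1
      · exact Or.inr fun h2 => h1 (hcl w h2 hw)
    · obtain ⟨x, hx⟩ := hne'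
      exact ⟨x, hsub hx, hx⟩
  have hC : 0 ≤ C := by
    obtain ⟨x, hx⟩ := hne'
    obtain ⟨s, h0, h1, -⟩ := hs x hx
    exact h0.trans h1
  -- no roots: `‖f x‖ C^m ≥ 1`
  have hlow : ∀ x ∈ Cut, 1 ≤ ‖f.eval x‖ * C ^ m := by
    intro x hx
    obtain ⟨s, h0, h1, -, h3⟩ := hs x (hall hx)
    rw [← h3]
    exact mul_le_mul_of_nonneg_left (pow_le_pow_left₀ h0 h1 m) (norm_nonneg _)
  have hlow' : ∀ x : ℂ, 1 ≤ ‖f.eval x‖ * C ^ m := by
    intro x
    obtain ⟨y, hy, hyt⟩ := exists_seq_Cut x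
    have h1 : Tendsto (fun n => ‖f.eval (y n)‖ * C ^ m) atTop (𝓝 (‖f.eval x‖ * C ^ m)) :=
      (((f.continuous.tendsto x).comp hyt).norm).mul_const _
    exact ge_of_tendsto' h1 fun n => hlow _ (hy n)
  -- so `f` is constant
  have hdeg : f.degree ≤ 0 := by
    by_contra hcon
    push Not at hcon
    obtain ⟨x, hx⟩ := Complex.exists_root hcon
    have := hlow' x
    rw [Polynomial.IsRoot.def] at hx
    rw [hx] at this
    simp at this
    linarith
  rw [Polynomial.eq_C_of_degree_le_zero hdeg] at hs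
  simp only [Polynomial.eval_C] at hs
  set c := ‖f.coeff 0‖ with hc
  have hC' : 0 ≤ C' := by
    obtain ⟨x, hx⟩ := hne'
    obtain ⟨s, h0, h1, h2, -⟩ := hs x hx
    exact le_trans (by positivity) h2
  -- at infinity
  obtain ⟨n, hn⟩ := exists_nat_gt (max 1 (c * C' ^ m + 1))
  have hn1 : (1 : ℝ) < n := lt_of_le_of_lt (le_max_left _ _) hn
  have hn2 : c * C' ^ m + 1 < n := lt_of_le_of_lt (le_max_right _ _) hn
  have hx : (-(n : ℂ)) ∈ Cut := by
    rw [mem_Cut]; left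
    simp
    by_contra h
    push Not at h
    have : n = 0 := by omega
    rw [this] at hn1
    norm_num at hn1
  obtain ⟨s, h0, h1, h2, h3⟩ := hs _ (hall hx)
  rw [norm_neg, Complex.norm_natCast] at h2
  -- `(s n)^m ≤ C'^m`, `n ≤ n^m`
  have h4 : (s * n) ^ m ≤ C' ^ m := pow_le_pow_left₀ (by positivity) h2 m
  have h5 : (n : ℝ) ≤ (n : ℝ) ^ m := le_self_pow₀ hn1.le (by omega)
  have h6 : (n : ℝ) ^ m ≤ c * C' ^ m := by
    calc (n : ℝ) ^ m = (c * s ^ m) * (n : ℝ) ^ m := by rw [h3, one_mul]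
      _ = c * (s * n) ^ m := by rw [mul_pow]; ring
      _ ≤ c * C' ^ m := mul_le_mul_of_nonneg_left h4 (norm_nonneg _)
  linarith

/-- **A ratio of holomorphic functions with values in `[0, ∞]` is constant.** -/
theorem exists_ratio {Ω : Set ℂ} (hΩ : IsOpen Ω) (hΩc : IsPreconnected Ω) {g₁ g₂ : ℂ → ℂ} (h₁ : DifferentiableOn ℂ g₁ Ω) (h₂ : DifferentiableOn ℂ g₂ Ω)
    {z₀ : ℂ} (hz₀ : z₀ ∈ Ω) (hne : g₁ z₀ ≠ 0) (h : ∀ z ∈ Ω, g₁ z ≠ 0 → g₂ z / g₁ z ∉ Cut) : ∃ t : ℝ, 0 ≤ t ∧ ∀ z ∈ Ω, g₂ z = t * g₁ z := by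
  have a₁ : AnalyticOnNhd ℂ g₁ Ω := h₁.analyticOnNhd hΩ
  have a₂ : AnalyticOnNhd ℂ g₂ Ω := h₂.analyticOnNhd hΩ
  obtain ⟨t, ht, he⟩ := notMem_Cut (h z₀ hz₀ hne)
  have a₃ : AnalyticAt ℂ (fun z => g₂ z / g₁ z) z₀ := (a₂ z₀ hz₀).div (a₁ z₀ hz₀) hne
  have hloc : ∀ᶠ z in 𝓝 z₀, z ∈ Ω ∧ g₁ z ≠ 0 := (hΩ.eventually_mem hz₀).and ((a₁ z₀ hz₀).continuousAt.eventually_ne hne)
  rcases a₃.eventually_constant_or_nhds_le_map_nhds with hc | hc
  · refine ⟨t, ht, ?_⟩
    have h3 : g₂ =ᶠ[𝓝 z₀] fun z => (t : ℂ) * g₁ z := by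
      filter_upwards [hc, hloc] with z hz hz'
      have h4 : g₂ z / g₁ z = t := by rw [hz, he]
      rw [← h4, div_mul_cancel₀ _ hz'.2]
    have a₄ : AnalyticOnNhd ℂ (fun z => (t : ℂ) * g₁ z) Ω := fun z hz => analyticAt_const.mul (a₁ z hz)
    exact fun z hz => a₂.eqOn_of_preconnected_of_eventuallyEq a₄ hΩc hz₀ h3 hz
  · exfalso
    -- the image contains a neighbourhood of `t`, hence a point of `Cut`
    have h5 : ∀ᶠ y in 𝓝 (g₂ z₀ / g₁ z₀), y ∉ Cut := by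
      apply hc
      rw [mem_map]
      filter_upwards [hloc] with z hz
      exact h z hz.1 hz.2
    obtain ⟨y, hy, hyt⟩ := exists_seq_Cut (g₂ z₀ / g₁ z₀)
    obtain ⟨n, hn⟩ := (hyt.eventually h5).exists
    exact hn (hy n)

end Pool.Agent.SR2
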