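import Pool.Agent.SR2.LiouA
import Pool.Agent.SR2.LiouB

/-!
# SR2 LiouF: Liouville's theorem for a family of blow-downs
-/

set_option autoImplicit false

open Metric Topology Filter

noncomputable section

namespace Pool.Agent.SR2

open Pool.Agent.SDR (gc hp tot Blow BlowFam)

variable {ι : Type} [Fintype ι]

theorem blow_lin {Cr : Type} {Q : Cr → ℕ → ℂ} {m : ℕ} {e₁ e₂ : Cr → ι} {c C : ℝ} {𝓤 : Set (ι → ℂ → ℝ)} (h : BlowFam Q m e₁ e₂ c C 𝓤)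
    (hm : 1 ≤ m) (hc : 0 < c) {U : ι → ℂ → ℝ} (hU : U ∈ 𝓤) : ∃ (u : ℂ) (b : ℝ) (β γ : ι → ℝ), Lin u b β γ U :=
  blow_lin_of_ratio (h.blow U hU) hm fun _ _ hz h0 hk h1 h2 hne => ratio_notMem_Cut h hm hc hU hz h0 hk h1 h2 hne

end Pool.Agent.SR2
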