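import Pool.Agent.SR2.HDefs
import Pool.Agent.H14.KB.Kob
import Pool.Agent.SDA.E3

/-!
# SR2 MetC: the fields of `Geo.Met` for a curve given by equations
-/

set_option autoImplicit false

open Topology Filter Metric MvPolynomial

noncomputable section

namespace Pool.Agent.SR2

open Pool.Agent.H36.BP (EN fs OrdTwo isCone_transport)
open Pool.Agent.H14.PP (IsCone Tan)
open Pool.Agent.H14.V (IsLift isLift_mk)
open Pool.Agent.H14.KB (rhoS rhoS_nonneg)
open Pool.Agent.H17 (PN VanishesAt HolomorphicInto)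
open Pool.Agent.H17BP (Surface)
open Pool.Agent.H62.FC (Homog)
open Pool.Agent.H17LG.Variety (FunField)
open Pool.Agent.H17EF (projVar coneE LE)
open Pool.Agent.H13.SM (conTan cone)
open Pool.Agent.H13.OT (OrderTwo)
open Pool.Agent.H22.WL (evF evF_diff evF_smul vanishesAt_lift)
open Pool.Agent.AD (SymDiff TangentTo)
open Pool.Agent.SDA (EnergyK Near openCone nForms)

variable {N k M : ℕ}

/-- The fields of `Met`, except `en`, `near` and `null`, follow from the equations. -/
theorem met_of_eqs {G : Geo N} (hX : IsCone G.X) {κ : Type} [Fintype κ] {q : κ → EN N → ℂ} {D : ℕ} (hd : ∀ a, Differentiable ℂ (q a))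
    (hs : ∀ a (c : ℂ) (x : EN N), q a (c • x) = c ^ D * q a x) {T : Set (EN N)} (hT : ∀ x, x ∈ T ↔ x ∈ G.X ∧ ∀ a, q a x = 0)
    (hKT : ∀ x ∈ G.X, x ∉ G.K → ∀ a, q a x = 0) {rho : EN N → ℝ} (hrho : ∀ x, rho x = rhoS q D x) {M : ℕ} {c₀ C δ : ℝ}
    {g : (ℂ → EN N) → ℂ → ℝ} (hE : EnergyK G.X G.K T (fun x => ‖x‖) rho M c₀ C g) (hδ : 0 < δ)
    (hnear : Near G.K T (fun x => ‖x‖) rho c₀ g δ)
    (hnull : ∀ F : ℂ → EN N, Differentiable ℂ F → (∀ z, F z ∈ G.K) → OrdTwo F → (∀ z, G.n (F z) (deriv F z) = 0) →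
      (∀ z, F z ∈ T) ∨ ∀ z w, ∃ c : ℂ, F z = c • F w) : G.Met T rho M c₀ C δ g := by
  have hxne : ∀ x ∈ G.X, ‖x‖ ≠ 0 := fun x hx => norm_ne_zero_iff.2 fun h => hX.zero_notMem (h ▸ hx)
  refine
    { en := hE
      pos := hδ
      near := hnear
      TX := fun x hx => ((hT x).1 hx).1
      Ts := ?_
      KT := fun x hx hxK => (hT x).2 ⟨hx, hKT x hx hxK⟩
      rho0 := fun x _ => by rw [hrho]; exact rhoS_nonneg _ _ _
      rhoT := ?_
      rhoc := ?_
      rhos := ?_
      Ti := ?_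
      null := hnull }
  · intro x hx c hc
    rw [hT] at hx ⊢
    exact ⟨hX.smul_mem x hx.1 c hc, fun a => by rw [hs, hx.2 a, mul_zero]⟩
  · intro x hx
    rw [hT, hrho]
    unfold rhoS
    have h2 : ‖x‖ ^ D ≠ 0 := pow_ne_zero _ (hxne x hx)
    constructor
    · intro h
      rw [div_eq_zero_iff] at h
      rcases h with h | h
      · exact ⟨hx, fun a => congrFun (norm_eq_zero.1 h) a⟩
      · exact absurd h h2
    · rintro ⟨-, h⟩
      have h3 : (fun a => q a x) = 0 := funext h
      rw [h3, norm_zero, zero_div]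
  · have h3 : ContinuousOn (fun x => rhoS q D x) G.X := by
      unfold rhoS
      refine ContinuousOn.div ?_ (continuous_norm.pow D).continuousOn fun x hx => pow_ne_zero _ (hxne x hx)
      exact (continuous_pi fun a => (hd a).continuous).norm.continuousOn
    exact h3.congr fun x _ => hrho x
  · intro x _ c hc
    rw [hrho, hrho]
    unfold rhoS
    have h3 : (fun a => q a (c • x)) = c ^ D • fun a => q a x := by
      funext a
      rw [hs]
      rfl
    rw [h3, norm_smul, norm_smul, norm_pow, mul_pow]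
    exact mul_div_mul_left _ _ (pow_ne_zero _ (norm_ne_zero_iff.2 hc))
  · intro F hF hFX hne z₀
    obtain ⟨z, hz⟩ := hne
    rw [hT] at hz
    push Not at hz
    obtain ⟨a, ha⟩ := hz (hFX z)
    have h1 : Differentiable ℂ fun z => q a (F z) := (hd a).comp hF
    have h2 : AnalyticAt ℂ (fun z => q a (F z)) z₀ := h1.analyticAt z₀
    rcases h2.eventually_eq_zero_or_eventually_ne_zero with h3 | h3
    · exfalso
      have h4 : AnalyticOnNhd ℂ (fun z => q a (F z)) Set.univ := fun z _ => h1.analyticAt z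
      have h5 := h4.eqOn_zero_of_preconnected_of_eventuallyEq_zero isPreconnected_univ (Set.mem_univ z₀) h3
      exact ha (h5 (Set.mem_univ z))
    · filter_upwards [h3] with z hz hzT
      rw [hT] at hzT
      exact hz (hzT.2 a)

/-- from the characteristic function to the averages -/
theorem orderTwo_of_ordTwo' {F : ℂ → EN N} {f : ℂ → PN N} (h : IsLift F f) (hF : OrdTwo F) : OrderTwo f := by
  have h1 : OrdTwo fun z => (LE N).symm (F z) := Pool.Agent.H17EF.ordTwo_symm hF
  have h2 : Differentiable ℂ fun z => (LE N).symm (F z) := (LE N).symm.differentiable.comp h.1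
  have h3 : ∀ z, (LE N).symm (F z) ≠ 0 := fun z => (h.2 z).1
  have h4 : ∀ z, Pool.Agent.H17BP.HolP (fun z => (LE N).symm (F z)) z := by
    intro z
    exact ⟨fun z => (LE N).symm (F z), h2.analyticAt z, h3 z, Eventually.of_forall fun w => ⟨1, one_ne_zero, by simp⟩⟩
  have h5 := Pool.Agent.H13.OT.OrdTwo.orderTwo h3 h4 h1
  have h6 : f = fun z => Projectivization.mk ℂ ((LE N).symm (F z)) (h3 z) := by
    funext z
    exact (h.2 z).2
  rw [h6]
  exact h5

variable {P : Ideal (MvPolynomial (Fin (N + 1)) ℂ)} {H : MvPolynomial (Fin (N + 1)) ℂ} {h : ℕ}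

/-- Null curves lie in the curve `{R l = 0 for all l}`. -/
theorem null_of_nullCurve (hP : Homog P) (hX : IsCone (coneE P)) (hH : H.IsHomogeneous h) {s : ℕ} {m : Fin s → ℕ} (hm : ∀ j, 1 ≤ m j)
    (θ : ∀ j, SymDiff (oc P H) (m j)) {t : ℕ} {R : Fin t → MvPolynomial (Fin (N + 1)) ℂ} (hnull : NullCurve θ R)
    {F : ℂ → EN N} (hF : Differentiable ℂ F) (hFK : ∀ z, F z ∈ oc P H) (hFo : OrdTwo F)
    (hF0 : ∀ z, nForms m (fun j => (θ j).toFun) (F z) (deriv F z) = 0) :
    (∀ z l, eval (F z).ofLp (R l) = 0) ∨ ∀ z w, ∃ c : ℂ, F z = c • F w := by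
  have hFX : ∀ z, F z ∈ coneE P := fun z => (hFK z).1
  have h0 : ∀ z, (F z).ofLp ≠ 0 := fun z => (hFX z).1
  have hl := isLift_mk hF h0
  by_cases hcon : ∃ z w, (fun z => Projectivization.mk ℂ (F z).ofLp (h0 z)) z ≠ (fun z => Projectivization.mk ℂ (F z).ofLp (h0 z)) w
  · left
    intro z l
    have hzero : ∀ j z, (θ j).toFun (F z) (deriv F z) = 0 := by
      intro j z
      have h1 : ∑ j, ‖(θ j).toFun (F z) (deriv F z)‖ ^ ((m j : ℝ)⁻¹) = 0 := hF0 z
      have h2 := (Finset.sum_eq_zero_iff_of_nonneg fun j _ => Real.rpow_nonneg (norm_nonneg ((θ j).toFun (F z) (deriv F z))) _).1 h1 j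
        (Finset.mem_univ j)
      have h3 : ((m j : ℝ)⁻¹) ≠ 0 := by
        have : (m j : ℝ) ≠ 0 := by
          have := hm j
          positivity
        exact inv_ne_zero this
      exact norm_eq_zero.1 (((Real.rpow_eq_zero (norm_nonneg _) h3).1 h2))
    have hloc : ∀ z, (fun z => Projectivization.mk ℂ (F z).ofLp (h0 z)) z ∈ projVar P ∧
        ¬ VanishesAt H ((fun z => Projectivization.mk ℂ (F z).ofLp (h0 z)) z) := by
      intro z
      refine ⟨(hl.mem_iff hP z).2 (hFX z), ?_⟩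
      rw [vanishesAt_lift hl hH]
      exact (hFK z).2 0
    have h1 := hnull.null _ hl.holomorphicInto (orderTwo_of_ordTwo' hl hFo) hloc hcon (fun j => ⟨F, hl, hzero j⟩) l z
    obtain ⟨D, hD⟩ := hnull.hom
    rwa [vanishesAt_lift hl (hD l)] at h1
  · right
    push Not at hcon
    intro z w
    have h1 := hcon z w
    simp only at h1
    rw [Projectivization.mk_eq_mk_iff'] at h1
    obtain ⟨a, ha⟩ := h1
    exact ⟨a, WithLp.ofLp_injective 2 ha.symm⟩

end Pool.Agent.SR2
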