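import Pool.Agent.SR2.NcDefs
import Pool.Agent.AD.T.NCDefs
import Pool.Agent.H17BP.TrdegLt

/-!
# SR2 NcStub: the modules of H14 (stubs; never import this file in a hand-in)

One theorem = one file `Pool/Agent/SR2/<Module>.lean`, namespace `Pool.Agent.SR2`, exactly these statements.
-/

set_option autoImplicit false

open Topology Filter Metric MvPolynomial

noncomputable section

namespace Pool.Agent.SR2

open Pool.Agent.H36.BP (EN)
open Pool.Agent.H17 (PN VanishesAt HolomorphicInto)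
open Pool.Agent.H62.FC (Homog)
open Pool.Agent.H17LG.Variety (FunField)
open Pool.Agent.H13.OT (OrderTwo)
open Pool.Agent.H13.SM (conTan)
open Pool.Agent.H17EF (projVar coneE)
open Pool.Agent.AD (SymDiff TangentTo)
open Pool.Agent.AD.NC (IsSmooth)
open Pool.Agent.H17BP (mapIdeal)

variable {N : ℕ}

namespace Stub

variable {P : Ideal (MvPolynomial (Fin (N + 1)) ℂ)} {H : MvPolynomial (Fin (N + 1)) ℂ} {h : ℕ}

/-- MODULE N1 (Jac.lean): the Jacobian matrix of the `f j` and of `n` coordinates; `a i` are columns of the adjugate matrix, `s` is the determinant -/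
theorem exists_frame {m n : ℕ} (hmn : m + n = N + 1) {f : Fin m → MvPolynomial (Fin (N + 1)) ℂ} {x : Fin (N + 1) → ℂ}
    (hli : LinearIndependent ℂ fun (j : Fin m) (i : Fin (N + 1)) => eval x (pderiv i (f j))) :
    ∃ (k : Fin n → Fin (N + 1)) (a : Fin n → Fin (N + 1) → MvPolynomial (Fin (N + 1)) ℂ) (s : MvPolynomial (Fin (N + 1)) ℂ), eval x s ≠ 0 ∧
      (∀ i j, fld (a i) (f j) = 0) ∧ (∀ i j, fld (a i) (X (k j)) = if i = j then s else 0) ∧
      ∀ y v : Fin (N + 1) → ℂ, (∀ j, ∑ l, v l * eval y (pderiv l (f j)) = 0) → eval y s • v = ∑ i, v (k i) • fun l => eval y (a i l) := by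
  sorry

/-- MODULE N2 (NoStab.lean): for `g ≠ 0` in three variables `g (X (k 0), X (k 1), X (k 2)) ∉ Q` (induction on the degree: `D i` of it is `s` times the
polynomial `∂ i g`); so `FunField Q` contains two algebraically independent elements (homogenize) -/
theorem no_stable {Q : Ideal (MvPolynomial (Fin (N + 1)) ℂ)} [Q.IsPrime] (hQ : Homog Q) (hz : ∃ z : Fin 1 → FunField Q, IsTranscendenceBasis ℂ z)
    (a : Fin 3 → Fin (N + 1) → MvPolynomial (Fin (N + 1)) ℂ) (k : Fin 3 → Fin (N + 1)) {s : MvPolynomial (Fin (N + 1)) ℂ} (hs : s ∉ Q)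
    (ha : ∀ i j, fld (a i) (X (k j)) = if i = j then s else 0) (hst : ∀ i, ∀ G ∈ Q, fld (a i) G ∈ Q) : False := by
  sorry

/-- MODULE N3 (FinSing.lean): minimal primes of the ideal generated by the homogeneous components of the elements of `I` and of `fld a G`, `G ∈ I`,
`fld a P ≤ P` (compare `H14/TS/Fin.lean`); a minimal prime of dimension 1 is minimal over `I`, hence stable under the fields of N1 (`G Q ∈ I` for some
`G ∉ q` if `Q ∈ q`), against N2 -/
theorem finite_sing [P.IsPrime] {z : Fin 2 → FunField P} (hP : Homog P) (hz : IsTranscendenceBasis ℂ z) (hsm : IsSmooth P 2)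
    {I : Ideal (MvPolynomial (Fin (N + 1)) ℂ)} (hI : Homog I) (hrad : I.IsRadical) (hPI : P ≤ I) (hne : ¬ I ≤ P) :
    {x : PN N | x ∈ projVar I ∧ conTan P x.rep ≤ conTan I x.rep}.Finite := by
  sorry

/-- MODULE N4 (NReg.lean): `exists_indep` (`n = 1`) and N1 (`n = 2`): for all `c`, the polynomial `s * W j (y, c 0 • a 0 (y) + c 1 • a 1 (y))` vanishes on
the cone over every null curve `f` (`F` a lift: where `F'` is not a multiple of `F` and `s ≠ 0`, the kernel is spanned by `F` and `F'`; the other points: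
continuity), so it is in `nullId θ` -/
theorem null_of_reg [P.IsPrime] {z : Fin 2 → FunField P} (hP : Homog P) (hz : IsTranscendenceBasis ℂ z) (hsm : IsSmooth P 2)
    (hH : H.IsHomogeneous h) (h1 : 1 ≤ h) {s : ℕ} {m : Fin s → ℕ} (hm : ∀ j, 1 ≤ m j) (θ : ∀ j, SymDiff (oc P H) (m j))
    (hθ : ∀ j, IsAlg (θ j)) {x : EN N} (hx : x ∈ oc P H) (hxI : ∀ Q ∈ nullId θ, eval x.ofLp Q = 0)
    (hreg : Module.finrank ℂ (conTan (nullId θ) x.ofLp) ≤ 2) {v : EN N} (hv : v.ofLp ∈ conTan (nullId θ) x.ofLp) (j : Fin s) :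
    (θ j).toFun x v = 0 := by
  sorry

/-- MODULE N5 (Gens.lean): `Q i * X a ^ (D - d i)` for homogeneous generators `Q i` of `I`, of degree `d i ≤ D` -/
theorem exists_gens [P.IsPrime] {I : Ideal (MvPolynomial (Fin (N + 1)) ℂ)} (hX : ∃ i, (X i : MvPolynomial (Fin (N + 1)) ℂ) ∉ P) (hI : Homog I)
    (hne : ¬ I ≤ P) :
    ∃ (t D : ℕ) (R' : Fin t → MvPolynomial (Fin (N + 1)) ℂ), (∀ l, (R' l).IsHomogeneous D) ∧ (∀ l, R' l ∈ I) ∧ (∃ l, R' l ∉ P) ∧
      ∀ x : Fin (N + 1) → ℂ, x ≠ 0 → (∀ l, eval x (R' l) = 0) → (∀ Q ∈ I, eval x Q = 0) ∧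
        ∀ v : Fin (N + 1) → ℂ, (∀ l, ∑ i, v i * eval x (pderiv i (R' l)) = 0) → v ∈ conTan I x := by
  sorry

end Stub

end Pool.Agent.SR2
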