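import Pool.Agent.SR2.NcDefs
import Pool.Agent.H17BP.TrdegLt

/-!
# SR2 NoStab: no stable prime of dimension one
-/

set_option autoImplicit false

open MvPolynomial

noncomputable section

namespace Pool.Agent.SR2

open Pool.Agent.H17GT (coordFun)
open Pool.Agent.H17LG.Variety (FunField)
open Pool.Agent.H62.FC (Homog)

variable {N : ℕ} {Q : Ideal (MvPolynomial (Fin (N + 1)) ℂ)}

/-- three coordinates are dependent on a curve -/
theorem exists_rel [Q.IsPrime] (hz : ∃ z : Fin 1 → FunField Q, IsTranscendenceBasis ℂ z) (k : Fin 3 → Fin (N + 1)) :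
    ∃ (n : ℕ) (g : MvPolynomial (Fin 3) ℂ), g.IsHomogeneous n ∧ g ≠ 0 ∧ rename k g ∈ Q := by
  classical
  by_cases hk : (X (k 0) : MvPolynomial (Fin (N + 1)) ℂ) ∈ Q
  · exact ⟨1, X 0, isHomogeneous_X _ _, X_ne_zero _, by rwa [rename_X]⟩
  have hcj : coordFun Q (k 0) ≠ 0 := by
    intro h
    apply hk
    rw [← Pool.Agent.H92.GT.Proj.aeval_coordFun_eq_zero_iff Q (X (k 0)), aeval_X]
    exact h
  obtain ⟨y, hy1, -, hker⟩ := Pool.Agent.H92.GT.Proj.proj_point Q hcj
  obtain ⟨z, hz⟩ := hz
  have h2 := IsTranscendenceBasis.cardinalMk_eq_trdeg (R := ℂ) (A := H17GT.functionField Q) (x := z) hz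
  have hdep : ¬ AlgebraicIndependent ℂ (fun i : Fin 2 => y (k i.succ)) := by
    intro hind
    have h3 := hind.cardinalMk_le_trdeg
    rw [← h2] at h3
    simp at h3
  rw [algebraicIndependent_iff] at hdep
  push Not at hdep
  obtain ⟨p, hp, hp0⟩ := hdep
  have hone : ∀ {K : Type} [Field K] [Algebra ℂ K] (x : Fin 3 → K), x 0 = 1 →
      aeval x (∑ l ∈ Finset.range (p.totalDegree + 1), X 0 ^ (p.totalDegree - l) * rename Fin.succ (homogeneousComponent l p)) =
        aeval (fun i : Fin 2 => x i.succ) p := by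
    intro K _ _ x hx
    conv_rhs => rw [← MvPolynomial.sum_homogeneousComponent p]
    rw [map_sum, map_sum]
    refine Finset.sum_congr rfl fun l _ => ?_
    rw [map_mul, map_pow, aeval_X, hx, one_pow, one_mul, aeval_rename]
    rfl
  set g : MvPolynomial (Fin 3) ℂ := ∑ l ∈ Finset.range (p.totalDegree + 1), X 0 ^ (p.totalDegree - l) * rename Fin.succ (homogeneousComponent l p) with hg
  have hgh : g.IsHomogeneous p.totalDegree := by
    apply MvPolynomial.IsHomogeneous.sum
    intro d hd
    have h1 : d ≤ p.totalDegree := Nat.lt_succ_iff.1 (Finset.mem_range.1 hd)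
    have h2 := (MvPolynomial.isHomogeneous_X_pow (R := ℂ) (0 : Fin 3) (p.totalDegree - d)).mul
      ((MvPolynomial.homogeneousComponent_isHomogeneous d p).rename_isHomogeneous (f := (Fin.succ : Fin 2 → Fin 3)))
    rwa [Nat.sub_add_cancel h1] at h2
  refine ⟨p.totalDegree, g, hgh, ?_, ?_⟩
  · intro h0
    -- evaluate at a generic point
    have h3 : ∀ u : Fin 2 → ℂ, eval u p = 0 := by
      intro u
      have h4 := hone (K := ℂ) (Fin.cons 1 u) rfl
      rw [h0, map_zero] at h4
      have h5 : (fun i : Fin 2 => (Fin.cons 1 u : Fin 3 → ℂ) i.succ) = u := by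
        funext i
        simp
      rw [h5] at h4
      rw [← MvPolynomial.coe_aeval_eq_eval]
      exact h4.symm
    exact hp0 (MvPolynomial.funext fun u => by rw [h3 u, map_zero])
  · rw [← hker p.totalDegree _ hgh.rename_isHomogeneous, aeval_rename]
    have h3 := hone (K := H17GT.functionField Q) (fun i => y (k i)) hy1
    exact h3.trans hp

/-- the chain rule -/
theorem deriv_rename {k : Fin 3 → Fin (N + 1)} {D : Derivation ℂ (MvPolynomial (Fin (N + 1)) ℂ) (MvPolynomial (Fin (N + 1)) ℂ)}
    {s : MvPolynomial (Fin (N + 1)) ℂ} {i : Fin 3} (hD : ∀ j, D (X (k j)) = if i = j then s else 0) (g : MvPolynomial (Fin 3) ℂ) :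
    D (rename k g) = rename k (pderiv i g) * s := by
  classical
  induction g using MvPolynomial.induction_on with
  | C a => rw [rename_C, pderiv_C, map_zero, zero_mul, MvPolynomial.derivation_C]
  | add p q hp hq => rw [map_add, map_add, map_add, map_add, hp, hq, add_mul]
  | mul_X p j hp =>
    rw [map_mul, rename_X, D.leibniz, hD j, hp, pderiv_mul, map_add, map_mul, map_mul, rename_X, pderiv_X]
    simp only [smul_eq_mul]
    by_cases hij : i = j
    · subst hij
      rw [if_pos rfl, Pi.single_eq_same, map_one]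
      ring
    · rw [if_neg hij, Pi.single_eq_of_ne' hij, map_zero]
      ring

/-- no homogeneous prime of dimension one is stable under three independent derivations -/
theorem no_stab [Q.IsPrime] (hz : ∃ z : Fin 1 → FunField Q, IsTranscendenceBasis ℂ z) {k : Fin 3 → Fin (N + 1)}
    {D : Fin 3 → Derivation ℂ (MvPolynomial (Fin (N + 1)) ℂ) (MvPolynomial (Fin (N + 1)) ℂ)}
    {s : MvPolynomial (Fin (N + 1)) ℂ} (hs : s ∉ Q) (hD : ∀ i j, D i (X (k j)) = if i = j then s else 0) :
    ∃ i, ∃ g ∈ Q, D i g ∉ Q := by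
  by_contra hcon
  push Not at hcon
  have hP : Q.IsPrime := inferInstance
  have key : ∀ (n : ℕ) (g : MvPolynomial (Fin 3) ℂ), g.IsHomogeneous n → g ≠ 0 → rename k g ∉ Q := by
    intro n
    induction n with
    | zero =>
      intro g hg hg0 hgQ
      rw [← totalDegree_zero_iff_isHomogeneous, totalDegree_eq_zero_iff_eq_C] at hg
      rw [hg, rename_C] at hgQ
      apply hP.ne_top
      refine Ideal.eq_top_of_isUnit_mem _ hgQ (IsUnit.map C (isUnit_iff_ne_zero.2 fun h => hg0 ?_))
      rw [hg, h, map_zero]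
    | succ n ih =>
      intro g hg hg0 hgQ
      have h1 : ∃ i, pderiv i g ≠ 0 := by
        by_contra h
        push Not at h
        have h2 := hg.sum_X_mul_pderiv
        simp only [h, mul_zero, Finset.sum_const_zero] at h2
        rcases smul_eq_zero.1 h2.symm with h3 | h3
        · exact Nat.succ_ne_zero n h3
        · exact hg0 h3
      obtain ⟨i, hi⟩ := h1
      refine ih _ hg.pderiv hi ?_
      have h2 := hcon i _ hgQ
      rw [deriv_rename (hD i)] at h2
      exact (hP.mem_or_mem h2).resolve_right hs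
  obtain ⟨n, g, hg, hg0, hgQ⟩ := exists_rel hz k
  exact key n g hg hg0 hgQ

theorem fld_eq_mkDerivation (a : Fin (N + 1) → MvPolynomial (Fin (N + 1)) ℂ) (G : MvPolynomial (Fin (N + 1)) ℂ) :
    mkDerivation ℂ a G = fld a G := by
  classical
  unfold fld
  induction G using MvPolynomial.induction_on with
  | C c => simp
  | add p q hp hq =>
    rw [map_add, hp, hq, ← Finset.sum_add_distrib]
    refine Finset.sum_congr rfl fun l _ => ?_
    rw [map_add, mul_add]
  | mul_X p j hp =>
    rw [Derivation.leibniz, hp, mkDerivation_X, smul_eq_mul, smul_eq_mul, Finset.mul_sum]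
    have h1 : ∀ l, a l * pderiv l (p * X j) = X j * (a l * pderiv l p) + (if l = j then p * a l else 0) := by
      intro l
      rw [pderiv_mul, pderiv_X]
      by_cases hlj : l = j
      · subst hlj
        rw [if_pos rfl, Pi.single_eq_same]
        ring
      · rw [if_neg hlj, Pi.single_eq_of_ne' hlj]
        ring
    rw [Finset.sum_congr rfl fun l _ => h1 l, Finset.sum_add_distrib, Finset.sum_ite_eq' Finset.univ j, if_pos (Finset.mem_univ j)]
    exact add_comm _ _

/-- MODULE N2 -/
theorem no_stable {Q : Ideal (MvPolynomial (Fin (N + 1)) ℂ)} [Q.IsPrime] (_hQ : Homog Q) (hz : ∃ z : Fin 1 → FunField Q, IsTranscendenceBasis ℂ z)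
    (a : Fin 3 → Fin (N + 1) → MvPolynomial (Fin (N + 1)) ℂ) (k : Fin 3 → Fin (N + 1)) {s : MvPolynomial (Fin (N + 1)) ℂ} (hs : s ∉ Q)
    (ha : ∀ i j, fld (a i) (X (k j)) = if i = j then s else 0) (hst : ∀ i, ∀ G ∈ Q, fld (a i) G ∈ Q) : False := by
  obtain ⟨i, g, hg, hng⟩ := no_stab hz (D := fun i => mkDerivation ℂ (a i)) hs fun i j => by rw [fld_eq_mkDerivation]; exact ha i j
  rw [fld_eq_mkDerivation] at hng
  exact hng (hst i g hg)

end Pool.Agent.SR2
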