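import Pool.Agent.SR2.HDefs
import Pool.Agent.SR2.Glo
import Pool.Agent.E2.Loc
import Pool.Agent.H14.PP.Poly
import Pool.Agent.H14.PP.CurveBasic

/-!
# SR2 OmL: the sections `Ω a` in terms of the logarithmic length
-/

set_option autoImplicit false

open Topology Filter Metric MvPolynomial

noncomputable section

namespace Pool.Agent.SR2

open Pool.Agent.H36.BP (EN fs fs_nonneg fs_inv)
open Pool.Agent.H17BP (Surface IsChart IsForm)
open Pool.Agent.H36.BPL (PoleLE)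
open Pool.Agent.H14.PP (IsCone Tan fs_eq fs_le analyticAt_evalEN eval_smulEN)
open Pool.Agent.H17EF (projVar coneE)

variable {N k M : ℕ}

/-- lower bound of the Fubini–Study length in a chart -/
private theorem OmL_fs {X : Set (EN N)} {σ : ℂ × ℂ → EN N} {τ : EN N → ℂ × ℂ} (h : IsChart X σ τ) :
    ∃ C : ℝ, 0 ≤ C ∧ ∀ᶠ y in 𝓝 (0 : ℂ × ℂ), ∀ v : ℂ × ℂ, ‖v‖ ≤ C * fs (σ y) (fderiv ℂ σ y v) := by
  have hσc : Tendsto σ (𝓝 (0 : ℂ × ℂ)) (𝓝 (σ 0)) := h.σ_an.continuousAt.tendsto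
  have hne : ∀ᶠ p in 𝓝 (0 : ℂ × ℂ), σ p ≠ 0 := h.σ_an.continuousAt.eventually_ne h.ne
  have hinv : ∀ᶠ x in 𝓝 (σ 0), ∀ᶠ c in 𝓝 (1 : ℂ), τ (c • x) = τ x := by
    have h1 := h.inv
    rw [nhds_prod_eq] at h1
    exact h1.curry
  have hcont : ContinuousAt (fun y => ‖fderiv ℂ τ (σ y)‖ * ‖σ y‖) 0 := by
    have h1 : ContinuousAt (fderiv ℂ τ) (σ 0) := h.τ_an.fderiv.continuousAt
    have h2 : ContinuousAt (fun y => fderiv ℂ τ (σ y)) 0 := ContinuousAt.comp (g := fderiv ℂ τ) h1 h.σ_an.continuousAt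
    exact h2.norm.mul h.σ_an.continuousAt.norm
  refine ⟨‖fderiv ℂ τ (σ 0)‖ * ‖σ 0‖ + 1, by positivity, ?_⟩
  filter_upwards [hσc.eventually hinv, hne, h.left.eventually_nhds, h.σ_an.eventually_analyticAt,
    hσc.eventually h.τ_an.eventually_analyticAt, hcont.eventually_lt continuousAt_const (lt_add_one _)] with y h1 h2 h3 h4 h5 h6 v
  -- the derivative of `τ` in the radial direction
  have e1 : fderiv ℂ τ (σ y) (σ y) = 0 := by
    have h7 : HasDerivAt (fun c : ℂ => c • σ y) (σ y) 1 := by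
      simpa using (hasDerivAt_id (1 : ℂ)).smul_const (σ y)
    have h8 : HasFDerivAt τ (fderiv ℂ τ (σ y)) ((1 : ℂ) • σ y) := by
      rw [one_smul]
      exact h5.differentiableAt.hasFDerivAt
    have h9 := h8.comp_hasDerivAt (1 : ℂ) h7
    have h10 : HasDerivAt (fun _ : ℂ => τ (σ y)) (0 : ℂ × ℂ) (1 : ℂ) := hasDerivAt_const _ _
    have h11 : HasDerivAt (fun _ : ℂ => τ (σ y)) (fderiv ℂ τ (σ y) (σ y)) (1 : ℂ) :=
      h9.congr_of_eventuallyEq (h1.mono fun c hc => hc.symm)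
    exact h11.unique h10
  have e2 : fderiv ℂ τ (σ y) (fderiv ℂ σ y v) = v := by
    have h7 : HasFDerivAt (fun p => τ (σ p)) ((fderiv ℂ τ (σ y)).comp (fderiv ℂ σ y)) y :=
      HasFDerivAt.comp (g := τ) y h5.differentiableAt.hasFDerivAt h4.differentiableAt.hasFDerivAt
    have h8 : HasFDerivAt (fun p : ℂ × ℂ => p) (ContinuousLinearMap.id ℂ (ℂ × ℂ)) y := hasFDerivAt_id y
    have h9 : HasFDerivAt (fun p : ℂ × ℂ => p) ((fderiv ℂ τ (σ y)).comp (fderiv ℂ σ y)) y :=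
      h7.congr_of_eventuallyEq (h3.mono fun p hp => hp.symm)
    have h10 := h9.unique h8
    have h11 := congrArg (fun L : ℂ × ℂ →L[ℂ] ℂ × ℂ => L v) h10
    exact h11
  set a : ℂ := inner ℂ (σ y) (fderiv ℂ σ y v) / (‖σ y‖ : ℂ) ^ 2 with ha
  have e3 : fderiv ℂ τ (σ y) (fderiv ℂ σ y v - a • σ y) = v := by
    rw [map_sub, map_smul, e1, e2, smul_zero, sub_zero]
  have hyn : 0 < ‖σ y‖ := norm_pos_iff.mpr h2
  have e4 : ‖fderiv ℂ σ y v - a • σ y‖ = ‖σ y‖ * fs (σ y) (fderiv ℂ σ y v) := by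
    rw [fs_eq h2, ← ha]
    field_simp
  calc ‖v‖ = ‖fderiv ℂ τ (σ y) (fderiv ℂ σ y v - a • σ y)‖ := by rw [e3]
    _ ≤ ‖fderiv ℂ τ (σ y)‖ * ‖fderiv ℂ σ y v - a • σ y‖ := ContinuousLinearMap.le_opNorm _ _
    _ = (‖fderiv ℂ τ (σ y)‖ * ‖σ y‖) * fs (σ y) (fderiv ℂ σ y v) := by rw [e4]; ring
    _ ≤ _ := mul_le_mul_of_nonneg_right h6.le (fs_nonneg _ _)

/-- the differential of `co s` -/
private def dco : Option Bool → ℂ × ℂ → ℂ
  | none, _ => 0
  | some false, v => v.1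
  | some true, v => v.2

private theorem OmL_dco (s : Option Bool) (y : ℂ × ℂ) : ∃ L : ℂ × ℂ →L[ℂ] ℂ, HasFDerivAt (co s) L y ∧ ∀ v, L v = dco s v := by
  rcases s with _ | s
  · exact ⟨0, hasFDerivAt_const (1 : ℂ) y, fun v => rfl⟩
  · cases s
    · exact ⟨ContinuousLinearMap.fst ℂ ℂ ℂ, hasFDerivAt_fst, fun v => rfl⟩
    · exact ⟨ContinuousLinearMap.snd ℂ ℂ ℂ, hasFDerivAt_snd, fun v => rfl⟩

private theorem OmL_co_an (s : Option Bool) (y : ℂ × ℂ) : AnalyticAt ℂ (co s) y := by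
  rcases s with _ | s
  · exact analyticAt_const
  · cases s
    · exact analyticAt_fst
    · exact analyticAt_snd

private theorem OmL_vec_an (E : Fin (M + 1) → MvPolynomial (Fin (N + 1)) ℂ) (x : EN N) : AnalyticAt ℂ (vec E) x := by
  have h1 : AnalyticAt ℂ (fun x : EN N => fun l => eval x.ofLp (E l)) x := by
    rw [analyticAt_pi_iff]
    exact fun l => analyticAt_evalEN (E l) x
  exact ((PiLp.continuousLinearEquiv 2 ℂ (fun _ : Fin (M + 1) => ℂ)).symm.toContinuousLinearMap.analyticAt _).comp h1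

private theorem OmL_vec_smul {E : Fin (M + 1) → MvPolynomial (Fin (N + 1)) ℂ} {c : ℕ} (hE : ∀ l, (E l).IsHomogeneous c) (t : ℂ) (x : EN N) :
    vec E (t • x) = t ^ c • vec E x := by
  ext l
  exact eval_smulEN (hE l) t x

/-- the logarithmic derivative in a chart -/
private theorem OmL_ell {X : Set (EN N)} {σ : ℂ × ℂ → EN N} {τ : EN N → ℂ × ℂ} (h : IsChart X σ τ)
    (E : Fin (M + 1) → MvPolynomial (Fin (N + 1)) ℂ) (c : ℕ) {s : Option Bool} {e : ℂ × ℂ → EN M} (he : AnalyticAt ℂ e 0) (he0 : e 0 ≠ 0)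
    (hEe : ∀ᶠ y in 𝓝 (0 : ℂ × ℂ), vec E (σ y) = co s y • e y) :
    ∃ C : ℝ, 0 ≤ C ∧ ∀ᶠ y in 𝓝 (0 : ℂ × ℂ), co s y ≠ 0 → ∀ v, ‖dco s v / co s y‖ ≤ ‖ellE E c (σ y) (fderiv ℂ σ y v)‖ + C * ‖v‖ := by
  have hne : ∀ᶠ p in 𝓝 (0 : ℂ × ℂ), σ p ≠ 0 := h.σ_an.continuousAt.eventually_ne h.ne
  have hene : ∀ᶠ p in 𝓝 (0 : ℂ × ℂ), e p ≠ 0 := he.continuousAt.eventually_ne he0
  have hcont : ContinuousAt (fun y => ‖fderiv ℂ e y‖ / ‖e y‖ + c * (‖fderiv ℂ σ y‖ / ‖σ y‖)) 0 :=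
    (he.fderiv.continuousAt.norm.div he.continuousAt.norm (norm_ne_zero_iff.2 he0)).add
      (continuousAt_const.mul (h.σ_an.fderiv.continuousAt.norm.div h.σ_an.continuousAt.norm (norm_ne_zero_iff.2 h.ne)))
  refine ⟨‖fderiv ℂ e 0‖ / ‖e 0‖ + c * (‖fderiv ℂ σ 0‖ / ‖σ 0‖) + 1, by positivity, ?_⟩
  filter_upwards [hne, hene, hEe.eventually_nhds, h.σ_an.eventually_analyticAt, he.eventually_analyticAt,
    hcont.eventually_lt continuousAt_const (lt_add_one _)] with y h1 h2 h3 h4 h5 h6 hco v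
  obtain ⟨L, hL, hLv⟩ := OmL_dco s y
  have e1 : fderiv ℂ (vec E) (σ y) (fderiv ℂ σ y v) = co s y • fderiv ℂ e y v + dco s v • e y := by
    have h7 : HasFDerivAt (fun p => vec E (σ p)) ((fderiv ℂ (vec E) (σ y)).comp (fderiv ℂ σ y)) y :=
      HasFDerivAt.comp (g := vec E) y (OmL_vec_an E (σ y)).differentiableAt.hasFDerivAt h4.differentiableAt.hasFDerivAt
    have h8 : HasFDerivAt (fun p => co s p • e p) (co s y • fderiv ℂ e y + L.smulRight (e y)) y :=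
      hL.smul h5.differentiableAt.hasFDerivAt
    have h9 := (h7.congr_of_eventuallyEq (h3.mono fun p hp => hp.symm)).unique h8
    have h10 := congrArg (fun L : ℂ × ℂ →L[ℂ] EN M => L v) h9
    rw [← hLv v]
    exact h10
  have he2 : (‖e y‖ : ℂ) ≠ 0 := Complex.ofReal_ne_zero.2 (norm_ne_zero_iff.2 h2)
  have e2 : ellE E c (σ y) (fderiv ℂ σ y v) = dco s v / co s y + inner ℂ (e y) (fderiv ℂ e y v) / (‖e y‖ : ℂ) ^ 2 -
      (c : ℂ) * (inner ℂ (σ y) (fderiv ℂ σ y v) / (‖σ y‖ : ℂ) ^ 2) := by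
    unfold ellE
    rw [e1, h3.self_of_nhds]
    congr 1
    have h8 : ((‖co s y • e y‖ : ℝ) : ℂ) ^ 2 = (starRingEnd ℂ (co s y) * co s y) * (‖e y‖ : ℂ) ^ 2 := by
      rw [norm_smul, Complex.ofReal_mul, mul_pow, Complex.conj_mul']
    have h9 : inner ℂ (e y) (e y) = (‖e y‖ : ℂ) ^ 2 := by
      rw [inner_self_eq_norm_sq_to_K]
      rfl
    rw [h8, inner_add_right, inner_smul_left, inner_smul_right, inner_smul_left, inner_smul_right, h9]
    have h10 : starRingEnd ℂ (co s y) ≠ 0 := (map_ne_zero _).2 hco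
    field_simp
    ring
  have e3 : dco s v / co s y = ellE E c (σ y) (fderiv ℂ σ y v) + (-(inner ℂ (e y) (fderiv ℂ e y v) / (‖e y‖ : ℂ) ^ 2) +
      (c : ℂ) * (inner ℂ (σ y) (fderiv ℂ σ y v) / (‖σ y‖ : ℂ) ^ 2)) := by
    rw [e2]
    ring
  have key : ∀ {n : ℕ} (w : EN n) (D : ℂ × ℂ →L[ℂ] EN n), ‖inner ℂ w (D v) / (‖w‖ : ℂ) ^ 2‖ ≤ ‖D‖ / ‖w‖ * ‖v‖ := by
    intro n w D
    by_cases hw : w = 0
    · subst hw
      simp
    · have hw' : 0 < ‖w‖ := norm_pos_iff.2 hw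
      rw [norm_div, norm_pow, Complex.norm_real, norm_norm, div_le_iff₀ (by positivity)]
      calc ‖inner ℂ w (D v)‖ ≤ ‖w‖ * ‖D v‖ := norm_inner_le_norm _ _
        _ ≤ ‖w‖ * (‖D‖ * ‖v‖) := by gcongr; exact D.le_opNorm v
        _ = ‖D‖ / ‖w‖ * ‖v‖ * ‖w‖ ^ 2 := by field_simp
  rw [e3]
  refine (norm_add_le _ _).trans ?_
  gcongr
  refine (norm_add_le _ _).trans ?_
  rw [norm_neg, norm_mul, Complex.norm_natCast]
  calc _ ≤ ‖fderiv ℂ e y‖ / ‖e y‖ * ‖v‖ + c * (‖fderiv ℂ σ y‖ / ‖σ y‖ * ‖v‖) := by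
        gcongr
        · exact key _ _
        · exact key _ _
    _ = (‖fderiv ℂ e y‖ / ‖e y‖ + c * (‖fderiv ℂ σ y‖ / ‖σ y‖)) * ‖v‖ := by ring
    _ ≤ _ := mul_le_mul_of_nonneg_right h6.le (norm_nonneg _)

private theorem OmL_logLen_nonneg (E : Fin k → Fin (M + 1) → MvPolynomial (Fin (N + 1)) ℂ) (c : Fin k → ℕ) (x v : EN N) : 0 ≤ logLen E c x v :=
  add_nonneg (fs_nonneg _ _) (Finset.sum_nonneg fun _ _ => norm_nonneg _)

/-- `ellE` is invariant -/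
private theorem OmL_ell_inv {E : Fin (M + 1) → MvPolynomial (Fin (N + 1)) ℂ} {c : ℕ} (hE : ∀ l, (E l).IsHomogeneous c) {x : EN N} (hx : x ≠ 0)
    (hEx : vec E x ≠ 0) (v : EN N) {t : ℂ} (ht : t ≠ 0) (a : ℂ) : ellE E c (t • x) (t • v + a • x) = ellE E c x v := by
  have h1 : HasFDerivAt (fun y : EN N => vec E (t • y)) ((fderiv ℂ (vec E) (t • x)).comp (t • ContinuousLinearMap.id ℂ (EN N))) x := by
    have h2 : HasFDerivAt (fun y : EN N => t • y) (t • ContinuousLinearMap.id ℂ (EN N)) x := (hasFDerivAt_id x).const_smul t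
    exact HasFDerivAt.comp (g := vec E) x (OmL_vec_an E (t • x)).differentiableAt.hasFDerivAt h2
  have h2 : HasFDerivAt (fun y : EN N => t ^ c • vec E y) (t ^ c • fderiv ℂ (vec E) x) x :=
    (OmL_vec_an E x).differentiableAt.hasFDerivAt.const_smul (t ^ c)
  have h3 := (h1.congr_of_eventuallyEq (Eventually.of_forall fun y => (OmL_vec_smul hE t y).symm)).unique h2
  have h4 : ∀ w, t • fderiv ℂ (vec E) (t • x) w = t ^ c • fderiv ℂ (vec E) x w := by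
    intro w
    have h5 := congrArg (fun L : EN N →L[ℂ] EN M => L w) h3
    simpa using h5
  -- Euler
  have h5 : fderiv ℂ (vec E) x x = (c : ℂ) • vec E x := by
    have h6 : HasDerivAt (fun s : ℂ => s • x) x 1 := by
      simpa using (hasDerivAt_id (1 : ℂ)).smul_const x
    have h7 : HasFDerivAt (vec E) (fderiv ℂ (vec E) x) ((1 : ℂ) • x) := by
      rw [one_smul]
      exact (OmL_vec_an E x).differentiableAt.hasFDerivAt
    have h8 := h7.comp_hasDerivAt (1 : ℂ) h6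
    have h9 : HasDerivAt (fun s : ℂ => s ^ c • vec E x) (((c : ℂ) * 1 ^ (c - 1)) • vec E x) 1 := (hasDerivAt_pow c (1 : ℂ)).smul_const _
    have h10 := (h8.congr_of_eventuallyEq (Eventually.of_forall fun s => (OmL_vec_smul hE s x).symm)).unique h9
    rw [h10, one_pow, mul_one]
  have hxc : (‖x‖ : ℂ) ≠ 0 := Complex.ofReal_ne_zero.2 (norm_ne_zero_iff.2 hx)
  have hEc : (‖vec E x‖ : ℂ) ≠ 0 := Complex.ofReal_ne_zero.2 (norm_ne_zero_iff.2 hEx)
  have h6 : fderiv ℂ (vec E) (t • x) (t • v + a • x) = t ^ c • fderiv ℂ (vec E) x v + (a / t * t ^ c * c) • vec E x := by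
    have h7 : t • v + a • x = t • (v + (a / t) • x) := by
      rw [smul_add, smul_smul, mul_div_cancel₀ _ ht]
    rw [h7, map_smul, h4, map_add, map_smul, h5, smul_add, smul_smul, smul_smul]
    congr 2
    ring
  have hci : starRingEnd ℂ t ≠ 0 := (map_ne_zero _).2 ht
  have h8 : ((‖t ^ c • vec E x‖ : ℝ) : ℂ) ^ 2 = (starRingEnd ℂ (t ^ c) * t ^ c) * (‖vec E x‖ : ℂ) ^ 2 := by
    rw [norm_smul, Complex.ofReal_mul, mul_pow, Complex.conj_mul']
  have h8' : ((‖t • x‖ : ℝ) : ℂ) ^ 2 = (starRingEnd ℂ t * t) * (‖x‖ : ℂ) ^ 2 := by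
    rw [norm_smul, Complex.ofReal_mul, mul_pow, Complex.conj_mul']
  have h9 : inner ℂ (vec E x) (vec E x) = (‖vec E x‖ : ℂ) ^ 2 := by
    rw [inner_self_eq_norm_sq_to_K]
    rfl
  have h9' : inner ℂ x x = (‖x‖ : ℂ) ^ 2 := by
    rw [inner_self_eq_norm_sq_to_K]
    rfl
  unfold ellE
  rw [h6, OmL_vec_smul hE, h8, h8']
  rw [inner_add_right, inner_smul_left, inner_smul_right, inner_smul_left, inner_smul_right, h9, inner_add_right, inner_smul_left, inner_smul_right,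
    inner_smul_left, inner_smul_right, h9']
  have htc : starRingEnd ℂ (t ^ c) ≠ 0 := (map_ne_zero _).2 (pow_ne_zero _ ht)
  have htc' : t ^ c ≠ 0 := pow_ne_zero _ ht
  field_simp
  ring

private theorem OmL_logLen_inv {E : Fin k → Fin (M + 1) → MvPolynomial (Fin (N + 1)) ℂ} {c : Fin k → ℕ} (hE : ∀ i l, (E i l).IsHomogeneous (c i))
    {x : EN N} (hx : x ≠ 0) (hEx : ∀ i, vec (E i) x ≠ 0) (v : EN N) {t : ℂ} (ht : t ≠ 0) (a : ℂ) :
    logLen E c (t • x) (t • v + a • x) = logLen E c x v := by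
  unfold logLen
  rw [fs_inv hx v ht a]
  congr 1
  exact Finset.sum_congr rfl fun i _ => by rw [OmL_ell_inv (hE i) hx (hEx i) v ht a]

private theorem OmL_coneE_ne {P : Ideal (MvPolynomial (Fin (N + 1)) ℂ)} (hX : Surface (coneE P)) {x : EN N} (hx : x ∈ coneE P) : x ≠ 0 := fun h => by
  subst h
  exact hX.zero hx

/-- tangent vectors of the surface at the points of the open part -/
private theorem OmL_tan {P : Ideal (MvPolynomial (Fin (N + 1)) ℂ)} {H : MvPolynomial (Fin (N + 1)) ℂ} {x v : EN N} (hx : x ∈ oc P H)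
    (hv : Tan (coneE P) x v) : v ∈ Pool.Agent.H17BP.Tan (oc P H) x := by
  obtain ⟨F, ⟨hF, hFX⟩, h0, hd⟩ := hv
  refine ⟨F, hF, ?_, h0, hd⟩
  have h1 : ContinuousAt (fun z => eval (F z).ofLp H) 0 :=
    ContinuousAt.comp (g := fun y : EN N => eval y.ofLp H) (analyticAt_evalEN H (F 0)).continuousAt hF.continuousAt
  have h2 : eval (F 0).ofLp H ≠ 0 := by
    rw [h0]
    exact hx.2 0
  filter_upwards [hFX, h1.eventually_ne h2] with z h3 h4
  exact ⟨h3, fun _ => h4⟩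

private theorem OmL_vec_ne {P : Ideal (MvPolynomial (Fin (N + 1)) ℂ)} {H : MvPolynomial (Fin (N + 1)) ℂ}
    {E : Fin k → Fin (M + 1) → MvPolynomial (Fin (N + 1)) ℂ} {b : Fin k → ℕ} (hs : Snc P H E b) (i : Fin k) {x : EN N} (hx : x ∈ oc P H) :
    vec (E i) x ≠ 0 := by
  obtain ⟨σ, τ, s, e, u, -, h0, -, he, -, -, hH⟩ := hs.chart x hx.1
  have h1 := (he i).2.2.self_of_nhds
  have h2 := hH.self_of_nhds
  rw [h0] at h1 h2
  rw [h1]
  refine smul_ne_zero (fun h3 => hx.2 0 ?_) (he i).2.1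
  rw [h2, Finset.prod_eq_zero (Finset.mem_univ i), mul_zero]
  rw [h3, zero_pow (Nat.one_le_iff_ne_zero.1 (hs.pos i))]

/-- the equation of the branch of the boundary in the coordinate `b` -/
private def sel (s : Fin k → Option Bool) (β : Bool) (y : ℂ × ℂ) : ℂ :=
  open Classical in if ∃ i, s i = some β then co (some β) y else 1

private theorem OmL_sel_an (s : Fin k → Option Bool) (β : Bool) (y : ℂ × ℂ) : AnalyticAt ℂ (sel s β) y := by
  by_cases h : ∃ i, s i = some β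
  · have : sel s β = co (some β) := by
      funext y
      exact if_pos h
    rw [this]
    exact OmL_co_an _ _
  · have : sel s β = fun _ => 1 := by
      funext y
      exact if_neg h
    rw [this]
    exact analyticAt_const

private def cmp : Bool → ℂ × ℂ → ℂ
  | false, v => v.1
  | true, v => v.2

/-- the local estimate -/
private theorem OmL_loc {P : Ideal (MvPolynomial (Fin (N + 1)) ℂ)} {H : MvPolynomial (Fin (N + 1)) ℂ}
    {E : Fin k → Fin (M + 1) → MvPolynomial (Fin (N + 1)) ℂ} {c b : Fin k → ℕ} (hs : Snc P H E b) {m j : ℕ} (hm : 1 ≤ m)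
    {Ω : EN N → EN N → EN N → ℂ} (hf : IsForm (oc P H) m j Ω) (hp : PoleLE (coneE P) (oc P H) (m - 1) Ω) {σ : ℂ × ℂ → EN N} {τ : EN N → ℂ × ℂ}
    {s : Fin k → Option Bool} {e : Fin k → ℂ × ℂ → EN M} {u : ℂ × ℂ → ℂ} (hσ : IsChart (coneE P) σ τ)
    (he : ∀ i, AnalyticAt ℂ (e i) 0 ∧ e i 0 ≠ 0 ∧ ∀ᶠ y in 𝓝 (0 : ℂ × ℂ), vec (E i) (σ y) = co (s i) y • e i y)
    (hu : AnalyticAt ℂ u 0) (hu0 : u 0 ≠ 0) (hH : ∀ᶠ y in 𝓝 (0 : ℂ × ℂ), eval (σ y).ofLp H = u y * ∏ i, co (s i) y ^ b i) :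
    ∃ C : ℝ, 0 ≤ C ∧ ∀ᶠ y in 𝓝 (0 : ℂ × ℂ), σ y ∈ oc P H → ∀ v w,
      ‖Ω (σ y) (fderiv ℂ σ y v) (fderiv ℂ σ y w)‖ * ‖σ y‖ ^ j ≤
        C * logLen E c (σ y) (fderiv ℂ σ y v) ^ m * logLen E c (σ y) (fderiv ℂ σ y w) ^ m := by
  obtain ⟨C₁, hC₁, h1⟩ := OmL_fs hσ
  have hell : ∀ i, ∃ C : ℝ, 0 ≤ C ∧ ∀ᶠ y in 𝓝 (0 : ℂ × ℂ), co (s i) y ≠ 0 → ∀ v,
      ‖dco (s i) v / co (s i) y‖ ≤ ‖ellE (E i) (c i) (σ y) (fderiv ℂ σ y v)‖ + C * ‖v‖ := fun i =>
    OmL_ell hσ (E i) (c i) (he i).1 (he i).2.1 (he i).2.2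
  choose C₂ hC₂ h2 using hell
  have h2' : ∀ᶠ y in 𝓝 (0 : ℂ × ℂ), ∀ i, co (s i) y ≠ 0 → ∀ v,
      ‖dco (s i) v / co (s i) y‖ ≤ ‖ellE (E i) (c i) (σ y) (fderiv ℂ σ y v)‖ + C₂ i * ‖v‖ := eventually_all.2 h2
  -- the points of the open part
  have hmem : ∀ᶠ y in 𝓝 (0 : ℂ × ℂ), (σ y ∈ oc P H ↔ ∀ i, co (s i) y ≠ 0) := by
    filter_upwards [hσ.σ_mem, hH, hu.continuousAt.eventually_ne hu0] with y h3 h4 h5
    constructor
    · intro h6 i h7
      refine h6.2 0 ?_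
      rw [h4, Finset.prod_eq_zero (Finset.mem_univ i), mul_zero]
      rw [h7, zero_pow (Nat.one_le_iff_ne_zero.1 (hs.pos i))]
    · intro h6
      refine ⟨h3, fun _ => ?_⟩
      rw [h4]
      exact mul_ne_zero h5 (Finset.prod_ne_zero_iff.2 fun i _ => pow_ne_zero _ (h6 i))
  set g : ℂ × ℂ → ℂ := fun y => sel s false y * sel s true y with hg
  have hgan : AnalyticAt ℂ g 0 := (OmL_sel_an s false 0).mul (OmL_sel_an s true 0)
  have hg0 : ∀ᶠ y in 𝓝 (0 : ℂ × ℂ), σ y ∉ oc P H → g y = 0 := by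
    filter_upwards [hmem] with y h3 h4
    rw [h3] at h4
    push Not at h4
    obtain ⟨i, hi⟩ := h4
    rcases hsi : s i with _ | β
    · rw [hsi] at hi
      exact absurd hi one_ne_zero
    · have h5 : sel s β y = 0 := by
        unfold sel
        rw [if_pos ⟨i, hsi⟩, ← hsi, hi]
      cases β
      · show sel s false y * sel s true y = 0
        rw [h5, zero_mul]
      · show sel s false y * sel s true y = 0
        rw [h5, mul_zero]
  obtain ⟨q, hq, hqe⟩ := hp.pow hσ.σ_an hσ.σ_mem hgan hg0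
  -- the components of a vector
  set C₃ : ℝ := 1 + ∑ i, C₂ i with hC₃
  have hC₃0 : 0 ≤ C₃ := add_nonneg zero_le_one (Finset.sum_nonneg fun i _ => hC₂ i)
  have hcmp : ∀ᶠ y in 𝓝 (0 : ℂ × ℂ), σ y ∈ oc P H → sel s false y ≠ 0 ∧ sel s true y ≠ 0 ∧ ∀ β v,
      ‖cmp β v‖ ≤ ‖sel s β y‖ * ((1 + C₃ * C₁) * logLen E c (σ y) (fderiv ℂ σ y v)) := by
    filter_upwards [hmem, h1, h2'] with y h3 h4 h5 h6
    rw [h3] at h6
    have hsel : ∀ β, sel s β y ≠ 0 := by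
      intro β
      unfold sel
      split_ifs with h7
      · obtain ⟨i, hi⟩ := h7
        rw [← hi]
        exact h6 i
      · exact one_ne_zero
    refine ⟨hsel _, hsel _, fun β v => ?_⟩
    have hfs : fs (σ y) (fderiv ℂ σ y v) ≤ logLen E c (σ y) (fderiv ℂ σ y v) :=
      le_add_of_nonneg_right (Finset.sum_nonneg fun _ _ => norm_nonneg _)
    have hL0 : 0 ≤ logLen E c (σ y) (fderiv ℂ σ y v) := OmL_logLen_nonneg _ _ _ _
    have hv : ‖v‖ ≤ C₁ * logLen E c (σ y) (fderiv ℂ σ y v) := (h4 v).trans (mul_le_mul_of_nonneg_left hfs hC₁)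
    have hcv : ‖cmp β v‖ ≤ ‖v‖ := by
      cases β
      · exact norm_fst_le v
      · exact norm_snd_le v
    by_cases h7 : ∃ i, s i = some β
    · obtain ⟨i, hi⟩ := h7
      have e1 : sel s β y = co (s i) y := by
        unfold sel
        rw [if_pos ⟨i, hi⟩, hi]
      have e2 : cmp β v = dco (s i) v := by
        rw [hi]
        cases β <;> rfl
      have e3 : ‖cmp β v‖ = ‖sel s β y‖ * ‖dco (s i) v / co (s i) y‖ := by
        rw [e2, e1, norm_div, mul_div_cancel₀ _ (norm_ne_zero_iff.2 (h6 i))]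
      rw [e3]
      refine mul_le_mul_of_nonneg_left ?_ (norm_nonneg _)
      have e4 : ‖ellE (E i) (c i) (σ y) (fderiv ℂ σ y v)‖ ≤ logLen E c (σ y) (fderiv ℂ σ y v) := by
        unfold logLen
        exact le_add_of_nonneg_of_le (fs_nonneg _ _)
          (Finset.single_le_sum (f := fun i => ‖ellE (E i) (c i) (σ y) (fderiv ℂ σ y v)‖) (fun _ _ => norm_nonneg _) (Finset.mem_univ i))
      have e5 : C₂ i ≤ C₃ := (Finset.single_le_sum (f := C₂) (fun i _ => hC₂ i) (Finset.mem_univ i)).trans (le_add_of_nonneg_left zero_le_one)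
      calc _ ≤ ‖ellE (E i) (c i) (σ y) (fderiv ℂ σ y v)‖ + C₂ i * ‖v‖ := h5 i (h6 i) v
        _ ≤ logLen E c (σ y) (fderiv ℂ σ y v) + C₃ * (C₁ * logLen E c (σ y) (fderiv ℂ σ y v)) :=
          add_le_add e4 (mul_le_mul e5 hv (norm_nonneg _) hC₃0)
        _ = _ := by ring
    · have e1 : sel s β y = 1 := by
        unfold sel
        rw [if_neg h7]
      rw [e1, norm_one, one_mul]
      have e2 : C₁ ≤ C₃ * C₁ := le_mul_of_one_le_left hC₁ (le_add_of_nonneg_right (Finset.sum_nonneg fun i _ => hC₂ i))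
      calc ‖cmp β v‖ ≤ C₁ * logLen E c (σ y) (fderiv ℂ σ y v) := hcv.trans hv
        _ ≤ (1 + C₃ * C₁) * logLen E c (σ y) (fderiv ℂ σ y v) := by
          refine mul_le_mul_of_nonneg_right ?_ hL0
          linarith
  -- bounds of continuous functions
  have hqb := hq.continuousAt.norm.eventually_lt continuousAt_const (lt_add_one _)
  have hgb := hgan.continuousAt.norm.eventually_lt continuousAt_const (lt_add_one _)
  have hσb := hσ.σ_an.continuousAt.norm.eventually_lt continuousAt_const (lt_add_one _)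
  set A : ℝ := 1 + C₃ * C₁ with hA
  have hA0 : 0 ≤ A := by positivity
  refine ⟨(‖q 0‖ + 1) * (2 * A ^ 2) ^ m * (‖g 0‖ + 1) * (‖σ 0‖ + 1) ^ j, by positivity, ?_⟩
  filter_upwards [hcmp, hqe, hqb, hgb, hσb, hσ.σ_mem.eventually_nhds, hσ.σ_an.eventually_analyticAt] with y h3 h4 h5 h6 h7 h8 h9 hy v w
  obtain ⟨hs1, hs2, hc⟩ := h3 hy
  have ht : ∀ v' : ℂ × ℂ, fderiv ℂ σ y v' ∈ Pool.Agent.H17BP.Tan (oc P H) (σ y) := fun v' => OmL_tan hy (Pool.Agent.E2.tan_fderiv_chart h9 h8 v')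
  have e1 : Ω (σ y) (fderiv ℂ σ y v) (fderiv ℂ σ y w) = (v.1 * w.2 - v.2 * w.1) ^ m * Ω (σ y) (fderiv ℂ σ y (1, 0)) (fderiv ℂ σ y (0, 1)) := by
    rw [Pool.Agent.E2.fderiv_pair (fderiv ℂ σ y) v, Pool.Agent.E2.fderiv_pair (fderiv ℂ σ y) w]
    exact hf.det _ hy _ (ht _) _ (ht _) _ _ _ _
  have hg1 : g y ≠ 0 := mul_ne_zero hs1 hs2
  have e2 : ‖Ω (σ y) (fderiv ℂ σ y (1, 0)) (fderiv ℂ σ y (0, 1))‖ = ‖q y‖ / ‖g y‖ ^ (m - 1) := by
    rw [h4 hy, norm_mul, norm_pow]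
    field_simp
  set Lv := logLen E c (σ y) (fderiv ℂ σ y v) with hLv
  set Lw := logLen E c (σ y) (fderiv ℂ σ y w) with hLw
  have hLv0 : 0 ≤ Lv := OmL_logLen_nonneg _ _ _ _
  have hLw0 : 0 ≤ Lw := OmL_logLen_nonneg _ _ _ _
  have e3 : ‖v.1 * w.2 - v.2 * w.1‖ ≤ ‖g y‖ * (2 * A ^ 2) * (Lv * Lw) := by
    have k1 : ‖v.1‖ ≤ ‖sel s false y‖ * (A * Lv) := hc false v
    have k2 : ‖v.2‖ ≤ ‖sel s true y‖ * (A * Lv) := hc true v
    have k3 : ‖w.1‖ ≤ ‖sel s false y‖ * (A * Lw) := hc false w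
    have k4 : ‖w.2‖ ≤ ‖sel s true y‖ * (A * Lw) := hc true w
    calc ‖v.1 * w.2 - v.2 * w.1‖ ≤ ‖v.1‖ * ‖w.2‖ + ‖v.2‖ * ‖w.1‖ := by
          rw [← norm_mul, ← norm_mul]
          exact norm_sub_le _ _
      _ ≤ (‖sel s false y‖ * (A * Lv)) * (‖sel s true y‖ * (A * Lw)) + (‖sel s true y‖ * (A * Lv)) * (‖sel s false y‖ * (A * Lw)) := by
          gcongr
      _ = ‖g y‖ * (2 * A ^ 2) * (Lv * Lw) := by
          rw [hg]
          simp only [norm_mul]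
          ring
  have hgy : 0 < ‖g y‖ := norm_pos_iff.2 hg1
  obtain ⟨m', rfl⟩ : ∃ m', m = m' + 1 := ⟨m - 1, by omega⟩
  rw [e1, norm_mul, norm_pow, e2, Nat.add_sub_cancel]
  calc ‖v.1 * w.2 - v.2 * w.1‖ ^ (m' + 1) * (‖q y‖ / ‖g y‖ ^ m') * ‖σ y‖ ^ j ≤
      (‖g y‖ * (2 * A ^ 2) * (Lv * Lw)) ^ (m' + 1) * (‖q y‖ / ‖g y‖ ^ m') * ‖σ y‖ ^ j := by gcongr
    _ = ‖q y‖ * (2 * A ^ 2) ^ (m' + 1) * ‖g y‖ * ‖σ y‖ ^ j * Lv ^ (m' + 1) * Lw ^ (m' + 1) := by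
        have k1 : ‖g y‖ ^ m' ≠ 0 := pow_ne_zero _ hgy.ne'
        have k2 : (‖g y‖ * (2 * A ^ 2) * (Lv * Lw)) ^ (m' + 1) = ‖g y‖ ^ m' * (‖g y‖ * (2 * A ^ 2) ^ (m' + 1) * (Lv ^ (m' + 1) * Lw ^ (m' + 1))) := by
          rw [mul_pow, mul_pow, mul_pow, pow_succ ‖g y‖]
          ring
        rw [k2]
        calc _ = (‖g y‖ ^ m' / ‖g y‖ ^ m') * (‖q y‖ * (2 * A ^ 2) ^ (m' + 1) * ‖g y‖ * ‖σ y‖ ^ j * Lv ^ (m' + 1) * Lw ^ (m' + 1)) := by ring
          _ = _ := by rw [div_self k1, one_mul]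
    _ ≤ (‖q 0‖ + 1) * (2 * A ^ 2) ^ (m' + 1) * (‖g 0‖ + 1) * (‖σ 0‖ + 1) ^ j * Lv ^ (m' + 1) * Lw ^ (m' + 1) := by
        gcongr

/-- MODULE H4 -/
theorem omega_le {P : Ideal (MvPolynomial (Fin (N + 1)) ℂ)} {H : MvPolynomial (Fin (N + 1)) ℂ} {h : ℕ}
    {E : Fin k → Fin (M + 1) → MvPolynomial (Fin (N + 1)) ℂ} {c b : Fin k → ℕ} (hX : Surface (coneE P)) (hc : IsCone (coneE P))
    (hH : H.IsHomogeneous h) (h1 : 1 ≤ h)
    (hE : ∀ i l, (E i l).IsHomogeneous (c i)) (hs : Snc P H E b) {mΩ jΩ r : ℕ} {Ω : Fin r → EN N → EN N → EN N → ℂ}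
    {Q : Fin r → MvPolynomial (Fin (N + 1)) ℂ} (hΩ : LogAmple P H mΩ jΩ Ω Q) :
    ∃ C : ℝ, 0 ≤ C ∧ ∀ a, ∀ x ∈ oc P H, ∀ v w, Tan (coneE P) x v → Tan (coneE P) x w →
      ‖Ω a x v w‖ ≤ C * logLen E c x v ^ mΩ * logLen E c x w ^ mΩ / ‖x‖ ^ jΩ := by
  have hKs : ∀ x ∈ oc P H, ∀ t : ℂ, t ≠ 0 → t • x ∈ oc P H := fun x hx t ht =>
    ⟨hX.smul x hx.1 t ht, fun i => by
      rw [eval_smulEN hH]
      exact mul_ne_zero (pow_ne_zero _ ht) (hx.2 i)⟩
  -- tangent vectors at the point `t • x`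
  have htan : ∀ (x : EN N) (v : EN N) (t : ℂ), t ≠ 0 → Tan (coneE P) (t • x) v → Tan (coneE P) x (t⁻¹ • v) := by
    rintro x v t ht ⟨F, ⟨hF, hFX⟩, h0, hd⟩
    refine ⟨fun z => t⁻¹ • F z, ⟨(analyticAt_const (v := t⁻¹)).fun_smul hF, hFX.mono fun z hz => hX.smul _ hz _ (inv_ne_zero ht)⟩, ?_, ?_⟩
    · show t⁻¹ • F 0 = x
      rw [h0, smul_smul, inv_mul_cancel₀ ht, one_smul]
    · have h2 : HasDerivAt (fun z => t⁻¹ • F z) (t⁻¹ • deriv F 0) 0 := hF.differentiableAt.hasDerivAt.const_smul t⁻¹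
      rw [h2.deriv, hd]
  obtain ⟨C, hC⟩ := global_bound (X := coneE P) (K := oc P H) hX hc (fun x hx => hx.1) hKs
    (Q := fun C x v => ∀ a, ∀ w, Tan (coneE P) x w →
      ‖Ω a x v w‖ * ‖x‖ ^ jΩ ≤ C * logLen E c x v ^ mΩ * logLen E c x w ^ mΩ)
    (fun C C' x v hCC h2 a w hw => (h2 a w hw).trans (by
      have h3 := OmL_logLen_nonneg E c x v
      have h4 := OmL_logLen_nonneg E c x w
      gcongr))
    (fun C x hx v hv t a ht h2 i w hw => by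
      have hx0 := OmL_coneE_ne hX hx.1
      have hEx : ∀ i, vec (E i) x ≠ 0 := fun i => OmL_vec_ne hs i hx
      have hw' := htan x w t ht hw
      have h3 := h2 i _ hw'
      have e1 : w = t • (t⁻¹ • w) + (0 : ℂ) • x := by
        rw [smul_smul, mul_inv_cancel₀ ht, one_smul, zero_smul, add_zero]
      have e2 : logLen E c (t • x) w = logLen E c x (t⁻¹ • w) := by
        conv_lhs => rw [e1]
        exact OmL_logLen_inv hE hx0 hEx _ ht 0
      have hvK := OmL_tan hx hv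
      have hwK := OmL_tan hx hw'
      have hform := hΩ.form i
      have e3 : t ^ jΩ * Ω i (t • x) (t • v + a • x) w = Ω i x v (t⁻¹ • w) := by
        rw [← hform.scale x hx v hvK _ hwK t ht]
        congr 1
        have e4 : t • v + a • x = t • v + (a / t) • (t • x) := by
          rw [smul_smul, div_mul_cancel₀ _ ht]
        have e5 : w = t • (t⁻¹ • w) + (0 : ℂ) • (t • x) := by
          rw [smul_smul, mul_inv_cancel₀ ht, one_smul, zero_smul, add_zero]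
        have hts : ∀ u : EN N, u ∈ Pool.Agent.H17BP.Tan (oc P H) x → t • u ∈ Pool.Agent.H17BP.Tan (oc P H) (t • x) := by
          rintro u ⟨F, hF, hFX, h0, hd⟩
          refine ⟨fun z => t • F z, (analyticAt_const (v := t)).fun_smul hF, hFX.mono fun z hz => hKs _ hz _ ht, congrArg (t • ·) h0, ?_⟩
          have h6 : HasDerivAt (fun z => t • F z) (t • deriv F 0) 0 := hF.differentiableAt.hasDerivAt.const_smul t
          rw [h6.deriv, hd]
        calc Ω i (t • x) (t • v + a • x) w = Ω i (t • x) (t • v + (a / t) • (t • x)) (t • (t⁻¹ • w) + (0 : ℂ) • (t • x)) := by rw [← e4, ← e5]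
          _ = _ := hform.add_smul _ (hKs x hx t ht) _ (hts _ hvK) _ (hts _ hwK) _ _
      rw [e2, OmL_logLen_inv hE hx0 hEx v ht a]
      refine le_trans (le_of_eq ?_) h3
      rw [← e3, norm_mul, norm_pow, norm_smul, mul_pow]
      ring)
    (fun x hx => by
      obtain ⟨σ, τ, s, e, u, hσ, h0, -, he, hu, hu0, hHσ⟩ := hs.chart x hx
      refine ⟨σ, τ, hσ, h0, ?_⟩
      have h2 := fun a => OmL_loc hs (c := c) hΩ.one_m (hΩ.form a) (hΩ.pole a) hσ he hu hu0 hHσ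
      choose C hC h3 using h2
      refine ⟨∑ a, C a, ?_⟩
      filter_upwards [eventually_all.2 h3, Pool.Agent.E2.tan_chart hX hσ, hσ.σ_mem.eventually_nhds, hσ.σ_an.eventually_analyticAt,
        hσ.σ_an.continuousAt.eventually_ne hσ.ne] with y h4 h5 h6 h7 h8 hy v' a w hw
      obtain ⟨w', t, rfl⟩ := h5.2 w hw
      have hEx : ∀ i, vec (E i) (σ y) ≠ 0 := fun i => OmL_vec_ne hs i hy
      have ht : ∀ v' : ℂ × ℂ, fderiv ℂ σ y v' ∈ Pool.Agent.H17BP.Tan (oc P H) (σ y) := fun v' =>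
        OmL_tan hy (Pool.Agent.E2.tan_fderiv_chart h7 h6 v')
      have e1 : Ω a (σ y) (fderiv ℂ σ y v') (fderiv ℂ σ y w' + t • σ y) = Ω a (σ y) (fderiv ℂ σ y v') (fderiv ℂ σ y w') := by
        have h9 := (hΩ.form a).add_smul _ hy _ (ht v') _ (ht w') 0 t
        rwa [zero_smul, add_zero] at h9
      have e2 : logLen E c (σ y) (fderiv ℂ σ y w' + t • σ y) = logLen E c (σ y) (fderiv ℂ σ y w') := by
        have h9 := OmL_logLen_inv (c := c) hE h8 hEx (fderiv ℂ σ y w') one_ne_zero t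
        rwa [one_smul, one_smul] at h9
      rw [e1, e2]
      refine (h4 a hy v' w').trans ?_
      have h9 := OmL_logLen_nonneg E c (σ y) (fderiv ℂ σ y v')
      have h10 := OmL_logLen_nonneg E c (σ y) (fderiv ℂ σ y w')
      have h11 : C a ≤ ∑ a, C a := Finset.single_le_sum (f := C) (fun a _ => hC a) (Finset.mem_univ a)
      gcongr)
  refine ⟨max C 0, le_max_right _ _, fun a x hx v w hv hw => ?_⟩
  have h2 : 0 < ‖x‖ := norm_pos_iff.2 (OmL_coneE_ne hX hx.1)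
  rw [le_div_iff₀ (pow_pos h2 _)]
  refine (hC x hx v hv a w hw).trans ?_
  have h9 := OmL_logLen_nonneg E c x v
  have h10 := OmL_logLen_nonneg E c x w
  have h11 : C ≤ max C 0 := le_max_left _ _
  gcongr

end Pool.Agent.SR2
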