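import Pool.Agent.SR2.RsDefs
import Mathlib.Analysis.Complex.OpenMapping
import Mathlib.Topology.Algebra.Module.Cardinality

/-!
# SR2 RsM: a function which is locally analytic on a compact curve is locally constant

Let `B` be the compact set of the unit vectors in `D` near which `r` is not constant, and `x` a point of `B` where `|r|` is maximal.  The values of `r`
near `x` fill a neighbourhood of `r x` (open mapping theorem); those of modulus `> |r x|` are values at points near which `r` is constant: there are only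
countably many of them.
-/

set_option autoImplicit false

open Topology Filter Metric

noncomputable section

namespace Pool.Agent.SR2

open Pool.Agent.H36.BP (EN)

variable {N : ℕ}

theorem loc_const {D : Set (EN N)} {r : EN N → ℂ} (hD : IsClosed (insert 0 D)) (h0 : (0 : EN N) ∉ D) (hsm : ∀ x ∈ D, ∀ a : ℂ, a ≠ 0 → a • x ∈ D)
    (hr : ∀ x ∈ D, ∀ a : ℂ, a ≠ 0 → r (a • x) = r x)
    (hloc : ∀ x ∈ D, ∃ (γ : ℂ → EN N) (g : ℂ → ℂ) (q : EN N → ℂ), ContinuousAt γ 0 ∧ γ 0 = x ∧ AnalyticAt ℂ g 0 ∧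
      (∀ᶠ t in 𝓝 (0 : ℂ), γ t ∈ D ∧ r (γ t) = g t) ∧ ContinuousAt q x ∧ q x = 0 ∧ ∀ᶠ y in 𝓝 x, y ∈ D → ∃ a : ℂ, a ≠ 0 ∧ y = a • γ (q y)) :
    ∀ x ∈ D, ∀ᶠ y in 𝓝 x, y ∈ D → r y = r x := by
  classical
  intro x hx
  obtain ⟨O, hO⟩ : ∃ O : Set (EN N), O = {x : EN N | ∃ v, ∀ᶠ y in 𝓝 x, y ∈ D → r y = v} := ⟨_, rfl⟩
  have hOo : IsOpen O := by
    rw [isOpen_iff_mem_nhds]
    intro x hx
    rw [hO] at hx ⊢
    obtain ⟨v, hv⟩ := hx
    filter_upwards [eventually_eventually_nhds.2 hv] with y hy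
    exact ⟨v, hy⟩
  have hkey : ∀ x ∈ D, x ∈ O → ∀ᶠ y in 𝓝 x, y ∈ D → r y = r x := by
    intro x hx hxO
    rw [hO] at hxO
    obtain ⟨v, hv⟩ := hxO
    have h1 := hv.self_of_nhds hx
    filter_upwards [hv] with y hy hyD
    rw [hy hyD, h1]
  by_contra hcon
  have hxO : x ∉ O := fun h => hcon (hkey x hx h)
  have hOs : ∀ y, ∀ a : ℂ, a ≠ 0 → a • y ∈ O → y ∈ O := by
    intro y a ha hy
    rw [hO] at hy ⊢
    obtain ⟨v, hv⟩ := hy
    refine ⟨v, ?_⟩
    have h1 : Tendsto (fun z : EN N => a • z) (𝓝 y) (𝓝 (a • y)) := (continuous_const_smul a).continuousAt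
    filter_upwards [h1.eventually hv] with z hz hzD
    rw [← hr z hzD a ha]
    exact hz (hsm z hzD a ha)
  have hnorm : ∀ y ∈ D, y ∉ O → ∃ a : ℂ, a ≠ 0 ∧ a • y ∈ (insert 0 D ∩ sphere (0 : EN N) 1) \ O := by
    intro y hy hyO
    have hy0 : y ≠ 0 := by
      rintro rfl
      exact h0 hy
    have h1 : ‖y‖ ≠ 0 := norm_ne_zero_iff.2 hy0
    have h2 : ((‖y‖⁻¹ : ℝ) : ℂ) ≠ 0 := by exact_mod_cast inv_ne_zero h1
    refine ⟨_, h2, ⟨Or.inr (hsm y hy _ h2), ?_⟩, fun h3 => hyO (hOs y _ h2 h3)⟩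
    rw [mem_sphere_zero_iff_norm, norm_smul, Complex.norm_real, norm_inv, norm_norm, inv_mul_cancel₀ h1]
  obtain ⟨B, hB⟩ : ∃ B : Set (EN N), B = (insert 0 D ∩ sphere (0 : EN N) 1) \ O := ⟨_, rfl⟩
  rw [← hB] at hnorm
  have hBc : IsCompact B := by
    rw [hB, Set.inter_comm]
    exact ((isCompact_sphere _ _).inter_right hD).diff hOo
  have hBD : ∀ y ∈ B, y ∈ D ∧ y ∉ O := by
    intro y hy
    rw [hB] at hy
    refine ⟨?_, hy.2⟩
    rcases hy.1.1 with h1 | h1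
    · have h2 := hy.1.2
      rw [mem_sphere_zero_iff_norm, h1, norm_zero] at h2
      exact absurd h2 zero_ne_one
    · exact h1
  -- continuity
  have hcont : ContinuousOn (fun y => ‖r y‖) B := by
    intro y hy
    have hyD := (hBD y hy).1
    obtain ⟨γ, g, q, hγ, hγ0, hg, hγg, hq, hq0, hyq⟩ := hloc y hyD
    have h1 : Tendsto q (𝓝 y) (𝓝 0) := by
      have := hq.tendsto
      rwa [hq0] at this
    have h2 : ∀ᶠ z in 𝓝[B] y, r z = g (q z) := by
      refine eventually_nhdsWithin_iff.2 ?_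
      filter_upwards [hyq, h1.eventually hγg] with z hz1 hz2 hzB
      obtain ⟨a, ha, hz3⟩ := hz1 (hBD z hzB).1
      rw [hz3, hr _ hz2.1 a ha, hz2.2, ← hz3]
    have h3 : r y = g (q y) := by
      rw [hq0, ← (hγg.self_of_nhds).2, hγ0]
    have h4 : ContinuousWithinAt (fun z => g (q z)) B y := by
      refine ContinuousAt.continuousWithinAt (ContinuousAt.comp ?_ hq)
      rw [hq0]
      exact hg.continuousAt
    exact (h4.congr_of_eventuallyEq h2 h3).norm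
  obtain ⟨a₁, ha₁, hx₁⟩ := hnorm x hx hxO
  obtain ⟨xm, hxm, hmax⟩ := hBc.exists_isMaxOn ⟨_, hx₁⟩ hcont
  obtain ⟨hmD, hmO⟩ := hBD xm hxm
  obtain ⟨γ, g, q, hγ, hγ0, hg, hγg, hq, hq0, hyq⟩ := hloc xm hmD
  have hg0 : g 0 = r xm := by
    rw [← (hγg.self_of_nhds).2, hγ0]
  have h1 : Tendsto q (𝓝 xm) (𝓝 0) := by
    have := hq.tendsto
    rwa [hq0] at this
  rcases hg.eventually_constant_or_nhds_le_map_nhds with h2 | h2
  · apply hmO
    rw [hO]
    refine ⟨g 0, ?_⟩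
    filter_upwards [hyq, h1.eventually hγg, h1.eventually h2] with z hz1 hz2 hz4 hzD
    obtain ⟨a, ha, hz3⟩ := hz1 hzD
    rw [hz3, hr _ hz2.1 a ha, hz2.2, ← hz4]
  · -- the values
    have h3 : {v : ℂ | ∃ y ∈ D, r y = v} ∈ 𝓝 (r xm) := by
      rw [← hg0]
      refine h2 ?_
      rw [mem_map]
      filter_upwards [hγg] with t ht
      exact ⟨γ t, ht.1, ht.2⟩
    obtain ⟨U, hU, hUo, hUm⟩ := _root_.mem_nhds_iff.1 h3
    have hcount : (r '' (D ∩ O)).Countable := by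
      have h4 : ∀ y ∈ D ∩ O, {z | z ∈ D → r z = r y} ∈ 𝓝[D ∩ O] y := by
        rintro y ⟨hyD, hyO⟩
        exact mem_nhdsWithin_of_mem_nhds (hkey y hyD hyO)
      obtain ⟨t, hts, htc, htcov⟩ := TopologicalSpace.countable_cover_nhdsWithin h4
      refine (htc.image r).mono ?_
      rintro _ ⟨z, hz, rfl⟩
      obtain ⟨y, hy, hzy⟩ := Set.mem_iUnion₂.1 (htcov hz)
      exact ⟨y, hy, (hzy hz.1).symm⟩
    have h5 : Dense (r '' (D ∩ O))ᶜ := hcount.dense_compl ℂ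
    have h6 : IsOpen (U ∩ {v : ℂ | ‖r xm‖ < ‖v‖}) := hUo.inter (isOpen_lt continuous_const continuous_norm)
    have h7 : (U ∩ {v : ℂ | ‖r xm‖ < ‖v‖}).Nonempty := by
      -- points of larger modulus near `r xm`
      obtain ⟨w, hw, hw1⟩ : ∃ w : ℂ, ‖w‖ = 1 ∧ ‖r xm‖ • w = r xm := by
        by_cases h8 : r xm = 0
        · exact ⟨1, norm_one, by rw [h8, norm_zero, zero_smul]⟩
        · have h9 : ‖r xm‖ ≠ 0 := norm_ne_zero_iff.2 h8
          refine ⟨(‖r xm‖⁻¹ : ℝ) • r xm, ?_, ?_⟩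
          · rw [norm_smul, norm_inv, norm_norm, inv_mul_cancel₀ h9]
          · rw [smul_smul, mul_inv_cancel₀ h9, one_smul]
      have h8 : Tendsto (fun e : ℝ => (‖r xm‖ + e) • w) (𝓝[>] 0) (𝓝 (r xm)) := by
        have h9 : ContinuousAt (fun e : ℝ => (‖r xm‖ + e) • w) 0 := by fun_prop
        have h10 := h9.tendsto
        rw [add_zero, hw1] at h10
        exact h10.mono_left nhdsWithin_le_nhds
      have h9 : ∀ᶠ e : ℝ in 𝓝[>] 0, (‖r xm‖ + e) • w ∈ U := h8.eventually (hUo.mem_nhds hUm)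
      obtain ⟨e, he1, he2⟩ := (h9.and self_mem_nhdsWithin).exists
      refine ⟨_, he1, ?_⟩
      have he3 : (0 : ℝ) < e := he2
      change ‖r xm‖ < ‖(‖r xm‖ + e) • w‖
      rw [norm_smul, hw, mul_one, Real.norm_of_nonneg (by positivity)]
      linarith
    obtain ⟨v, ⟨hvU, hvn⟩, hvc⟩ := h5.inter_open_nonempty _ h6 h7
    obtain ⟨y, hyD, hyv⟩ := hU hvU
    have hyO : y ∉ O := fun h => hvc ⟨y, ⟨hyD, h⟩, hyv⟩
    obtain ⟨a, ha, hay⟩ := hnorm y hyD hyO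
    have h8 := hmax hay
    change ‖r (a • y)‖ ≤ ‖r xm‖ at h8
    rw [hr y hyD a ha, hyv] at h8
    exact absurd hvn (not_lt.2 h8)

end Pool.Agent.SR2
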