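import Pool.Agent.SR2.RsK
import Pool.Agent.SR2.RsM
import Pool.Agent.SR2.RsB
import Pool.Agent.SR2.RsC3
import Pool.Agent.SR2.RsdA

/-!
# SR2 Rloc: the local form of the theorem on the residues
-/

set_option autoImplicit false

open Topology Filter Metric MvPolynomial

noncomputable section

namespace Pool.Agent.SR2

open Pool.Agent.H36.BP (EN fs)
open Pool.Agent.H17BP (Surface IsChart)
open Pool.Agent.H14.PP (IsCone Tan)
open Pool.Agent.H17EF (coneE)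
open Pool.Agent.AD (SymDiff)

variable {N k M : ℕ} {P : Ideal (MvPolynomial (Fin (N + 1)) ℂ)} {H : MvPolynomial (Fin (N + 1)) ℂ}
  {E : Fin k → Fin (M + 1) → MvPolynomial (Fin (N + 1)) ℂ} {b c : Fin k → ℕ} {σ : ℂ × ℂ → EN N} {τ : EN N → ℂ × ℂ} {o₁ o₂ : Option (Fin k)}

/-- the expansion in the chart with the coordinates exchanged -/
theorem exp_sw {m : ℕ} (θ : SymDiff (oc P H) m) (hσ : AnalyticAt ℂ σ 0) {a : ℕ → ℂ × ℂ → ℂ}
    (hexp : ∀ᶠ y in 𝓝 (0 : ℂ × ℂ), σ y ∈ oc P H → ∀ t : ℂ × ℂ,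
      θ.toFun (σ y) (fderiv ℂ σ y t) =
        ∑ k ∈ Finset.range (m + 1), a k y * (t.1 / gg o₁.isSome y.1) ^ k * (t.2 / gg o₂.isSome y.2) ^ (m - k)) :
    ∀ᶠ y in 𝓝 (0 : ℂ × ℂ), σ (y.2, y.1) ∈ oc P H → ∀ t : ℂ × ℂ,
      θ.toFun (σ (y.2, y.1)) (fderiv ℂ (fun y : ℂ × ℂ => σ (y.2, y.1)) y t) =
        ∑ k ∈ Finset.range (m + 1), a (m - k) (y.2, y.1) * (t.1 / gg o₂.isSome y.1) ^ k * (t.2 / gg o₁.isSome y.2) ^ (m - k) := by
  filter_upwards [tendsto_sw.eventually hexp, tendsto_sw.eventually hσ.eventually_analyticAt] with y h1 h2 hy t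
  have h3 : fderiv ℂ (fun y : ℂ × ℂ => σ (y.2, y.1)) y t = fderiv ℂ σ (y.2, y.1) (t.2, t.1) := by
    set e : (ℂ × ℂ) →L[ℂ] ℂ × ℂ := (ContinuousLinearMap.snd ℂ ℂ ℂ).prod (ContinuousLinearMap.fst ℂ ℂ ℂ) with he
    have h4 : HasFDerivAt σ (fderiv ℂ σ (y.2, y.1)) (e y) := h2.differentiableAt.hasFDerivAt
    have h5 := h4.comp y e.hasFDerivAt
    have h6 : fderiv ℂ (fun y : ℂ × ℂ => σ (y.2, y.1)) y = (fderiv ℂ σ (y.2, y.1)).comp e := h5.fderiv
    rw [h6]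
    rfl
  rw [h3, h1 hy (t.2, t.1), ← Finset.sum_range_reflect]
  refine Finset.sum_congr rfl fun j hj => ?_
  have hj' : j ≤ m := by simpa [Nat.lt_succ_iff] using hj
  have h7 : m + 1 - 1 - j = m - j := by omega
  have h8 : m - (m - j) = j := by omega
  rw [h7, h8]
  ring

/-- **The residues, local form.** -/
theorem res_loc {h : ℕ} (hX : Surface (coneE P)) (hc : IsCone (coneE P)) (hH : H.IsHomogeneous h) (hE : ∀ i l, (E i l).IsHomogeneous (c i))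
    (hs : Snc P H E b) {s : ℕ} {m : Fin s → ℕ}
    (hm : ∀ j, 1 ≤ m j) (θ : ∀ j, SymDiff (oc P H) (m j)) (hθ : ∀ j, HasLogPoles E c (θ j)) {x₀ : EN N} (hx₀ : x₀ ∈ coneE P) :
    ∃ (S : Finset (Fin k)) (Pol : Fin s → MvPolynomial (Fin k) ℂ) (C : ℝ), (∀ i, i ∈ S ↔ vec (E i) x₀ = 0) ∧ S.card ≤ 2 ∧
      (∀ j, (Pol j).IsHomogeneous (m j)) ∧ (∀ j (y y' : Fin k → ℂ), (∀ i ∈ S, y i = y' i) → eval y (Pol j) = eval y' (Pol j)) ∧ 0 ≤ C ∧
      ∀ᶠ x in 𝓝 x₀, x ∈ oc P H → (∀ i, i ∉ S → lamV (E i) (c i) x ≤ C) ∧ ∀ j v, Tan (coneE P) x v →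
        ‖(θ j).toFun x v - eval (fun i => ellE (E i) (c i) x v) (Pol j)‖ ≤ C * fs x v * logLen E c x v ^ (m j - 1) := by
  classical
  have _ := hX
  obtain ⟨σ, τ, o₁, o₂, hL, h0⟩ := exists_lc hs hx₀
  subst h0
  have hne : ∀ i, ∀ x ∈ oc P H, vec (E i) x ≠ 0 := fun i x hx => snc2_ne hs i hx
  obtain ⟨C₁, hC₁, hfr⟩ := frame hc hH hE hL hne
  obtain ⟨C₂, hlam⟩ := lc_lam (c := c) hL
  have hτ : Tendsto τ (𝓝 (σ 0)) (𝓝 0) := by
    have h1 := hL.chart.τ_an.continuousAt.tendsto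
    have h2 : τ (σ 0) = 0 := hL.chart.left.self_of_nhds
    rwa [h2] at h1
  have h00 : ((0 : ℂ), (0 : ℂ)) = 0 := rfl
  -- one symmetric differential
  have hone : ∀ j, ∃ (Pol : MvPolynomial (Fin k) ℂ) (C' : ℝ), Pol.IsHomogeneous (m j) ∧
      (∀ y y' : Fin k → ℂ, (∀ i, (o₁ = some i ∨ o₂ = some i) → y i = y' i) → eval y Pol = eval y' Pol) ∧ 0 ≤ C' ∧
      ∀ᶠ x in 𝓝 (σ 0), x ∈ oc P H → ∀ v, Tan (coneE P) x v →
        ‖(θ j).toFun x v - eval (fun i => ellE (E i) (c i) x v) Pol‖ ≤ C' * fs x v * logLen E c x v ^ (m j - 1) := by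
    intro j
    obtain ⟨a, ha, hexp⟩ := lc_exp' (lc_est hE hL) hL (θ j) (hθ j)
    have h1 : o₁ ≠ none → ∀ᶠ s in 𝓝 (0 : ℂ), a (m j) (0, s) = a (m j) 0 := by
      intro ho
      obtain ⟨i, rfl⟩ := Option.ne_none_iff_exists'.mp ho
      exact coeff_const loc_const hs hc hH hE (hm j) (θ j) (hθ j) hL ha hexp
    have h2 : o₂ ≠ none → ∀ᶠ s in 𝓝 (0 : ℂ), a 0 (s, 0) = a 0 0 := by
      intro ho
      obtain ⟨i, rfl⟩ := Option.ne_none_iff_exists'.mp ho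
      have h3 := exp_sw (θ j) hL.chart.σ_an hexp
      have hsa : AnalyticAt ℂ (fun y : ℂ × ℂ => (y.2, y.1)) 0 := analyticAt_snd.prod analyticAt_fst
      have ha' : ∀ k, AnalyticAt ℂ (fun y : ℂ × ℂ => a (m j - k) (y.2, y.1)) 0 := fun k =>
        AnalyticAt.comp (g := a (m j - k)) (f := fun y : ℂ × ℂ => (y.2, y.1)) (ha _) hsa
      have h4 := coeff_const loc_const hs hc hH hE (hm j) (θ j) (hθ j) hL.swap (a := fun k y => a (m j - k) (y.2, y.1)) ha' h3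
      filter_upwards [h4] with s hs'
      have h5 : a (m j - m j) (s, 0) = a (m j - m j) ((0 : ℂ), (0 : ℂ)) := hs'
      rw [Nat.sub_self] at h5
      exact h5
    obtain ⟨Pol, C', hp1, hp2, hp3, hp4⟩ := loc_bound (hm j) hL.ne hL.one ha h1 h2 hC₁
    refine ⟨Pol, C', hp1, hp2, hp3, ?_⟩
    filter_upwards [hfr, hτ.eventually hexp, hτ.eventually hp4, hτ.eventually hL.dom] with x h3 h4 h5 h6 hx v hv
    obtain ⟨h7, h8⟩ := h3 hx
    obtain ⟨t, ht1, ht2, -, ht4⟩ := h8 v hv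
    rw [ht1 (θ j), h4 h7 t]
    exact h5 (h6.mp h7) t (fun i => ellE (E i) (c i) x v) (fs x v) (logLen E c x v) ht2 (Pool.Agent.H36.BP.fs_nonneg _ _) le_rfl ht4
  choose Pol C' hP1 hP2 hP3 hP4 using hone
  set S : Finset (Fin k) := Finset.univ.filter fun i => o₁ = some i ∨ o₂ = some i with hS
  have hSmem : ∀ i, i ∈ S ↔ (o₁ = some i ∨ o₂ = some i) := fun i => by simp [hS]
  set C : ℝ := max C₂ 0 + ∑ j, C' j with hC
  have hCs : ∀ j, C' j ≤ C := by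
    intro j
    have h1 : C' j ≤ ∑ j, C' j := Finset.single_le_sum (f := C') (fun j _ => hP3 j) (Finset.mem_univ j)
    have h2 : 0 ≤ max C₂ 0 := le_max_right _ _
    linarith
  have hC0 : 0 ≤ C := by
    have h1 : 0 ≤ ∑ j, C' j := Finset.sum_nonneg fun j _ => hP3 j
    have h2 : 0 ≤ max C₂ 0 := le_max_right _ _
    linarith
  have hC2 : C₂ ≤ C := by
    have h1 : 0 ≤ ∑ j, C' j := Finset.sum_nonneg fun j _ => hP3 j
    have h2 : C₂ ≤ max C₂ 0 := le_max_left _ _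
    linarith
  refine ⟨S, Pol, C, fun i => ?_, ?_, hP1, fun j y y' hy => hP2 j y y' fun i hi => hy i ((hSmem i).mpr hi), hC0, ?_⟩
  · rw [hSmem]
    exact ⟨fun hi => hL.zero_of_some hi, fun hi => hL.some_of_zero hi⟩
  · have h1 : S ⊆ o₁.toFinset ∪ o₂.toFinset := by
      intro i hi
      rcases (hSmem i).mp hi with h1 | h1
      · exact Finset.mem_union_left _ (by simp [h1])
      · exact Finset.mem_union_right _ (by simp [h1])
    refine (Finset.card_le_card h1).trans ((Finset.card_union_le _ _).trans ?_)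
    have h2 : ∀ o : Option (Fin k), o.toFinset.card ≤ 1 := fun o => by cases o <;> simp
    have := h2 o₁
    have := h2 o₂
    omega
  · have hall : ∀ᶠ x in 𝓝 (σ 0), ∀ j, x ∈ oc P H → ∀ v, Tan (coneE P) x v →
        ‖(θ j).toFun x v - eval (fun i => ellE (E i) (c i) x v) (Pol j)‖ ≤ C' j * fs x v * logLen E c x v ^ (m j - 1) :=
      Filter.eventually_all.mpr hP4
    filter_upwards [hall, hL.chart.right, hτ.eventually hlam, hfr] with x h1 h2 h3 h4 hx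
    refine ⟨fun i hi => ?_, fun j v hv => ?_⟩
    · rw [hSmem] at hi
      push Not at hi
      obtain ⟨κ, hκ, hxκ⟩ := h2 hx.1
      have h5 := (h4 hx).1
      have h6 : lamV (E i) (c i) x = lamV (E i) (c i) (σ (τ x)) := by
        conv_lhs => rw [hxκ]
        exact lamE_smul (hE i) hκ (fun h0 => hc.zero_notMem (h0 ▸ h5.1)) (hne i _ h5)
      rw [h6]
      exact (h3 i hi.1 hi.2).trans hC2
    · refine (h1 j hx v hv).trans ?_
      have h5 : 0 ≤ fs x v := Pool.Agent.H36.BP.fs_nonneg _ _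
      have h6 : 0 ≤ logLen E c x v := by
        unfold logLen
        exact add_nonneg h5 (Finset.sum_nonneg fun i _ => norm_nonneg _)
      exact mul_le_mul_of_nonneg_right (mul_le_mul_of_nonneg_right (hCs j) h5) (by positivity)

end Pool.Agent.SR2
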