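import Pool.Agent.SR2.RsdA
import Pool.Agent.SR2.Rloc
import Pool.Agent.SR2.Snc1

/-!
# SR2 Rsd: module H3, `exists_res`

The local statement `res_loc` (Rloc.lean) and the finite cover of RsdA.lean.
-/

set_option autoImplicit false

open Topology Filter Metric MvPolynomial

noncomputable section

namespace Pool.Agent.SR2

open Pool.Agent.H36.BP (EN fs)
open Pool.Agent.H17BP (Surface)
open Pool.Agent.H14.PP (IsCone Tan)
open Pool.Agent.H17EF (coneE)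
open Pool.Agent.AD (SymDiff)

variable {N k M : ℕ}

variable {P : Ideal (MvPolynomial (Fin (N + 1)) ℂ)} {H : MvPolynomial (Fin (N + 1)) ℂ} {h : ℕ} {E : Fin k → Fin (M + 1) → MvPolynomial (Fin (N + 1)) ℂ}
  {c b : Fin k → ℕ}

/-- MODULE H3 (Rsd.lean and others): the residues. -/
theorem exists_res (hX : Surface (coneE P)) (hc : IsCone (coneE P)) (hH : H.IsHomogeneous h) (_h1 : 1 ≤ h)
    (hE : ∀ i l, (E i l).IsHomogeneous (c i)) (hs : Snc P H E b) {s : ℕ} {m : Fin s → ℕ} (hm : ∀ j, 1 ≤ m j) (θ : ∀ j, SymDiff (oc P H) (m j))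
    (hθ : ∀ j, HasLogPoles E c (θ j)) :
    ∃ (n : ℕ) (supp : Fin n → Finset (Fin k)) (Pol : Fin n → Fin s → MvPolynomial (Fin k) ℂ) (ty : EN N → Fin n),
      (∀ t, (supp t).card ≤ 2) ∧ (∀ t j, (Pol t j).IsHomogeneous (m j)) ∧
      (∀ t j (y y' : Fin k → ℂ), (∀ i ∈ supp t, y i = y' i) → eval y (Pol t j) = eval y' (Pol t j)) ∧
      (∃ C : ℝ, 0 ≤ C ∧ ∀ x ∈ oc P H, (∀ i, i ∉ supp (ty x) → lamE (E i) (c i) x ≤ C) ∧ ∀ j v, Tan (coneE P) x v →
        ‖(θ j).toFun x v - eval (fun i => ellE (E i) (c i) x v) (Pol (ty x) j)‖ ≤ C * fs x v * logLen E c x v ^ (m j - 1)) := by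
  refine exists_res_of_loc hc hH hE (fun i x hx => snc_ne hs i hx) θ fun x₀ hx₀ => ?_
  obtain ⟨S, Pol, C, -, hS, hPh, hPs, hC, hx⟩ := res_loc hX hc hH hE hs hm θ hθ hx₀
  obtain ⟨V, hV, hVo, hxV⟩ := _root_.mem_nhds_iff.1 hx
  exact ⟨V, C, S, Pol, hVo, hxV, hC, hS, hPh, hPs, fun x hxV' hxo => hV hxV' hxo⟩

end Pool.Agent.SR2
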