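import Pool.Agent.SR2.HDefs
import Pool.Agent.SDA.E2

/-!
# SR2 Wfl: the elementary properties of a symmetric differential on the affine surface
-/

set_option autoImplicit false

open Topology Filter Metric MvPolynomial

noncomputable section

namespace Pool.Agent.SR2

open Pool.Agent.H36.BP (EN)
open Pool.Agent.H14.PP (IsCone Tan IsOpenPart)
open Pool.Agent.H62.FC (Homog)
open Pool.Agent.H17LG.Variety (FunField)
open Pool.Agent.H17EF (coneE)
open Pool.Agent.AD (SymDiff Charts charts_coneE isCone_coneE)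
open Pool.Agent.AD.NC (IsSmooth)
open Pool.Agent.SDA (affOpen E2_inv E2_tan E2_cont)

variable {N h : ℕ} {P : Ideal (MvPolynomial (Fin (N + 1)) ℂ)} {H : MvPolynomial (Fin (N + 1)) ℂ}

/-- `oc P H` is a relatively open part of the cone -/
theorem isOpenPart_oc (hP : Homog P) (hH : H.IsHomogeneous h) (h1 : 1 ≤ h) : IsOpenPart (coneE P) (oc P H) :=
  (affOpen (k := 1) (H := fun _ => H) (e := fun _ => h) hP le_rfl (fun _ => hH) fun _ => h1).isOpenPart (isCone_coneE hP)

/-- MODULE H9 (Wfl.lean): the fields of `Geo.Ok` for a symmetric differential (compare `SDA/E2.lean`) -/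
theorem sym_fields [P.IsPrime] {z : Fin 2 → FunField P} (hP : Homog P) (hz : IsTranscendenceBasis ℂ z) (hsm : IsSmooth P 2)
    (hH : H.IsHomogeneous h) (h1 : 1 ≤ h) {m : ℕ} (_hm : 1 ≤ m) (θ : SymDiff (oc P H) m) :
    (∀ x ∈ oc P H, ∀ v, Tan (coneE P) x v → ∀ c a : ℂ, c ≠ 0 → θ.toFun (c • x) (c • v + a • x) = θ.toFun x v) ∧
    (∀ x ∈ oc P H, ∀ v, Tan (coneE P) x v → ∀ c : ℂ, θ.toFun x (c • v) = c ^ m * θ.toFun x v) ∧
    ContinuousOn (fun y : EN N × EN N => θ.toFun y.1 y.2) {y | y.1 ∈ oc P H ∧ Tan (coneE P) y.1 y.2} := by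
  have hX : IsCone (coneE P) := isCone_coneE hP
  have hK : IsOpenPart (coneE P) (oc P H) := isOpenPart_oc hP hH h1
  have hch : Charts 2 (coneE P) := charts_coneE hP hz hsm
  exact ⟨fun x hx v h c a hc => E2_inv hX hK θ hx h hc a, fun x hx v h c => θ.smul x v (E2_tan hK hx h) c, E2_cont hX hch hK θ⟩

end Pool.Agent.SR2
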