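import Pool.Agent.SR2.Snc1
import Pool.Agent.SR2.Snc2
import Pool.Agent.SR2.Rsd
import Pool.Agent.SR2.OmL
import Pool.Agent.SR2.Bdy
import Pool.Agent.SR2.MetB
import Pool.Agent.H90.SG.Poly
import Pool.Agent.SR2.Wfl
import Pool.Agent.SR2.Lin

/-!
# SR2 OkA: the hypotheses `Geo.Ok` for a surface with normal crossings
-/

set_option autoImplicit false

open Topology Filter Metric MvPolynomial

noncomputable section

namespace Pool.Agent.SR2

open Pool.Agent.H36.BP (EN fs isCone_transport fs_nonneg)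
open Pool.Agent.H17BP (Surface IsChart IsForm NoZeros)
open Pool.Agent.H36.BPL (PoleLE)
open Pool.Agent.H14.PP (IsCone Tan IsOpenPart)
open Pool.Agent.H17 (PN VanishesAt HolomorphicInto)
open Pool.Agent.H62.FC (Homog)
open Pool.Agent.H17LG.Variety (FunField)
open Pool.Agent.H17EF (projVar coneE LE)
open Pool.Agent.H22.WL (evF evF_diff evF_smul)
open Pool.Agent.AD (SymDiff TangentTo)
open Pool.Agent.AD.NC (IsSmooth)
open Pool.Agent.SDA (openCone AffOpen E2_tan Nm)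

variable {N k M : ℕ} {P : Ideal (MvPolynomial (Fin (N + 1)) ℂ)} {H : MvPolynomial (Fin (N + 1)) ℂ} {h : ℕ}
  {E : Fin k → Fin (M + 1) → MvPolynomial (Fin (N + 1)) ℂ} {c b : Fin k → ℕ}

theorem OkA_logLen_nonneg (E : Fin k → Fin (M + 1) → MvPolynomial (Fin (N + 1)) ℂ) (c : Fin k → ℕ) (x v : EN N) : 0 ≤ logLen E c x v :=
  add_nonneg (fs_nonneg x v) (Finset.sum_nonneg fun _ _ => norm_nonneg _)

theorem OkA_vec_an (E : Fin (M + 1) → MvPolynomial (Fin (N + 1)) ℂ) (x : EN N) : AnalyticAt ℂ (vec E) x := by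
  have h1 : AnalyticAt ℂ (fun y : EN N => fun l => eval y.ofLp (E l)) x := AnalyticAt.pi fun l => Pool.Agent.SDA.E1_an (E l) x
  exact (((PiLp.continuousLinearEquiv 2 ℂ fun _ : Fin (M + 1) => ℂ).symm : (Fin (M + 1) → ℂ) →L[ℂ] EN M).analyticAt _).comp h1

/-- the logarithmic bound for a finite family, for the tangent vectors of the closed surface -/
theorem exists_log_bound (hK : IsOpenPart (coneE P) (oc P H)) {s : ℕ} {m : Fin s → ℕ} (θ : ∀ j, SymDiff (oc P H) (m j))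
    (hθ : ∀ j, HasLogPoles E c (θ j)) :
    ∃ C : ℝ, 0 ≤ C ∧ ∀ j, ∀ x ∈ oc P H, ∀ v, Tan (coneE P) x v → ‖(θ j).toFun x v‖ ≤ C * logLen E c x v ^ m j := by
  choose C hC0 hC using hθ
  refine ⟨∑ j, C j, Finset.sum_nonneg fun j _ => hC0 j, fun j x hx v hv => ?_⟩
  refine (hC j x hx v (E2_tan hK hx hv)).trans (mul_le_mul_of_nonneg_right ?_ (pow_nonneg (OkA_logLen_nonneg E c x v) _))
  exact Finset.single_le_sum (f := C) (fun j _ => hC0 j) (Finset.mem_univ j)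

/-- MODULE H10 (OkA.lean): the hypotheses `Geo.Ok` -/
theorem exists_ok [P.IsPrime] {z : Fin 2 → FunField P} (hP : Homog P) (hz : IsTranscendenceBasis ℂ z) (hsm : IsSmooth P 2)
    (hH : H.IsHomogeneous h) (h1 : 1 ≤ h) (hE : ∀ i l, (E i l).IsHomogeneous (c i)) (hch : ∀ i, h + 1 ≤ c i) (hs : Snc P H E b)
    {s : ℕ} {m : Fin s → ℕ} (hs1 : 1 ≤ s) (hm : ∀ j, 1 ≤ m j) (θ : ∀ j, SymDiff (oc P H) (m j)) (hθ : ∀ j, HasLogPoles E c (θ j))
    {mΩ jΩ r : ℕ} {Ω : Fin r → EN N → EN N → EN N → ℂ} {Q : Fin r → MvPolynomial (Fin (N + 1)) ℂ} (hΩ : LogAmple P H mΩ jΩ Ω Q)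
    (hB : NoBdyCurve P E) (hL : NoLine P H) :
    ∃ (n : ℕ) (supp : Fin n → Finset (Fin k)) (Pol : Fin n → Fin s → MvPolynomial (Fin k) ℂ) (ty : EN N → Fin n),
      (geoOf P H h E c b θ supp Pol ty mΩ jΩ Ω).Ok := by
  have hX : IsCone (coneE P) := Pool.Agent.AD.isCone_coneE hP
  have hS : Surface (coneE P) := Pool.Agent.H90.SG.surface_coneE hP hz hsm
  have hK : IsOpenPart (coneE P) (oc P H) := isOpenPart_oc hP hH h1
  obtain ⟨n, supp, Pol, ty, r1, r2, r3, r4⟩ := exists_res hS hX hH h1 hE hs hm θ hθ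
  refine ⟨n, supp, Pol, ty, ?_⟩
  refine
    { cone := hX
      surf := hS
      aff :=
        { an := fun _ x => Pool.Agent.SDA.E1_an H x
          smul := fun _ t x => evF_smul hH t x
          pos := fun _ => h1
          ne := ⟨()⟩
          mem := fun x => ⟨fun hx => ⟨hx.1, fun _ => hx.2 0⟩, fun hx => ⟨hx.1, fun _ => hx.2 ()⟩⟩ }
      anE := fun i x => OkA_vec_an (E i) x
      smulE := fun i t x => vec_smul (hE i) t x
      neE := fun i x hx => snc_ne hs i hx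
      c_ge := hch
      b_pos := hs.pos
      cmp := snc_cmp hS hX hH hE hs
      cmp' := snc_cmp' hS hX hH hE hs
      fsE := snc_fs hS hX hE hs
      neJ := ⟨⟨0, by omega⟩⟩
      one_m := hm
      w_inv := fun j => (sym_fields hP hz hsm hH h1 (hm j) (θ j)).1
      w_hom := fun j => (sym_fields hP hz hsm hH h1 (hm j) (θ j)).2.1
      w_cont := fun j => (sym_fields hP hz hsm hH h1 (hm j) (θ j)).2.2
      w_an := fun j k φ y v hφ hφK => (θ j).analytic k φ y v hφ hφK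
      w_log := exists_log_bound hK θ hθ
      supp_card := r1
      Pol_hom := r2
      Pol_supp := r3
      res := r4
      one_mΩ := hΩ.one_m
      one_jΩ := hΩ.one_j
      form := hΩ.form
      Ω_ne := ?_
      Ω_le := ?_
      h1 := fun 𝒰 h𝒰 F H' hF hFK hH' hH'' hlim z z' => h1_of hS hX hP hE hs hB 𝒰 h𝒰 F H' hF hFK hH' hH'' hlim z z'
      na := fun F hF hFK hN hg z z' => na_of hP hL F hF hFK (fun z => by simpa [Nm, Geo.P, geoOf] using hN z) hg z z' }
  · intro x hx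
    obtain ⟨a, ha⟩ := hΩ.cover x hx
    refine ⟨a, fun v w hv hw hli => ?_⟩
    obtain ⟨γ, ⟨g1, g2⟩, g3, g4⟩ := E2_tan hK hx hv
    obtain ⟨γ', ⟨g1', g2'⟩, g3', g4'⟩ := E2_tan hK hx hw
    exact hΩ.noZeros a x hx ha v ⟨γ, g1, g2, g3, g4⟩ w ⟨γ', g1', g2', g3', g4'⟩ hli
  · obtain ⟨C, hC0, hC⟩ := omega_le hS hX hH h1 hE hs hΩ
    exact ⟨C, hC0, fun a x hx _ v w hv hw => hC a x hx v w hv hw⟩

end Pool.Agent.SR2
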