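import Mathlib

/-!
# SR2 QnB: quantitative nullness, the analytic half

A holomorphic disc `φ` which is `ε`-close to a curve `Z`, such that `w (φ, φ')` is constant and small where `φ` is not near finitely many points, has
`w (φ, φ') ≤ C ε ^ α`.
-/

set_option autoImplicit false

open Topology Filter Metric

noncomputable section

namespace Pool.Agent.SR2.Qn

variable {V : Type} [NormedAddCommGroup V] [NormedSpace ℂ V] [CompleteSpace V]

/-- Cauchy's estimate on the quarter discs -/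
theorem norm_deriv_le {E : Type} [NormedAddCommGroup E] [NormedSpace ℂ E] [CompleteSpace E] {φ : ℂ → E} (hφ : DifferentiableOn ℂ φ (ball 0 1)) {A : ℝ}
    (hA : ∀ z ∈ ball (0 : ℂ) (3 / 4), ‖φ z‖ ≤ A) {z : ℂ} (hz : z ∈ ball (0 : ℂ) (1 / 2)) : ‖deriv φ z‖ ≤ 8 * A := by
  have h1 : closedBall z (1 / 8) ⊆ ball (0 : ℂ) (3 / 4) := by
    intro w hw
    rw [mem_closedBall, dist_eq_norm] at hw
    rw [mem_ball_zero_iff] at hz ⊢
    have h2 : ‖w‖ ≤ ‖w - z‖ + ‖z‖ := by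
      have := norm_add_le (w - z) z
      rwa [sub_add_cancel] at this
    linarith
  have h2 : ball (0 : ℂ) (3 / 4) ⊆ ball 0 1 := ball_subset_ball (by norm_num)
  have h3 : DiffContOnCl ℂ φ (ball z (1 / 8)) := by
    refine DifferentiableOn.diffContOnCl ?_
    rw [closure_ball _ (by norm_num)]
    exact hφ.mono (h1.trans h2)
  have h4 := Complex.norm_deriv_le_of_forall_mem_sphere_norm_le (by norm_num : (0 : ℝ) < 1 / 8) h3
    (fun w hw => hA w (h1 (sphere_subset_closedBall hw)))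
  linarith

/-- the dichotomy: a disc which is close to a finite set is close to one point -/
theorem near_one {φ : ℂ → V} (hφ : DifferentiableOn ℂ φ (ball 0 1)) {F : Finset V} {δ₀ ρ : ℝ} (hδ : ∀ p ∈ F, ∀ p' ∈ F, p ≠ p' → δ₀ ≤ ‖p - p'‖)
    (hρ : 2 * ρ < δ₀) {r : ℝ} (hr : 0 < r) (hr1 : r ≤ 1) (h : ∀ z ∈ ball (0 : ℂ) r, ∃ p ∈ F, ‖φ z - p‖ < ρ) : ∃ p ∈ F, ∀ z ∈ ball (0 : ℂ) r, ‖φ z - p‖ < ρ := by
  obtain ⟨p₀, hp₀, h0⟩ := h 0 (mem_ball_self hr)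
  refine ⟨p₀, hp₀, fun z hz => ?_⟩
  by_contra hcon
  push Not at hcon
  have hc : ContinuousOn (fun z => ‖φ z - p₀‖) (ball (0 : ℂ) r) :=
    ((hφ.continuousOn.mono (ball_subset_ball hr1)).sub continuousOn_const).norm
  have h1 := (convex_ball (0 : ℂ) r).isPreconnected.intermediate_value (mem_ball_self hr) hz hc
  obtain ⟨y, hy, hy2⟩ := h1 ⟨h0.le, hcon⟩
  obtain ⟨p, hp, h2⟩ := h y hy
  by_cases hpp : p = p₀
  · subst hpp
    exact absurd hy2 h2.ne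
  · have h3 := hδ p hp p₀ hp₀ hpp
    have h4 : ‖p - p₀‖ ≤ ‖φ y - p‖ + ‖φ y - p₀‖ := by
      have := norm_add_le (p - φ y) (φ y - p₀)
      rw [sub_add_sub_cancel, norm_sub_rev p (φ y)] at this
      exact this
    have h5 : ‖φ y - p₀‖ = ρ := hy2
    linarith

omit [NormedSpace ℂ V] [CompleteSpace V] in
/-- a small product has a small factor -/
theorem exists_small {F : Finset V} {x : V} {η : ℝ} (hη : 0 ≤ η) (hη1 : η ≤ 1) (h : ∏ p ∈ F, ‖x - p‖ < η) :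
    ∃ p ∈ F, ‖x - p‖ < η ^ (1 / ((F.card : ℝ) + 1)) := by
  by_contra hcon
  push Not at hcon
  have h1 : ∏ _p ∈ F, η ^ (1 / ((F.card : ℝ) + 1)) ≤ ∏ p ∈ F, ‖x - p‖ :=
    Finset.prod_le_prod (fun _ _ => Real.rpow_nonneg hη _) fun p hp => hcon p hp
  rw [Finset.prod_const, ← Real.rpow_natCast, ← Real.rpow_mul hη] at h1
  have hc : (0 : ℝ) ≤ F.card := Nat.cast_nonneg _
  have h2 : 1 / ((F.card : ℝ) + 1) * F.card ≤ 1 := by
    rw [one_div_mul_eq_div, div_le_one (by linarith)]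
    linarith
  rcases hη.eq_or_lt with h3 | h3
  · rw [← h3] at h
    have : 0 ≤ ∏ p ∈ F, ‖x - p‖ := Finset.prod_nonneg fun _ _ => norm_nonneg _
    linarith
  · have h4 : η ^ (1 : ℝ) ≤ η ^ (1 / ((F.card : ℝ) + 1) * F.card) := Real.rpow_le_rpow_of_exponent_ge h3 hη1 h2
    rw [Real.rpow_one] at h4
    linarith

omit [NormedSpace ℂ V] [CompleteSpace V] in
/-- the minimal distance of the points of a finite set -/
theorem exists_sep (F : Finset V) : ∃ δ₀ : ℝ, 0 < δ₀ ∧ δ₀ ≤ 1 ∧ ∀ p ∈ F, ∀ p' ∈ F, p ≠ p' → δ₀ ≤ ‖p - p'‖ := by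
  classical
  have h : ∀ G : Finset (V × V), (∀ q ∈ G, q.1 ≠ q.2) → ∃ δ₀ : ℝ, 0 < δ₀ ∧ δ₀ ≤ 1 ∧ ∀ q ∈ G, δ₀ ≤ ‖q.1 - q.2‖ := by
    intro G
    induction G using Finset.induction_on with
    | empty => exact fun _ => ⟨1, one_pos, le_rfl, by simp⟩
    | insert q G _ ih =>
      intro hG
      obtain ⟨δ, h1, h2, h3⟩ := ih fun q' hq' => hG q' (Finset.mem_insert_of_mem hq')
      have h4 : 0 < ‖q.1 - q.2‖ := norm_pos_iff.2 (sub_ne_zero.2 (hG q (Finset.mem_insert_self _ _)))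
      refine ⟨min δ ‖q.1 - q.2‖, lt_min h1 h4, (min_le_left _ _).trans h2, fun q' hq' => ?_⟩
      rcases Finset.mem_insert.1 hq' with rfl | h5
      · exact min_le_right _ _
      · exact (min_le_left _ _).trans (h3 q' h5)
  obtain ⟨δ, h1, h2, h3⟩ := h ((F ×ˢ F).filter fun q => q.1 ≠ q.2) (fun q hq => (Finset.mem_filter.1 hq).2)
  refine ⟨δ, h1, h2, fun p hp p' hp' hne => h3 (p, p') ?_⟩
  exact Finset.mem_filter.2 ⟨Finset.mem_product.2 ⟨hp, hp'⟩, hne⟩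

/-- **The analytic half**, for one differential `w`. -/
theorem bound_of {φ : ℂ → V} (hφ : DifferentiableOn ℂ φ (ball 0 1)) {w : V → V → ℂ} {q : ℂ} {B C₁ C₂ ε δ₀ : ℝ} {n : ℕ} {F : Finset V} (hn : 1 ≤ n)
    (hB : 0 ≤ B) (hC₁ : 0 ≤ C₁) (hC₂ : 0 ≤ C₂) (hε : 0 < ε) (hε1 : ε ≤ 1) (hδ₀ : 0 < δ₀) (hδ₁ : δ₀ ≤ 1) (hδ : ∀ p ∈ F, ∀ p' ∈ F, p ≠ p' → δ₀ ≤ ‖p - p'‖)
    (hφB : ∀ z ∈ ball (0 : ℂ) 1, ‖φ z‖ ≤ B) (hw : ∀ z ∈ ball (0 : ℂ) (1 / 2), ‖w (φ z) (deriv φ z)‖ ≤ C₁ * ‖deriv φ z‖)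
    (hq : ∀ z ∈ ball (0 : ℂ) (1 / 2), w (φ z) (deriv φ z) = q)
    (hb : ∀ z ∈ ball (0 : ℂ) (1 / 2), (‖w (φ z) (deriv φ z)‖ * ∏ p ∈ F, ‖φ z - p‖) ^ n ≤ C₂ * ε) :
    ‖q‖ ≤ (1 + C₂ + 16 * C₁ * (B + 1) / δ₀) * ε ^ (1 / (2 * n * ((F.card : ℝ) + 1))) := by
  have hnr : (1 : ℝ) ≤ n := by exact_mod_cast hn
  have hF1 : (1 : ℝ) ≤ (F.card : ℝ) + 1 := by
    have : (0 : ℝ) ≤ F.card := Nat.cast_nonneg _
    linarith
  have hn0 : (0 : ℝ) < 2 * n := by linarith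
  set η : ℝ := ε ^ (1 / (2 * (n : ℝ))) with hηdef
  have hη0 : 0 < η := Real.rpow_pos_of_pos hε _
  have hη1 : η ≤ 1 := Real.rpow_le_one hε.le hε1 (by positivity)
  have hηn : η ^ n * η ^ n = ε := by
    rw [← pow_add, ← Real.rpow_natCast, hηdef, ← Real.rpow_mul hε.le]
    have : 1 / (2 * (n : ℝ)) * ((n + n : ℕ) : ℝ) = 1 := by
      push_cast
      field_simp
      ring
    rw [this, Real.rpow_one]
  have hexp : ε ^ (1 / (2 * n * ((F.card : ℝ) + 1))) = η ^ (1 / ((F.card : ℝ) + 1)) := by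
    rw [hηdef, ← Real.rpow_mul hε.le]
    congr 1
    rw [one_div_mul_one_div]
  rw [hexp]
  have hηF : η ≤ η ^ (1 / ((F.card : ℝ) + 1)) := by
    have h1 : η ^ (1 : ℝ) ≤ η ^ (1 / ((F.card : ℝ) + 1)) := by
      refine Real.rpow_le_rpow_of_exponent_ge hη0 hη1 ?_
      rw [div_le_one (by linarith)]
      exact hF1
    rwa [Real.rpow_one] at h1
  set ρ : ℝ := η ^ (1 / ((F.card : ℝ) + 1)) with hρ
  have hρ0 : 0 < ρ := Real.rpow_pos_of_pos hη0 _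
  have hdiv : 0 ≤ 16 * C₁ * (B + 1) / δ₀ := by positivity
  have h0 : (0 : ℂ) ∈ ball (0 : ℂ) (1 / 2) := mem_ball_self (by norm_num)
  by_cases hcase : ∃ z ∈ ball (0 : ℂ) (1 / 2), η ≤ ∏ p ∈ F, ‖φ z - p‖
  · obtain ⟨z, hz, hzη⟩ := hcase
    have h1 := hb z hz
    rw [hq z hz] at h1
    have h2 : (‖q‖ * η) ^ n ≤ C₂ * ε := by
      refine le_trans (pow_le_pow_left₀ (by positivity) ?_ n) h1
      exact mul_le_mul_of_nonneg_left hzη (norm_nonneg _)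
    rw [mul_pow, ← hηn] at h2
    have h3 : ‖q‖ ^ n ≤ C₂ * η ^ n := by
      have h4 : 0 < η ^ n := pow_pos hη0 n
      have h5 : ‖q‖ ^ n * η ^ n ≤ (C₂ * η ^ n) * η ^ n := by linarith
      exact le_of_mul_le_mul_right h5 h4
    have h4 : ‖q‖ ≤ (1 + C₂) * η := by
      by_contra hcon
      push Not at hcon
      have h5 : ((1 + C₂) * η) ^ n < ‖q‖ ^ n := pow_lt_pow_left₀ hcon (by positivity) (by omega)
      rw [mul_pow] at h5
      have h6 : C₂ ≤ (1 + C₂) ^ n := by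
        calc C₂ ≤ 1 + C₂ := by linarith
          _ = (1 + C₂) ^ 1 := (pow_one _).symm
          _ ≤ (1 + C₂) ^ n := pow_le_pow_right₀ (by linarith) hn
      have h7 : C₂ * η ^ n ≤ (1 + C₂) ^ n * η ^ n := mul_le_mul_of_nonneg_right h6 (by positivity)
      linarith
    calc ‖q‖ ≤ (1 + C₂) * η := h4
      _ ≤ (1 + C₂) * ρ := mul_le_mul_of_nonneg_left hηF (by linarith)
      _ ≤ _ := mul_le_mul_of_nonneg_right (by linarith) hρ0.le
  · push Not at hcase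
    have h1 : ∀ z ∈ ball (0 : ℂ) (1 / 2), ∃ p ∈ F, ‖φ z - p‖ < ρ := fun z hz => exists_small hη0.le hη1 (hcase z hz)
    have hkey : ‖q‖ ≤ 16 * C₁ * (B + 1) / δ₀ * ρ := by
      rcases lt_or_ge (2 * ρ) δ₀ with h2 | h2
      · -- near one point on the half disc: Cauchy for `φ (z / 2)`
        obtain ⟨p, hp, h3⟩ := near_one hφ hδ h2 (by norm_num : (0 : ℝ) < 1 / 2) (by norm_num) h1
        have h4 : ‖deriv φ 0‖ ≤ 8 * ρ := by
          have h5 : DiffContOnCl ℂ (fun z => φ z - p) (ball (0 : ℂ) (1 / 4)) := by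
            refine DifferentiableOn.diffContOnCl ?_
            rw [closure_ball _ (by norm_num)]
            exact (hφ.sub_const p).mono ((closedBall_subset_ball (by norm_num)).trans le_rfl)
          have h6 := Complex.norm_deriv_le_of_forall_mem_sphere_norm_le (by norm_num : (0 : ℝ) < 1 / 4) h5
            (fun w hw => (h3 w ((sphere_subset_closedBall.trans (closedBall_subset_ball (by norm_num))) hw)).le)
          rw [deriv_sub_const] at h6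
          linarith
        have h5 := hw 0 h0
        rw [hq 0 h0] at h5
        have h6 : 1 ≤ (B + 1) / δ₀ := by
          rw [le_div_iff₀ hδ₀]
          linarith
        calc ‖q‖ ≤ C₁ * ‖deriv φ 0‖ := h5
          _ ≤ C₁ * (8 * ρ) := mul_le_mul_of_nonneg_left h4 hC₁
          _ ≤ 16 * C₁ * ρ * 1 := by nlinarith [mul_nonneg hC₁ hρ0.le]
          _ ≤ 16 * C₁ * ρ * ((B + 1) / δ₀) := mul_le_mul_of_nonneg_left h6 (by positivity)
          _ = 16 * C₁ * (B + 1) / δ₀ * ρ := by ring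
      · have h3 : ‖deriv φ 0‖ ≤ 8 * B := norm_deriv_le hφ (fun z hz => hφB z (ball_subset_ball (by norm_num) hz)) h0
        have h5 := hw 0 h0
        rw [hq 0 h0] at h5
        have h6 : 1 ≤ 2 * ρ / δ₀ := by
          rw [le_div_iff₀ hδ₀]
          linarith
        calc ‖q‖ ≤ C₁ * ‖deriv φ 0‖ := h5
          _ ≤ C₁ * (8 * B) := mul_le_mul_of_nonneg_left h3 hC₁
          _ ≤ 8 * C₁ * (B + 1) * 1 := by nlinarith
          _ ≤ 8 * C₁ * (B + 1) * (2 * ρ / δ₀) := mul_le_mul_of_nonneg_left h6 (by positivity)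
          _ = 16 * C₁ * (B + 1) / δ₀ * ρ := by ring
    refine hkey.trans (mul_le_mul_of_nonneg_right (by linarith) hρ0.le)

/-- from `‖q‖ ≤ C ε ^ α` to the roots -/
theorem sum_root_le {s : ℕ} {m : Fin s → ℕ} (hm : ∀ j, 1 ≤ m j) {C α : ℝ} (hC : 0 ≤ C) (hα : 0 < α) :
    ∃ C' α' : ℝ, 0 ≤ C' ∧ 0 < α' ∧ ∀ (q : Fin s → ℂ) (ε : ℝ), 0 < ε → ε ≤ 1 → (∀ j, ‖q j‖ ≤ C * ε ^ α) → ∑ j, ‖q j‖ ^ ((m j : ℝ)⁻¹) ≤ C' * ε ^ α' := by
  obtain ⟨M, hM⟩ : ∃ M : ℕ, ∀ j, m j ≤ M := ⟨∑ j, m j, fun j => Finset.single_le_sum (fun _ _ => Nat.zero_le _) (Finset.mem_univ j)⟩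
  refine ⟨s * (1 + C), α / (M + 1), by positivity, by positivity, fun q ε hε hε1 hq => ?_⟩
  have h1 : ∀ j, ‖q j‖ ^ ((m j : ℝ)⁻¹) ≤ (1 + C) * ε ^ (α / (M + 1)) := by
    intro j
    have hmj : (1 : ℝ) ≤ m j := by exact_mod_cast hm j
    have hmM : (m j : ℝ) ≤ M := by exact_mod_cast hM j
    have h2 : ‖q j‖ ≤ (1 + C) * ε ^ α := (hq j).trans (mul_le_mul_of_nonneg_right (by linarith) (Real.rpow_nonneg hε.le _))
    calc ‖q j‖ ^ ((m j : ℝ)⁻¹) ≤ ((1 + C) * ε ^ α) ^ ((m j : ℝ)⁻¹) := Real.rpow_le_rpow (norm_nonneg _) h2 (by positivity)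
      _ = (1 + C) ^ ((m j : ℝ)⁻¹) * ε ^ (α * (m j : ℝ)⁻¹) := by
          rw [Real.mul_rpow (by linarith) (Real.rpow_nonneg hε.le _), ← Real.rpow_mul hε.le]
      _ ≤ (1 + C) * ε ^ (α / (M + 1)) := by
          refine mul_le_mul ?_ ?_ (Real.rpow_nonneg hε.le _) (by linarith)
          · calc (1 + C) ^ ((m j : ℝ)⁻¹) ≤ (1 + C) ^ (1 : ℝ) :=
                Real.rpow_le_rpow_of_exponent_le (by linarith) (inv_le_one_of_one_le₀ hmj)
              _ = 1 + C := Real.rpow_one _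
          · refine Real.rpow_le_rpow_of_exponent_ge hε hε1 ?_
            rw [div_eq_mul_inv]
            refine mul_le_mul_of_nonneg_left ?_ hα.le
            exact inv_anti₀ (by linarith) (by linarith)
  calc ∑ j, ‖q j‖ ^ ((m j : ℝ)⁻¹) ≤ ∑ _j : Fin s, (1 + C) * ε ^ (α / (M + 1)) := Finset.sum_le_sum fun j _ => h1 j
    _ = s * (1 + C) * ε ^ (α / (M + 1)) := by
        rw [Finset.sum_const, Finset.card_univ, Fintype.card_fin, nsmul_eq_mul]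
        ring

end Pool.Agent.SR2.Qn
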