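import Pool.Agent.SR2.StubH
import Pool.Agent.SR2.QnB
import Pool.Agent.H14.PP.Poly

/-!
# SR2 QnC: quantitative nullness, from the bound of the Nullstellensatz
-/

set_option autoImplicit false

open Topology Filter Metric MvPolynomial

noncomputable section

namespace Pool.Agent.SR2

open Pool.Agent.H36.BP (EN fs)
open Pool.Agent.H17BP (Surface IsChart IsForm NoZeros)
open Pool.Agent.H14.PP (IsCone Tan)
open Pool.Agent.H14.KB (rhoS)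
open Pool.Agent.H62.FC (Homog)
open Pool.Agent.H17EF (projVar coneE)
open Pool.Agent.AD (SymDiff TangentTo)
open Pool.Agent.SDA (openCone)

variable {N : ℕ} {P : Ideal (MvPolynomial (Fin (N + 1)) ℂ)} {H : MvPolynomial (Fin (N + 1)) ℂ} {h : ℕ}

/-- The conclusion of the Nullstellensatz: for the points `x` of `{H = 1}`, `‖x‖ ≤ B`, and the tangent vectors `v`, `‖v‖ ≤ B`, the value of `θ j` is small if
`R l (x)` and `dR l (v)` are small and `x` is not near finitely many points. -/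
def QnBound {s : ℕ} {m : Fin s → ℕ} (θ : ∀ j, SymDiff (oc P H) (m j)) {t : ℕ} (R : Fin t → MvPolynomial (Fin (N + 1)) ℂ) (B : ℝ) : Prop :=
  ∃ (n : ℕ) (F : Finset (EN N)) (C : ℝ), 1 ≤ n ∧ 0 ≤ C ∧ ∀ (j : Fin s) (x v : EN N), x ∈ oc P H → Tan (oc P H) x v → eval x.ofLp H = 1 →
    fderiv ℂ (fun y : EN N => eval y.ofLp H) x v = 0 → ‖x‖ ≤ B → ‖v‖ ≤ B → ∀ d : ℝ, 0 ≤ d → (∀ l, ‖eval x.ofLp (R l)‖ ≤ d) →
      (∀ l, ‖fderiv ℂ (fun y : EN N => eval y.ofLp (R l)) x v‖ ≤ d) → (‖(θ j).toFun x v‖ * ∏ p ∈ F, ‖x - p‖) ^ n ≤ C * d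

/-- polynomials are differentiable on `EN N` -/
theorem differentiable_evalEN (Q : MvPolynomial (Fin (N + 1)) ℂ) : Differentiable ℂ fun y : EN N => eval y.ofLp Q := by
  induction Q using MvPolynomial.induction_on with
  | C a =>
    simp only [eval_C]
    exact differentiable_const a
  | add p q hp hq =>
    simp only [map_add]
    exact hp.add hq
  | mul_X p i hp =>
    simp only [map_mul, eval_X]
    refine hp.mul ?_
    exact (EuclideanSpace.proj (𝕜 := ℂ) i : EN N →L[ℂ] ℂ).differentiable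

theorem continuous_elim (W : MvPolynomial (Fin (N + 1) ⊕ Fin (N + 1)) ℂ) : Continuous fun y : EN N × EN N => eval (Sum.elim y.1.ofLp y.2.ofLp) W := by
  refine (MvPolynomial.continuous_eval W).comp (continuous_pi fun i => ?_)
  rcases i with i | i
  · exact (EuclideanSpace.proj (𝕜 := ℂ) i : EN N →L[ℂ] ℂ).continuous.comp continuous_fst
  · exact (EuclideanSpace.proj (𝕜 := ℂ) i : EN N →L[ℂ] ℂ).continuous.comp continuous_snd

theorem tan_of_disc {K : Set (EN N)} {φ : ℂ → EN N} (hφ : DifferentiableOn ℂ φ (ball 0 1)) (hK : ∀ z ∈ ball (0 : ℂ) 1, φ z ∈ K) {z : ℂ}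
    (hz : z ∈ ball (0 : ℂ) 1) : Tan K (φ z) (deriv φ z) := by
  have hopen : ball (0 : ℂ) 1 ∈ 𝓝 z := isOpen_ball.mem_nhds hz
  have han : AnalyticAt ℂ φ z := hφ.analyticAt hopen
  refine ⟨fun y => φ (z + y), ⟨?_, ?_⟩, by simp, ?_⟩
  · have h1 : AnalyticAt ℂ φ (z + 0) := by rwa [add_zero]
    exact h1.comp (analyticAt_const.add analyticAt_id)
  · have h1 : Tendsto (fun y : ℂ => z + y) (𝓝 0) (𝓝 z) := by
      have h2 : Continuous fun y : ℂ => z + y := by fun_prop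
      have := h2.tendsto 0
      rwa [add_zero] at this
    exact (h1.eventually hopen).mono fun y hy => hK _ hy
  · have := deriv_comp_const_add φ z 0
    rw [add_zero] at this
    exact this

/-- the differential is bounded by the length of the vector, on bounded sets of `{H = 1}` -/
theorem isAlg_le {m : ℕ} (hm : 1 ≤ m) (θ : SymDiff (oc P H) m) (hθ : IsAlg θ) {B : ℝ} (hB : 0 ≤ B) :
    ∃ C : ℝ, 0 ≤ C ∧ ∀ x v, x ∈ oc P H → Tan (oc P H) x v → eval x.ofLp H = 1 → ‖x‖ ≤ B → ‖v‖ ≤ B → ‖θ.toFun x v‖ ≤ C * ‖v‖ := by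
  obtain ⟨W, r, hW⟩ := hθ
  have hcomp : IsCompact (closedBall (0 : EN N) B ×ˢ closedBall (0 : EN N) 1) := (isCompact_closedBall _ _).prod (isCompact_closedBall _ _)
  obtain ⟨A, hA⟩ := hcomp.exists_bound_of_continuousOn (continuous_elim W).continuousOn
  refine ⟨|A| * (1 + B) ^ (m - 1), by positivity, fun x v hx hv h1 hxB hvB => ?_⟩
  rcases eq_or_ne v 0 with hv0 | hv0
  · have h2 := θ.smul x v hv 0
    rw [zero_smul, zero_pow (by omega), zero_mul] at h2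
    rw [hv0, h2, norm_zero, norm_zero, mul_zero]
  have hn : 0 < ‖v‖ := norm_pos_iff.2 hv0
  have hnc : (‖v‖ : ℂ) ≠ 0 := by exact_mod_cast hn.ne'
  have hu : Tan (oc P H) x ((‖v‖ : ℂ)⁻¹ • v) := by
    obtain ⟨γ, ⟨h2, h3⟩, h4, h5⟩ := hv
    refine ⟨fun y => γ ((‖v‖ : ℂ)⁻¹ * y), ⟨?_, ?_⟩, ?_, ?_⟩
    · have h6 : AnalyticAt ℂ γ ((‖v‖ : ℂ)⁻¹ * 0) := by rwa [mul_zero]
      exact h6.comp (analyticAt_const.mul analyticAt_id)
    · have h6 : Tendsto (fun y : ℂ => (‖v‖ : ℂ)⁻¹ * y) (𝓝 0) (𝓝 0) := by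
        have h7 : Continuous fun y : ℂ => (‖v‖ : ℂ)⁻¹ * y := by fun_prop
        have := h7.tendsto 0
        rwa [mul_zero] at this
      exact h6.eventually h3
    · show γ ((‖v‖ : ℂ)⁻¹ * 0) = x
      rw [mul_zero, h4]
    · have h6 := deriv_comp_mul_left (‖v‖ : ℂ)⁻¹ γ 0
      rw [mul_zero, h5] at h6
      exact h6
  have h2 := hW x hx _ hu
  rw [h1, one_pow, mul_one] at h2
  have hun : ‖(‖v‖ : ℂ)⁻¹ • v‖ = 1 := by
    rw [norm_smul, norm_inv, Complex.norm_real, norm_norm, inv_mul_cancel₀ hn.ne']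
  have h3 : ‖θ.toFun x ((‖v‖ : ℂ)⁻¹ • v)‖ ≤ |A| := by
    rw [h2]
    refine (hA (x, (‖v‖ : ℂ)⁻¹ • v) ⟨by simpa using hxB, by simp [hun]⟩).trans (le_abs_self A)
  have h4 := θ.smul x _ hu (‖v‖ : ℂ)
  rw [smul_smul, mul_inv_cancel₀ hnc, one_smul] at h4
  rw [h4, norm_mul, norm_pow, Complex.norm_real, norm_norm]
  obtain ⟨k, rfl⟩ : ∃ k, m = k + 1 := ⟨m - 1, by omega⟩
  have h5 : ‖v‖ ^ k ≤ (1 + B) ^ k := pow_le_pow_left₀ hn.le (by linarith) k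
  calc ‖v‖ ^ (k + 1) * ‖θ.toFun x ((‖v‖ : ℂ)⁻¹ • v)‖ ≤ ‖v‖ ^ (k + 1) * |A| := mul_le_mul_of_nonneg_left h3 (by positivity)
    _ = ‖v‖ ^ k * (|A| * ‖v‖) := by ring
    _ ≤ (1 + B) ^ k * (|A| * ‖v‖) := mul_le_mul_of_nonneg_right h5 (by positivity)
    _ = |A| * (1 + B) ^ (k + 1 - 1) * ‖v‖ := by rw [Nat.add_sub_cancel]; ring

/-- on bounded sets of `{H = 1}` the equations of `Z` are bounded by the size of `eqT` -/
theorem eqT_bound (hP : Homog P) (hH : H.IsHomogeneous h) (h1 : 1 ≤ h) {mΩ jΩ r t : ℕ} {Ω : Fin r → EN N → EN N → EN N → ℂ}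
    {Q : Fin r → MvPolynomial (Fin (N + 1)) ℂ} (hΩ : LogAmple P H mΩ jΩ Ω Q) (R : Fin t → MvPolynomial (Fin (N + 1)) ℂ)
    (D : ℕ) {B : ℝ} (hB : 0 ≤ B) :
    ∃ A : ℝ, 0 ≤ A ∧ ∀ (x : EN N) (ε : ℝ), x ∈ oc P H → eval x.ofLp H = 1 → ‖x‖ ≤ B → rhoS (eqT H R Q) D x ≤ ε → ∀ l, ‖eval x.ofLp (R l)‖ ≤ A * ε := by
  have hH0 : eval (0 : EN N).ofLp H = 0 := by
    have h2 := Pool.Agent.H14.PP.eval_smulEN hH 0 (0 : EN N)
    rwa [zero_smul, zero_pow (by omega), zero_mul] at h2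
  have hcont : ∀ Q : MvPolynomial (Fin (N + 1)) ℂ, Continuous fun y : EN N => eval y.ofLp Q := fun Q => (differentiable_evalEN Q).continuous
  set Z : Set (EN N) := {x | (∀ G ∈ P, eval x.ofLp G = 0) ∧ eval x.ofLp H = 1 ∧ ‖x‖ ≤ B} with hZ
  have hZc : IsCompact Z := by
    have h2 : IsClosed Z := by
      have h3 : Z = (⋂ G ∈ P, {x : EN N | eval x.ofLp G = 0}) ∩ ({x : EN N | eval x.ofLp H = 1} ∩ {x : EN N | ‖x‖ ≤ B}) := by
        ext x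
        simp [hZ]
      rw [h3]
      refine IsClosed.inter (isClosed_biInter fun G _ => isClosed_eq (hcont G) continuous_const) ?_
      exact IsClosed.inter (isClosed_eq (hcont H) continuous_const) (isClosed_le continuous_norm continuous_const)
    refine (isCompact_closedBall (0 : EN N) B).of_isClosed_subset h2 fun x hx => ?_
    simpa using hx.2.2
  have hZo : ∀ x ∈ Z, x ∈ oc P H := by
    intro x hx
    refine ⟨⟨fun h2 => ?_, hx.1⟩, fun _ => ?_⟩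
    · have h3 : x = 0 := (Pool.Agent.H17EF.LE N).symm.injective (by rw [h2, map_zero])
      have h4 := hx.2.1
      rw [h3, hH0] at h4
      exact zero_ne_one h4
    · rw [hx.2.1]
      exact one_ne_zero
  have hcs : Continuous fun x : EN N => ∑ a, ‖eval x.ofLp (Q a)‖ := continuous_finsetSum _ fun a _ => (hcont (Q a)).norm
  obtain ⟨c₀, hc₀, hc₀'⟩ : ∃ c₀ : ℝ, 0 < c₀ ∧ ∀ x ∈ Z, c₀ ≤ ∑ a, ‖eval x.ofLp (Q a)‖ := by
    rcases Z.eq_empty_or_nonempty with h2 | h2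
    · exact ⟨1, one_pos, fun x hx => absurd (h2 ▸ hx) (Set.notMem_empty x)⟩
    · obtain ⟨x₀, hx₀, h3⟩ := hZc.exists_isMinOn h2 hcs.continuousOn
      refine ⟨∑ a, ‖eval x₀.ofLp (Q a)‖, ?_, fun x hx => h3 hx⟩
      obtain ⟨a, ha⟩ := hΩ.cover x₀ (hZo x₀ hx₀)
      exact Finset.sum_pos' (fun _ _ => norm_nonneg _) ⟨a, Finset.mem_univ a, norm_pos_iff.2 ha⟩
  refine ⟨r * B ^ D / c₀, by positivity, fun x ε hx hHx hxB hε l => ?_⟩
  have hxZ : x ∈ Z := ⟨hx.1.2, hHx, hxB⟩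
  have hx0 : 0 < ‖x‖ := by
    rw [norm_pos_iff]
    rintro rfl
    rw [hH0] at hHx
    exact zero_ne_one hHx
  have h2 : ∀ a, ‖eval x.ofLp (R l)‖ * ‖eval x.ofLp (Q a)‖ ≤ B ^ D * ε := by
    intro a
    have h3 : ‖eqT H R Q (l, a) x‖ ≤ ‖fun i => eqT H R Q i x‖ := norm_le_pi_norm (fun i => eqT H R Q i x) (l, a)
    have h4 : eqT H R Q (l, a) x = eval x.ofLp (R l) * eval x.ofLp (Q a) := by
      show eval x.ofLp (R l * Q a * H) = _
      rw [map_mul, map_mul, hHx, mul_one]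
    rw [h4, norm_mul] at h3
    have h5 : ‖fun i => eqT H R Q i x‖ ≤ ε * ‖x‖ ^ D := by
      have h6 : rhoS (eqT H R Q) D x = ‖fun i => eqT H R Q i x‖ / ‖x‖ ^ D := rfl
      rw [h6, div_le_iff₀ (by positivity)] at hε
      exact hε
    have hε0 : 0 ≤ ε := by
      have h6 : 0 ≤ rhoS (eqT H R Q) D x := Pool.Agent.H14.KB.rhoS_nonneg _ _ _
      linarith
    calc ‖eval x.ofLp (R l)‖ * ‖eval x.ofLp (Q a)‖ ≤ ε * ‖x‖ ^ D := h3.trans h5
      _ ≤ ε * B ^ D := mul_le_mul_of_nonneg_left (pow_le_pow_left₀ hx0.le hxB D) hε0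
      _ = B ^ D * ε := mul_comm _ _
  have h3 : ‖eval x.ofLp (R l)‖ * c₀ ≤ r * (B ^ D * ε) := by
    calc ‖eval x.ofLp (R l)‖ * c₀ ≤ ‖eval x.ofLp (R l)‖ * ∑ a, ‖eval x.ofLp (Q a)‖ := mul_le_mul_of_nonneg_left (hc₀' x hxZ) (norm_nonneg _)
      _ = ∑ a, ‖eval x.ofLp (R l)‖ * ‖eval x.ofLp (Q a)‖ := Finset.mul_sum _ _ _
      _ ≤ ∑ _a : Fin r, B ^ D * ε := Finset.sum_le_sum fun a _ => h2 a
      _ = r * (B ^ D * ε) := by rw [Finset.sum_const, Finset.card_univ, Fintype.card_fin, nsmul_eq_mul]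
  rw [div_mul_eq_mul_div, le_div_iff₀ hc₀]
  linarith

/-- **The quantitative nullness of `Z`** (module H5), from `QnBound`. -/
theorem exists_qn_of_bound (hP : Homog P) (hH : H.IsHomogeneous h) (h1 : 1 ≤ h) {s : ℕ} {m : Fin s → ℕ}
    (hm : ∀ j, 1 ≤ m j) (θ : ∀ j, SymDiff (oc P H) (m j)) (hθ : ∀ j, IsAlg (θ j)) {mΩ jΩ r t : ℕ} {Ω : Fin r → EN N → EN N → EN N → ℂ}
    {Q : Fin r → MvPolynomial (Fin (N + 1)) ℂ} (hΩ : LogAmple P H mΩ jΩ Ω Q) {R : Fin t → MvPolynomial (Fin (N + 1)) ℂ}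
    (hb : ∀ B : ℝ, QnBound θ R B) (D : ℕ) (B : ℝ) :
    ∃ C α : ℝ, 0 ≤ C ∧ 0 < α ∧ ∀ (φ : ℂ → EN N) (q : Fin s → ℂ) (ε : ℝ), 0 < ε → ε ≤ 1 → DifferentiableOn ℂ φ (ball 0 1) →
      (∀ z ∈ ball (0 : ℂ) 1, φ z ∈ oc P H ∧ eval (φ z).ofLp H = 1 ∧ ‖φ z‖ ≤ B ∧ rhoS (eqT H R Q) D (φ z) ≤ ε) →
      (∀ j, ∀ z ∈ ball (0 : ℂ) 1, (θ j).toFun (φ z) (deriv φ z) = q j) → ∑ j, ‖q j‖ ^ ((m j : ℝ)⁻¹) ≤ C * ε ^ α := by
  obtain ⟨B', hB'0, hBB'⟩ : ∃ B' : ℝ, 0 ≤ B' ∧ B ≤ B' := ⟨|B|, abs_nonneg _, le_abs_self _⟩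
  obtain ⟨A, hA, hAb⟩ := eqT_bound hP hH h1 hΩ R D hB'0
  obtain ⟨n, F, C₂, hn, hC₂, hqb⟩ := hb (8 * B')
  have hC₁ : ∀ j, ∃ C : ℝ, 0 ≤ C ∧ ∀ x v, x ∈ oc P H → Tan (oc P H) x v → eval x.ofLp H = 1 → ‖x‖ ≤ 8 * B' → ‖v‖ ≤ 8 * B' →
      ‖(θ j).toFun x v‖ ≤ C * ‖v‖ := fun j => isAlg_le (hm j) (θ j) (hθ j) (by positivity)
  choose C₁ hC₁0 hC₁ using hC₁
  obtain ⟨K, hK0, hK⟩ : ∃ K : ℝ, 0 ≤ K ∧ ∀ j, C₁ j ≤ K :=
    ⟨∑ j, C₁ j, Finset.sum_nonneg fun j _ => hC₁0 j, fun j => Finset.single_le_sum (fun j _ => hC₁0 j) (Finset.mem_univ j)⟩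
  obtain ⟨δ₀, hδ0, hδ1, hδ⟩ := Qn.exists_sep F
  have hc : 0 ≤ 1 + C₂ * (8 * A) + 16 * K * (B' + 1) / δ₀ := by positivity
  have hn0 : (0 : ℝ) < n := by exact_mod_cast hn
  have hα : 0 < 1 / (2 * n * ((F.card : ℝ) + 1)) := by positivity
  obtain ⟨C', α', hC', hα', hfin⟩ := Qn.sum_root_le hm hc hα
  refine ⟨C', α', hC', hα', fun φ q ε hε hε1 hφ hφK hq => hfin q ε hε hε1 fun j => ?_⟩
  have hhalf : ball (0 : ℂ) (1 / 2) ⊆ ball 0 1 := ball_subset_ball (by norm_num)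
  have hφB : ∀ z ∈ ball (0 : ℂ) 1, ‖φ z‖ ≤ B' := fun z hz => (hφK z hz).2.2.1.trans hBB'
  have hRφ : ∀ l, ∀ z ∈ ball (0 : ℂ) 1, ‖eval (φ z).ofLp (R l)‖ ≤ A * ε :=
    fun l z hz => hAb (φ z) ε (hφK z hz).1 (hφK z hz).2.1 (hφB z hz) (hφK z hz).2.2.2 l
  have hder : ∀ (G : MvPolynomial (Fin (N + 1)) ℂ), ∀ z ∈ ball (0 : ℂ) 1,
      fderiv ℂ (fun y : EN N => eval y.ofLp G) (φ z) (deriv φ z) = deriv (fun w => eval (φ w).ofLp G) z := by
    intro G z hz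
    have h2 : DifferentiableAt ℂ φ z := (hφ z hz).differentiableAt (isOpen_ball.mem_nhds hz)
    have h3 := (differentiable_evalEN G (φ z)).hasFDerivAt.comp_hasDerivAt z h2.hasDerivAt
    exact h3.deriv.symm
  have hdφ : ∀ z ∈ ball (0 : ℂ) (1 / 2), ‖deriv φ z‖ ≤ 8 * B' := fun z hz =>
    Qn.norm_deriv_le hφ (fun w hw => hφB w (ball_subset_ball (by norm_num) hw)) hz
  have hT : ∀ z ∈ ball (0 : ℂ) 1, Tan (oc P H) (φ z) (deriv φ z) := fun z hz => tan_of_disc hφ (fun w hw => (hφK w hw).1) hz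
  refine Qn.bound_of (w := fun x v => (θ j).toFun x v) hφ hn hB'0 hK0 (by positivity) hε hε1 hδ0 hδ1 hδ hφB (fun z hz => ?_)
    (fun z hz => hq j z (hhalf hz)) fun z hz => ?_
  · refine (hC₁ j _ _ (hφK z (hhalf hz)).1 (hT z (hhalf hz)) (hφK z (hhalf hz)).2.1 ?_ (hdφ z hz)).trans
      (mul_le_mul_of_nonneg_right (hK j) (norm_nonneg _))
    have := hφB z (hhalf hz)
    linarith
  · have h2 := hqb j (φ z) (deriv φ z) (hφK z (hhalf hz)).1 (hT z (hhalf hz)) (hφK z (hhalf hz)).2.1 (by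
        rw [hder H z (hhalf hz)]
        have h3 : (fun w => eval (φ w).ofLp H) =ᶠ[𝓝 z] fun _ => (1 : ℂ) :=
          Filter.eventually_of_mem (isOpen_ball.mem_nhds (hhalf hz)) fun w hw => (hφK w hw).2.1
        rw [h3.deriv_eq, deriv_const]) (by
        have := hφB z (hhalf hz)
        linarith) (hdφ z hz) (8 * (A * ε)) (by positivity) (fun l => ?_) fun l => ?_
    · rw [show C₂ * (8 * A) * ε = C₂ * (8 * (A * ε)) by ring]
      exact h2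
    · have h3 := hRφ l z (hhalf hz)
      have h4 : 0 ≤ A * ε := by positivity
      linarith
    · rw [hder (R l) z (hhalf hz)]
      have h3 : DifferentiableOn ℂ (fun w => eval (φ w).ofLp (R l)) (ball 0 1) := (differentiable_evalEN (R l)).comp_differentiableOn hφ
      exact Qn.norm_deriv_le h3 (fun w hw => hRφ l w (ball_subset_ball (by norm_num) hw)) hz

end Pool.Agent.SR2
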