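import Pool.Agent.TG.Rm
import Pool.Agent.SY.NBa
import Mathlib.LinearAlgebra.Lagrange
import Mathlib.Analysis.Complex.Liouville

/-!
# SR2 ResA: local expansion of a logarithmic symmetric differential at a point of the boundary

`W (s, τ)` is the value at the point with the coordinates `s` on the tangent vector `τ`; the axis `s₁ = 0` is in the boundary if `b₁ = true`.
-/

set_option autoImplicit false

open Topology Filter Metric

noncomputable section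

namespace Pool.Agent.SR2

/-- the local equation of a coordinate axis, or `1` -/
def gg (b : Bool) (z : ℂ) : ℂ := if b = true then z else 1

theorem gg_true (z : ℂ) : gg true z = z := rfl

theorem gg_false (z : ℂ) : gg false z = 1 := rfl

theorem gg_an (b : Bool) (z : ℂ) : AnalyticAt ℂ (gg b) z := by
  cases b
  · exact analyticAt_const
  · exact analyticAt_id

theorem iteratedDeriv_eval (p : Polynomial ℂ) (n : ℕ) : iteratedDeriv n (fun z => p.eval z) = fun z => (Polynomial.derivative^[n] p).eval z := by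
  induction n with
  | zero => simp
  | succ n ih =>
    rw [iteratedDeriv_succ, ih]
    funext z
    rw [Polynomial.deriv, Function.iterate_succ_apply']

/-- an entire function of growth `(1 + |t|) ^ m` is its interpolation polynomial of degree `m` -/
theorem interp {f : ℂ → ℂ} {m : ℕ} {C : ℝ} (hf : Differentiable ℂ f) (hb : ∀ t, ‖f t‖ ≤ C * (1 + ‖t‖) ^ m) (t : ℂ) :
    f t = ∑ k ∈ Finset.range (m + 1), (∑ j ∈ Finset.range (m + 1), f j *
      (Lagrange.basis (Finset.range (m + 1)) (fun i : ℕ => (i : ℂ)) j).coeff k) * t ^ k := by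
  obtain ⟨p, hp⟩ := Pool.Agent.SY.exists_poly_of_growth m f C hf hb
  have hC : 0 ≤ C := by
    have := (norm_nonneg _).trans (hb 0)
    simpa using this
  -- the degree
  have hcoeff : ∀ n, m < n → p.coeff n = 0 := by
    intro n hn
    have h1 : iteratedDeriv n f 0 = n.factorial * p.coeff n := by
      have : f = fun z => p.eval z := funext hp
      rw [this, iteratedDeriv_eval]
      show (Polynomial.derivative^[n] p).eval 0 = _
      have h2 := Polynomial.coeff_iterate_derivative (k := n) (p := p) 0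
      rw [← Polynomial.coeff_zero_eq_eval_zero, h2]
      simp [Nat.descFactorial_self]
    have h3 : ∀ R : ℝ, 1 ≤ R → ‖p.coeff n‖ ≤ C * 2 ^ m / R := by
      intro R hR
      have hR0 : 0 < R := by linarith
      have h4 := Complex.norm_iteratedDeriv_le_of_forall_mem_sphere_norm_le n hR0 (c := (0 : ℂ)) (f := f) (C := C * (1 + R) ^ m) hf.diffContOnCl
        (by
          intro z hz
          have : ‖z‖ = R := by simpa using hz
          rw [← this]
          exact hb z)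
      rw [h1, norm_mul, Complex.norm_natCast] at h4
      have hfac : (0 : ℝ) < n.factorial := by positivity
      have h5 : ‖p.coeff n‖ ≤ C * (1 + R) ^ m / R ^ n := by
        have : (n.factorial : ℝ) * ‖p.coeff n‖ ≤ n.factorial * (C * (1 + R) ^ m / R ^ n) := by
          refine h4.trans (le_of_eq ?_)
          ring
        exact le_of_mul_le_mul_left this hfac
      refine h5.trans ?_
      have h6 : (1 + R) ^ m ≤ 2 ^ m * R ^ m := by
        rw [← mul_pow]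
        exact pow_le_pow_left₀ (by positivity) (by linarith) m
      have h7 : R ^ (m + 1) ≤ R ^ n := pow_le_pow_right₀ hR hn
      rw [div_le_div_iff₀ (by positivity) hR0]
      calc C * (1 + R) ^ m * R ≤ C * (2 ^ m * R ^ m) * R := by gcongr
        _ = C * 2 ^ m * R ^ (m + 1) := by ring
        _ ≤ C * 2 ^ m * R ^ n := by gcongr
    have h8 : ‖p.coeff n‖ ≤ 0 := by
      have h9 : Tendsto (fun R : ℝ => C * 2 ^ m / R) atTop (𝓝 0) := tendsto_const_nhds.div_atTop tendsto_id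
      exact ge_of_tendsto h9 ((eventually_ge_atTop 1).mono h3)
    exact norm_le_zero_iff.mp h8
  have hdeg : p.degree < (Finset.range (m + 1)).card := by
    rw [Finset.card_range, Polynomial.degree_lt_iff_coeff_zero]
    intro n hn
    exact hcoeff n (by omega)
  have hinj : Set.InjOn (fun i : ℕ => (i : ℂ)) (Finset.range (m + 1)) := fun a _ b _ h => by simpa using h
  have hL := Lagrange.eq_interpolate hinj hdeg
  have hc : ∀ k, p.coeff k = ∑ j ∈ Finset.range (m + 1), f j * (Lagrange.basis (Finset.range (m + 1)) (fun i : ℕ => (i : ℂ)) j).coeff k := by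
    intro k
    conv_lhs => rw [hL]
    rw [Lagrange.interpolate_apply, Polynomial.finsetSum_coeff]
    refine Finset.sum_congr rfl fun j _ => ?_
    rw [Polynomial.coeff_C_mul, hp]
  rw [hp, Polynomial.eval_eq_sum_range' (n := m + 1)]
  · exact Finset.sum_congr rfl fun k _ => by rw [hc]
  · rw [Nat.lt_succ_iff, Polynomial.natDegree_le_iff_coeff_eq_zero]
    intro n hn
    exact hcoeff n hn

theorem gg_ne (b₁ b₂ : Bool) : ¬ ∀ᶠ s in 𝓝 (0 : ℂ × ℂ), gg b₁ s.1 * gg b₂ s.2 = 0 := by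
  intro h
  have h1 : Tendsto (fun t : ℂ => ((t, t) : ℂ × ℂ)) (𝓝[≠] 0) (𝓝 (0 : ℂ × ℂ)) := by
    have : ContinuousAt (fun t : ℂ => ((t, t) : ℂ × ℂ)) 0 := by fun_prop
    exact (this.tendsto.mono_left nhdsWithin_le_nhds)
  obtain ⟨t, ht, ht0⟩ := ((h1.eventually h).and self_mem_nhdsWithin).exists
  have ht0 : t ≠ 0 := ht0
  cases b₁ <;> cases b₂ <;> simp [gg, ht0] at ht

/-- **Local expansion.** -/
theorem res_local {W : ℂ × ℂ → ℂ × ℂ → ℂ} {m : ℕ} {b₁ b₂ : Bool} {C : ℝ}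
    (han : ∀ᶠ s in 𝓝 (0 : ℂ × ℂ), gg b₁ s.1 * gg b₂ s.2 ≠ 0 → ∀ τ, AnalyticAt ℂ (fun q : (ℂ × ℂ) × (ℂ × ℂ) => W q.1 q.2) (s, τ))
    (hhom : ∀ᶠ s in 𝓝 (0 : ℂ × ℂ), gg b₁ s.1 * gg b₂ s.2 ≠ 0 → ∀ (τ : ℂ × ℂ) (c : ℂ), W s (c • τ) = c ^ m * W s τ)
    (hb : ∀ᶠ s in 𝓝 (0 : ℂ × ℂ), gg b₁ s.1 * gg b₂ s.2 ≠ 0 → ∀ τ : ℂ × ℂ,
      ‖W s τ‖ ≤ C * (‖τ.1 / gg b₁ s.1‖ + ‖τ.2 / gg b₂ s.2‖) ^ m) :
    ∃ a : ℕ → ℂ × ℂ → ℂ, (∀ k, AnalyticAt ℂ (a k) 0) ∧ ∀ᶠ s in 𝓝 (0 : ℂ × ℂ), gg b₁ s.1 * gg b₂ s.2 ≠ 0 → ∀ τ : ℂ × ℂ,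
      W s τ = ∑ k ∈ Finset.range (m + 1), a k s * (τ.1 / gg b₁ s.1) ^ k * (τ.2 / gg b₂ s.2) ^ (m - k) := by
  classical
  set L : ℕ → ℕ → ℂ := fun j k => (Lagrange.basis (Finset.range (m + 1)) (fun i : ℕ => (i : ℂ)) j).coeff k with hL
  set A : ℕ → ℂ × ℂ → ℂ := fun k s => ∑ j ∈ Finset.range (m + 1), W s (gg b₁ s.1 * j, gg b₂ s.2) * L j k with hA
  have h1an : ∀ s : ℂ × ℂ, AnalyticAt ℂ (fun s : ℂ × ℂ => gg b₁ s.1) s := fun s => (gg_an b₁ s.1).fun_comp analyticAt_fst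
  have h2an : ∀ s : ℂ × ℂ, AnalyticAt ℂ (fun s : ℂ × ℂ => gg b₂ s.2) s := fun s => (gg_an b₂ s.2).fun_comp analyticAt_snd
  have hhan : AnalyticAt ℂ (fun s : ℂ × ℂ => gg b₁ s.1 * gg b₂ s.2) 0 := (h1an 0).mul (h2an 0)
  have hAan : ∀ k, ∀ᶠ s in 𝓝 (0 : ℂ × ℂ), gg b₁ s.1 * gg b₂ s.2 ≠ 0 → AnalyticAt ℂ (A k) s := by
    intro k
    filter_upwards [han] with s hs h0
    refine Finset.analyticAt_fun_sum _ fun j _ => AnalyticAt.mul ?_ analyticAt_const
    have h3 : AnalyticAt ℂ (fun s : ℂ × ℂ => ((s, (gg b₁ s.1 * j, gg b₂ s.2)) : (ℂ × ℂ) × (ℂ × ℂ))) s :=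
      analyticAt_id.prod (((h1an s).mul analyticAt_const).prod (h2an s))
    exact AnalyticAt.fun_comp (f := fun s : ℂ × ℂ => ((s, (gg b₁ s.1 * j, gg b₂ s.2)) : (ℂ × ℂ) × (ℂ × ℂ))) (hs h0 _) h3
  have hAb : ∀ k, ∀ᶠ s in 𝓝 (0 : ℂ × ℂ), gg b₁ s.1 * gg b₂ s.2 ≠ 0 → ‖A k s‖ ≤ ∑ j ∈ Finset.range (m + 1), C * ((j : ℝ) + 1) ^ m * ‖L j k‖ := by
    intro k
    filter_upwards [hb] with s hs h0
    refine (norm_sum_le _ _).trans (Finset.sum_le_sum fun j _ => ?_)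
    rw [norm_mul]
    refine mul_le_mul_of_nonneg_right ?_ (norm_nonneg _)
    refine (hs h0 _).trans (le_of_eq ?_)
    obtain ⟨g1, g2⟩ := mul_ne_zero_iff.mp h0
    simp only
    rw [mul_div_cancel_left₀ _ g1, div_self g2, norm_one, Complex.norm_natCast]
  have hφ : ∀ k, ∃ φ : ℂ × ℂ → ℂ, AnalyticAt ℂ φ 0 ∧ ∀ᶠ s in 𝓝 (0 : ℂ × ℂ), gg b₁ s.1 * gg b₂ s.2 ≠ 0 → φ s = A k s := fun k =>
    Pool.Agent.TG.riemann_one hhan (gg_ne b₁ b₂) (hAan k) (hAb k)
  choose a ha1 ha2 using hφ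
  refine ⟨a, ha1, ?_⟩
  have hall : ∀ᶠ s in 𝓝 (0 : ℂ × ℂ), ∀ k ∈ Finset.range (m + 1), gg b₁ s.1 * gg b₂ s.2 ≠ 0 → a k s = A k s := by
    rw [Filter.eventually_all_finset]
    exact fun k _ => ha2 k
  filter_upwards [han, hhom, hb, hall] with s h3 h4 h5 h6 h0
  obtain ⟨g1, g2⟩ := mul_ne_zero_iff.mp h0
  have h7 : ∀ k ∈ Finset.range (m + 1), a k s = A k s := fun k hk => h6 k hk h0
  -- the one variable identity
  have hent : Differentiable ℂ fun t : ℂ => W s (gg b₁ s.1 * t, gg b₂ s.2) := by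
    intro t
    have h8 : AnalyticAt ℂ (fun t : ℂ => ((s, (gg b₁ s.1 * t, gg b₂ s.2)) : (ℂ × ℂ) × (ℂ × ℂ))) t :=
      analyticAt_const.prod ((analyticAt_const.mul analyticAt_id).prod analyticAt_const)
    exact (AnalyticAt.fun_comp (f := fun t : ℂ => ((s, (gg b₁ s.1 * t, gg b₂ s.2)) : (ℂ × ℂ) × (ℂ × ℂ))) (h3 h0 _) h8).differentiableAt
  have hgr : ∀ t : ℂ, ‖W s (gg b₁ s.1 * t, gg b₂ s.2)‖ ≤ C * (1 + ‖t‖) ^ m := by
    intro t
    refine (h5 h0 _).trans (le_of_eq ?_)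
    simp only
    rw [mul_div_cancel_left₀ _ g1, div_self g2, norm_one, add_comm]
  have hint : ∀ t : ℂ, W s (gg b₁ s.1 * t, gg b₂ s.2) = ∑ k ∈ Finset.range (m + 1), a k s * t ^ k := by
    intro t
    rw [interp hent hgr t]
    refine Finset.sum_congr rfl fun k hk => ?_
    rw [h7 k hk]
  have key : ∀ τ : ℂ × ℂ, τ.2 ≠ 0 → W s τ = ∑ k ∈ Finset.range (m + 1), a k s * (τ.1 / gg b₁ s.1) ^ k * (τ.2 / gg b₂ s.2) ^ (m - k) := by
    intro τ hτ
    set u₁ := τ.1 / gg b₁ s.1 with hu1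
    set u₂ := τ.2 / gg b₂ s.2 with hu2
    have hu2' : u₂ ≠ 0 := div_ne_zero hτ g2
    clear_value u₁ u₂
    have h9 : τ = u₂ • ((gg b₁ s.1 * (u₁ / u₂), gg b₂ s.2) : ℂ × ℂ) := by
      refine Prod.ext ?_ ?_
      · show τ.1 = u₂ * (gg b₁ s.1 * (u₁ / u₂))
        rw [hu1]
        field_simp
      · show τ.2 = u₂ * gg b₂ s.2
        rw [hu2]
        field_simp
    have h9' : W s τ = u₂ ^ m * ∑ k ∈ Finset.range (m + 1), a k s * (u₁ / u₂) ^ k := by
      conv_lhs => rw [h9]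
      rw [h4 h0, hint]
    rw [h9', Finset.mul_sum]
    refine Finset.sum_congr rfl fun k hk => ?_
    have hk' : k ≤ m := by simpa [Nat.lt_succ_iff] using hk
    have h10 : u₂ ^ m = u₂ ^ k * u₂ ^ (m - k) := by rw [← pow_add]; congr 1; omega
    rw [div_pow, h10]
    field_simp
  intro τ
  by_cases hτ : τ.2 = 0
  · have h11 : Tendsto (fun e : ℂ => ((τ.1, e) : ℂ × ℂ)) (𝓝[≠] 0) (𝓝 τ) := by
      have h12 : ContinuousAt (fun e : ℂ => ((τ.1, e) : ℂ × ℂ)) 0 := by fun_prop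
      have h13 : ((τ.1, (0 : ℂ)) : ℂ × ℂ) = τ := Prod.ext rfl hτ.symm
      have h14 := h12.tendsto.mono_left (nhdsWithin_le_nhds (s := {(0 : ℂ)}ᶜ))
      rwa [h13] at h14
    have hWc : ContinuousAt (W s) τ := by
      have h15 : ContinuousAt (fun τ : ℂ × ℂ => ((s, τ) : (ℂ × ℂ) × (ℂ × ℂ))) τ := by fun_prop
      exact ContinuousAt.comp (f := fun τ : ℂ × ℂ => ((s, τ) : (ℂ × ℂ) × (ℂ × ℂ))) (h3 h0 τ).continuousAt h15
    have h16 := hWc.tendsto.comp h11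
    have hRc : ContinuousAt (fun τ : ℂ × ℂ => ∑ k ∈ Finset.range (m + 1), a k s * (τ.1 / gg b₁ s.1) ^ k * (τ.2 / gg b₂ s.2) ^ (m - k)) τ := by
      fun_prop
    have h17 := hRc.tendsto.comp h11
    refine tendsto_nhds_unique h16 (h17.congr' ?_)
    filter_upwards [self_mem_nhdsWithin] with e he
    exact (key (τ.1, e) he).symm
  · exact key τ hτ

end Pool.Agent.SR2
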