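import Pool.Agent.SR2.RsDefs
import Pool.Agent.E2.Bd

/-!
# SR2 RsC2: the length and the logarithmic differentials in an adapted chart

If `vec (E i) (σ y) = κ y • e y`, then `ellE (E i) = dκ / κ + ⟨e, de⟩ / |e|² - c ⟨σ, dσ⟩ / |σ|²`.
-/

set_option autoImplicit false

open Topology Filter Metric MvPolynomial

noncomputable section

namespace Pool.Agent.SR2

open Pool.Agent.H36.BP (EN fs wd wd_le wd_nonneg)
open Pool.Agent.H17BP (Surface IsChart)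
open Pool.Agent.H17EF (coneE)

variable {N k M : ℕ}

/-- the logarithmic derivative of a function without zeros -/
private theorem log_bd {W : Type*} [NormedAddCommGroup W] [NormedSpace ℂ W] [CompleteSpace W] {f : ℂ × ℂ → W} (hf : AnalyticAt ℂ f 0) (h0 : f 0 ≠ 0) :
    ∃ C : ℝ, 0 ≤ C ∧ ∀ᶠ y in 𝓝 (0 : ℂ × ℂ), f y ≠ 0 ∧ ∀ t : ℂ × ℂ, ‖fderiv ℂ f y t‖ / ‖f y‖ ≤ C * ‖t‖ := by
  have h1 : ContinuousAt (fun y => ‖fderiv ℂ f y‖ / ‖f y‖) (0 : ℂ × ℂ) := by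
    have hd : ContinuousAt (fderiv ℂ f) 0 := hf.fderiv.continuousAt
    exact ContinuousAt.div hd.norm hf.continuousAt.norm (norm_ne_zero_iff.2 h0)
  refine ⟨‖fderiv ℂ f 0‖ / ‖f 0‖ + 1, by positivity, ?_⟩
  filter_upwards [h1.eventually_lt continuousAt_const (lt_add_one _), hf.continuousAt.eventually_ne h0] with y hy1 hy2
  refine ⟨hy2, fun t => ?_⟩
  have h3 : 0 < ‖f y‖ := norm_pos_iff.2 hy2
  calc ‖fderiv ℂ f y t‖ / ‖f y‖ ≤ ‖fderiv ℂ f y‖ * ‖t‖ / ‖f y‖ := by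
        gcongr
        exact ContinuousLinearMap.le_opNorm _ _
    _ = ‖fderiv ℂ f y‖ / ‖f y‖ * ‖t‖ := by ring
    _ ≤ _ := mul_le_mul_of_nonneg_right hy1.le (norm_nonneg _)

/-- the length in a chart -/
theorem fs_chart {X : Set (EN N)} {σ : ℂ × ℂ → EN N} {τ : EN N → ℂ × ℂ} (hσ : IsChart X σ τ) :
    ∃ C : ℝ, 0 ≤ C ∧ ∀ᶠ y in 𝓝 (0 : ℂ × ℂ), ∀ t : ℂ × ℂ, fs (σ y) (fderiv ℂ σ y t) ≤ C * ‖t‖ ∧ ‖t‖ ≤ C * fs (σ y) (fderiv ℂ σ y t) := by
  obtain ⟨C₁, hC₁, h1⟩ := log_bd hσ.σ_an hσ.ne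
  obtain ⟨K, hK, h2⟩ := Pool.Agent.E2.chart_lower hσ
  have h3 : ∀ᶠ y in 𝓝 (0 : ℂ × ℂ), ‖σ y‖ < ‖σ 0‖ + 1 := hσ.σ_an.continuousAt.norm.eventually_lt continuousAt_const (lt_add_one _)
  refine ⟨max C₁ (K * (‖σ 0‖ + 1)), le_max_of_le_left hC₁, ?_⟩
  filter_upwards [h1, h2, h3] with y hy1 hy2 hy3 t
  obtain ⟨hne, hy1⟩ := hy1
  have hpos : 0 < ‖σ y‖ := norm_pos_iff.2 hne
  constructor
  · calc fs (σ y) (fderiv ℂ σ y t) ≤ ‖σ y‖ * ‖fderiv ℂ σ y t‖ / ‖σ y‖ ^ 2 := by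
          unfold fs
          gcongr
          exact wd_le _ _
      _ = ‖fderiv ℂ σ y t‖ / ‖σ y‖ := by field_simp
      _ ≤ C₁ * ‖t‖ := hy1 t
      _ ≤ _ := mul_le_mul_of_nonneg_right (le_max_left _ _) (norm_nonneg _)
  · obtain ⟨a, ha⟩ := Pool.Agent.E2.exists_wd_eq hne (fderiv ℂ σ y t)
    calc ‖t‖ ≤ K * ‖fderiv ℂ σ y t + a • σ y‖ := hy2 t a
      _ = K * (‖σ y‖ * fs (σ y) (fderiv ℂ σ y t)) := by
          unfold fs
          rw [← ha]
          field_simp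
      _ ≤ K * ((‖σ 0‖ + 1) * fs (σ y) (fderiv ℂ σ y t)) := by
          have := Pool.Agent.H36.BP.fs_nonneg (σ y) (fderiv ℂ σ y t)
          gcongr
      _ = K * (‖σ 0‖ + 1) * fs (σ y) (fderiv ℂ σ y t) := by ring
      _ ≤ _ := mul_le_mul_of_nonneg_right (le_max_right _ _) (Pool.Agent.H36.BP.fs_nonneg _ _)

private theorem gg_fderiv (b : Bool) (l : ℂ × ℂ →L[ℂ] ℂ) (y : ℂ × ℂ) :
    HasFDerivAt (fun y : ℂ × ℂ => gg b (l y)) (if b = true then l else 0) y := by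
  cases b
  · simp only [gg_false]
    exact hasFDerivAt_const _ _
  · simp only [gg_true]
    exact l.hasFDerivAt

theorem differentiable_vec (E : Fin (M + 1) → MvPolynomial (Fin (N + 1)) ℂ) : Differentiable ℂ (vec E) := by
  have h1 : Differentiable ℂ fun x : EN N => fun l => eval x.ofLp (E l) := by
    rw [differentiable_pi]
    intro l
    have h2 : Differentiable ℂ fun x : Fin (N + 1) → ℂ => eval x (E l) := fun x =>
      ((AnalyticOnNhd.eval_mvPolynomial (𝕜 := ℂ) (E l)) x (Set.mem_univ _)).differentiableAt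
    exact h2.comp (PiLp.continuousLinearEquiv 2 ℂ (fun _ : Fin (N + 1) => ℂ)).differentiable
  exact (PiLp.continuousLinearEquiv 2 ℂ (fun _ : Fin (M + 1) => ℂ)).symm.differentiable.comp h1

variable {P : Ideal (MvPolynomial (Fin (N + 1)) ℂ)} {H : MvPolynomial (Fin (N + 1)) ℂ} {E : Fin k → Fin (M + 1) → MvPolynomial (Fin (N + 1)) ℂ}
  {c : Fin k → ℕ} {σ : ℂ × ℂ → EN N} {τ : EN N → ℂ × ℂ} {o₁ o₂ : Option (Fin k)}

/-- the logarithmic differential of the equation of a component -/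
private theorem ell_chart (hL : LC P H E σ τ o₁ o₂) (i : Fin k) :
    ∃ C : ℝ, 0 ≤ C ∧ ∀ᶠ y in 𝓝 (0 : ℂ × ℂ), ∀ t : ℂ × ℂ, σ y ∈ oc P H → ‖ellE (E i) (c i) (σ y) (fderiv ℂ σ y t) - uu o₁ o₂ i y t‖ ≤ C * ‖t‖ := by
  classical
  obtain ⟨e, he, he0, hev⟩ := hL.eqs i
  obtain ⟨C₁, hC₁, h1⟩ := log_bd hL.chart.σ_an hL.chart.ne
  obtain ⟨C₂, hC₂, h2⟩ := log_bd he he0
  refine ⟨C₂ + c i * C₁, by positivity, ?_⟩
  filter_upwards [h1, h2, eventually_eventually_nhds.2 hev, hL.dom, hL.chart.σ_an.eventually_analyticAt, he.eventually_analyticAt]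
    with y hy1 hy2 hy3 hy4 hy5 hy6 t hoc
  obtain ⟨hσ0, hy1⟩ := hy1
  obtain ⟨he0, hy2⟩ := hy2
  rw [hy4] at hoc
  set b₁ : Bool := decide (o₁ = some i) with hb₁
  set b₂ : Bool := decide (o₂ = some i) with hb₂
  set κ : ℂ := gg b₁ y.1 * gg b₂ y.2 with hκ
  have hg₁ : gg b₁ y.1 ≠ 0 := by
    rw [hb₁]
    by_cases h : o₁ = some i
    · have h3 := left_ne_zero_of_mul hoc
      rw [h] at h3
      rw [decide_eq_true h]
      exact h3
    · rw [decide_eq_false h, gg_false]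
      exact one_ne_zero
  have hg₂ : gg b₂ y.2 ≠ 0 := by
    rw [hb₂]
    by_cases h : o₂ = some i
    · have h3 := right_ne_zero_of_mul hoc
      rw [h] at h3
      rw [decide_eq_true h]
      exact h3
    · rw [decide_eq_false h, gg_false]
      exact one_ne_zero
  have hκ0 : κ ≠ 0 := mul_ne_zero hg₁ hg₂
  -- the derivative of the equation
  have hd1 : HasFDerivAt (fun y : ℂ × ℂ => gg b₁ y.1) (if b₁ = true then ContinuousLinearMap.fst ℂ ℂ ℂ else 0) y := gg_fderiv b₁ (ContinuousLinearMap.fst ℂ ℂ ℂ) y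
  have hd2 : HasFDerivAt (fun y : ℂ × ℂ => gg b₂ y.2) (if b₂ = true then ContinuousLinearMap.snd ℂ ℂ ℂ else 0) y := gg_fderiv b₂ (ContinuousLinearMap.snd ℂ ℂ ℂ) y
  have hdk := hd1.fun_mul hd2
  obtain ⟨κ', hκ'⟩ : ∃ κ' : ℂ, κ' = gg b₁ y.1 * (if b₂ = true then t.2 else 0) + gg b₂ y.2 * (if b₁ = true then t.1 else 0) := ⟨_, rfl⟩
  have hvec : fderiv ℂ (vec (E i)) (σ y) (fderiv ℂ σ y t) = κ • fderiv ℂ e y t + κ' • e y := by
    have h3 : HasFDerivAt (fun y => vec (E i) (σ y)) ((fderiv ℂ (vec (E i)) (σ y)).comp (fderiv ℂ σ y)) y :=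
      (differentiable_vec (E i) (σ y)).hasFDerivAt.comp y hy5.differentiableAt.hasFDerivAt
    have h4 := hdk.fun_smul hy6.differentiableAt.hasFDerivAt
    have h5 : HasFDerivAt (fun y => vec (E i) (σ y)) _ y := h4.congr_of_eventuallyEq hy3
    have h6 := congrArg (fun L => L t) (h3.unique h5)
    simp only [ContinuousLinearMap.coe_comp, Function.comp_apply, add_apply, smul_apply,
      ContinuousLinearMap.smulRight_apply] at h6
    rw [h6, hκ']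
    congr 2
    cases b₁ <;> cases b₂ <;> simp
  have hnorm : ∀ v : EN M, v ≠ 0 → (‖v‖ : ℂ) ≠ 0 := fun v hv => by
    rw [Complex.ofReal_ne_zero]
    exact norm_ne_zero_iff.2 hv
  have hell : ellE (E i) (c i) (σ y) (fderiv ℂ σ y t) - uu o₁ o₂ i y t =
      inner ℂ (e y) (fderiv ℂ e y t) / (‖e y‖ : ℂ) ^ 2 - (c i : ℂ) * (inner ℂ (σ y) (fderiv ℂ σ y t) / (‖σ y‖ : ℂ) ^ 2) := by
    have h3 : inner ℂ (vec (E i) (σ y)) (fderiv ℂ (vec (E i)) (σ y) (fderiv ℂ σ y t)) / (‖vec (E i) (σ y)‖ : ℂ) ^ 2 =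
        κ' / κ + inner ℂ (e y) (fderiv ℂ e y t) / (‖e y‖ : ℂ) ^ 2 := by
      rw [hvec, hy3.self_of_nhds, inner_add_right, inner_smul_left, inner_smul_left, inner_smul_right, inner_smul_right, norm_smul,
        inner_self_eq_norm_sq_to_K]
      have h4 : ((‖κ‖ * ‖e y‖ : ℝ) : ℂ) ^ 2 = (starRingEnd ℂ) κ * κ * (‖e y‖ : ℂ) ^ 2 := by
        rw [← Complex.normSq_eq_conj_mul_self, Complex.normSq_eq_norm_sq]
        push_cast
        ring
      rw [h4]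
      have h5 : (starRingEnd ℂ) κ ≠ 0 := by
        rw [Ne, map_eq_zero]
        exact hκ0
      have h6 := hnorm (e y) he0
      simp only [RCLike.ofReal_eq_complex_ofReal]
      field_simp
      ring
    have h4 : κ' / κ = uu o₁ o₂ i y t := by
      unfold uu
      rw [hκ', hκ, hb₁, hb₂]
      rw [hb₁] at hg₁
      rw [hb₂] at hg₂
      by_cases ho₁ : o₁ = some i
      · by_cases ho₂ : o₂ = some i
        · simp only [ho₁, ho₂, decide_true, gg_true, if_true] at hg₁ hg₂ ⊢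
          field_simp
          ring
        · simp only [ho₁, ho₂, decide_true, decide_false, gg_true, gg_false, if_true, if_false] at hg₁ ⊢
          simp
      · by_cases ho₂ : o₂ = some i
        · simp only [ho₁, ho₂, decide_true, decide_false, gg_true, gg_false, if_true, if_false] at hg₂ ⊢
          simp
        · simp [ho₁, ho₂, gg]
    unfold ellE
    rw [h3, h4]
    ring
  rw [hell]
  have hb : ∀ {n : ℕ} (x v : EN n), ‖(inner ℂ x v : ℂ) / (‖x‖ : ℂ) ^ 2‖ ≤ ‖v‖ / ‖x‖ := by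
    intro n x v
    rw [norm_div, norm_pow, Complex.norm_real, norm_norm]
    by_cases hx : ‖x‖ = 0
    · rw [hx]
      simp
    · calc ‖(inner ℂ x v : ℂ)‖ / ‖x‖ ^ 2 ≤ ‖x‖ * ‖v‖ / ‖x‖ ^ 2 := by
            gcongr
            exact norm_inner_le_norm _ _
        _ = ‖v‖ / ‖x‖ := by field_simp
  calc ‖(inner ℂ (e y) (fderiv ℂ e y t) : ℂ) / (‖e y‖ : ℂ) ^ 2 - (c i : ℂ) * (inner ℂ (σ y) (fderiv ℂ σ y t) / (‖σ y‖ : ℂ) ^ 2)‖ ≤
      ‖(inner ℂ (e y) (fderiv ℂ e y t) : ℂ) / (‖e y‖ : ℂ) ^ 2‖ + ‖(c i : ℂ) * (inner ℂ (σ y) (fderiv ℂ σ y t) / (‖σ y‖ : ℂ) ^ 2)‖ := norm_sub_le _ _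
    _ ≤ C₂ * ‖t‖ + c i * (C₁ * ‖t‖) := by
      rw [norm_mul, Complex.norm_natCast]
      exact add_le_add ((hb _ _).trans (hy2 t)) (mul_le_mul_of_nonneg_left ((hb _ _).trans (hy1 t)) (Nat.cast_nonneg _))
    _ = (C₂ + c i * C₁) * ‖t‖ := by ring

/-- the length and the logarithmic differentials in the chart -/
theorem lc_est (_hE : ∀ i l, (E i l).IsHomogeneous (c i)) (hL : LC P H E σ τ o₁ o₂) :
    ∃ C : ℝ, 0 ≤ C ∧ ∀ᶠ y in 𝓝 (0 : ℂ × ℂ), ∀ t : ℂ × ℂ, fs (σ y) (fderiv ℂ σ y t) ≤ C * ‖t‖ ∧ ‖t‖ ≤ C * fs (σ y) (fderiv ℂ σ y t) ∧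
      (σ y ∈ oc P H → ∀ i, ‖ellE (E i) (c i) (σ y) (fderiv ℂ σ y t) - uu o₁ o₂ i y t‖ ≤ C * ‖t‖) := by
  obtain ⟨C₀, hC₀, h0⟩ := fs_chart hL.chart
  choose C hC h1 using fun i => ell_chart (c := c) hL i
  have hle : ∀ i, C i ≤ ∑ i, C i := fun i => Finset.single_le_sum (f := C) (fun i _ => hC i) (Finset.mem_univ i)
  have hs : 0 ≤ ∑ i, C i := Finset.sum_nonneg fun i _ => hC i
  refine ⟨C₀ + ∑ i, C i, by linarith, ?_⟩
  filter_upwards [h0, eventually_all.2 h1] with y hy1 hy2 t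
  refine ⟨(hy1 t).1.trans ?_, (hy1 t).2.trans ?_, fun hoc i => (hy2 i t hoc).trans ?_⟩
  · exact mul_le_mul_of_nonneg_right (by linarith) (norm_nonneg _)
  · exact mul_le_mul_of_nonneg_right (by linarith) (Pool.Agent.H36.BP.fs_nonneg _ _)
  · exact mul_le_mul_of_nonneg_right (by linarith [hle i]) (norm_nonneg _)

end Pool.Agent.SR2
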