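import Pool.Agent.SR2.RsDefs

/-!
# SR2 RsE: expansion of a symmetric differential with logarithmic poles in a chart
-/

set_option autoImplicit false

open Topology Filter Metric MvPolynomial

noncomputable section

namespace Pool.Agent.SR2

open Pool.Agent.H36.BP (EN fs)
open Pool.Agent.H17BP (Surface IsChart)
open Pool.Agent.H14.PP (IsCone Tan)
open Pool.Agent.H17EF (coneE)
open Pool.Agent.AD (SymDiff)

variable {N k M : ℕ} {P : Ideal (MvPolynomial (Fin (N + 1)) ℂ)} {H : MvPolynomial (Fin (N + 1)) ℂ}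
  {E : Fin k → Fin (M + 1) → MvPolynomial (Fin (N + 1)) ℂ} {c : Fin k → ℕ} {σ : ℂ × ℂ → EN N} {τ : EN N → ℂ × ℂ} {o₁ o₂ : Option (Fin k)}

theorem gg_prod_an (b₁ b₂ : Bool) (s : ℂ × ℂ) : AnalyticAt ℂ (fun s : ℂ × ℂ => gg b₁ s.1 * gg b₂ s.2) s :=
  ((gg_an b₁ s.1).fun_comp analyticAt_fst).mul ((gg_an b₂ s.2).fun_comp analyticAt_snd)

/-- the points near `0` off the axes have a neighbourhood in the open part -/
theorem lc_open (hL : LC P H E σ τ o₁ o₂) : ∀ᶠ s in 𝓝 (0 : ℂ × ℂ), gg o₁.isSome s.1 * gg o₂.isSome s.2 ≠ 0 →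
    ∀ᶠ y in 𝓝 s, AnalyticAt ℂ σ y ∧ σ y ∈ oc P H := by
  filter_upwards [eventually_eventually_nhds.mpr hL.dom, eventually_eventually_nhds.mpr hL.chart.σ_an.eventually_analyticAt] with s hs hs' h0
  filter_upwards [hs, hs', (gg_prod_an o₁.isSome o₂.isSome s).continuousAt.eventually_ne h0] with y h1 h2 h3
  exact ⟨h2, h1.mpr h3⟩

theorem tan_of_near {K : Set (EN N)} {s : ℂ × ℂ} (h : ∀ᶠ y in 𝓝 s, AnalyticAt ℂ σ y ∧ σ y ∈ K) (t : ℂ × ℂ) : Tan K (σ s) (fderiv ℂ σ s t) := by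
  have hc : Tendsto (fun z : ℂ => s + z • t) (𝓝 0) (𝓝 s) := by
    have : Continuous (fun z : ℂ => s + z • t) := by fun_prop
    have h1 := this.tendsto 0
    simpa using h1
  have h1 : AnalyticAt ℂ (fun z : ℂ => s + z • t) 0 := by fun_prop
  have h2 : AnalyticAt ℂ σ (s + (0 : ℂ) • t) := by
    rw [zero_smul, add_zero]
    exact h.self_of_nhds.1
  refine ⟨fun z => σ (s + z • t), ⟨AnalyticAt.fun_comp (g := σ) h2 h1, ?_⟩, by simp, ?_⟩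
  · filter_upwards [hc.eventually h] with z hz
    exact hz.2
  · have h3 : HasDerivAt (fun z : ℂ => s + z • t) t 0 := by
      have := ((hasDerivAt_id (0 : ℂ)).smul_const t).const_add s
      simpa using this
    have h4 : HasFDerivAt σ (fderiv ℂ σ s) (s + (0 : ℂ) • t) := by
      rw [zero_smul, add_zero]
      exact h.self_of_nhds.1.differentiableAt.hasFDerivAt
    exact (h4.comp_hasDerivAt (0 : ℂ) h3).deriv

theorem rs_tan_mono {K X : Set (EN N)} (h : K ⊆ X) {x v : EN N} (hv : Tan K x v) : Tan X x v := by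
  obtain ⟨F, ⟨h1, h2⟩, h3, h4⟩ := hv
  exact ⟨F, ⟨h1, h2.mono fun z hz => h hz⟩, h3, h4⟩

/-- the symmetric differential in the chart is analytic off the axes -/
theorem lc_an (hL : LC P H E σ τ o₁ o₂) {m : ℕ} (θ : SymDiff (oc P H) m) :
    ∀ᶠ s in 𝓝 (0 : ℂ × ℂ), gg o₁.isSome s.1 * gg o₂.isSome s.2 ≠ 0 → ∀ t,
      AnalyticAt ℂ (fun q : (ℂ × ℂ) × (ℂ × ℂ) => θ.toFun (σ q.1) (fderiv ℂ σ q.1 q.2)) (s, t) := by
  filter_upwards [lc_open hL] with s hs h0 t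
  have hs' := hs h0
  set e : (Fin 2 → ℂ) ≃L[ℂ] ℂ × ℂ := ContinuousLinearEquiv.finTwoArrow ℂ ℂ with he
  have h1 : AnalyticAt ℂ (fun y : Fin 2 → ℂ => σ (e y)) (e.symm s) := by
    have h2 : AnalyticAt ℂ σ (e (e.symm s)) := by
      rw [e.apply_symm_apply]
      exact hs'.self_of_nhds.1
    exact AnalyticAt.fun_comp (g := σ) h2 (e.toContinuousLinearMap.analyticAt _)
  have hte : Tendsto e (𝓝 (e.symm s)) (𝓝 s) := by
    have := e.continuous.tendsto (e.symm s)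
    rwa [e.apply_symm_apply] at this
  have h3 : ∀ᶠ y in 𝓝 (e.symm s), σ (e y) ∈ oc P H := (hte.eventually hs').mono fun y hy => hy.2
  have h4 := θ.analytic 2 (fun y => σ (e y)) (e.symm s) (e.symm t) h1 h3
  have h5 : AnalyticAt ℂ (fun q : (ℂ × ℂ) × (ℂ × ℂ) => ((e.symm q.1, e.symm q.2) : (Fin 2 → ℂ) × (Fin 2 → ℂ))) (s, t) :=
    ((e.symm.toContinuousLinearMap.analyticAt _).fun_comp analyticAt_fst).prod ((e.symm.toContinuousLinearMap.analyticAt _).fun_comp analyticAt_snd)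
  have h6 := AnalyticAt.fun_comp (g := fun y : (Fin 2 → ℂ) × (Fin 2 → ℂ) => θ.toFun (σ (e y.1)) (fderiv ℂ (fun y : Fin 2 → ℂ => σ (e y)) y.1 y.2))
    (f := fun q : (ℂ × ℂ) × (ℂ × ℂ) => ((e.symm q.1, e.symm q.2) : (Fin 2 → ℂ) × (Fin 2 → ℂ))) (x := (s, t)) h4 h5
  refine h6.congr ?_
  have h7 : ∀ᶠ q : (ℂ × ℂ) × (ℂ × ℂ) in 𝓝 (s, t), AnalyticAt ℂ σ q.1 := by
    have h8 : Tendsto (fun q : (ℂ × ℂ) × (ℂ × ℂ) => q.1) (𝓝 (s, t)) (𝓝 s) := continuous_fst.tendsto (s, t)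
    exact (h8.eventually hs').mono fun q hq => hq.1
  filter_upwards [h7] with q hq
  have h9 : fderiv ℂ (fun y : Fin 2 → ℂ => σ (e y)) (e.symm q.1) (e.symm q.2) = fderiv ℂ σ q.1 q.2 := by
    have h10 : HasFDerivAt σ (fderiv ℂ σ q.1) (e (e.symm q.1)) := by
      rw [e.apply_symm_apply]
      exact hq.differentiableAt.hasFDerivAt
    have h11 := h10.comp (e.symm q.1) e.hasFDerivAt
    have h12 : fderiv ℂ (fun y : Fin 2 → ℂ => σ (e y)) (e.symm q.1) = (fderiv ℂ σ q.1).comp (e : (Fin 2 → ℂ) →L[ℂ] ℂ × ℂ) := h11.fderiv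
    rw [h12]
    simp
  simp only [e.apply_symm_apply]
  rw [h9]

theorem norm_gg_le {b : Bool} {z t : ℂ} (hz : ‖z‖ ≤ 1) (h0 : gg b z ≠ 0) : ‖t‖ ≤ ‖t / gg b z‖ := by
  cases b
  · simp [gg]
  · rw [gg_true] at h0 ⊢
    rw [norm_div, le_div_iff₀ (norm_pos_iff.mpr h0)]
    nlinarith [norm_nonneg t, norm_nonneg z]

theorem norm_uu_le (o₁ o₂ : Option (Fin k)) (i : Fin k) (y t : ℂ × ℂ) : ‖uu o₁ o₂ i y t‖ ≤ ‖t.1 / gg o₁.isSome y.1‖ + ‖t.2 / gg o₂.isSome y.2‖ := by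
  unfold uu
  refine (norm_add_le _ _).trans (add_le_add ?_ ?_)
  · split_ifs with h
    · rw [h]
      simp [gg]
    · simp only [norm_zero]
      positivity
  · split_ifs with h
    · rw [h]
      simp [gg]
    · simp only [norm_zero]
      positivity

/-- the logarithmic length in the chart -/
theorem lc_logLen (hest : ∃ C : ℝ, 0 ≤ C ∧ ∀ᶠ y in 𝓝 (0 : ℂ × ℂ), ∀ t : ℂ × ℂ, fs (σ y) (fderiv ℂ σ y t) ≤ C * ‖t‖ ∧
      ‖t‖ ≤ C * fs (σ y) (fderiv ℂ σ y t) ∧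
      (σ y ∈ oc P H → ∀ i, ‖ellE (E i) (c i) (σ y) (fderiv ℂ σ y t) - uu o₁ o₂ i y t‖ ≤ C * ‖t‖)) (hL : LC P H E σ τ o₁ o₂) :
    ∃ C : ℝ, 0 ≤ C ∧ ∀ᶠ y in 𝓝 (0 : ℂ × ℂ), σ y ∈ oc P H → ∀ t : ℂ × ℂ,
      logLen E c (σ y) (fderiv ℂ σ y t) ≤ C * (‖t.1 / gg o₁.isSome y.1‖ + ‖t.2 / gg o₂.isSome y.2‖) := by
  obtain ⟨C, hC, h⟩ := hest
  refine ⟨C + k * (1 + C), by positivity, ?_⟩
  have hball : ∀ᶠ y in 𝓝 (0 : ℂ × ℂ), ‖y‖ < 1 := by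
    have : Tendsto (fun y : ℂ × ℂ => ‖y‖) (𝓝 0) (𝓝 0) := by
      have := continuous_norm.tendsto (0 : ℂ × ℂ)
      rwa [norm_zero] at this
    exact this.eventually_lt_const one_pos
  filter_upwards [h, hball, hL.dom] with y h1 h2 h3 hy t
  obtain ⟨g1, g2⟩ := mul_ne_zero_iff.mp (h3.mp hy)
  set u : ℝ := ‖t.1 / gg o₁.isSome y.1‖ + ‖t.2 / gg o₂.isSome y.2‖ with hu
  have h4 : ‖t‖ ≤ u := by
    have h5 : ‖t.1‖ ≤ ‖t.1 / gg o₁.isSome y.1‖ := norm_gg_le ((norm_fst_le y).trans h2.le) g1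
    have h6 : ‖t.2‖ ≤ ‖t.2 / gg o₂.isSome y.2‖ := norm_gg_le ((norm_snd_le y).trans h2.le) g2
    rw [Prod.norm_def]
    refine max_le ?_ ?_
    · linarith [norm_nonneg (t.2 / gg o₂.isSome y.2)]
    · linarith [norm_nonneg (t.1 / gg o₁.isSome y.1)]
  have h7 : ∀ i, ‖ellE (E i) (c i) (σ y) (fderiv ℂ σ y t)‖ ≤ (1 + C) * u := by
    intro i
    have h8 := (h1 t).2.2 hy i
    have h9 := norm_uu_le o₁ o₂ i y t
    have h10 : ‖ellE (E i) (c i) (σ y) (fderiv ℂ σ y t)‖ ≤ ‖ellE (E i) (c i) (σ y) (fderiv ℂ σ y t) - uu o₁ o₂ i y t‖ + ‖uu o₁ o₂ i y t‖ := by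
      have := norm_add_le (ellE (E i) (c i) (σ y) (fderiv ℂ σ y t) - uu o₁ o₂ i y t) (uu o₁ o₂ i y t)
      rwa [sub_add_cancel] at this
    have h11 : C * ‖t‖ ≤ C * u := mul_le_mul_of_nonneg_left h4 hC
    linarith
  unfold logLen
  have h12 : ∑ i, ‖ellE (E i) (c i) (σ y) (fderiv ℂ σ y t)‖ ≤ k * ((1 + C) * u) := by
    refine (Finset.sum_le_sum fun i _ => h7 i).trans ?_
    simp
  have h13 : C * ‖t‖ ≤ C * u := mul_le_mul_of_nonneg_left h4 hC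
  have h14 := (h1 t).1
  nlinarith

/-- the expansion -/
theorem lc_exp' (hest : ∃ C : ℝ, 0 ≤ C ∧ ∀ᶠ y in 𝓝 (0 : ℂ × ℂ), ∀ t : ℂ × ℂ, fs (σ y) (fderiv ℂ σ y t) ≤ C * ‖t‖ ∧
      ‖t‖ ≤ C * fs (σ y) (fderiv ℂ σ y t) ∧
      (σ y ∈ oc P H → ∀ i, ‖ellE (E i) (c i) (σ y) (fderiv ℂ σ y t) - uu o₁ o₂ i y t‖ ≤ C * ‖t‖)) (hL : LC P H E σ τ o₁ o₂) {m : ℕ}
    (θ : SymDiff (oc P H) m) (hθ : HasLogPoles E c θ) :
    ∃ a : ℕ → ℂ × ℂ → ℂ, (∀ k, AnalyticAt ℂ (a k) 0) ∧ ∀ᶠ y in 𝓝 (0 : ℂ × ℂ), σ y ∈ oc P H → ∀ t : ℂ × ℂ,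
      θ.toFun (σ y) (fderiv ℂ σ y t) =
        ∑ k ∈ Finset.range (m + 1), a k y * (t.1 / gg o₁.isSome y.1) ^ k * (t.2 / gg o₂.isSome y.2) ^ (m - k) := by
  obtain ⟨C₁, hC₁, h1⟩ := lc_logLen hest hL
  obtain ⟨C₂, hC₂, h2⟩ := hθ
  have hb : ∀ᶠ s in 𝓝 (0 : ℂ × ℂ), gg o₁.isSome s.1 * gg o₂.isSome s.2 ≠ 0 → ∀ t : ℂ × ℂ,
      ‖θ.toFun (σ s) (fderiv ℂ σ s t)‖ ≤ (C₂ * C₁ ^ m) * (‖t.1 / gg o₁.isSome s.1‖ + ‖t.2 / gg o₂.isSome s.2‖) ^ m := by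
    filter_upwards [lc_open hL, h1] with s h3 h4 h0 t
    have h5 := h3 h0
    have h6 := h2 (σ s) h5.self_of_nhds.2 (fderiv ℂ σ s t) (tan_of_near h5 t)
    have h7 := h4 h5.self_of_nhds.2 t
    have h8 : 0 ≤ logLen E c (σ s) (fderiv ℂ σ s t) := by
      unfold logLen
      exact add_nonneg (Pool.Agent.H36.BP.fs_nonneg _ _) (Finset.sum_nonneg fun i _ => norm_nonneg _)
    refine h6.trans ?_
    rw [mul_assoc, ← mul_pow]
    exact mul_le_mul_of_nonneg_left (pow_le_pow_left₀ h8 h7 m) hC₂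
  have hhom : ∀ᶠ s in 𝓝 (0 : ℂ × ℂ), gg o₁.isSome s.1 * gg o₂.isSome s.2 ≠ 0 → ∀ (t : ℂ × ℂ) (a : ℂ),
      θ.toFun (σ s) (fderiv ℂ σ s (a • t)) = a ^ m * θ.toFun (σ s) (fderiv ℂ σ s t) := by
    filter_upwards [lc_open hL] with s h3 h0 t a
    rw [map_smul]
    exact θ.smul _ _ (tan_of_near (h3 h0) t) a
  obtain ⟨a, ha, h9⟩ := res_local (W := fun s t => θ.toFun (σ s) (fderiv ℂ σ s t)) (lc_an hL θ) hhom hb
  refine ⟨a, ha, ?_⟩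
  filter_upwards [h9, hL.dom] with y h10 h11 hy t
  exact h10 (h11.mp hy) t

end Pool.Agent.SR2
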