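import Pool.Agent.SR2.RsU

/-!
# SR2 RsK: the coefficient of `(dy₁ / y₁) ^ m` is constant along the component
-/

set_option autoImplicit false

open Topology Filter Metric MvPolynomial

noncomputable section

namespace Pool.Agent.SR2

open Pool.Agent.H36.BP (EN fs)
open Pool.Agent.H17BP (Surface IsChart)
open Pool.Agent.H14.PP (IsCone Tan)
open Pool.Agent.H17EF (coneE)
open Pool.Agent.AD (SymDiff)

variable {N k M : ℕ} {P : Ideal (MvPolynomial (Fin (N + 1)) ℂ)} {H : MvPolynomial (Fin (N + 1)) ℂ} {h : ℕ}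
  {E : Fin k → Fin (M + 1) → MvPolynomial (Fin (N + 1)) ℂ} {b c : Fin k → ℕ} {σ : ℂ × ℂ → EN N} {τ : EN N → ℂ × ℂ} {o₁ o₂ : Option (Fin k)}

theorem tendsto_sw : Tendsto (fun y : ℂ × ℂ => (y.2, y.1)) (𝓝 0) (𝓝 0) := by
  have h1 : Continuous fun y : ℂ × ℂ => (y.2, y.1) := continuous_snd.prodMk continuous_fst
  exact h1.tendsto 0

/-- exchange of the coordinates -/
theorem chart_sw {X : Set (EN N)} {σ : ℂ × ℂ → EN N} {τ : EN N → ℂ × ℂ} (h : IsChart X σ τ) :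
    IsChart X (fun y => σ (y.2, y.1)) (fun x => ((τ x).2, (τ x).1)) := by
  have h0 : ((0 : ℂ × ℂ).2, (0 : ℂ × ℂ).1) = 0 := rfl
  have hsa : AnalyticAt ℂ (fun y : ℂ × ℂ => (y.2, y.1)) 0 := analyticAt_snd.prod analyticAt_fst
  refine ⟨?_, tendsto_sw.eventually h.σ_mem, ?_, ?_, ?_, ?_, ?_⟩
  · exact AnalyticAt.comp (g := σ) (f := fun y : ℂ × ℂ => (y.2, y.1)) (by rw [h0]; exact h.σ_an) hsa
  · show σ ((0 : ℂ × ℂ).2, (0 : ℂ × ℂ).1) ≠ 0
    rw [h0]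
    exact h.ne
  · show AnalyticAt ℂ (fun x => ((τ x).2, (τ x).1)) (σ ((0 : ℂ × ℂ).2, (0 : ℂ × ℂ).1))
    rw [h0]
    have h3 : AnalyticAt ℂ (fun x => (τ x).2) (σ 0) := AnalyticAt.comp (g := fun y : ℂ × ℂ => y.2) analyticAt_snd h.τ_an
    have h4 : AnalyticAt ℂ (fun x => (τ x).1) (σ 0) := AnalyticAt.comp (g := fun y : ℂ × ℂ => y.1) analyticAt_fst h.τ_an
    exact h3.prod h4
  · filter_upwards [tendsto_sw.eventually h.left] with y hy
    rw [hy]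
  · show ∀ᶠ y in 𝓝 (σ ((0 : ℂ × ℂ).2, (0 : ℂ × ℂ).1)), _
    rw [h0]
    exact h.right
  · show ∀ᶠ p in 𝓝 (σ ((0 : ℂ × ℂ).2, (0 : ℂ × ℂ).1), (1 : ℂ)), _
    rw [h0]
    filter_upwards [h.inv] with p hp
    rw [hp]

theorem LC.swap {i : Fin k} (hL : LC P H E σ τ o₁ (some i)) : LC P H E (fun y => σ (y.2, y.1)) (fun x => ((τ x).2, (τ x).1)) (some i) o₁ := by
  refine ⟨chart_sw hL.chart, fun j hj hj' => hL.ne j hj' hj, fun e => (by simp at e), fun j => ?_, ?_⟩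
  · obtain ⟨e, he1, he2, he3⟩ := hL.eqs j
    have hsa : AnalyticAt ℂ (fun y : ℂ × ℂ => (y.2, y.1)) 0 := analyticAt_snd.prod analyticAt_fst
    refine ⟨fun y => e (y.2, y.1), AnalyticAt.comp (g := e) (f := fun y : ℂ × ℂ => (y.2, y.1)) he1 hsa, he2, ?_⟩
    filter_upwards [tendsto_sw.eventually he3] with y hy
    rw [hy, mul_comm]
  · filter_upwards [tendsto_sw.eventually hL.dom] with y hy
    rw [hy, mul_comm]

theorem exists_lc_at (hs : Snc P H E b) {x : EN N} (hx : x ∈ coneE P) {i : Fin k} (hi : vec (E i) x = 0) :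
    ∃ σ τ o₂, LC P H E σ τ (some i) o₂ ∧ σ 0 = x := by
  obtain ⟨σ, τ, o₁, o₂, hL, h0⟩ := exists_lc hs hx
  rcases hL.some_of_zero (i := i) (by rw [h0]; exact hi) with h1 | h1
  · subst h1
    exact ⟨σ, τ, o₂, hL, h0⟩
  · subst h1
    exact ⟨_, _, o₁, hL.swap, h0⟩

theorem isR_smul (hc : IsCone (coneE P)) (hH : H.IsHomogeneous h) (hE : ∀ i l, (E i l).IsHomogeneous (c i))
    (hne : ∀ i, ∀ x ∈ oc P H, vec (E i) x ≠ 0) {m : ℕ} (θ : SymDiff (oc P H) m)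
    (hinv : ∀ x ∈ oc P H, ∀ v, Tan (coneE P) x v → ∀ a : ℂ, a ≠ 0 → θ.toFun (a • x) (a • v) = θ.toFun x v) {i : Fin k} {x : EN N} {r : ℂ}
    (h1 : IsR P H E c θ.toFun m i x r) {a : ℂ} (ha : a ≠ 0) : IsR P H E c θ.toFun m i (a • x) r := by
  intro ε hε
  obtain ⟨η, hη, h2⟩ := h1 ε hε
  refine ⟨η, hη, ?_⟩
  have ht : Tendsto (fun y : EN N => a⁻¹ • y) (𝓝 (a • x)) (𝓝 x) := by
    have h3 : Continuous (fun y : EN N => a⁻¹ • y) := by fun_prop
    have h4 := h3.tendsto (a • x)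
    rwa [smul_smul, inv_mul_cancel₀ ha, one_smul] at h4
  filter_upwards [ht.eventually h2] with y hy hyo v hv hsm hfs
  have ha' : a⁻¹ ≠ 0 := inv_ne_zero ha
  have hy0 : y ≠ 0 := fun h0 => hc.zero_notMem (h0 ▸ hyo.1)
  have hell : ∀ i', ellE (E i') (c i') (a⁻¹ • y) (a⁻¹ • v) = ellE (E i') (c i') y v := by
    intro i'
    have := snc2_ell_inv hE i' hy0 (hne i' _ hyo) v ha' 0
    rwa [zero_smul, add_zero] at this
  have hfs' : fs (a⁻¹ • y) (a⁻¹ • v) = fs y v := by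
    have := Pool.Agent.H36.BP.fs_inv hy0 v ha' 0
    rwa [zero_smul, add_zero] at this
  have h5 := hy (rs_oc_smul hc hH hyo ha') (a⁻¹ • v) (rs_tan_smul hc.smul_mem hv ha')
    (by intro i' hi'; rw [hell, hell]; exact hsm i' hi') (by rw [hell, hfs']; exact hfs)
  rwa [hell, hinv y hyo v hv _ ha'] at h5

theorem rs_tan_oc {x v : EN N} (hx : x ∈ oc P H) (hv : Tan (coneE P) x v) : Tan (oc P H) x v := by
  obtain ⟨F, ⟨h1, h2⟩, h3, h4⟩ := hv
  refine ⟨F, ⟨h1, ?_⟩, h3, h4⟩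
  have hc : ContinuousAt (fun z => eval (F z).ofLp H) 0 :=
    ContinuousAt.comp (g := fun y : EN N => eval y.ofLp H) (snc2_diffH H _).continuousAt h1.continuousAt
  have h5 : eval (F 0).ofLp H ≠ 0 := by
    rw [h3]
    exact hx.2 0
  filter_upwards [h2, hc.eventually_ne h5] with z hz hz'
  exact ⟨hz, fun _ => hz'⟩

/-- the component -/
def comp (P : Ideal (MvPolynomial (Fin (N + 1)) ℂ)) (E : Fin k → Fin (M + 1) → MvPolynomial (Fin (N + 1)) ℂ) (i : Fin k) : Set (EN N) :=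
  {x | x ∈ coneE P ∧ vec (E i) x = 0}

theorem comp_smul (hc : IsCone (coneE P)) (hE : ∀ i l, (E i l).IsHomogeneous (c i)) {i : Fin k} : ∀ x ∈ comp P E i, ∀ a : ℂ, a ≠ 0 → a • x ∈ comp P E i := by
  intro x hx a ha
  refine ⟨hc.smul_mem x hx.1 a ha, ?_⟩
  rw [snc2_homE (hE i), hx.2, smul_zero]

theorem comp_closed (hc : IsCone (coneE P)) (i : Fin k) : IsClosed (insert 0 (comp P E i)) := by
  have h1 : insert (0 : EN N) (comp P E i) = insert 0 (coneE P) ∩ ({x | vec (E i) x = 0} ∪ {0}) := by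
    ext x
    simp only [comp, Set.mem_insert_iff, Set.mem_ofPred_eq, Set.mem_inter_iff, Set.mem_union, Set.mem_singleton_iff]
    tauto
  rw [h1]
  refine hc.closed.inter (IsClosed.union ?_ isClosed_singleton)
  exact isClosed_eq (continuous_iff_continuousAt.mpr fun x => (snc2_diffE (E i) x).continuousAt) continuous_const

/-- the residue function of a component -/
def resF (P : Ideal (MvPolynomial (Fin (N + 1)) ℂ)) (H : MvPolynomial (Fin (N + 1)) ℂ) (E : Fin k → Fin (M + 1) → MvPolynomial (Fin (N + 1)) ℂ)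
    (c : Fin k → ℕ) (w : EN N → EN N → ℂ) (m : ℕ) (i : Fin k) (x : EN N) : ℂ :=
  open Classical in if h : ∃ r, IsR P H E c w m i x r then h.choose else 0

theorem resF_eq (hs : Snc P H E b) (hE : ∀ i l, (E i l).IsHomogeneous (c i)) {w : EN N → EN N → ℂ} {m : ℕ} {i : Fin k} {x : EN N}
    (hx : x ∈ comp P E i) {r : ℂ} (h : IsR P H E c w m i x r) : resF P H E c w m i x = r := by
  obtain ⟨σ, τ, o₂, hL, h0⟩ := exists_lc_at hs hx.1 hx.2
  have hex : ∃ r, IsR P H E c w m i x r := ⟨r, h⟩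
  unfold resF
  rw [dif_pos hex]
  subst h0
  exact isR_unique_lc hE hL hx.2 hex.choose_spec h

theorem exists_isR (hs : Snc P H E b) (hc : IsCone (coneE P)) (hH : H.IsHomogeneous h) (hE : ∀ i l, (E i l).IsHomogeneous (c i)) {m : ℕ} (hm : 1 ≤ m)
    (θ : SymDiff (oc P H) m) (hθ : HasLogPoles E c θ) {i : Fin k} {x : EN N} (hx : x ∈ comp P E i) : ∃ r, IsR P H E c θ.toFun m i x r := by
  have hne : ∀ i, ∀ x ∈ oc P H, vec (E i) x ≠ 0 := fun i x hx => snc2_ne hs i hx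
  obtain ⟨σ, τ, o₂, hL, h0⟩ := exists_lc_at hs hx.1 hx.2
  obtain ⟨a, ha, hexp⟩ := lc_exp' (lc_est hE hL) hL θ hθ
  have h1 := (isR_of_exp hc hH hE hne hL hm θ ha hexp).self_of_nhds
  have h2 : ((0 : ℂ), (0 : ℂ)) = 0 := rfl
  rw [h2, h0] at h1
  exact ⟨_, h1⟩

/-- near a point of the component: the points of the component in the chart, and the residue function there -/
theorem comp_chart (hs : Snc P H E b) (hc : IsCone (coneE P)) (hH : H.IsHomogeneous h) (hE : ∀ i l, (E i l).IsHomogeneous (c i)) {m : ℕ} (hm : 1 ≤ m)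
    (θ : SymDiff (oc P H) m) {i : Fin k} (hL : LC P H E σ τ (some i) o₂) {a : ℕ → ℂ × ℂ → ℂ} (ha : ∀ k, AnalyticAt ℂ (a k) 0)
    (hexp : ∀ᶠ y in 𝓝 (0 : ℂ × ℂ), σ y ∈ oc P H → ∀ t : ℂ × ℂ,
      θ.toFun (σ y) (fderiv ℂ σ y t) =
        ∑ k ∈ Finset.range (m + 1), a k y * (t.1 / gg (some i).isSome y.1) ^ k * (t.2 / gg o₂.isSome y.2) ^ (m - k)) :
    ∀ᶠ t in 𝓝 (0 : ℂ), σ (0, t) ∈ comp P E i ∧ resF P H E c θ.toFun m i (σ (0, t)) = a m (0, t) := by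
  have hne : ∀ i, ∀ x ∈ oc P H, vec (E i) x ≠ 0 := fun i x hx => snc2_ne hs i hx
  have hline : Tendsto (fun s : ℂ => ((0, s) : ℂ × ℂ)) (𝓝 0) (𝓝 (0 : ℂ × ℂ)) := by
    have : Continuous (fun s : ℂ => ((0, s) : ℂ × ℂ)) := by fun_prop
    exact this.tendsto 0
  obtain ⟨e, -, -, he⟩ := hL.eqs i
  filter_upwards [isR_of_exp hc hH hE hne hL hm θ ha hexp, hline.eventually hL.chart.σ_mem, hline.eventually he] with t h1 h2 h3
  have h4 : σ (0, t) ∈ comp P E i := by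
    refine ⟨h2, ?_⟩
    rw [h3]
    simp [gg]
  exact ⟨h4, resF_eq hs hE h4 h1⟩

/-- **The residue is constant along the component.** -/
theorem coeff_const (hlc : ∀ {D : Set (EN N)} {r : EN N → ℂ} (_ : IsClosed (insert 0 D)) (_ : (0 : EN N) ∉ D) (_ : ∀ x ∈ D, ∀ a : ℂ, a ≠ 0 → a • x ∈ D)
      (_ : ∀ x ∈ D, ∀ a : ℂ, a ≠ 0 → r (a • x) = r x)
      (_ : ∀ x ∈ D, ∃ (γ : ℂ → EN N) (g : ℂ → ℂ) (q : EN N → ℂ), ContinuousAt γ 0 ∧ γ 0 = x ∧ AnalyticAt ℂ g 0 ∧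
        (∀ᶠ t in 𝓝 (0 : ℂ), γ t ∈ D ∧ r (γ t) = g t) ∧ ContinuousAt q x ∧ q x = 0 ∧ ∀ᶠ y in 𝓝 x, y ∈ D → ∃ a : ℂ, a ≠ 0 ∧ y = a • γ (q y)),
      ∀ x ∈ D, ∀ᶠ y in 𝓝 x, y ∈ D → r y = r x)
    (hs : Snc P H E b) (hc : IsCone (coneE P)) (hH : H.IsHomogeneous h) (hE : ∀ i l, (E i l).IsHomogeneous (c i)) {m : ℕ} (hm : 1 ≤ m)
    (θ : SymDiff (oc P H) m) (hθ : HasLogPoles E c θ) {i : Fin k} (hL : LC P H E σ τ (some i) o₂) {a : ℕ → ℂ × ℂ → ℂ} (ha : ∀ k, AnalyticAt ℂ (a k) 0)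
    (hexp : ∀ᶠ y in 𝓝 (0 : ℂ × ℂ), σ y ∈ oc P H → ∀ t : ℂ × ℂ,
      θ.toFun (σ y) (fderiv ℂ σ y t) =
        ∑ k ∈ Finset.range (m + 1), a k y * (t.1 / gg (some i).isSome y.1) ^ k * (t.2 / gg o₂.isSome y.2) ^ (m - k)) :
    ∀ᶠ s in 𝓝 (0 : ℂ), a m (0, s) = a m 0 := by
  have hne : ∀ i, ∀ x ∈ oc P H, vec (E i) x ≠ 0 := fun i x hx => snc2_ne hs i hx
  have hinv : ∀ x ∈ oc P H, ∀ v, Tan (coneE P) x v → ∀ a : ℂ, a ≠ 0 → θ.toFun (a • x) (a • v) = θ.toFun x v :=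
    fun x hx v hv a ha => θ.scale x v (rs_tan_oc hx hv) a ha
  have hline : Tendsto (fun s : ℂ => ((0, s) : ℂ × ℂ)) (𝓝 0) (𝓝 (0 : ℂ × ℂ)) := by
    have : Continuous (fun s : ℂ => ((0, s) : ℂ × ℂ)) := by fun_prop
    exact this.tendsto 0
  have h00 : ((0 : ℂ), (0 : ℂ)) = 0 := rfl
  have hmain : ∀ x ∈ comp P E i, ∀ᶠ y in 𝓝 x, y ∈ comp P E i → resF P H E c θ.toFun m i y = resF P H E c θ.toFun m i x := by
    refine hlc (comp_closed hc i) (fun h0 => hc.zero_notMem h0.1) (comp_smul hc hE) ?_ ?_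
    · intro x hx a ha
      obtain ⟨r, hr⟩ := exists_isR hs hc hH hE hm θ hθ hx
      rw [resF_eq hs hE hx hr, resF_eq hs hE (comp_smul hc hE x hx a ha) (isR_smul hc hH hE hne θ hinv hr ha)]
    · intro x hx
      obtain ⟨σ', τ', o₂', hL', h0⟩ := exists_lc_at hs hx.1 hx.2
      obtain ⟨a', ha', hexp'⟩ := lc_exp' (lc_est hE hL') hL' θ hθ
      subst h0
      obtain ⟨e, he1, he2, he3⟩ := hL'.eqs i
      have hτ0 : τ' (σ' 0) = 0 := hL'.chart.left.self_of_nhds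
      have hτ : Tendsto τ' (𝓝 (σ' 0)) (𝓝 0) := by
        have h1 := hL'.chart.τ_an.continuousAt.tendsto
        rwa [hτ0] at h1
      have hho : o₂' ≠ some i := hL'.ne i rfl
      refine ⟨fun t => σ' (0, t), fun t => a' m (0, t), fun y => (τ' y).2, ?_, rfl, ?_, comp_chart hs hc hH hE hm θ hL' ha' hexp', ?_, ?_, ?_⟩
      · exact ContinuousAt.comp (g := σ') (f := fun t : ℂ => ((0, t) : ℂ × ℂ)) hL'.chart.σ_an.continuousAt (by fun_prop)
      · exact AnalyticAt.comp (g := a' m) (f := fun t : ℂ => ((0, t) : ℂ × ℂ)) (ha' m) (analyticAt_const.prod analyticAt_id)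
      · exact continuous_snd.continuousAt.comp hL'.chart.τ_an.continuousAt
      · show (τ' (σ' 0)).2 = 0
        rw [hτ0]
        rfl
      · filter_upwards [hL'.chart.right, hτ.eventually he3, hτ.eventually (he1.continuousAt.eventually_ne he2)] with y h1 h2 h3 hy
        obtain ⟨κ, hκ, hyκ⟩ := h1 hy.1
        refine ⟨κ, hκ, ?_⟩
        have h4 : vec (E i) (σ' (τ' y)) = 0 := by
          have h5 := hy.2
          rw [hyκ, snc2_homE (hE i)] at h5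
          exact (smul_eq_zero.mp h5).resolve_left (pow_ne_zero _ hκ)
        rw [h2] at h4
        have h6 := (smul_eq_zero.mp h4).resolve_right h3
        have h7 : (τ' y).1 = 0 := by
          simpa [gg, hho] using h6
        have h8 : ((0 : ℂ), (τ' y).2) = τ' y := Prod.ext h7.symm rfl
        show y = κ • σ' (0, (τ' y).2)
        rw [h8]
        exact hyκ
  have hσ : Tendsto (fun s : ℂ => σ (0, s)) (𝓝 0) (𝓝 (σ 0)) := hL.chart.σ_an.continuousAt.tendsto.comp hline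
  have hch := comp_chart hs hc hH hE hm θ hL ha hexp
  have h0 := hch.self_of_nhds
  rw [h00] at h0
  filter_upwards [hch, hσ.eventually (hmain (σ 0) h0.1)] with s h1 h2
  rw [← h1.2, ← h0.2]
  exact h2 h1.1

end Pool.Agent.SR2
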