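import Pool.Agent.SR2.RsR

/-!
# SR2 RsU: the residue along a component is unique
-/

set_option autoImplicit false

open Topology Filter Metric MvPolynomial

noncomputable section

namespace Pool.Agent.SR2

open Pool.Agent.H36.BP (EN fs)
open Pool.Agent.H17BP (Surface IsChart)
open Pool.Agent.H14.PP (IsCone Tan)
open Pool.Agent.H17EF (coneE)
open Pool.Agent.AD (SymDiff)

variable {N k M : ℕ} {P : Ideal (MvPolynomial (Fin (N + 1)) ℂ)} {H : MvPolynomial (Fin (N + 1)) ℂ} {h : ℕ}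
  {E : Fin k → Fin (M + 1) → MvPolynomial (Fin (N + 1)) ℂ} {b c : Fin k → ℕ} {σ : ℂ × ℂ → EN N} {τ : EN N → ℂ × ℂ} {o₁ o₂ : Option (Fin k)}

/-- a component through the point is one of the two of the chart -/
theorem LC.some_of_zero (hL : LC P H E σ τ o₁ o₂) {i : Fin k} (hi : vec (E i) (σ 0) = 0) : o₁ = some i ∨ o₂ = some i := by
  by_contra hcon
  push Not at hcon
  obtain ⟨e, -, he0, he⟩ := hL.eqs i
  have h1 := he.self_of_nhds
  simp only [hcon.1, hcon.2, decide_false, gg_false, one_mul, one_smul] at h1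
  exact he0 (h1 ▸ hi)

theorem LC.zero_of_some (hL : LC P H E σ τ o₁ o₂) {i : Fin k} (hi : o₁ = some i ∨ o₂ = some i) : vec (E i) (σ 0) = 0 := by
  obtain ⟨e, -, he0, he⟩ := hL.eqs i
  have h1 := he.self_of_nhds
  rw [h1]
  rcases hi with hi | hi
  · simp [hi, gg]
  · simp [hi, gg]

theorem isR_unique_lc (hE : ∀ i l, (E i l).IsHomogeneous (c i)) (hL : LC P H E σ τ o₁ o₂) {m : ℕ} {w : EN N → EN N → ℂ} {i : Fin k}
    (hi : vec (E i) (σ 0) = 0) {r r' : ℂ} (h : IsR P H E c w m i (σ 0) r) (h' : IsR P H E c w m i (σ 0) r') : r = r' := by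
  obtain ⟨C, hC, hest⟩ := lc_est hE hL
  -- the direction
  obtain ⟨t, ht1, ht2, ht3⟩ : ∃ t : ℂ × ℂ, ‖t‖ = 1 ∧ (∀ z : ℂ, uu o₁ o₂ i (z, z) t = 1 / z) ∧ ∀ i', i' ≠ i → ∀ z : ℂ, uu o₁ o₂ i' (z, z) t = 0 := by
    rcases hL.some_of_zero hi with h1 | h1
    · refine ⟨(1, 0), by simp [Prod.norm_def], fun z => ?_, fun i' hi' z => ?_⟩
      · simp [uu, h1]
      · simp [uu, h1, Ne.symm hi']
    · have h2 : o₁ ≠ some i := fun e => hL.ne i e h1
      refine ⟨(0, 1), by simp [Prod.norm_def], fun z => ?_, fun i' hi' z => ?_⟩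
      · simp [uu, h1, h2]
      · simp [uu, h1, Ne.symm hi']
  have hline : Tendsto (fun z : ℂ => ((z, z) : ℂ × ℂ)) (𝓝[≠] 0) (𝓝 (0 : ℂ × ℂ)) := by
    have : Continuous (fun z : ℂ => ((z, z) : ℂ × ℂ)) := by fun_prop
    exact (this.tendsto 0).mono_left nhdsWithin_le_nhds
  have hσ : Tendsto (fun z : ℂ => σ (z, z)) (𝓝[≠] 0) (𝓝 (σ 0)) := hL.chart.σ_an.continuousAt.tendsto.comp hline
  have hsmall : ∀ δ : ℝ, 0 < δ → ∀ᶠ z : ℂ in 𝓝[≠] 0, ‖z‖ < δ := by
    intro δ hδ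
    have : ∀ᶠ z : ℂ in 𝓝 0, ‖z‖ < δ := by
      have h1 := (continuous_norm (E := ℂ)).tendsto 0
      rw [norm_zero] at h1
      exact h1.eventually_lt_const hδ
    exact this.filter_mono nhdsWithin_le_nhds
  have key : ∀ ε : ℝ, 0 < ε → ‖r - r'‖ ≤ 2 * ε := by
    intro ε hε
    obtain ⟨η, hη, h1⟩ := h ε hε
    obtain ⟨η', hη', h2⟩ := h' ε hε
    set μ : ℝ := min η η' with hμ
    have hμ0 : 0 < μ := lt_min hη hη'
    have hδ : 0 < μ / ((C + 1) * (1 + μ)) := by positivity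
    have hall := ((hσ.eventually h1).and (hσ.eventually h2)).and ((hline.eventually hest).and ((hline.eventually (lc_open hL)).and
      ((hsmall _ hδ).and self_mem_nhdsWithin)))
    obtain ⟨z, ⟨h3, h4⟩, h5, h6, h7, h8⟩ := hall.exists
    have hz : z ≠ 0 := h8
    have hg : gg o₁.isSome z * gg o₂.isSome z ≠ 0 := by
      refine mul_ne_zero ?_ ?_
      · cases o₁.isSome <;> simp [gg, hz]
      · cases o₂.isSome <;> simp [gg, hz]
    have h9 := h6 hg
    have hoc : σ (z, z) ∈ oc P H := h9.self_of_nhds.2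
    have hT : Tan (coneE P) (σ (z, z)) (fderiv ℂ σ (z, z) t) := rs_tan_mono (fun x hx => hx.1) (tan_of_near h9 t)
    obtain ⟨e1, -, e3⟩ := h5 t
    rw [ht1, mul_one] at e1
    have e3 := e3 hoc
    rw [ht1, mul_one] at e3
    set l : ℂ := ellE (E i) (c i) (σ (z, z)) (fderiv ℂ σ (z, z) t) with hl
    have hz0 : 0 < ‖z‖ := norm_pos_iff.mpr hz
    have hlb : 1 / ‖z‖ - C ≤ ‖l‖ := by
      have e4 := e3 i
      rw [ht2 z, ← hl] at e4
      have e5 := norm_sub_norm_le (1 / z) l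
      rw [norm_div, norm_one, norm_sub_rev] at e5
      linarith
    have hbig : C ≤ μ * ‖l‖ ∧ 0 < ‖l‖ := by
      have e6 : (C + 1) * (1 + μ) / μ < 1 / ‖z‖ := by
        rw [lt_div_iff₀ (by positivity)] at h7
        rw [div_lt_div_iff₀ hμ0 hz0]
        linarith
      have e7 : (C + 1) * (1 + μ) / μ = (C + 1) / μ + (C + 1) := by field_simp
      have e8 : (C + 1) / μ ≤ ‖l‖ := by
        rw [e7] at e6
        linarith
      have e9 : C + 1 ≤ μ * ‖l‖ := by
        rw [div_le_iff₀ hμ0] at e8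
        linarith
      refine ⟨by linarith, ?_⟩
      by_contra hcon
      push Not at hcon
      nlinarith
    have f1 : ∀ i', i' ≠ i → ‖ellE (E i') (c i') (σ (z, z)) (fderiv ℂ σ (z, z) t)‖ ≤ μ * ‖l‖ := by
      intro i' hi'
      have e4 := e3 i'
      rw [ht3 i' hi' z, sub_zero] at e4
      exact e4.trans hbig.1
    have g1 := h3 hoc _ hT (fun i' hi' => (f1 i' hi').trans (mul_le_mul_of_nonneg_right (min_le_left _ _) (norm_nonneg _)))
      ((e1.trans hbig.1).trans (mul_le_mul_of_nonneg_right (min_le_left _ _) (norm_nonneg _)))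
    have g2 := h4 hoc _ hT (fun i' hi' => (f1 i' hi').trans (mul_le_mul_of_nonneg_right (min_le_right _ _) (norm_nonneg _)))
      ((e1.trans hbig.1).trans (mul_le_mul_of_nonneg_right (min_le_right _ _) (norm_nonneg _)))
    have hlm : 0 < ‖l‖ ^ m := pow_pos hbig.2 m
    have g3 : ‖r - r'‖ * ‖l‖ ^ m ≤ 2 * ε * ‖l‖ ^ m := by
      rw [← norm_pow, ← norm_mul]
      have g4 : (r - r') * l ^ m = (w (σ (z, z)) (fderiv ℂ σ (z, z) t) - r' * l ^ m) - (w (σ (z, z)) (fderiv ℂ σ (z, z) t) - r * l ^ m) := by ring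
      rw [g4, norm_pow]
      refine (norm_sub_le _ _).trans ?_
      linarith
    exact le_of_mul_le_mul_right g3 hlm
  have h0 : ‖r - r'‖ ≤ 0 := by
    refine le_of_forall_pos_le_add fun ε hε => ?_
    have := key (ε / 2) (half_pos hε)
    linarith
  exact sub_eq_zero.mp (norm_le_zero_iff.mp h0)

end Pool.Agent.SR2
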