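import Pool.Agent.SR2.ADefs

/-!
# SR2 StubA: blocks A, B, C (stubs; never import this file in a finished file)

One section = one file `Pool/Agent/SR2/<Section>.lean`, with exactly these statements, in the namespace `Pool.Agent.SR2`.  Write against this file
with `open Stub`; when the real files are on main, replace the import and delete `open Stub`.
OWNERS: ABas 51, ALam 22, AGrd 82, ASq 15, ALpr 15, ARad 68, AHar 68, ASet ABd ATh ACp AGd 69, AGrw 70, ASml 36, AJmp 88, AThr 28, AGap 75, AZal 29,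
APl 59, ASpd 51, AStc 66, ALbd 97, ALow 44.
-/

set_option autoImplicit false

open Topology Filter Metric

noncomputable section

namespace Pool.Agent.SR2

open Pool.Agent.H36.BP (EN fs wd Sub OrdTwo)
open Pool.Agent.H14.PP (IsCone Tan)
open Pool.Agent.SY (Ent)
open Pool.Agent.SDA (EnergyK Near AffOpen Nm nForms)
open Geo (Gd)

variable {N : ℕ} {G : Geo N} {T : Set (EN N)} {rho : EN N → ℝ} {M : ℕ} {c₀ C δ : ℝ} {g : (ℂ → EN N) → ℂ → ℝ}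

namespace Stub

/-! ## ABas (helper51): elementary facts -/

theorem KX (hG : G.Ok) {x : EN N} (hx : x ∈ G.K) : x ∈ G.X := by
  sorry

theorem ne0 (hG : G.Ok) {x : EN N} (hx : x ∈ G.K) : x ≠ 0 := by
  sorry

theorem p_ne (hG : G.Ok) {x : EN N} (hx : x ∈ G.K) : G.p x ≠ 0 := by
  sorry

theorem smul_mem (hG : G.Ok) {x : EN N} (hx : x ∈ G.K) {c : ℂ} (hc : c ≠ 0) : c • x ∈ G.K := by
  sorry

/-- the condition of `SDA` -/
theorem nm_iff {F : ℂ → EN N} : Nm G.P F ↔ ∀ z, G.p (F z) = 1 := by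
  sorry

theorem tan_at (hG : G.Ok) {F : ℂ → EN N} {z : ℂ} (hF : AnalyticAt ℂ F z) (hK : ∀ᶠ w in 𝓝 z, F w ∈ G.K) : Tan G.X (F z) (deriv F z) := by
  sorry

theorem tan (hG : G.Ok) {F : ℂ → EN N} (hF : Differentiable ℂ F) (hK : ∀ z, F z ∈ G.K) (z : ℂ) : Tan G.X (F z) (deriv F z) := by
  sorry

theorem n_nonneg (x v : EN N) : 0 ≤ G.n x v := by
  sorry

theorem L_nonneg (x v : EN N) : 0 ≤ G.L x v := by
  sorry

theorem nq_nonneg (q : G.J → ℂ) : 0 ≤ G.nq q := by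
  sorry

/-- `w_log` for the length -/
theorem n_le_L (hG : G.Ok) : ∃ B : ℝ, 0 < B ∧ ∀ x ∈ G.K, ∀ v, Tan G.X x v → G.n x v ≤ B * G.L x v := by
  sorry

/-- affine changes of the parameter -/
theorem deriv_aff {F : ℂ → EN N} (hF : Differentiable ℂ F) (a b z : ℂ) : deriv (fun w => F (a * w + b)) z = a • deriv F (a * z + b) := by
  sorry

theorem n_aff (hG : G.Ok) {F : ℂ → EN N} (hF : Differentiable ℂ F) (hK : ∀ z, F z ∈ G.K) (a b z : ℂ) :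
    G.n (F (a * z + b)) (deriv (fun w => F (a * w + b)) z) = ‖a‖ * G.n (F (a * z + b)) (deriv F (a * z + b)) := by
  sorry

/-- other lifts -/
theorem w_unit (hG : G.Ok) (j : G.J) {F : ℂ → EN N} (hF : Differentiable ℂ F) (hK : ∀ z, F z ∈ G.K) {u : ℂ → ℂ} (hu : Differentiable ℂ u)
    (h0 : ∀ z, u z ≠ 0) (z : ℂ) : G.w j (u z • F z) (deriv (fun w => u w • F w) z) = G.w j (F z) (deriv F z) := by
  sorry

theorem w_tendsto (hG : G.Ok) (j : G.J) {l : Filter ℕ} {F : ℕ → ℂ → EN N} {H : ℂ → EN N} (hF : ∀ᶠ k in l, Differentiable ℂ (F k) ∧ ∀ z, F k z ∈ G.K)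
    (hH : Differentiable ℂ H) (hHK : ∀ z, H z ∈ G.K) (hc : TendstoLocallyUniformlyOn F H l Set.univ) (z : ℂ) :
    Tendsto (fun k => G.w j (F k z) (deriv (F k) z)) l (𝓝 (G.w j (H z) (deriv H z))) := by
  sorry

theorem n_tendsto (hG : G.Ok) {l : Filter ℕ} {F : ℕ → ℂ → EN N} {H : ℂ → EN N} (hF : ∀ᶠ k in l, Differentiable ℂ (F k) ∧ ∀ z, F k z ∈ G.K)
    (hH : Differentiable ℂ H) (hHK : ∀ z, H z ∈ G.K) (hc : TendstoLocallyUniformlyOn F H l Set.univ) (z : ℂ) :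
    Tendsto (fun k => G.n (F k z) (deriv (F k) z)) l (𝓝 (G.n (H z) (deriv H z))) := by
  sorry

theorem cl_n {q : G.J → ℂ} {F : ℂ → EN N} (hF : G.Cl T q F) (z : ℂ) : G.n (F z) (deriv F z) = 1 := by
  sorry

/-- translations and rotations -/
theorem cl_comp (hG : G.Ok) {q : G.J → ℂ} {F : ℂ → EN N} (hF : G.Cl T q F) {a : ℂ} (ha : ‖a‖ = 1) (b : ℂ) :
    G.Cl T (fun j => a ^ G.m j * q j) (fun z => F (a * z + b)) := by
  sorry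

theorem cl_trans (hG : G.Ok) {q : G.J → ℂ} {F : ℂ → EN N} (hF : G.Cl T q F) (b : ℂ) : G.Cl T q (fun z => F (z + b)) := by
  sorry

/-- the good points are a closed set -/
theorem gd_closed (hG : G.Ok) (hM : G.Met T rho M c₀ C δ g) {q : G.J → ℂ} {F : ℂ → EN N} (hF : G.Cl T q F) : IsClosed (Gd rho δ F) := by
  sorry

/-- inside the disc of radius `infDist` there are no good points -/
theorem lt_of_ball {F : ℂ → EN N} {z w : ℂ} (h : ‖w - z‖ < infDist z (Gd rho δ F)) : rho (F w) < δ := by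
  sorry

/-- the bounded part of the surface is compact -/
theorem cpt (hG : G.Ok) (B : ℝ) : IsCompact {x : EN N | x ∈ G.K ∧ G.p x = 1 ∧ ‖x‖ ≤ B} := by
  sorry

/-- the limit of normalised vectors of `K` -/
theorem mem_lim (hG : G.Ok) {l : Filter ℕ} [l.NeBot] {x : ℕ → EN N} {y : EN N} (hx : ∀ᶠ k in l, x k ∈ G.K ∧ G.p (x k) = 1) (hy : Tendsto x l (𝓝 y)) :
    y ∈ G.K ∧ G.p y = 1 := by
  sorry

/-! ## ALam: the functions `lam i` -/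

theorem log_lower (hG : G.Ok) : ∃ B : ℝ, 0 ≤ B ∧ ∀ x : EN N, G.p x = 1 → -B ≤ Real.log ‖x‖ := by
  sorry

theorem lam_lowerA (hG : G.Ok) : ∃ B : ℝ, 0 ≤ B ∧ ∀ i, ∀ x ∈ G.K, -B ≤ G.lam i x := by
  sorry

theorem lam_upperA (hG : G.Ok) : ∃ B : ℝ, 0 ≤ B ∧ ∀ x ∈ G.K, G.p x = 1 → (∀ i, G.lam i x ≤ G.h * Real.log ‖x‖ + B) ∧
    G.h * Real.log ‖x‖ ≤ ∑ i, G.b i * G.lam i x + B ∧ ∑ i, G.b i * G.lam i x ≤ G.h * Real.log ‖x‖ + B := by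
  sorry

theorem ell_smul (hG : G.Ok) (i : G.ι) (x v : EN N) (a : ℂ) : G.ell i x (a • v) = a * G.ell i x v := by
  sorry

/-- the length where the lift is bounded -/
theorem L_le_fs (hG : G.Ok) (B : ℝ) : ∃ A : ℝ, 0 < A ∧ ∀ x ∈ G.K, G.p x = 1 → ‖x‖ ≤ B → ∀ v, G.L x v ≤ A * fs x v := by
  sorry

/-! ## AGrd: the derivatives of `lam i` along a curve -/

theorem lam_grad (hG : G.Ok) (i : G.ι) {F : ℂ → EN N} {z : ℂ} (hF : AnalyticAt ℂ F z) (hz : F z ∈ G.K) :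
    HasFDerivAt (fun w => G.lam i (F w)) (reL (-G.ell i (F z) (deriv F z))) z := by
  sorry

/-- `|Lap lam| ≤ C fs ^ 2`; `s` may be negative -/
theorem lam_sub (hG : G.Ok) : ∃ B : ℝ, 0 ≤ B ∧ ∀ (i : G.ι) (s : ℝ) (F : ℂ → EN N) (z : ℂ), AnalyticAt ℂ F z → (∀ᶠ w in 𝓝 z, F w ∈ G.K) →
    Sub (fun w => Real.exp (s * G.lam i (F w))) z (-(|s| * B * fs (F z) (deriv F z) ^ 2)) := by
  sorry

/-! ## ASq: the square -/

/-- `Lap (u ^ 2) = 2 |grad u| ^ 2 + 2 u Lap u` -/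
theorem sub_sq {u : ℂ → ℝ} {z l : ℂ} {c : ℝ} (hs : Sub (fun w => Real.exp (u w)) z c) (hu : HasFDerivAt u (reL l) z) (h0 : 0 < u z) :
    Sub (fun w => Real.exp (u w ^ 2)) z (1 / 2 * ‖l‖ ^ 2 + 2 * c * u z) := by
  sorry

/-! ## ALpr: (L') -/

theorem lprime (hG : G.Ok) :
    ∃ A₀ r₀ : ℝ, 0 < A₀ ∧ 0 < r₀ ∧ ∀ F : ℂ → EN N, Differentiable ℂ F → (∀ z, F z ∈ G.K) → (∀ z, G.p (F z) = 1) → ∀ (z : ℂ) (r : ℝ), r₀ ≤ r →
      (∀ w ∈ closedBall z r, 1 ≤ G.n (F w) (deriv F w)) → ∃ w ∈ closedBall z r, A₀ * r ≤ Real.log ‖F w‖ := by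
  sorry

/-! ## ARad: the radial weight -/

theorem sub_rad (k r₀ : ℝ) (hk : 0 ≤ k) (c w : ℂ) : Sub (fun z => Real.exp (k * max (‖z - c‖ - r₀) 0 ^ 2)) w 0 := by
  sorry

theorem sub_rad' {k r₀ : ℝ} (hk : 0 ≤ k) {c w : ℂ} (h : r₀ < ‖w - c‖) : Sub (fun z => Real.exp (k * max (‖z - c‖ - r₀) 0 ^ 2)) w (k / 2) := by
  sorry

/-! ## ASet, ABd, ATh, ACp, AGd (helper69): the port of `SDA` -/

/-- the Fubini-Study length as the pseudo-length of `SDA` -/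
theorem setup_fs (hG : G.Ok) (hM : G.Met T rho M c₀ C δ g) : Pool.Agent.SDA.Setup G.X G.K T G.P G.d rho M c₀ C g fs := by
  sorry

theorem bound_local (hG : G.Ok) (hM : G.Met T rho M c₀ C δ g) :
    ∃ C₁ : ℝ, 0 < C₁ ∧ ∀ F, Ent G.K T F → (∀ z ∈ ball (0 : ℂ) 1, G.n (F z) (deriv F z) ≤ 1) → g F 0 ≤ C₁ := by
  sorry

theorem bound (hG : G.Ok) (hM : G.Met T rho M c₀ C δ g) :
    ∃ C₁ : ℝ, 0 < C₁ ∧ ∀ (q : G.J → ℂ) (F : ℂ → EN N), G.Cl T q F → ∀ z, g F z ≤ C₁ := by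
  sorry

theorem thick (hG : G.Ok) (hM : G.Met T rho M c₀ C δ g) {δ' : ℝ} (hδ : 0 < δ') :
    ∃ d₁ C₂ : ℝ, 0 < d₁ ∧ (∀ F, Ent G.K T F → ∀ z, δ' ≤ rho (F z) → 1 ≤ G.n (F z) (deriv F z) → d₁ ≤ g F z) ∧
      ∀ x ∈ G.K, G.p x = 1 → δ' ≤ rho x → Real.log ‖x‖ ≤ C₂ := by
  sorry

theorem compact (hG : G.Ok) (hM : G.Met T rho M c₀ C δ g) (𝒰 : Ultrafilter ℕ) (h𝒰 : (𝒰 : Filter ℕ) ≤ atTop) (q : ℕ → G.J → ℂ) (F : ℕ → ℂ → EN N)
    (hF : ∀ k, G.Cl T (q k) (F k)) (h0 : ∀ k, δ ≤ rho (F k 0)) :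
    ∃ (q' : G.J → ℂ) (H : ℂ → EN N), G.Cl T q' H ∧ Tendsto q 𝒰 (𝓝 q') ∧ δ ≤ rho (H 0) ∧ TendstoLocallyUniformlyOn F H 𝒰 Set.univ := by
  sorry

theorem unbounded (hG : G.Ok) {q : G.J → ℂ} {F : ℂ → EN N} (hF : G.Cl T q F) (B : ℝ) : ∃ z, B < ‖F z‖ := by
  sorry

theorem exists_good (hG : G.Ok) (hM : G.Met T rho M c₀ C δ g) {q : G.J → ℂ} {F : ℂ → EN N} (hF : G.Cl T q F) : (Gd rho δ F).Nonempty := by
  sorry

/-! ## AGrw: (E).  Harnack (`SDA.harnack`) on the disc with centre `z` and radius `d + 1`, at the nearest good point, weight `ARad` with `r₀ = d - 1` -/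

theorem growth (hG : G.Ok) (hM : G.Met T rho M c₀ C δ g) :
    ∃ B : ℝ, 0 ≤ B ∧ ∀ (q : G.J → ℂ) (F : ℂ → EN N), G.Cl T q F → ∀ z, Real.log ‖F z‖ ≤ B * (1 + infDist z (Gd rho δ F)) := by
  sorry

/-! ## ASml: (W).  Harnack on `ball z d` at the point `w`, against `lprime` on `closedBall z (d / 2)` -/

theorem small (hG : G.Ok) (hM : G.Met T rho M c₀ C δ g) :
    ∃ a c R : ℝ, 0 < c ∧ 0 < R ∧ ∀ (q : G.J → ℂ) (F : ℂ → EN N), G.Cl T q F → ∀ z, R ≤ infDist z (Gd rho δ F) → ∀ w,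
      ‖w - z‖ ≤ infDist z (Gd rho δ F) / 8 → g F w ≤ Real.exp (a - c * infDist z (Gd rho δ F)) * ‖F w‖ ^ c₀ := by
  sorry

/-! ## AJmp: (P).  If not, `F` is bounded on the disc of radius `exp (-η d)`, there `fs ≥ c`, `rho ≤ exp (-c' d)` by `en.lower` and `small`; `qn` -/

theorem jump (S : Base G T rho M c₀ C δ g) (B : ℝ) :
    ∃ η R : ℝ, 0 < η ∧ 0 < R ∧ ∀ (q : G.J → ℂ) (F : ℂ → EN N), G.Cl T q F → ∀ z, R ≤ infDist z (Gd rho δ F) → Real.log ‖F z‖ ≤ B →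
      ∃ w, ‖w - z‖ ≤ Real.exp (-(η * infDist z (Gd rho δ F))) ∧ B + 1 < Real.log ‖F w‖ := by
  sorry

/-! ## AThr: three circles (`Complex.HadamardThreeLines` for `F (z + exp s)`) -/

theorem three_circles {F : ℂ → EN N} (hF : Differentiable ℂ F) {z : ℂ} {r₁ r₂ m₁ m₂ : ℝ} (h1 : 0 < r₁) (h2 : r₁ < r₂)
    (hm1 : ∀ w, ‖w - z‖ = r₁ → ‖F w‖ ≤ Real.exp m₁) (hm2 : ∀ w, ‖w - z‖ = r₂ → ‖F w‖ ≤ Real.exp m₂) :
    ∀ w, r₁ ≤ ‖w - z‖ → ‖w - z‖ ≤ r₂ →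
      ‖F w‖ ≤ Real.exp (((Real.log r₂ - Real.log ‖w - z‖) * m₁ + (Real.log ‖w - z‖ - Real.log r₁) * m₂) / (Real.log r₂ - Real.log r₁)) := by
  sorry

/-! ## AGap: (D).  Otherwise the rescaled curves `F (z + r w)`, `r` the largest radius with `log ‖F‖ ≤ B + 1`, converge to a polynomial curve: `na` -/

theorem gapD (S : Base G T rho M c₀ C δ g) (B : ℝ) :
    ∃ R : ℝ, ∀ (q : G.J → ℂ) (F : ℂ → EN N), G.Cl T q F → ∀ z, Real.log ‖F z‖ ≤ B → infDist z (Gd rho δ F) ≤ R := by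
  sorry

/-! ## AZal: Zalcman's rescaling for `fs` (compare `SDA.Ab_rescale`) -/

theorem zalcman {K : ℕ} {F : ℂ → EN K} (hF : Differentiable ℂ F) (h0 : ∀ z, F z ≠ 0) {R k : ℝ} (hR : 0 < R) (hk : 1 ≤ k) {z : ℂ}
    (h : 8 * k < R * fs (F z) (deriv F z)) :
    ∃ (a : ℝ) (b : ℂ), 0 < a ∧ ‖b - z‖ ≤ R / 2 ∧ a * k ≤ R / 4 ∧ a * fs (F b) (deriv F b) = 1 ∧
      ∀ w ∈ ball (0 : ℂ) k, a * fs (F (b + a * w)) (deriv F (b + a * w)) ≤ 2 := by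
  sorry

/-! ## APl: limits of curves of bounded speed.  `apx_one` (SR2/Apx, on main) on small discs, Montel, `Pool.Agent.H17.exists_global_lift` -/

theorem proj_limit (𝒰 : Ultrafilter ℕ) {F : ℕ → ℂ → EN N} (hF : ∀ k, Differentiable ℂ (F k)) (h0 : ∀ k z, F k z ≠ 0) {A : ℝ}
    (hA : ∀ R : ℝ, ∀ᶠ k in (𝒰 : Filter ℕ), ∀ w ∈ ball (0 : ℂ) R, fs (F k w) (deriv (F k) w) ≤ A) :
    ∃ H : ℂ → EN N, Differentiable ℂ H ∧ (∀ z, H z ≠ 0) ∧ ∀ z, ∃ r : ℝ, 0 < r ∧ ∃ u : ℕ → ℂ → ℂ,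
      (∀ᶠ k in (𝒰 : Filter ℕ), DifferentiableOn ℂ (u k) (ball z r) ∧ ∀ w ∈ ball z r, u k w ≠ 0) ∧
        TendstoLocallyUniformlyOn (fun k w => u k w • F k w) H 𝒰 (ball z r) := by
  sorry

/-! ## ASpd: `speed`, from `gapD`, `zalcman`, `proj_limit`, `h1` -/

theorem speed (S : Base G T rho M c₀ C δ g) :
    ∃ B R : ℝ, 0 < B ∧ 0 < R ∧ ∀ (q : G.J → ℂ) (F : ℂ → EN N), G.Cl T q F → ∀ z, R ≤ infDist z (Gd rho δ F) →
      fs (F z) (deriv F z) ≤ B / infDist z (Gd rho δ F) := by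
  sorry

/-! ## AStc: in the static region the `lam i` are almost harmonic (`speed` and `apx` of SR2/Apx) -/

theorem static (S : Base G T rho M c₀ C δ g) :
    ∃ κ B R : ℝ, 0 < κ ∧ κ ≤ 1 / 4 ∧ 0 < B ∧ 0 < R ∧ ∀ (q : G.J → ℂ) (F : ℂ → EN N), G.Cl T q F → ∀ z, R ≤ infDist z (Gd rho δ F) →
      ∃ h : G.ι → ℂ → ℂ, (∀ i, DifferentiableOn ℂ (h i) (ball z (κ * infDist z (Gd rho δ F)))) ∧
        ∀ i, ∀ w ∈ ball z (κ * infDist z (Gd rho δ F)), |G.lam i (F w) - (h i w).re| ≤ B ∧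
          ‖G.ell i (F w) (deriv F w) + deriv (h i) w‖ ≤ B / infDist z (Gd rho δ F) := by
  sorry

/-! ## AHar: Harnack for the real part of a holomorphic function -/

theorem harnack_re {f : ℂ → ℂ} {z : ℂ} {r : ℝ} (hr : 0 < r) (hf : DifferentiableOn ℂ f (ball z r)) (h0 : ∀ w ∈ ball z r, 0 ≤ (f w).re) {w : ℂ}
    (hw : ‖w - z‖ ≤ r / 2) : (f w).re ≤ 3 * (f z).re := by
  sorry

theorem deriv_le_re {f : ℂ → ℂ} {z : ℂ} {r : ℝ} (hr : 0 < r) (hf : DifferentiableOn ℂ f (ball z r)) (h0 : ∀ w ∈ ball z r, 0 ≤ (f w).re) :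
    ‖deriv f z‖ ≤ 2 * (f z).re / r := by
  sorry

/-! ## ALbd: from `static`, `deriv_le_re`, `growth`, `lam_upperA`, `L_le_fs`.  ALow: from `static`, `harnack_re`, `lprime`, `lam_upperA` -/

theorem L_bdd (S : Base G T rho M c₀ C δ g) :
    ∃ B : ℝ, 0 < B ∧ ∀ (q : G.J → ℂ) (F : ℂ → EN N), G.Cl T q F → ∀ z, G.L (F z) (deriv F z) ≤ B := by
  sorry

theorem lower (S : Base G T rho M c₀ C δ g) :
    ∃ c B : ℝ, 0 < c ∧ ∀ (q : G.J → ℂ) (F : ℂ → EN N), G.Cl T q F → ∀ z, c * infDist z (Gd rho δ F) - B ≤ Real.log ‖F z‖ := by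
  sorry

end Stub

end Pool.Agent.SR2
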