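import Pool.Agent.SR2.Face
import Pool.Agent.SR2.DDefs

/-!
# SR2 StubD: statements of block D (blow-downs, Liouville, flatness)

One file per section, `Pool/Agent/SR2/<Section>.lean`, statements verbatim, namespace `Pool.Agent.SR2`; never import a stub in the finished file.
OWNERS: Har 82, Lim 38, Comp 22, HpPol 31, FamB 86, LiouF 13 (line) + 42 (open-closed argument), Line 38, Apx 65, Bas 78, PreF 48, Flat 38.
-/

set_option autoImplicit false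

open Metric Topology Filter MvPolynomial InnerProductSpace

noncomputable section

namespace Pool.Agent.SR2

open Pool.Agent.SDR (gc hp tot Blow BlowFam)
open Pool.Agent.H36.BP (EN fs)
open Geo (Gd)

variable {ι J Ty : Type} [Fintype ι]

/-! ## Har: harmonic functions in the plane -/

theorem norm_gc_le_lip {u : ℂ → ℝ} {w : ℂ} {C : ℝ} (hC : 0 ≤ C) (h : ∀ᶠ z in 𝓝 w, |u z - u w| ≤ C * ‖z - w‖) : ‖gc u w‖ ≤ 2 * C := sorry

theorem harmonicAt_of_re {u : ℂ → ℝ} {g : ℂ → ℂ} {w : ℂ} (hg : AnalyticAt ℂ g w) (h : ∀ᶠ z in 𝓝 w, u z = (g z).re) : HarmonicAt u w := sorry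

theorem harnack {u : ℂ → ℝ} {w : ℂ} {r : ℝ} (hr : 0 < r) (hu : ∀ z ∈ ball w r, HarmonicAt u z) (h0 : ∀ z ∈ ball w r, 0 ≤ u z) :
    ∀ z ∈ closedBall w (r / 2), u z ≤ 3 * u w := sorry

/-- a nonnegative harmonic function on the plane is constant -/
theorem const_of_nonneg {u : ℂ → ℝ} (hu : ∀ z, HarmonicAt u z) (h0 : ∀ z, 0 ≤ u z) : ∀ z, u z = u 0 := sorry

/-! ## Lim: limits along ultrafilters -/

/-- the limit of functions which are almost real parts of holomorphic functions -/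
theorem lim_one {𝒰 : Ultrafilter ℕ} {u : ℕ → ℂ → ℝ} {v : ℂ → ℝ} {h : ℕ → ℂ → ℂ} {w : ℂ} {r C : ℝ} (hr : 0 < r)
    (hd : ∀ᶠ n in (𝒰 : Filter ℕ), DifferentiableOn ℂ (h n) (ball w r))
    (hε : ∀ ε : ℝ, 0 < ε → ∀ᶠ n in (𝒰 : Filter ℕ), ∀ z ∈ ball w r, |u n z - (h n z).re| ≤ ε)
    (hlip : ∀ᶠ n in (𝒰 : Filter ℕ), ∀ z z', |u n z - u n z'| ≤ C * ‖z - z'‖)
    (hv : ∀ z ∈ ball w r, Tendsto (fun n => u n z) 𝒰 (𝓝 (v z))) :
    HarmonicAt v w ∧ Tendsto (fun n => deriv (h n) w) 𝒰 (𝓝 (gc v w)) := sorry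

/-- The limit of a sequence of approximate blow-downs is a blow-down. -/
theorem Pre.limit [Finite Ty] {supp : Ty → Finset ι} {P : Ty → J → MvPolynomial ι ℂ} {C A : ℝ} {𝒰 : Ultrafilter ℕ} {q : ℕ → J → ℂ}
    {U : ℕ → ι → ℂ → ℝ} (hC : 0 ≤ C) (h : Pre supp P C A (𝒰 : Filter ℕ) q U) (hq : ∀ n j, ‖q n j‖ ≤ 1) :
    ∃ (q' : J → ℂ) (V : ι → ℂ → ℝ), Bl supp P C A q' V ∧ (∀ j, Tendsto (fun n => q n j) 𝒰 (𝓝 (q' j))) ∧
      (∀ i z, Tendsto (fun n => U n i z) 𝒰 (𝓝 (V i z))) ∧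
      ∀ R ε : ℝ, 0 < ε → ∀ᶠ n in (𝒰 : Filter ℕ), ∀ i, ∀ z ∈ closedBall (0 : ℂ) R, |U n i z - V i z| ≤ ε := sorry

/-! ## Comp: translations, scaling, local constancy of the type -/

/-- translation and scaling -/
theorem Bl.affine {supp : Ty → Finset ι} {P : Ty → J → MvPolynomial ι ℂ} {C A : ℝ} {q : J → ℂ} {U : ι → ℂ → ℝ}
    (h : Bl supp P C A q U) (p : ℂ) {R : ℝ} (hR : 0 < R) : Bl supp P C A q (fun i z => U i (p + R * z) / R) := sorry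

/-- members of the class form a `Pre` sequence -/
theorem Bl.pre {supp : Ty → Finset ι} {P : Ty → J → MvPolynomial ι ℂ} {C A : ℝ} {l : Filter ℕ} {q : ℕ → J → ℂ}
    {U : ℕ → ι → ℂ → ℝ} (hC : 0 ≤ C) (h : ∀ n, Bl supp P C A (q n) (U n)) {B : ℝ} (hB : ∀ n i, U n i 0 ≤ B) :
    Pre supp P C A l q U := sorry

/-- the type is valid near the point (finitely many closed sets cover a connected neighbourhood; identity theorem) -/
theorem Bl.typ_near [Finite Ty] {supp : Ty → Finset ι} {P : Ty → J → MvPolynomial ι ℂ} {C A : ℝ} {q : J → ℂ} {U : ι → ℂ → ℝ}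
    (h : Bl supp P C A q U) {w : ℂ} (hw : 0 < ∑ i, U i w) :
    ∃ t, ∀ᶠ z in 𝓝 w, (∀ i, i ∉ supp t → U i z = 0) ∧ ∀ j, eval (fun i => gc (U i) z) (P t j) = q j := sorry

/-! ## HpPol: homogeneous polynomials in at most two variables -/

theorem exists_hp [Nonempty ι] {s : Finset ι} (hs : s.card ≤ 2) {m : ℕ} {P : MvPolynomial ι ℂ} (hP : P.IsHomogeneous m)
    (hPs : ∀ y y' : ι → ℂ, (∀ i ∈ s, y i = y' i) → eval y P = eval y' P) :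
    ∃ (e₁ e₂ : ι) (c : ℕ → ℂ), (∀ i ∈ s, i = e₁ ∨ i = e₂) ∧ ∀ y : ι → ℂ, (∀ i, i ∉ s → y i = 0) → eval y P = hp c m (y e₁) (y e₂) := sorry

/-! ## FamB: the class is a `BlowFam` (from Har, Lim, Comp, HpPol) -/

/-- `j` is fixed, and `‖q j‖ = κ`. -/
theorem blowFam [Finite Ty] [Nonempty ι] {supp : Ty → Finset ι} {P : Ty → J → MvPolynomial ι ℂ} {C A : ℝ} (hC : 0 ≤ C) (hA : 0 < A)
    (hs : ∀ t, (supp t).card ≤ 2) {m : J → ℕ} (hm : ∀ j, 1 ≤ m j) (hP : ∀ t j, (P t j).IsHomogeneous (m j))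
    (hPs : ∀ t j (y y' : ι → ℂ), (∀ i ∈ supp t, y i = y' i) → eval y (P t j) = eval y' (P t j)) {j : J} {κ : ℝ} (hκ : 0 < κ) :
    ∃ (Q : Ty → ℕ → ℂ) (e₁ e₂ : Ty → ι), BlowFam Q (m j) e₁ e₂ (A / 6) (2 * C)
      {U | ∃ q : J → ℂ, Bl supp P C A q U ∧ ‖q j‖ = κ ∧ ∀ j', ‖q j'‖ ≤ 1} := sorry

/-! ## LiouF (helper13): Liouville's theorem, from SDR/Liou -/

theorem blow_lin {Cr : Type} {Q : Cr → ℕ → ℂ} {m : ℕ} {e₁ e₂ : Cr → ι} {c C : ℝ} {𝓤 : Set (ι → ℂ → ℝ)} (h : BlowFam Q m e₁ e₂ c C 𝓤)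
    (hm : 1 ≤ m) (hc : 0 < c) {U : ι → ℂ → ℝ} (hU : U ∈ 𝓤) : ∃ (u : ℂ) (b : ℝ) (β γ : ι → ℝ), Lin u b β γ U := sorry

/-! ## Line (from FamB, LiouF) -/

theorem Bl.line [Finite Ty] {supp : Ty → Finset ι} {P : Ty → J → MvPolynomial ι ℂ} {C A : ℝ} {q : J → ℂ} {U : ι → ℂ → ℝ} (hC : 0 ≤ C)
    (hA : 0 < A) (h : Bl supp P C A q U) (hs : ∀ t, (supp t).card ≤ 2) {m : J → ℕ} (hm : ∀ j, 1 ≤ m j)
    (hP : ∀ t j, (P t j).IsHomogeneous (m j))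
    (hPs : ∀ t j (y y' : ι → ℂ), (∀ i ∈ supp t, y i = y' i) → eval y (P t j) = eval y' (P t j))
    (hq : ∀ j, ‖q j‖ ≤ 1) (hq1 : ∃ j, q j ≠ 0) :
    ∃ (u : ℂ) (b : ℝ) (β γ : ι → ℝ), Lin u b β γ U ∧ A / 2 ≤ ∑ i, β i ∧ A / 2 ≤ ∑ i, γ i := sorry

/-! ## Apx: on a slow disc `lam i` is the real part of a holomorphic function up to a constant -/

variable {N : ℕ} {G : Geo N} {T : Set (EN N)} {rho : EN N → ℝ} {M : ℕ} {c₀ C δ : ℝ} {g : (ℂ → EN N) → ℂ → ℝ}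

theorem apx (hG : G.Ok) : ∃ B η : ℝ, 0 < B ∧ 0 < η ∧ ∀ (F : ℂ → EN N) (w : ℂ) (r : ℝ), 0 < r → Differentiable ℂ F → (∀ z, F z ∈ G.K) →
    (∀ z ∈ ball w r, fs (F z) (deriv F z) ≤ η / r) → ∃ h : G.ι → ℂ → ℂ, (∀ i, DifferentiableOn ℂ (h i) (ball w r)) ∧
      ∀ i, ∀ z ∈ ball w r, |G.lam i (F z) - (h i z).re| ≤ B ∧ ‖G.ell i (F z) (deriv F z) + deriv (h i) z‖ ≤ B * fs (F z) (deriv F z) := sorry

/-! ## Bas: elementary facts on `lam i` along curves -/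

theorem lam_lower (hG : G.Ok) : ∃ B : ℝ, ∀ i, ∀ x ∈ G.K, -B ≤ G.lam i x := sorry

/-- `∑ lam i` and `log ‖x‖` on the normalised points -/
theorem lam_log (hG : G.Ok) : ∃ B : ℝ, 0 < B ∧ ∀ x ∈ G.K, G.p x = 1 →
    ∑ i, G.lam i x ≤ B * (Real.log ‖x‖ + B) ∧ (∀ i, G.lam i x ≤ B * (Real.log ‖x‖ + B)) ∧ Real.log ‖x‖ ≤ B * (∑ i, G.lam i x + B) := sorry

/-- `lam i` is Lipschitz along curves of bounded length `L` -/
theorem lam_lip (hG : G.Ok) {F : ℂ → EN N} (hF : Differentiable ℂ F) (hK : ∀ z, F z ∈ G.K) {B : ℝ} (hL : ∀ z, G.L (F z) (deriv F z) ≤ B) (i : G.ι) (z w : ℂ) :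
    |G.lam i (F z) - G.lam i (F w)| ≤ B * ‖z - w‖ := sorry

/-! ## PreF: rescaled curves (from Apx, Bas, Face: growth, lprime, speed, L_bdd) -/

theorem preF (S : Base G T rho M c₀ C δ g) : ∃ B A' : ℝ, 0 < B ∧ 0 < A' ∧ ∀ (l : Filter ℕ) (q : ℕ → G.J → ℂ) (F : ℕ → ℂ → EN N) (p : ℕ → ℂ)
    (R : ℕ → ℝ), (∀ n, G.Cl T (q n) (F n)) → (∀ n, p n ∈ Gd rho δ (F n)) → (∀ n, 0 < R n) → Tendsto R l atTop →
    Pre G.supp G.Pol B A' l (fun n j => (-1) ^ G.m j * q n j) (fun n i z => G.lam i (F n (p n + R n * z)) / R n) := sorry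

/-! ## Flat (from PreF, Lim, Line): the statement `flat` of Face -/

end Pool.Agent.SR2
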