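import Pool.Agent.SR2.EDefs

/-!
# SR2 StubE: block E (straightness), statements of the modules; never import this file in a hand-in

Every module = one file `Pool/Agent/SR2/E<Name>.lean`, namespace `Pool.Agent.SR2.BE`, statements verbatim, importing `EDefs` and the finished modules.

Stage 1: `τ_i = lam_i / S` has oscillation `≤ C r ^ (-α)` at the scale `r` (`osc_step`, `iter`).  Stage 2: so the gradients of the `lam_i` are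
`t_i gc S + O (r ^ (-α))`, and the relation makes `gc S` constant up to `O (r ^ (-α₁))` (`top_const`, `top_aff`); flatness `η` at all scales `≥ r₁` gives
flatness `η / 2 + C r ^ (-γ)` at all scales `≥ r₁ / c₁` (`low_region`, `flat_step`).  Stage 3: limit (`limit_fit`), `straight_abs`.
-/

set_option autoImplicit false

open Topology Filter Metric Complex InnerProductSpace Laplacian

noncomputable section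

namespace Pool.Agent.SR2.BE.Stub

open Pool.Agent.SDR (gc)

/-! ## pure analysis -/

/-- MODULE Iter.  `a₀ = B₀`, `a_(n+1) = a_n / 2 + C₁ (R₁ c₁^(-(n+1)))^(-γ)`; `a_n ≤ D σ^n`, `σ = max (3/4) (c₁^γ)`; `R'` so large that
`C₁ R'^(-γ) ≤ B₀ / 2`, so `a_n ≤ B₀` for all `n`. -/
theorem iter {Q : ℝ → ℝ → Prop} (mono : ∀ r a b, a ≤ b → Q r a → Q r b) {c₁ C₁ R₁ B₀ γ : ℝ} (hc : 0 < c₁) (hc1 : c₁ < 1) (hC : 0 ≤ C₁)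
    (hR : 0 < R₁) (hB : 0 < B₀) (hγ : 0 < γ) (h0 : ∀ r, R₁ ≤ r → Q r B₀)
    (hs : ∀ a r₁, 0 ≤ a → a ≤ B₀ → R₁ ≤ r₁ → (∀ r, r₁ ≤ r → Q r a) → ∀ r, r₁ / c₁ ≤ r → Q r (a / 2 + C₁ * r ^ (-γ))) :
    ∃ α C' R' : ℝ, 0 < α ∧ α ≤ 1 / 2 ∧ 0 < C' ∧ R₁ ≤ R' ∧ ∀ r, R' ≤ r → Q r (C' * r ^ (-α)) := by
  sorry

/-- MODULE Max.  At an interior maximum the Laplacian is `≤ 0`. -/
theorem weak_max {K : Set ℂ} (hK : IsCompact K) {f : ℂ → ℝ} (hf : ContinuousOn f K)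
    (hpos : ∀ z ∈ interior K, 0 < f z → ContDiffAt ℝ 2 f z ∧ 0 < Δ f z) (hb : ∀ z ∈ K, z ∉ interior K → f z ≤ 0) : ∀ z ∈ K, f z ≤ 0 := by
  sorry

/-- MODULE HalfA.  Barrier `m + 2 A log (y / h) + M b`, `b z = ((x - x₀)² - y² + R y) / (R / 2)²` on the half disc of radius `R / 2` about the foot `x₀`
of `z`. -/
theorem half_lin {w : ℂ → ℝ} {u a : ℂ} {R h A m M : ℝ} (hu : ‖u‖ = 1) (hR : 0 < R) (hh : 0 < h) (hA : 0 ≤ A) (hm : 0 ≤ m) (hM : 0 ≤ M)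
    (hc : ∀ z ∈ closedBall a R, h ≤ ht u a z → ContDiffAt ℝ 2 w z)
    (hl : ∀ z ∈ closedBall a R, h ≤ ht u a z → |Δ w z| ≤ A / ht u a z ^ 2)
    (hb : ∀ z ∈ closedBall a R, ht u a z = h → |w z| ≤ m) (hM' : ∀ z ∈ closedBall a R, h ≤ ht u a z → |w z| ≤ M) :
    ∀ z ∈ closedBall a (R / 2), h ≤ ht u a z → |w z| ≤ m + 2 * A * Real.log (ht u a z / h) + 4 * M * ht u a z / R := by
  sorry

/-- MODULE HalfB.  `f = Im (∑ c_k z^k)` with real `c_k` (`k ≥ 1`): trigonometric approximation of an odd function by odd trigonometric polynomials;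
`|c_k| R^k ≤ 2 (M + ε)`. -/
theorem odd_approx {φ : ℂ → ℝ} {R M ε : ℝ} (hR : 0 < R) (hM : 0 ≤ M) (hε : 0 < ε) (hφ : ContinuousOn φ (sphere 0 R))
    (hodd : ∀ z ∈ sphere (0 : ℂ) R, φ (star z) = - φ z) (hb : ∀ z ∈ sphere (0 : ℂ) R, |φ z| ≤ M) :
    ∃ (f : ℂ → ℝ) (b : ℝ), ContDiff ℝ 2 f ∧ (∀ z, Δ f z = 0) ∧ (∀ z : ℂ, z.im = 0 → f z = 0) ∧ (∀ z ∈ sphere (0 : ℂ) R, |f z - φ z| ≤ ε) ∧
      |b| ≤ 8 * (M + ε) / R ∧ ∀ z ∈ closedBall (0 : ℂ) (R / 2), |f z - b * z.im| ≤ 16 * (M + ε) * ‖z‖ ^ 2 / R ^ 2 := by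
  sorry

/-- MODULE Half (the half disc lemma).  Rotate to `a = 0`, `u = I` (`z ↦ a - I u z`).  `|w| ≤ m₁ + 4 M y / R` by `half_lin`, soft threshold of `w` at
`m₂ = m + 2 A log (R / h) + 4 M h / R` on the circle of radius `R / 2`, odd extension, `odd_approx` with `ε = M h / R`, comparison. -/
theorem half_disc : ∃ C : ℝ, 0 < C ∧ ∀ (w : ℂ → ℝ) (u a : ℂ) (R h A m M K : ℝ), ‖u‖ = 1 → 0 < R → 0 < h → h ≤ R / 8 → 0 ≤ A → 0 ≤ m → 0 ≤ M →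
    4 ≤ K → (∀ z ∈ closedBall a R, h ≤ ht u a z → ContDiffAt ℝ 2 w z) → (∀ z ∈ closedBall a R, h ≤ ht u a z → |Δ w z| ≤ A / ht u a z ^ 2) →
    (∀ z ∈ closedBall a R, ht u a z = h → |w z| ≤ m) → (∀ z ∈ closedBall a R, h ≤ ht u a z → |w z| ≤ M) →
    ∃ b : ℝ, |b| ≤ C * M / R ∧ ∀ z ∈ closedBall a (R / K), h ≤ ht u a z →
      |w z - b * ht u a z| ≤ C * (m + M * h / R + A * (1 + Real.log (R / h)) + M / K ^ 2) := by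
  sorry

/-- MODULE Grad.  Gradient estimate, from `weak_max` with the barrier of Gilbarg-Trudinger (odd part with respect to a line through `z`), or from
`half_lin`-like comparison. -/
theorem grad_est : ∃ C : ℝ, 0 < C ∧ ∀ (f : ℂ → ℝ) (z : ℂ) (r A M : ℝ), 0 < r → 0 ≤ A → 0 ≤ M → (∀ w ∈ closedBall z r, ContDiffAt ℝ 2 f w) →
    (∀ w ∈ closedBall z r, |Δ f w| ≤ A) → (∀ w ∈ closedBall z r, |f w| ≤ M) → ‖gc f z‖ ≤ C * (M / r + A * r) := by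
  sorry

/-- MODULE Cov.  A connected set which is covered by `n` closed discs of radius `e` has diameter at most `2 n e`. -/
theorem cover_diam {s : Set ℂ} (hs : IsPreconnected s) (t : Finset ℂ) {e : ℝ} (he : 0 ≤ e) (h : ∀ z ∈ s, ∃ c ∈ t, ‖z - c‖ ≤ e) :
    ∀ z ∈ s, ∀ z' ∈ s, ‖z - z'‖ ≤ 2 * t.card * e := by
  sorry

/-- MODULE Cov.  `∏ (s - r) = s ^ m - p` over the `m`-th roots `r` of `p`. -/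
theorem near_root {m : ℕ} (hm : 1 ≤ m) (p : ℂ) : ∃ t : Finset ℂ, t.card ≤ m ∧ ∀ (s : ℂ) (e : ℝ), 0 ≤ e → ‖s ^ m - p‖ ≤ e ^ m → ∃ r ∈ t, ‖s - r‖ ≤ e := by
  sorry

/-- MODULE Aff.  An affine function which is small on a disc is small on larger discs. -/
theorem affine_le {k : ℂ} {b e r s : ℝ} {q a : ℂ} (hr : 0 < r) (hs : 0 ≤ s) (h : ∀ z ∈ closedBall q r, |(k * (z - a)).re + b| ≤ e) :
    ∀ z ∈ closedBall q s, |(k * (z - a)).re + b| ≤ (1 + 2 * s / r) * e := by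
  sorry

/-- MODULE Aff.  Comparison of two functions `vee` with the same center. -/
theorem vee_close {ι : Type} [Fintype ι] {A Bd : ℝ} (hA : 0 < A) : ∃ C : ℝ, 0 < C ∧ ∀ (u u' a : ℂ) (β β' γ γ' : ι → ℝ) (R e : ℝ), ‖u‖ = 1 → ‖u'‖ = 1 →
    0 < R → 0 ≤ e → (∀ i, 0 ≤ β i ∧ 0 ≤ β' i ∧ 0 ≤ γ i ∧ 0 ≤ γ' i) → (∀ i, β i ≤ Bd ∧ β' i ≤ Bd ∧ γ i ≤ Bd ∧ γ' i ≤ Bd) → A ≤ ∑ i, β i → A ≤ ∑ i, β' i →
    A ≤ ∑ i, γ i → A ≤ ∑ i, γ' i → (∀ z ∈ closedBall a R, ∀ i, |vee u a (β i) (β' i) z - vee u' a (γ i) (γ' i) z| ≤ e) → 0 ≤ (star u * u').re →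
    ‖u - u'‖ ≤ C * e / R ∧ ∀ i, |β i - γ i| ≤ C * e / R ∧ |β' i - γ' i| ≤ C * e / R := by
  sorry

variable {X ι : Type} [Fintype ι] {Φ : Fam X ι} {C c R₀ A c₂ C₂ R₂ : ℝ}

/-! ## geometry of the flat discs -/

/-- MODULE Dep.  `A |y| - n e ≤ S ≤ n C (1 + d)`; `c d ≤ S ≤ 3 n C |y| + n e` where `R₀ ≤ d` (`β i ≤ 3 C` from the value at `a + R u`). -/
theorem exists_dep (hΦ : Hyp Φ C c R₀) (hA : 0 < A) : ∃ c₂ C₂ R₂ : ℝ, R₀ ≤ R₂ ∧ Dep Φ A c₂ C₂ R₂ := by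
  sorry

/-- MODULE Dep.  The other side. -/
theorem Fit.flip {x : X} {a : ℂ} {R e : ℝ} {u : ℂ} {β β' : ι → ℝ} (h : Fit Φ x a R e A u β β') : Fit Φ x a R e A (-u) β' β := by
  sorry

/-- MODULE Dep.  Bounds for the rates. -/
theorem Fit.rate_le (hΦ : Hyp Φ C c R₀) {x : X} {a : ℂ} {R e : ℝ} {u : ℂ} {β β' : ι → ℝ} (ha : a ∈ Φ.G x) (hR : 1 ≤ R) (he : e ≤ R)
    (h : Fit Φ x a R e A u β β') (i : ι) : β i ≤ 3 * C ∧ β' i ≤ 3 * C := by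
  sorry

/-- MODULE Chain.  The vertical chain `z`, `z + y u`, `z + 3 y u`, .. of heights `y, 2 y, 4 y, .., R`, then the horizontal step to `a + R u`; each step is
admissible in `OscLe` at the scale `(2 C₂ + 1) y_j` about a good point at distance `≤ 2 d (z_j)`. -/
theorem chain (hΦ : Hyp Φ C c R₀) (hD : Dep Φ A c₂ C₂ R₂) (hR₂ : R₀ ≤ R₂) {x : X} {a : ℂ} (ha : a ∈ Φ.G x) {R e : ℝ} {u : ℂ} {β β' : ι → ℝ} (hR : 1 ≤ R)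
    (hfit : Fit Φ x a (4 * R) e A u β β') {h B : ℝ} (hh : R₂ ≤ h) (he : e ≤ c₂ * h) (hB : 0 ≤ B)
    (hO : ∀ r, h ≤ r → OscLe Φ (c₂ / (2 * C₂ + 1)) r B) {z : ℂ} (hz : z ∈ closedBall a R) (hz' : h ≤ ht u a z) (i : ι) :
    |Φ.lam x i z / Φ.S x z - Φ.lam x i (a + R * u) / Φ.S x (a + R * u)| ≤ (3 + 2 * Real.log (R / ht u a z)) * B := by
  sorry

/-! ## stage 1 -/

/-- MODULE Osc.  `w = lam_i - t S`, `t` = the quotient at `a + R u`, `R = K r`, `h = δ R`: `|w| ≤ C₃ B y (3 + 2 log (R / y))` by `chain`; `half_disc` with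
`|Δ w| ≤ A_L / y²`; `S = β_S y + O (n η 4 R)`, `S ≥ c κ r` at the two points.  First `K`, then `δ`, then `η`.  `c₁ = δ K`. -/
theorem osc_step (hΦ : Hyp Φ C c R₀) (hA : 0 < A) (hD : Dep Φ A c₂ C₂ R₂) (hR₂ : R₀ ≤ R₂) (hF : AllFlat Φ A) :
    ∃ c₁ C₁ R₁ : ℝ, 0 < c₁ ∧ c₁ < 1 ∧ 0 ≤ C₁ ∧ 1 ≤ R₁ ∧ ∀ B r₁, 0 ≤ B → R₁ ≤ r₁ → (∀ r, r₁ ≤ r → OscLe Φ (c₂ / (2 * C₂ + 1)) r B) →
      ∀ r, r₁ / c₁ ≤ r → OscLe Φ (c₂ / (2 * C₂ + 1)) r (B / 2 + C₁ * r ^ (-(1 : ℝ))) := by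
  sorry

/-- MODULE Osc2.  `iter` with `B₀ = 1` (`0 ≤ lam_i / S ≤ 1`). -/
theorem osc_pow (hΦ : Hyp Φ C c R₀) (hA : 0 < A) (hD : Dep Φ A c₂ C₂ R₂) (hR₂ : R₀ ≤ R₂) (hF : AllFlat Φ A) :
    ∃ α C' R' : ℝ, 0 < α ∧ α ≤ 1 / 2 ∧ 0 < C' ∧ 1 ≤ R' ∧ ∀ r, R' ≤ r → OscLe Φ (c₂ / (2 * C₂ + 1)) r (C' * r ^ (-α)) := by
  sorry

/-! ## stage 2 -/

/-- MODULE Top.  `chain` at the height `δ R / 2` with `B = C' (δ R / 2)^(-α)`, `grad_est` on the disc of radius `δ R / 4`. -/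
theorem top_grad (hΦ : Hyp Φ C c R₀) (hA : 0 < A) (hD : Dep Φ A c₂ C₂ R₂) (hR₂ : R₀ ≤ R₂) {α C' R' : ℝ} (hα : 0 < α) (hα' : α ≤ 1 / 2) (hC' : 0 < C')
    (hO : ∀ r, R' ≤ r → OscLe Φ (c₂ / (2 * C₂ + 1)) r (C' * r ^ (-α))) {δ : ℝ} (hδ : 0 < δ) (hδ' : δ ≤ 1 / 8) :
    ∃ C₃ R₃ : ℝ, 0 < C₃ ∧ 1 ≤ R₃ ∧ ∀ (x : X) (a : ℂ), a ∈ Φ.G x → ∀ (R e : ℝ) (u : ℂ) (β β' : ι → ℝ), R₃ ≤ R → Fit Φ x a (8 * R) e A u β β' →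
      e ≤ c₂ * δ * R / 4 → ∃ t : ι → ℝ, (∀ i, 0 ≤ t i) ∧ ∑ i, t i = 1 ∧ ∀ z ∈ closedBall a R, δ * R ≤ ht u a z →
        ‖gc (Φ.S x) z‖ ≤ C₃ ∧ ∀ i, ‖gc (Φ.lam x i) z - (t i : ℂ) * gc (Φ.S x) z‖ ≤ C₃ * R ^ (-α) := by
  sorry

/-- MODULE TopC.  With `top_grad`, `Rel`, `near_root`, `cover_diam` (the region `closedBall a R ∩ {δ R ≤ ht u a}` is convex, `gc (S x)` is continuous
there): `gc (S x)` is constant up to `C R ^ (-α₁)`, `α₁ = α / max m`. -/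
theorem top_const (hΦ : Hyp Φ C c R₀) (hD : Dep Φ A c₂ C₂ R₂) (hR₂ : R₀ ≤ R₂) {cq : ℝ} {J Ty : Type} [Fintype J] [Fintype Ty] {m : J → ℕ}
    {Pol : Ty → J → MvPolynomial ι ℂ} {q : X → J → ℂ} (hrel : Rel Φ C R₀ cq m Pol q) {α : ℝ} (hα : 0 < α) (hα' : α ≤ 1 / 2) {δ : ℝ} (hδ : 0 < δ)
    (hδ' : δ ≤ 1 / 8) {C₃ R₃ : ℝ} (hC₃ : 0 < C₃) (hR₃ : 1 ≤ R₃) :
    ∃ α₁ C₄ R₄ : ℝ, 0 < α₁ ∧ α₁ ≤ 1 / 2 ∧ 0 < C₄ ∧ R₃ ≤ R₄ ∧ ∀ (x : X) (a : ℂ), a ∈ Φ.G x → ∀ (R e : ℝ) (u : ℂ) (β β' : ι → ℝ), R₄ ≤ R →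
      Fit Φ x a (8 * R) e A u β β' → e ≤ c₂ * δ * R / 4 → ∀ t : ι → ℝ, (∀ i, 0 ≤ t i) → ∑ i, t i = 1 →
      (∀ z ∈ closedBall a R, δ * R ≤ ht u a z → ‖gc (Φ.S x) z‖ ≤ C₃ ∧ ∀ i, ‖gc (Φ.lam x i) z - (t i : ℂ) * gc (Φ.S x) z‖ ≤ C₃ * R ^ (-α)) →
      ∃ k : ℂ, ∀ z ∈ closedBall a R, δ * R ≤ ht u a z → ∀ i, ‖gc (Φ.lam x i) z - (t i : ℂ) * k‖ ≤ C₄ * R ^ (-α₁) := by
  sorry

/-- MODULE TopA.  Mean value inequality on the convex region; `osc_pow`, `top_grad`, `top_const`. -/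
theorem top_aff (hΦ : Hyp Φ C c R₀) (hA : 0 < A) (hD : Dep Φ A c₂ C₂ R₂) (hR₂ : R₀ ≤ R₂) (hF : AllFlat Φ A) {cq : ℝ} {J Ty : Type} [Fintype J]
    [Fintype Ty] {m : J → ℕ} {Pol : Ty → J → MvPolynomial ι ℂ} {q : X → J → ℂ} (hrel : Rel Φ C R₀ cq m Pol q) {δ : ℝ} (hδ : 0 < δ) (hδ' : δ ≤ 1 / 8) :
    ∃ α₁ C₅ R₅ : ℝ, 0 < α₁ ∧ α₁ ≤ 1 / 2 ∧ 0 < C₅ ∧ 1 ≤ R₅ ∧ ∀ (x : X) (a : ℂ), a ∈ Φ.G x → ∀ (R e : ℝ) (u : ℂ) (β β' : ι → ℝ), R₅ ≤ R →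
      Fit Φ x a (8 * R) e A u β β' → e ≤ c₂ * δ * R / 4 → ∃ t k b, TopAff Φ x a R δ (C₅ * R ^ (1 - α₁)) u t k b := by
  sorry

/-- MODULE Low.  Let `z ∈ closedBall a R`.  If `|ht u a z| < δ R`, then `d z ≤ C δ R` and there is a good point `a'` near `z`; with the datum
`(u', γ, γ')` at `a'` and the scale `K₃ δ R` (`u'` close to `u`, up to the sign, as both data fit on the disc at `a'`), `affine_le` on the disc of radius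
`K₃ δ R / 4` at `a' + (K₃ δ R / 2) u`: the affine functions agree with `γ ht u' a'` resp. `- γ' ht u' a'` up to `18 (e + η K₃ δ R)`. -/
theorem low_region (hΦ : Hyp Φ C c R₀) (hA : 0 < A) (hD : Dep Φ A c₂ C₂ R₂) (hR₂ : R₀ ≤ R₂) :
    ∃ K₃ C₆ δ₀ : ℝ, 1 ≤ K₃ ∧ 0 < C₆ ∧ 0 < δ₀ ∧ δ₀ ≤ 1 / 8 ∧ K₃ * δ₀ ≤ 1 ∧ ∀ δ : ℝ, 0 < δ → δ ≤ δ₀ → ∃ η₁ R₆ : ℝ, 0 < η₁ ∧ 1 ≤ R₆ ∧
      ∀ (x : X) (a : ℂ), a ∈ Φ.G x → ∀ (R e η : ℝ), R₆ ≤ R → 0 ≤ e → 0 ≤ η → η ≤ η₁ →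
      (∀ a' ∈ Φ.G x, ∃ u' γ γ', Fit Φ x a' (K₃ * δ * R) (η * (K₃ * δ * R)) A u' γ γ') → ∀ (u : ℂ) (β β' : ι → ℝ),
      Fit Φ x a (16 * R) (η * (16 * R)) A u β β' → ∀ (t t' : ι → ℝ) (k k' : ℂ) (b b' : ι → ℝ), TopAff Φ x a (2 * R) (δ / 2) e u t k b →
      TopAff Φ x a (2 * R) (δ / 2) e (-u) t' k' b' → ∀ z ∈ closedBall a R,
        ((∀ i, |Φ.lam x i z - (t i * (k * (z - a)).re + b i)| ≤ C₆ * (e + η * δ * R)) ∨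
          ∀ i, |Φ.lam x i z - (t' i * (k' * (z - a)).re + b' i)| ≤ C₆ * (e + η * δ * R)) ∧
        (z ∈ Φ.G x → (∀ i, |Φ.lam x i z - (t i * (k * (z - a)).re + b i)| ≤ C₆ * (e + η * δ * R)) ∧
          ∀ i, |Φ.lam x i z - (t' i * (k' * (z - a)).re + b' i)| ≤ C₆ * (e + η * δ * R)) := by
  sorry

/-- MODULE Line.  The two affine families of `low_region` give a datum at `(a, R)`: `û = star k / ‖k‖`, rates `t_i ‖k‖`, `t'_i ‖k'‖`.  At `a` and at a good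
point `a''` at distance `≥ R / 2` (near `a + (3/4) R I u`) both families are `≤ E + C`; so the lines `Re k (z - a) = 0`, `Re k' (z - a) = 0` agree up to
`C (E + C)`; where the height is negative and the first family fits, `S ≥ 0` shows that the height is small.  The datum with `2 A` (any `u₀`) shows that
the new rates have sum `≥ A`. -/
theorem line_fit (hΦ : Hyp Φ C c R₀) (hA : 0 < A) (hD : Dep Φ A c₂ C₂ R₂) (hR₂ : R₀ ≤ R₂) :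
    ∃ C₇ η₂ R₇ : ℝ, 0 < C₇ ∧ 0 < η₂ ∧ 1 ≤ R₇ ∧ ∀ (x : X) (a : ℂ), a ∈ Φ.G x → ∀ (R E : ℝ), R₇ ≤ R → 0 ≤ E → E ≤ η₂ * R →
      (∃ u₀ β₀ β₀', Fit Φ x a (16 * R) (η₂ * (16 * R)) (2 * A) u₀ β₀ β₀') → ∀ (u : ℂ) (β β' : ι → ℝ),
      Fit Φ x a (16 * R) (η₂ * (16 * R)) A u β β' → ∀ (t t' : ι → ℝ) (k k' : ℂ) (b b' : ι → ℝ), TopAff Φ x a (2 * R) (1 / 16) E u t k b →
      TopAff Φ x a (2 * R) (1 / 16) E (-u) t' k' b' → (∀ z ∈ closedBall a R,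
        ((∀ i, |Φ.lam x i z - (t i * (k * (z - a)).re + b i)| ≤ E) ∨ ∀ i, |Φ.lam x i z - (t' i * (k' * (z - a)).re + b' i)| ≤ E) ∧
        (z ∈ Φ.G x → (∀ i, |Φ.lam x i z - (t i * (k * (z - a)).re + b i)| ≤ E) ∧
          ∀ i, |Φ.lam x i z - (t' i * (k' * (z - a)).re + b' i)| ≤ E)) →
      ∃ u' γ γ', Fit Φ x a R (C₇ * (E + 1)) A u' γ γ' := by
  sorry

/-- MODULE Step.  `top_aff` at `2 R` (with `δ / 2`) for `u` and `-u`, `low_region`, `line_fit`: `C₇ C₆ δ ≤ 1/2`. -/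
theorem flat_step (hΦ : Hyp Φ C c R₀) (hA : 0 < A) (hD : Dep Φ A c₂ C₂ R₂) (hR₂ : R₀ ≤ R₂) (hF : AllFlat Φ (2 * A)) {cq : ℝ} {J Ty : Type} [Fintype J]
    [Fintype Ty] {m : J → ℕ} {Pol : Ty → J → MvPolynomial ι ℂ} {q : X → J → ℂ} (hrel : Rel Φ C R₀ cq m Pol q) :
    ∃ c₁ C₁ R₁ η₀ γ : ℝ, 0 < c₁ ∧ c₁ < 1 ∧ 0 ≤ C₁ ∧ 1 ≤ R₁ ∧ 0 < η₀ ∧ 0 < γ ∧ γ ≤ 1 / 2 ∧ ∀ η r₁, 0 ≤ η → η ≤ η₀ → R₁ ≤ r₁ →
      (∀ r, r₁ ≤ r → ∀ (x : X) (a : ℂ), a ∈ Φ.G x → ∃ u β β', Fit Φ x a r (η * r) A u β β') →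
      ∀ r, r₁ / c₁ ≤ r → ∀ (x : X) (a : ℂ), a ∈ Φ.G x → ∃ u β β', Fit Φ x a r ((η / 2 + C₁ * r ^ (-γ)) * r) A u β β' := by
  sorry

/-! ## stage 3 -/

/-- MODULE Lim.  The data at the scales `2^n R'`, after flips, converge (`vee_close`). -/
theorem limit_fit (hΦ : Hyp Φ C c R₀) (hA : 0 < A) {α C' R' : ℝ} (hα : 0 < α) (hα' : α ≤ 1 / 2) (hC' : 0 < C') (hR' : 1 ≤ R')
    (h : ∀ r, R' ≤ r → ∀ (x : X) (a : ℂ), a ∈ Φ.G x → ∃ u β β', Fit Φ x a r (C' * r ^ (-α) * r) A u β β') :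
    ∃ B : ℝ, 0 < B ∧ ∀ (x : X) (a : ℂ), a ∈ Φ.G x → ∃ (u : ℂ) (β β' : ι → ℝ), ‖u‖ = 1 ∧ (∀ i, 0 ≤ β i ∧ 0 ≤ β' i) ∧ A ≤ ∑ i, β i ∧ A ≤ ∑ i, β' i ∧
      ∀ z i, |Φ.lam x i z - vee u a (β i) (β' i) z| ≤ B * (2 + ‖z - a‖) ^ (1 - α) := by
  sorry

/-- MODULE Str.  `exists_dep`, `flat_step`, `iter`, `limit_fit`. -/
theorem straight_abs (hΦ : Hyp Φ C c R₀) (hA : 0 < A) (hF : AllFlat Φ (2 * A)) {cq : ℝ} {J Ty : Type} [Fintype J]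
    [Fintype Ty] {m : J → ℕ} {Pol : Ty → J → MvPolynomial ι ℂ} {q : X → J → ℂ} (hrel : Rel Φ C R₀ cq m Pol q) :
    ∃ γ B : ℝ, 0 < γ ∧ γ < 1 ∧ 0 < B ∧ ∀ (x : X) (a : ℂ), a ∈ Φ.G x → ∃ (u : ℂ) (β β' : ι → ℝ), ‖u‖ = 1 ∧ (∀ i, 0 ≤ β i ∧ 0 ≤ β' i) ∧
      A ≤ ∑ i, β i ∧ A ≤ ∑ i, β' i ∧ ∀ z i, |Φ.lam x i z - vee u a (β i) (β' i) z| ≤ B * (2 + ‖z - a‖) ^ γ := by
  sorry

end Pool.Agent.SR2.BE.Stub
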