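import Pool.Agent.SR2.EGDefs

/-!
# SR2 StubE2: block E, the geometric end (stubs; never import this file in a hand-in)

Namespace `Pool.Agent.SR2`, files `EGa`, `EGb`, `EGc`, `EGd`.
-/

set_option autoImplicit false

open Topology Filter Metric InnerProductSpace Laplacian

noncomputable section

namespace Pool.Agent.SR2

open Pool.Agent.H36.BP (EN fs)
open Pool.Agent.SDR (gc)
open Pool.Agent.SR2.BE (Fam Hyp Fit AllFlat Rel ht vee)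

variable {N : ℕ} {G : Geo N} {T : Set (EN N)} {rho : EN N → ℝ} {M : ℕ} {c₀ C δ : ℝ} {g : (ℂ → EN N) → ℂ → ℝ}

namespace Stub

/-- MODULE EGa.  `Pool.Agent.MQ.lap_log_norm` (MQ/Fub) for `F` and `E i ∘ F`, `Ok.fsE`; the gradient as in `lam_grad` of StubA (AGrd, 82). -/
theorem lam_c2 (hG : G.Ok) : ∃ B : ℝ, 0 ≤ B ∧ ∀ (i : G.ι) (F : ℂ → EN N) (z : ℂ), AnalyticAt ℂ F z → (∀ᶠ w in 𝓝 z, F w ∈ G.K) →
    ContDiffAt ℝ 2 (fun w => G.lam i (F w)) z ∧ |Δ (fun w => G.lam i (F w)) z| ≤ B * fs (F z) (deriv F z) ^ 2 ∧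
      gc (fun w => G.lam i (F w)) z = - G.ell i (F z) (deriv F z) := by
  sorry

/-- MODULE EGb.  `lam_c2`, `lam_lowerA`, `lam_upperA` (StubA), `exists_good`, `growth`, `lower`, `speed` (Face). -/
theorem eHyp (S : Base G T rho M c₀ C δ g) : ∃ B₀ C₁ c₁ R₁ : ℝ, ∀ C₂ R₂ : ℝ, C₁ ≤ C₂ → R₁ ≤ R₂ → Hyp (eFam G T rho δ B₀) C₂ c₁ R₂ := by
  sorry

/-- MODULE EGc.  `Ok.res`, `speed`, `L_bdd` (Face), `lam_c2`; `Pol = (-1) ^ m * G.Pol`; `nq q = 1` gives an index `j` with `‖q j‖ ≥ (1 / card J) ^ m j`. -/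
theorem eRel (S : Base G T rho M c₀ C δ g) : ∃ C₁ R₁ cq : ℝ, ∃ Pol : G.Ty → G.J → MvPolynomial G.ι ℂ, ∀ B₀ C₂ R₂ : ℝ, C₁ ≤ C₂ → R₁ ≤ R₂ →
    Rel (eFam G T rho δ B₀) C₂ R₂ cq G.m Pol (fun x => x.1.1) := by
  sorry

/-- MODULE EGd.  From `flat` (Face): `ε R / 2 + |B₀| ≤ ε R`. -/
theorem eFlat (S : Base G T rho M c₀ C δ g) : ∃ A' : ℝ, 0 < A' ∧ ∀ B₀ : ℝ, AllFlat (eFam G T rho δ B₀) A' := by
  sorry

end Stub

end Pool.Agent.SR2
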