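import Pool.Agent.SR2.HDefs2
import Pool.Agent.H14.KB.Kob
import Pool.Agent.AD.T.NCDefs
import Pool.Agent.E1.Defs

/-!
# SR StubH: block H, the geometry (stubs; never import this file in a hand-in)

One theorem = one file `Pool/Agent/SR2/<Module>.lean`, namespace `Pool.Agent.SR2`, exactly these statements.
-/

set_option autoImplicit false

open Topology Filter Metric MvPolynomial

noncomputable section

namespace Pool.Agent.SR2

open Pool.Agent.H36.BP (EN fs)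
open Pool.Agent.H17BP (Surface IsChart IsForm NoZeros)
open Pool.Agent.H36.BPL (PoleLE)
open Pool.Agent.H14.PP (IsCone Tan)
open Pool.Agent.H14.KB (rhoS)
open Pool.Agent.H17 (PN VanishesAt HolomorphicInto)
open Pool.Agent.H62.FC (Homog)
open Pool.Agent.H17LG.Variety (FunField IsLogGeneralType)
open Pool.Agent.H13.OT (OrderTwo)
open Pool.Agent.H17EF (projVar coneE)
open Pool.Agent.AD (SymDiff TangentTo)
open Pool.Agent.AD.NC (IsSmooth IsOfLogGeneralType)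
open Pool.Agent.SDA (openCone EnergyK Near AffOpen IsHyperbolicOpen)

variable {N k M : ℕ}

namespace Stub

variable {P : Ideal (MvPolynomial (Fin (N + 1)) ℂ)} {H : MvPolynomial (Fin (N + 1)) ℂ} {h : ℕ} {E : Fin k → Fin (M + 1) → MvPolynomial (Fin (N + 1)) ℂ}
  {c b : Fin k → ℕ}

/-- MODULE H1 (Glo.lean): from charts to the whole surface, for estimates which do not depend on the lift (compactness) -/
theorem global_bound {X K : Set (EN N)} (hX : Surface X) (hc : IsCone X) (hKX : K ⊆ X) (hKs : ∀ x ∈ K, ∀ c : ℂ, c ≠ 0 → c • x ∈ K)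
    {Q : ℝ → EN N → EN N → Prop} (hmono : ∀ C C' x v, C ≤ C' → Q C x v → Q C' x v)
    (hinv : ∀ C, ∀ x ∈ K, ∀ v, Tan X x v → ∀ c a : ℂ, c ≠ 0 → Q C x v → Q C (c • x) (c • v + a • x))
    (hloc : ∀ x ∈ X, ∃ σ τ, IsChart X σ τ ∧ σ 0 = x ∧ ∃ C : ℝ, ∀ᶠ y in 𝓝 (0 : ℂ × ℂ), σ y ∈ K → ∀ v', Q C (σ y) (fderiv ℂ σ y v')) :
    ∃ C : ℝ, ∀ x ∈ K, ∀ v, Tan X x v → Q C x v := by
  sorry

/-- MODULE H2 (1) (Snc1.lean) -/
theorem snc_ne (hs : Snc P H E b) (i : Fin k) {x : EN N} (hx : x ∈ oc P H) : vec (E i) x ≠ 0 := by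
  sorry

/-- MODULE H2 (2) (Snc1.lean) -/
theorem snc_cmp (hX : Surface (coneE P)) (hc : IsCone (coneE P)) (hH : H.IsHomogeneous h) (hE : ∀ i l, (E i l).IsHomogeneous (c i))
    (hs : Snc P H E b) :
    ∃ C : ℝ, ∀ x ∈ oc P H, |h * Real.log ‖x‖ - Real.log ‖eval x.ofLp H‖ - ∑ i, b i * lamE (E i) (c i) x| ≤ C := by
  sorry

/-- MODULE H2 (3) (Snc2.lean) -/
theorem snc_cmp' (hX : Surface (coneE P)) (hc : IsCone (coneE P)) (hH : H.IsHomogeneous h) (hE : ∀ i l, (E i l).IsHomogeneous (c i))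
    (hs : Snc P H E b) :
    ∃ C : ℝ, ∀ x ∈ oc P H, ∀ v, Tan (coneE P) x v →
      ‖(h : ℂ) * (inner ℂ x v / (‖x‖ : ℂ) ^ 2) - fderiv ℂ (fun y : EN N => eval y.ofLp H) x v / eval x.ofLp H +
        ∑ i, (b i : ℂ) * ellE (E i) (c i) x v‖ ≤ C * fs x v := by
  sorry

/-- MODULE H2 (4) (Snc2.lean) -/
theorem snc_fs (hX : Surface (coneE P)) (hc : IsCone (coneE P)) (hE : ∀ i l, (E i l).IsHomogeneous (c i)) (hs : Snc P H E b) :
    ∃ C : ℝ, 0 ≤ C ∧ ∀ i, ∀ x ∈ oc P H, ∀ v, Tan (coneE P) x v → fs (vec (E i) x) (fderiv ℂ (vec (E i)) x v) ≤ C * fs x v := by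
  sorry

/-- MODULE H3 (Rsd.lean and others): the residues.  In the coordinates of a chart `θ` is a form in `dy₁ / y₁`, `dy₂ / y₂` (or `dy₂`) with holomorphic
coefficients (Riemann's extension theorem, `SDA/X1`); the coefficient of `(dy₁ / y₁) ^ m` is locally constant along the component (maximum principle on the
compact component); types: the crossing points (with disjoint neighbourhoods) and finitely many charts at the other points. -/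
theorem exists_res (hX : Surface (coneE P)) (hc : IsCone (coneE P)) (hH : H.IsHomogeneous h) (h1 : 1 ≤ h)
    (hE : ∀ i l, (E i l).IsHomogeneous (c i)) (hs : Snc P H E b) {s : ℕ} {m : Fin s → ℕ} (hm : ∀ j, 1 ≤ m j) (θ : ∀ j, SymDiff (oc P H) (m j))
    (hθ : ∀ j, HasLogPoles E c (θ j)) :
    ∃ (n : ℕ) (supp : Fin n → Finset (Fin k)) (Pol : Fin n → Fin s → MvPolynomial (Fin k) ℂ) (ty : EN N → Fin n),
      (∀ t, (supp t).card ≤ 2) ∧ (∀ t j, (Pol t j).IsHomogeneous (m j)) ∧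
      (∀ t j (y y' : Fin k → ℂ), (∀ i ∈ supp t, y i = y' i) → eval y (Pol t j) = eval y' (Pol t j)) ∧
      (∃ C : ℝ, 0 ≤ C ∧ ∀ x ∈ oc P H, (∀ i, i ∉ supp (ty x) → lamE (E i) (c i) x ≤ C) ∧ ∀ j v, Tan (coneE P) x v →
        ‖(θ j).toFun x v - eval (fun i => ellE (E i) (c i) x v) (Pol (ty x) j)‖ ≤ C * fs x v * logLen E c x v ^ (m j - 1)) := by
  sorry

/-- MODULE H4 (OmL.lean): in a chart `|Ω (σ y; dσ v', dσ w')| ≤ C |det (v', w')| ^ m / |co co'| ^ (m - 1)`, `det (v', w')` is `co co'` times the determinant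
in the logarithmic frame -/
theorem omega_le (hX : Surface (coneE P)) (hc : IsCone (coneE P)) (hH : H.IsHomogeneous h) (h1 : 1 ≤ h)
    (hE : ∀ i l, (E i l).IsHomogeneous (c i)) (hs : Snc P H E b) {mΩ jΩ r : ℕ} {Ω : Fin r → EN N → EN N → EN N → ℂ}
    {Q : Fin r → MvPolynomial (Fin (N + 1)) ℂ} (hΩ : LogAmple P H mΩ jΩ Ω Q) :
    ∃ C : ℝ, 0 ≤ C ∧ ∀ a, ∀ x ∈ oc P H, ∀ v w, Tan (coneE P) x v → Tan (coneE P) x w →
      ‖Ω a x v w‖ ≤ C * logLen E c x v ^ mΩ * logLen E c x w ^ mΩ / ‖x‖ ^ jΩ := by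
  sorry

/-- MODULE H5 (Qnl.lean and others): the curve `Z` is null in a quantitative sense (Nullstellensatz for the polynomial of `θ j` times the equations of the
exceptional points, in the ideal of the tangent vectors `(x, v)` of `{H = 1}` with `R l (x) = 0`, `dR l (v) = 0`) -/
theorem exists_qn [P.IsPrime] {z : Fin 2 → FunField P} (hP : Homog P) (hz : IsTranscendenceBasis ℂ z) (hsm : IsSmooth P 2)
    (hH : H.IsHomogeneous h) (h1 : 1 ≤ h) {s : ℕ} {m : Fin s → ℕ}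
    (hm : ∀ j, 1 ≤ m j) (θ : ∀ j, SymDiff (oc P H) (m j)) (hθ : ∀ j, IsAlg (θ j)) {mΩ jΩ r t : ℕ} {Ω : Fin r → EN N → EN N → EN N → ℂ}
    {Q : Fin r → MvPolynomial (Fin (N + 1)) ℂ} (hΩ : LogAmple P H mΩ jΩ Ω Q) {R : Fin t → MvPolynomial (Fin (N + 1)) ℂ} (hR : NullCurve θ R)
    (D : ℕ) (B : ℝ) :
    ∃ C α : ℝ, 0 ≤ C ∧ 0 < α ∧ ∀ (φ : ℂ → EN N) (q : Fin s → ℂ) (ε : ℝ), 0 < ε → ε ≤ 1 → DifferentiableOn ℂ φ (ball 0 1) →
      (∀ z ∈ ball (0 : ℂ) 1, φ z ∈ oc P H ∧ eval (φ z).ofLp H = 1 ∧ ‖φ z‖ ≤ B ∧ rhoS (eqT H R Q) D (φ z) ≤ ε) →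
      (∀ j, ∀ z ∈ ball (0 : ℂ) 1, (θ j).toFun (φ z) (deriv φ z) = q j) → ∑ j, ‖q j‖ ^ ((m j : ℝ)⁻¹) ≤ C * ε ^ α := by
  sorry

/-- MODULE H6 (MMax.lean): the maximum of the metrics of the curves `{R l * Q a * H = 0}` -/
theorem exists_metric_family [P.IsPrime] {z : Fin 2 → FunField P} (hP : Homog P) (hz : IsTranscendenceBasis ℂ z) (hsm : IsSmooth P 2)
    (hH : H.IsHomogeneous h) (h1 : 1 ≤ h) (hHP : H ∉ P) {mΩ jΩ r t D₁ D₂ : ℕ} {Ω : Fin r → EN N → EN N → EN N → ℂ}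
    {Q : Fin r → MvPolynomial (Fin (N + 1)) ℂ} (hΩ : LogAmple P H mΩ jΩ Ω Q) (hQ : ∀ a, (Q a).IsHomogeneous D₂)
    {R : Fin t → MvPolynomial (Fin (N + 1)) ℂ} (hR : ∀ l, (R l).IsHomogeneous D₁) (hRP : ∃ l, R l ∉ P) :
    ∃ (M' : ℕ) (c₀ C δ : ℝ) (g : (ℂ → EN N) → ℂ → ℝ), 0 < δ ∧
      EnergyK (coneE P) (oc P H) {x | x ∈ coneE P ∧ ∀ a, eqT H R Q a x = 0} (fun x => ‖x‖) (rhoS (eqT H R Q) (D₁ + D₂ + h)) M' c₀ C g ∧
      Near (oc P H) {x | x ∈ coneE P ∧ ∀ a, eqT H R Q a x = 0} (fun x => ‖x‖) (rhoS (eqT H R Q) (D₁ + D₂ + h)) c₀ g δ := by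
  sorry

/-- MODULE H7 (Bdy.lean): entire curves in the boundary (Hurwitz: for each `i` the limit lies in the component `i` or does not meet it; two components have
finitely many common points) -/
theorem h1_of (hX : Surface (coneE P)) (hc : IsCone (coneE P)) (hP : Homog P) (hE : ∀ i l, (E i l).IsHomogeneous (c i)) (hs : Snc P H E b)
    (hB : NoBdyCurve P E) (𝒰 : Ultrafilter ℕ) (h𝒰 : (𝒰 : Filter ℕ) ≤ atTop) (F : ℕ → ℂ → EN N) (H' : ℂ → EN N)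
    (hF : ∀ k, Differentiable ℂ (F k)) (hFK : ∀ k z, F k z ∈ oc P H) (hH' : Differentiable ℂ H') (hH : ∀ z, H' z ∈ coneE P ∧ H' z ∉ oc P H)
    (hlim : ∀ z, ∃ r : ℝ, 0 < r ∧ ∃ u : ℕ → ℂ → ℂ, (∀ᶠ k in (𝒰 : Filter ℕ), DifferentiableOn ℂ (u k) (ball z r) ∧ ∀ w ∈ ball z r, u k w ≠ 0) ∧
      TendstoLocallyUniformlyOn (fun k w => u k w • F k w) H' 𝒰 (ball z r)) (z z' : ℂ) : ∃ c : ℂ, H' z = c • H' z' := by
  sorry

/-- MODULE H8 (Lin.lean): a curve of polynomial growth is polynomial -/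
theorem na_of (hP : Homog P) (hL : NoLine P H) (F : ℂ → EN N) (hF : Differentiable ℂ F) (hK : ∀ z, F z ∈ oc P H) (h1 : ∀ z, eval (F z).ofLp H = 1)
    (hg : ∃ (C : ℝ) (k : ℕ), ∀ z, ‖F z‖ ≤ C * (1 + ‖z‖) ^ k) (z z' : ℂ) : F z = F z' := by
  sorry

/-- MODULE H9 (Wfl.lean): the fields of `Geo.Ok` for a symmetric differential (compare `SDA/E2.lean`) -/
theorem sym_fields [P.IsPrime] {z : Fin 2 → FunField P} (hP : Homog P) (hz : IsTranscendenceBasis ℂ z) (hsm : IsSmooth P 2)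
    (hH : H.IsHomogeneous h) (h1 : 1 ≤ h) {m : ℕ} (hm : 1 ≤ m) (θ : SymDiff (oc P H) m) :
    (∀ x ∈ oc P H, ∀ v, Tan (coneE P) x v → ∀ c a : ℂ, c ≠ 0 → θ.toFun (c • x) (c • v + a • x) = θ.toFun x v) ∧
    (∀ x ∈ oc P H, ∀ v, Tan (coneE P) x v → ∀ c : ℂ, θ.toFun x (c • v) = c ^ m * θ.toFun x v) ∧
    ContinuousOn (fun y : EN N × EN N => θ.toFun y.1 y.2) {y | y.1 ∈ oc P H ∧ Tan (coneE P) y.1 y.2} := by
  sorry

/-- MODULE H10 (OkA.lean): the hypotheses `Geo.Ok` -/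
theorem exists_ok [P.IsPrime] {z : Fin 2 → FunField P} (hP : Homog P) (hz : IsTranscendenceBasis ℂ z) (hsm : IsSmooth P 2)
    (hH : H.IsHomogeneous h) (h1 : 1 ≤ h) (hE : ∀ i l, (E i l).IsHomogeneous (c i)) (hch : ∀ i, h + 1 ≤ c i) (hs : Snc P H E b)
    {s : ℕ} {m : Fin s → ℕ} (hs1 : 1 ≤ s) (hm : ∀ j, 1 ≤ m j) (θ : ∀ j, SymDiff (oc P H) (m j)) (hθ : ∀ j, HasLogPoles E c (θ j))
    {mΩ jΩ r : ℕ} {Ω : Fin r → EN N → EN N → EN N → ℂ} {Q : Fin r → MvPolynomial (Fin (N + 1)) ℂ} (hΩ : LogAmple P H mΩ jΩ Ω Q)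
    (hB : NoBdyCurve P E) (hL : NoLine P H) :
    ∃ (n : ℕ) (supp : Fin n → Finset (Fin k)) (Pol : Fin n → Fin s → MvPolynomial (Fin k) ℂ) (ty : EN N → Fin n),
      (geoOf P H h E c b θ supp Pol ty mΩ jΩ Ω).Ok := by
  sorry

/-- MODULE H11 (MetA.lean): the first metric (`exists_metric_family`; the other fields as in `SDA/E3.lean`) -/
theorem exists_met [P.IsPrime] {z : Fin 2 → FunField P} (hP : Homog P) (hz : IsTranscendenceBasis ℂ z) (hsm : IsSmooth P 2)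
    (hH : H.IsHomogeneous h) (h1 : 1 ≤ h) (hHP : H ∉ P) {s : ℕ} {m : Fin s → ℕ} (hs1 : 1 ≤ s) (hm : ∀ j, 1 ≤ m j)
    (θ : ∀ j, SymDiff (oc P H) (m j)) {mΩ jΩ r t D₁ D₂ : ℕ} {Ω : Fin r → EN N → EN N → EN N → ℂ}
    {Q : Fin r → MvPolynomial (Fin (N + 1)) ℂ} (hΩ : LogAmple P H mΩ jΩ Ω Q) (hQ : ∀ a, (Q a).IsHomogeneous D₂)
    {R : Fin t → MvPolynomial (Fin (N + 1)) ℂ} (hR : ∀ l, (R l).IsHomogeneous D₁) (hnull : NullCurve θ R)
    {n : ℕ} (supp : Fin n → Finset (Fin k)) (Pol : Fin n → Fin s → MvPolynomial (Fin k) ℂ) (ty : EN N → Fin n) :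
    ∃ (M' : ℕ) (c₀ C δ : ℝ) (g : (ℂ → EN N) → ℂ → ℝ),
      (geoOf P H h E c b θ supp Pol ty mΩ jΩ Ω).Met {x | x ∈ coneE P ∧ ∀ a, eqT H R Q a x = 0} (rhoS (eqT H R Q) (D₁ + D₂ + h)) M' c₀ C δ g := by
  sorry

/-- MODULE H12 (MetB.lean): the metrics of the larger curves (`SDA.energyK_surface`, applied to `R l * R'`, `R l ∉ P`) -/
theorem exists_met_of_form [P.IsPrime] {z : Fin 2 → FunField P} (hP : Homog P) (hz : IsTranscendenceBasis ℂ z) (hsm : IsSmooth P 2)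
    (hH : H.IsHomogeneous h) (h1 : 1 ≤ h) (hHP : H ∉ P) (hgt : IsOfLogGeneralType P (fun _ : Fin 1 => H) 2) {s : ℕ} {m : Fin s → ℕ} (hs1 : 1 ≤ s)
    (hm : ∀ j, 1 ≤ m j) (θ : ∀ j, SymDiff (oc P H) (m j)) {mΩ jΩ r t : ℕ} {Ω : Fin r → EN N → EN N → EN N → ℂ}
    {R : Fin t → MvPolynomial (Fin (N + 1)) ℂ} (hnull : NullCurve θ R)
    {n : ℕ} (supp : Fin n → Finset (Fin k)) (Pol : Fin n → Fin s → MvPolynomial (Fin k) ℂ) (ty : EN N → Fin n)
    {R' : MvPolynomial (Fin (N + 1)) ℂ} {d : ℕ} (hR' : R'.IsHomogeneous d) (hRP : R' ∉ P) :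
    ∃ (Q' : MvPolynomial (Fin (N + 1)) ℂ) (D M' : ℕ) (c₀ C δ : ℝ) (g : (ℂ → EN N) → ℂ → ℝ), Q'.IsHomogeneous D ∧ Q' ∉ P ∧
      (∀ x : EN N, eval x.ofLp R' = 0 → eval x.ofLp Q' = 0) ∧ (∀ x : EN N, (∀ l, eval x.ofLp (R l) = 0) → eval x.ofLp Q' = 0) ∧
      (geoOf P H h E c b θ supp Pol ty mΩ jΩ Ω).Met {x | x ∈ coneE P ∧ eval x.ofLp Q' = 0} (fun x => ‖eval x.ofLp Q'‖ / ‖x‖ ^ D) M' c₀ C δ g := by
  sorry

/-- MODULE H13 (Per.lean): a periodic curve of exponential type is algebraic (its coordinates are Laurent polynomials in `exp (2 π i z / ω)`; the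
functions of degree zero would embed `FunField P` into `ℂ(t)`) -/
theorem periodic_degenerate [P.IsPrime] {z : Fin 2 → FunField P} (hP : Homog P) (hz : IsTranscendenceBasis ℂ z) {F : ℂ → EN N}
    (hF : Differentiable ℂ F) (hX : ∀ z, F z ∈ coneE P) {ω : ℂ} (hω : ω ≠ 0) (hper : ∀ z, F (z + ω) = F z)
    (hg : ∃ B : ℝ, ∀ z, Real.log ‖F z‖ ≤ B * (1 + ‖z‖)) :
    ∃ (R : MvPolynomial (Fin (N + 1)) ℂ) (D : ℕ), R.IsHomogeneous D ∧ R ∉ P ∧ ∀ z, eval (F z).ofLp R = 0 := by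
  sorry

/-- MODULE H14 (NCu.lean and others): from `the null curves of order two lie in {R = 0}' to the data `NullCurve'.  `R'` are the equations of the union of
those components of `{R = 0}` which are the Zariski closures of the null curves `f` of order two (the ideal of `f` is a minimal prime over `P + (R)`, since
`f` is not constant).  `tan`: outside the common points of two components and the singular points the tangent vectors `v` with `dQ (v) = 0` for `Q` in the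
ideal of `f` are the combinations of `x` and of one vector `t (x)` which is given by minors; `W (x, t (x))` vanishes on `f`, so on the component. -/
theorem exists_nullCurve [P.IsPrime] {z : Fin 2 → FunField P} (hP : Homog P) (hz : IsTranscendenceBasis ℂ z) (hsm : IsSmooth P 2)
    (hH : H.IsHomogeneous h) (h1 : 1 ≤ h) (hHP : H ∉ P) {s : ℕ} {m : Fin s → ℕ} (hs1 : 1 ≤ s) (hm : ∀ j, 1 ≤ m j) (θ : ∀ j, SymDiff (oc P H) (m j))
    (hθ : ∀ j, IsAlg (θ j)) {R : MvPolynomial (Fin (N + 1)) ℂ} {d : ℕ} (hR : R.IsHomogeneous d) (hRP : R ∉ P)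
    (hnull : ∀ f : ℂ → PN N, HolomorphicInto f Set.univ → OrderTwo f → (∀ z, f z ∈ projVar P ∧ ¬ VanishesAt H (f z)) → (∃ z w, f z ≠ f w) →
      (∀ j, TangentTo (θ j) f) → ∀ z, VanishesAt R (f z)) :
    ∃ (t : ℕ) (R' : Fin t → MvPolynomial (Fin (N + 1)) ℂ), NullCurve θ R' := by
  sorry

/-- MODULE H15 (CopA.lean): two coprime algebraic symmetric differentials (`SDA/X3`, `SDA/X4`, where the extension of the forms across `{H = 0}` follows from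
`IsAlg` instead of `VanishesOnStatic`) -/
theorem exists_R_alg [P.IsPrime] {z : Fin 2 → FunField P} (hP : Homog P) (hz : IsTranscendenceBasis ℂ z) (hsm : IsSmooth P 2)
    (hH : H.IsHomogeneous h) (h1 : 1 ≤ h) (hHP : H ∉ P) {m₁ m₂ : ℕ} (h₁ : 1 ≤ m₁) (h₂ : 1 ≤ m₂)
    (θ₁ : SymDiff (oc P H) m₁) (θ₂ : SymDiff (oc P H) m₂) (hθ₁ : IsAlg θ₁) (hθ₂ : IsAlg θ₂)
    (hd : oc P H ⊆ closure (oc P H \ Pool.Agent.E1.ComNull θ₁ θ₂)) :
    ∃ (R : MvPolynomial (Fin (N + 1)) ℂ) (d : ℕ), R.IsHomogeneous d ∧ R ∉ P ∧ ∀ f : ℂ → PN N, HolomorphicInto f Set.univ →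
      (∀ z, f z ∈ projVar P ∧ ¬ VanishesAt H (f z)) → (∃ z w, f z ≠ f w) → TangentTo θ₁ f → TangentTo θ₂ f → ∀ z, VanishesAt R (f z) := by
  sorry

/-- MODULE H16 (Big.lean): the degrees `c i` may be assumed to be large (`E' i (l, a) = E i l * X a ^ (h + 1)`; the quotient of `vec (E' i)` and
`vec (E i)` has no zeros, and `ellE` changes by at most `C * fs`) -/
theorem exists_big (hX : Surface (coneE P)) (hc : IsCone (coneE P)) (hH : H.IsHomogeneous h) (hE : ∀ i l, (E i l).IsHomogeneous (c i))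
    (hs : Snc P H E b) (hB : NoBdyCurve P E) {s : ℕ} {m : Fin s → ℕ} (θ : ∀ j, SymDiff (oc P H) (m j)) (hθ : ∀ j, HasLogPoles E c (θ j)) :
    ∃ (M' : ℕ) (E' : Fin k → Fin (M' + 1) → MvPolynomial (Fin (N + 1)) ℂ) (c' : Fin k → ℕ), (∀ i l, (E' i l).IsHomogeneous (c' i)) ∧
      (∀ i, h + 1 ≤ c' i) ∧ Snc P H E' b ∧ NoBdyCurve P E' ∧ ∀ j, HasLogPoles E' c' (θ j) := by
  sorry

end Stub

end Pool.Agent.SR2
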