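import Pool.Agent.SR2.RsDefs

/-!
# SR2 StubR: the residues, module H3 `exists_res` of `StubH` (stubs; never import this file in a hand-in)

One theorem = one file with exactly this statement, namespace `Pool.Agent.SR2`.
-/

set_option autoImplicit false

open Topology Filter Metric MvPolynomial

noncomputable section

namespace Pool.Agent.SR2

open Pool.Agent.H36.BP (EN fs)
open Pool.Agent.H17BP (Surface IsChart)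
open Pool.Agent.H14.PP (IsCone Tan)
open Pool.Agent.H17EF (coneE)
open Pool.Agent.AD (SymDiff)

variable {N k M : ℕ}

namespace Stub

variable {P : Ideal (MvPolynomial (Fin (N + 1)) ℂ)} {H : MvPolynomial (Fin (N + 1)) ℂ} {E : Fin k → Fin (M + 1) → MvPolynomial (Fin (N + 1)) ℂ}
  {b c : Fin k → ℕ} {σ : ℂ × ℂ → EN N} {τ : EN N → ℂ × ℂ} {o₁ o₂ : Option (Fin k)}

/-! ### helper24 -/

/-- RsC1.lean: from `Snc`; swap the coordinates of the chart if only the second one is used -/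
theorem exists_lc (hs : Snc P H E b) {x : EN N} (hx : x ∈ coneE P) : ∃ σ τ o₁ o₂, LC P H E σ τ o₁ o₂ ∧ σ 0 = x := by sorry

/-- RsC2.lean: the length and the logarithmic differentials in the chart -/
theorem lc_est (hE : ∀ i l, (E i l).IsHomogeneous (c i)) (hL : LC P H E σ τ o₁ o₂) :
    ∃ C : ℝ, 0 ≤ C ∧ ∀ᶠ y in 𝓝 (0 : ℂ × ℂ), ∀ t : ℂ × ℂ, fs (σ y) (fderiv ℂ σ y t) ≤ C * ‖t‖ ∧ ‖t‖ ≤ C * fs (σ y) (fderiv ℂ σ y t) ∧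
      (σ y ∈ oc P H → ∀ i, ‖ellE (E i) (c i) (σ y) (fderiv ℂ σ y t) - uu o₁ o₂ i y t‖ ≤ C * ‖t‖) := by sorry

/-- RsC3.lean -/
theorem lc_lam (hL : LC P H E σ τ o₁ o₂) :
    ∃ C : ℝ, ∀ᶠ y in 𝓝 (0 : ℂ × ℂ), ∀ i, o₁ ≠ some i → o₂ ≠ some i → lamV (E i) (c i) (σ y) ≤ C := by sorry

/-- RsC4.lean: a tangent vector in a chart -/
theorem tan_chart {X : Set (EN N)} (h : IsChart X σ τ) :
    ∀ᶠ y in 𝓝 (σ 0), y ∈ X → ∃ a : ℂ, a ≠ 0 ∧ y = a • σ (τ y) ∧ ∀ v, Tan X y v → ∃ (t : ℂ × ℂ) (a' : ℂ), v = a • fderiv ℂ σ (τ y) t + a' • y := by sorry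

/-- RsC5.lean: invariance -/
theorem ellE_inv {F : Fin (M + 1) → MvPolynomial (Fin (N + 1)) ℂ} {d : ℕ} (hF : ∀ l, (F l).IsHomogeneous d) {x : EN N} (hx : x ≠ 0) (hv : vec F x ≠ 0)
    {a : ℂ} (ha : a ≠ 0) (a' : ℂ) (v : EN N) : ellE F d (a • x) (a • v + a' • (a • x)) = ellE F d x v := by sorry

/-- RsC5.lean -/
theorem lamV_inv {F : Fin (M + 1) → MvPolynomial (Fin (N + 1)) ℂ} {d : ℕ} (hF : ∀ l, (F l).IsHomogeneous d) {x : EN N} (hx : x ≠ 0) (hv : vec F x ≠ 0)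
    {a : ℂ} (ha : a ≠ 0) : lamV F d (a • x) = lamV F d x := by sorry

/-! ### helper85 -/

/-- RsM.lean: the maximum principle on a compact curve.  (The set of the points where `r` is locally constant is open, and closed by the identity theorem;
its complement in the compact set `D ∩ {|x| = 1}` is compact and relatively open, so `|r|` would have a local maximum there.) -/
theorem loc_const {D : Set (EN N)} {r : EN N → ℂ} (hD : IsClosed (insert 0 D)) (h0 : (0 : EN N) ∉ D) (hsm : ∀ x ∈ D, ∀ a : ℂ, a ≠ 0 → a • x ∈ D)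
    (hr : ∀ x ∈ D, ∀ a : ℂ, a ≠ 0 → r (a • x) = r x)
    (hloc : ∀ x ∈ D, ∃ (γ : ℂ → EN N) (g : ℂ → ℂ) (q : EN N → ℂ), ContinuousAt γ 0 ∧ γ 0 = x ∧ AnalyticAt ℂ g 0 ∧
      (∀ᶠ t in 𝓝 (0 : ℂ), γ t ∈ D ∧ r (γ t) = g t) ∧ ContinuousAt q x ∧ q x = 0 ∧ ∀ᶠ y in 𝓝 x, y ∈ D → ∃ a : ℂ, a ≠ 0 ∧ y = a • γ (q y)) :
    ∀ x ∈ D, ∀ᶠ y in 𝓝 x, y ∈ D → r y = r x := by sorry

/-- RsT.lean: types.  (Finitely many lines in `Cr`, with disjoint neighbourhoods which are open cones; compactness of the rest.) -/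
theorem exists_types {X K Cr : Set (EN N)} (hX : IsCone X) (hKX : K ⊆ X) (hKs : ∀ x ∈ K, ∀ a : ℂ, a ≠ 0 → a • x ∈ K) (hCr : Cr ⊆ X)
    (hCs : ∀ x ∈ Cr, ∀ a : ℂ, a ≠ 0 → a • x ∈ Cr) (hiso : ∀ x ∈ X, ∀ᶠ y in 𝓝 x, y ∈ Cr → ∃ a : ℂ, a ≠ 0 ∧ y = a • x)
    {𝒯 : Type} [Nonempty 𝒯] {Q : 𝒯 → ℝ → EN N → Prop} (hmono : ∀ t C C' x, C ≤ C' → Q t C x → Q t C' x)
    (hQs : ∀ t C, ∀ x ∈ K, ∀ a : ℂ, a ≠ 0 → Q t C x → Q t C (a • x)) (hloc : ∀ x ∈ X, ∃ t C, ∀ᶠ y in 𝓝 x, y ∈ K → Q t C y)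
    {Big : ℝ → EN N → Prop} (hanti : ∀ B B' x, B ≤ B' → Big B' x → Big B x) (hBs : ∀ B, ∀ x ∈ K, ∀ a : ℂ, a ≠ 0 → Big B x → Big B (a • x))
    (hBig : ∀ x ∈ X, x ∉ Cr → ∃ B, ∀ᶠ y in 𝓝 x, y ∈ K → ¬ Big B y) :
    ∃ (n : ℕ) (T : Fin n → 𝒯) (ty : EN N → Fin n) (C B : ℝ), (∀ x ∈ K, Q (T (ty x)) C x) ∧
      ∀ x ∈ K, Big B x → ∀ᶠ y in 𝓝 x, y ∈ K → ty y = ty x := by sorry

/-! ### helper43: expansion, residues, local estimates, assembly (`ResA` is finished) -/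

/-- RsE.lean -/
theorem lc_exp (hE : ∀ i l, (E i l).IsHomogeneous (c i)) (hL : LC P H E σ τ o₁ o₂) {m : ℕ} (hm : 1 ≤ m) (θ : SymDiff (oc P H) m)
    (hθ : HasLogPoles E c θ) :
    ∃ a : ℕ → ℂ × ℂ → ℂ, (∀ k, AnalyticAt ℂ (a k) 0) ∧ ∀ᶠ y in 𝓝 (0 : ℂ × ℂ), σ y ∈ oc P H → ∀ t : ℂ × ℂ,
      θ.toFun (σ y) (fderiv ℂ σ y t) =
        ∑ k ∈ Finset.range (m + 1), a k y * (t.1 / gg o₁.isSome y.1) ^ k * (t.2 / gg o₂.isSome y.2) ^ (m - k) := by sorry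

/-- RsB.lean (helper24): the local estimate.  `Pol = 0`, `C (a m 0) * X i ^ m` or `∑ k, C (a k 0) * X i ^ k * X i' ^ (m - k)`.  With `u₁ = t.1 / p.1`:
`|a k p - a k 0| |u₁| ^ k |u₂| ^ (m - k)` is `O (|t| (|u₁| + |u₂|) ^ (m - 1))` since `|p.1| |u₁| = |t.1|`, for the pure terms by `h1`, `h2`. -/
theorem loc_bound {m : ℕ} (hm : 1 ≤ m) {o₁ o₂ : Option (Fin k)} (hne : ∀ i, o₁ = some i → o₂ ≠ some i) (hone : o₁ = none → o₂ = none)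
    {a : ℕ → ℂ × ℂ → ℂ} (ha : ∀ k, AnalyticAt ℂ (a k) 0) (h1 : o₁ ≠ none → ∀ᶠ s in 𝓝 (0 : ℂ), a m (0, s) = a m 0)
    (h2 : o₂ ≠ none → ∀ᶠ s in 𝓝 (0 : ℂ), a 0 (s, 0) = a 0 0) {C : ℝ} (hC : 0 ≤ C) :
    ∃ (Pol : MvPolynomial (Fin k) ℂ) (C' : ℝ), Pol.IsHomogeneous m ∧
      (∀ y y' : Fin k → ℂ, (∀ i, (o₁ = some i ∨ o₂ = some i) → y i = y' i) → eval y Pol = eval y' Pol) ∧ 0 ≤ C' ∧
      ∀ᶠ p in 𝓝 (0 : ℂ × ℂ), gg o₁.isSome p.1 * gg o₂.isSome p.2 ≠ 0 → ∀ (t : ℂ × ℂ) (ell : Fin k → ℂ) (F L : ℝ), ‖t‖ ≤ C * F → 0 ≤ F →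
        F + ∑ i, ‖ell i‖ ≤ L → (∀ i, ‖ell i - uu o₁ o₂ i p t‖ ≤ C * ‖t‖) →
        ‖∑ k ∈ Finset.range (m + 1), a k p * (t.1 / gg o₁.isSome p.1) ^ k * (t.2 / gg o₂.isSome p.2) ^ (m - k) - eval ell Pol‖ ≤
          C' * F * L ^ (m - 1) := by sorry

/-- Rloc.lean: the local form of `exists_res` -/
theorem res_loc {h : ℕ} (hX : Surface (coneE P)) (hc : IsCone (coneE P)) (hH : H.IsHomogeneous h) (hE : ∀ i l, (E i l).IsHomogeneous (c i)) (hs : Snc P H E b) {s : ℕ} {m : Fin s → ℕ}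
    (hm : ∀ j, 1 ≤ m j) (θ : ∀ j, SymDiff (oc P H) (m j)) (hθ : ∀ j, HasLogPoles E c (θ j)) {x₀ : EN N} (hx₀ : x₀ ∈ coneE P) :
    ∃ (S : Finset (Fin k)) (Pol : Fin s → MvPolynomial (Fin k) ℂ) (C : ℝ), (∀ i, i ∈ S ↔ vec (E i) x₀ = 0) ∧ S.card ≤ 2 ∧
      (∀ j, (Pol j).IsHomogeneous (m j)) ∧ (∀ j (y y' : Fin k → ℂ), (∀ i ∈ S, y i = y' i) → eval y (Pol j) = eval y' (Pol j)) ∧ 0 ≤ C ∧
      ∀ᶠ x in 𝓝 x₀, x ∈ oc P H → (∀ i, i ∉ S → lamV (E i) (c i) x ≤ C) ∧ ∀ j v, Tan (coneE P) x v →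
        ‖(θ j).toFun x v - eval (fun i => ellE (E i) (c i) x v) (Pol j)‖ ≤ C * fs x v * logLen E c x v ^ (m j - 1) := by sorry

end Stub

end Pool.Agent.SR2
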