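import Pool.Agent.SR2.ABas
import Pool.Agent.SR2.ALpr
import Pool.Agent.SR2.Tm1
import Pool.Agent.SDA.Ha
import Pool.Agent.SDA.Nn

/-!
# SR2 Tm2: there are no tame curves (module Z7)

The port of `SDA/T2`.  Near infinity the metric has no curvature error and is bounded by a power of `|z|`.  Harnack's inequality on discs of radius `R`
which are tangent to a fixed disc gives `log |F| ≤ B R` there, and the length is large: this contradicts `lprime`.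
-/

set_option autoImplicit false

open Topology Filter Metric

noncomputable section

namespace Pool.Agent.SR2

open Pool.Agent.H36.BP (EN fs wd Sub OrdTwo)
open Pool.Agent.H14.PP (IsCone Tan)
open Pool.Agent.SY (Ent)
open Pool.Agent.SDA (EnergyK Near AffOpen Nm nForms Tame)

variable {N : ℕ} {G : Geo N} {T : Set (EN N)} {rho : EN N → ℝ} {M : ℕ} {c₀ C δ : ℝ} {g : (ℂ → EN N) → ℂ → ℝ}

/-- the length of a radial vector -/
private theorem Tm2_self (hG : G.Ok) {x : EN N} (hx : x ∈ G.K) (a : ℂ) : G.n x (a • x) = 0 := by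
  have h0 : Tan G.X x 0 := by
    refine ⟨fun _ => x, ⟨analyticAt_const, Eventually.of_forall fun _ => KX hG hx⟩, rfl, ?_⟩
    simp
  have h1 : ∀ j, G.w j x (a • x) = 0 := by
    intro j
    have h2 := hG.w_inv j x hx 0 h0 1 a one_ne_zero
    rw [one_smul, smul_zero, zero_add] at h2
    have h3 := hG.w_hom j x hx 0 h0 0
    rw [smul_zero, zero_pow (by have := hG.one_m j; omega), zero_mul] at h3
    rw [h2, h3]
  show ∑ j, ‖G.w j x (a • x)‖ ^ ((G.m j : ℝ)⁻¹) = 0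
  refine Finset.sum_eq_zero fun j _ => ?_
  rw [h1, norm_zero, Real.zero_rpow]
  have : (0 : ℝ) < G.m j := by
    have := hG.one_m j
    exact_mod_cast this
  exact (inv_pos.2 this).ne'

/-- the eventual statements near infinity hold outside a disc -/
private theorem Tm2_out {p : ℂ → Prop} (h : ∀ᶠ z in cocompact ℂ, p z) : ∃ r : ℝ, ∀ z : ℂ, r ≤ ‖z‖ → p z := by
  obtain ⟨r, hr⟩ := (hasBasis_cobounded_norm (E := ℂ)).eventually_iff.1 (Metric.cobounded_eq_cocompact (α := ℂ) ▸ h)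
  exact ⟨r, fun z hz => hr.2 hz⟩

/-- the metric is positive at some points near infinity -/
private theorem Tm2_pos (hG : G.Ok) (hM : G.Met T rho M c₀ C δ g) {F : ℂ → EN N} (hF : Ent G.K T F) {r : ℝ}
    (hr : ∀ z : ℂ, r ≤ ‖z‖ → 0 < G.n (F z) (deriv F z)) : ∃ z : ℂ, r ≤ ‖z‖ ∧ 1 < ‖z‖ ∧ 0 < g F z := by
  have hKX : ∀ {x : EN N}, x ∈ G.K → x ∈ G.X := fun hx => KX hG hx
  obtain ⟨s, hs⟩ : ∃ s : ℝ, s = |r| + 2 := ⟨_, rfl⟩
  have hs0 : 0 < s := by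
    rw [hs]
    positivity
  have hns : ‖(s : ℂ)‖ = s := by rw [Complex.norm_real, Real.norm_of_nonneg hs0.le]
  have h1 := hM.Ti F hF.diff (fun z => hKX (hF.mem z)) hF.out (s : ℂ)
  have h2 : ∀ᶠ z in 𝓝[≠] (s : ℂ), |r| + 1 < ‖z‖ := by
    refine Filter.Eventually.filter_mono nhdsWithin_le_nhds ?_
    refine continuous_norm.continuousAt.eventually (lt_mem_nhds ?_)
    show |r| + 1 < ‖(s : ℂ)‖
    rw [hns, hs]
    linarith
  obtain ⟨z, hz1, hz2⟩ := (h1.and h2).exists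
  have hrz : r ≤ ‖z‖ := by
    have := le_abs_self r
    linarith
  refine ⟨z, hrz, by have := abs_nonneg r; linarith, ?_⟩
  have hX := hKX (hF.mem z)
  have hrho : 0 < rho (F z) := lt_of_le_of_ne (hM.rho0 _ hX) fun h => hz1 ((hM.rhoT _ hX).1 h.symm)
  obtain ⟨a, ha⟩ := hM.en.lower F hF z
  rcases (hM.en.nonneg F hF z).lt_or_eq with h | h
  · exact h
  · exfalso
    rw [← h, mul_zero] at ha
    have h4 : ‖deriv F z - a • F z‖ = 0 := by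
      have h5 : 0 < rho (F z) ^ M := pow_pos hrho M
      by_contra h6
      have h7 : 0 < ‖deriv F z - a • F z‖ := lt_of_le_of_ne (norm_nonneg _) (Ne.symm h6)
      exact absurd ha (not_le.2 (mul_pos h5 h7))
    have h5 : deriv F z = a • F z := sub_eq_zero.1 (norm_eq_zero.1 h4)
    have h6 := hr z hrz
    rw [h5, Tm2_self hG (hF.mem z)] at h6
    exact lt_irrefl _ h6

/-- Harnack's inequality on the discs near infinity -/
private theorem Tm2_harnack (hG : G.Ok) (hM : G.Met T rho M c₀ C δ g) {F : ℂ → EN N} (hF : Ent G.K T F) (hN : Nm G.P F) {r A : ℝ} {k : ℕ} (hA : 0 < A) (hbad : ∀ z : ℂ, r ≤ ‖z‖ → rho (F z) < δ)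
    (hg : ∀ z : ℂ, r ≤ ‖z‖ → g F z ≤ A * ‖z‖ ^ k) {z₁ : ℂ} (hz₁ : r ≤ ‖z₁‖ - 1) (hz₁' : 1 < ‖z₁‖) (hpos : 0 < g F z₁) :
    ∃ B : ℝ, 0 ≤ B ∧ ∀ R : ℝ, 1 ≤ R → ∀ z ∈ closedBall (z₁ + ((R - 1 : ℝ) : ℂ) * (z₁ / (‖z₁‖ : ℂ))) (R / 2), Real.log ‖F z‖ ≤ B * R := by
  have hc₀ := hM.en.c₀_pos
  have hnear := hM.near
  obtain ⟨c, hc, hc1, hlow⟩ := Pool.Agent.SDA.norm_lower hG.aff
  have hlow' : ∀ z, c ≤ ‖F z‖ := fun z => hlow _ (hN z)
  have hFpos : ∀ z, 0 < ‖F z‖ := fun z => hc.trans_le (hlow' z)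
  have hcc : (c : ℂ) ≠ 0 := by exact_mod_cast hc.ne'
  have hnF : ∀ z, ‖(c : ℂ)⁻¹ • F z‖ = c⁻¹ * ‖F z‖ := fun z => by
    rw [norm_smul, norm_inv, Complex.norm_real, Real.norm_of_nonneg hc.le]
  have hpw : ∀ z, ‖(c : ℂ)⁻¹ • F z‖ ^ (-c₀) = c ^ c₀ * ‖F z‖ ^ (-c₀) := fun z => by
    rw [hnF, Real.mul_rpow (inv_nonneg.2 hc.le) (norm_nonneg _), Real.inv_rpow hc.le, Real.rpow_neg hc.le, inv_inv]
  have hcp : 0 < c ^ c₀ := Real.rpow_pos_of_pos hc _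
  have hcontF : Continuous F := hF.diff.continuous
  have hrc : Continuous fun z => ‖F z‖ ^ (-c₀) := hcontF.norm.rpow_const fun z => Or.inl (hFpos z).ne'
  have hdF : Differentiable ℂ (fun z => (c : ℂ)⁻¹ • F z) := hF.diff.const_smul ((c : ℂ)⁻¹)
  obtain ⟨v, hv⟩ : ∃ v : ℂ → ℝ, v = fun z => g F z * (c ^ c₀ * ‖F z‖ ^ (-c₀) * ‖(z ^ k)⁻¹‖) := ⟨_, rfl⟩
  have hn1 : 0 < ‖z₁‖ := by linarith
  have hz₁0 : z₁ ≠ 0 := norm_pos_iff.1 hn1
  have hv₁ : 0 < v z₁ := by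
    rw [hv]
    refine mul_pos hpos (mul_pos (mul_pos hcp (Real.rpow_pos_of_pos (hFpos _) _)) (norm_pos_iff.2 (inv_ne_zero (pow_ne_zero _ hz₁0))))
  obtain ⟨b, hb⟩ : ∃ b : ℝ, b = -Real.log (v z₁) := ⟨_, rfl⟩
  refine ⟨6 * |Real.log A + b| / c₀, by positivity, fun R hR z hz => ?_⟩
  have hR0 : 0 < R := by linarith
  set cc : ℂ := z₁ + ((R - 1 : ℝ) : ℂ) * (z₁ / (‖z₁‖ : ℂ)) with hcdef
  have hnc : (‖z₁‖ : ℂ) ≠ 0 := by exact_mod_cast hn1.ne'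
  have hun : ‖z₁ / (‖z₁‖ : ℂ)‖ = 1 := by
    rw [norm_div, Complex.norm_real, Real.norm_of_nonneg hn1.le]
    exact div_self hn1.ne'
  have hdist : ‖z₁ - cc‖ = R - 1 := by
    have h1 : z₁ - cc = -(((R - 1 : ℝ) : ℂ) * (z₁ / (‖z₁‖ : ℂ))) := by rw [hcdef]; ring
    rw [h1, norm_neg, norm_mul, hun, mul_one, Complex.norm_real, Real.norm_of_nonneg (by linarith)]
  have hncc : ‖cc‖ = ‖z₁‖ + (R - 1) := by
    have h1 : cc = ((‖z₁‖ + (R - 1) : ℝ) : ℂ) * (z₁ / (‖z₁‖ : ℂ)) := by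
      rw [hcdef]
      push_cast
      field_simp
    rw [h1, norm_mul, hun, mul_one, Complex.norm_real, Real.norm_of_nonneg (by linarith)]
  have hout : ∀ w ∈ closedBall cc R, ‖z₁‖ - 1 ≤ ‖w‖ := by
    intro w hw
    have h1 : ‖w - cc‖ ≤ R := by rwa [mem_closedBall, dist_eq_norm] at hw
    have h2 : ‖cc‖ ≤ ‖w‖ + ‖w - cc‖ := by
      have h3 : cc = w - (w - cc) := by ring
      calc ‖cc‖ = ‖w - (w - cc)‖ := by rw [← h3]
        _ ≤ ‖w‖ + ‖w - cc‖ := norm_sub_le _ _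
    rw [hncc] at h2
    linarith
  have hw0 : ∀ w ∈ closedBall cc R, w ≠ 0 := by
    intro w hw h
    have h1 := hout w hw
    rw [h, norm_zero] at h1
    linarith
  have hrad : 2 * R - 1 = (R + ‖z₁ - cc‖) / (R - ‖z₁ - cc‖) := by
    rw [hdist]
    rw [eq_div_iff (by norm_num)]
    ring
  have key := Pool.Agent.SDA.harnack (c := cc) (z₀ := z₁) (R := R) (a := Real.log A) (b := b) hc₀
    (by
      rw [mem_ball, dist_eq_norm, hdist]
      linarith) (F := fun z => (c : ℂ)⁻¹ • F z) hdF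
    (fun z => by
      rw [hnF, inv_mul_eq_div, one_le_div hc]
      exact hlow' z)
    (v := v)
    (by
      intro x hx y hy
      have hx0 := hw0 x hx
      set h : ℂ → ℝ := fun z => c ^ c₀ * ‖F z‖ ^ (-c₀) * ‖(z ^ k)⁻¹‖ with hh
      have hhx : 0 < h x := mul_pos (mul_pos hcp (Real.rpow_pos_of_pos (hFpos _) _)) (norm_pos_iff.2 (inv_ne_zero (pow_ne_zero _ hx0)))
      have hhc : ContinuousAt h x := by
        refine (continuousAt_const.mul hrc.continuousAt).mul ?_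
        exact (((continuous_pow k).continuousAt).inv₀ (pow_ne_zero _ hx0)).norm
      rw [hv] at hy ⊢
      have h1 : g F x < y / h x := (lt_div_iff₀ hhx).2 hy
      obtain ⟨a, ha1, ha2⟩ := exists_between h1
      have h2 : a * h x < y := (lt_div_iff₀ hhx).1 ha2
      have h3 : ∀ᶠ z in 𝓝 x, a * h z < y := ((continuousAt_const.mul hhc).tendsto).eventually (gt_mem_nhds h2)
      have h4 : ∀ᶠ z in 𝓝 x, 0 < h z := hhc.eventually (lt_mem_nhds hhx)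
      refine Filter.Eventually.filter_mono nhdsWithin_le_nhds ?_
      filter_upwards [hM.en.usc F hF x a ha1, h3, h4] with z hz1 hz2 hz3
      exact (mul_lt_mul_of_pos_right hz1 hz3).trans hz2)
    (fun z hz => by
      rw [hv]
      exact mul_nonneg (hM.en.nonneg F hF z) (mul_nonneg (mul_nonneg hcp.le (Real.rpow_nonneg (norm_nonneg _) _)) (norm_nonneg _)))
    (by
      intro z hz hz0
      have hzc := ball_subset_closedBall hz
      have hq : 0 < c ^ c₀ * ‖F z‖ ^ (-c₀) * ‖(z ^ k)⁻¹‖ :=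
        mul_pos (mul_pos hcp (Real.rpow_pos_of_pos (hFpos z) _)) (norm_pos_iff.2 (inv_ne_zero (pow_ne_zero _ (hw0 z hzc))))
      rw [hv] at hz0
      have hg0 : 0 < g F z := by
        by_contra h3
        exact absurd hz0 (not_lt.2 (mul_nonpos_of_nonpos_of_nonneg (not_lt.1 h3) hq.le))
      have hs1 := (hnear F hF z (hbad z (hz₁.trans (hout z hzc))) hg0).const_mul hcp
      have hs2 : Sub (fun w : ℂ => ‖(w ^ k)⁻¹‖) z 0 :=
        Sub.of_holo ((analyticAt_id.pow k).inv (pow_ne_zero _ (hw0 z hzc))) (inv_ne_zero (pow_ne_zero _ (hw0 z hzc)))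
      have hs3 := hs1.mul hs2
      rw [add_zero] at hs3
      rw [hv]
      refine hs3.congr (Eventually.of_forall fun w => ?_)
      show c ^ c₀ * (g F w * ‖F w‖ ^ (-c₀)) * ‖(w ^ k)⁻¹‖ = g F w * (c ^ c₀ * ‖F w‖ ^ (-c₀) * ‖(w ^ k)⁻¹‖)
      ring)
    (by
      intro z hz
      rw [hv, hpw, Real.exp_log hA]
      show g F z * (c ^ c₀ * ‖F z‖ ^ (-c₀) * ‖(z ^ k)⁻¹‖) ≤ _
      have h1 := hg z (hz₁.trans (hout z hz))
      have h2 : 0 < ‖z‖ ^ k := pow_pos (norm_pos_iff.2 (hw0 z hz)) _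
      have h4 : 0 ≤ c ^ c₀ * ‖F z‖ ^ (-c₀) := mul_nonneg hcp.le (Real.rpow_nonneg (norm_nonneg _) _)
      rw [norm_inv, norm_pow]
      calc g F z * (c ^ c₀ * ‖F z‖ ^ (-c₀) * (‖z‖ ^ k)⁻¹) ≤ A * ‖z‖ ^ k * (c ^ c₀ * ‖F z‖ ^ (-c₀) * (‖z‖ ^ k)⁻¹) :=
            mul_le_mul_of_nonneg_right h1 (mul_nonneg h4 (inv_nonneg.2 h2.le))
        _ = A * (c ^ c₀ * ‖F z‖ ^ (-c₀)) := by
          field_simp)
    (by
      rw [hb, neg_neg, Real.exp_log hv₁])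
  have h1 := key z hz
  rw [← hrad, hnF, Real.log_mul (inv_ne_zero hc.ne') (hFpos z).ne', Real.log_inv] at h1
  have h2 : Real.log c ≤ 0 := Real.log_nonpos hc.le hc1
  have h3 : Real.log A + b ≤ |Real.log A + b| := le_abs_self _
  have h4 : 0 ≤ |Real.log A + b| := abs_nonneg _
  rw [div_mul_eq_mul_div, le_div_iff₀ hc₀]
  nlinarith [mul_nonneg hc₀.le (neg_nonneg.2 h2), mul_nonneg h4 hR0.le, mul_le_mul_of_nonneg_left h3 (by linarith : (0 : ℝ) ≤ 3 * (2 * R - 1))]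

/-- **Z7**: there are no tame curves -/
theorem not_tame (hG : G.Ok) (hM : G.Met T rho M c₀ C δ g) (hno : ∀ (q : G.J → ℂ) (F : ℂ → EN N), ¬ G.Cl T q F) {F : ℂ → EN N} (hF : Ent G.K T F)
    (hN : ∀ z, G.p (F z) = 1) : ¬ Tame fun z => G.n (F z) (deriv F z) := by
  intro ht
  obtain ⟨C₂, hC₂, hb⟩ := tame_bound hG hM hF hN ht
  obtain ⟨r₁, hr₁⟩ := Tm2_out hb
  obtain ⟨r₂, hr₂⟩ := Tm2_out (tame_bad hG hM hno hF hN ht)
  obtain ⟨r₃, hr₃⟩ := Tm2_out (ht.1.eventually_gt_atTop 0)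
  obtain ⟨C₃, k, hC₃⟩ := ht.2.1
  obtain ⟨r, hr⟩ : ∃ r : ℝ, r = max (max r₁ r₂) (max r₃ 1) := ⟨_, rfl⟩
  have hrr₁ : r₁ ≤ r := by rw [hr]; exact (le_max_left _ _).trans (le_max_left _ _)
  have hrr₂ : r₂ ≤ r := by rw [hr]; exact (le_max_right _ _).trans (le_max_left _ _)
  have hrr₃ : r₃ ≤ r := by rw [hr]; exact (le_max_left _ _).trans (le_max_right _ _)
  have hr1 : 1 ≤ r := by rw [hr]; exact (le_max_right _ _).trans (le_max_right _ _)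
  obtain ⟨z₁, hz₁, hz₁', hpos⟩ := Tm2_pos hG hM hF (r := r + 1) (fun z hz => hr₃ z (by linarith))
  have hg : ∀ z : ℂ, r ≤ ‖z‖ → g F z ≤ (C₂ * (|C₃| + 1) * 2 ^ k) * ‖z‖ ^ k := by
    intro z hz
    have h1 := hr₁ z (hrr₁.trans hz)
    have h2 : G.n (F z) (deriv F z) ≤ C₃ * (1 + ‖z‖) ^ k := hC₃ z
    have h3 : (1 + ‖z‖) ^ k ≤ (2 * ‖z‖) ^ k := pow_le_pow_left₀ (by positivity) (by linarith) k
    have h4 : C₃ * (1 + ‖z‖) ^ k ≤ (|C₃| + 1) * (2 * ‖z‖) ^ k :=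
      mul_le_mul (by have := le_abs_self C₃; linarith) h3 (by positivity) (by positivity)
    calc g F z ≤ C₂ * G.n (F z) (deriv F z) := h1
      _ ≤ C₂ * ((|C₃| + 1) * (2 * ‖z‖) ^ k) := mul_le_mul_of_nonneg_left (h2.trans h4) hC₂.le
      _ = (C₂ * (|C₃| + 1) * 2 ^ k) * ‖z‖ ^ k := by rw [mul_pow]; ring
  obtain ⟨B, hB, hhar⟩ := Tm2_harnack hG hM hF (nm_iff.2 hN) (r := r) (A := C₂ * (|C₃| + 1) * 2 ^ k) (k := k) (by positivity)
    (fun z hz => hr₂ z (hrr₂.trans hz)) hg (z₁ := z₁) (by linarith) hz₁' hpos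
  obtain ⟨A₀, R₀, hA₀, hR₀, hL⟩ := lprime hG
  obtain ⟨m, hm⟩ : ∃ m : ℝ, m = 2 * B / A₀ + 1 := ⟨_, rfl⟩
  have hm1 : 1 ≤ m := by
    rw [hm]
    have : 0 ≤ 2 * B / A₀ := by positivity
    linarith
  have hm0 : 0 < m := by linarith
  obtain ⟨r₄, hr₄⟩ := Tm2_out (ht.1.eventually_ge_atTop m)
  obtain ⟨R, hR⟩ : ∃ R : ℝ, R = max 1 (max (2 * r₄) (2 * R₀)) := ⟨_, rfl⟩
  have hR1 : 1 ≤ R := by rw [hR]; exact le_max_left _ _
  have hRr : 2 * r₄ ≤ R := by rw [hR]; exact (le_max_left _ _).trans (le_max_right _ _)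
  have hRR : 2 * R₀ ≤ R := by rw [hR]; exact (le_max_right _ _).trans (le_max_right _ _)
  have hn1 : 0 < ‖z₁‖ := by linarith
  obtain ⟨cc, hcc⟩ : ∃ cc : ℂ, cc = z₁ + ((R - 1 : ℝ) : ℂ) * (z₁ / (‖z₁‖ : ℂ)) := ⟨_, rfl⟩
  have hun : ‖z₁ / (‖z₁‖ : ℂ)‖ = 1 := by
    rw [norm_div, Complex.norm_real, Real.norm_of_nonneg hn1.le]
    exact div_self hn1.ne'
  have hncc : ‖cc‖ = ‖z₁‖ + (R - 1) := by
    have hnc : (‖z₁‖ : ℂ) ≠ 0 := by exact_mod_cast hn1.ne'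
    have h1 : cc = ((‖z₁‖ + (R - 1) : ℝ) : ℂ) * (z₁ / (‖z₁‖ : ℂ)) := by
      rw [hcc]
      push_cast
      field_simp
    rw [h1, norm_mul, hun, mul_one, Complex.norm_real, Real.norm_of_nonneg (by linarith)]
  have hmc : ((m⁻¹ : ℝ) : ℂ) ≠ 0 := by exact_mod_cast inv_ne_zero hm0.ne'
  have hnm : ‖((m⁻¹ : ℝ) : ℂ)‖ = m⁻¹ := by rw [Complex.norm_real, Real.norm_of_nonneg (inv_nonneg.2 hm0.le)]
  have hin : ∀ w ∈ closedBall (0 : ℂ) (R * m / 2), ((m⁻¹ : ℝ) : ℂ) * w + cc ∈ closedBall cc (R / 2) := by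
    intro w hw
    have h1 : ‖w‖ ≤ R * m / 2 := by rwa [mem_closedBall_zero_iff] at hw
    rw [mem_closedBall, dist_eq_norm, add_sub_cancel_right, norm_mul, hnm, inv_mul_le_iff₀ hm0]
    linarith
  have hRm : R₀ ≤ R * m / 2 := by nlinarith
  obtain ⟨w, hw, hw2⟩ := hL (fun w => F (((m⁻¹ : ℝ) : ℂ) * w + cc)) (hF.diff.comp ((differentiable_id.const_mul _).add_const _))
    (fun z => hF.mem _) (fun z => hN _) 0 (R * m / 2) hRm (by
      intro w hw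
      rw [n_aff hG hF.diff hF.mem, hnm]
      have h1 := hin w hw
      rw [mem_closedBall, dist_eq_norm] at h1
      have h2 : ‖cc‖ ≤ ‖((m⁻¹ : ℝ) : ℂ) * w + cc‖ + ‖((m⁻¹ : ℝ) : ℂ) * w + cc - cc‖ := by
        have h3 : cc = (((m⁻¹ : ℝ) : ℂ) * w + cc) - (((m⁻¹ : ℝ) : ℂ) * w + cc - cc) := by ring
        calc ‖cc‖ = ‖(((m⁻¹ : ℝ) : ℂ) * w + cc) - (((m⁻¹ : ℝ) : ℂ) * w + cc - cc)‖ := by rw [← h3]
          _ ≤ _ := norm_sub_le _ _
      rw [hncc] at h2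
      have h4 := hr₄ (((m⁻¹ : ℝ) : ℂ) * w + cc) (by linarith)
      rw [inv_mul_eq_div, one_le_div hm0]
      exact h4)
  have h1 := hhar R hR1 (((m⁻¹ : ℝ) : ℂ) * w + cc) (by rw [← hcc]; exact hin w hw)
  have h2 : A₀ * (R * m / 2) ≤ B * R := hw2.trans h1
  have h3 : A₀ * m = 2 * B + A₀ := by
    rw [hm]
    field_simp
  have h4 : A₀ * (R * m / 2) = R * (A₀ * m) / 2 := by ring
  rw [h4, h3] at h2
  nlinarith [mul_pos hA₀ (show 0 < R by linarith)]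

end Pool.Agent.SR2
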